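import Mathlib

/-!
# MP_61eda3_an (Lindqvist, power concavity exponent): definitions and interface statements

See `Pool/Agent/Lq/PAPER.md`.
-/

set_option autoImplicit false

open Filter Topology

namespace Lq

/-! ## One block -/

/-- coefficients of the radial profile -/
noncomputable def co (k m : ℕ) : ℝ :=
  ∏ i ∈ Finset.range m, (1 : ℝ) / ((2 * (i : ℝ) + 2) * ((k : ℝ) + 2 * (i : ℝ)))

/-- `0F1(;k/2;-s/4)` -/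
noncomputable def Lk (k : ℕ) (s : ℝ) : ℝ := ∑' m : ℕ, (-1 : ℝ) ^ m * co k m * s ^ m

/-- `YY^i f` as a function of `s = rho^2`, `YY = -(2/k) rho d/d rho = -(4/k) s d/ds` -/
noncomputable def La (k : ℕ) : ℕ → ℝ → ℝ
  | 0 => Lk k
  | i + 1 => fun s => -(4 / (k : ℝ)) * s * deriv (La k i) s

/-- `YY^i f` as a function of `rho` -/
noncomputable def F (k i : ℕ) (x : ℝ) : ℝ := La k i (x ^ 2)

/-- `X = - rho f'/f` -/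
noncomputable def X (k : ℕ) (x : ℝ) : ℝ := -(x * deriv (F k 0) x / F k 0 x)

/-- `y = 2X/k` -/
noncomputable def yy (k : ℕ) (x : ℝ) : ℝ := 2 * X k x / (k : ℝ)

/-- `e = rho^2 (-log f)''` -/
noncomputable def ee (k : ℕ) (x : ℝ) : ℝ := X k x ^ 2 - ((k : ℝ) - 1) * X k x + x ^ 2

noncomputable def gg (k : ℕ) (x : ℝ) : ℝ := X k x / ee k x

/-- `D1 = rho dy/drho` -/
noncomputable def D1 (k : ℕ) (x : ℝ) : ℝ := 2 / (k : ℝ) * (X k x + ee k x)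

/-- `D2 = rho^2 d^2 y/drho^2 = (2/k) rho de/drho` -/
noncomputable def D2 (k : ℕ) (x : ℝ) : ℝ :=
  2 / (k : ℝ) * ((2 * X k x - (k : ℝ) + 3) * ee k x + ((k : ℝ) - 1) * X k x)

noncomputable def TT (k : ℕ) (x : ℝ) : ℝ := 4 * x ^ 2 / (k : ℝ) ^ 2

/-- `Delta = k (g - sigma)`, `sigma = 1 - y` -/
noncomputable def De (k : ℕ) (x : ℝ) : ℝ := (k : ℝ) * (gg k x - (1 - yy k x))

/-- `x` lies in the first positivity interval `[0, R_k)` -/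
def Pz (k : ℕ) (x : ℝ) : Prop := 0 ≤ x ∧ ∀ t, 0 ≤ t → t ≤ x → 0 < F k 0 t

/-- `x` lies in `(0, R_k)` -/
def Pos (k : ℕ) (x : ℝ) : Prop := 0 < x ∧ ∀ t, 0 ≤ t → t ≤ x → 0 < F k 0 t

/-- normalised jets of `YY^i f / f` -/
noncomputable def j0 (k i : ℕ) (x : ℝ) : ℝ := F k i x / F k 0 x
noncomputable def j1 (k i : ℕ) (x : ℝ) : ℝ :=
  x * deriv (fun t => F k i t / F k 0 t) x / D1 k x
noncomputable def j2 (k i : ℕ) (x : ℝ) : ℝ :=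
  x ^ 2 * deriv (deriv (fun t => F k i t / F k 0 t)) x / D2 k x

/-! ## Limit functions -/

noncomputable def rr (a : ℝ) : ℝ := if a ≤ 1 then a * (2 - a) * (1 - a) else (a - 1) / 2
noncomputable def t0 (i : ℕ) (a : ℝ) : ℝ := if a ≤ 1 then a ^ i else 1 + (i : ℝ) * (a - 1)
noncomputable def t1 (i : ℕ) (a : ℝ) : ℝ := if a ≤ 1 then (i : ℝ) * a ^ (i - 1) else (i : ℝ)
noncomputable def t2 (i : ℕ) (a : ℝ) : ℝ :=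
  if a ≤ 1 then (i : ℝ) * a ^ (i - 1) + rr a * ((i : ℝ) * ((i : ℝ) - 1) * a ^ (i - 2)) else (i : ℝ)

/-! ## Two blocks: coefficient arrays -/

/-- total degree at most `d` -/
def Deg (d : ℕ) (c : ℕ → ℕ → ℝ) : Prop := ∀ i j, d < i + j → c i j = 0

noncomputable def JJ (d : ℕ) (c : ℕ → ℕ → ℝ) (A B : ℕ → ℝ) : ℝ :=
  ∑ i ∈ Finset.range (d + 1), ∑ j ∈ Finset.range (d + 1), c i j * A i * B j

/-- the polynomial with coefficient array `c` -/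
noncomputable def pol (d : ℕ) (c : ℕ → ℕ → ℝ) (y1 y2 : ℝ) : ℝ :=
  JJ d c (fun i => y1 ^ i) (fun j => y2 ^ j)

/-- `w = p(YY_1, YY_2) F`, dimensions `k` and `4k` -/
noncomputable def W (k d : ℕ) (c : ℕ → ℕ → ℝ) (x : ℝ × ℝ) : ℝ :=
  JJ d c (fun i => F k i x.1) (fun j => F (4 * k) j x.2)

/-- the coefficient array of `2p - p(y1 - 4/k, y2) - p(y1, y2 - 1/k)`:
`(Delta + 2) W c = W (Dop c)` -/
noncomputable def Dop (k d : ℕ) (c : ℕ → ℕ → ℝ) : ℕ → ℕ → ℝ := fun a b =>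
  2 * c a b
    - ∑ i ∈ Finset.range (d + 1), c i b * ((i.choose a : ℕ) : ℝ) * (-(4 / (k : ℝ))) ^ (i - a)
    - ∑ j ∈ Finset.range (d + 1), c a j * ((j.choose b : ℕ) : ℝ) * (-(1 / (k : ℝ))) ^ (j - b)

/-- the coefficient array of `L p = p_1 + p_2 / 4` -/
noncomputable def Lop (c : ℕ → ℕ → ℝ) : ℕ → ℕ → ℝ := fun a b =>
  ((a : ℝ) + 1) * c (a + 1) b + (1 / 4) * (((b : ℝ) + 1) * c a (b + 1))

/-! ## Jets -/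

structure Jet where
  s : ℝ
  s1 : ℝ
  s2 : ℝ
  s12 : ℝ
  s11 : ℝ
  s22 : ℝ

noncomputable def mkJet (d : ℕ) (c : ℕ → ℕ → ℝ) (A0 A1 A2 B0 B1 B2 : ℕ → ℝ) : Jet :=
  ⟨JJ d c A0 B0, JJ d c A1 B0, JJ d c A0 B1, JJ d c A1 B1, JJ d c A2 B0, JJ d c A0 B2⟩

/-- limit jets at `(a1, a2)` -/
noncomputable def limJet (d : ℕ) (c : ℕ → ℕ → ℝ) (a1 a2 : ℝ) : Jet :=
  mkJet d c (fun i => t0 i a1) (fun i => t1 i a1) (fun i => t2 i a1)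
    (fun j => t0 j a2) (fun j => t1 j a2) (fun j => t2 j a2)

/-- jets of `[c] = W c / F` at `(x1, x2)`, `x_i > 0` -/
noncomputable def kJet (k d : ℕ) (c : ℕ → ℕ → ℝ) (x1 x2 : ℝ) : Jet :=
  mkJet d c (fun i => j0 k i x1) (fun i => j1 k i x1) (fun i => j2 k i x1)
    (fun j => j0 (4 * k) j x2) (fun j => j1 (4 * k) j x2) (fun j => j2 (4 * k) j x2)

/-- `S^3` times the normalised Hessian of `Q/S` -/
noncomputable def q11 (r1 : ℝ) (S Q : Jet) : ℝ :=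
  2 * Q.s * r1 * S.s1 ^ 2 - 2 * S.s * r1 * Q.s1 * S.s1 - S.s * Q.s * S.s11 + S.s ^ 2 * Q.s11
noncomputable def q22 (r2 : ℝ) (S Q : Jet) : ℝ :=
  2 * Q.s * r2 * S.s2 ^ 2 - 2 * S.s * r2 * Q.s2 * S.s2 - S.s * Q.s * S.s22 + S.s ^ 2 * Q.s22
noncomputable def q12 (S Q : Jet) : ℝ :=
  2 * Q.s * S.s1 * S.s2 - S.s * (Q.s1 * S.s2 + Q.s2 * S.s1) - S.s * Q.s * S.s12 + S.s ^ 2 * Q.s12

/-- `q11 q22 - r1 r2 q12^2 = S * Tc` -/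
noncomputable def Tc (r1 r2 : ℝ) (S Q : Jet) : ℝ :=
  2 * Q.s * (r1 * S.s1 ^ 2 * (-(2 * r2 * Q.s2 * S.s2) - Q.s * S.s22 + S.s * Q.s22)
      + r2 * S.s2 ^ 2 * (-(2 * r1 * Q.s1 * S.s1) - Q.s * S.s11 + S.s * Q.s11)
      - 2 * r1 * r2 * S.s1 * S.s2 * (-(Q.s1 * S.s2 + Q.s2 * S.s1) - Q.s * S.s12 + S.s * Q.s12))
    + S.s * ((-(2 * r1 * Q.s1 * S.s1) - Q.s * S.s11 + S.s * Q.s11)
        * (-(2 * r2 * Q.s2 * S.s2) - Q.s * S.s22 + S.s * Q.s22)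
      - r1 * r2 * (-(Q.s1 * S.s2 + Q.s2 * S.s1) - Q.s * S.s12 + S.s * Q.s12) ^ 2)

/-- the determinant quantity of the form `S^2 diag(l) + b S' S'^T - S S''` divided by `S` -/
noncomputable def Tb (b r1 r2 l1 l2 : ℝ) (S : Jet) : ℝ :=
  b * ((l1 * S.s - S.s11) * r2 * S.s2 ^ 2 + 2 * r1 * r2 * S.s12 * S.s1 * S.s2
      + (l2 * S.s - S.s22) * r1 * S.s1 ^ 2)
    + S.s * ((l1 * S.s - S.s11) * (l2 * S.s - S.s22) - r1 * r2 * S.s12 ^ 2)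

/-! ## The conditions on the limit set -/

/-- the vectors of `y^i`, `(y^i)'`, `(y^i)''` at `y = 1/2` -/
noncomputable def e0 (i : ℕ) : ℝ := (1 / 2 : ℝ) ^ i
noncomputable def e1 (i : ℕ) : ℝ := (i : ℝ) * (1 / 2 : ℝ) ^ (i - 1)
noncomputable def e2 (i : ℕ) : ℝ := (i : ℝ) * ((i : ℝ) - 1) * (1 / 2 : ℝ) ^ (i - 2)

def badS (ks th a1 a2 : ℝ) : Prop :=
  1 + ks < a1 ∧ 1 + ks < a2 ∧ 1 / (a1 - 1) + 1 / (a2 - 1) < th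

def bad (ks th a1 a2 : ℝ) : Prop :=
  1 + ks ≤ a1 ∧ 1 + ks ≤ a2 ∧ 1 / (a1 - 1) + 1 / (a2 - 1) ≤ th

def Gd (d : ℕ) (c : ℕ → ℕ → ℝ) (b ks th a1 a2 : ℝ) : Prop :=
  (0 ≤ a1 ∧ a1 ≤ b) ∧ (0 ≤ a2 ∧ a2 ≤ b) ∧ 0 ≤ (limJet d c a1 a2).s ∧ ¬ badS ks th a1 a2

structure LimOK (d : ℕ) (c : ℕ → ℕ → ℝ) (b ks th : ℝ) : Prop where
  hdeg : Deg d c
  hb : 1 + ks < b
  hks : 0 < ks
  hth : 0 < th
  hthks : th < 1 / ks
  pos : ∀ a1 a2 : ℝ, 0 ≤ a1 → a1 ≤ 1 → 0 ≤ a2 → a2 ≤ 1 → 0 < (limJet d c a1 a2).s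
  line : ∀ a1 a2 : ℝ, 1 + ks ≤ a1 → a1 ≤ b → 1 + ks ≤ a2 → a2 ≤ b →
    1 / (a1 - 1) + 1 / (a2 - 1) = th → (limJet d c a1 a2).s < 0
  box : ∀ a1 a2 : ℝ, 0 ≤ a1 → a1 ≤ b → 0 ≤ a2 → a2 ≤ b → (a1 = b ∨ a2 = b) →
    0 ≤ (limJet d c a1 a2).s → badS ks th a1 a2
  conv : ∀ a1 a2 : ℝ, Gd d c b ks th a1 a2 →
    0 < q11 (rr a1) (limJet d c a1 a2) (limJet d (Lop c) a1 a2)
        + q22 (rr a2) (limJet d c a1 a2) (limJet d (Lop c) a1 a2) ∧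
    0 < Tc (rr a1) (rr a2) (limJet d c a1 a2) (limJet d (Lop c) a1 a2)
  qpos : ∀ a1 a2 : ℝ, Gd d c b ks th a1 a2 → (limJet d c a1 a2).s = 0 →
    0 < (limJet d (Lop c) a1 a2).s
  neg1 : ∀ a1 a2 : ℝ, Gd d c b ks th a1 a2 → 1 < a1 → (limJet d c a1 a2).s1 < 0
  neg2 : ∀ a1 a2 : ℝ, Gd d c b ks th a1 a2 → 1 < a2 → (limJet d c a1 a2).s2 < 0
  wall : ∀ a1 a2 : ℝ, Gd d c b ks th a1 a2 → (limJet d c a1 a2).s = 0 →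
    0 < Tb 1 (rr a1) (rr a2) 0 0 (limJet d c a1 a2)
  corner : ∀ a1 a2 : ℝ, Gd d c b ks th a1 a2 → 1 < a1 → 1 < a2 →
    0 < Tb 1 (rr a1) (rr a2) (1 / (2 * (a1 - 1))) (1 / (2 * (a2 - 1))) (limJet d c a1 a2)
  gain : 14 / 3 * (JJ d c e0 e0) ^ 2 <
    ((JJ d c e1 e0) ^ 2 - JJ d c e0 e0 * JJ d c e2 e0)
      + 2 * (JJ d c e1 e0 * JJ d c e0 e1 - JJ d c e0 e0 * JJ d c e1 e1)
      + ((JJ d c e0 e1) ^ 2 - JJ d c e0 e0 * JJ d c e0 e2)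

/-! ## Derivatives along vectors -/

noncomputable def d1 {E : Type*} [NormedAddCommGroup E] [NormedSpace ℝ E]
    (w : E → ℝ) (x v : E) : ℝ := fderiv ℝ w x v

noncomputable def d2 {E : Type*} [NormedAddCommGroup E] [NormedSpace ℝ E]
    (w : E → ℝ) (x v : E) : ℝ := fderiv ℝ (fun z => fderiv ℝ w z v) x v

/-! ## The two block domain -/

def D0 (k d : ℕ) (c : ℕ → ℕ → ℝ) (b ks th : ℝ) : Set (ℝ × ℝ) :=
  {x | Pz k |x.1| ∧ Pz (4 * k) |x.2| ∧ yy k |x.1| < b ∧ yy (4 * k) |x.2| < b ∧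
    0 < W k d c x ∧ ¬ bad ks th (yy k |x.1|) (yy (4 * k) |x.2|)}

/-- condition (b') at a point -/
def IneqB (w : ℝ × ℝ → ℝ) (be c0 : ℝ) (x : ℝ × ℝ) : Prop :=
  ∀ v : ℝ × ℝ, c0 * w x * (v.1 ^ 2 + v.2 ^ 2) ≤ -(w x * d2 w x v) + (1 - be) * (d1 w x v) ^ 2

/-- condition (c') at a point: `w^3 D^2 (w1/w) >= c0 w` -/
def IneqC (w w1 : ℝ × ℝ → ℝ) (c0 : ℝ) (x : ℝ × ℝ) : Prop :=
  ∀ v : ℝ × ℝ, c0 * w x * (v.1 ^ 2 + v.2 ^ 2) ≤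
    2 * w1 x * (d1 w x v) ^ 2 - 2 * w x * d1 w x v * d1 w1 x v
      - w x * w1 x * d2 w x v + (w x) ^ 2 * d2 w1 x v

structure OutK (k d : ℕ) (c : ℕ → ℕ → ℝ) (b ks th : ℝ) : Prop where
  op : IsOpen (D0 k d c b ks th)
  bd : Bornology.IsBounded (D0 k d c b ks th)
  zero : (0 : ℝ × ℝ) ∈ D0 k d c b ks th
  nonneg : ∀ x ∈ closure (D0 k d c b ks th), 0 ≤ W k d c x
  front : ∀ x ∈ closure (D0 k d c b ks th), x ∉ D0 k d c b ks th → W k d c x = 0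
  ineqB : ∃ c0 : ℝ, 0 < c0 ∧ ∀ x ∈ closure (D0 k d c b ks th),
    IneqB (W k d c) (8 / (5 * (k : ℝ) - 7)) c0 x
  ineqC : ∃ c0 : ℝ, 0 < c0 ∧ ∀ x ∈ closure (D0 k d c b ks th),
    IneqC (W k d c) (W k d (Dop k d c)) c0 x
  grad : ∀ x ∈ closure (D0 k d c b ks th), W k d c x = 0 →
    (∃ v, d1 (W k d c) x v ≠ 0) ∧ 0 < W k d (Dop k d c) x

/-! ## The thin step -/

noncomputable def cz : ℕ → ℝ → ℝ
  | 0 => Real.cos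
  | j + 1 => fun z => -∫ s in (0 : ℝ)..z, Real.sin (z - s) * cz j s

noncomputable def uu (J : ℕ) (w : ℕ → ℝ × ℝ → ℝ) (ε : ℝ) (p : (ℝ × ℝ) × ℝ) : ℝ :=
  ∑ j ∈ Finset.range (J + 1), ε ^ j * cz j p.2 * w j p.1

/-- Theorem L (thin step) -/
def StmtThin : Prop :=
  ∀ (J : ℕ) (w : ℕ → ℝ × ℝ → ℝ) (K : Set (ℝ × ℝ)) (be : ℝ),
    1 ≤ J → (∀ j, ContDiff ℝ (⊤ : ℕ∞) (w j)) → IsCompact K → 0 < be → be ≤ 1 / 7 →
    (∀ x ∈ K, 0 ≤ w 0 x) → K ⊆ closure {x | x ∈ K ∧ 0 < w 0 x} →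
    (∃ c0 : ℝ, 0 < c0 ∧ ∀ x ∈ K, IneqB (w 0) be c0 x) →
    (∃ c0 : ℝ, 0 < c0 ∧ ∀ x ∈ K, IneqC (w 0) (w 1) c0 x) →
    (∀ x ∈ K, w 0 x = 0 → (∃ v, d1 (w 0) x v ≠ 0) ∧ 0 < w 1 x) →
    ∃ a : ℝ, 0 < a ∧ ∃ ε0 : ℝ, 0 < ε0 ∧ ∀ ε : ℝ, 0 < ε → ε < ε0 →
      (∀ x ∈ K, ∀ z : ℝ, |z| ≤ Real.pi / 2 + a * ε → 0 < w 0 x → 0 < uu J w ε (x, z) →
        ∀ V : (ℝ × ℝ) × ℝ,
          uu J w ε (x, z) * d2 (uu J w ε) (x, z) V ≤ 1 / (1 + be) * (d1 (uu J w ε) (x, z) V) ^ 2) ∧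
      (∀ x ∈ K, uu J w ε (x, Real.pi / 2 + a * ε) < 0 ∧
        uu J w ε (x, -(Real.pi / 2 + a * ε)) < 0) ∧
      (∀ x ∈ K, w 0 x = 0 → ∀ z : ℝ, |z| ≤ Real.pi / 2 + a * ε → uu J w ε (x, z) ≤ 0)

/-! ## Main nodes -/

/-- existence of the polynomial -/
def StmtLim : Prop := ∃ (d : ℕ) (c : ℕ → ℕ → ℝ) (b ks th : ℝ), LimOK d c b ks th

/-- step 1: k large -/
def StmtOut : Prop := ∀ (d : ℕ) (c : ℕ → ℕ → ℝ) (b ks th : ℝ), LimOK d c b ks th →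
  ∀ᶠ k : ℕ in atTop, OutK k d c b ks th

/-- the frozen statement S04852, from the three nodes -/
def StmtFinal : Prop :=
    ¬ (∀ (n : ℕ) (Ω : Set (EuclideanSpace ℝ (Fin n))) (u v : EuclideanSpace ℝ (Fin n) → ℝ)
      (μ ν α : ℝ),
      IsOpen Ω → Convex ℝ Ω → Bornology.IsBounded Ω → Ω.Nonempty →
      ContinuousOn u (closure Ω) → ContDiffOn ℝ 2 u Ω →
      (∀ x ∈ Ω, 0 < u x) → (∀ x ∈ frontier Ω, u x = 0) →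
      (∀ x ∈ Ω, (∑ i : Fin n, fderiv ℝ (fun y => fderiv ℝ u y (EuclideanSpace.single i (1 : ℝ))) x
          (EuclideanSpace.single i (1 : ℝ))) + μ * u x = 0) →
      ContinuousOn v (closure (Metric.ball (0 : EuclideanSpace ℝ (Fin n)) 1)) →
      ContDiffOn ℝ 2 v (Metric.ball (0 : EuclideanSpace ℝ (Fin n)) 1) →
      (∀ x ∈ Metric.ball (0 : EuclideanSpace ℝ (Fin n)) 1, 0 < v x) →
      (∀ x ∈ frontier (Metric.ball (0 : EuclideanSpace ℝ (Fin n)) 1), v x = 0) →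
      (∀ x ∈ Metric.ball (0 : EuclideanSpace ℝ (Fin n)) 1,
        (∑ i : Fin n, fderiv ℝ (fun y => fderiv ℝ v y (EuclideanSpace.single i (1 : ℝ))) x
          (EuclideanSpace.single i (1 : ℝ))) + ν * v x = 0) →
      0 < α →
      ConcaveOn ℝ Ω (fun x => u x ^ α) →
      ConcaveOn ℝ (Metric.ball (0 : EuclideanSpace ℝ (Fin n)) 1) (fun x => v x ^ α))

end Lq
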