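import Pool.Agent.Lq.StA

/-!
# Module LQA_BEIG: the radial eigenfunction of the ball
-/

set_option autoImplicit false

open Filter Topology Set

namespace Lq

namespace ABEig

variable {N : ℕ}

/-- `R^2 |x|^2` as a polynomial in the coordinates -/
noncomputable def q (R : ℝ) (x : EuclideanSpace ℝ (Fin N)) : ℝ := R ^ 2 * ∑ j : Fin N, x j ^ 2

/-- its derivative -/
noncomputable def q' (R : ℝ) (x : EuclideanSpace ℝ (Fin N)) : EuclideanSpace ℝ (Fin N) →L[ℝ] ℝ :=
  R ^ 2 • ∑ j : Fin N, (2 * x j) • (EuclideanSpace.proj j : EuclideanSpace ℝ (Fin N) →L[ℝ] ℝ)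

theorem hasFDerivAt_coord (j : Fin N) (x : EuclideanSpace ℝ (Fin N)) :
    HasFDerivAt (fun x : EuclideanSpace ℝ (Fin N) => x j)
      (EuclideanSpace.proj j : EuclideanSpace ℝ (Fin N) →L[ℝ] ℝ) x :=
  (EuclideanSpace.proj j : EuclideanSpace ℝ (Fin N) →L[ℝ] ℝ).hasFDerivAt

theorem hasFDerivAt_q (R : ℝ) (x : EuclideanSpace ℝ (Fin N)) :
    HasFDerivAt (q (N := N) R) (q' R x) x := by
  unfold q q'
  apply HasFDerivAt.const_mul
  apply HasFDerivAt.fun_sum
  intro j _
  have h := (hasFDerivAt_coord j x).pow 2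
  simpa using h

theorem contDiff_q (R : ℝ) : ContDiff ℝ 2 (q (N := N) R) := by
  unfold q
  apply contDiff_const.mul
  apply ContDiff.sum
  intro j _
  exact ((EuclideanSpace.proj j : EuclideanSpace ℝ (Fin N) →L[ℝ] ℝ).contDiff).pow 2

theorem q'_single (R : ℝ) (x : EuclideanSpace ℝ (Fin N)) (i : Fin N) :
    q' R x (EuclideanSpace.single i (1 : ℝ)) = R ^ 2 * (2 * x i) := by
  unfold q'
  simp

theorem F_eq (R : ℝ) (x : EuclideanSpace ℝ (Fin N)) : F N 0 (R * ‖x‖) = La N 0 (q R x) := by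
  unfold F q
  rw [mul_pow, EuclideanSpace.real_norm_sq_eq]

theorem hasFDerivAt_comp (L : ℝ → ℝ) (hL : Differentiable ℝ L) (R : ℝ)
    (x : EuclideanSpace ℝ (Fin N)) :
    HasFDerivAt (fun y => L (q R y)) (deriv L (q R x) • q' R x) x :=
  (hL (q R x)).hasDerivAt.comp_hasFDerivAt x (hasFDerivAt_q R x)

end ABEig

open ABEig in
theorem t_BEig (hB : StmtBlk) : StmtBEig := by
  intro N R hN
  obtain ⟨h1, -, h3⟩ := hB N hN
  have hL : ContDiff ℝ (⊤ : ℕ∞) (La N 0) := h1 0
  have hL2 : ContDiff ℝ 2 (La N 0) := contDiff_infty.1 hL 2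
  have hLd : Differentiable ℝ (La N 0) := hL2.differentiable (by norm_num)
  have hL' : ContDiff ℝ 1 (deriv (La N 0)) := by
    have : ContDiff ℝ (1 + 1) (La N 0) := by
      have h : (1 + 1 : WithTop ℕ∞) = 2 := by norm_num
      rw [h]; exact hL2
    exact (contDiff_succ_iff_deriv.1 this).2.2
  have hLd' : Differentiable ℝ (deriv (La N 0)) := hL'.differentiable (by norm_num)
  have hfun : (fun x : EuclideanSpace ℝ (Fin N) => F N 0 (R * ‖x‖)) =
      fun x => La N 0 (q R x) := by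
    funext x
    exact F_eq R x
  refine ⟨?_, ?_⟩
  · rw [hfun]
    exact hL2.comp (contDiff_q R)
  · intro x
    rw [F_eq]
    unfold lap
    rw [hfun]
    have hode := h3 0 (q R x)
    simp only [zero_add, Finset.range_one, Finset.sum_singleton, Nat.choose_self, Nat.cast_one,
      one_mul, Nat.sub_self, pow_zero] at hode
    have hfd : ∀ i : Fin N, (fun y => fderiv ℝ (fun x => La N 0 (q R x)) y
        (EuclideanSpace.single i (1 : ℝ))) =
        fun y => deriv (La N 0) (q R y) * (R ^ 2 * (2 * y i)) := by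
      intro i
      funext y
      rw [(hasFDerivAt_comp (La N 0) hLd R y).fderiv]
      simp [q'_single]
    have hsd : ∀ i : Fin N, fderiv ℝ (fun y => fderiv ℝ (fun x => La N 0 (q R x)) y
        (EuclideanSpace.single i (1 : ℝ))) x (EuclideanSpace.single i (1 : ℝ)) =
        deriv (La N 0) (q R x) * (2 * R ^ 2) +
          4 * R ^ 4 * deriv (deriv (La N 0)) (q R x) * x i ^ 2 := by
      intro i
      rw [hfd i]
      have ha := hasFDerivAt_comp (deriv (La N 0)) hLd' R x
      have hb : HasFDerivAt (fun y : EuclideanSpace ℝ (Fin N) => R ^ 2 * (2 * y i))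
          (R ^ 2 • ((2 : ℝ) • (EuclideanSpace.proj i : EuclideanSpace ℝ (Fin N) →L[ℝ] ℝ))) x :=
        ((hasFDerivAt_coord i x).const_mul 2).const_mul (R ^ 2)
      have hm : HasFDerivAt (fun y : EuclideanSpace ℝ (Fin N) =>
          deriv (La N 0) (q R y) * (R ^ 2 * (2 * y i))) _ x := ha.mul hb
      rw [hm.fderiv]
      simp [q'_single]
      ring
    rw [Finset.sum_congr rfl (fun i _ => hsd i), Finset.sum_add_distrib, Finset.sum_const,
      ← Finset.mul_sum, Finset.card_univ, Fintype.card_fin]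
    have hq : q R x = R ^ 2 * ∑ j : Fin N, x j ^ 2 := rfl
    rw [nsmul_eq_mul]
    linear_combination (R ^ 2) * hode - 4 * R ^ 2 * deriv (deriv (La N 0)) (q R x) * hq

end Lq
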