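import Pool.Agent.Lq.StA

/-!
# LQA_CZ : smoothness and the recursion of the functions `cz`
-/

set_option autoImplicit false

open Filter Topology

namespace Lq

namespace ACZ

lemma hasDerivAt_prim {f : ℝ → ℝ} (hf : Continuous f) (z : ℝ) :
    HasDerivAt (fun z => ∫ s in (0 : ℝ)..z, f s) (f z) z :=
  intervalIntegral.integral_hasDerivAt_right (hf.intervalIntegrable _ _)
    (hf.stronglyMeasurableAtFilter _ _) hf.continuousAt

lemma contDiff_prim {f : ℝ → ℝ} (hf : ContDiff ℝ (⊤ : ℕ∞) f) :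
    ContDiff ℝ (⊤ : ℕ∞) (fun z => ∫ s in (0 : ℝ)..z, f s) := by
  rw [contDiff_infty_iff_deriv]
  refine ⟨fun z => (hasDerivAt_prim hf.continuous z).differentiableAt, ?_⟩
  have h : deriv (fun z => ∫ s in (0 : ℝ)..z, f s) = f := by
    funext z
    exact (hasDerivAt_prim hf.continuous z).deriv
  rw [h]
  exact hf

/-- splitting the convolution -/
lemma conv_eq {f : ℝ → ℝ} (hf : Continuous f) (z : ℝ) :
    (∫ s in (0 : ℝ)..z, Real.sin (z - s) * f s) =
      Real.sin z * (∫ s in (0 : ℝ)..z, Real.cos s * f s)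
        - Real.cos z * (∫ s in (0 : ℝ)..z, Real.sin s * f s) := by
  rw [← intervalIntegral.integral_const_mul, ← intervalIntegral.integral_const_mul,
    ← intervalIntegral.integral_sub]
  · apply intervalIntegral.integral_congr
    intro s _
    simp only [Real.sin_sub]
    ring
  · exact (continuous_const.mul (Real.continuous_cos.mul hf)).intervalIntegrable _ _
  · exact (continuous_const.mul (Real.continuous_sin.mul hf)).intervalIntegrable _ _

lemma conv_smooth {f : ℝ → ℝ} (hf : ContDiff ℝ (⊤ : ℕ∞) f) :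
    ContDiff ℝ (⊤ : ℕ∞) (fun z => ∫ s in (0 : ℝ)..z, Real.sin (z - s) * f s) := by
  have h : (fun z => ∫ s in (0 : ℝ)..z, Real.sin (z - s) * f s) =
      fun z => Real.sin z * (∫ s in (0 : ℝ)..z, Real.cos s * f s)
        - Real.cos z * (∫ s in (0 : ℝ)..z, Real.sin s * f s) := by
    funext z
    exact conv_eq hf.continuous z
  rw [h]
  exact (Real.contDiff_sin.mul (contDiff_prim (Real.contDiff_cos.mul hf))).sub
    (Real.contDiff_cos.mul (contDiff_prim (Real.contDiff_sin.mul hf)))

lemma conv_deriv {f : ℝ → ℝ} (hf : Continuous f) (z : ℝ) :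
    HasDerivAt (fun z => ∫ s in (0 : ℝ)..z, Real.sin (z - s) * f s)
      (Real.cos z * (∫ s in (0 : ℝ)..z, Real.cos s * f s)
        + Real.sin z * (∫ s in (0 : ℝ)..z, Real.sin s * f s)) z := by
  have h : (fun z => ∫ s in (0 : ℝ)..z, Real.sin (z - s) * f s) =
      fun z => Real.sin z * (∫ s in (0 : ℝ)..z, Real.cos s * f s)
        - Real.cos z * (∫ s in (0 : ℝ)..z, Real.sin s * f s) := by
    funext z
    exact conv_eq hf z
  rw [h]
  have h1 := hasDerivAt_prim (Real.continuous_cos.mul hf) z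
  have h2 := hasDerivAt_prim (Real.continuous_sin.mul hf) z
  have h3 := ((Real.hasDerivAt_sin z).mul h1).sub ((Real.hasDerivAt_cos z).mul h2)
  refine h3.congr_deriv ?_
  simp only [Pi.mul_apply]
  ring

lemma conv_deriv2 {f : ℝ → ℝ} (hf : Continuous f) (z : ℝ) :
    HasDerivAt (fun z => Real.cos z * (∫ s in (0 : ℝ)..z, Real.cos s * f s)
        + Real.sin z * (∫ s in (0 : ℝ)..z, Real.sin s * f s))
      (-(∫ s in (0 : ℝ)..z, Real.sin (z - s) * f s) + f z) z := by
  have h1 := hasDerivAt_prim (Real.continuous_cos.mul hf) z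
  have h2 := hasDerivAt_prim (Real.continuous_sin.mul hf) z
  have h3 := ((Real.hasDerivAt_cos z).mul h1).add ((Real.hasDerivAt_sin z).mul h2)
  refine h3.congr_deriv ?_
  rw [conv_eq hf z]
  simp only [Pi.mul_apply]
  have h4 := Real.sin_sq_add_cos_sq z
  linear_combination (f z) * h4

lemma cz_smooth : ∀ j, ContDiff ℝ (⊤ : ℕ∞) (cz j)
  | 0 => Real.contDiff_cos
  | j + 1 => (conv_smooth (cz_smooth j)).neg

end ACZ

theorem t_CZ : StmtCZ := by
  refine ⟨ACZ.cz_smooth, ?_, ?_, ?_⟩
  · intro j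
    show -∫ s in (0 : ℝ)..0, Real.sin (0 - s) * cz j s = 0
    rw [intervalIntegral.integral_same, neg_zero]
  · intro z
    show deriv (deriv Real.cos) z = -Real.cos z
    rw [Real.deriv_cos', deriv.fun_neg, Real.deriv_sin]
  · intro j z
    have hc : Continuous (cz j) := (ACZ.cz_smooth j).continuous
    have h1 : deriv (cz (j + 1)) = fun z =>
        -(Real.cos z * (∫ s in (0 : ℝ)..z, Real.cos s * cz j s)
          + Real.sin z * (∫ s in (0 : ℝ)..z, Real.sin s * cz j s)) := by
      funext y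
      exact (ACZ.conv_deriv hc y).neg.deriv
    rw [h1]
    have h2 := (ACZ.conv_deriv2 hc z).neg.deriv
    refine h2.trans ?_
    show -(-(∫ s in (0 : ℝ)..z, Real.sin (z - s) * cz j s) + cz j z)
      = -(-∫ s in (0 : ℝ)..z, Real.sin (z - s) * cz j s) - cz j z
    ring

end Lq
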