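import Pool.Agent.Lq.StA

/-!
# MP_61eda3_an, LQA_EIG: the eigenvalue equation upstairs
-/

set_option autoImplicit false

open Filter Topology Set

namespace Lq

namespace AEig

theorem two_le : (2 : WithTop ℕ∞) ≤ ((⊤ : ℕ∞) : WithTop ℕ∞) := by
  have h : ((2 : ℕ∞) : WithTop ℕ∞) ≤ ((⊤ : ℕ∞) : WithTop ℕ∞) := WithTop.coe_le_coe.mpr le_top
  exact h

/-! ### linearity of the Laplacian -/

theorem fd_sum {E ι : Type*} [NormedAddCommGroup E] [NormedSpace ℝ E] (s : Finset ι)
    (a : ι → ℝ) (f : ι → E → ℝ) (x v : E) (hf : ∀ i ∈ s, DifferentiableAt ℝ (f i) x) :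
    fderiv ℝ (fun y => ∑ i ∈ s, a i * f i y) x v = ∑ i ∈ s, a i * fderiv ℝ (f i) x v := by
  have h1 : HasFDerivAt (fun y => ∑ i ∈ s, a i * f i y) (∑ i ∈ s, a i • fderiv ℝ (f i) x) x := by
    apply HasFDerivAt.fun_sum
    intro i hi
    exact (hf i hi).hasFDerivAt.const_mul (a i)
  rw [h1.fderiv]
  simp

theorem lap_sum {n : ℕ} {ι : Type*} (s : Finset ι) (a : ι → ℝ)
    (f : ι → EuclideanSpace ℝ (Fin n) → ℝ) (x : EuclideanSpace ℝ (Fin n))
    (hf : ∀ i ∈ s, ContDiff ℝ 2 (f i)) :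
    lap (fun y => ∑ i ∈ s, a i * f i y) x = ∑ i ∈ s, a i * lap (f i) x := by
  unfold lap
  have h1 : ∀ l : Fin n, (fun y => fderiv ℝ (fun y => ∑ i ∈ s, a i * f i y) y
      (EuclideanSpace.single l (1 : ℝ))) =
      fun y => ∑ i ∈ s, a i * fderiv ℝ (f i) y (EuclideanSpace.single l (1 : ℝ)) := by
    intro l
    funext y
    exact fd_sum s a f y _ (fun i hi => ((hf i hi).differentiable (by norm_num)) y)
  have h2 : ∀ l : Fin n, fderiv ℝ (fun y => fderiv ℝ (fun y => ∑ i ∈ s, a i * f i y) y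
      (EuclideanSpace.single l (1 : ℝ))) x (EuclideanSpace.single l (1 : ℝ)) =
      ∑ i ∈ s, a i * fderiv ℝ (fun y => fderiv ℝ (f i) y (EuclideanSpace.single l (1 : ℝ))) x
        (EuclideanSpace.single l (1 : ℝ)) := by
    intro l
    rw [h1 l]
    apply fd_sum
    intro i hi
    have h3 : ContDiff ℝ 1 (fderiv ℝ (f i)) := (hf i hi).fderiv_right (by norm_num)
    exact ((h3.differentiable (by norm_num)) x).clm_apply (differentiableAt_const _)
  rw [Finset.sum_congr rfl (fun l _ => h2 l), Finset.sum_comm]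
  apply Finset.sum_congr rfl
  intro i _
  rw [Finset.mul_sum]

/-! ### finite sums -/

theorem choose_ext (d i : ℕ) (hi : i ∈ Finset.range (d + 1)) (q : ℝ) (A : ℕ → ℝ) :
    ∑ a ∈ Finset.range (d + 1), ((i.choose a : ℕ) : ℝ) * q ^ (i - a) * A a =
      ∑ a ∈ Finset.range (i + 1), ((i.choose a : ℕ) : ℝ) * q ^ (i - a) * A a := by
  symm
  apply Finset.sum_subset
  · intro a ha
    simp only [Finset.mem_range] at ha hi ⊢
    omega
  · intro a _ ha
    simp only [Finset.mem_range, not_lt] at ha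
    rw [Nat.choose_eq_zero_of_lt (by omega)]
    simp

theorem dop_sum (k d : ℕ) (c : ℕ → ℕ → ℝ) (A B : ℕ → ℝ) :
    JJ d (Dop k d c) A B = ∑ a ∈ Finset.range (d + 1), ∑ b ∈ Finset.range (d + 1),
      c a b * ((-∑ a' ∈ Finset.range (a + 1),
          ((a.choose a' : ℕ) : ℝ) * (-(4 / (k : ℝ))) ^ (a - a') * A a') * B b
        + A a * (-∑ b' ∈ Finset.range (b + 1),
          ((b.choose b' : ℕ) : ℝ) * (-(1 / (k : ℝ))) ^ (b - b') * B b')
        + 2 * A a * B b) := by
  have e1 : ∑ a ∈ Finset.range (d + 1), ∑ b ∈ Finset.range (d + 1),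
      (∑ i ∈ Finset.range (d + 1), c i b * ((i.choose a : ℕ) : ℝ) * (-(4 / (k : ℝ))) ^ (i - a))
        * A a * B b =
      ∑ a ∈ Finset.range (d + 1), ∑ b ∈ Finset.range (d + 1),
        c a b * ((∑ a' ∈ Finset.range (a + 1),
          ((a.choose a' : ℕ) : ℝ) * (-(4 / (k : ℝ))) ^ (a - a') * A a') * B b) := by
    calc ∑ a ∈ Finset.range (d + 1), ∑ b ∈ Finset.range (d + 1),
        (∑ i ∈ Finset.range (d + 1), c i b * ((i.choose a : ℕ) : ℝ) * (-(4 / (k : ℝ))) ^ (i - a))
          * A a * B b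
        = ∑ a ∈ Finset.range (d + 1), ∑ b ∈ Finset.range (d + 1), ∑ i ∈ Finset.range (d + 1),
          c i b * (((i.choose a : ℕ) : ℝ) * (-(4 / (k : ℝ))) ^ (i - a) * A a) * B b := by
          apply Finset.sum_congr rfl
          intro a _
          apply Finset.sum_congr rfl
          intro b _
          rw [Finset.sum_mul, Finset.sum_mul]
          apply Finset.sum_congr rfl
          intro i _
          ring
      _ = ∑ b ∈ Finset.range (d + 1), ∑ i ∈ Finset.range (d + 1), ∑ a ∈ Finset.range (d + 1),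
          c i b * (((i.choose a : ℕ) : ℝ) * (-(4 / (k : ℝ))) ^ (i - a) * A a) * B b := by
          rw [Finset.sum_comm]
          apply Finset.sum_congr rfl
          intro b _
          rw [Finset.sum_comm]
      _ = ∑ i ∈ Finset.range (d + 1), ∑ b ∈ Finset.range (d + 1), ∑ a ∈ Finset.range (d + 1),
          c i b * (((i.choose a : ℕ) : ℝ) * (-(4 / (k : ℝ))) ^ (i - a) * A a) * B b := by
          rw [Finset.sum_comm]
      _ = _ := by
          apply Finset.sum_congr rfl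
          intro i hi
          apply Finset.sum_congr rfl
          intro b _
          rw [← choose_ext d i hi, Finset.sum_mul, Finset.mul_sum]
          apply Finset.sum_congr rfl
          intro a _
          ring
  have e2 : ∑ a ∈ Finset.range (d + 1), ∑ b ∈ Finset.range (d + 1),
      (∑ j ∈ Finset.range (d + 1), c a j * ((j.choose b : ℕ) : ℝ) * (-(1 / (k : ℝ))) ^ (j - b))
        * A a * B b =
      ∑ a ∈ Finset.range (d + 1), ∑ b ∈ Finset.range (d + 1),
        c a b * (A a * (∑ b' ∈ Finset.range (b + 1),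
          ((b.choose b' : ℕ) : ℝ) * (-(1 / (k : ℝ))) ^ (b - b') * B b')) := by
    apply Finset.sum_congr rfl
    intro a _
    calc ∑ b ∈ Finset.range (d + 1),
        (∑ j ∈ Finset.range (d + 1), c a j * ((j.choose b : ℕ) : ℝ) * (-(1 / (k : ℝ))) ^ (j - b))
          * A a * B b
        = ∑ b ∈ Finset.range (d + 1), ∑ j ∈ Finset.range (d + 1),
          c a j * (A a * (((j.choose b : ℕ) : ℝ) * (-(1 / (k : ℝ))) ^ (j - b) * B b)) := by
          apply Finset.sum_congr rfl
          intro b _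
          rw [Finset.sum_mul, Finset.sum_mul]
          apply Finset.sum_congr rfl
          intro j _
          ring
      _ = ∑ j ∈ Finset.range (d + 1), ∑ b ∈ Finset.range (d + 1),
          c a j * (A a * (((j.choose b : ℕ) : ℝ) * (-(1 / (k : ℝ))) ^ (j - b) * B b)) := by
          rw [Finset.sum_comm]
      _ = _ := by
          apply Finset.sum_congr rfl
          intro j hj
          rw [← choose_ext d j hj, Finset.mul_sum, Finset.mul_sum]
  have e3 : JJ d (Dop k d c) A B =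
      ∑ a ∈ Finset.range (d + 1), ∑ b ∈ Finset.range (d + 1), 2 * c a b * A a * B b
      - ∑ a ∈ Finset.range (d + 1), ∑ b ∈ Finset.range (d + 1),
      (∑ i ∈ Finset.range (d + 1), c i b * ((i.choose a : ℕ) : ℝ) * (-(4 / (k : ℝ))) ^ (i - a))
        * A a * B b
      - ∑ a ∈ Finset.range (d + 1), ∑ b ∈ Finset.range (d + 1),
      (∑ j ∈ Finset.range (d + 1), c a j * ((j.choose b : ℕ) : ℝ) * (-(1 / (k : ℝ))) ^ (j - b))
        * A a * B b := by
    unfold JJ Dop
    rw [← Finset.sum_sub_distrib, ← Finset.sum_sub_distrib]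
    apply Finset.sum_congr rfl
    intro a _
    rw [← Finset.sum_sub_distrib, ← Finset.sum_sub_distrib]
    apply Finset.sum_congr rfl
    intro b _
    ring
  rw [e3, e1, e2, ← Finset.sum_sub_distrib, ← Finset.sum_sub_distrib]
  apply Finset.sum_congr rfl
  intro a _
  rw [← Finset.sum_sub_distrib, ← Finset.sum_sub_distrib]
  apply Finset.sum_congr rfl
  intro b _
  ring

theorem JJ_zero (d : ℕ) (A B : ℕ → ℝ) : JJ d (fun _ _ => 0) A B = 0 := by
  unfold JJ
  simp

/-- telescoping -/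
theorem tele (J : ℕ) (ε x2 : ℝ) (hx : ε * x2 = 1) (T T2 w : ℕ → ℝ)
    (h0 : T2 0 = -T 0) (hs : ∀ j, T2 (j + 1) = -T (j + 1) - T j) (hw : w (J + 1) = 0) :
    ∑ j ∈ Finset.range (J + 1), ε ^ j * (T j * (w (j + 1) - 2 * w j) + x2 * T2 j * w j)
      + (x2 + 2) * ∑ j ∈ Finset.range (J + 1), ε ^ j * T j * w j = 0 := by
  have h1 : ∀ m : ℕ, ∑ j ∈ Finset.range (m + 1),
      ε ^ j * (T j * (w (j + 1) - 2 * w j) + x2 * T2 j * w j)
      + (x2 + 2) * ∑ j ∈ Finset.range (m + 1), ε ^ j * T j * w j = ε ^ m * T m * w (m + 1) := by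
    intro m
    induction m with
    | zero =>
      simp only [zero_add, Finset.sum_range_one, pow_zero, h0]
      ring
    | succ m ih =>
      rw [Finset.sum_range_succ, Finset.sum_range_succ (n := m + 1)
        (f := fun j => ε ^ j * T j * w j), hs m]
      have h2 : ε ^ (m + 1) * x2 = ε ^ m := by
        rw [pow_succ, mul_assoc, hx, mul_one]
      have h3 : ε ^ (m + 1) * (T (m + 1) * (w (m + 1 + 1) - 2 * w (m + 1)) +
          x2 * (-T (m + 1) - T m) * w (m + 1)) =
          ε ^ (m + 1) * T (m + 1) * w (m + 1 + 1) - 2 * (ε ^ (m + 1) * T (m + 1) * w (m + 1))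
          - x2 * (ε ^ (m + 1) * T (m + 1) * w (m + 1)) - (ε ^ (m + 1) * x2) * T m * w (m + 1) := by
        ring
      rw [h3, h2]
      linear_combination ih
  rw [h1 J, hw, mul_zero]

theorem S1_nonneg (k : ℕ) (x : EuclideanSpace ℝ (Fin (5 * k + 1))) : 0 ≤ S1 k x := by
  unfold S1
  apply Finset.sum_nonneg
  intro i _
  split_ifs
  · exact sq_nonneg _
  · exact le_rfl

theorem S2_nonneg (k : ℕ) (x : EuclideanSpace ℝ (Fin (5 * k + 1))) : 0 ≤ S2 k x := by
  unfold S2
  apply Finset.sum_nonneg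
  intro i _
  split_ifs
  · exact sq_nonneg _
  · exact le_rfl

theorem F_sqrt (k a : ℕ) (s : ℝ) (hs : 0 ≤ s) : F k a (Real.sqrt s) = La k a s := by
  unfold F
  rw [Real.sq_sqrt hs]

/-- the function upstairs as a finite sum of products -/
theorem uu_pull (k d : ℕ) (c : ℕ → ℕ → ℝ) (xi : ℝ) (x : EuclideanSpace ℝ (Fin (5 * k + 1))) :
    uu (d + 1) (wj k d c) (xi ^ 2)⁻¹ (pull k xi x) =
      ∑ j ∈ Finset.range (d + 1 + 1), ((xi ^ 2)⁻¹) ^ j * cz j (xi * Zc k x) *
        JJ d ((Dop k d)^[j] c) (fun a => La k a (S1 k x)) (fun b => La (4 * k) b (S2 k x)) := by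
  unfold uu
  apply Finset.sum_congr rfl
  intro j _
  have h1 : wj k d c j (pull k xi x).1 =
      JJ d ((Dop k d)^[j] c) (fun a => La k a (S1 k x)) (fun b => La (4 * k) b (S2 k x)) := by
    unfold wj W pull
    simp only [F_sqrt _ _ _ (S1_nonneg k x), F_sqrt _ _ _ (S2_nonneg k x)]
  rw [h1]
  rfl

/-- index set -/
def IX (d : ℕ) : Finset (ℕ × ℕ × ℕ) :=
  Finset.range (d + 1 + 1) ×ˢ (Finset.range (d + 1) ×ˢ Finset.range (d + 1))

theorem sum_IX (d : ℕ) (g : ℕ → ℕ → ℕ → ℝ) :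
    ∑ t ∈ IX d, g t.1 t.2.1 t.2.2 =
      ∑ j ∈ Finset.range (d + 1 + 1), ∑ a ∈ Finset.range (d + 1), ∑ b ∈ Finset.range (d + 1),
        g j a b := by
  unfold IX
  rw [Finset.sum_product]
  apply Finset.sum_congr rfl
  intro j _
  rw [Finset.sum_product]

theorem uu_pull2 (k d : ℕ) (c : ℕ → ℕ → ℝ) (xi : ℝ) :
    (fun x : EuclideanSpace ℝ (Fin (5 * k + 1)) =>
      uu (d + 1) (wj k d c) (xi ^ 2)⁻¹ (pull k xi x)) =
    fun x => ∑ t ∈ IX d, (((xi ^ 2)⁻¹) ^ t.1 * (Dop k d)^[t.1] c t.2.1 t.2.2) *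
      (La k t.2.1 (S1 k x) * La (4 * k) t.2.2 (S2 k x) * (fun z => cz t.1 (xi * z)) (Zc k x)) := by
  funext x
  rw [uu_pull]
  rw [sum_IX d (fun j a b => (((xi ^ 2)⁻¹) ^ j * (Dop k d)^[j] c a b) *
      (La k a (S1 k x) * La (4 * k) b (S2 k x) * (fun z => cz j (xi * z)) (Zc k x)))]
  apply Finset.sum_congr rfl
  intro j _
  unfold JJ
  rw [Finset.mul_sum]
  apply Finset.sum_congr rfl
  intro a _
  rw [Finset.mul_sum]
  apply Finset.sum_congr rfl
  intro b _
  ring

theorem dd_scale (f : ℝ → ℝ) (xi z : ℝ) :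
    deriv (deriv (fun z => f (xi * z))) z = xi ^ 2 * deriv (deriv f) (xi * z) := by
  have h1 : deriv (fun z => f (xi * z)) = fun z => xi * deriv f (xi * z) := by
    funext z
    rw [deriv_comp_mul_left]
    rfl
  rw [h1, deriv_const_mul_field, deriv_comp_mul_left]
  simp only [smul_eq_mul]
  ring

end AEig

open AEig in
theorem t_Eig (hB : StmtBlk) (hD : StmtDegA) (hC : StmtCZ) (hL : StmtLap) : StmtEig := by
  intro k d c xi hk hdeg hxi
  have hk4 : 1 ≤ 4 * k := by omega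
  have hCz : ∀ j, ContDiff ℝ 2 (fun z : ℝ => cz j (xi * z)) := by
    intro j
    have h1 : ContDiff ℝ 2 (cz j) := (hC.1 j).of_le two_le
    exact h1.comp (contDiff_const.mul contDiff_id)
  have hA : ∀ a, ContDiff ℝ 2 (La k a) := fun a => ((hB k hk).1 a).of_le two_le
  have hB4 : ∀ b, ContDiff ℝ 2 (La (4 * k) b) :=
    fun b => ((hB (4 * k) hk4).1 b).of_le two_le
  have hterm : ∀ t ∈ IX d, ContDiff ℝ 2 (fun x : EuclideanSpace ℝ (Fin (5 * k + 1)) =>
      La k t.2.1 (S1 k x) * La (4 * k) t.2.2 (S2 k x) * (fun z => cz t.1 (xi * z)) (Zc k x)) := by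
    intro t _
    exact (hL k (La k t.2.1) (La (4 * k) t.2.2) (fun z => cz t.1 (xi * z)) (hA _) (hB4 _)
      (hCz _)).1
  rw [uu_pull2]
  refine ⟨?_, ?_⟩
  · apply ContDiff.sum
    intro t ht
    exact contDiff_const.mul (hterm t ht)
  · intro x
    rw [lap_sum (IX d) _ _ x hterm]
    have e1 : ∀ t ∈ IX d, lap (fun x : EuclideanSpace ℝ (Fin (5 * k + 1)) =>
        La k t.2.1 (S1 k x) * La (4 * k) t.2.2 (S2 k x) * (fun z => cz t.1 (xi * z)) (Zc k x)) x =
        (-∑ a' ∈ Finset.range (t.2.1 + 1), ((t.2.1.choose a' : ℕ) : ℝ) *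
            (-(4 / (k : ℝ))) ^ (t.2.1 - a') * La k a' (S1 k x))
          * La (4 * k) t.2.2 (S2 k x) * cz t.1 (xi * Zc k x)
        + La k t.2.1 (S1 k x) * (-∑ b' ∈ Finset.range (t.2.2 + 1),
            ((t.2.2.choose b' : ℕ) : ℝ) * (-(1 / (k : ℝ))) ^ (t.2.2 - b')
              * La (4 * k) b' (S2 k x)) * cz t.1 (xi * Zc k x)
        + La k t.2.1 (S1 k x) * La (4 * k) t.2.2 (S2 k x)
          * (xi ^ 2 * deriv (deriv (cz t.1)) (xi * Zc k x)) := by
      intro t _
      have h1 := (hL k (La k t.2.1) (La (4 * k) t.2.2) (fun z => cz t.1 (xi * z)) (hA _) (hB4 _)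
        (hCz _)).2 x
      have h2 := (hB k hk).2.2 t.2.1 (S1 k x)
      have h3 := (hB (4 * k) hk4).2.2 t.2.2 (S2 k x)
      have hk0 : (k : ℝ) ≠ 0 := by
        have : 0 < k := hk
        exact_mod_cast this.ne'
      have h4 : (4 : ℝ) / ((4 * k : ℕ) : ℝ) = 1 / (k : ℝ) := by
        push_cast
        field_simp
      rw [h4] at h3
      push_cast at h3
      rw [h1, h2, h3, dd_scale]
    have hD0 : (Dop k d)^[d + 1 + 1] c = fun _ _ => 0 := hD k d c hdeg _ (by omega)
    have hmain := tele (d + 1) ((xi ^ 2)⁻¹) (xi ^ 2) (inv_mul_cancel₀ (by positivity))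
      (fun j => cz j (xi * Zc k x)) (fun j => deriv (deriv (cz j)) (xi * Zc k x))
      (fun j => JJ d ((Dop k d)^[j] c) (fun a => La k a (S1 k x)) (fun b => La (4 * k) b (S2 k x)))
      (hC.2.2.1 _) (fun j => hC.2.2.2 j _) (by
        show JJ d ((Dop k d)^[d + 1 + 1] c) _ _ = 0
        rw [hD0]
        exact JJ_zero d _ _)
    rw [← uu_pull k d c xi x] at hmain
    rw [← hmain]
    congr 1
    rw [Finset.sum_congr rfl (fun t ht => by rw [e1 t ht])]
    rw [sum_IX d (fun j a b => (((xi ^ 2)⁻¹) ^ j * (Dop k d)^[j] c a b) *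
      ((-∑ a' ∈ Finset.range (a + 1), ((a.choose a' : ℕ) : ℝ) *
            (-(4 / (k : ℝ))) ^ (a - a') * La k a' (S1 k x))
          * La (4 * k) b (S2 k x) * cz j (xi * Zc k x)
        + La k a (S1 k x) * (-∑ b' ∈ Finset.range (b + 1),
            ((b.choose b' : ℕ) : ℝ) * (-(1 / (k : ℝ))) ^ (b - b')
              * La (4 * k) b' (S2 k x)) * cz j (xi * Zc k x)
        + La k a (S1 k x) * La (4 * k) b (S2 k x)
          * (xi ^ 2 * deriv (deriv (cz j)) (xi * Zc k x))))]
    apply Finset.sum_congr rfl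
    intro j _
    rw [Function.iterate_succ_apply']
    have h5 := dop_sum k d ((Dop k d)^[j] c) (fun a => La k a (S1 k x))
      (fun b => La (4 * k) b (S2 k x))
    rw [h5]
    unfold JJ
    simp only [Finset.mul_sum, ← Finset.sum_sub_distrib, ← Finset.sum_add_distrib]
    rw [← sub_eq_zero]
    rw [← Finset.sum_sub_distrib]
    apply Finset.sum_eq_zero
    intro a _
    rw [← Finset.sum_sub_distrib]
    apply Finset.sum_eq_zero
    intro b _
    ring

end Lq
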