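import Pool.Agent.Lq.StA

/-!
# MP_61eda3_an: the final assembly (section 8)
-/

set_option autoImplicit false

open Filter Topology Set

namespace Lq

namespace AFin

/-! ### evenness and smoothness -/

theorem F_neg (k i : ℕ) (x : ℝ) : F k i (-x) = F k i x := by
  unfold F
  rw [neg_sq]

theorem F_abs (k i : ℕ) (x : ℝ) : F k i |x| = F k i x := by
  unfold F
  rw [sq_abs]

theorem W_neg1 (k d : ℕ) (c : ℕ → ℕ → ℝ) (a b : ℝ) : W k d c (-a, b) = W k d c (a, b) := by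
  unfold W
  simp only [F_neg]

theorem W_neg2 (k d : ℕ) (c : ℕ → ℕ → ℝ) (a b : ℝ) : W k d c (a, -b) = W k d c (a, b) := by
  unfold W
  simp only [F_neg]

theorem contDiff_F (hB : StmtBlk) {k : ℕ} (hk : 1 ≤ k) (i : ℕ) : ContDiff ℝ (⊤ : ℕ∞) (F k i) := by
  have h := (hB k hk).1 i
  exact h.comp (contDiff_id.pow 2)

theorem contDiff_W (hB : StmtBlk) {k : ℕ} (hk : 1 ≤ k) (d : ℕ) (c : ℕ → ℕ → ℝ) :
    ContDiff ℝ (⊤ : ℕ∞) (W k d c) := by
  unfold W JJ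
  refine ContDiff.sum (fun i _ => ContDiff.sum (fun j _ => ?_))
  have h1 : ContDiff ℝ (⊤ : ℕ∞) (fun x : ℝ × ℝ => F k i x.1) :=
    (contDiff_F hB hk i).comp contDiff_fst
  have h2 : ContDiff ℝ (⊤ : ℕ∞) (fun x : ℝ × ℝ => F (4 * k) j x.2) :=
    (contDiff_F hB (by omega) j).comp contDiff_snd
  exact (contDiff_const.mul h1).mul h2

theorem contDiff_uu (hC : StmtCZ) {w : ℕ → ℝ × ℝ → ℝ} (hw : ∀ j, ContDiff ℝ (⊤ : ℕ∞) (w j))
    (J : ℕ) (ε : ℝ) : ContDiff ℝ 2 (uu J w ε) := by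
  unfold uu
  refine ContDiff.sum (fun j _ => ?_)
  have h1 : ContDiff ℝ 2 (fun p : (ℝ × ℝ) × ℝ => cz j p.2) :=
    (by exact_mod_cast contDiff_infty.mp (hC.1 j) 2 : ContDiff ℝ 2 (cz j)).comp contDiff_snd
  have h2 : ContDiff ℝ 2 (fun p : (ℝ × ℝ) × ℝ => w j p.1) :=
    (by exact_mod_cast contDiff_infty.mp (hw j) 2 : ContDiff ℝ 2 (w j)).comp contDiff_fst
  exact (contDiff_const.mul h1).mul h2

theorem uu_zero (hC : StmtCZ) (J : ℕ) (w : ℕ → ℝ × ℝ → ℝ) (ε : ℝ) (x : ℝ × ℝ) :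
    uu J w ε (x, 0) = w 0 x := by
  unfold uu
  rw [Finset.sum_eq_single 0]
  · simp [cz]
  · intro j _ hj
    obtain ⟨i, rfl⟩ := Nat.exists_eq_succ_of_ne_zero hj
    have : cz (i + 1) 0 = 0 := hC.2.1 i
    simp [this]
  · intro h
    exact absurd (Finset.mem_range.mpr (Nat.succ_pos J)) h

theorem D0_neg1 {k d : ℕ} {c : ℕ → ℕ → ℝ} {b ks th : ℝ} {x y : ℝ}
    (h : (x, y) ∈ D0 k d c b ks th) : (-x, y) ∈ D0 k d c b ks th := by
  have h' : Pz k |x| ∧ Pz (4 * k) |y| ∧ yy k |x| < b ∧ yy (4 * k) |y| < b ∧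
    0 < W k d c (x, y) ∧ ¬ bad ks th (yy k |x|) (yy (4 * k) |y|) := h
  change Pz k |(-x)| ∧ Pz (4 * k) |y| ∧ yy k |(-x)| < b ∧ yy (4 * k) |y| < b ∧
    0 < W k d c (-x, y) ∧ ¬ bad ks th (yy k |(-x)|) (yy (4 * k) |y|)
  rw [abs_neg, W_neg1]
  exact h'

theorem D0_neg2 {k d : ℕ} {c : ℕ → ℕ → ℝ} {b ks th : ℝ} {x y : ℝ}
    (h : (x, y) ∈ D0 k d c b ks th) : (x, -y) ∈ D0 k d c b ks th := by
  have h' : Pz k |x| ∧ Pz (4 * k) |y| ∧ yy k |x| < b ∧ yy (4 * k) |y| < b ∧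
    0 < W k d c (x, y) ∧ ¬ bad ks th (yy k |x|) (yy (4 * k) |y|) := h
  change Pz k |x| ∧ Pz (4 * k) |(-y)| ∧ yy k |x| < b ∧ yy (4 * k) |(-y)| < b ∧
    0 < W k d c (x, -y) ∧ ¬ bad ks th (yy k |x|) (yy (4 * k) |(-y)|)
  rw [abs_neg, W_neg2]
  exact h'

/-- conclusion of the thin step for one `ε`, with half height `h` -/
def ThinC (J : ℕ) (w : ℕ → ℝ × ℝ → ℝ) (K : Set (ℝ × ℝ)) (be ε h : ℝ) : Prop :=
  0 < h ∧
  (∀ x ∈ K, ∀ z : ℝ, |z| ≤ h → 0 < w 0 x → 0 < uu J w ε (x, z) →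
    ∀ V : (ℝ × ℝ) × ℝ,
      uu J w ε (x, z) * d2 (uu J w ε) (x, z) V ≤ 1 / (1 + be) * (d1 (uu J w ε) (x, z) V) ^ 2) ∧
  (∀ x ∈ K, uu J w ε (x, h) < 0 ∧ uu J w ε (x, -h) < 0) ∧
  (∀ x ∈ K, w 0 x = 0 → ∀ z : ℝ, |z| ≤ h → uu J w ε (x, z) ≤ 0)

/-- all the hypotheses of the frozen statement on `(Ω, u, μ)` -/
def DomOK (n : ℕ) (Ω : Set (EuclideanSpace ℝ (Fin n))) (u : EuclideanSpace ℝ (Fin n) → ℝ)
    (μ α : ℝ) : Prop :=
  IsOpen Ω ∧ Convex ℝ Ω ∧ Bornology.IsBounded Ω ∧ Ω.Nonempty ∧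
  ContinuousOn u (closure Ω) ∧ ContDiffOn ℝ 2 u Ω ∧
  (∀ x ∈ Ω, 0 < u x) ∧ (∀ x ∈ frontier Ω, u x = 0) ∧
  (∀ x ∈ Ω, lap u x + μ * u x = 0) ∧
  ConcaveOn ℝ Ω (fun x => u x ^ α)

/-- the domain `G0` -/
def G0 (D : Set (ℝ × ℝ)) (h : ℝ) : Set ((ℝ × ℝ) × ℝ) := {Y | Y.1 ∈ D ∧ |Y.2| < h}

theorem isOpen_G0 {D : Set (ℝ × ℝ)} {h : ℝ} (hD : IsOpen D) : IsOpen (G0 D h) := by
  have h1 : IsOpen {Y : (ℝ × ℝ) × ℝ | Y.1 ∈ D} := hD.preimage continuous_fst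
  have h2 : IsOpen {Y : (ℝ × ℝ) × ℝ | |Y.2| < h} :=
    isOpen_lt (continuous_abs.comp continuous_snd) continuous_const
  exact h1.inter h2

theorem closure_G0 {D : Set (ℝ × ℝ)} {h : ℝ} {Y : (ℝ × ℝ) × ℝ} (hY : Y ∈ closure (G0 D h)) :
    Y.1 ∈ closure D ∧ |Y.2| ≤ h := by
  have hc : IsClosed {Y : (ℝ × ℝ) × ℝ | Y.1 ∈ closure D ∧ |Y.2| ≤ h} := by
    have h1 : IsClosed {Y : (ℝ × ℝ) × ℝ | Y.1 ∈ closure D} :=
      isClosed_closure.preimage continuous_fst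
    have h2 : IsClosed {Y : (ℝ × ℝ) × ℝ | |Y.2| ≤ h} :=
      isClosed_le (continuous_abs.comp continuous_snd) continuous_const
    exact h1.inter h2
  have hsub : G0 D h ⊆ {Y : (ℝ × ℝ) × ℝ | Y.1 ∈ closure D ∧ |Y.2| ≤ h} :=
    fun Z hZ => ⟨subset_closure hZ.1, hZ.2.le⟩
  exact closure_minimal hsub hc hY

theorem dom_of_thin (hB : StmtBlk) (hC : StmtCZ) (hS : StmtStar) (hE : StmtEig)
    (hP : StmtPull) {k d : ℕ} {c : ℕ → ℕ → ℝ} {b ks th : ℝ} (hk : 13 ≤ k) (hdeg : Deg d c)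
    (hO : OutK k d c b ks th) {xi h : ℝ} (hxi : 0 < xi)
    (hT : ThinC (d + 1) (wj k d c) (closure (D0 k d c b ks th)) (8 / (5 * (k : ℝ) - 7))
      (xi ^ 2)⁻¹ h) :
    ∃ (Ω : Set (EuclideanSpace ℝ (Fin (5 * k + 1)))) (u : EuclideanSpace ℝ (Fin (5 * k + 1)) → ℝ)
      (μ : ℝ), DomOK (5 * k + 1) Ω u μ (8 / (5 * (k : ℝ) + 1)) := by
  obtain ⟨hh, hT1, hT2, hT3⟩ := hT
  set D := D0 k d c b ks th with hDdef
  set w : ℕ → ℝ × ℝ → ℝ := wj k d c with hw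
  set U : (ℝ × ℝ) × ℝ → ℝ := uu (d + 1) w (xi ^ 2)⁻¹ with hUdef
  set al : ℝ := 8 / (5 * (k : ℝ) + 1) with hal
  have hk' : (13 : ℝ) ≤ k := by exact_mod_cast hk
  have hal0 : 0 < al := by rw [hal]; positivity
  have hbe : 1 / (1 + 8 / (5 * (k : ℝ) - 7)) = 1 - al := by
    rw [hal]
    have h1 : (5 * (k : ℝ) - 7) ≠ 0 := by nlinarith
    have h2 : (5 * (k : ℝ) + 1) ≠ 0 := by positivity
    have h3 : 1 + 8 / (5 * (k : ℝ) - 7) = (5 * (k : ℝ) + 1) / (5 * (k : ℝ) - 7) := by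
      field_simp
      ring
    rw [h3, one_div_div]
    field_simp
    ring
  have hw0 : w 0 = W k d c := rfl
  have hwS : ∀ j, ContDiff ℝ (⊤ : ℕ∞) (w j) := fun j => contDiff_W hB (by omega) d _
  have hUS : ContDiff ℝ 2 U := contDiff_uu hC hwS _ _
  have hDpos : ∀ x ∈ D, 0 < w 0 x := by
    intro x hx
    exact hx.2.2.2.2.1
  have hG : IsOpen (G0 D h) := isOpen_G0 hO.op
  have hG0 : (0 : (ℝ × ℝ) × ℝ) ∈ G0 D h := by
    refine ⟨hO.zero, ?_⟩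
    simpa using hh
  have hU0 : 0 < U 0 := by
    have : U ((0 : ℝ × ℝ), (0 : ℝ)) = w 0 0 := uu_zero hC _ _ _ _
    change 0 < U ((0 : ℝ × ℝ), (0 : ℝ))
    rw [this]
    exact hDpos _ hO.zero
  have hUfr : ∀ x ∈ closure (G0 D h), x ∉ G0 D h → U x ≤ 0 := by
    rintro ⟨x, z⟩ hx hxn
    obtain ⟨h1, h2⟩ := closure_G0 hx
    change x ∈ closure D at h1
    change |z| ≤ h at h2
    by_cases hxD : x ∈ D
    · have h3 : ¬ |z| < h := fun hlt => hxn ⟨hxD, hlt⟩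
      have h4 : |z| = h := le_antisymm h2 (not_lt.mp h3)
      rcases abs_choice z with h5 | h5
      · rw [h4] at h5
        rw [← h5]
        exact (hT2 x h1).1.le
      · have h6 : z = -h := by rw [h4] at h5; linarith
        rw [h6]
        exact (hT2 x h1).2.le
    · exact hT3 x h1 (hO.front x h1 hxD) z h2
  have hloc : ∀ x ∈ G0 D h, 0 < U x → ∀ V : (ℝ × ℝ) × ℝ,
      U x * d2 U x V ≤ (1 - al) * (d1 U x V) ^ 2 := by
    rintro ⟨x, z⟩ ⟨hx1, hx2⟩ hpos V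
    have := hT1 x (subset_closure hx1) z hx2.le (hDpos x hx1) hpos V
    rw [hbe] at this
    exact this
  obtain ⟨s1, s2, s3, s4, s5⟩ := hS (G0 D h) U al hal0 hG hG0 hUS hU0 hUfr hloc
  have hsub : ∀ Y ∈ starO (G0 D h) U, Y ∈ G0 D h ∧ 0 < U Y := by
    intro Y hY
    have := hY 1 zero_le_one le_rfl
    simpa using this
  have hbd : Bornology.IsBounded (starO (G0 D h) U) := by
    have h1 : Bornology.IsBounded (G0 D h) := by
      refine (hO.bd.prod (Metric.isBounded_Icc (-h) h)).subset ?_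
      intro Y hY
      exact ⟨hY.1, (abs_le.mp hY.2.le)⟩
    exact h1.subset (fun Y hY => (hsub Y hY).1)
  -- evenness
  have hUev : ∀ a b z : ℝ, U ((-a, b), z) = U ((a, b), z) ∧ U ((a, -b), z) = U ((a, b), z) := by
    intro a b z
    refine ⟨?_, ?_⟩
    · simp only [hUdef, uu, hw, wj, W_neg1]
    · simp only [hUdef, uu, hw, wj, W_neg2]
  have hstarev : ∀ a b z : ℝ, ((a, b), z) ∈ starO (G0 D h) U →
      ((-a, b), z) ∈ starO (G0 D h) U ∧ ((a, -b), z) ∈ starO (G0 D h) U := by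
    intro a b z hY
    refine ⟨?_, ?_⟩
    · intro t ht ht1
      obtain ⟨⟨h1, h2⟩, h3⟩ := hY t ht ht1
      have e0 : t • (((a, b), z) : (ℝ × ℝ) × ℝ) = ((t * a, t * b), t * z) := rfl
      have e1 : t • (((-a, b), z) : (ℝ × ℝ) × ℝ) = ((-(t * a), t * b), t * z) := by
        change ((t * (-a), t * b), t * z) = ((-(t * a), t * b), t * z)
        rw [mul_neg]
      rw [e0] at h1 h2 h3
      rw [e1]
      exact ⟨⟨D0_neg1 h1, h2⟩, by rw [(hUev _ _ _).1]; exact h3⟩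
    · intro t ht ht1
      obtain ⟨⟨h1, h2⟩, h3⟩ := hY t ht ht1
      have e0 : t • (((a, b), z) : (ℝ × ℝ) × ℝ) = ((t * a, t * b), t * z) := rfl
      have e1 : t • (((a, -b), z) : (ℝ × ℝ) × ℝ) = ((t * a, -(t * b)), t * z) := by
        change ((t * a, t * (-b)), t * z) = ((t * a, -(t * b)), t * z)
        rw [mul_neg]
      rw [e0] at h1 h2 h3
      rw [e1]
      exact ⟨⟨D0_neg2 h1, h2⟩, by rw [(hUev _ _ _).2]; exact h3⟩
  obtain ⟨p1, p2, p3, p4, p5, p6, p7⟩ := hP k xi al (starO (G0 D h) U) U hxi hal0 s1 hbd s4 s2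
    hUS.continuous (fun Y hY => (hsub Y hY).2) s3 s5 hstarev hUev
  obtain ⟨q1, q2⟩ := hE k d c xi (by omega) hdeg hxi
  refine ⟨pull k xi ⁻¹' starO (G0 D h) U, fun x => U (pull k xi x), xi ^ 2 + 2, p1, p2, p3, p4,
    p5.continuousOn, q1.contDiffOn, fun x hx => (hsub _ hx).2, p6, fun x _ => q2 x, p7⟩

/-- the ball -/
theorem ball_not (hZ : StmtZero) (hSi : StmtSigns) (hM : StmtMono)
    (hO : StmtODE) (hBE : StmtBEig) (hN : StmtNonc) {N : ℕ} (hN8 : 8 ≤ N) :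
    ∃ (v : EuclideanSpace ℝ (Fin N) → ℝ) (ν : ℝ),
      ContinuousOn v (closure (Metric.ball (0 : EuclideanSpace ℝ (Fin N)) 1)) ∧
      ContDiffOn ℝ 2 v (Metric.ball (0 : EuclideanSpace ℝ (Fin N)) 1) ∧
      (∀ x ∈ Metric.ball (0 : EuclideanSpace ℝ (Fin N)) 1, 0 < v x) ∧
      (∀ x ∈ frontier (Metric.ball (0 : EuclideanSpace ℝ (Fin N)) 1), v x = 0) ∧
      (∀ x ∈ Metric.ball (0 : EuclideanSpace ℝ (Fin N)) 1, lap v x + ν * v x = 0) ∧
      ¬ ConcaveOn ℝ (Metric.ball (0 : EuclideanSpace ℝ (Fin N)) 1)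
        (fun x => v x ^ (8 / (N : ℝ))) := by
  obtain ⟨R, hR, hR0, hRpos⟩ := hZ N (by omega)
  obtain ⟨b1, b2⟩ := hBE N R (by omega)
  have hN' : (8 : ℝ) ≤ N := by exact_mod_cast hN8
  obtain ⟨r, hr, hyr⟩ := (hM N hN8).2.2.2 (1 / 2) (by norm_num)
  have hsg := hSi N r hN8 hr
  have hrR : r < R := by
    by_contra hle
    have := hr.2 R hR.le (not_lt.mp hle)
    rw [hR0] at this
    exact lt_irrefl _ this
  refine ⟨fun x => F N 0 (R * ‖x‖), R ^ 2, b1.continuous.continuousOn, b1.contDiffOn, ?_, ?_,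
    fun x _ => b2 x, ?_⟩
  · intro x hx
    rw [mem_ball_zero_iff] at hx
    exact hRpos _ (by positivity) (by nlinarith [norm_nonneg x])
  · intro x hx
    rw [frontier_ball _ one_ne_zero, mem_sphere_zero_iff_norm] at hx
    change F N 0 (R * ‖x‖) = 0
    rw [hx, mul_one, hR0]
  · refine hN N R r (8 / (N : ℝ)) (by omega) hR hRpos hr.1 hrR (by positivity) ?_
    have hr0 : 0 < r := hr.1
    have hF : 0 < F N 0 r := hr.2 r hr0.le le_rfl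
    have hode := (hO N (by omega)).2 r
    have hX : X N r = (N : ℝ) / 4 := by
      have : 2 * X N r / (N : ℝ) = 1 / 2 := hyr
      field_simp at this
      linarith
    have hXd : r * deriv (F N 0) r = -(X N r * F N 0 r) := by
      unfold X
      field_simp
    have hee : ee N r < (N : ℝ) / 2 := by
      have h1 : 1 - yy N r < gg N r := hsg.gs
      rw [hyr] at h1
      have hep : 0 < ee N r := lt_trans hsg.X0 hsg.eX
      have h2 : gg N r = X N r / ee N r := rfl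
      rw [h2, lt_div_iff₀ hep, hX] at h1
      linarith
    have hee' : ee N r = X N r ^ 2 - ((N : ℝ) - 1) * X N r + r ^ 2 := rfl
    rw [hX] at hXd hee'
    set f := F N 0 r
    set f1 := deriv (F N 0) r
    set f2 := deriv (deriv (F N 0)) r
    have hN0 : (0 : ℝ) < N := by linarith
    -- multiply by r^2
    have key : 0 < r ^ 2 * (f * f2 - (1 - 8 / (N : ℝ)) * f1 ^ 2) := by
      have e1 : r ^ 2 * f2 = (((N : ℝ) - 1) * ((N : ℝ) / 4) - r ^ 2) * f := by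
        have : r * (r * f2 + ((N : ℝ) - 1) * f1 + r * f) = 0 := by rw [hode, mul_zero]
        nlinarith
      have e2 : r ^ 2 * f1 ^ 2 = ((N : ℝ) / 4) ^ 2 * f ^ 2 := by
        have : (r * f1) ^ 2 = (-((N : ℝ) / 4 * f)) ^ 2 := by rw [hXd]
        nlinarith
      have e3 : r ^ 2 * (f * f2 - (1 - 8 / (N : ℝ)) * f1 ^ 2) =
          f ^ 2 * ((N : ℝ) / 2 - ee N r) := by
        have : r ^ 2 * (f * f2 - (1 - 8 / (N : ℝ)) * f1 ^ 2) =
          f * (r ^ 2 * f2) - (1 - 8 / (N : ℝ)) * (r ^ 2 * f1 ^ 2) := by ring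
        rw [this, e1, e2, hee']
        field_simp
        ring
      rw [e3]
      have : 0 < (N : ℝ) / 2 - ee N r := by linarith
      positivity
    have := (mul_pos_iff_of_pos_left (by positivity : (0 : ℝ) < r ^ 2)).mp key
    linarith

theorem final_aux (hB : StmtBlk) (hC : StmtCZ) (hS : StmtStar) (hE : StmtEig) (hP : StmtPull)
    (hZ : StmtZero) (hSi : StmtSigns) (hM : StmtMono) (hO : StmtODE) (hBE : StmtBEig)
    (hN : StmtNonc) {k d : ℕ} {c : ℕ → ℕ → ℝ} {b ks th : ℝ} (hk : 13 ≤ k) (hdeg : Deg d c)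
    (hOK : OutK k d c b ks th)
    (hT : ∃ ε0 : ℝ, 0 < ε0 ∧ ∀ ε : ℝ, 0 < ε → ε < ε0 → ∃ h : ℝ,
      ThinC (d + 1) (wj k d c) (closure (D0 k d c b ks th)) (8 / (5 * (k : ℝ) - 7)) ε h) :
    StmtFinal := by
  intro hall
  obtain ⟨ε0, hε0, hT⟩ := hT
  set xi : ℝ := 1 / ε0 + 1 with hxi
  have hxi0 : 0 < 1 / ε0 := by positivity
  have hxipos : 0 < xi := by linarith
  have hlt : (xi ^ 2)⁻¹ < ε0 := by
    rw [inv_lt_comm₀ (by positivity) hε0]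
    have : 1 / ε0 < xi ^ 2 := by nlinarith
    rwa [one_div] at this
  obtain ⟨h, hTh⟩ := hT (xi ^ 2)⁻¹ (by positivity) hlt
  obtain ⟨Ω, u, μ, o1, o2, o3, o4, o5, o6, o7, o8, o9, o10⟩ :=
    dom_of_thin hB hC hS hE hP hk hdeg hOK hxipos hTh
  obtain ⟨v, ν, v1, v2, v3, v4, v5, v6⟩ :=
    ball_not hZ hSi hM hO hBE hN (N := 5 * k + 1) (by omega)
  have hcast : (((5 * k + 1 : ℕ)) : ℝ) = 5 * (k : ℝ) + 1 := by push_cast; ring
  rw [hcast] at v6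
  exact v6 (hall (5 * k + 1) Ω u v μ ν (8 / (5 * (k : ℝ) + 1)) o1 o2 o3 o4 o5 o6 o7 o8 o9
    v1 v2 v3 v4 v5 (by positivity) o10)

end AFin

open AFin in
/-- The final theorem from the nodes. -/
theorem final_of (hB : StmtBlk) (hC : StmtCZ) (hS : StmtStar) (hE : StmtEig) (hP : StmtPull)
    (hZ : StmtZero) (hSi : StmtSigns) (hM : StmtMono) (hO : StmtODE) (hBE : StmtBEig)
    (hN : StmtNonc) (hLim : StmtLim) (hOut : StmtOut) (hThin : StmtThin) : StmtFinal := by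
  obtain ⟨d, c, b, ks, th, hOK⟩ := hLim
  obtain ⟨k, hk13, hk⟩ := ((eventually_ge_atTop 13).and (hOut d c b ks th hOK)).exists
  refine final_aux hB hC hS hE hP hZ hSi hM hO hBE hN hk13 hOK.hdeg hk ?_
  have hk' : (13 : ℝ) ≤ k := by exact_mod_cast hk13
  have hcomp : IsCompact (closure (D0 k d c b ks th)) :=
    Metric.isCompact_of_isClosed_isBounded isClosed_closure hk.bd.closure
  obtain ⟨a, ha, ε0, hε0, h⟩ := hThin (d + 1) (wj k d c) (closure (D0 k d c b ks th))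
    (8 / (5 * (k : ℝ) - 7)) (by omega) (fun j => contDiff_W hB (by omega) d _) hcomp
    (div_pos (by norm_num) (by linarith)) (by
      rw [div_le_div_iff₀ (by linarith) (by norm_num)]
      linarith)
    hk.nonneg (closure_mono (fun x hx => ⟨subset_closure hx, hx.2.2.2.2.1⟩))
    hk.ineqB hk.ineqC (fun x hx hx0 => hk.grad x hx hx0)
  refine ⟨ε0, hε0, fun ε he1 he2 => ⟨Real.pi / 2 + a * ε, ?_, ?_⟩⟩
  · have := Real.pi_pos
    positivity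
  · exact h ε he1 he2

end Lq
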