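import Pool.Agent.Lq.AFin
import Pool.Agent.LQL.Stmts

/-!
# MP_61eda3_an: the final assembly, version with half height 2 (`LQL.StmtThin2`)
-/

set_option autoImplicit false

open Filter Topology Set

namespace Lq

open AFin in
/-- The final theorem from the nodes, with `LQL.StmtThin2`. -/
theorem final_of2 (hB : StmtBlk) (hC : StmtCZ) (hS : StmtStar) (hE : StmtEig) (hP : StmtPull)
    (hZ : StmtZero) (hSi : StmtSigns) (hM : StmtMono) (hO : StmtODE) (hBE : StmtBEig)
    (hN : StmtNonc) (hLim : StmtLim) (hOut : StmtOut) (hThin : LQL.StmtThin2) : StmtFinal := by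
  obtain ⟨d, c, b, ks, th, hOK⟩ := hLim
  obtain ⟨k, hk13, hk⟩ := ((eventually_ge_atTop 13).and (hOut d c b ks th hOK)).exists
  refine final_aux hB hC hS hE hP hZ hSi hM hO hBE hN hk13 hOK.hdeg hk ?_
  have hk' : (13 : ℝ) ≤ k := by exact_mod_cast hk13
  have hcomp : IsCompact (closure (D0 k d c b ks th)) :=
    Metric.isCompact_of_isClosed_isBounded isClosed_closure hk.bd.closure
  obtain ⟨ε0, hε0, h⟩ := hThin (d + 1) (wj k d c) (closure (D0 k d c b ks th))
    (8 / (5 * (k : ℝ) - 7)) (by omega) (fun j => contDiff_W hB (by omega) d _) hcomp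
    (div_pos (by norm_num) (by linarith)) (by
      rw [div_le_div_iff₀ (by linarith) (by norm_num)]
      linarith)
    hk.nonneg (closure_mono (fun x hx => ⟨subset_closure hx, hx.2.2.2.2.1⟩))
    hk.ineqB hk.ineqC (fun x hx hx0 => hk.grad x hx hx0)
  exact ⟨ε0, hε0, fun ε he1 he2 => ⟨2, by norm_num, h ε he1 he2⟩⟩

end Lq
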