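import Pool.Agent.Lq.StA

/-!
# MP_61eda3_an, LQA_LAP: the Laplacian of a product in block variables
-/

set_option autoImplicit false

open Filter Topology Set

namespace Lq

namespace ALap

noncomputable def c1 (k : ℕ) (i : Fin (5 * k + 1)) : ℝ := if (i : ℕ) < k then 1 else 0
noncomputable def c2 (k : ℕ) (i : Fin (5 * k + 1)) : ℝ :=
  if k ≤ (i : ℕ) ∧ (i : ℕ) < 5 * k then 1 else 0
noncomputable def c3 (k : ℕ) (i : Fin (5 * k + 1)) : ℝ := if i = Fin.last (5 * k) then 1 else 0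

theorem S1_line (k : ℕ) (y : EuclideanSpace ℝ (Fin (5 * k + 1))) (i : Fin (5 * k + 1)) (t : ℝ) :
    S1 k (y + t • EuclideanSpace.single i (1 : ℝ)) = S1 k y + c1 k i * (2 * y i * t + t ^ 2) := by
  unfold S1
  have h : ∀ j : Fin (5 * k + 1),
      (if (j : ℕ) < k then (y + t • EuclideanSpace.single i (1 : ℝ)) j ^ 2 else 0) =
      (if (j : ℕ) < k then y j ^ 2 else 0) +
        (if j = i then c1 k i * (2 * y i * t + t ^ 2) else 0) := by
    intro j
    by_cases hj : j = i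
    · subst hj
      unfold c1
      by_cases hk : (j : ℕ) < k
      · simp [hk]; ring
      · simp [hk]
    · simp [hj]
  rw [Finset.sum_congr rfl (fun j _ => h j), Finset.sum_add_distrib, Finset.sum_ite_eq']
  simp

theorem S2_line (k : ℕ) (y : EuclideanSpace ℝ (Fin (5 * k + 1))) (i : Fin (5 * k + 1)) (t : ℝ) :
    S2 k (y + t • EuclideanSpace.single i (1 : ℝ)) = S2 k y + c2 k i * (2 * y i * t + t ^ 2) := by
  unfold S2
  have h : ∀ j : Fin (5 * k + 1),
      (if k ≤ (j : ℕ) ∧ (j : ℕ) < 5 * k then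
        (y + t • EuclideanSpace.single i (1 : ℝ)) j ^ 2 else 0) =
      (if k ≤ (j : ℕ) ∧ (j : ℕ) < 5 * k then y j ^ 2 else 0) +
        (if j = i then c2 k i * (2 * y i * t + t ^ 2) else 0) := by
    intro j
    by_cases hj : j = i
    · subst hj
      unfold c2
      by_cases hk : k ≤ (j : ℕ) ∧ (j : ℕ) < 5 * k
      · simp only [hk, and_self, if_true]
        simp
        ring
      · simp only [hk, if_false]
        simp
    · simp [hj]
  rw [Finset.sum_congr rfl (fun j _ => h j), Finset.sum_add_distrib, Finset.sum_ite_eq']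
  simp

theorem Z_line (k : ℕ) (y : EuclideanSpace ℝ (Fin (5 * k + 1))) (i : Fin (5 * k + 1)) (t : ℝ) :
    Zc k (y + t • EuclideanSpace.single i (1 : ℝ)) = Zc k y + c3 k i * t := by
  unfold Zc c3
  by_cases h : i = Fin.last (5 * k)
  · subst h
    simp
  · simp [h, Ne.symm h]

theorem y_line (k : ℕ) (y : EuclideanSpace ℝ (Fin (5 * k + 1))) (i : Fin (5 * k + 1)) (t : ℝ) :
    (y + t • EuclideanSpace.single i (1 : ℝ)) i = y i + t := by
  simp

theorem cd_co (n : ℕ) (i : Fin n) (m : ℕ∞) :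
    ContDiff ℝ m (fun x : EuclideanSpace ℝ (Fin n) => x i) :=
  (EuclideanSpace.proj (𝕜 := ℝ) i).contDiff

theorem cd_S1 (k : ℕ) (m : ℕ∞) : ContDiff ℝ m (S1 k) := by
  unfold S1
  apply ContDiff.sum
  intro i _
  by_cases h : (i : ℕ) < k
  · simp only [h, if_true]
    exact (cd_co _ i m).pow 2
  · simp only [h, if_false]
    exact contDiff_const

theorem cd_S2 (k : ℕ) (m : ℕ∞) : ContDiff ℝ m (S2 k) := by
  unfold S2
  apply ContDiff.sum
  intro i _
  by_cases h : k ≤ (i : ℕ) ∧ (i : ℕ) < 5 * k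
  · simp only [h, and_self, if_true]
    exact (cd_co _ i m).pow 2
  · simp only [h, if_false]
    exact contDiff_const

theorem cd_Z (k : ℕ) (m : ℕ∞) : ContDiff ℝ m (Zc k) := cd_co _ _ m

theorem deriv_cd {A : ℝ → ℝ} (hA : ContDiff ℝ 2 A) : ContDiff ℝ 1 (deriv A) := by
  have h : ContDiff ℝ (1 + 1) A := by
    have : (1 + 1 : WithTop ℕ∞) = 2 := by norm_num
    rw [this]
    exact hA
  exact (contDiff_succ_iff_deriv.mp h).2.2

/-- the directional derivative from the derivative along the line -/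
theorem fd_eq {E : Type*} [NormedAddCommGroup E] [NormedSpace ℝ E] {u : E → ℝ} {y v : E} {a : ℝ}
    (hu : DifferentiableAt ℝ u y) (h : HasDerivAt (fun t : ℝ => u (y + t • v)) a 0) :
    fderiv ℝ u y v = a := by
  rw [← hu.lineDeriv_eq_fderiv]
  exact h.deriv

/-- derivatives along the line of the three factors -/
theorem hd1 (k : ℕ) (A : ℝ → ℝ) (hA : Differentiable ℝ A)
    (y : EuclideanSpace ℝ (Fin (5 * k + 1))) (i : Fin (5 * k + 1)) :
    HasDerivAt (fun t : ℝ => A (S1 k (y + t • EuclideanSpace.single i (1 : ℝ))))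
      (deriv A (S1 k y) * (c1 k i * (2 * y i))) 0 := by
  have h1 : HasDerivAt (fun t : ℝ => S1 k y + c1 k i * (2 * y i * t + t ^ 2))
      (c1 k i * (2 * y i)) 0 := by
    have h2 : HasDerivAt (fun t : ℝ => 2 * y i * t + t ^ 2) (2 * y i * 1 + 2 * (0 : ℝ) ^ 1) 0 := by
      have := ((hasDerivAt_id (0 : ℝ)).const_mul (2 * y i)).add (hasDerivAt_pow 2 (0 : ℝ))
      exact this
    have h3 := (h2.const_mul (c1 k i)).const_add (S1 k y)
    have h4 : c1 k i * (2 * y i * 1 + 2 * (0 : ℝ) ^ 1) = c1 k i * (2 * y i) := by ring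
    rw [h4] at h3
    exact h3
  have h5 : S1 k y + c1 k i * (2 * y i * 0 + 0 ^ 2) = S1 k y := by ring
  have h6 : HasDerivAt A (deriv A (S1 k y)) (S1 k y + c1 k i * (2 * y i * 0 + 0 ^ 2)) := by
    rw [h5]
    exact (hA _).hasDerivAt
  have h7 := h6.comp (0 : ℝ) h1
  have h8 : (fun t : ℝ => A (S1 k (y + t • EuclideanSpace.single i (1 : ℝ)))) =
      A ∘ (fun t : ℝ => S1 k y + c1 k i * (2 * y i * t + t ^ 2)) := by
    funext t
    rw [S1_line]
    rfl
  rw [h8]
  exact h7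

theorem hd2 (k : ℕ) (A : ℝ → ℝ) (hA : Differentiable ℝ A)
    (y : EuclideanSpace ℝ (Fin (5 * k + 1))) (i : Fin (5 * k + 1)) :
    HasDerivAt (fun t : ℝ => A (S2 k (y + t • EuclideanSpace.single i (1 : ℝ))))
      (deriv A (S2 k y) * (c2 k i * (2 * y i))) 0 := by
  have h1 : HasDerivAt (fun t : ℝ => S2 k y + c2 k i * (2 * y i * t + t ^ 2))
      (c2 k i * (2 * y i)) 0 := by
    have h2 : HasDerivAt (fun t : ℝ => 2 * y i * t + t ^ 2) (2 * y i * 1 + 2 * (0 : ℝ) ^ 1) 0 := by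
      have := ((hasDerivAt_id (0 : ℝ)).const_mul (2 * y i)).add (hasDerivAt_pow 2 (0 : ℝ))
      exact this
    have h3 := (h2.const_mul (c2 k i)).const_add (S2 k y)
    have h4 : c2 k i * (2 * y i * 1 + 2 * (0 : ℝ) ^ 1) = c2 k i * (2 * y i) := by ring
    rw [h4] at h3
    exact h3
  have h5 : S2 k y + c2 k i * (2 * y i * 0 + 0 ^ 2) = S2 k y := by ring
  have h6 : HasDerivAt A (deriv A (S2 k y)) (S2 k y + c2 k i * (2 * y i * 0 + 0 ^ 2)) := by
    rw [h5]
    exact (hA _).hasDerivAt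
  have h7 := h6.comp (0 : ℝ) h1
  have h8 : (fun t : ℝ => A (S2 k (y + t • EuclideanSpace.single i (1 : ℝ)))) =
      A ∘ (fun t : ℝ => S2 k y + c2 k i * (2 * y i * t + t ^ 2)) := by
    funext t
    rw [S2_line]
    rfl
  rw [h8]
  exact h7

theorem hd3 (k : ℕ) (A : ℝ → ℝ) (hA : Differentiable ℝ A)
    (y : EuclideanSpace ℝ (Fin (5 * k + 1))) (i : Fin (5 * k + 1)) :
    HasDerivAt (fun t : ℝ => A (Zc k (y + t • EuclideanSpace.single i (1 : ℝ))))
      (deriv A (Zc k y) * c3 k i) 0 := by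
  have h1 : HasDerivAt (fun t : ℝ => Zc k y + c3 k i * t) (c3 k i) 0 := by
    have h3 := ((hasDerivAt_id (0 : ℝ)).const_mul (c3 k i)).const_add (Zc k y)
    rw [mul_one] at h3
    exact h3
  have h5 : Zc k y + c3 k i * 0 = Zc k y := by ring
  have h6 : HasDerivAt A (deriv A (Zc k y)) (Zc k y + c3 k i * 0) := by
    rw [h5]
    exact (hA _).hasDerivAt
  have h7 := h6.comp (0 : ℝ) h1
  have h8 : (fun t : ℝ => A (Zc k (y + t • EuclideanSpace.single i (1 : ℝ)))) =
      A ∘ (fun t : ℝ => Zc k y + c3 k i * t) := by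
    funext t
    rw [Z_line]
    rfl
  rw [h8]
  exact h7

/-- derivative along the line of a product -/
theorem hdp (k : ℕ) (A B C : ℝ → ℝ) (hA : Differentiable ℝ A) (hB : Differentiable ℝ B)
    (hC : Differentiable ℝ C) (y : EuclideanSpace ℝ (Fin (5 * k + 1))) (i : Fin (5 * k + 1)) :
    HasDerivAt (fun t : ℝ => A (S1 k (y + t • EuclideanSpace.single i (1 : ℝ))) *
        B (S2 k (y + t • EuclideanSpace.single i (1 : ℝ))) *
        C (Zc k (y + t • EuclideanSpace.single i (1 : ℝ))))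
      (c1 k i * (2 * y i) * (deriv A (S1 k y) * B (S2 k y) * C (Zc k y)) +
        c2 k i * (2 * y i) * (A (S1 k y) * deriv B (S2 k y) * C (Zc k y)) +
        c3 k i * (A (S1 k y) * B (S2 k y) * deriv C (Zc k y))) 0 := by
  have h := ((hd1 k A hA y i).mul (hd2 k B hB y i)).mul (hd3 k C hC y i)
  simp only [zero_smul, add_zero, Pi.mul_apply] at h
  have e : c1 k i * (2 * y i) * (deriv A (S1 k y) * B (S2 k y) * C (Zc k y)) +
        c2 k i * (2 * y i) * (A (S1 k y) * deriv B (S2 k y) * C (Zc k y)) +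
        c3 k i * (A (S1 k y) * B (S2 k y) * deriv C (Zc k y)) =
      (deriv A (S1 k y) * (c1 k i * (2 * y i)) * B (S2 k y) +
        A (S1 k y) * (deriv B (S2 k y) * (c2 k i * (2 * y i)))) * C (Zc k y) +
        A (S1 k y) * B (S2 k y) * (deriv C (Zc k y) * c3 k i) := by ring
  rw [e]
  exact h

theorem diffp (k : ℕ) (A B C : ℝ → ℝ) (hA : Differentiable ℝ A) (hB : Differentiable ℝ B)
    (hC : Differentiable ℝ C) :
    Differentiable ℝ (fun p : EuclideanSpace ℝ (Fin (5 * k + 1)) =>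
      A (S1 k p) * B (S2 k p) * C (Zc k p)) := by
  have h1 : Differentiable ℝ (S1 k) := (cd_S1 k 1).differentiable (by norm_num)
  have h2 : Differentiable ℝ (S2 k) := (cd_S2 k 1).differentiable (by norm_num)
  have h3 : Differentiable ℝ (Zc k) := (cd_Z k 1).differentiable (by norm_num)
  exact ((hA.comp h1).mul (hB.comp h2)).mul (hC.comp h3)

/-- the first derivative -/
theorem fd1 (k : ℕ) (A B C : ℝ → ℝ) (hA : Differentiable ℝ A) (hB : Differentiable ℝ B)
    (hC : Differentiable ℝ C) (y : EuclideanSpace ℝ (Fin (5 * k + 1))) (i : Fin (5 * k + 1)) :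
    fderiv ℝ (fun p : EuclideanSpace ℝ (Fin (5 * k + 1)) =>
      A (S1 k p) * B (S2 k p) * C (Zc k p)) y (EuclideanSpace.single i (1 : ℝ)) =
      c1 k i * (2 * y i) * (deriv A (S1 k y) * B (S2 k y) * C (Zc k y)) +
        c2 k i * (2 * y i) * (A (S1 k y) * deriv B (S2 k y) * C (Zc k y)) +
        c3 k i * (A (S1 k y) * B (S2 k y) * deriv C (Zc k y)) :=
  fd_eq (diffp k A B C hA hB hC y) (hdp k A B C hA hB hC y i)

theorem c_cases (k : ℕ) (i : Fin (5 * k + 1)) :
    (c1 k i = 1 ∧ c2 k i = 0 ∧ c3 k i = 0) ∨ (c1 k i = 0 ∧ c2 k i = 1 ∧ c3 k i = 0) ∨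
      (c1 k i = 0 ∧ c2 k i = 0 ∧ c3 k i = 1) := by
  have hi := i.2
  have hl : i = Fin.last (5 * k) ↔ (i : ℕ) = 5 * k := by
    rw [Fin.ext_iff]; rfl
  by_cases a1 : (i : ℕ) < k
  · left
    exact ⟨if_pos a1, if_neg (by omega), if_neg (by rw [hl]; omega)⟩
  · right
    by_cases a2 : (i : ℕ) < 5 * k
    · left
      exact ⟨if_neg a1, if_pos (by omega), if_neg (by rw [hl]; omega)⟩
    · right
      exact ⟨if_neg a1, if_neg (by omega), if_pos (by rw [hl]; omega)⟩

theorem c_rel (k : ℕ) (i : Fin (5 * k + 1)) :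
    c1 k i * c1 k i = c1 k i ∧ c2 k i * c2 k i = c2 k i ∧ c3 k i * c3 k i = c3 k i ∧
    c1 k i * c2 k i = 0 ∧ c1 k i * c3 k i = 0 ∧ c2 k i * c3 k i = 0 := by
  rcases c_cases k i with ⟨h1, h2, h3⟩ | ⟨h1, h2, h3⟩ | ⟨h1, h2, h3⟩ <;> rw [h1, h2, h3] <;> norm_num

/-- the second derivative -/
theorem fd2 (k : ℕ) (A B C : ℝ → ℝ) (hA : ContDiff ℝ 2 A) (hB : ContDiff ℝ 2 B)
    (hC : ContDiff ℝ 2 C) (x : EuclideanSpace ℝ (Fin (5 * k + 1))) (i : Fin (5 * k + 1)) :
    fderiv ℝ (fun y => fderiv ℝ (fun p : EuclideanSpace ℝ (Fin (5 * k + 1)) =>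
      A (S1 k p) * B (S2 k p) * C (Zc k p)) y (EuclideanSpace.single i (1 : ℝ))) x
        (EuclideanSpace.single i (1 : ℝ)) =
      c1 k i * (2 * (deriv A (S1 k x) * B (S2 k x) * C (Zc k x)) +
          4 * x i ^ 2 * (deriv (deriv A) (S1 k x) * B (S2 k x) * C (Zc k x))) +
        c2 k i * (2 * (A (S1 k x) * deriv B (S2 k x) * C (Zc k x)) +
          4 * x i ^ 2 * (A (S1 k x) * deriv (deriv B) (S2 k x) * C (Zc k x))) +
        c3 k i * (A (S1 k x) * B (S2 k x) * deriv (deriv C) (Zc k x)) := by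
  have dA : Differentiable ℝ A := hA.differentiable (by norm_num)
  have dB : Differentiable ℝ B := hB.differentiable (by norm_num)
  have dC : Differentiable ℝ C := hC.differentiable (by norm_num)
  have dA' : Differentiable ℝ (deriv A) := (deriv_cd hA).differentiable (by norm_num)
  have dB' : Differentiable ℝ (deriv B) := (deriv_cd hB).differentiable (by norm_num)
  have dC' : Differentiable ℝ (deriv C) := (deriv_cd hC).differentiable (by norm_num)
  have e1 : (fun y => fderiv ℝ (fun p : EuclideanSpace ℝ (Fin (5 * k + 1)) =>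
      A (S1 k p) * B (S2 k p) * C (Zc k p)) y (EuclideanSpace.single i (1 : ℝ))) =
      fun y => c1 k i * (2 * y i) * (deriv A (S1 k y) * B (S2 k y) * C (Zc k y)) +
        c2 k i * (2 * y i) * (A (S1 k y) * deriv B (S2 k y) * C (Zc k y)) +
        c3 k i * (A (S1 k y) * B (S2 k y) * deriv C (Zc k y)) := by
    funext y
    exact fd1 k A B C dA dB dC y i
  rw [e1]
  have dy : Differentiable ℝ (fun y : EuclideanSpace ℝ (Fin (5 * k + 1)) => y i) :=
    (cd_co _ i 1).differentiable (by norm_num)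
  have dG : Differentiable ℝ (fun y : EuclideanSpace ℝ (Fin (5 * k + 1)) =>
      c1 k i * (2 * y i) * (deriv A (S1 k y) * B (S2 k y) * C (Zc k y)) +
        c2 k i * (2 * y i) * (A (S1 k y) * deriv B (S2 k y) * C (Zc k y)) +
        c3 k i * (A (S1 k y) * B (S2 k y) * deriv C (Zc k y))) :=
    ((((dy.const_mul 2).const_mul (c1 k i)).mul (diffp k _ B C dA' dB dC)).add
      (((dy.const_mul 2).const_mul (c2 k i)).mul (diffp k A _ C dA dB' dC))).add
      ((diffp k A B _ dA dB dC').const_mul (c3 k i))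
  have hy : ∀ c : ℝ, HasDerivAt (fun t : ℝ =>
      c * (2 * (x + t • EuclideanSpace.single i (1 : ℝ)) i)) (c * (2 * 1)) 0 := by
    intro c
    have h1 : (fun t : ℝ => c * (2 * (x + t • EuclideanSpace.single i (1 : ℝ)) i)) =
        fun t : ℝ => c * (2 * (x i + t)) := by
      funext t
      rw [y_line]
    rw [h1]
    exact (((hasDerivAt_id (0 : ℝ)).const_add (x i)).const_mul 2).const_mul c
  have h1 := (hy (c1 k i)).mul (hdp k _ B C dA' dB dC x i)
  have h2 := (hy (c2 k i)).mul (hdp k A _ C dA dB' dC x i)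
  have h3 := (hdp k A B _ dA dB dC' x i).const_mul (c3 k i)
  have h := (h1.add h2).add h3
  simp only [zero_smul, add_zero] at h
  have hfd := fd_eq (dG x) h
  rw [hfd]
  obtain ⟨r1, r2, r3, r4, r5, r6⟩ := c_rel k i
  linear_combination
    (4 * x i ^ 2 * (deriv (deriv A) (S1 k x) * B (S2 k x) * C (Zc k x))) * r1 +
    (4 * x i ^ 2 * (A (S1 k x) * deriv (deriv B) (S2 k x) * C (Zc k x))) * r2 +
    (A (S1 k x) * B (S2 k x) * deriv (deriv C) (Zc k x)) * r3 +
    (2 * 4 * x i ^ 2 * (deriv A (S1 k x) * deriv B (S2 k x) * C (Zc k x))) * r4 +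
    (2 * 2 * x i * (deriv A (S1 k x) * B (S2 k x) * deriv C (Zc k x))) * r5 +
    (2 * 2 * x i * (A (S1 k x) * deriv B (S2 k x) * deriv C (Zc k x))) * r6

theorem sum_c1 (k : ℕ) : ∑ i : Fin (5 * k + 1), c1 k i = (k : ℝ) := by
  unfold c1
  rw [Finset.sum_boole]
  have h : (Finset.univ.filter (fun i : Fin (5 * k + 1) => (i : ℕ) < k)).card = k := by
    rw [Fin.card_filter_val_lt]
    omega
  rw [h]

theorem sum_c3 (k : ℕ) : ∑ i : Fin (5 * k + 1), c3 k i = 1 := by
  unfold c3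
  simp

theorem sum_c (k : ℕ) (i : Fin (5 * k + 1)) : c1 k i + c2 k i + c3 k i = 1 := by
  rcases c_cases k i with ⟨h1, h2, h3⟩ | ⟨h1, h2, h3⟩ | ⟨h1, h2, h3⟩ <;> rw [h1, h2, h3] <;> norm_num

theorem sum_c2 (k : ℕ) : ∑ i : Fin (5 * k + 1), c2 k i = 4 * (k : ℝ) := by
  have h : ∑ i : Fin (5 * k + 1), (c1 k i + c2 k i + c3 k i) = 5 * (k : ℝ) + 1 := by
    rw [Finset.sum_congr rfl (fun i _ => sum_c k i)]
    simp
  rw [Finset.sum_add_distrib, Finset.sum_add_distrib, sum_c1, sum_c3] at h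
  linarith

theorem S1_sum (k : ℕ) (x : EuclideanSpace ℝ (Fin (5 * k + 1))) :
    ∑ i : Fin (5 * k + 1), c1 k i * x i ^ 2 = S1 k x := by
  unfold S1 c1
  refine Finset.sum_congr rfl fun i _ => ?_
  by_cases h : (i : ℕ) < k <;> simp [h]

theorem S2_sum (k : ℕ) (x : EuclideanSpace ℝ (Fin (5 * k + 1))) :
    ∑ i : Fin (5 * k + 1), c2 k i * x i ^ 2 = S2 k x := by
  unfold S2 c2
  refine Finset.sum_congr rfl fun i _ => ?_
  by_cases h : k ≤ (i : ℕ) ∧ (i : ℕ) < 5 * k
  · simp only [h, and_self, if_true, one_mul]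
  · simp only [h, if_false, zero_mul]

end ALap

open ALap in
theorem t_Lap : StmtLap := by
  intro k A B C hA hB hC
  refine ⟨?_, ?_⟩
  · have h1 : ContDiff ℝ 2 (S1 k) := cd_S1 k 2
    have h2 : ContDiff ℝ 2 (S2 k) := cd_S2 k 2
    have h3 : ContDiff ℝ 2 (Zc k) := cd_Z k 2
    exact ((hA.comp h1).mul (hB.comp h2)).mul (hC.comp h3)
  · intro x
    unfold lap
    rw [Finset.sum_congr rfl (fun i _ => fd2 k A B C hA hB hC x i)]
    rw [Finset.sum_add_distrib, Finset.sum_add_distrib]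
    have e1 : ∑ i : Fin (5 * k + 1), c1 k i * (2 * (deriv A (S1 k x) * B (S2 k x) * C (Zc k x)) +
          4 * x i ^ 2 * (deriv (deriv A) (S1 k x) * B (S2 k x) * C (Zc k x))) =
        (∑ i : Fin (5 * k + 1), c1 k i) * (2 * (deriv A (S1 k x) * B (S2 k x) * C (Zc k x))) +
        (∑ i : Fin (5 * k + 1), c1 k i * x i ^ 2) *
          (4 * (deriv (deriv A) (S1 k x) * B (S2 k x) * C (Zc k x))) := by
      rw [Finset.sum_mul, Finset.sum_mul, ← Finset.sum_add_distrib]
      refine Finset.sum_congr rfl fun i _ => ?_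
      ring
    have e2 : ∑ i : Fin (5 * k + 1), c2 k i * (2 * (A (S1 k x) * deriv B (S2 k x) * C (Zc k x)) +
          4 * x i ^ 2 * (A (S1 k x) * deriv (deriv B) (S2 k x) * C (Zc k x))) =
        (∑ i : Fin (5 * k + 1), c2 k i) * (2 * (A (S1 k x) * deriv B (S2 k x) * C (Zc k x))) +
        (∑ i : Fin (5 * k + 1), c2 k i * x i ^ 2) *
          (4 * (A (S1 k x) * deriv (deriv B) (S2 k x) * C (Zc k x))) := by
      rw [Finset.sum_mul, Finset.sum_mul, ← Finset.sum_add_distrib]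
      refine Finset.sum_congr rfl fun i _ => ?_
      ring
    rw [e1, e2, ← Finset.sum_mul, sum_c1, sum_c2, sum_c3, S1_sum, S2_sum]
    ring

end Lq
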