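import Pool.Agent.Lq.StA

/-!
# MP_61eda3_an: failure of power concavity on the ball (LQA_NONC)
-/

set_option autoImplicit false

open Filter Topology Set

namespace Lq

namespace ANonc

/-- one variable core: a positive `C^2` function `g` with `(1-al) g'^2 < g g''` at a point of
`(0,1)` has no concave power `al` on `(0,1)` -/
theorem core {g : ℝ → ℝ} {al t0 : ℝ} (hg : ContDiff ℝ 2 g)
    (hpos : ∀ t, 0 < t → t < 1 → 0 < g t) (h0 : 0 < t0) (h1 : t0 < 1) (hal : 0 < al)
    (hineq : (1 - al) * (deriv g t0) ^ 2 < g t0 * deriv (deriv g) t0)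
    (hc : ConcaveOn ℝ (Ioo (0 : ℝ) 1) (fun t => g t ^ al)) : False := by
  have hd1 : Differentiable ℝ g := hg.differentiable (by norm_num)
  have hdg : ContDiff ℝ 1 (deriv g) := by
    have h2 : ContDiff ℝ (1 + 1) g := by
      have : (1 + 1 : WithTop ℕ∞) = 2 := by norm_num
      rw [this]; exact hg
    exact (contDiff_succ_iff_deriv.mp h2).2.2
  have hd2 : Differentiable ℝ (deriv g) := hdg.differentiable (by norm_num)
  -- first derivative of the power
  have hG1 : ∀ t, 0 < t → t < 1 →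
      HasDerivAt (fun t => g t ^ al) (deriv g t * al * g t ^ (al - 1)) t := by
    intro t ht0 ht1
    exact (hd1 t).hasDerivAt.rpow_const (Or.inl (hpos t ht0 ht1).ne')
  -- second derivative
  have hG2 : HasDerivAt (fun t => deriv g t * al * g t ^ (al - 1))
      (deriv (deriv g) t0 * al * g t0 ^ (al - 1) +
        deriv g t0 * al * (deriv g t0 * (al - 1) * g t0 ^ (al - 1 - 1))) t0 := by
    have e1 : HasDerivAt (fun t => deriv g t * al) (deriv (deriv g) t0 * al) t0 :=
      ((hd2 t0).hasDerivAt).mul_const al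
    have e2 : HasDerivAt (fun t => g t ^ (al - 1))
        (deriv g t0 * (al - 1) * g t0 ^ (al - 1 - 1)) t0 :=
      (hd1 t0).hasDerivAt.rpow_const (Or.inl (hpos t0 h0 h1).ne')
    exact e1.mul e2
  have hmem : Ioo (0 : ℝ) 1 ∈ 𝓝 t0 := Ioo_mem_nhds h0 h1
  have hev : deriv (fun t => g t ^ al) =ᶠ[𝓝 t0] (fun t => deriv g t * al * g t ^ (al - 1)) := by
    filter_upwards [hmem] with t ht
    exact (hG1 t ht.1 ht.2).deriv
  have hG2' := hG2.congr_of_eventuallyEq hev
  have hanti : AntitoneOn (deriv (fun t => g t ^ al)) (Ioo (0 : ℝ) 1) :=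
    hc.antitoneOn_deriv (fun t ht => (hG1 t ht.1 ht.2).differentiableAt)
  have hnon : derivWithin (deriv (fun t => g t ^ al)) (Ioo (0 : ℝ) 1) t0 ≤ 0 :=
    hanti.derivWithin_nonpos
  have huniq : UniqueDiffWithinAt ℝ (Ioo (0 : ℝ) 1) t0 :=
    isOpen_Ioo.uniqueDiffWithinAt ⟨h0, h1⟩
  rw [hG2'.hasDerivWithinAt.derivWithin huniq] at hnon
  have hp : 0 < g t0 := hpos t0 h0 h1
  have hs : g t0 ^ (al - 1) = g t0 ^ (al - 1 - 1) * g t0 := by
    rw [← Real.rpow_add_one hp.ne']
    congr 1
    ring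
  rw [hs] at hnon
  have hq : 0 < g t0 ^ (al - 1 - 1) := Real.rpow_pos_of_pos hp _
  have hkey : 0 < al * g t0 ^ (al - 1 - 1) *
      (g t0 * deriv (deriv g) t0 - (1 - al) * (deriv g t0) ^ 2) :=
    mul_pos (mul_pos hal hq) (by linarith)
  nlinarith [hkey, hnon]

end ANonc

/-- LQA_NONC -/
theorem t_Nonc (hB : StmtBlk) : StmtNonc := by
  intro N R r al hN hR hpos hr hrR hal hineq hc
  have hf : ContDiff ℝ (⊤ : ℕ∞) (F N 0) := by
    have h := (hB N hN).1 0
    have : F N 0 = fun x => La N 0 (x ^ 2) := rfl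
    rw [this]
    exact h.comp (contDiff_id.pow 2)
  have hf2 : ContDiff ℝ 2 (F N 0) := hf.of_le (by
    have h : ((2 : ℕ∞) : WithTop ℕ∞) ≤ ((⊤ : ℕ∞) : WithTop ℕ∞) := WithTop.coe_le_coe.mpr le_top
    exact h)
  -- restriction to a ray
  set e : EuclideanSpace ℝ (Fin N) := EuclideanSpace.single (⟨0, hN⟩ : Fin N) (1 : ℝ) with he
  have hne : ‖e‖ = 1 := by
    simp [he]
  have hnorm : ∀ t : ℝ, 0 < t → ‖t • e‖ = t := by
    intro t ht
    rw [norm_smul, hne, mul_one, Real.norm_eq_abs, abs_of_pos ht]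
  have hg : ContDiff ℝ 2 (fun t => F N 0 (R * t)) := hf2.comp (contDiff_const.mul contDiff_id)
  have hd1 : deriv (fun t => F N 0 (R * t)) = fun t => R * deriv (F N 0) (R * t) := by
    funext t
    have h1 : HasDerivAt (F N 0) (deriv (F N 0) (R * t)) (R * t) :=
      ((hf2.differentiable (by norm_num)) (R * t)).hasDerivAt
    have h2 : HasDerivAt (fun t : ℝ => R * t) (R * 1) t := (hasDerivAt_id t).const_mul R
    have h3 := (h1.comp t h2).deriv
    simp only [Function.comp_def] at h3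
    rw [h3]; ring
  have hdf : Differentiable ℝ (deriv (F N 0)) := by
    have h2 : ContDiff ℝ (1 + 1) (F N 0) := by
      have : (1 + 1 : WithTop ℕ∞) = 2 := by norm_num
      rw [this]; exact hf2
    exact (contDiff_succ_iff_deriv.mp h2).2.2.differentiable (by norm_num)
  have hd2 : ∀ t, deriv (deriv (fun t => F N 0 (R * t))) t =
      R * (R * deriv (deriv (F N 0)) (R * t)) := by
    intro t
    rw [hd1]
    have h1 : HasDerivAt (deriv (F N 0)) (deriv (deriv (F N 0)) (R * t)) (R * t) :=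
      (hdf (R * t)).hasDerivAt
    have h2 : HasDerivAt (fun t : ℝ => R * t) (R * 1) t := (hasDerivAt_id t).const_mul R
    have h3 := ((h1.comp t h2).const_mul R).deriv
    simp only [Function.comp_def] at h3
    rw [h3]; ring
  have hRt : R * (r / R) = r := by field_simp
  refine ANonc.core (g := fun t => F N 0 (R * t)) (al := al) (t0 := r / R) hg ?_
    (div_pos hr hR) ((div_lt_one hR).mpr hrR) hal ?_ ?_
  · intro t ht0 ht1
    have : R * t < R := by nlinarith
    exact hpos (R * t) (by positivity) this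
  · rw [hd2, hd1]
    simp only [hRt]
    have hR2 : 0 < R ^ 2 := by positivity
    nlinarith [mul_lt_mul_of_pos_left hineq hR2]
  · refine ⟨convex_Ioo 0 1, ?_⟩
    intro x hx y hy a b ha hb hab
    have hx0 : x • e ∈ Metric.ball (0 : EuclideanSpace ℝ (Fin N)) 1 := by
      rw [mem_ball_zero_iff, hnorm x hx.1]; exact hx.2
    have hy0 : y • e ∈ Metric.ball (0 : EuclideanSpace ℝ (Fin N)) 1 := by
      rw [mem_ball_zero_iff, hnorm y hy.1]; exact hy.2
    have h := hc.2 hx0 hy0 ha hb hab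
    have hxy : a • x + b • y ∈ Ioo (0 : ℝ) 1 := (convex_Ioo (0 : ℝ) 1) hx hy ha hb hab
    have hcomb : a • (x • e) + b • (y • e) = (a • x + b • y) • e := by
      simp only [smul_eq_mul, add_smul, smul_smul]
    rw [hcomb] at h
    simp only [hnorm x hx.1, hnorm y hy.1, hnorm _ hxy.1] at h
    exact h

end Lq
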