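import Pool.Agent.Lq.StA

/-!
# MP_61eda3_an: pull back of a convex set and of a power concave function
-/

set_option autoImplicit false

open Filter Topology Set

namespace Lq

namespace APull

/-- coordinate projection -/
noncomputable def Pr {n : ℕ} (p : Fin n → Prop) [DecidablePred p]
    (x : EuclideanSpace ℝ (Fin n)) : EuclideanSpace ℝ (Fin n) :=
  WithLp.toLp 2 (fun i => if p i then x i else 0)

theorem Pr_lin {n : ℕ} (p : Fin n → Prop) [DecidablePred p] (a b : ℝ)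
    (x y : EuclideanSpace ℝ (Fin n)) : Pr p (a • x + b • y) = a • Pr p x + b • Pr p y := by
  ext i
  simp only [Pr, PiLp.add_apply, PiLp.smul_apply, smul_eq_mul]
  split_ifs <;> simp

theorem norm_Pr {n : ℕ} (p : Fin n → Prop) [DecidablePred p] (x : EuclideanSpace ℝ (Fin n)) :
    ‖Pr p x‖ = Real.sqrt (∑ i, if p i then x i ^ 2 else 0) := by
  rw [EuclideanSpace.norm_eq]
  refine congrArg Real.sqrt (Finset.sum_congr rfl fun i _ => ?_)
  simp only [Pr]
  split_ifs <;> simp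

theorem norm_Pr_le {n : ℕ} (p : Fin n → Prop) [DecidablePred p] (a b : ℝ) (ha : 0 ≤ a)
    (hb : 0 ≤ b) (x y : EuclideanSpace ℝ (Fin n)) :
    ‖Pr p (a • x + b • y)‖ ≤ a * ‖Pr p x‖ + b * ‖Pr p y‖ := by
  rw [Pr_lin]
  refine (norm_add_le _ _).trans (le_of_eq ?_)
  rw [norm_smul, norm_smul, Real.norm_of_nonneg ha, Real.norm_of_nonneg hb]

theorem sqS1 (k : ℕ) (x : EuclideanSpace ℝ (Fin (5 * k + 1))) :
    Real.sqrt (S1 k x) = ‖Pr (fun i => (i : ℕ) < k) x‖ := by
  rw [norm_Pr]; rfl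

theorem sqS2 (k : ℕ) (x : EuclideanSpace ℝ (Fin (5 * k + 1))) :
    Real.sqrt (S2 k x) = ‖Pr (fun i => k ≤ (i : ℕ) ∧ (i : ℕ) < 5 * k) x‖ := by
  rw [norm_Pr]; rfl

theorem decomp (k : ℕ) (x : EuclideanSpace ℝ (Fin (5 * k + 1))) :
    x = Pr (fun i => (i : ℕ) < k) x + Pr (fun i => k ≤ (i : ℕ) ∧ (i : ℕ) < 5 * k) x
      + EuclideanSpace.single (Fin.last (5 * k)) (Zc k x) := by
  ext i
  simp only [Pr, PiLp.add_apply, PiLp.single_apply]
  have hi := i.2
  by_cases h1 : (i : ℕ) < k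
  · have h3 : i ≠ Fin.last (5 * k) := by
      intro h; rw [h] at h1; simp at h1; omega
    have h2 : ¬ (k ≤ (i : ℕ) ∧ (i : ℕ) < 5 * k) := by omega
    simp [h1, h2, h3]
  · by_cases h2 : (i : ℕ) < 5 * k
    · have h3 : i ≠ Fin.last (5 * k) := by
        intro h; rw [h] at h2; simp at h2
      have h4 : k ≤ (i : ℕ) ∧ (i : ℕ) < 5 * k := by omega
      simp only [h1, if_false, h4, h3]
      simp
    · have h3 : i = Fin.last (5 * k) := by
        apply Fin.ext; simp; omega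
      have h4 : ¬ (k ≤ (i : ℕ) ∧ (i : ℕ) < 5 * k) := by omega
      rw [if_neg h1, if_neg h4, if_pos h3, h3]
      simp [Zc]

theorem cont_pull (k : ℕ) (xi : ℝ) : Continuous (pull k xi) := by
  have h1 : Continuous (S1 k) := by
    unfold S1
    refine continuous_finsetSum _ fun i _ => ?_
    split_ifs
    · fun_prop
    · exact continuous_const
  have h2 : Continuous (S2 k) := by
    unfold S2
    refine continuous_finsetSum _ fun i _ => ?_
    split_ifs
    · fun_prop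
    · exact continuous_const
  have h3 : Continuous (Zc k) := by
    unfold Zc
    fun_prop
  unfold pull
  exact ((h1.sqrt).prodMk (h2.sqrt)).prodMk (continuous_const.mul h3)

theorem pull_zero (k : ℕ) (xi : ℝ) : pull k xi 0 = 0 := by
  simp [pull, S1, S2, Zc]

theorem step (O : Set ((ℝ × ℝ) × ℝ)) (U : (ℝ × ℝ) × ℝ → ℝ) (al : ℝ)
    (hc : ConcaveOn ℝ O (fun Y => U Y ^ al)) (Y Y' : (ℝ × ℝ) × ℝ) (hY : Y ∈ O) (hY' : Y' ∈ O)
    (hU : U Y' = U Y) (l : ℝ) (h0 : 0 ≤ l) (h1 : l ≤ 1) :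
    l • Y + (1 - l) • Y' ∈ O ∧ U Y ^ al ≤ U (l • Y + (1 - l) • Y') ^ al := by
  refine ⟨hc.1 hY hY' h0 (by linarith) (by ring), ?_⟩
  have h := hc.2 hY hY' h0 (by linarith : (0 : ℝ) ≤ 1 - l) (by ring)
  simp only [hU, smul_eq_mul] at h
  calc U Y ^ al = l * U Y ^ al + (1 - l) * U Y ^ al := by ring
    _ ≤ _ := h

theorem exists_l (A A' : ℝ) (h : |A'| ≤ A) :
    ∃ l : ℝ, 0 ≤ l ∧ l ≤ 1 ∧ A' = l * A + (1 - l) * (-A) := by
  rcases eq_or_lt_of_le ((abs_nonneg A').trans h) with h0 | h0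
  · refine ⟨1, by norm_num, le_refl _, ?_⟩
    rw [← h0] at h ⊢
    have : A' = 0 := abs_eq_zero.1 (le_antisymm h (abs_nonneg _))
    rw [this]; ring
  · obtain ⟨h1, h2⟩ := abs_le.1 h
    refine ⟨(A + A') / (2 * A), div_nonneg (by linarith) (by linarith), ?_, ?_⟩
    · rw [div_le_one (by linarith)]; linarith
    · field_simp; ring

theorem mono (O : Set ((ℝ × ℝ) × ℝ)) (U : (ℝ × ℝ) × ℝ → ℝ) (al : ℝ)
    (hc : ConcaveOn ℝ O (fun Y => U Y ^ al))
    (hs : ∀ a b z : ℝ, ((a, b), z) ∈ O → ((-a, b), z) ∈ O ∧ ((a, -b), z) ∈ O)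
    (hUs : ∀ a b z : ℝ, U ((-a, b), z) = U ((a, b), z) ∧ U ((a, -b), z) = U ((a, b), z))
    (A B A' B' z : ℝ) (h : ((A, B), z) ∈ O) (hA : |A'| ≤ A) (hB : |B'| ≤ B) :
    ((A', B'), z) ∈ O ∧ U ((A, B), z) ^ al ≤ U ((A', B'), z) ^ al := by
  obtain ⟨l, l0, l1, hl⟩ := exists_l A A' hA
  obtain ⟨m, m0, m1, hm⟩ := exists_l B B' hB
  have s1 := step O U al hc ((A, B), z) ((-A, B), z) h (hs A B z h).1 (hUs A B z).1 l l0 l1
  have e1 : l • (((A, B), z) : (ℝ × ℝ) × ℝ) + (1 - l) • (((-A, B), z) : (ℝ × ℝ) × ℝ)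
      = ((A', B), z) := by
    ext
    · simp [hl]
    · simp; ring
    · simp; ring
  rw [e1] at s1
  have s2 := step O U al hc ((A', B), z) ((A', -B), z) s1.1 (hs A' B z s1.1).2 (hUs A' B z).2
    m m0 m1
  have e2 : m • (((A', B), z) : (ℝ × ℝ) × ℝ) + (1 - m) • (((A', -B), z) : (ℝ × ℝ) × ℝ)
      = ((A', B'), z) := by
    ext
    · simp; ring
    · simp [hm]
    · simp; ring
  rw [e2] at s2
  exact ⟨s2.1, s1.2.trans s2.2⟩

end APull

theorem t_Pull : StmtPull := by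
  intro k xi al O U hxi hal hOo hOb hOc h0 hUc hpos hfr hc hs hUs
  have hcont := APull.cont_pull k xi
  have key : ∀ x ∈ pull k xi ⁻¹' O, ∀ y ∈ pull k xi ⁻¹' O, ∀ a b : ℝ, 0 ≤ a → 0 ≤ b →
      a + b = 1 → pull k xi (a • x + b • y) ∈ O ∧
      U (a • pull k xi x + b • pull k xi y) ^ al ≤ U (pull k xi (a • x + b • y)) ^ al := by
    intro x hx y hy a b ha hb hab
    have hmem : a • pull k xi x + b • pull k xi y ∈ O := hOc hx hy ha hb hab
    have hz : xi * Zc k (a • x + b • y) = a * (xi * Zc k x) + b * (xi * Zc k y) := by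
      simp only [Zc, PiLp.add_apply, PiLp.smul_apply, smul_eq_mul]
      ring
    have e1 : a • pull k xi x + b • pull k xi y =
        ((a * Real.sqrt (S1 k x) + b * Real.sqrt (S1 k y),
          a * Real.sqrt (S2 k x) + b * Real.sqrt (S2 k y)), xi * Zc k (a • x + b • y)) := by
      rw [hz]
      simp [pull]
    have e2 : pull k xi (a • x + b • y) = ((Real.sqrt (S1 k (a • x + b • y)),
        Real.sqrt (S2 k (a • x + b • y))), xi * Zc k (a • x + b • y)) := rfl
    rw [e1] at hmem ⊢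
    rw [e2]
    refine APull.mono O U al hc hs hUs _ _ _ _ _ hmem ?_ ?_
    · rw [abs_of_nonneg (Real.sqrt_nonneg _), APull.sqS1, APull.sqS1, APull.sqS1]
      exact APull.norm_Pr_le _ a b ha hb x y
    · rw [abs_of_nonneg (Real.sqrt_nonneg _), APull.sqS2, APull.sqS2, APull.sqS2]
      exact APull.norm_Pr_le _ a b ha hb x y
  have hconv : Convex ℝ (pull k xi ⁻¹' O) := fun x hx y hy a b ha hb hab =>
    (key x hx y hy a b ha hb hab).1
  refine ⟨hOo.preimage hcont, hconv, ?_, ⟨0, ?_⟩, hUc.comp hcont, ?_, hconv, ?_⟩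
  · obtain ⟨M, hM⟩ := hOb.subset_closedBall (0 : (ℝ × ℝ) × ℝ)
    refine (Metric.isBounded_iff_subset_closedBall (0 : EuclideanSpace ℝ (Fin (5 * k + 1)))).2
      ⟨M + M + M / xi, fun x hx => ?_⟩
    have h := hM hx
    rw [mem_closedBall_zero_iff, Prod.norm_def, Prod.norm_def] at h
    have h1 : ‖Real.sqrt (S1 k x)‖ ≤ M :=
      (le_max_left _ _).trans ((le_max_left _ _).trans h)
    have h2 : ‖Real.sqrt (S2 k x)‖ ≤ M :=
      (le_max_right _ _).trans ((le_max_left _ _).trans h)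
    have h3 : ‖xi * Zc k x‖ ≤ M := (le_max_right _ _).trans h
    rw [Real.norm_of_nonneg (Real.sqrt_nonneg _), APull.sqS1] at h1
    rw [Real.norm_of_nonneg (Real.sqrt_nonneg _), APull.sqS2] at h2
    rw [norm_mul, Real.norm_of_nonneg hxi.le] at h3
    rw [mem_closedBall_zero_iff]
    have e := APull.decomp k x
    calc ‖x‖ = ‖APull.Pr (fun i : Fin (5 * k + 1) => (i : ℕ) < k) x +
          APull.Pr (fun i : Fin (5 * k + 1) => k ≤ (i : ℕ) ∧ (i : ℕ) < 5 * k) x
          + EuclideanSpace.single (Fin.last (5 * k)) (Zc k x)‖ := by rw [← e]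
      _ ≤ ‖APull.Pr (fun i : Fin (5 * k + 1) => (i : ℕ) < k) x‖ +
          ‖APull.Pr (fun i : Fin (5 * k + 1) => k ≤ (i : ℕ) ∧ (i : ℕ) < 5 * k) x‖ +
          ‖Zc k x‖ := by
            refine (norm_add_le _ _).trans ?_
            rw [PiLp.norm_single]
            gcongr
            exact norm_add_le _ _
      _ ≤ M + M + M / xi := by
            have : ‖Zc k x‖ ≤ M / xi := by
              rw [le_div_iff₀ hxi]; linarith
            linarith
  · show pull k xi 0 ∈ O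
    rw [APull.pull_zero]; exact h0
  · intro x hx
    exact hfr _ (hcont.frontier_preimage_subset O hx)
  · intro x hx y hy a b ha hb hab
    have h1 := hc.2 hx hy ha hb hab
    exact h1.trans (key x hx y hy a b ha hb hab).2

end Lq
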