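import Pool.Agent.Lq.StA
import Pool.Agent.Lib_helper51.Lin3.LocalGlobal

/-!
# MP_61eda3_an: the star shaped component of the positivity set (section 8)
-/

set_option autoImplicit false

open Filter Topology Set

namespace Lq

namespace AStar

abbrev E3 := (ℝ × ℝ) × ℝ

theorem d2_eq {U : E3 → ℝ} (hU : ContDiff ℝ 2 U) (x V : E3) :
    fderiv ℝ (fderiv ℝ U) x V V = d2 U x V := by
  unfold d2
  have h1 : ContDiff ℝ 1 (fderiv ℝ U) := hU.fderiv_right (by norm_num)
  have h2 : DifferentiableAt ℝ (fderiv ℝ U) x := (h1.differentiable (by norm_num)) x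
  have h3 : HasFDerivAt (fun z => fderiv ℝ U z V)
      ((ContinuousLinearMap.apply ℝ ℝ V).comp (fderiv ℝ (fderiv ℝ U) x)) x :=
    (ContinuousLinearMap.apply ℝ ℝ V).hasFDerivAt.comp x h2.hasFDerivAt
  rw [h3.fderiv]
  simp

theorem isOpen_starO {G : Set E3} {U : E3 → ℝ} (hG : IsOpen G) (hU : Continuous U) :
    IsOpen (starO G U) := by
  have hcont : Continuous (fun q : E3 × ℝ => q.2 • q.1) := by fun_prop
  set G' : Set E3 := G ∩ {Y | 0 < U Y} with hG'
  have hG'o : IsOpen G' := hG.inter (isOpen_lt continuous_const hU)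
  have hpre : IsOpen ((fun q : E3 × ℝ => q.2 • q.1) ⁻¹' G') := hG'o.preimage hcont
  rw [isOpen_iff_mem_nhds]
  intro p hp
  have hK : IsCompact (Icc (0 : ℝ) 1) := isCompact_Icc
  obtain ⟨A, B, hA, hB, hpA, hKB, hAB⟩ := generalized_tube_lemma (isCompact_singleton (x := p)) hK
    hpre (by
      rintro ⟨a, b⟩ ⟨ha, hb⟩
      have ha' : a = p := ha
      subst ha'
      exact hp b hb.1 hb.2)
  refine Filter.mem_of_superset (hA.mem_nhds (hpA rfl)) ?_
  intro q hq t ht0 ht1
  exact hAB (show (q, t) ∈ A ×ˢ B from ⟨hq, hKB ⟨ht0, ht1⟩⟩)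

theorem starO_sub {G : Set E3} {U : E3 → ℝ} {Y : E3} (h : Y ∈ starO G U) : Y ∈ G ∧ 0 < U Y := by
  have := h 1 zero_le_one le_rfl
  simpa using this

theorem starO_smul {G : Set E3} {U : E3 → ℝ} {Y : E3} (h : Y ∈ starO G U) {s : ℝ} (hs : 0 ≤ s)
    (hs1 : s ≤ 1) : s • Y ∈ starO G U := by
  intro t ht ht1
  have := h (t * s) (mul_nonneg ht hs) (by nlinarith)
  rwa [mul_smul] at this

end AStar

open AStar in
/-- LQA_STAR -/
theorem t_Star : StmtStar := by
  intro G U al hal hG h0 hU hU0 hfrG hloc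
  have hUc : Continuous U := hU.continuous
  have hopen : IsOpen (starO G U) := isOpen_starO hG hUc
  have hzero : (0 : E3) ∈ starO G U := by
    intro t _ _
    rw [smul_zero]
    exact ⟨h0, hU0⟩
  have hineq : ∀ x ∈ starO G U, ∀ h : E3,
      U x * fderiv ℝ (fderiv ℝ U) x h h ≤ (1 - al) * (fderiv ℝ U x h) ^ 2 := by
    intro x hx h
    rw [d2_eq hU]
    exact hloc x (starO_sub hx).1 (starO_sub hx).2 h
  have hpos : ∀ x ∈ starO G U, 0 < U x := fun x hx => (starO_sub hx).2
  have hstar : StarConvex ℝ (0 : E3) (starO G U) := by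
    rw [starConvex_zero_iff]
    intro x hx a ha ha1
    exact starO_smul hx ha ha1
  have hconn : IsPreconnected (starO G U) := (hstar.isPathConnected hzero).isConnected.isPreconnected
  -- values on the frontier
  have hfr : ∀ x ∈ frontier (starO G U), U x = 0 := by
    intro x hx
    rw [hopen.frontier_eq] at hx
    obtain ⟨hxcl, hxn⟩ := hx
    -- filter
    set Fl : Filter E3 := 𝓝[starO G U] x with hFl
    have hne : Fl.NeBot := mem_closure_iff_nhdsWithin_neBot.mp hxcl
    have hmem : ∀ᶠ y in Fl, y ∈ starO G U := self_mem_nhdsWithin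
    have htend : Tendsto (fun y : E3 => y) Fl (𝓝 x) := tendsto_nhdsWithin_of_tendsto_nhds tendsto_id |>.mono_right le_rfl
    have htU : ∀ t : ℝ, Tendsto (fun y : E3 => U (t • y)) Fl (𝓝 (U (t • x))) := by
      intro t
      exact ((hUc.comp (continuous_const_smul t)).tendsto x).mono_left nhdsWithin_le_nhds
    have hnonneg : ∀ t : ℝ, 0 ≤ t → t ≤ 1 → 0 ≤ U (t • x) := by
      intro t ht ht1
      refine ge_of_tendsto (htU t) ?_
      filter_upwards [hmem] with y hy
      exact (hy t ht ht1).2.le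
    have hclG : ∀ t : ℝ, 0 ≤ t → t ≤ 1 → t • x ∈ closure G := by
      intro t ht ht1
      refine mem_closure_of_tendsto
        (((continuous_const_smul t).tendsto x).mono_left nhdsWithin_le_nhds : Tendsto (fun y : E3 => t • y) Fl (𝓝 (t • x))) ?_
      filter_upwards [hmem] with y hy
      exact (hy t ht ht1).1
    -- lower bound for t < 1
    have hlow : ∀ t : ℝ, 0 ≤ t → t < 1 → 0 < U (t • x) := by
      intro t ht ht1
      have hle : (1 - t) * U 0 ^ al ≤ U (t • x) ^ al := by
        refine ge_of_tendsto ((htU t).rpow_const (Or.inr hal.le)) ?_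
        filter_upwards [hmem] with y hy
        have h1 := Pool.Agent.Lin3.rpow_segment_le hal hopen hU.contDiffOn hpos hineq
          (x := (0 : E3)) (y := y) (by
            intro s hs
            rw [sub_zero, zero_add]
            exact starO_smul hy hs.1 hs.2) (t := t) ⟨ht, ht1.le⟩
        rw [sub_zero, zero_add] at h1
        have h2 : 0 ≤ t * U y ^ al := mul_nonneg ht (Real.rpow_nonneg (hpos y hy).le _)
        linarith
      have hp : 0 < U (t • x) ^ al :=
        lt_of_lt_of_le (mul_pos (by linarith) (Real.rpow_pos_of_pos hU0 _)) hle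
      rcases (hnonneg t ht ht1.le).lt_or_eq with h | h
      · exact h
      · rw [← h, Real.zero_rpow hal.ne'] at hp
        exact absurd hp (lt_irrefl _)
    by_contra hne0
    have hUx : 0 < U x := by
      have h1 := hnonneg 1 zero_le_one le_rfl
      rw [one_smul] at h1
      exact lt_of_le_of_ne h1 (Ne.symm hne0)
    apply hxn
    intro t ht ht1
    have hpt : 0 < U (t • x) := by
      rcases ht1.lt_or_eq with h | h
      · exact hlow t ht h
      · rw [h, one_smul]; exact hUx
    refine ⟨?_, hpt⟩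
    by_contra hnG
    exact absurd (hfrG _ (hclG t ht ht1) hnG) (not_le.mpr hpt)
  have hmain := Pool.Agent.Lin3.localGlobal hal hopen hconn hU.contDiffOn hUc.continuousOn hpos hfr hineq
  exact ⟨hopen, hzero, hfr, hmain.1, hmain.2⟩

end Lq
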