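import Pool.Agent.Lq.StA

/-!
# MP_61eda3_an, LQA_ZERO: the first zero exists
-/

set_option autoImplicit false

open Filter Topology Set

namespace Lq

namespace AZero

/-- A solution of `4 s L'' + 2 k L' + L = 0` with `L 0 = 1` has a zero. -/
theorem exists_zero (k : ℝ) (L : ℝ → ℝ) (hL : ContDiff ℝ 2 L) (h0 : L 0 = 1)
    (hode : ∀ s, 4 * s * deriv (deriv L) s + 2 * k * deriv L s = -L s) :
    ∃ s, 0 ≤ s ∧ L s = 0 := by
  by_contra hno
  push Not at hno
  have hc : Continuous L := hL.continuous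
  have hpos : ∀ s, 0 ≤ s → 0 < L s := by
    intro s hs
    by_contra hle
    push Not at hle
    have h1 : (0 : ℝ) ∈ Icc (L s) (L 0) := ⟨hle, by rw [h0]; exact zero_le_one⟩
    obtain ⟨c, hc1, hc2⟩ := intermediate_value_Icc' hs hc.continuousOn h1
    exact hno c hc1.1 hc2
  have hd1 : ∀ s, HasDerivAt L (deriv L s) s := fun s =>
    (hL.differentiable (by norm_num) s).hasDerivAt
  have hL1 : ContDiff ℝ 1 (deriv L) := by
    have h := (contDiff_succ_iff_deriv (n := 1) (f := L)).mp (by
      have e : ((1 : WithTop ℕ∞) + 1) = 2 := by norm_num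
      rw [e]; exact hL)
    exact h.2.2
  have hd2 : ∀ s, HasDerivAt (deriv L) (deriv (deriv L) s) s := fun s =>
    (hL1.differentiable (by norm_num) s).hasDerivAt
  set Y : ℝ → ℝ := fun s => -(2 * s * deriv L s) / L s with hY
  have hYd : ∀ s, 0 < s → HasDerivAt Y ((Y s ^ 2 - (k - 2) * Y s + s) / (2 * s)) s := by
    intro s hs
    have hLs := hpos s hs.le
    have h1 : HasDerivAt (fun s : ℝ => 2 * s) 2 s := by
      simpa using (hasDerivAt_id s).const_mul 2
    have h2 := ((h1.mul (hd2 s)).neg.div (hd1 s) hLs.ne')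
    refine h2.congr_deriv ?_
    simp only [hY, Pi.neg_apply, Pi.mul_apply]
    have hod := hode s
    have e : deriv (deriv L) s = (-L s - 2 * k * deriv L s) / (4 * s) := by
      field_simp
      linarith
    rw [e]
    field_simp
    ring
  set s0 : ℝ := (k - 2) ^ 2 / 2 + 1 with hs0
  have hs0pos : 0 < s0 := by positivity
  have hG : ∀ s, 0 < s → HasDerivAt (fun s => Real.arctan (Y s) - 1 / 4 * Real.log s)
      (1 / (1 + Y s ^ 2) * ((Y s ^ 2 - (k - 2) * Y s + s) / (2 * s)) - 1 / 4 * s⁻¹) s := by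
    intro s hs
    exact (hYd s hs).arctan.sub ((Real.hasDerivAt_log hs.ne').const_mul _)
  set s1 : ℝ := s0 * Real.exp (4 * Real.pi) with hs1
  have h01 : s0 ≤ s1 := by
    rw [hs1]
    have : 1 ≤ Real.exp (4 * Real.pi) := Real.one_le_exp (by positivity)
    nlinarith
  have hmono : MonotoneOn (fun s => Real.arctan (Y s) - 1 / 4 * Real.log s) (Icc s0 s1) := by
    apply monotoneOn_of_deriv_nonneg (convex_Icc _ _)
    · intro s hs
      exact (hG s (hs0pos.trans_le hs.1)).continuousAt.continuousWithinAt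
    · intro s hs
      rw [interior_Icc] at hs
      exact (hG s (hs0pos.trans hs.1)).differentiableAt.differentiableWithinAt
    · intro s hs
      rw [interior_Icc] at hs
      have hsp : 0 < s := hs0pos.trans hs.1
      rw [(hG s hsp).deriv]
      have h3 : (1 + Y s ^ 2) / 2 ≤ Y s ^ 2 - (k - 2) * Y s + s := by
        have h4 : s0 < s := hs.1
        rw [hs0] at h4
        nlinarith [sq_nonneg (Y s - (k - 2))]
      have h5 : 0 < 1 + Y s ^ 2 := by positivity
      rw [sub_nonneg]
      calc 1 / 4 * s⁻¹ = 1 / (1 + Y s ^ 2) * (((1 + Y s ^ 2) / 2) / (2 * s)) := by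
            field_simp
            norm_num
        _ ≤ 1 / (1 + Y s ^ 2) * ((Y s ^ 2 - (k - 2) * Y s + s) / (2 * s)) := by
            gcongr
  have h6 := hmono (left_mem_Icc.mpr h01) (right_mem_Icc.mpr h01) h01
  simp only at h6
  have h7 : Real.log s1 = Real.log s0 + 4 * Real.pi := by
    rw [hs1, Real.log_mul hs0pos.ne' (Real.exp_pos _).ne', Real.log_exp]
  rw [h7] at h6
  have h8 := Real.arctan_lt_pi_div_two (Y s1)
  have h9 := Real.neg_pi_div_two_lt_arctan (Y s0)
  linarith

end AZero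

theorem t_Zero (hB : StmtBlk) : StmtZero := by
  intro k hk
  obtain ⟨hsm, h0, hode⟩ := hB k hk
  have hLa : La k 0 = Lk k := rfl
  have hL : ContDiff ℝ 2 (Lk k) := by
    have h := hsm 0
    rw [hLa] at h
    exact_mod_cast contDiff_infty.mp h 2
  have hode' : ∀ s, 4 * s * deriv (deriv (Lk k)) s + 2 * (k : ℝ) * deriv (Lk k) s = -Lk k s := by
    intro s
    have h := hode 0 s
    simpa [hLa] using h
  obtain ⟨s, hs, hLs⟩ := AZero.exists_zero (k : ℝ) (Lk k) hL h0 hode'
  have hF : Continuous (F k 0) := by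
    unfold F
    rw [hLa]
    exact hL.continuous.comp (continuous_pow 2)
  have hF0 : F k 0 0 = 1 := by
    unfold F
    rw [hLa]
    simpa using h0
  have hFs : F k 0 (Real.sqrt s) = 0 := by
    unfold F
    rw [hLa, Real.sq_sqrt hs]
    exact hLs
  set Z : Set ℝ := {t | 0 ≤ t ∧ F k 0 t = 0} with hZ
  have hZc : IsClosed Z := isClosed_Ici.inter (isClosed_eq hF continuous_const)
  have hZn : Z.Nonempty := ⟨Real.sqrt s, Real.sqrt_nonneg s, hFs⟩
  have hZb : BddBelow Z := ⟨0, fun t ht => ht.1⟩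
  have hR : sInf Z ∈ Z := hZc.csInf_mem hZn hZb
  refine ⟨sInf Z, ?_, hR.2, ?_⟩
  · rcases hR.1.lt_or_eq with h | h
    · exact h
    · exfalso
      have h1 := hR.2
      rw [← h, hF0] at h1
      exact one_ne_zero h1
  · intro t ht0 htR
    by_contra hle
    push Not at hle
    have h1 : (0 : ℝ) ∈ Icc (F k 0 t) (F k 0 0) := ⟨hle, by rw [hF0]; exact zero_le_one⟩
    obtain ⟨c, hc1, hc2⟩ := intermediate_value_Icc' ht0 hF.continuousOn h1
    have h2 : sInf Z ≤ c := csInf_le hZb ⟨hc1.1, hc2⟩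
    linarith [hc1.2]

end Lq
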