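import Pool.Agent.Lq.StJ

/-!
# MP_61eda3_an: formula (3.1), the blocks through `A_i`, `B_i`
-/

set_option autoImplicit false

open Filter Topology

namespace Lq

namespace JAB

/-- the derivative of `TT k` -/
theorem hasDerivAt_TT (k : ℕ) (x : ℝ) (hx : x ≠ 0) : HasDerivAt (TT k) (2 * TT k x / x) x := by
  have h : HasDerivAt (fun t : ℝ => 4 * t ^ 2 / (k : ℝ) ^ 2) (4 * (2 * x) / (k : ℝ) ^ 2) x := by
    have h1 : HasDerivAt (fun t : ℝ => t ^ 2) (2 * x) x := by
      have h0 := hasDerivAt_pow 2 x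
      simpa using h0
    exact (h1.const_mul 4).div_const _
  have h2 : (2 * TT k x / x) = 4 * (2 * x) / (k : ℝ) ^ 2 := by
    unfold TT
    field_simp
  rw [h2]
  exact h

/-- `(2/k) D1 = y^2 - 2 (1 - 2/k) y + T` -/
theorem D1_eq (k : ℕ) (x : ℝ) (hk : 1 ≤ k) :
    2 / (k : ℝ) * D1 k x = yy k x ^ 2 - 2 * (1 - 2 * (1 / (k : ℝ))) * yy k x + TT k x := by
  have hk0 : (k : ℝ) ≠ 0 := by
    have : (0 : ℝ) < k := by exact_mod_cast hk
    exact this.ne'
  unfold D1 ee yy TT
  field_simp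
  ring

theorem yyF (k : ℕ) (x : ℝ) (hf : F k 0 x ≠ 0) :
    -(2 / (k : ℝ)) * x * deriv (F k 0) x = yy k x * F k 0 x := by
  unfold yy X
  field_simp

end JAB

open JAB in
theorem t_AB : Stmt_AB := by
  intro hFS hDER hCS k i x hk
  have hk0 : (k : ℝ) ≠ 0 := by
    have : (0 : ℝ) < k := by exact_mod_cast hk
    exact this.ne'
  induction i generalizing x with
  | zero =>
    intro hx hf
    have h1 : cA 0 (1 / (k : ℝ), TT k x) = 1 := rfl
    have h2 : cB 0 (1 / (k : ℝ), TT k x) = 0 := rfl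
    rw [h1, h2]
    ring
  | succ i ih =>
    intro hx hf
    have hcont : Continuous (F k 0) := ((hFS.1 k 0 hk).1).continuous
    have hev : F k i =ᶠ[𝓝 x] fun t =>
        (cA i (1 / (k : ℝ), TT k t) + cB i (1 / (k : ℝ), TT k t) * yy k t) * F k 0 t := by
      have e1 : ∀ᶠ t in 𝓝 x, t ≠ 0 := isOpen_ne.mem_nhds hx
      have e2 : ∀ᶠ t in 𝓝 x, F k 0 t ≠ 0 :=
        (isOpen_ne.preimage hcont).mem_nhds hf
      filter_upwards [e1, e2] with t h1 h2
      exact ih t h1 h2
    have hT := hasDerivAt_TT k x hx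
    have hA := (hCS.1 (cA i) (hCS.2 i).1).2 (1 / (k : ℝ)) (TT k) (2 * TT k x / x) x hT
    have hB := (hCS.1 (cB i) (hCS.2 i).2).2 (1 / (k : ℝ)) (TT k) (2 * TT k x / x) x hT
    have hy := (hDER k x hk hx hf).2.1
    have hF : HasDerivAt (F k 0) (deriv (F k 0) x) x :=
      (((hFS.1 k 0 hk).1).differentiable (by simp)).differentiableAt.hasDerivAt
    have hprod := (hA.add (hB.mul hy)).mul hF
    have hd : deriv (F k i) x =
        (dT (cA i) (1 / (k : ℝ), TT k x) * (2 * TT k x / x) +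
          (dT (cB i) (1 / (k : ℝ), TT k x) * (2 * TT k x / x) * yy k x +
            cB i (1 / (k : ℝ), TT k x) * (D1 k x / x))) * F k 0 x +
        (cA i (1 / (k : ℝ), TT k x) + cB i (1 / (k : ℝ), TT k x) * yy k x) *
          deriv (F k 0) x := by
      rw [hev.deriv_eq]
      exact hprod.deriv
    have h1 := (hFS.1 k i hk).2 x
    have hAs : cA (i + 1) (1 / (k : ℝ), TT k x) =
        -(TT k x * cB i (1 / (k : ℝ), TT k x)) -
          4 * (1 / (k : ℝ)) * TT k x * dT (cA i) (1 / (k : ℝ), TT k x) := rfl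
    have hBs : cB (i + 1) (1 / (k : ℝ), TT k x) =
        cA i (1 / (k : ℝ), TT k x) + 2 * (1 - 2 * (1 / (k : ℝ))) * cB i (1 / (k : ℝ), TT k x) -
          4 * (1 / (k : ℝ)) * TT k x * dT (cB i) (1 / (k : ℝ), TT k x) := rfl
    have hD := D1_eq k x hk
    have hyF := yyF k x hf
    rw [h1, hd, hAs, hBs]
    generalize dT (cA i) (1 / (k : ℝ), TT k x) = a1
    generalize dT (cB i) (1 / (k : ℝ), TT k x) = b1
    generalize cA i (1 / (k : ℝ), TT k x) = a0
    generalize cB i (1 / (k : ℝ), TT k x) = b0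
    have hD' : D1 k x = (k : ℝ) / 2 *
        (yy k x ^ 2 - 2 * (1 - 2 * (1 / (k : ℝ))) * yy k x + TT k x) := by
      rw [← hD]
      field_simp
    have key : -(2 / (k : ℝ)) * x *
        ((a1 * (2 * TT k x / x) + (b1 * (2 * TT k x / x) * yy k x + b0 * (D1 k x / x))) * F k 0 x +
          (a0 + b0 * yy k x) * deriv (F k 0) x) =
        (-(4 / (k : ℝ)) * TT k x * a1 - 4 / (k : ℝ) * TT k x * b1 * yy k x -
          b0 * (2 / (k : ℝ) * D1 k x)) * F k 0 x +
          (a0 + b0 * yy k x) * (-(2 / (k : ℝ)) * x * deriv (F k 0) x) := by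
      field_simp
      ring
    rw [key, hyF, hD]
    field_simp
    ring

end Lq
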