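import Pool.Agent.Lq.StJ

set_option autoImplicit false

open Filter Topology

namespace Lq

namespace JBLK

theorem deriv_Lk (h : P_LK) (k : ℕ) (hk : 1 ≤ k) :
    deriv (Lk k) = fun s => -(Lk (k + 2) s / (2 * (k : ℝ))) := by
  funext s
  exact ((h k hk).2.1 s).deriv

theorem smooth_Lk_nat (h : P_LK) (n : ℕ) : ∀ k : ℕ, 1 ≤ k → ContDiff ℝ (n : WithTop ℕ∞) (Lk k) := by
  induction n with
  | zero =>
    intro k hk
    have hc : Continuous (Lk k) :=
      continuous_iff_continuousAt.2 fun s => ((h k hk).2.1 s).continuousAt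
    exact_mod_cast contDiff_zero.2 hc
  | succ n ih =>
    intro k hk
    have hcast : ((n + 1 : ℕ) : WithTop ℕ∞) = (n : WithTop ℕ∞) + 1 := by push_cast; rfl
    rw [hcast, contDiff_succ_iff_deriv]
    refine ⟨fun s => ((h k hk).2.1 s).differentiableAt, ?_, ?_⟩
    · intro hn
      exact absurd hn (by simp)
    · rw [deriv_Lk h k hk]
      exact ((ih (k + 2) (by omega)).div_const _).neg

theorem smooth_Lk (h : P_LK) (k : ℕ) (hk : 1 ≤ k) : ContDiff ℝ (⊤ : ℕ∞) (Lk k) := by
  rw [contDiff_infty]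
  intro n
  exact smooth_Lk_nat h n k hk

theorem smooth_deriv {g : ℝ → ℝ} (hg : ContDiff ℝ (⊤ : ℕ∞) g) : ContDiff ℝ (⊤ : ℕ∞) (deriv g) :=
  (contDiff_infty_iff_deriv.1 hg).2

theorem smooth_La (h : P_LK) (k : ℕ) (hk : 1 ≤ k) (i : ℕ) : ContDiff ℝ (⊤ : ℕ∞) (La k i) := by
  induction i with
  | zero => exact smooth_Lk h k hk
  | succ i ih =>
    have : La k (i + 1) = fun s => -(4 / (k : ℝ)) * s * deriv (La k i) s := rfl
    rw [this]
    exact (contDiff_const.mul contDiff_id).mul (smooth_deriv ih)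

theorem diffAt {g : ℝ → ℝ} (hg : ContDiff ℝ (⊤ : ℕ∞) g) (s : ℝ) : DifferentiableAt ℝ g s :=
  (hg.differentiable (by simp)) s

theorem deriv_Y {g : ℝ → ℝ} (hg : ContDiff ℝ (⊤ : ℕ∞) g) (q : ℝ) :
    deriv (fun s => q * s * g s) = fun s => q * g s + q * s * deriv g s := by
  funext s
  have h1 : HasDerivAt (fun s : ℝ => q * s) q s := by
    simpa using (hasDerivAt_id s).const_mul q
  have h2 := h1.mul (diffAt hg s).hasDerivAt
  exact h2.deriv

theorem pascal (q : ℝ) (L : ℕ → ℝ) (i : ℕ) :
    ∑ a ∈ Finset.range (i + 1), ((i.choose a : ℕ) : ℝ) * q ^ (i - a) * L (a + 1)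
      + ∑ a ∈ Finset.range (i + 1), ((i.choose a : ℕ) : ℝ) * (q ^ (i - a) * q) * L a
      = ∑ a ∈ Finset.range (i + 1 + 1), (((i + 1).choose a : ℕ) : ℝ) * q ^ (i + 1 - a) * L a := by
  rw [Finset.sum_range_succ' (fun a => (((i + 1).choose a : ℕ) : ℝ) * q ^ (i + 1 - a) * L a) (i + 1)]
  have e1 : ∑ a ∈ Finset.range (i + 1), ((i.choose a : ℕ) : ℝ) * (q ^ (i - a) * q) * L a
      = ∑ a ∈ Finset.range (i + 1), ((i.choose (a + 1) : ℕ) : ℝ) * q ^ (i - a) * L (a + 1)
        + q ^ (i + 1) * L 0 := by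
    rw [Finset.sum_range_succ' (fun a => ((i.choose a : ℕ) : ℝ) * (q ^ (i - a) * q) * L a) i]
    rw [Finset.sum_range_succ (fun a => ((i.choose (a + 1) : ℕ) : ℝ) * q ^ (i - a) * L (a + 1)) i]
    rw [Nat.choose_succ_self]
    have e2 : ∀ a ∈ Finset.range i,
        ((i.choose (a + 1) : ℕ) : ℝ) * (q ^ (i - (a + 1)) * q) * L (a + 1)
          = ((i.choose (a + 1) : ℕ) : ℝ) * q ^ (i - a) * L (a + 1) := by
      intro a ha
      have ha' : a < i := Finset.mem_range.1 ha
      have : i - a = i - (a + 1) + 1 := by omega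
      rw [this, pow_succ]
    rw [Finset.sum_congr rfl e2]
    simp [pow_succ]
  rw [e1, ← add_assoc, ← Finset.sum_add_distrib]
  have e3 : ∀ a ∈ Finset.range (i + 1),
      ((i.choose a : ℕ) : ℝ) * q ^ (i - a) * L (a + 1)
        + ((i.choose (a + 1) : ℕ) : ℝ) * q ^ (i - a) * L (a + 1)
      = (((i + 1).choose (a + 1) : ℕ) : ℝ) * q ^ (i + 1 - (a + 1)) * L (a + 1) := by
    intro a _
    rw [Nat.choose_succ_succ, Nat.add_sub_add_right]
    push_cast
    ring
  rw [Finset.sum_congr rfl e3]
  simp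

theorem ode (h : P_LK) (k : ℕ) (hk : 1 ≤ k) (i : ℕ) : ∀ s : ℝ,
    4 * s * deriv (deriv (La k i)) s + 2 * (k : ℝ) * deriv (La k i) s =
    -∑ a ∈ Finset.range (i + 1), ((i.choose a : ℕ) : ℝ) * (-(4 / (k : ℝ))) ^ (i - a) * La k a s := by
  induction i with
  | zero =>
    intro s
    have hk0 : (k : ℝ) ≠ 0 := by positivity
    have hk2 : (k : ℝ) + 2 ≠ 0 := by positivity
    have e1 : deriv (La k 0) = fun s => -(Lk (k + 2) s / (2 * (k : ℝ))) := deriv_Lk h k hk
    have e2 : deriv (deriv (La k 0)) s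
        = -(-(Lk (k + 2 + 2) s / (2 * ((k + 2 : ℕ) : ℝ))) / (2 * (k : ℝ))) := by
      rw [e1]
      have := ((h (k + 2) (by omega)).2.1 s)
      exact ((this.div_const (2 * (k : ℝ))).neg).deriv
    have e3 := (h k hk).2.2 s
    rw [e2, e1]
    have e4 : Lk (k + 2 + 2) s = Lk (k + 4) s := rfl
    have e5 : La k 0 s = Lk k s := rfl
    simp only [zero_add, Finset.range_one, Finset.sum_singleton, Nat.choose_self, Nat.cast_one,
      Nat.sub_self, pow_zero, one_mul, e4, e5]
    push_cast
    field_simp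
    linear_combination e3 * 4
  | succ i ih =>
    intro s
    have hg := smooth_La h k hk i
    have hg1 := smooth_deriv hg
    have hg2 := smooth_deriv hg1
    set q : ℝ := -(4 / (k : ℝ)) with hq
    have e0 : La k (i + 1) = fun s => q * s * deriv (La k i) s := rfl
    have e1 : deriv (La k (i + 1)) = fun s => q * deriv (La k i) s
        + q * s * deriv (deriv (La k i)) s := by
      rw [e0]; exact deriv_Y hg1 q
    have e2 : deriv (deriv (La k (i + 1))) s = q * deriv (deriv (La k i)) s
        + (q * deriv (deriv (La k i)) s + q * s * deriv (deriv (deriv (La k i))) s) := by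
      rw [e1]
      have a1 : HasDerivAt (fun s => q * deriv (La k i) s) (q * deriv (deriv (La k i)) s) s :=
        (diffAt hg1 s).hasDerivAt.const_mul q
      have a2 : HasDerivAt (fun s => q * s * deriv (deriv (La k i)) s)
          (q * deriv (deriv (La k i)) s + q * s * deriv (deriv (deriv (La k i))) s) s := by
        have h1 : HasDerivAt (fun s : ℝ => q * s) q s := by
          simpa using (hasDerivAt_id s).const_mul q
        exact h1.mul (diffAt hg2 s).hasDerivAt
      exact (a1.add a2).deriv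
    -- derivative of D g
    have e3 : 4 * deriv (deriv (La k i)) s + 4 * s * deriv (deriv (deriv (La k i))) s
        + 2 * (k : ℝ) * deriv (deriv (La k i)) s =
        -∑ a ∈ Finset.range (i + 1), ((i.choose a : ℕ) : ℝ) * q ^ (i - a) * deriv (La k a) s := by
      have b1 : HasDerivAt (fun s => 4 * s * deriv (deriv (La k i)) s
          + 2 * (k : ℝ) * deriv (La k i) s)
          (4 * deriv (deriv (La k i)) s + 4 * s * deriv (deriv (deriv (La k i))) s
            + 2 * (k : ℝ) * deriv (deriv (La k i)) s) s := by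
        have h1 : HasDerivAt (fun s : ℝ => 4 * s) 4 s := by
          simpa using (hasDerivAt_id s).const_mul 4
        exact (h1.mul (diffAt hg2 s).hasDerivAt).add ((diffAt hg1 s).hasDerivAt.const_mul _)
      have b2 : HasDerivAt (fun s => -∑ a ∈ Finset.range (i + 1),
          ((i.choose a : ℕ) : ℝ) * q ^ (i - a) * La k a s)
          (-∑ a ∈ Finset.range (i + 1),
            ((i.choose a : ℕ) : ℝ) * q ^ (i - a) * deriv (La k a) s) s := by
        apply HasDerivAt.neg
        apply HasDerivAt.fun_sum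
        intro a _
        exact (diffAt (smooth_La h k hk a) s).hasDerivAt.const_mul _
      have b3 : (fun s => 4 * s * deriv (deriv (La k i)) s
          + 2 * (k : ℝ) * deriv (La k i) s) = (fun s => -∑ a ∈ Finset.range (i + 1),
          ((i.choose a : ℕ) : ℝ) * q ^ (i - a) * La k a s) := funext ih
      rw [b3] at b1
      exact b1.unique b2
    have e4 := ih s
    have e5 : 4 * s * deriv (deriv (La k (i + 1))) s + 2 * (k : ℝ) * deriv (La k (i + 1)) s
        = q * s * (4 * deriv (deriv (La k i)) s + 4 * s * deriv (deriv (deriv (La k i))) s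
        + 2 * (k : ℝ) * deriv (deriv (La k i)) s)
        + q * (4 * s * deriv (deriv (La k i)) s + 2 * (k : ℝ) * deriv (La k i) s) := by
      rw [e2, e1]; ring
    rw [e5, e3, e4, ← pascal q (fun a => La k a s) i]
    have e6 : q * s * -∑ a ∈ Finset.range (i + 1),
          ((i.choose a : ℕ) : ℝ) * q ^ (i - a) * deriv (La k a) s
        = -∑ a ∈ Finset.range (i + 1), ((i.choose a : ℕ) : ℝ) * q ^ (i - a) * La k (a + 1) s := by
      rw [mul_neg, Finset.mul_sum]
      congr 1
      apply Finset.sum_congr rfl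
      intro a _
      have : La k (a + 1) s = q * s * deriv (La k a) s := rfl
      rw [this]; ring
    have e7 : q * -∑ a ∈ Finset.range (i + 1), ((i.choose a : ℕ) : ℝ) * q ^ (i - a) * La k a s
        = -∑ a ∈ Finset.range (i + 1), ((i.choose a : ℕ) : ℝ) * (q ^ (i - a) * q) * La k a s := by
      rw [mul_neg, Finset.mul_sum]
      congr 1
      apply Finset.sum_congr rfl
      intro a _
      ring
    rw [e6, e7, neg_add]

end JBLK

theorem t_BLK : Stmt_BLK := by
  intro h k hk
  exact ⟨fun i => JBLK.smooth_La h k hk i, (h k hk).1, fun i s => JBLK.ode h k hk i s⟩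

end Lq
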