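import Pool.Agent.Lq.StJ

/-!
# MP_61eda3_an: module LQJ_CI (identities for `A_i`, `B_i` at `1/k = 0`)
-/

set_option autoImplicit false

open Filter Topology

namespace Lq

namespace JCI

theorem cA_succ (i : ℕ) (T : ℝ) : cA (i + 1) (0, T) = -(T * cB i (0, T)) := by
  simp only [cA, cB, AB]
  ring

theorem cB_succ (i : ℕ) (T : ℝ) : cB (i + 1) (0, T) = cA i (0, T) + 2 * cB i (0, T) := by
  simp only [cA, cB, AB]
  ring

theorem cA_zero (p : ℝ × ℝ) : cA 0 p = 1 := rfl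

theorem cB_zero (p : ℝ × ℝ) : cB 0 p = 0 := rfl

theorem first (i : ℕ) (a : ℝ) :
    cA i (0, 2 * a - a ^ 2) + cB i (0, 2 * a - a ^ 2) * a = a ^ i := by
  induction i with
  | zero => simp [cA_zero, cB_zero]
  | succ i ih =>
    rw [cA_succ, cB_succ]
    have e : a ^ (i + 1) = a ^ i * a := pow_succ a i
    rw [e, ← ih]
    ring

theorem hT (a : ℝ) : HasDerivAt (fun s : ℝ => 2 * s - s ^ 2) (2 - 2 * a) a := by
  have h1 : HasDerivAt (fun s : ℝ => 2 * s) (2 * 1) a := (hasDerivAt_id a).const_mul 2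
  have h2 : HasDerivAt (fun s : ℝ => s ^ 2) (2 * a) a := by
    simpa using hasDerivAt_pow 2 a
  have h3 := h1.sub h2
  have e : (2 * 1 - 2 * a : ℝ) = 2 - 2 * a := by ring
  rw [e] at h3
  exact h3

theorem second (h : P_CS) (i : ℕ) (a : ℝ) :
    cB i (0, 2 * a - a ^ 2) + 2 * (1 - a) *
      (dT (cA i) (0, 2 * a - a ^ 2) + dT (cB i) (0, 2 * a - a ^ 2) * a)
      = (i : ℝ) * a ^ (i - 1) := by
  have hA := (h.1 (cA i) (h.2 i).1).2 0 (fun s => 2 * s - s ^ 2) (2 - 2 * a) a (hT a)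
  have hB := (h.1 (cB i) (h.2 i).2).2 0 (fun s => 2 * s - s ^ 2) (2 - 2 * a) a (hT a)
  have hl := hA.add (hB.mul (hasDerivAt_id a))
  have hr : HasDerivAt (fun s : ℝ => s ^ i) ((i : ℝ) * a ^ (i - 1)) a := hasDerivAt_pow i a
  have hl' : HasDerivAt (fun s : ℝ => s ^ i)
      (dT (cA i) (0, 2 * a - a ^ 2) * (2 - 2 * a) +
        (dT (cB i) (0, 2 * a - a ^ 2) * (2 - 2 * a) * id a
          + cB i (0, 2 * a - a ^ 2) * 1)) a := by
    refine hl.congr_of_eventuallyEq (Filter.Eventually.of_forall fun s => ?_)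
    exact (first i s).symm
  have := hl'.unique hr
  simp only [id] at this
  rw [← this]
  ring

theorem third (h : P_CS) (i : ℕ) (a : ℝ) :
    4 * (1 - a) ^ 2 *
      (dT (dT (cA i)) (0, 2 * a - a ^ 2) + dT (dT (cB i)) (0, 2 * a - a ^ 2) * a) +
      4 * (1 - a) * dT (cB i) (0, 2 * a - a ^ 2) =
      (i : ℝ) * ((i : ℝ) - 1) * a ^ (i - 2) +
        2 * (dT (cA i) (0, 2 * a - a ^ 2) + dT (cB i) (0, 2 * a - a ^ 2) * a) := by
  have sA := (h.1 (cA i) (h.2 i).1).1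
  have sB := (h.1 (cB i) (h.2 i).2).1
  have hB := (h.1 (cB i) (h.2 i).2).2 0 (fun s => 2 * s - s ^ 2) (2 - 2 * a) a (hT a)
  have hdA := (h.1 (dT (cA i)) sA).2 0 (fun s => 2 * s - s ^ 2) (2 - 2 * a) a (hT a)
  have hdB := (h.1 (dT (cB i)) sB).2 0 (fun s => 2 * s - s ^ 2) (2 - 2 * a) a (hT a)
  have hlin : HasDerivAt (fun s : ℝ => 2 * (1 - s)) (2 * (0 - 1)) a :=
    ((hasDerivAt_const a (1 : ℝ)).sub (hasDerivAt_id a)).const_mul 2
  have hl := hB.add (hlin.mul (hdA.add (hdB.mul (hasDerivAt_id a))))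
  have hr : HasDerivAt (fun s : ℝ => (i : ℝ) * s ^ (i - 1))
      ((i : ℝ) * (((i - 1 : ℕ) : ℝ) * a ^ (i - 1 - 1))) a :=
    (hasDerivAt_pow (i - 1) a).const_mul (i : ℝ)
  have hr' := hr.congr_of_eventuallyEq (f₁ := fun s : ℝ => cB i (0, 2 * s - s ^ 2) +
      2 * (1 - s) * (dT (cA i) (0, 2 * s - s ^ 2) + dT (cB i) (0, 2 * s - s ^ 2) * s))
    (Filter.Eventually.of_forall fun s => second h i s)
  have key := hl.unique hr'
  simp only [id, Pi.add_apply, Pi.mul_apply] at key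
  have hi : (i : ℝ) * (((i - 1 : ℕ) : ℝ) * a ^ (i - 1 - 1))
      = (i : ℝ) * ((i : ℝ) - 1) * a ^ (i - 2) := by
    cases i with
    | zero => simp
    | succ n =>
      have e1 : n + 1 - 1 = n := rfl
      have e2 : n + 1 - 1 - 1 = n + 1 - 2 := rfl
      rw [e2, e1]
      push_cast
      ring
  rw [hi] at key
  linear_combination key

theorem at_one (i : ℕ) : cA i (0, 1) = 1 - (i : ℝ) ∧ cB i (0, 1) = (i : ℝ) := by
  induction i with
  | zero => simp [cA_zero, cB_zero]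
  | succ i ih =>
    obtain ⟨h1, h2⟩ := ih
    rw [cA_succ, cB_succ, h1, h2]
    constructor
    · push_cast; ring
    · push_cast; ring

end JCI

/-- module LQJ_CI -/
theorem t_CI : Stmt_CI := fun h =>
  ⟨fun i a => ⟨JCI.first i a, JCI.second h i a, JCI.third h i a⟩, JCI.at_one⟩

end Lq
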