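import Pool.Agent.Lq.StJ

/-!
# MP_61eda3_an, module LQJ_CS: smoothness of the polynomials `A_i`, `B_i`
-/

set_option autoImplicit false

open Filter Topology

namespace Lq

namespace JCS

theorem dT_smooth (g : ℝ × ℝ → ℝ) (hg : ContDiff ℝ (⊤ : ℕ∞) g) :
    ContDiff ℝ (⊤ : ℕ∞) (dT g) := by
  have h1 : ContDiff ℝ (⊤ : ℕ∞) (fderiv ℝ g) :=
    hg.fderiv_right (m := ((⊤ : ℕ∞) : WithTop ℕ∞)) (by norm_cast)
  exact h1.clm_apply contDiff_const

theorem dT_curve (g : ℝ × ℝ → ℝ) (hg : ContDiff ℝ (⊤ : ℕ∞) g) (e : ℝ) (T : ℝ → ℝ) (T' t : ℝ)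
    (hT : HasDerivAt T T' t) :
    HasDerivAt (fun s => g (e, T s)) (dT g (e, T t) * T') t := by
  have hd : DifferentiableAt ℝ g (e, T t) :=
    (hg.differentiable (by simp)) (e, T t)
  have h1 : HasFDerivAt g (fderiv ℝ g (e, T t)) (e, T t) := hd.hasFDerivAt
  have h2 : HasDerivAt (fun s => (e, T s)) ((0 : ℝ), T') t :=
    (hasDerivAt_const t e).prodMk hT
  have h3 := h1.comp_hasDerivAt t h2
  have h4 : ((0 : ℝ), T') = T' • ((0 : ℝ), (1 : ℝ)) := by
    ext <;> simp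
  have h5 : (fderiv ℝ g (e, T t)) ((0 : ℝ), T') = dT g (e, T t) * T' := by
    rw [h4, map_smul]
    simp only [dT, smul_eq_mul]
    ring
  rw [h5] at h3
  exact h3

theorem smooth_AB (i : ℕ) : ContDiff ℝ (⊤ : ℕ∞) (AB i).1 ∧ ContDiff ℝ (⊤ : ℕ∞) (AB i).2 := by
  induction i with
  | zero =>
    simp only [AB]
    exact ⟨contDiff_const, contDiff_const⟩
  | succ i ih =>
    obtain ⟨hA, hB⟩ := ih
    have hdA := dT_smooth _ hA
    have hdB := dT_smooth _ hB
    simp only [AB]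
    refine ⟨?_, ?_⟩
    · exact ((contDiff_snd.mul hB).neg).sub (((contDiff_const.mul contDiff_fst).mul contDiff_snd).mul hdA)
    · exact (hA.add ((contDiff_const.mul (contDiff_const.sub (contDiff_const.mul contDiff_fst))).mul hB)).sub
        (((contDiff_const.mul contDiff_fst).mul contDiff_snd).mul hdB)

end JCS

theorem t_CS : Stmt_CS := by
  refine ⟨fun g hg => ⟨JCS.dT_smooth g hg, fun e T T' t hT => JCS.dT_curve g hg e T T' t hT⟩,
    fun i => JCS.smooth_AB i⟩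

end Lq
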