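import Pool.Agent.Lq.StJ

set_option autoImplicit false

open Filter Topology

namespace Lq

namespace JDEG

theorem sum1 {d : ℕ} {c : ℕ → ℕ → ℝ} {m a b : ℕ} (q : ℝ) (hm : m + 1 ≤ d) (hc : Deg (m + 1) c)
    (hab : m < a + b) :
    ∑ i ∈ Finset.range (d + 1), c i b * ((i.choose a : ℕ) : ℝ) * q ^ (i - a) = c a b := by
  by_cases had : a ≤ d
  · rw [Finset.sum_eq_single a]
    · simp
    · intro i _ hi
      rcases lt_or_gt_of_ne hi with h | h
      · rw [Nat.choose_eq_zero_of_lt h]; simp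
      · rw [hc i b (by omega)]; simp
    · intro h
      exact absurd (Finset.mem_range.mpr (by omega)) h
  · have h0 : c a b = 0 := hc a b (by omega)
    rw [h0]
    refine Finset.sum_eq_zero (fun i hi => ?_)
    rw [Finset.mem_range] at hi
    rw [Nat.choose_eq_zero_of_lt (by omega)]; simp

theorem sum2 {d : ℕ} {c : ℕ → ℕ → ℝ} {m a b : ℕ} (q : ℝ) (hm : m + 1 ≤ d) (hc : Deg (m + 1) c)
    (hab : m < a + b) :
    ∑ j ∈ Finset.range (d + 1), c a j * ((j.choose b : ℕ) : ℝ) * q ^ (j - b) = c a b := by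
  have h := sum1 (c := fun i j => c j i) (a := b) (b := a) q hm
    (fun i j hij => hc j i (by omega)) (by omega)
  exact h

theorem deg_one (k d m : ℕ) (c : ℕ → ℕ → ℝ) (hm : m + 1 ≤ d) (hc : Deg (m + 1) c) :
    Deg m (Dop k d c) := by
  intro a b hab
  unfold Dop
  rw [sum1 _ hm hc hab, sum2 _ hm hc hab]
  ring

theorem sum0 {d : ℕ} {c : ℕ → ℕ → ℝ} {a b : ℕ} (q : ℝ) (hc : Deg 0 c) :
    ∑ i ∈ Finset.range (d + 1), c i b * ((i.choose a : ℕ) : ℝ) * q ^ (i - a) = c a b := by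
  rw [Finset.sum_eq_single 0]
  · rcases Nat.eq_zero_or_pos a with h | h
    · subst h; simp
    · rw [Nat.choose_eq_zero_of_lt h, hc a b (by omega)]; simp
  · intro i _ hi
    rw [hc i b (by omega)]; simp
  · intro h
    exact absurd (Finset.mem_range.mpr (by omega)) h

theorem deg_zero (k d : ℕ) (c : ℕ → ℕ → ℝ) (hc : Deg 0 c) (a b : ℕ) : Dop k d c a b = 0 := by
  unfold Dop
  have h2 := sum0 (c := fun i j => c j i) (d := d) (a := b) (b := a) (-(1 / (k : ℝ)))
    (fun i j hij => hc j i (by omega))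
  rw [sum0 _ hc, h2]
  ring

theorem degS (k d m : ℕ) (c : ℕ → ℕ → ℝ) :
    (m + 1 ≤ d → Deg (m + 1) c → Deg m (Dop k d c)) ∧ (Deg 0 c → ∀ a b, Dop k d c a b = 0) :=
  ⟨deg_one k d m c, deg_zero k d c⟩

theorem iter_deg {k d : ℕ} {c : ℕ → ℕ → ℝ} (hc : Deg d c) :
    ∀ j : ℕ, j ≤ d → Deg (d - j) ((Dop k d)^[j] c) := by
  intro j
  induction j with
  | zero => intro _; simpa using hc
  | succ j ih =>
    intro hj
    rw [Function.iterate_succ_apply']
    have h1 := ih (by omega)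
    have e : d - j = (d - (j + 1)) + 1 := by omega
    rw [e] at h1
    exact deg_one k d (d - (j + 1)) _ (by omega) h1

theorem zero_deg (k d : ℕ) : Dop k d (fun _ _ => (0 : ℝ)) = fun _ _ => 0 := by
  funext a b
  exact deg_zero k d (fun _ _ => (0 : ℝ)) (fun _ _ _ => rfl) a b

theorem degA (k d : ℕ) (c : ℕ → ℕ → ℝ) (hc : Deg d c) (j : ℕ) (hj : d < j) :
    (Dop k d)^[j] c = fun _ _ => 0 := by
  obtain ⟨m, rfl⟩ : ∃ m, j = (d + 1) + m := ⟨j - (d + 1), by omega⟩
  clear hj
  induction m with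
  | zero =>
    rw [Nat.add_zero, Function.iterate_succ_apply']
    have h1 := iter_deg (k := k) hc d le_rfl
    rw [Nat.sub_self] at h1
    funext a b
    exact deg_zero k d _ h1 a b
  | succ m ih =>
    have e : d + 1 + (m + 1) = (d + 1 + m) + 1 := by ring
    rw [e, Function.iterate_succ_apply', ih]
    exact zero_deg k d

end JDEG

open JDEG in
theorem t_DEG : Stmt_DEG := by
  refine ⟨?_, ?_⟩
  · intro k d m c
    exact degS k d m c
  · intro k d c hc j hj
    exact degA k d c hc j hj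

end Lq
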