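import Pool.Agent.Lq.StJ

/-!
# MP_61eda3_an, module LQJ_DER
-/

set_option autoImplicit false

open Filter Topology

namespace Lq

namespace JDER

/-- the derivative of `X` -/
theorem dX (hFS : P_FS) (k : ℕ) (x : ℝ) (hk : 1 ≤ k) (hx : x ≠ 0) (hf : F k 0 x ≠ 0) :
    HasDerivAt (X k) ((X k x + ee k x) / x) x := by
  obtain ⟨h1, h2, -⟩ := hFS
  have hsm : ContDiff ℝ (⊤ : ℕ∞) (F k 0) := (h1 k 0 hk).1
  have hode := (h2 k hk).2 x
  have hd0 : HasDerivAt (F k 0) (deriv (F k 0) x) x :=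
    (hsm.differentiable (by simp)).differentiableAt.hasDerivAt
  have hsm' : ContDiff ℝ (1 + 1) (F k 0) := by
    have h := contDiff_infty.1 hsm 2
    have e : ((2 : ℕ) : WithTop ℕ∞) = 1 + 1 := by norm_num
    rw [e] at h
    exact h
  have hsm1 : ContDiff ℝ 1 (deriv (F k 0)) := (contDiff_succ_iff_deriv.1 hsm').2.2
  have hd1 : HasDerivAt (deriv (F k 0)) (deriv (deriv (F k 0)) x) x :=
    (hsm1.differentiable (by norm_num)).differentiableAt.hasDerivAt
  have hX : HasDerivAt (fun t => -(t * deriv (F k 0) t / F k 0 t))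
      (-(((1 * deriv (F k 0) x + x * deriv (deriv (F k 0)) x) * F k 0 x
        - (x * deriv (F k 0) x) * deriv (F k 0) x) / (F k 0 x) ^ 2)) x :=
    (((hasDerivAt_id' x).mul hd1).div hd0 hf).neg
  have hXe : X k = fun t => -(t * deriv (F k 0) t / F k 0 t) := rfl
  rw [hXe]
  refine hX.congr_deriv ?_
  have he : x * deriv (deriv (F k 0)) x =
      -(((k : ℝ) - 1) * deriv (F k 0) x + x * F k 0 x) := by linarith
  rw [he]
  unfold ee X
  field_simp
  ring

end JDER

/-- DER -/
theorem t_DER : Stmt_DER := by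
  intro hFS k x hk hx hf
  have hX := JDER.dX hFS k x hk hx hf
  have hk0 : (k : ℝ) ≠ 0 := by
    have : (0 : ℝ) < k := by exact_mod_cast hk
    exact this.ne'
  have hy : HasDerivAt (yy k) (D1 k x / x) x := by
    have h := (hX.const_mul (2 : ℝ)).div_const (k : ℝ)
    have e : yy k = fun t => 2 * X k t / (k : ℝ) := rfl
    rw [e]
    refine h.congr_deriv ?_
    unfold D1
    field_simp
  have he : HasDerivAt (ee k) ((k : ℝ) / 2 * D2 k x / x) x := by
    have h := ((hX.pow 2).sub (hX.const_mul ((k : ℝ) - 1))).add ((hasDerivAt_id' x).pow 2)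
    have e : ee k = fun t => X k t ^ 2 - ((k : ℝ) - 1) * X k t + t ^ 2 := rfl
    rw [e]
    refine h.congr_deriv ?_
    unfold D2 ee
    field_simp
    ring
  refine ⟨hX, hy, he, ?_⟩
  have h := (hX.add he).const_mul (2 / (k : ℝ))
  have e : D1 k = fun t => 2 / (k : ℝ) * (X k t + ee k t) := rfl
  rw [e]
  refine h.congr_deriv ?_
  show 2 / (k : ℝ) * ((X k x + ee k x) / x + (k : ℝ) / 2 * D2 k x / x) =
    (2 / (k : ℝ) * (X k x + ee k x) + D2 k x) / x
  field_simp

end Lq
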