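import Pool.Agent.Lq.StJ

/-!
# MP_61eda3_an: FS, the block functions as functions of `x`
-/

set_option autoImplicit false

open Filter Topology

namespace Lq

namespace JFS

/-- derivative of `F k i` -/
lemma deriv_F (hB : P_BLK) (k i : ℕ) (hk : 1 ≤ k) (x : ℝ) :
    HasDerivAt (F k i) (deriv (La k i) (x ^ 2) * (2 * x)) x := by
  have hs := (hB k hk).1 i
  have hd : Differentiable ℝ (La k i) := hs.differentiable (by simp)
  have h1 : HasDerivAt (fun t : ℝ => t ^ 2) (2 * x) x := by
    have := hasDerivAt_pow 2 x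
    simpa using this
  exact (hd (x ^ 2)).hasDerivAt.comp x h1

lemma deriv_F_eq (hB : P_BLK) (k i : ℕ) (hk : 1 ≤ k) :
    deriv (F k i) = fun x => deriv (La k i) (x ^ 2) * (2 * x) := by
  funext x
  exact (deriv_F hB k i hk x).deriv

end JFS

theorem t_FS : Stmt_FS := by
  intro hB
  refine ⟨?_, ?_, ?_⟩
  · intro k i hk
    refine ⟨?_, ?_⟩
    · have hs := (hB k hk).1 i
      exact hs.comp (contDiff_id.pow 2)
    · intro x
      rw [(JFS.deriv_F hB k i hk x).deriv]
      show -(4 / (k : ℝ)) * x ^ 2 * deriv (La k i) (x ^ 2) = _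
      ring
  · intro k hk
    refine ⟨?_, ?_⟩
    · show Lk k ((0 : ℝ) ^ 2) = 1
      have h : (0 : ℝ) ^ 2 = 0 := by norm_num
      rw [h]
      exact (hB k hk).2.1
    · intro x
      have hs := (hB k hk).1 0
      have hode := (hB k hk).2.2 0 (x ^ 2)
      simp only [zero_add, Finset.sum_range_one, Nat.choose_self, Nat.cast_one, Nat.sub_self,
        pow_zero, one_mul] at hode
      have hs2 : ContDiff ℝ (⊤ : ℕ∞) (deriv (La k 0)) := by
        have := hs
        have h3 : ContDiff ℝ ((⊤ : ℕ∞) + 1) (La k 0) := by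
          simpa using this
        exact ((contDiff_succ_iff_deriv (n := ((⊤ : ℕ∞) : WithTop ℕ∞))).1 (by simpa using h3)).2.2
      have hd2 : Differentiable ℝ (deriv (La k 0)) := hs2.differentiable (by simp)
      have h1 : HasDerivAt (fun t : ℝ => t ^ 2) (2 * x) x := by
        have := hasDerivAt_pow 2 x
        simpa using this
      have h2 : HasDerivAt (fun t : ℝ => deriv (La k 0) (t ^ 2) * (2 * t))
          (deriv (deriv (La k 0)) (x ^ 2) * (2 * x) * (2 * x) + deriv (La k 0) (x ^ 2) * 2) x := by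
        have h4 : HasDerivAt (fun t : ℝ => deriv (La k 0) (t ^ 2))
            (deriv (deriv (La k 0)) (x ^ 2) * (2 * x)) x :=
          HasDerivAt.comp (h₂ := deriv (La k 0)) x (hd2 (x ^ 2)).hasDerivAt h1
        have h5 : HasDerivAt (fun t : ℝ => 2 * t) 2 x := by
          have := (hasDerivAt_id x).const_mul (2 : ℝ)
          simpa using this
        exact h4.mul h5
      rw [JFS.deriv_F_eq hB k 0 hk, h2.deriv]
      have hF : F k 0 x = La k 0 (x ^ 2) := rfl
      rw [hF]
      have key : 4 * x ^ 2 * deriv (deriv (La k 0)) (x ^ 2) + 2 * (k : ℝ) * deriv (La k 0) (x ^ 2)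
          + La k 0 (x ^ 2) = 0 := by linarith
      linear_combination x * key
  · intro k i hk
    exact (hB k hk).1 i

end Lq
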