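import Pool.Agent.Lq.StJ

set_option autoImplicit false

open Filter Topology

namespace Lq

namespace JJF

theorem tt_der (k : ℕ) (t : ℝ) (ht : t ≠ 0) : HasDerivAt (TT k) (2 * TT k t / t) t := by
  have h : HasDerivAt (fun x : ℝ => 4 * x ^ 2 / (k : ℝ) ^ 2)
      (4 * ((2 : ℕ) * t ^ (2 - 1)) / (k : ℝ) ^ 2) t :=
    ((hasDerivAt_pow 2 t).const_mul 4).div_const _
  refine HasDerivAt.congr_deriv h ?_
  unfold TT
  field_simp
  norm_num

/-- the numerator of the first derivative -/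
noncomputable def RR (k i : ℕ) (t : ℝ) : ℝ :=
  2 * TT k t * (dT (cA i) (1 / (k : ℝ), TT k t) + dT (cB i) (1 / (k : ℝ), TT k t) * yy k t)
    + cB i (1 / (k : ℝ), TT k t) * D1 k t

end JJF

open JJF in
theorem t_JF : Stmt_JF := by
  intro hFS hDER hCS hAB k i x hk hx hF hD1 hD2
  obtain ⟨hS, hC⟩ := hCS
  obtain ⟨hAs, hBs⟩ := hC i
  have hdA := (hS _ hAs).1
  have hdB := (hS _ hBs).1
  have hop : ∀ᶠ t in 𝓝 x, t ≠ 0 ∧ F k 0 t ≠ 0 := by
    have h1 : ∀ᶠ t in 𝓝 x, t ≠ 0 := isOpen_ne.eventually_mem hx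
    have h2 : ContinuousAt (F k 0) x := (hFS.1 k 0 hk).1.continuous.continuousAt
    exact h1.and (h2.eventually_ne hF)
  have hq : ∀ t, t ≠ 0 → F k 0 t ≠ 0 → F k i t / F k 0 t =
      cA i (1 / (k : ℝ), TT k t) + cB i (1 / (k : ℝ), TT k t) * yy k t := by
    intro t ht hFt
    rw [hAB k i t hk ht hFt, mul_div_assoc, div_self hFt, mul_one]
  have hg : ∀ (g : ℝ × ℝ → ℝ), ContDiff ℝ (⊤ : ℕ∞) g → ∀ t, t ≠ 0 →
      HasDerivAt (fun s => g (1 / (k : ℝ), TT k s))
        (dT g (1 / (k : ℝ), TT k t) * (2 * TT k t / t)) t :=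
    fun g hg t ht => (hS g hg).2 (1 / (k : ℝ)) (TT k) _ t (tt_der k t ht)
  have hqd : ∀ t, t ≠ 0 → F k 0 t ≠ 0 →
      HasDerivAt (fun s => cA i (1 / (k : ℝ), TT k s) + cB i (1 / (k : ℝ), TT k s) * yy k s)
        (RR k i t / t) t := by
    intro t ht hFt
    refine HasDerivAt.congr_deriv
      ((hg _ hAs t ht).add ((hg _ hBs t ht).mul (hDER k t hk ht hFt).2.1)) ?_
    unfold RR
    field_simp
    ring
  have hd1 : ∀ᶠ t in 𝓝 x, deriv (fun s => F k i s / F k 0 s) t = RR k i t / t := by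
    filter_upwards [hop.eventually_nhds] with t ht
    have h1 : (fun s => F k i s / F k 0 s) =ᶠ[𝓝 t]
        fun s => cA i (1 / (k : ℝ), TT k s) + cB i (1 / (k : ℝ), TT k s) * yy k s := by
      filter_upwards [ht] with s hs
      exact hq s hs.1 hs.2
    rw [h1.deriv_eq]
    have h2 := ht.self_of_nhds
    exact (hqd t h2.1 h2.2).deriv
  have hRd : HasDerivAt (RR k i)
      ((2 * (2 * TT k x / x)) * (dT (cA i) (1 / (k : ℝ), TT k x)
          + dT (cB i) (1 / (k : ℝ), TT k x) * yy k x)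
        + 2 * TT k x * (dT (dT (cA i)) (1 / (k : ℝ), TT k x) * (2 * TT k x / x)
          + (dT (dT (cB i)) (1 / (k : ℝ), TT k x) * (2 * TT k x / x) * yy k x
            + dT (cB i) (1 / (k : ℝ), TT k x) * (D1 k x / x)))
        + (dT (cB i) (1 / (k : ℝ), TT k x) * (2 * TT k x / x) * D1 k x
          + cB i (1 / (k : ℝ), TT k x) * ((D1 k x + D2 k x) / x))) x :=
    (((tt_der k x hx).const_mul 2).mul
      ((hg _ hdA x hx).add ((hg _ hdB x hx).mul (hDER k x hk hx hF).2.1))).add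
      ((hg _ hBs x hx).mul (hDER k x hk hx hF).2.2.2)
  have hd2 : deriv (deriv (fun s => F k i s / F k 0 s)) x =
      (2 * TT k x * (dT (cA i) (1 / (k : ℝ), TT k x)
          + dT (cB i) (1 / (k : ℝ), TT k x) * yy k x)
        + 4 * TT k x ^ 2 * (dT (dT (cA i)) (1 / (k : ℝ), TT k x)
          + dT (dT (cB i)) (1 / (k : ℝ), TT k x) * yy k x)
        + 4 * TT k x * dT (cB i) (1 / (k : ℝ), TT k x) * D1 k x
        + cB i (1 / (k : ℝ), TT k x) * D2 k x) / x ^ 2 := by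
    have h1 : deriv (fun s => F k i s / F k 0 s) =ᶠ[𝓝 x] fun t => RR k i t / t := hd1
    rw [h1.deriv_eq]
    have h2 := (hRd.div (hasDerivAt_id x) hx).deriv
    refine Eq.trans h2 ?_
    simp only [id]
    unfold RR
    field_simp
    ring
  refine ⟨hq x hx hF, ?_, ?_⟩
  · unfold j1
    rw [hd1.self_of_nhds]
    unfold RR
    field_simp
    ring
  · unfold j2
    rw [hd2]
    field_simp
    ring

end Lq
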