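import Pool.Agent.Lq.StJ

/-!
# LQJ_KJ: the limits of the two block jets
-/

set_option autoImplicit false

open Filter Topology

namespace Lq

namespace JKJ

theorem tend_JJ {I : Type} {l : Filter I} {d : ℕ} {c : I → ℕ → ℕ → ℝ} {c0 : ℕ → ℕ → ℝ}
    {A B : I → ℕ → ℝ} {A0 B0 : ℕ → ℝ} (hc : ∀ i j, Tendsto (fun n => c n i j) l (𝓝 (c0 i j)))
    (hA : ∀ i, Tendsto (fun n => A n i) l (𝓝 (A0 i)))
    (hB : ∀ i, Tendsto (fun n => B n i) l (𝓝 (B0 i))) :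
    Tendsto (fun n => JJ d (c n) (A n) (B n)) l (𝓝 (JJ d c0 A0 B0)) := by
  unfold JJ
  refine tendsto_finset_sum _ fun i _ => tendsto_finset_sum _ fun j _ => ?_
  exact ((hc i j).mul (hA i)).mul (hB j)

end JKJ

open JKJ

theorem t_KJ : Stmt_KJ := by
  intro h0 h1 h2 hL I l kk x1 x2 a1 a2 d H1 H2
  have key : ∀ (c : I → ℕ → ℕ → ℝ) (c0 : ℕ → ℕ → ℝ),
      (∀ i j, Tendsto (fun n => c n i j) l (𝓝 (c0 i j))) →
      JTend l (fun n => kJet (kk n) d (c n) (x1 n) (x2 n)) (limJet d c0 a1 a2) := by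
    intro c c0 hc
    have A0 : ∀ i, Tendsto (fun n => j0 (kk n) i (x1 n)) l (𝓝 (t0 i a1)) :=
      fun i => h0 I l kk x1 a1 i H1
    have A1 : ∀ i, Tendsto (fun n => j1 (kk n) i (x1 n)) l (𝓝 (t1 i a1)) :=
      fun i => h1 I l kk x1 a1 i H1
    have A2 : ∀ i, Tendsto (fun n => j2 (kk n) i (x1 n)) l (𝓝 (t2 i a1)) :=
      fun i => h2 I l kk x1 a1 i H1
    have B0 : ∀ i, Tendsto (fun n => j0 (4 * kk n) i (x2 n)) l (𝓝 (t0 i a2)) :=
      fun i => h0 I l (fun n => 4 * kk n) x2 a2 i H2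
    have B1 : ∀ i, Tendsto (fun n => j1 (4 * kk n) i (x2 n)) l (𝓝 (t1 i a2)) :=
      fun i => h1 I l (fun n => 4 * kk n) x2 a2 i H2
    have B2 : ∀ i, Tendsto (fun n => j2 (4 * kk n) i (x2 n)) l (𝓝 (t2 i a2)) :=
      fun i => h2 I l (fun n => 4 * kk n) x2 a2 i H2
    exact ⟨tend_JJ hc A0 B0, tend_JJ hc A1 B0, tend_JJ hc A0 B1, tend_JJ hc A1 B1,
      tend_JJ hc A2 B0, tend_JJ hc A0 B2⟩
  refine ⟨key, fun c => key (fun _ => c) c fun i j => tendsto_const_nhds, fun c hc => ?_⟩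
  exact key (fun n a b => (kk n : ℝ) / 4 * Dop (kk n) d c a b) (Lop c)
    fun i j => (hL d c i j hc).comp H1.hk

end Lq
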