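import Pool.Agent.Lq.StJ

/-!
# LQJ_LIM: the limits of the jets
-/

set_option autoImplicit false

open Filter Topology

namespace Lq

namespace JLIM

theorem tend_coef {I : Type} {l : Filter I} {g : ℝ × ℝ → ℝ} (hg : ContDiff ℝ (⊤ : ℕ∞) g)
    {e T : I → ℝ} {T0 : ℝ} (he : Tendsto e l (𝓝 0)) (hT : Tendsto T l (𝓝 T0)) :
    Tendsto (fun n => g (e n, T n)) l (𝓝 (g (0, T0))) :=
  (hg.continuous.tendsto (0, T0)).comp (he.prodMk_nhds hT)

theorem ev_good (hS : StmtSigns) {I : Type} {l : Filter I} {kk : I → ℕ} {x : I → ℝ} {a : ℝ}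
    (h : Lim1 l kk x a) : ∀ᶠ n in l, 1 ≤ kk n ∧ x n ≠ 0 ∧ F (kk n) 0 (x n) ≠ 0 ∧
      D1 (kk n) (x n) ≠ 0 ∧ D2 (kk n) (x n) ≠ 0 := by
  filter_upwards [h.hx, h.hk.eventually_ge_atTop 8] with n hp hk
  have hs := hS (kk n) (x n) hk hp
  have hx := hp.1
  have hk0 : (0 : ℝ) < (kk n : ℝ) := by
    have : 0 < kk n := by omega
    exact_mod_cast this
  refine ⟨by omega, hx.ne', (hp.2 (x n) hx.le le_rfl).ne', hs.d1.ne', ?_⟩
  have h2 : 0 < 4 * x n ^ 2 / (kk n : ℝ) ^ 2 := by positivity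
  exact (lt_of_lt_of_le h2 hs.d2).ne'

theorem tend_inv {I : Type} {l : Filter I} {kk : I → ℕ} {x : I → ℝ} {a : ℝ}
    (h : Lim1 l kk x a) : Tendsto (fun n => 1 / (kk n : ℝ)) l (𝓝 0) := by
  have h1 : Tendsto (fun n => (kk n : ℝ)) l atTop := tendsto_natCast_atTop_atTop.comp h.hk
  have h2 := tendsto_inv_atTop_zero.comp h1
  refine h2.congr fun n => ?_
  simp [one_div]

end JLIM

open JLIM

theorem t_LIM : Stmt_LIM := by
  intro hS hT hR hD12 hTD hCS hCI hJF
  obtain ⟨hCS1, hCS2⟩ := hCS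
  obtain ⟨hCI1, hCI2⟩ := hCI
  refine ⟨?_, ?_, ?_⟩
  · intro I l kk x a i h
    have hev := ev_good hS h
    have e0 := tend_inv h
    have e1 := hT I l kk x a h
    have key : Tendsto (fun n => cA i (1 / (kk n : ℝ), TT (kk n) (x n)) +
        cB i (1 / (kk n : ℝ), TT (kk n) (x n)) * yy (kk n) (x n)) l
        (𝓝 (cA i (0, 1 - (max (1 - a) 0) ^ 2) + cB i (0, 1 - (max (1 - a) 0) ^ 2) * a)) :=
      (tend_coef (hCS2 i).1 e0 e1).add ((tend_coef (hCS2 i).2 e0 e1).mul h.hy)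
    have lim : cA i (0, 1 - (max (1 - a) 0) ^ 2) + cB i (0, 1 - (max (1 - a) 0) ^ 2) * a =
        t0 i a := by
      unfold t0
      split_ifs with ha
      · rw [max_eq_left (by linarith)]
        have : 1 - (1 - a) ^ 2 = 2 * a - a ^ 2 := by ring
        rw [this]
        exact (hCI1 i a).1
      · rw [max_eq_right (by linarith)]
        have : (1 : ℝ) - 0 ^ 2 = 1 := by norm_num
        rw [this, (hCI2 i).1, (hCI2 i).2]
        ring
    rw [← lim]
    refine key.congr' ?_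
    filter_upwards [hev] with n hn
    exact ((hJF (kk n) i (x n) hn.1 hn.2.1 hn.2.2.1 hn.2.2.2.1 hn.2.2.2.2).1).symm
  · intro I l kk x a i h
    have hev := ev_good hS h
    have e0 := tend_inv h
    have e1 := hT I l kk x a h
    have e2 := hTD I l kk x a h
    have key : Tendsto (fun n => cB i (1 / (kk n : ℝ), TT (kk n) (x n)) +
        2 * (TT (kk n) (x n) / D1 (kk n) (x n)) *
        (dT (cA i) (1 / (kk n : ℝ), TT (kk n) (x n)) +
          dT (cB i) (1 / (kk n : ℝ), TT (kk n) (x n)) * yy (kk n) (x n))) l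
        (𝓝 (cB i (0, 1 - (max (1 - a) 0) ^ 2) + 2 * max (1 - a) 0 *
          (dT (cA i) (0, 1 - (max (1 - a) 0) ^ 2) +
            dT (cB i) (0, 1 - (max (1 - a) 0) ^ 2) * a))) :=
      (tend_coef (hCS2 i).2 e0 e1).add ((e2.const_mul 2).mul
        ((tend_coef (hCS1 _ (hCS2 i).1).1 e0 e1).add
          ((tend_coef (hCS1 _ (hCS2 i).2).1 e0 e1).mul h.hy)))
    have lim : cB i (0, 1 - (max (1 - a) 0) ^ 2) + 2 * max (1 - a) 0 *
          (dT (cA i) (0, 1 - (max (1 - a) 0) ^ 2) +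
            dT (cB i) (0, 1 - (max (1 - a) 0) ^ 2) * a) = t1 i a := by
      unfold t1
      split_ifs with ha
      · rw [max_eq_left (by linarith)]
        have : 1 - (1 - a) ^ 2 = 2 * a - a ^ 2 := by ring
        rw [this]
        exact (hCI1 i a).2.1
      · rw [max_eq_right (by linarith)]
        have : (1 : ℝ) - 0 ^ 2 = 1 := by norm_num
        rw [this, (hCI2 i).2]
        ring
    rw [← lim]
    refine key.congr' ?_
    filter_upwards [hev] with n hn
    exact ((hJF (kk n) i (x n) hn.1 hn.2.1 hn.2.2.1 hn.2.2.2.1 hn.2.2.2.2).2.1).symm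
  · intro I l kk x a i h
    have hev := ev_good hS h
    have e0 := tend_inv h
    have e1 := hT I l kk x a h
    have e2 := hTD I l kk x a h
    have e3 := hD12 I l kk x a h
    have e4 := hR I l kk x a h
    have cA' := tend_coef (hCS1 _ (hCS2 i).1).1 e0 e1
    have cB' := tend_coef (hCS1 _ (hCS2 i).2).1 e0 e1
    have cA'' := tend_coef (hCS1 _ (hCS1 _ (hCS2 i).1).1).1 e0 e1
    have cB'' := tend_coef (hCS1 _ (hCS1 _ (hCS2 i).2).1).1 e0 e1
    have key : Tendsto (fun n => cB i (1 / (kk n : ℝ), TT (kk n) (x n))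
        + 4 * (TT (kk n) (x n) / D1 (kk n) (x n)) ^ 2 *
          (D1 (kk n) (x n) ^ 2 / D2 (kk n) (x n)) *
          (dT (dT (cA i)) (1 / (kk n : ℝ), TT (kk n) (x n)) +
            dT (dT (cB i)) (1 / (kk n : ℝ), TT (kk n) (x n)) * yy (kk n) (x n))
        + 2 * (TT (kk n) (x n) / D1 (kk n) (x n)) * (D1 (kk n) (x n) / D2 (kk n) (x n)) *
          (dT (cA i) (1 / (kk n : ℝ), TT (kk n) (x n)) +
            dT (cB i) (1 / (kk n : ℝ), TT (kk n) (x n)) * yy (kk n) (x n))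
        + 4 * (TT (kk n) (x n) / D1 (kk n) (x n)) * (D1 (kk n) (x n) ^ 2 / D2 (kk n) (x n)) *
          dT (cB i) (1 / (kk n : ℝ), TT (kk n) (x n))) l
        (𝓝 (cB i (0, 1 - (max (1 - a) 0) ^ 2)
          + 4 * (max (1 - a) 0) ^ 2 * rr a *
            (dT (dT (cA i)) (0, 1 - (max (1 - a) 0) ^ 2) +
              dT (dT (cB i)) (0, 1 - (max (1 - a) 0) ^ 2) * a)
          + 2 * max (1 - a) 0 * (max (1 - a) 0) ^ 2 *
            (dT (cA i) (0, 1 - (max (1 - a) 0) ^ 2) +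
              dT (cB i) (0, 1 - (max (1 - a) 0) ^ 2) * a)
          + 4 * max (1 - a) 0 * rr a * dT (cB i) (0, 1 - (max (1 - a) 0) ^ 2))) :=
      (((tend_coef (hCS2 i).2 e0 e1).add ((((e2.pow 2).const_mul 4).mul e4).mul
        (cA''.add (cB''.mul h.hy)))).add (((e2.const_mul 2).mul e3).mul
          (cA'.add (cB'.mul h.hy)))).add (((e2.const_mul 4).mul e4).mul cB')
    have lim : cB i (0, 1 - (max (1 - a) 0) ^ 2)
          + 4 * (max (1 - a) 0) ^ 2 * rr a *
            (dT (dT (cA i)) (0, 1 - (max (1 - a) 0) ^ 2) +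
              dT (dT (cB i)) (0, 1 - (max (1 - a) 0) ^ 2) * a)
          + 2 * max (1 - a) 0 * (max (1 - a) 0) ^ 2 *
            (dT (cA i) (0, 1 - (max (1 - a) 0) ^ 2) +
              dT (cB i) (0, 1 - (max (1 - a) 0) ^ 2) * a)
          + 4 * max (1 - a) 0 * rr a * dT (cB i) (0, 1 - (max (1 - a) 0) ^ 2) = t2 i a := by
      unfold t2
      split_ifs with ha
      · rw [max_eq_left (by linarith)]
        have : 1 - (1 - a) ^ 2 = 2 * a - a ^ 2 := by ring
        rw [this]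
        obtain ⟨_, h2, h3⟩ := hCI1 i a
        have hr : rr a = a * (2 - a) * (1 - a) := by unfold rr; rw [if_pos ha]
        rw [← h2]
        have h3' : (i : ℝ) * ((i : ℝ) - 1) * a ^ (i - 2) = 4 * (1 - a) ^ 2 *
            (dT (dT (cA i)) (0, 2 * a - a ^ 2) + dT (dT (cB i)) (0, 2 * a - a ^ 2) * a) +
            4 * (1 - a) * dT (cB i) (0, 2 * a - a ^ 2) -
            2 * (dT (cA i) (0, 2 * a - a ^ 2) + dT (cB i) (0, 2 * a - a ^ 2) * a) := by
          linarith
        rw [h3', hr]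
        ring
      · rw [max_eq_right (by linarith)]
        have : (1 : ℝ) - 0 ^ 2 = 1 := by norm_num
        rw [this, (hCI2 i).2]
        ring
    rw [← lim]
    refine key.congr' ?_
    filter_upwards [hev] with n hn
    exact ((hJF (kk n) i (x n) hn.1 hn.2.1 hn.2.2.1 hn.2.2.2.1 hn.2.2.2.2).2.2).symm

end Lq
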