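import Pool.Agent.Lq.StJ

/-!
# Lindqvist: the profile (LK)
-/

set_option autoImplicit false

open Filter Topology

namespace Lq

namespace JLK

theorem co_zero (k : ℕ) : co k 0 = 1 := by simp [co]

theorem co_succ (k m : ℕ) :
    co k (m + 1) = co k m * ((1 : ℝ) / ((2 * (m : ℝ) + 2) * ((k : ℝ) + 2 * (m : ℝ)))) := by
  simp only [co]
  rw [Finset.prod_range_succ]

theorem co_nonneg (k m : ℕ) : 0 ≤ co k m := by
  unfold co
  apply Finset.prod_nonneg
  intro i _
  positivity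

theorem co_le {k : ℕ} (hk : 1 ≤ k) (m : ℕ) : co k m ≤ 1 / (m.factorial : ℝ) := by
  induction m with
  | zero => simp [co_zero]
  | succ m ih =>
    rw [co_succ, Nat.factorial_succ]
    have hk' : (1 : ℝ) ≤ (k : ℝ) := by exact_mod_cast hk
    have hm : (0 : ℝ) ≤ (m : ℝ) := Nat.cast_nonneg m
    have h1 : (1 : ℝ) / ((2 * (m : ℝ) + 2) * ((k : ℝ) + 2 * (m : ℝ))) ≤ 1 / ((m : ℝ) + 1) := by
      apply one_div_le_one_div_of_le (by positivity)
      nlinarith [mul_nonneg hm hm, mul_nonneg hm (sub_nonneg.mpr hk')]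
    have h2 : (0 : ℝ) < (m.factorial : ℝ) := by exact_mod_cast Nat.factorial_pos m
    calc co k m * ((1 : ℝ) / ((2 * (m : ℝ) + 2) * ((k : ℝ) + 2 * (m : ℝ))))
        ≤ 1 / (m.factorial : ℝ) * (1 / ((m : ℝ) + 1)) := by
          apply mul_le_mul ih h1 (by positivity) (by positivity)
      _ = 1 / (((m + 1) * m.factorial : ℕ) : ℝ) := by
          push_cast
          field_simp

theorem co_left {k : ℕ} (hk : 1 ≤ k) (m : ℕ) :
    co k (m + 1) = co (k + 2) m / ((k : ℝ) * (2 * (m : ℝ) + 2)) := by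
  have hk' : (0 : ℝ) < (k : ℝ) := by exact_mod_cast hk
  induction m with
  | zero =>
    rw [co_succ, co_zero, co_zero]
    push_cast
    field_simp
    ring
  | succ m ih =>
    rw [co_succ, ih, co_succ]
    push_cast
    have h1 : (0 : ℝ) < 2 * (m : ℝ) + 2 := by positivity
    have h2 : (0 : ℝ) < 2 * ((m : ℝ) + 1) + 2 := by positivity
    have h3 : (0 : ℝ) < (k : ℝ) + 2 * ((m : ℝ) + 1) := by positivity
    have h4 : (0 : ℝ) < (k : ℝ) + 2 + 2 * (m : ℝ) := by positivity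
    have h5 : (k : ℝ) + 2 * ((m : ℝ) + 1) = (k : ℝ) + 2 + 2 * (m : ℝ) := by ring
    rw [h5]
    field_simp

theorem co_shift {k : ℕ} (hk : 1 ≤ k) (m : ℕ) :
    ((k : ℝ) + 2) * co (k + 2) m = ((k : ℝ) + 2 + 2 * (m : ℝ)) * co (k + 4) m := by
  have hk' : (0 : ℝ) < (k : ℝ) := by exact_mod_cast hk
  induction m with
  | zero => simp [co_zero]
  | succ m ih =>
    rw [co_succ, co_succ]
    push_cast
    have h4 : (0 : ℝ) < (k : ℝ) + 2 + 2 * (m : ℝ) := by positivity
    have h6 : (0 : ℝ) < (k : ℝ) + 4 + 2 * (m : ℝ) := by positivity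
    have h1 : (0 : ℝ) < 2 * (m : ℝ) + 2 := by positivity
    rw [← mul_assoc, ih]
    have h5 : (k : ℝ) + 2 + 2 * ((m : ℝ) + 1) = (k : ℝ) + 4 + 2 * (m : ℝ) := by ring
    rw [h5]
    field_simp

/-- The terms of the series. -/
noncomputable def T (k m : ℕ) (s : ℝ) : ℝ := (-1 : ℝ) ^ m * co k m * s ^ m

theorem Lk_eq (k : ℕ) (s : ℝ) : Lk k s = ∑' m : ℕ, T k m s := rfl

theorem summable_T {k : ℕ} (hk : 1 ≤ k) (s : ℝ) : Summable (fun m => T k m s) := by
  apply Summable.of_norm_bounded (g := fun m => |s| ^ m / (m.factorial : ℝ))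
    (Real.summable_pow_div_factorial |s|)
  intro m
  unfold T
  rw [norm_mul, norm_mul, norm_pow, norm_neg, norm_one, one_pow, one_mul, norm_pow,
    Real.norm_eq_abs, Real.norm_eq_abs, abs_of_nonneg (co_nonneg k m)]
  have h1 := mul_le_mul_of_nonneg_right (co_le hk m) (pow_nonneg (abs_nonneg s) m)
  calc co k m * |s| ^ m ≤ 1 / (m.factorial : ℝ) * |s| ^ m := h1
    _ = |s| ^ m / (m.factorial : ℝ) := by ring

theorem T_zero (k : ℕ) (s : ℝ) : T k 0 s = 1 := by simp [T, co_zero]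

theorem Lk_split {k : ℕ} (hk : 1 ≤ k) (s : ℝ) : Lk k s = 1 + ∑' m : ℕ, T k (m + 1) s := by
  rw [Lk_eq, (summable_T hk s).tsum_eq_zero_add, T_zero]

theorem Lk_zero (k : ℕ) : Lk k 0 = 1 := by
  rw [Lk_eq, tsum_eq_single 0]
  · exact T_zero k 0
  · intro m hm
    simp [T, hm]

theorem hasDeriv {k : ℕ} (hk : 1 ≤ k) (s : ℝ) :
    HasDerivAt (Lk k) (-(Lk (k + 2) s / (2 * (k : ℝ)))) s := by
  have hk' : (0 : ℝ) < (k : ℝ) := by exact_mod_cast hk
  set r : ℝ := |s| + 1 with hr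
  have hr0 : 0 ≤ r := by positivity
  have key : HasDerivAt (fun z => ∑' m : ℕ, T k m z)
      (∑' m : ℕ, (-1 : ℝ) ^ m * co k m * ((m : ℝ) * s ^ (m - 1))) s := by
    refine hasDerivAt_tsum_of_isPreconnected
      (u := fun m : ℕ => 1 / (m.factorial : ℝ) * ((m : ℝ) * r ^ (m - 1)))
      (t := Metric.ball (0 : ℝ) r) (g := fun m z => T k m z)
      (g' := fun m z => (-1 : ℝ) ^ m * co k m * ((m : ℝ) * z ^ (m - 1))) (y₀ := 0) ?_
      Metric.isOpen_ball (convex_ball (0 : ℝ) r).isPreconnected ?_ ?_ ?_ ?_ ?_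
    · rw [← summable_nat_add_iff 1]
      have h1 := Real.summable_pow_div_factorial r
      refine h1.congr ?_
      intro m
      have h2 : (0 : ℝ) < (m.factorial : ℝ) := by exact_mod_cast Nat.factorial_pos m
      rw [Nat.factorial_succ, Nat.add_sub_cancel]
      push_cast
      field_simp
    · intro m y _
      have h1 := (hasDerivAt_pow m y).const_mul ((-1 : ℝ) ^ m * co k m)
      exact h1
    · intro m y hy
      have hy' : |y| ≤ r := by
        rw [Metric.mem_ball, dist_zero_right, Real.norm_eq_abs] at hy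
        exact hy.le
      rw [norm_mul, norm_mul, norm_pow, norm_neg, norm_one, one_pow, one_mul, norm_mul, norm_pow,
        Real.norm_eq_abs, Real.norm_eq_abs, Real.norm_eq_abs, abs_of_nonneg (co_nonneg k m),
        Nat.abs_cast]
      apply mul_le_mul (co_le hk m)
      · exact mul_le_mul_of_nonneg_left (pow_le_pow_left₀ (abs_nonneg y) hy' _)
          (Nat.cast_nonneg m)
      · positivity
      · positivity
    · rw [Metric.mem_ball, dist_self]
      positivity
    · exact summable_T hk 0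
    · rw [Metric.mem_ball, dist_zero_right, Real.norm_eq_abs, hr]
      linarith
  have hval : (∑' m : ℕ, (-1 : ℝ) ^ m * co k m * ((m : ℝ) * s ^ (m - 1))) =
      -(Lk (k + 2) s / (2 * (k : ℝ))) := by
    have hterm : ∀ m : ℕ, (-1 : ℝ) ^ (m + 1) * co k (m + 1) *
        (((m + 1 : ℕ) : ℝ) * s ^ (m + 1 - 1)) = (-(1 / (2 * (k : ℝ)))) * T (k + 2) m s := by
      intro m
      rw [co_left hk m, Nat.add_sub_cancel]
      unfold T
      push_cast
      have h1 : (0 : ℝ) < 2 * (m : ℝ) + 2 := by positivity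
      rw [pow_succ]
      field_simp
    have hsum : Summable (fun m : ℕ => (-1 : ℝ) ^ m * co k m * ((m : ℝ) * s ^ (m - 1))) := by
      rw [← summable_nat_add_iff 1]
      refine ((summable_T (show 1 ≤ k + 2 by omega) s).mul_left (-(1 / (2 * (k : ℝ))))).congr ?_
      intro m
      exact (hterm m).symm
    rw [hsum.tsum_eq_zero_add]
    simp only [hterm]
    rw [tsum_mul_left, ← Lk_eq]
    simp only [Nat.cast_zero, zero_mul, mul_zero, zero_add]
    field_simp
  rw [hval] at key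
  exact key

theorem rec3 {k : ℕ} (hk : 1 ≤ k) (s : ℝ) :
    s * Lk (k + 4) s = (k : ℝ) * ((k : ℝ) + 2) * (Lk (k + 2) s - Lk k s) := by
  have hk' : (0 : ℝ) < (k : ℝ) := by exact_mod_cast hk
  rw [Lk_split hk, Lk_split (show 1 ≤ k + 2 by omega), Lk_eq (k + 4)]
  have hs1 : Summable (fun m => T k (m + 1) s) := (summable_nat_add_iff 1).mpr (summable_T hk s)
  have hs2 : Summable (fun m => T (k + 2) (m + 1) s) :=
    (summable_nat_add_iff 1).mpr (summable_T (show 1 ≤ k + 2 by omega) s)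
  have h1 : (1 + ∑' m : ℕ, T (k + 2) (m + 1) s) - (1 + ∑' m : ℕ, T k (m + 1) s) =
      ∑' m : ℕ, (T (k + 2) (m + 1) s - T k (m + 1) s) := by
    rw [hs2.tsum_sub hs1]
    ring
  rw [h1, ← tsum_mul_left, ← tsum_mul_left]
  congr 1
  funext m
  unfold T
  rw [co_left hk m, co_left (show 1 ≤ k + 2 by omega) m]
  have h2 := co_shift hk m
  have h3 : (k : ℝ) + 2 ≠ 0 := by positivity
  have h4 : co (k + 2) m = ((k : ℝ) + 2 + 2 * (m : ℝ)) * co (k + 4) m / ((k : ℝ) + 2) := by
    rw [eq_div_iff h3, mul_comm (co (k + 2) m)]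
    exact h2
  have h5 : k + 2 + 2 = k + 4 := by omega
  rw [h4, h5]
  push_cast
  have h6 : (0 : ℝ) < 2 * (m : ℝ) + 2 := by positivity
  rw [pow_succ (-1 : ℝ) m, pow_succ s m]
  field_simp
  ring

end JLK

theorem t_LK : Stmt_LK := by
  intro k hk
  exact ⟨JLK.Lk_zero k, fun s => JLK.hasDeriv hk s, fun s => JLK.rec3 hk s⟩

end Lq
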