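import Pool.Agent.Lq.StJ

set_option autoImplicit false

open Filter Topology

namespace Lq

namespace JLOP

theorem tinv (μ : ℝ) : Tendsto (fun k : ℕ => -(μ / (k : ℝ))) atTop (𝓝 0) := by
  have h : Tendsto (fun k : ℕ => μ / (k : ℝ)) atTop (𝓝 0) :=
    tendsto_const_div_atTop_nhds_zero_nat μ
  have h2 := h.neg
  rwa [neg_zero] at h2

theorem term (μ : ℝ) (i a : ℕ) :
    Tendsto (fun k : ℕ => (k : ℝ) / 4 * ((if i = a then 1 else 0) -
      ((i.choose a : ℕ) : ℝ) * (-(μ / (k : ℝ))) ^ (i - a))) atTop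
      (𝓝 (if i = a + 1 then ((a : ℝ) + 1) * (μ / 4) else 0)) := by
  rcases lt_trichotomy i a with h | h | h
  · have h0 : (if i = a + 1 then ((a : ℝ) + 1) * (μ / 4) else 0) = 0 := if_neg (by omega)
    rw [h0]
    refine tendsto_const_nhds.congr fun k => ?_
    rw [if_neg h.ne, Nat.choose_eq_zero_of_lt h]
    simp
  · subst h
    have h0 : (if i = i + 1 then ((i : ℝ) + 1) * (μ / 4) else 0) = 0 := if_neg (by omega)
    rw [h0]
    refine tendsto_const_nhds.congr fun k => ?_
    rw [if_pos rfl, Nat.choose_self]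
    simp
  · obtain ⟨n, hn⟩ : ∃ n, i = a + 1 + n := ⟨i - a - 1, by omega⟩
    rcases Nat.eq_zero_or_pos n with h0 | h0
    · subst h0
      have hi : i = a + 1 := by omega
      subst hi
      have h0 : (if a + 1 = a + 1 then ((a : ℝ) + 1) * (μ / 4) else 0) =
        ((a : ℝ) + 1) * (μ / 4) := if_pos rfl
      rw [h0]
      refine (tendsto_const_nhds (x := ((a : ℝ) + 1) * (μ / 4))).congr' ?_
      filter_upwards [eventually_gt_atTop 0] with k hk
      have hk' : (k : ℝ) ≠ 0 := by exact_mod_cast hk.ne'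
      rw [if_neg (by omega)]
      have e1 : a + 1 - a = 1 := by omega
      have e2 : (a + 1).choose a = a + 1 := by
        rw [Nat.choose_succ_self_right]
      rw [e1, e2, pow_one]
      push_cast
      field_simp
      ring
    · have hz : (if i = a + 1 then ((a : ℝ) + 1) * (μ / 4) else 0) = 0 := if_neg (by omega)
      rw [hz]
      obtain ⟨p, hp⟩ : ∃ p, n = p + 1 := ⟨n - 1, by omega⟩
      have e1 : i - a = p + 1 + 1 := by omega
      have h1 : Tendsto (fun k : ℕ => ((i.choose a : ℕ) : ℝ) * (μ / 4) *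
          (-(μ / (k : ℝ))) ^ (p + 1)) atTop (𝓝 (((i.choose a : ℕ) : ℝ) * (μ / 4) * 0 ^ (p + 1))) :=
        ((tinv μ).pow (p + 1)).const_mul _
      rw [zero_pow (by omega), mul_zero] at h1
      refine h1.congr' ?_
      filter_upwards [eventually_gt_atTop 0] with k hk
      have hk' : (k : ℝ) ≠ 0 := by exact_mod_cast hk.ne'
      rw [if_neg (by omega), e1, pow_succ (-(μ / (k : ℝ))) (p + 1)]
      generalize (-(μ / (k : ℝ))) ^ (p + 1) = Z
      field_simp
      ring

theorem side (μ : ℝ) (d a : ℕ) (v : ℕ → ℝ) (hv : ∀ i, d < i → v i = 0) :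
    Tendsto (fun k : ℕ => (k : ℝ) / 4 * (v a - ∑ i ∈ Finset.range (d + 1),
      v i * ((i.choose a : ℕ) : ℝ) * (-(μ / (k : ℝ))) ^ (i - a))) atTop
      (𝓝 (((a : ℝ) + 1) * (μ / 4) * v (a + 1))) := by
  have h1 : Tendsto (fun k : ℕ => ∑ i ∈ Finset.range (d + 1),
      v i * ((k : ℝ) / 4 * ((if i = a then 1 else 0) -
        ((i.choose a : ℕ) : ℝ) * (-(μ / (k : ℝ))) ^ (i - a)))) atTop
      (𝓝 (∑ i ∈ Finset.range (d + 1), v i * (if i = a + 1 then ((a : ℝ) + 1) * (μ / 4) else 0))) :=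
    tendsto_finsetSum _ fun i _ => (term μ i a).const_mul (v i)
  have e1 : (∑ i ∈ Finset.range (d + 1), v i * (if i = a + 1 then ((a : ℝ) + 1) * (μ / 4) else 0)) =
      ((a : ℝ) + 1) * (μ / 4) * v (a + 1) := by
    simp only [mul_ite, mul_zero]
    rw [Finset.sum_ite_eq']
    split_ifs with h
    · ring
    · rw [hv (a + 1) (by simpa using h)]; ring
  rw [e1] at h1
  refine h1.congr ?_
  intro k
  have e2 : v a = ∑ i ∈ Finset.range (d + 1), v i * (if i = a then 1 else 0) := by
    simp only [mul_ite, mul_zero, mul_one]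
    rw [Finset.sum_ite_eq']
    split_ifs with h
    · rfl
    · exact hv a (by simpa using h)
  rw [e2, ← Finset.sum_sub_distrib, Finset.mul_sum]
  refine Finset.sum_congr rfl fun i _ => ?_
  ring

end JLOP

theorem t_LOP : Stmt_LOP := by
  intro d c a b hc
  have h1 := JLOP.side 4 d a (fun i => c i b) (fun i hi => hc i b (by omega))
  have h2 := JLOP.side 1 d b (fun j => c a j) (fun j hj => hc a j (by omega))
  have h3 := h1.add h2
  beta_reduce at h3
  have e : ((a : ℝ) + 1) * (4 / 4) * c (a + 1) b + ((b : ℝ) + 1) * (1 / 4) * c a (b + 1) =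
      Lop c a b := by
    unfold Lop; ring
  rw [e] at h3
  refine h3.congr ?_
  intro k
  unfold Dop
  ring

end Lq
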