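import Pool.Agent.Lq.StA
import Pool.Agent.Lq.JLK
import Pool.Agent.Lq.JBLK
import Pool.Agent.Lq.JFS
import Pool.Agent.Lq.JDER
import Pool.Agent.Lq.JLOP
import Pool.Agent.Lq.JDEG
import Pool.Agent.Lq.JCS
import Pool.Agent.Lq.JCI
import Pool.Agent.Lq.JAB
import Pool.Agent.Lq.JJF
import Pool.Agent.Lq.JLIM
import Pool.Agent.Lq.JKJ

/-!
# MP_61eda3_an: sections 1 and 3, assembly
-/

set_option autoImplicit false

open Filter Topology

namespace Lq

theorem p_LK : P_LK := t_LK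

theorem p_BLK : P_BLK := t_BLK p_LK

/-- `StmtBlk` of `StA.lean` -/
theorem t_Blk : StmtBlk := p_BLK

theorem p_FS : P_FS := t_FS p_BLK

theorem p_DER : P_DER := t_DER p_FS

theorem t_Smooth : StmtSmooth := p_FS.2.2

theorem t_ODE : StmtODE := p_FS.2.1

theorem p_LOP : P_LOP := t_LOP

theorem t_Lop : StmtLop := t_LOP

/-- `StmtDeg` of `St1.lean` -/
theorem t_Deg : StmtDeg := t_DEG.1

/-- `StmtDegA` of `StA.lean` -/
theorem t_DegA : StmtDegA := t_DEG.2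

theorem p_CS : P_CS := t_CS

theorem p_CI : P_CI := t_CI p_CS

theorem p_AB : P_AB := t_AB p_FS p_DER p_CS

theorem p_JF : P_JF := t_JF p_FS p_DER p_CS p_AB

/-- the limits of the jets, from section 2 -/
theorem t_Jets (h1 : StmtSigns) (h2 : StmtT) (h3 : StmtR) (h4 : StmtD12) (h5 : StmtTD) :
    StmtJ0 ∧ StmtJ1 ∧ StmtJ2 := t_LIM h1 h2 h3 h4 h5 p_CS p_CI p_JF

/-- the limits of the two block jets, from section 2 -/
theorem p_KJ (h1 : StmtSigns) (h2 : StmtT) (h3 : StmtR) (h4 : StmtD12) (h5 : StmtTD) : P_KJ :=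
  t_KJ (t_Jets h1 h2 h3 h4 h5).1 (t_Jets h1 h2 h3 h4 h5).2.1 (t_Jets h1 h2 h3 h4 h5).2.2 t_LOP

end Lq
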