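import Pool.Agent.Lq.Base

/-!
# Interface: one block facts used by the two block part (sections 1, 2, 3 of PAPER.md)
-/

set_option autoImplicit false

open Filter Topology

namespace Lq

/-- the limit setting: `k → ∞`, `x` in the first positivity interval, `y → a` -/
structure Lim1 {I : Type} (l : Filter I) (kk : I → ℕ) (x : I → ℝ) (a : ℝ) : Prop where
  hk : Tendsto kk l atTop
  hx : ∀ᶠ i in l, Pos (kk i) (x i)
  hy : Tendsto (fun i => yy (kk i) (x i)) l (𝓝 a)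

/-! ## smoothness and ODE (section 1) -/

def StmtSmooth : Prop := ∀ k i : ℕ, 1 ≤ k → ContDiff ℝ (⊤ : ℕ∞) (La k i)

/-- `f'' + ((k-1)/x) f' + f = 0`, `f(0) = 1` -/
def StmtODE : Prop := ∀ k : ℕ, 1 ≤ k → F k 0 0 = 1 ∧
  ∀ x : ℝ, x * deriv (deriv (F k 0)) x + ((k : ℝ) - 1) * deriv (F k 0) x + x * F k 0 x = 0

/-- first zero -/
def StmtZero : Prop := ∀ k : ℕ, 1 ≤ k → ∃ R : ℝ, 0 < R ∧ F k 0 R = 0 ∧
  ∀ x, 0 ≤ x → x < R → 0 < F k 0 x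

/-! ## signs and derivatives (section 2), `k ≥ 8` -/

structure Signs (k : ℕ) (x : ℝ) : Prop where
  X0 : 0 < X k x
  eX : X k x < ee k x
  g0 : 0 < gg k x
  g1 : gg k x < 1
  gs : 1 - yy k x < gg k x
  d1 : 0 < D1 k x
  d2 : 4 * x ^ 2 / (k : ℝ) ^ 2 ≤ D2 k x
  de : 0 < De k x
  /-- `y = D1 g/(1+g)`, i.e. `D1 = y (1+g)/g` -/
  D1e : D1 k x = yy k x * (1 + gg k x) / gg k x
  D2e : D2 k x = yy k x / gg k x * (3 - gg k x + De k x)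

def StmtSigns : Prop := ∀ (k : ℕ) (x : ℝ), 8 ≤ k → Pos k x → Signs k x

/-- derivatives of `y` and `e` -/
def StmtDer : Prop := ∀ (k : ℕ) (x : ℝ), 8 ≤ k → Pos k x →
  HasDerivAt (yy k) (D1 k x / x) x ∧
  HasDerivAt (ee k) ((k : ℝ) / 2 * D2 k x / x) x

/-- `y` is continuous and strictly increasing on `[0,R)` (as a function of `|x|` it is continuous),
`y 0 = 0`, and for every level `Y` the set `{y ≤ Y}` is a compact interval `[0, x_Y]`, `x_Y < R`. -/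
def StmtMono : Prop := ∀ k : ℕ, 8 ≤ k →
  yy k 0 = 0 ∧ (∀ x x' : ℝ, Pz k x → Pz k x' → x < x' → yy k x < yy k x') ∧
  (∀ x : ℝ, Pz k x → ContinuousAt (fun t => yy k |t|) x) ∧
  (∀ Y : ℝ, 0 < Y → ∃ xY : ℝ, Pos k xY ∧ yy k xY = Y)

/-! ## limits (section 2) -/

def StmtG : Prop := ∀ (I : Type) (l : Filter I) (kk : I → ℕ) (x : I → ℝ) (a : ℝ),
  Lim1 l kk x a → Tendsto (fun i => gg (kk i) (x i)) l (𝓝 (max (1 - a) 0))

def StmtT : Prop := ∀ (I : Type) (l : Filter I) (kk : I → ℕ) (x : I → ℝ) (a : ℝ),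
  Lim1 l kk x a → Tendsto (fun i => TT (kk i) (x i)) l (𝓝 (1 - (max (1 - a) 0) ^ 2))

/-- `r = D1^2/D2 → rr a` -/
def StmtR : Prop := ∀ (I : Type) (l : Filter I) (kk : I → ℕ) (x : I → ℝ) (a : ℝ),
  Lim1 l kk x a → Tendsto (fun i => D1 (kk i) (x i) ^ 2 / D2 (kk i) (x i)) l (𝓝 (rr a))

def StmtD12 : Prop := ∀ (I : Type) (l : Filter I) (kk : I → ℕ) (x : I → ℝ) (a : ℝ),
  Lim1 l kk x a →
    Tendsto (fun i => D1 (kk i) (x i) / D2 (kk i) (x i)) l (𝓝 ((max (1 - a) 0) ^ 2))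

def StmtTD : Prop := ∀ (I : Type) (l : Filter I) (kk : I → ℕ) (x : I → ℝ) (a : ℝ),
  Lim1 l kk x a →
    Tendsto (fun i => TT (kk i) (x i) / D1 (kk i) (x i)) l (𝓝 (max (1 - a) 0))

/-- `D2/e → 2 (a-1)^+` -/
def StmtDE : Prop := ∀ (I : Type) (l : Filter I) (kk : I → ℕ) (x : I → ℝ) (a : ℝ),
  Lim1 l kk x a →
    Tendsto (fun i => D2 (kk i) (x i) / ee (kk i) (x i)) l (𝓝 (2 * max (a - 1) 0))

def StmtDelta : Prop := ∀ (I : Type) (l : Filter I) (kk : I → ℕ) (x : I → ℝ) (a : ℝ),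
  Lim1 l kk x a → a < 1 → Tendsto (fun i => De (kk i) (x i)) l
    (𝓝 (a * (1 + 2 * (1 - a) - (1 - a) ^ 2) / (1 - a) ^ 2))

/-! ## jets (section 3) -/

def StmtJ0 : Prop := ∀ (I : Type) (l : Filter I) (kk : I → ℕ) (x : I → ℝ) (a : ℝ) (i : ℕ),
  Lim1 l kk x a → Tendsto (fun n => j0 (kk n) i (x n)) l (𝓝 (t0 i a))

def StmtJ1 : Prop := ∀ (I : Type) (l : Filter I) (kk : I → ℕ) (x : I → ℝ) (a : ℝ) (i : ℕ),
  Lim1 l kk x a → Tendsto (fun n => j1 (kk n) i (x n)) l (𝓝 (t1 i a))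

def StmtJ2 : Prop := ∀ (I : Type) (l : Filter I) (kk : I → ℕ) (x : I → ℝ) (a : ℝ) (i : ℕ),
  Lim1 l kk x a → Tendsto (fun n => j2 (kk n) i (x n)) l (𝓝 (t2 i a))

/-- `(k/4) Dop k d c → Lop c` entrywise (needs `c i j = 0` for `i + j > d`) -/
def StmtLop : Prop := ∀ (d : ℕ) (c : ℕ → ℕ → ℝ) (a b : ℕ), Deg d c →
  Tendsto (fun k : ℕ => (k : ℝ) / 4 * Dop k d c a b) atTop (𝓝 (Lop c a b))

/-- `Dop k d` (fixed `d`) lowers the degree -/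
def StmtDeg : Prop := ∀ (k d m : ℕ) (c : ℕ → ℕ → ℝ),
  (m + 1 ≤ d → Deg (m + 1) c → Deg m (Dop k d c)) ∧ (Deg 0 c → ∀ a b, Dop k d c a b = 0)

end Lq
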