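import Pool.Agent.Lq.One8
import Pool.Agent.Lq.St1

set_option autoImplicit false

open Filter Topology Set

namespace Lq

theorem OdeF.of (h1 : StmtSmooth) (h2 : StmtODE) {k : ℕ} (hk : 1 ≤ k) : OdeF k := by
  refine ⟨?_, (h2 k hk).1, (h2 k hk).2⟩
  have h3 : ContDiff ℝ 2 (La k 0) := by
    have := contDiff_infty.1 (h1 k 0 hk) 2
    exact_mod_cast this
  have e : F k 0 = fun x => La k 0 (x ^ 2) := rfl
  rw [e]
  exact h3.comp (contDiff_id.pow 2)

section trans

variable {k : ℕ} {x : ℝ}

theorem gf_eq (hk : 8 ≤ k) : OneB.gf (yy k) (fun t => 2 / (k : ℝ) * ee k t) x = gg k x := by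
  have hk' : (k : ℝ) ≠ 0 := by
    have : (8 : ℝ) ≤ k := by exact_mod_cast hk
    intro h; linarith
  unfold OneB.gf yy gg
  have e : 2 * X k x / (k : ℝ) = 2 / (k : ℝ) * X k x := by ring
  rw [e]
  simp only
  rw [mul_div_mul_left]
  positivity

theorem hf_eq (hk : 8 ≤ k) : OneB.hf (yy k) (fun t => 2 / (k : ℝ) * ee k t) x =
    gg k x - (1 - yy k x) := by
  unfold OneB.hf
  rw [gf_eq hk]

theorem De_eq (hk : 8 ≤ k) : (k : ℝ) * OneB.hf (yy k) (fun t => 2 / (k : ℝ) * ee k t) x =
    De k x := by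
  rw [hf_eq hk]; rfl

theorem D1_eq : yy k x + 2 / (k : ℝ) * ee k x = D1 k x := by
  unfold D1 yy; ring

theorem D2_eq (hk : 8 ≤ k) : OneB.Jf (k : ℝ) (yy k) (fun t => 2 / (k : ℝ) * ee k t) x = D2 k x := by
  have hk' : (k : ℝ) ≠ 0 := by
    have : (8 : ℝ) ≤ k := by exact_mod_cast hk
    intro h; linarith
  unfold OneB.Jf D2 yy
  field_simp
  ring

theorem TT_eq : OneB.Tf (k : ℝ) x = TT k x := rfl

end trans

theorem t_Signs (h1 : StmtSmooth) (h2 : StmtODE) : StmtSigns := by
  intro k x hk hx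
  have B := (OdeF.of h1 h2 (by omega : 1 ≤ k)).blk hk hx
  have hs := B.hSS
  have hk0 : (0 : ℝ) < k := by
    have : (8 : ℝ) ≤ k := by exact_mod_cast hk
    linarith
  have hX : 0 < X k x := by
    have := B.y_pos hs
    unfold yy at this
    have h3 : 0 < 2 * X k x := by
      rcases div_pos_iff.1 this with h | h
      · exact h.1
      · linarith
    linarith
  have he : X k x < ee k x := by
    have h3 := B.y_lt_E hs
    have h4 : 2 / (k : ℝ) * X k x < 2 / (k : ℝ) * ee k x := by
      have e : 2 / (k : ℝ) * X k x = yy k x := by unfold yy; ring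
      rw [e]; exact h3
    exact lt_of_mul_lt_mul_left h4 (by positivity)
  have hepos : 0 < ee k x := hX.trans he
  have hg0 : 0 < gg k x := div_pos hX hepos
  have hg1 : gg k x < 1 := by unfold gg; rw [div_lt_one hepos]; exact he
  have hgs : 1 - yy k x < gg k x := by
    have := B.one_sub_lt_g hs
    rwa [gf_eq hk] at this
  have hgX : gg k x * ee k x = X k x := by unfold gg; rw [div_mul_cancel₀ _ hepos.ne']
  refine ⟨hX, he, hg0, hg1, hgs, ?_, ?_, ?_, ?_, ?_⟩
  · unfold D1
    positivity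
  · have h3 := B.J_ge hs
    rw [D2_eq hk] at h3
    have h4 := B.y_lt_E hs
    have h5 := B.y_ge hs
    have e : 4 * x ^ 2 / (k : ℝ) ^ 2 = 2 * (2 * x ^ 2 / (k : ℝ) ^ 2) := by ring
    rw [e]
    linarith
  · unfold De
    exact mul_pos hk0 (by linarith)
  · rw [eq_div_iff hg0.ne']
    unfold D1 yy
    linear_combination (2 / (k : ℝ)) * hgX
  · have hyE : yy k x / gg k x = 2 / (k : ℝ) * ee k x := by
      rw [div_eq_iff hg0.ne']
      unfold yy
      linear_combination (-(2 / (k : ℝ))) * hgX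
    rw [hyE, ← D2_eq hk, B.J_eq hs, gf_eq hk, De_eq hk]
    ring

theorem t_Der (h1 : StmtSmooth) (h2 : StmtODE) : StmtDer := by
  intro k x hk hx
  have hO := OdeF.of h1 h2 (by omega : 1 ≤ k)
  have B := hO.blk hk hx
  have hf : F k 0 x ≠ 0 := (hx.2 x hx.1.le le_rfl).ne'
  have hk0 : (k : ℝ) ≠ 0 := by
    have : (8 : ℝ) ≤ k := by exact_mod_cast hk
    intro h; linarith
  constructor
  · have h3 := B.dy x B.hSS
    unfold OneB.HasD at h3
    rw [D1_eq] at h3
    exact h3
  · have h3 := hO.dee hx.1.ne' hf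
    unfold OneB.HasD at h3
    refine h3.congr_deriv ?_
    unfold D2
    field_simp

theorem Pos.of_Pz {k : ℕ} {x : ℝ} (h : Pz k x) (hx : 0 < x) : Pos k x := ⟨hx, h.2⟩

theorem yy_zero (k : ℕ) : yy k 0 = 0 := by
  unfold yy X
  simp

theorem t_Mono (h1 : StmtSmooth) (h2 : StmtODE) (h3 : StmtZero) : StmtMono := by
  intro k hk
  have hO := OdeF.of h1 h2 (by omega : 1 ≤ k)
  have hk0 : (0 : ℝ) < k := by
    have : (8 : ℝ) ≤ k := by exact_mod_cast hk
    linarith
  refine ⟨yy_zero k, ?_, ?_, ?_⟩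
  · intro x x' hx hx' hlt
    have hx'0 : 0 < x' := hx.1.trans_lt hlt
    have B := hO.blk hk (Pos.of_Pz hx' hx'0)
    rcases hx.1.eq_or_lt with h | h
    · rw [← h, yy_zero]
      exact B.y_pos B.hSS
    · exact B.y_mono ⟨h, hlt.le⟩ B.hSS hlt
  · intro x hx
    rcases hx.1.eq_or_lt with h | h
    · rw [← h]
      -- at zero
      have hc := hO.smooth.continuous
      have h4 : ∀ᶠ t : ℝ in 𝓝 0, F k 0 t ≠ 0 :=
        hc.continuousAt.eventually_ne (by rw [hO.zero]; norm_num)
      have h5 : ContinuousAt (yy k) 0 := by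
        have e : yy k = fun t => 2 * (-(t * deriv (F k 0) t / F k 0 t)) / (k : ℝ) := rfl
        rw [e]
        have h6 : ContinuousAt (fun t => t * deriv (F k 0) t / F k 0 t) 0 :=
          (continuousAt_id.mul hO.cd1.continuous.continuousAt).div hc.continuousAt
            (by rw [hO.zero]; norm_num)
        exact (h6.neg.const_mul 2).div_const _
      have h7 : ContinuousAt (fun t : ℝ => |t|) 0 := continuous_abs.continuousAt
      exact ContinuousAt.comp (g := yy k) (f := fun t : ℝ => |t|) (by rw [abs_zero]; exact h5) h7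
    · have B := hO.blk hk (Pos.of_Pz hx h)
      have h5 : ContinuousAt (yy k) x := (B.dy x B.hSS).continuousAt
      have h7 : ContinuousAt (fun t : ℝ => |t|) x := continuous_abs.continuousAt
      exact ContinuousAt.comp (g := yy k) (f := fun t : ℝ => |t|)
        (by rw [abs_of_pos h]; exact h5) h7
  · intro Y hY
    obtain ⟨R, hR0, hR, hpos⟩ := h3 k (by omega)
    have hPos : ∀ x, 0 < x → x < R → Pos k x := fun x hx hxR =>
      ⟨hx, fun t ht htx => hpos t ht (htx.trans_lt hxR)⟩
    -- some point where y ≥ Y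
    have hex : ∃ x, 0 < x ∧ x < R ∧ Y ≤ yy k x := by
      by_contra hcon
      push Not at hcon
      obtain ⟨n, hn⟩ := exists_nat_ge ((k : ℝ) * Y / 2)
      set g : ℝ → ℝ := fun x => x ^ n * F k 0 x with hg
      have hmono : MonotoneOn g (Icc (R / 2) R) := by
        apply monotoneOn_of_deriv_nonneg (convex_Icc _ _)
        · exact ((continuous_id.pow n).mul hO.smooth.continuous).continuousOn
        · intro x _
          exact ((hasDerivAt_pow n x).mul (hO.hd0 x)).differentiableAt.differentiableWithinAt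
        · intro x hx
          rw [interior_Icc] at hx
          have hx0 : 0 < x := by linarith [hx.1]
          have hd := (hasDerivAt_pow n x).mul (hO.hd0 x)
          have hd' : HasDerivAt g ((n : ℝ) * x ^ (n - 1) * F k 0 x + x ^ n * deriv (F k 0) x) x := hd
          rw [hd'.deriv]
          have hy := hcon x hx0 hx.2
          have hf : 0 < F k 0 x := hpos x hx0.le hx.2
          have h4 : -(x * deriv (F k 0) x) ≤ (n : ℝ) * F k 0 x := by
            have e : yy k x = 2 * (-(x * deriv (F k 0) x / F k 0 x)) / (k : ℝ) := rfl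
            rw [e, div_lt_iff₀ hk0] at hy
            have h5 : -(x * deriv (F k 0) x / F k 0 x) < n := by linarith
            have h6 : -(x * deriv (F k 0) x) / F k 0 x < n := by
              rw [neg_div]; exact h5
            rw [div_lt_iff₀ hf] at h6
            exact h6.le
          have h7 : 0 ≤ (n : ℝ) * F k 0 x + x * deriv (F k 0) x := by linarith
          rcases Nat.eq_zero_or_pos n with h0 | h0
          · have hn0 : (k : ℝ) * Y / 2 ≤ 0 := by rw [h0] at hn; simpa using hn
            have : 0 < (k : ℝ) * Y / 2 := by positivity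
            linarith
          · have e2 : x ^ n = x ^ (n - 1) * x := by
              rw [← pow_succ]; congr 1; omega
            rw [e2]
            have : (n : ℝ) * x ^ (n - 1) * F k 0 x + x ^ (n - 1) * x * deriv (F k 0) x =
              x ^ (n - 1) * ((n : ℝ) * F k 0 x + x * deriv (F k 0) x) := by ring
            rw [this]
            positivity
      have h4 := hmono (show R / 2 ∈ Icc (R / 2) R from ⟨le_rfl, by linarith⟩)
        (show R ∈ Icc (R / 2) R from ⟨by linarith, le_rfl⟩) (by linarith)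
      have h5 : 0 < g (R / 2) := by
        have := hpos (R / 2) (by linarith) (by linarith)
        rw [hg]
        positivity
      have h6 : g R = 0 := by rw [hg]; simp [hR]
      linarith
    obtain ⟨x, hx0, hxR, hxY⟩ := hex
    have B := hO.blk hk (hPos x hx0 hxR)
    obtain ⟨t, ht, hte⟩ := B.exists_y_eq B.hSS hY hxY
    exact ⟨t, hPos t ht.1 (ht.2.trans_lt hxR), hte⟩

/-! ## limits -/

theorem Lim1.fam (h1 : StmtSmooth) (h2 : StmtODE) {I : Type} {l : Filter I} {kk : I → ℕ}
    {x : I → ℝ} {a : ℝ} (h : Lim1 l kk x a) :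
    OneB.Fam l (fun i => (kk i : ℝ)) x (fun i => yy (kk i))
      (fun i t => 2 / (kk i : ℝ) * ee (kk i) t) a := by
  refine ⟨?_, tendsto_natCast_atTop_atTop.comp h.hk, h.hy⟩
  filter_upwards [h.hx, h.hk.eventually_ge_atTop 8] with i hx hk
  exact (OdeF.of h1 h2 (by omega : 1 ≤ kk i)).blk hk hx

theorem Lim1.ev8 {I : Type} {l : Filter I} {kk : I → ℕ} {x : I → ℝ} {a : ℝ}
    (h : Lim1 l kk x a) : ∀ᶠ i in l, 8 ≤ kk i := h.hk.eventually_ge_atTop 8

theorem t_G (h1 : StmtSmooth) (h2 : StmtODE) : StmtG := by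
  intro I l kk x a h
  refine (h.fam h1 h2).g_tendsto.congr' ?_
  filter_upwards [h.ev8] with i hi
  exact gf_eq hi

theorem t_T (h1 : StmtSmooth) (h2 : StmtODE) : StmtT := by
  intro I l kk x a h
  exact (h.fam h1 h2).T_tendsto

theorem t_R (h1 : StmtSmooth) (h2 : StmtODE) : StmtR := by
  intro I l kk x a h
  refine (h.fam h1 h2).r_tendsto.congr' ?_
  filter_upwards [h.ev8] with i hi
  rw [D2_eq hi, D1_eq]

theorem t_D12 (h1 : StmtSmooth) (h2 : StmtODE) : StmtD12 := by
  intro I l kk x a h
  refine (h.fam h1 h2).q_tendsto.congr' ?_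
  filter_upwards [h.ev8] with i hi
  rw [D2_eq hi, D1_eq]

theorem t_TD (h1 : StmtSmooth) (h2 : StmtODE) : StmtTD := by
  intro I l kk x a h
  refine (h.fam h1 h2).TD_tendsto.congr' ?_
  filter_upwards [h.ev8] with i hi
  rw [D1_eq, TT_eq]

theorem t_DE (h1 : StmtSmooth) (h2 : StmtODE) : StmtDE := by
  intro I l kk x a h
  have h3 := (h.fam h1 h2).De_tendsto
  have e : 2 * (OneB.up a - (1 - a)) = 2 * max (a - 1) 0 := by
    unfold OneB.up
    rcases le_total a 1 with h | h
    · rw [max_eq_left (by linarith), max_eq_right (by linarith)]; ring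
    · rw [max_eq_right (by linarith), max_eq_left (by linarith)]; ring
  rw [e] at h3
  refine h3.congr' ?_
  filter_upwards [h.ev8] with i hi
  rw [D2_eq hi]
  have hk0 : (kk i : ℝ) ≠ 0 := by
    have : (8 : ℝ) ≤ kk i := by exact_mod_cast hi
    intro h; linarith
  have e2 : (kk i : ℝ) / 2 * (2 / (kk i : ℝ) * ee (kk i) (x i)) = ee (kk i) (x i) := by
    field_simp
  rw [e2]

theorem t_Delta (h1 : StmtSmooth) (h2 : StmtODE) : StmtDelta := by
  intro I l kk x a h ha
  have h3 := (h.fam h1 h2).mh_tendsto ha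
  have e : OneB.Psi a = a * (1 + 2 * (1 - a) - (1 - a) ^ 2) / (1 - a) ^ 2 := by
    unfold OneB.Psi
    have : 1 - a ≠ 0 := by intro h; linarith
    field_simp
    ring
  rw [e] at h3
  refine h3.congr' ?_
  filter_upwards [h.ev8] with i hi
  exact De_eq hi

end Lq
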