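import Pool.Agent.Lq.AFin2
import Pool.Agent.Lq.AStar
import Pool.Agent.Lq.ABEig
import Pool.Agent.Lq.ACZ
import Pool.Agent.Lq.AEig
import Pool.Agent.Lq.ALap
import Pool.Agent.Lq.ANonc
import Pool.Agent.Lq.APull
import Pool.Agent.Lq.AZero
import Pool.Agent.Lq.JAll
import Pool.Agent.Lq.One9

/-!
# MP_61eda3_an: the final theorem from the three nodes `StmtLim`, `StmtOut`, `LQL.StmtThin2`
-/

set_option autoImplicit false

namespace Lq

theorem final_of3 (hLim : StmtLim) (hOut : StmtOut) (hThin : LQL.StmtThin2) : StmtFinal :=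
  final_of2 t_Blk t_CZ t_Star (t_Eig t_Blk t_DegA t_CZ t_Lap) t_Pull (t_Zero t_Blk)
    (t_Signs t_Smooth t_ODE) (t_Mono t_Smooth t_ODE (t_Zero t_Blk)) t_ODE (t_BEig t_Blk)
    (t_Nonc t_Blk) hLim hOut hThin

end Lq
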