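import Pool.Agent.Lq.StD

/-!
# Lindqvist: the contradiction principle (CMP)
-/

set_option autoImplicit false

open Filter Topology

namespace Lq

namespace CMP

theorem pz_zero {k : ℕ} {x : ℝ} (h : Pz k x) : Pz k 0 :=
  ⟨le_rfl, fun t h0 h1 => h.2 t h0 (h1.trans h.1)⟩

theorem yy_nonneg (hM : StmtMono) {k : ℕ} (hk : 8 ≤ k) {x : ℝ} (h : Pz k x) : 0 ≤ yy k x := by
  obtain ⟨h0, h1, -⟩ := hM k hk
  rcases h.1.eq_or_lt with hx | hx
  · rw [← hx, h0]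
  · have := h1 0 x (pz_zero h) h hx
    rw [h0] at this
    exact this.le

/-- A sequence which is eventually in `[0, b]` has a limit along an ultrafilter. -/
theorem exists_lim (l : Ultrafilter ℕ) (b : ℝ) (f : ℕ → ℝ)
    (h : ∀ᶠ k in (l : Filter ℕ), f k ∈ Set.Icc 0 b) :
    ∃ a ∈ Set.Icc (0 : ℝ) b, Tendsto f (l : Filter ℕ) (𝓝 a) := by
  have h1 : ((l.map f : Ultrafilter ℝ) : Filter ℝ) ≤ 𝓟 (Set.Icc 0 b) := by
    rw [le_principal_iff]
    exact h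
  obtain ⟨a, ha, ha'⟩ := isCompact_Icc.ultrafilter_le_nhds (l.map f) h1
  exact ⟨a, ha, ha'⟩

end CMP

theorem t_Comp (hM : StmtMono) : StmtComp := by
  intro b P _ H
  by_contra hne
  rw [Filter.not_eventually, Filter.frequently_iff_neBot] at hne
  set S : Set ℕ := {k : ℕ | ¬ ∀ x1 x2 : ℝ, Pz k x1 → Pz (4 * k) x2 → yy k x1 ≤ b →
    yy (4 * k) x2 ≤ b → P k x1 x2} with hS
  have hex : ∀ k : ℕ, ∃ x1 x2 : ℝ, k ∈ S → (Pz k x1 ∧ Pz (4 * k) x2 ∧ yy k x1 ≤ b ∧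
      yy (4 * k) x2 ≤ b ∧ ¬ P k x1 x2) := by
    intro k
    by_cases hk : k ∈ S
    · have hk' := hk
      rw [hS, Set.mem_setOf_eq] at hk'
      push Not at hk'
      obtain ⟨x1, x2, h1, h2, h3, h4, h5⟩ := hk'
      exact ⟨x1, x2, fun _ => ⟨h1, h2, h3, h4, h5⟩⟩
    · exact ⟨0, 0, fun h => absurd h hk⟩
  choose x1 x2 hx using hex
  have hle := Ultrafilter.of_le (atTop ⊓ 𝓟 S)
  set l : Ultrafilter ℕ := Ultrafilter.of (atTop ⊓ 𝓟 S) with hl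
  have hle1 : (l : Filter ℕ) ≤ atTop := hle.trans inf_le_left
  have hle2 : ∀ᶠ k in (l : Filter ℕ), k ∈ S := by
    have : (l : Filter ℕ) ≤ 𝓟 S := hle.trans inf_le_right
    exact le_principal_iff.mp this
  have hev : ∀ᶠ k in (l : Filter ℕ), 8 ≤ k := hle1 (eventually_ge_atTop 8)
  have hall : ∀ᶠ k in (l : Filter ℕ), 8 ≤ k ∧ Pz k (x1 k) ∧ Pz (4 * k) (x2 k) ∧
      yy k (x1 k) ≤ b ∧ yy (4 * k) (x2 k) ≤ b ∧ ¬ P k (x1 k) (x2 k) := by
    filter_upwards [hev, hle2] with k h1 h2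
    exact ⟨h1, hx k h2⟩
  obtain ⟨a1, ha1, ht1⟩ := CMP.exists_lim l b (fun k => yy k (x1 k)) (by
    filter_upwards [hall] with k hk
    exact ⟨CMP.yy_nonneg hM hk.1 hk.2.1, hk.2.2.2.1⟩)
  obtain ⟨a2, ha2, ht2⟩ := CMP.exists_lim l b (fun k => yy (4 * k) (x2 k)) (by
    filter_upwards [hall] with k hk
    exact ⟨CMP.yy_nonneg hM (by omega) hk.2.2.1, hk.2.2.2.2.1⟩)
  have h4 : Tendsto (fun i : ℕ => 4 * i) (l : Filter ℕ) atTop := by
    have : Tendsto (fun i : ℕ => 4 * i) atTop atTop :=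
      tendsto_atTop_mono (fun n => by simp only [id]; omega) tendsto_id
    exact this.mono_left hle1
  refine H l x1 x2 a1 a2 ⟨⟨?_, ?_, ht1⟩, ⟨h4, ?_, ht2⟩⟩ ?_ ha1.1 ha1.2 ha2.1 ha2.2
  · exact tendsto_id.mono_left hle1
  · filter_upwards [hall] with k hk
    exact hk.2.1
  · filter_upwards [hall] with k hk
    exact hk.2.2.1
  · filter_upwards [hall] with k hk
    exact hk.2.2.2

end Lq
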