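import Pool.Agent.Lq.StD

set_option autoImplicit false

open Filter Topology

namespace Lq

namespace DF46

lemma bad_open {ks th a1 a2 : ℝ} (hks : 0 < ks) (h : ¬ bad ks th a1 a2) :
    ∀ᶠ p : ℝ × ℝ in 𝓝 (a1, a2), ¬ bad ks th p.1 p.2 := by
  by_cases h1 : a1 < 1 + ks
  · have h2 : ∀ᶠ p : ℝ × ℝ in 𝓝 (a1, a2), p.1 < 1 + ks :=
      (continuous_fst.tendsto (a1, a2)).eventually_lt_const h1
    filter_upwards [h2] with p hp hbad
    exact absurd hbad.1 (not_le.2 hp)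
  by_cases h2 : a2 < 1 + ks
  · have h3 : ∀ᶠ p : ℝ × ℝ in 𝓝 (a1, a2), p.2 < 1 + ks :=
      (continuous_snd.tendsto (a1, a2)).eventually_lt_const h2
    filter_upwards [h3] with p hp hbad
    exact absurd hbad.2.1 (not_le.2 hp)
  have h1' : 1 + ks ≤ a1 := not_lt.1 h1
  have h2' : 1 + ks ≤ a2 := not_lt.1 h2
  have h3 : th < 1 / (a1 - 1) + 1 / (a2 - 1) := by
    by_contra hcon
    exact h ⟨h1', h2', not_lt.1 hcon⟩
  have hc : Tendsto (fun p : ℝ × ℝ => 1 / (p.1 - 1) + 1 / (p.2 - 1)) (𝓝 (a1, a2))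
      (𝓝 (1 / (a1 - 1) + 1 / (a2 - 1))) := by
    have e1 : Tendsto (fun p : ℝ × ℝ => p.1 - 1) (𝓝 (a1, a2)) (𝓝 (a1 - 1)) :=
      (continuous_fst.tendsto (a1, a2)).sub_const 1
    have e2 : Tendsto (fun p : ℝ × ℝ => p.2 - 1) (𝓝 (a1, a2)) (𝓝 (a2 - 1)) :=
      (continuous_snd.tendsto (a1, a2)).sub_const 1
    have n1 : a1 - 1 ≠ 0 := by
      have : 0 < a1 - 1 := by linarith
      exact this.ne'
    have n2 : a2 - 1 ≠ 0 := by
      have : 0 < a2 - 1 := by linarith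
      exact this.ne'
    exact (tendsto_const_nhds.div e1 n1).add (tendsto_const_nhds.div e2 n2)
  filter_upwards [hc.eventually_const_lt h3] with p hp hbad
  exact absurd hbad.2.2 (not_le.2 hp)

lemma badS_open {ks th a1 a2 : ℝ} (hks : 0 < ks) (h : badS ks th a1 a2) :
    ∀ᶠ p : ℝ × ℝ in 𝓝 (a1, a2), badS ks th p.1 p.2 := by
  obtain ⟨h1, h2, h3⟩ := h
  have hc : Tendsto (fun p : ℝ × ℝ => 1 / (p.1 - 1) + 1 / (p.2 - 1)) (𝓝 (a1, a2))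
      (𝓝 (1 / (a1 - 1) + 1 / (a2 - 1))) := by
    have e1 : Tendsto (fun p : ℝ × ℝ => p.1 - 1) (𝓝 (a1, a2)) (𝓝 (a1 - 1)) :=
      (continuous_fst.tendsto (a1, a2)).sub_const 1
    have e2 : Tendsto (fun p : ℝ × ℝ => p.2 - 1) (𝓝 (a1, a2)) (𝓝 (a2 - 1)) :=
      (continuous_snd.tendsto (a1, a2)).sub_const 1
    have n1 : a1 - 1 ≠ 0 := by
      have : 0 < a1 - 1 := by linarith
      exact this.ne'
    have n2 : a2 - 1 ≠ 0 := by
      have : 0 < a2 - 1 := by linarith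
      exact this.ne'
    exact (tendsto_const_nhds.div e1 n1).add (tendsto_const_nhds.div e2 n2)
  have g1 : ∀ᶠ p : ℝ × ℝ in 𝓝 (a1, a2), 1 + ks < p.1 :=
    (continuous_fst.tendsto (a1, a2)).eventually_const_lt h1
  have g2 : ∀ᶠ p : ℝ × ℝ in 𝓝 (a1, a2), 1 + ks < p.2 :=
    (continuous_snd.tendsto (a1, a2)).eventually_const_lt h2
  filter_upwards [g1, g2, hc.eventually_lt_const h3] with p p1 p2 p3
  exact ⟨p1, p2, p3⟩

lemma badS_bad {ks th a1 a2 : ℝ} (h : badS ks th a1 a2) : bad ks th a1 a2 :=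
  ⟨h.1.le, h.2.1.le, h.2.2.le⟩

end DF46

open DF46 in
theorem t_DF46 (hL : StmtLev) (hW : StmtWF) : StmtDF := by
  intro k d c b ks th hk hb hks
  obtain ⟨r1, L1⟩ := hL k b hk hb
  obtain ⟨r2, L2⟩ := hL (4 * k) b (by omega) hb
  have hWc : Continuous (W k d c) := (hW k d c (by omega)).smooth.continuous
  have hy : ∀ x : ℝ × ℝ, |x.1| ≤ r1 → |x.2| ≤ r2 →
      Tendsto (fun z : ℝ × ℝ => (yy k |z.1|, yy (4 * k) |z.2|)) (𝓝 x)
        (𝓝 (yy k |x.1|, yy (4 * k) |x.2|)) := by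
    intro x h1 h2
    have e1 : Tendsto (fun z : ℝ × ℝ => yy k |z.1|) (𝓝 x) (𝓝 (yy k |x.1|)) :=
      (L1.cont x.1 h1).tendsto.comp (continuous_fst.tendsto x)
    have e2 : Tendsto (fun z : ℝ × ℝ => yy (4 * k) |z.2|) (𝓝 x) (𝓝 (yy (4 * k) |x.2|)) :=
      (L2.cont x.2 h2).tendsto.comp (continuous_snd.tendsto x)
    exact e1.prodMk_nhds e2
  have hmem : ∀ x : ℝ × ℝ, x ∈ D0 k d c b ks th ↔ |x.1| < r1 ∧ |x.2| < r2 ∧ 0 < W k d c x ∧
      ¬ bad ks th (yy k |x.1|) (yy (4 * k) |x.2|) := by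
    intro x
    constructor
    · rintro ⟨a1, a2, a3, a4, a5, a6⟩
      exact ⟨(L1.lt_iff x.1).1 ⟨a1, a3⟩, (L2.lt_iff x.2).1 ⟨a2, a4⟩, a5, a6⟩
    · rintro ⟨a1, a2, a5, a6⟩
      obtain ⟨a1', a3⟩ := (L1.lt_iff x.1).2 a1
      obtain ⟨a2', a4⟩ := (L2.lt_iff x.2).2 a2
      exact ⟨a1', a2', a3, a4, a5, a6⟩
  have hop : IsOpen (D0 k d c b ks th) := by
    rw [isOpen_iff_mem_nhds]
    intro x hx
    obtain ⟨a1, a2, a5, a6⟩ := (hmem x).1 hx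
    have g1 : ∀ᶠ z : ℝ × ℝ in 𝓝 x, |z.1| < r1 :=
      ((continuous_abs.comp continuous_fst).tendsto x).eventually_lt_const a1
    have g2 : ∀ᶠ z : ℝ × ℝ in 𝓝 x, |z.2| < r2 :=
      ((continuous_abs.comp continuous_snd).tendsto x).eventually_lt_const a2
    have g3 : ∀ᶠ z : ℝ × ℝ in 𝓝 x, 0 < W k d c z := (hWc.tendsto x).eventually_const_lt a5
    have g4 : ∀ᶠ z : ℝ × ℝ in 𝓝 x, ¬ bad ks th (yy k |z.1|) (yy (4 * k) |z.2|) :=
      (hy x a1.le a2.le).eventually (bad_open hks a6)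
    filter_upwards [g1, g2, g3, g4] with z z1 z2 z3 z4
    exact (hmem z).2 ⟨z1, z2, z3, z4⟩
  refine ⟨hop, ?_, ?_, ?_⟩
  · have hsub : D0 k d c b ks th ⊆ Set.Icc (-r1) r1 ×ˢ Set.Icc (-r2) r2 := by
      intro x hx
      obtain ⟨a1, a2, _, _⟩ := (hmem x).1 hx
      exact ⟨abs_le.1 a1.le, abs_le.1 a2.le⟩
    exact ((isCompact_Icc.prod isCompact_Icc).isBounded).subset hsub
  · intro x hx
    have hcl : IsClosed {z : ℝ × ℝ | |z.1| ≤ r1 ∧ |z.2| ≤ r2 ∧ 0 ≤ W k d c z} := by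
      refine (isClosed_le (continuous_abs.comp continuous_fst) continuous_const).inter
        ((isClosed_le (continuous_abs.comp continuous_snd) continuous_const).inter
          (isClosed_le continuous_const hWc))
    have hsub : D0 k d c b ks th ⊆ {z : ℝ × ℝ | |z.1| ≤ r1 ∧ |z.2| ≤ r2 ∧ 0 ≤ W k d c z} := by
      intro z hz
      obtain ⟨a1, a2, a3, _⟩ := (hmem z).1 hz
      exact ⟨a1.le, a2.le, a3.le⟩
    obtain ⟨c1, c2, c3⟩ := closure_minimal hsub hcl hx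
    obtain ⟨p1, q1⟩ := (L1.le_iff x.1).2 c1
    obtain ⟨p2, q2⟩ := (L2.le_iff x.2).2 c2
    refine ⟨p1, p2, q1, q2, c3, ?_⟩
    intro hbS
    have hev : ∀ᶠ z : ℝ × ℝ in 𝓝 x, badS ks th (yy k |z.1|) (yy (4 * k) |z.2|) :=
      (hy x c1 c2).eventually (badS_open hks hbS)
    obtain ⟨z, hz1, hz2⟩ := mem_closure_iff_nhds.1 hx _ hev
    exact ((hmem z).1 hz2).2.2.2 (badS_bad hz1)
  · have hd : Dense ({z : ℝ × ℝ | 0 < |z.1| ∧ 0 < |z.2|}) := by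
      have h1 : Dense ({(0 : ℝ)}ᶜ : Set ℝ) := dense_compl_singleton 0
      have h2 : Dense (({(0 : ℝ)}ᶜ : Set ℝ) ×ˢ ({(0 : ℝ)}ᶜ : Set ℝ)) := h1.prod h1
      have h3 : (({(0 : ℝ)}ᶜ : Set ℝ) ×ˢ ({(0 : ℝ)}ᶜ : Set ℝ)) ⊆
          {z : ℝ × ℝ | 0 < |z.1| ∧ 0 < |z.2|} := by
        rintro z ⟨z1, z2⟩
        exact ⟨abs_pos.2 z1, abs_pos.2 z2⟩
      exact h2.mono h3
    have h4 := hd.open_subset_closure_inter hop
    exact closure_minimal h4 isClosed_closure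

end Lq
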