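import Pool.Agent.Lq.StD

/-!
# `t_J0z`: `StmtJ0` with `x = 0` allowed
-/

set_option autoImplicit false

open Filter Topology

namespace Lq

namespace J0Z

lemma yy_zero (k : ℕ) : yy k 0 = 0 := by
  simp [yy, X]

lemma La_succ_zero (k i : ℕ) : La k (i + 1) 0 = 0 := by
  show -(4 / (k : ℝ)) * 0 * deriv (La k i) 0 = 0
  ring

lemma F_succ_zero (k i : ℕ) : F k (i + 1) 0 = 0 := by
  have h : F k (i + 1) 0 = La k (i + 1) ((0 : ℝ) ^ 2) := rfl
  rw [h, zero_pow (by norm_num), La_succ_zero]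

lemma j0_zero (k : ℕ) (h : F k 0 0 = 1) (i : ℕ) : j0 k i 0 = t0 i 0 := by
  have h0 : t0 i 0 = (0 : ℝ) ^ i := by
    unfold t0
    rw [if_pos zero_le_one]
  rw [h0]
  unfold j0
  rw [h]
  cases i with
  | zero => rw [h]; simp
  | succ j => rw [F_succ_zero]; simp

lemma lim_ultra (hJ : StmtJ0) (hO : StmtODE) {I : Type} (U : Ultrafilter I) (kk : I → ℕ)
    (x : I → ℝ) (a : ℝ) (i : ℕ) (h : Lim0 (U : Filter I) kk x a) :
    Tendsto (fun n => j0 (kk n) i (x n)) (U : Filter I) (𝓝 (t0 i a)) := by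
  have hk := h.hk
  have hx := h.hx
  have hy := h.hy
  have hor : ∀ᶠ n in (U : Filter I), 0 < x n ∨ x n = 0 := by
    filter_upwards [hx] with n hn
    rcases lt_or_eq_of_le hn.1 with h1 | h1
    · exact Or.inl h1
    · exact Or.inr h1.symm
  rcases Ultrafilter.eventually_or.1 hor with hp | hz
  · refine hJ I (U : Filter I) kk x a i ⟨hk, ?_, hy⟩
    filter_upwards [hx, hp] with n hn hn'
    exact ⟨hn', hn.2⟩
  · have hy0 : Tendsto (fun n => yy (kk n) (x n)) (U : Filter I) (𝓝 0) := by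
      refine Tendsto.congr' ?_ tendsto_const_nhds
      filter_upwards [hz] with n hn
      rw [hn, yy_zero]
    have ha : a = 0 := tendsto_nhds_unique hy hy0
    subst ha
    refine Tendsto.congr' ?_ tendsto_const_nhds
    filter_upwards [hz, hk.eventually_ge_atTop 1] with n hn hn'
    rw [hn]
    exact (j0_zero (kk n) (hO (kk n) hn').1 i).symm

end J0Z

theorem t_J0z (hJ : StmtJ0) (hO : StmtODE) : StmtJ0z := by
  intro I l kk x a i h
  rw [tendsto_iff_ultrafilter]
  intro U hU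
  exact J0Z.lim_ultra hJ hO U kk x a i
    ⟨h.hk.mono_left hU, h.hx.filter_mono hU, h.hy.mono_left hU⟩

end Lq
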