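import Pool.Agent.Lq.StD

/-!
# Limits of the two block jets (module LQD_JL)
-/

set_option autoImplicit false

open Filter Topology

namespace Lq

namespace JL

/-- entrywise limits give the limit of `JJ` -/
theorem tendsto_JJ {I : Type} {l : Filter I} (d : ℕ) (C : I → ℕ → ℕ → ℝ) (A B : I → ℕ → ℝ)
    (C' : ℕ → ℕ → ℝ) (A' B' : ℕ → ℝ)
    (hC : ∀ i j, Tendsto (fun n => C n i j) l (𝓝 (C' i j)))
    (hA : ∀ i, Tendsto (fun n => A n i) l (𝓝 (A' i)))
    (hB : ∀ j, Tendsto (fun n => B n j) l (𝓝 (B' j))) :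
    Tendsto (fun n => JJ d (C n) (A n) (B n)) l (𝓝 (JJ d C' A' B')) := by
  unfold JJ
  apply tendsto_finsetSum
  intro i _
  apply tendsto_finsetSum
  intro j _
  exact ((hC i j).mul (hA i)).mul (hB j)

theorem JJ_smul (r : ℝ) (d : ℕ) (c : ℕ → ℕ → ℝ) (A B : ℕ → ℝ) :
    r * JJ d c A B = JJ d (fun i j => r * c i j) A B := by
  unfold JJ
  rw [Finset.mul_sum]
  apply Finset.sum_congr rfl
  intro i _
  rw [Finset.mul_sum]
  apply Finset.sum_congr rfl
  intro j _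
  ring

/-- `Lim1` from `Lim0` away from the origin -/
theorem lim1_of_lim0 {I : Type} {l : Filter I} {kk : I → ℕ} {x : I → ℝ} {a : ℝ}
    (h : Lim0 l kk x a) (hx : ∀ᶠ n in l, 0 < x n) : Lim1 l kk x a where
  hk := h.hk
  hx := by
    filter_upwards [h.hx, hx] with n h1 h2
    exact ⟨h2, h1.2⟩
  hy := h.hy

end JL

theorem t_JL (hZ : StmtJ0z) (h1 : StmtJ1) (hL : StmtLop) : StmtJetLim := by
  intro I l kk x1 x2 a1 a2 d c h hd
  have hA0 : ∀ i, Tendsto (fun n => j0 (kk n) i (x1 n)) l (𝓝 (t0 i a1)) :=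
    fun i => hZ I l kk x1 a1 i h.h1
  have hB0 : ∀ j, Tendsto (fun n => j0 (4 * kk n) j (x2 n)) l (𝓝 (t0 j a2)) :=
    fun j => hZ I l (fun i => 4 * kk i) x2 a2 j h.h2
  refine ⟨?_, ?_, ?_, ?_⟩
  · exact JL.tendsto_JJ d (fun _ => c) (fun n i => j0 (kk n) i (x1 n))
      (fun n j => j0 (4 * kk n) j (x2 n)) c (fun i => t0 i a1) (fun j => t0 j a2)
      (fun i j => tendsto_const_nhds) hA0 hB0
  · have key := JL.tendsto_JJ d (fun n i j => (kk n : ℝ) / 4 * Dop (kk n) d c i j)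
      (fun n i => j0 (kk n) i (x1 n))
      (fun n j => j0 (4 * kk n) j (x2 n)) (Lop c) (fun i => t0 i a1) (fun j => t0 j a2)
      (fun i j => (hL d c i j hd).comp h.h1.hk) hA0 hB0
    have e : (fun n => (kk n : ℝ) / 4 * (kJet (kk n) d (Dop (kk n) d c) (x1 n) (x2 n)).s)
        = (fun n => JJ d (fun i j => (kk n : ℝ) / 4 * Dop (kk n) d c i j)
            (fun i => j0 (kk n) i (x1 n)) (fun j => j0 (4 * kk n) j (x2 n))) := by
      funext n
      exact JL.JJ_smul _ d _ _ _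
    rw [e]
    exact key
  · intro hx
    have hA1 : ∀ i, Tendsto (fun n => j1 (kk n) i (x1 n)) l (𝓝 (t1 i a1)) :=
      fun i => h1 I l kk x1 a1 i (JL.lim1_of_lim0 h.h1 hx)
    exact JL.tendsto_JJ d (fun _ => c) (fun n i => j1 (kk n) i (x1 n))
      (fun n j => j0 (4 * kk n) j (x2 n)) c (fun i => t1 i a1) (fun j => t0 j a2)
      (fun i j => tendsto_const_nhds) hA1 hB0
  · intro hx
    have hB1 : ∀ j, Tendsto (fun n => j1 (4 * kk n) j (x2 n)) l (𝓝 (t1 j a2)) :=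
      fun j => h1 I l (fun i => 4 * kk i) x2 a2 j (JL.lim1_of_lim0 h.h2 hx)
    exact JL.tendsto_JJ d (fun _ => c) (fun n i => j0 (kk n) i (x1 n))
      (fun n j => j1 (4 * kk n) j (x2 n)) c (fun i => t0 i a1) (fun j => t1 j a2)
      (fun i j => tendsto_const_nhds) hA0 hB1

end Lq
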