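import Pool.Agent.Lq.StD

/-!
# LQD_TOP: the topological half of `StmtOut` (section 4.7 of PAPER.md)
-/

set_option autoImplicit false

open Filter Topology

namespace Lq

namespace TOP

lemma Pz_zero (hO : StmtODE) (k : ℕ) (hk : 1 ≤ k) : Pz k 0 := by
  refine ⟨le_refl 0, ?_⟩
  intro t h0 h1
  have ht : t = 0 := le_antisymm h1 h0
  rw [ht, (hO k hk).1]
  exact one_pos

lemma Pz_F {k : ℕ} {x : ℝ} (h : Pz k x) : 0 < F k 0 x := h.2 x h.1 (le_refl x)

lemma t0_zero (i : ℕ) : t0 i 0 = if i = 0 then 1 else 0 := by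
  have h1 : (0 : ℝ) ≤ 1 := zero_le_one
  unfold t0
  rw [if_pos h1]
  by_cases hi : i = 0
  · rw [hi]; simp
  · rw [if_neg hi]
    exact zero_pow hi

lemma limJet_zero (d : ℕ) (c : ℕ → ℕ → ℝ) : (limJet d c 0 0).s = c 0 0 := by
  have h : (limJet d c 0 0).s = JJ d c (fun i => t0 i 0) (fun j => t0 j 0) := rfl
  rw [h]
  unfold JJ
  rw [Finset.sum_eq_single 0, Finset.sum_eq_single 0]
  · show c 0 0 * t0 0 0 * t0 0 0 = c 0 0
    rw [t0_zero]; simp
  · intro j _ hj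
    show c 0 j * t0 0 0 * t0 j 0 = 0
    rw [t0_zero j, if_neg hj, mul_zero]
  · intro h0
    exact absurd (Finset.mem_range.mpr (Nat.succ_pos d)) h0
  · intro i _ hi
    apply Finset.sum_eq_zero
    intro j _
    show c i j * t0 i 0 * t0 j 0 = 0
    rw [t0_zero i, if_neg hi, mul_zero, zero_mul]
  · intro h0
    exact absurd (Finset.mem_range.mpr (Nat.succ_pos d)) h0

/-- a point with `1 + ks <= y_i`, `sum <= th`, not `badS`: then `sum = th` -/
lemma sum_eq (ks th y1 y2 : ℝ) (hks : 0 < ks) (hth : th < 1 / ks) (hb : bad ks th y1 y2)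
    (hn : ¬ badS ks th y1 y2) : 1 / (y1 - 1) + 1 / (y2 - 1) = th := by
  obtain ⟨h1, h2, h3⟩ := hb
  have p1 : 0 < 1 / (y1 - 1) := by
    apply one_div_pos.mpr; linarith
  have p2 : 0 < 1 / (y2 - 1) := by
    apply one_div_pos.mpr; linarith
  have n1 : y1 ≠ 1 + ks := by
    intro e
    have : y1 - 1 = ks := by linarith
    rw [this] at h3
    linarith
  have n2 : y2 ≠ 1 + ks := by
    intro e
    have : y2 - 1 = ks := by linarith
    rw [this] at h3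
    linarith
  have s1 : 1 + ks < y1 := lt_of_le_of_ne h1 (Ne.symm n1)
  have s2 : 1 + ks < y2 := lt_of_le_of_ne h2 (Ne.symm n2)
  refine le_antisymm h3 ?_
  by_contra hlt
  exact hn ⟨s1, s2, not_le.mp hlt⟩

end TOP

open TOP in
theorem t_Top (hM : StmtMono) (hO : StmtODE) (hS : StmtSigns) (hL : StmtLev) (hW : StmtWF)
    (hG : StmtWG) (hU1 : StmtUnif1) (hU2 : StmtUnif2) (hD : StmtDF) : StmtTop := by
  intro d c b ks th hLim
  filter_upwards [hU1 d c b ks th hLim, hU2 d c b ks th hLim, eventually_ge_atTop 8]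
    with k u1 u2 hk
  have hks : 0 < ks := hLim.hks
  have hb : 0 < b := by linarith [hLim.hb]
  have D := hD k d c b ks th hk hb hks
  have hk1 : 1 ≤ k := by omega
  have hk4 : 1 ≤ 4 * k := by omega
  have hk8 : 8 ≤ 4 * k := by omega
  have Wc := hW k d c hk1
  have Wq := hW k d (Dop k d c) hk1
  refine ⟨⟨D.op, D.bd, ?_, fun x hx => (D.clos x hx).2.2.2.2.1, ?_, ?_⟩, D⟩
  · -- zero
    have e0 : |(0 : ℝ × ℝ).1| = 0 := by simp
    have e1 : |(0 : ℝ × ℝ).2| = 0 := by simp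
    have y0 : yy k 0 = 0 := (hM k hk).1
    have y1 : yy (4 * k) 0 = 0 := (hM (4 * k) hk8).1
    show Pz k |(0 : ℝ × ℝ).1| ∧ Pz (4 * k) |(0 : ℝ × ℝ).2| ∧ yy k |(0 : ℝ × ℝ).1| < b ∧
      yy (4 * k) |(0 : ℝ × ℝ).2| < b ∧ 0 < W k d c 0 ∧
      ¬ bad ks th (yy k |(0 : ℝ × ℝ).1|) (yy (4 * k) |(0 : ℝ × ℝ).2|)
    rw [e0, e1, y0, y1, Wc.zero]
    refine ⟨Pz_zero hO k hk1, Pz_zero hO (4 * k) hk4, hb, hb, ?_, ?_⟩
    · have h := hLim.pos 0 0 (le_refl 0) zero_le_one (le_refl 0) zero_le_one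
      rw [limJet_zero] at h
      exact h
    · rintro ⟨h, -, -⟩
      linarith
  · -- front
    intro x hx hn
    obtain ⟨q1, q2, q3, q4, q5, q6⟩ := D.clos x hx
    by_contra hne
    have hpos : 0 < W k d c x := lt_of_le_of_ne q5 (Ne.symm hne)
    have f1 : 0 < F k 0 |x.1| := Pz_F q1
    have f2 : 0 < F (4 * k) 0 |x.2| := Pz_F q2
    have hfac := Wc.fac |x.1| |x.2| (ne_of_gt f1) (ne_of_gt f2)
    have hs : 0 < (kJet k d c |x.1| |x.2|).s := by
      rw [Wc.even x, hfac] at hpos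
      exact (mul_pos_iff_of_pos_left (mul_pos f1 f2)).mp hpos
    have n1 : yy k |x.1| ≠ b := fun e =>
      q6 (u1.box |x.1| |x.2| q1 q2 q3 q4 (Or.inl e) hs.le)
    have n2 : yy (4 * k) |x.2| ≠ b := fun e =>
      q6 (u1.box |x.1| |x.2| q1 q2 q3 q4 (Or.inr e) hs.le)
    have l1 : yy k |x.1| < b := lt_of_le_of_ne q3 n1
    have l2 : yy (4 * k) |x.2| < b := lt_of_le_of_ne q4 n2
    have hbad : bad ks th (yy k |x.1|) (yy (4 * k) |x.2|) := by
      by_contra hnb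
      exact hn ⟨q1, q2, l1, l2, hpos, hnb⟩
    have hsum := sum_eq ks th _ _ hks hLim.hthks hbad q6
    have hneg := u1.line |x.1| |x.2| q1 q2 q3 q4 hbad.1 hbad.2.1 hsum
    exact absurd hs (not_lt.mpr hneg.le)
  · -- grad
    intro x hx h0
    obtain ⟨q1, q2, q3, q4, q5, q6⟩ := D.clos x hx
    have f1 : 0 < F k 0 |x.1| := Pz_F q1
    have f2 : 0 < F (4 * k) 0 |x.2| := Pz_F q2
    have hfac := Wc.fac |x.1| |x.2| (ne_of_gt f1) (ne_of_gt f2)
    have hs : (kJet k d c |x.1| |x.2|).s = 0 := by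
      have h1 : F k 0 |x.1| * F (4 * k) 0 |x.2| * (kJet k d c |x.1| |x.2|).s = 0 := by
        rw [← hfac, ← Wc.even x, h0]
      exact (mul_eq_zero.mp h1).resolve_left (ne_of_gt (mul_pos f1 f2))
    constructor
    · rcases u2.grad |x.1| |x.2| q1 q2 q3 q4 hs q6 with ⟨g1, g2⟩ | ⟨g1, g2⟩
      · refine ⟨(1, 0), (hG k d c x hk1 (ne_of_gt f1) (ne_of_gt f2) h0).1 g1 ?_ (ne_of_lt g2)⟩
        exact ne_of_gt (hS k |x.1| hk ⟨g1, q1.2⟩).d1
      · refine ⟨(0, 1), (hG k d c x hk1 (ne_of_gt f1) (ne_of_gt f2) h0).2 g1 ?_ (ne_of_lt g2)⟩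
        exact ne_of_gt (hS (4 * k) |x.2| hk8 ⟨g1, q2.2⟩).d1
    · rw [Wq.even x, Wq.fac |x.1| |x.2| (ne_of_gt f1) (ne_of_gt f2)]
      exact mul_pos (mul_pos f1 f2) (u2.qpos |x.1| |x.2| q1 q2 q3 q4 hs q6)

end Lq
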