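import Pool.Agent.Lq.StD

/-!
# Module LQD_UN1: the uniform statements `box` and `line`
-/

set_option autoImplicit false

open Filter Topology

namespace Lq

namespace UN1

/-- `badS` is an open condition. -/
theorem badS_eventually {l : Filter ℕ} {u v : ℕ → ℝ} {a1 a2 ks th : ℝ} (hks : 0 < ks)
    (hu : Tendsto u l (𝓝 a1)) (hv : Tendsto v l (𝓝 a2)) (h : badS ks th a1 a2) :
    ∀ᶠ k in l, badS ks th (u k) (v k) := by
  obtain ⟨h1, h2, h3⟩ := h
  have n1 : a1 - 1 ≠ 0 := by linarith
  have n2 : a2 - 1 ≠ 0 := by linarith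
  have t1 : Tendsto (fun k => 1 / (u k - 1)) l (𝓝 (1 / (a1 - 1))) :=
    tendsto_const_nhds.div (hu.sub_const 1) n1
  have t2 : Tendsto (fun k => 1 / (v k - 1)) l (𝓝 (1 / (a2 - 1))) :=
    tendsto_const_nhds.div (hv.sub_const 1) n2
  filter_upwards [hu.eventually_const_lt h1, hv.eventually_const_lt h2,
    (t1.add t2).eventually_lt_const h3] with k k1 k2 k3
  exact ⟨k1, k2, k3⟩

end UN1

open UN1 in
theorem t_Unif1 (hC : StmtComp) (hJ : StmtJetLim) : StmtUnif1 := by
  intro d c b ks th hL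
  have hb : 0 < b := by linarith [hL.hb, hL.hks]
  have hbox := hC b (fun k x1 x2 => (yy k x1 = b ∨ yy (4 * k) x2 = b) →
    0 ≤ (kJet k d c x1 x2).s → badS ks th (yy k x1) (yy (4 * k) x2)) hb (by
      intro l x1 x2 a1 a2 hlim hev h01 h1b h02 h2b
      have J := (hJ ℕ (l : Filter ℕ) (fun k => k) x1 x2 a1 a2 d c hlim hL.hdeg).1
      have hy1 : Tendsto (fun k => yy k (x1 k)) (l : Filter ℕ) (𝓝 a1) := hlim.h1.hy
      have hy2 : Tendsto (fun k => yy (4 * k) (x2 k)) (l : Filter ℕ) (𝓝 a2) := hlim.h2.hy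
      have hs : ∀ᶠ k in (l : Filter ℕ), 0 ≤ (kJet k d c (x1 k) (x2 k)).s := by
        filter_upwards [hev] with k hk
        have h := hk.2.2
        push Not at h
        exact h.2.1
      have hnb : ∀ᶠ k in (l : Filter ℕ), ¬ badS ks th (yy k (x1 k)) (yy (4 * k) (x2 k)) := by
        filter_upwards [hev] with k hk
        have h := hk.2.2
        push Not at h
        exact h.2.2
      have hor : ∀ᶠ k in (l : Filter ℕ), yy k (x1 k) = b ∨ yy (4 * k) (x2 k) = b := by
        filter_upwards [hev] with k hk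
        have h := hk.2.2
        push Not at h
        exact h.1
      have hab : a1 = b ∨ a2 = b := by
        rcases Ultrafilter.eventually_or.1 hor with h | h
        · left
          exact tendsto_nhds_unique hy1 (tendsto_const_nhds.congr' (h.mono fun k hk => hk.symm))
        · right
          exact tendsto_nhds_unique hy2 (tendsto_const_nhds.congr' (h.mono fun k hk => hk.symm))
      have hsl : 0 ≤ (limJet d c a1 a2).s := ge_of_tendsto J hs
      have hbad := hL.box a1 a2 h01 h1b h02 h2b hab hsl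
      obtain ⟨k, hk1, hk2⟩ := ((badS_eventually hL.hks hy1 hy2 hbad).and hnb).exists
      exact hk2 hk1)
  have hline := hC b (fun k x1 x2 => 1 + ks ≤ yy k x1 → 1 + ks ≤ yy (4 * k) x2 →
    1 / (yy k x1 - 1) + 1 / (yy (4 * k) x2 - 1) = th → (kJet k d c x1 x2).s < 0) hb (by
      intro l x1 x2 a1 a2 hlim hev h01 h1b h02 h2b
      have J := (hJ ℕ (l : Filter ℕ) (fun k => k) x1 x2 a1 a2 d c hlim hL.hdeg).1
      have hy1 : Tendsto (fun k => yy k (x1 k)) (l : Filter ℕ) (𝓝 a1) := hlim.h1.hy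
      have hy2 : Tendsto (fun k => yy (4 * k) (x2 k)) (l : Filter ℕ) (𝓝 a2) := hlim.h2.hy
      have hev' : ∀ᶠ k in (l : Filter ℕ), 1 + ks ≤ yy k (x1 k) ∧ 1 + ks ≤ yy (4 * k) (x2 k) ∧
          1 / (yy k (x1 k) - 1) + 1 / (yy (4 * k) (x2 k) - 1) = th ∧
          0 ≤ (kJet k d c (x1 k) (x2 k)).s := by
        filter_upwards [hev] with k hk
        have h := hk.2.2
        push Not at h
        exact h
      have k1 : 1 + ks ≤ a1 := ge_of_tendsto hy1 (hev'.mono fun k hk => hk.1)
      have k2 : 1 + ks ≤ a2 := ge_of_tendsto hy2 (hev'.mono fun k hk => hk.2.1)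
      have hks := hL.hks
      have n1 : a1 - 1 ≠ 0 := by linarith
      have n2 : a2 - 1 ≠ 0 := by linarith
      have t1 : Tendsto (fun k => 1 / (yy k (x1 k) - 1)) (l : Filter ℕ) (𝓝 (1 / (a1 - 1))) :=
        tendsto_const_nhds.div (hy1.sub_const 1) n1
      have t2 : Tendsto (fun k => 1 / (yy (4 * k) (x2 k) - 1)) (l : Filter ℕ)
          (𝓝 (1 / (a2 - 1))) := tendsto_const_nhds.div (hy2.sub_const 1) n2
      have hsum : 1 / (a1 - 1) + 1 / (a2 - 1) = th :=
        tendsto_nhds_unique (t1.add t2)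
          (tendsto_const_nhds.congr' (hev'.mono fun k hk => hk.2.2.1.symm))
      have hsl : 0 ≤ (limJet d c a1 a2).s := ge_of_tendsto J (hev'.mono fun k hk => hk.2.2.2)
      have := hL.line a1 a2 k1 h1b k2 h2b hsum
      linarith)
  filter_upwards [hbox, hline] with k k1 k2
  exact ⟨k1, k2⟩

end Lq
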