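import Pool.Agent.Lq.StD

/-!
# Uniform statements for large `k`: positivity and the gradient at the zeros
-/

set_option autoImplicit false

open Filter Topology

namespace Lq

namespace UN2

theorem yy_zero (k : ℕ) : yy k 0 = 0 := by
  unfold yy X
  simp

/-- the limit configuration of counterexamples -/
theorem common (d : ℕ) (c : ℕ → ℕ → ℝ) (b ks th : ℝ) (hJ : StmtJetLim)
    (hL : LimOK d c b ks th) (l : Ultrafilter ℕ) (x1 x2 : ℕ → ℝ) (a1 a2 : ℝ)
    (hl : Lim2 (l : Filter ℕ) (fun k => k) x1 x2 a1 a2) (h1 : 0 ≤ a1) (h2 : a1 ≤ b)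
    (h3 : 0 ≤ a2) (h4 : a2 ≤ b)
    (hs : ∀ᶠ k in (l : Filter ℕ), (kJet k d c (x1 k) (x2 k)).s = 0)
    (hb : ∀ᶠ k in (l : Filter ℕ), ¬ badS ks th (yy k (x1 k)) (yy (4 * k) (x2 k))) :
    (limJet d c a1 a2).s = 0 ∧ Gd d c b ks th a1 a2 := by
  have hj := hJ ℕ l (fun k => k) x1 x2 a1 a2 d c hl hL.hdeg
  have h0 : (limJet d c a1 a2).s = 0 := by
    have t0 : Tendsto (fun n => (kJet n d c (x1 n) (x2 n)).s) (l : Filter ℕ) (𝓝 0) :=
      tendsto_const_nhds.congr' (hs.mono fun n hn => hn.symm)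
    exact tendsto_nhds_unique hj.1 t0
  refine ⟨h0, ⟨h1, h2⟩, ⟨h3, h4⟩, h0.ge, ?_⟩
  rintro ⟨b1, b2, b3⟩
  have y1 := hl.h1.hy
  have y2 := hl.h2.hy
  have hks := hL.hks
  have e1 : ∀ᶠ k in (l : Filter ℕ), 1 + ks < yy k (x1 k) := y1.eventually_const_lt b1
  have e2 : ∀ᶠ k in (l : Filter ℕ), 1 + ks < yy (4 * k) (x2 k) := y2.eventually_const_lt b2
  have t1 : Tendsto (fun k => 1 / (yy k (x1 k) - 1) + 1 / (yy (4 * k) (x2 k) - 1))
      (l : Filter ℕ) (𝓝 (1 / (a1 - 1) + 1 / (a2 - 1))) :=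
    (tendsto_const_nhds.div (y1.sub tendsto_const_nhds) (by linarith)).add
      (tendsto_const_nhds.div (y2.sub tendsto_const_nhds) (by linarith))
  have e3 := t1.eventually_lt_const b3
  obtain ⟨k, k1, k2, k3, k4⟩ := (e1.and (e2.and (e3.and hb))).exists
  exact k4 ⟨k1, k2, k3⟩

end UN2

open UN2 in
theorem t_Unif2 (hC : StmtComp) (hJ : StmtJetLim) : StmtUnif2 := by
  intro d c b ks th hL
  have hb : 0 < b := by
    have h1 := hL.hb
    have h2 := hL.hks
    linarith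
  have hq := hC b (fun k x1 x2 => (kJet k d c x1 x2).s = 0 →
    ¬ badS ks th (yy k x1) (yy (4 * k) x2) → 0 < (kJet k d (Dop k d c) x1 x2).s) hb (by
      intro l x1 x2 a1 a2 hl hP h1 h2 h3 h4
      have hs : ∀ᶠ k in (l : Filter ℕ), (kJet k d c (x1 k) (x2 k)).s = 0 :=
        hP.mono fun k hk => by
          by_contra h
          exact hk.2.2 fun h' => absurd h' h
      have hn : ∀ᶠ k in (l : Filter ℕ), ¬ badS ks th (yy k (x1 k)) (yy (4 * k) (x2 k)) :=
        hP.mono fun k hk h => hk.2.2 fun _ h' => absurd h h'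
      have hr : ∀ᶠ k in (l : Filter ℕ), ¬ 0 < (kJet k d (Dop k d c) (x1 k) (x2 k)).s :=
        hP.mono fun k hk h => hk.2.2 fun _ _ => h
      obtain ⟨h0, hG⟩ := common d c b ks th hJ hL l x1 x2 a1 a2 hl h1 h2 h3 h4 hs hn
      have hpos := hL.qpos a1 a2 hG h0
      have hj := (hJ ℕ l (fun k => k) x1 x2 a1 a2 d c hl hL.hdeg).2.1
      obtain ⟨k, k1, k2⟩ := ((hj.eventually_const_lt hpos).and hr).exists
      have h5 : (k : ℝ) / 4 * (kJet k d (Dop k d c) (x1 k) (x2 k)).s ≤ 0 :=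
        mul_nonpos_of_nonneg_of_nonpos (by positivity) (not_lt.1 k2)
      exact absurd k1 (not_lt.2 h5))
  have hg := hC b (fun k x1 x2 => (kJet k d c x1 x2).s = 0 →
    ¬ badS ks th (yy k x1) (yy (4 * k) x2) →
    (0 < x1 ∧ (kJet k d c x1 x2).s1 < 0) ∨ (0 < x2 ∧ (kJet k d c x1 x2).s2 < 0)) hb (by
      intro l x1 x2 a1 a2 hl hP h1 h2 h3 h4
      have hs : ∀ᶠ k in (l : Filter ℕ), (kJet k d c (x1 k) (x2 k)).s = 0 :=
        hP.mono fun k hk => by
          by_contra h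
          exact hk.2.2 fun h' => absurd h' h
      have hn : ∀ᶠ k in (l : Filter ℕ), ¬ badS ks th (yy k (x1 k)) (yy (4 * k) (x2 k)) :=
        hP.mono fun k hk h => hk.2.2 fun _ h' => absurd h h'
      have hr : ∀ᶠ k in (l : Filter ℕ), ¬ ((0 < x1 k ∧ (kJet k d c (x1 k) (x2 k)).s1 < 0) ∨
          (0 < x2 k ∧ (kJet k d c (x1 k) (x2 k)).s2 < 0)) :=
        hP.mono fun k hk h => hk.2.2 fun _ _ => h
      obtain ⟨h0, hG⟩ := common d c b ks th hJ hL l x1 x2 a1 a2 hl h1 h2 h3 h4 hs hn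
      have hj := hJ ℕ l (fun k => k) x1 x2 a1 a2 d c hl hL.hdeg
      have hor : 1 < a1 ∨ 1 < a2 := by
        by_contra h
        rw [not_or, not_lt, not_lt] at h
        have h5 := hL.pos a1 a2 h1 h.1 h3 h.2
        rw [h0] at h5
        exact lt_irrefl _ h5
      rcases hor with h | h
      · have p1 : ∀ᶠ k in (l : Filter ℕ), 0 < x1 k := by
          have y1 : Tendsto (fun k => yy k (x1 k)) (l : Filter ℕ) (𝓝 a1) := hl.h1.hy
          have z1 : ∀ᶠ k in (l : Filter ℕ), Pz k (x1 k) := hl.h1.hx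
          filter_upwards [y1.eventually_const_lt h, z1] with k k1 k2
          rcases k2.1.lt_or_eq with k3 | k3
          · exact k3
          · rw [← k3, yy_zero] at k1
            exact absurd k1 (by norm_num)
        have t := hj.2.2.1 p1
        obtain ⟨k, k1, k2, k3⟩ :=
          ((t.eventually_lt_const (hL.neg1 a1 a2 hG h)).and (p1.and hr)).exists
        exact k3 (Or.inl ⟨k2, k1⟩)
      · have p1 : ∀ᶠ k in (l : Filter ℕ), 0 < x2 k := by
          have y1 : Tendsto (fun k => yy (4 * k) (x2 k)) (l : Filter ℕ) (𝓝 a2) := hl.h2.hy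
          have z1 : ∀ᶠ k in (l : Filter ℕ), Pz (4 * k) (x2 k) := hl.h2.hx
          filter_upwards [y1.eventually_const_lt h, z1] with k k1 k2
          rcases k2.1.lt_or_eq with k3 | k3
          · exact k3
          · rw [← k3, yy_zero] at k1
            exact absurd k1 (by norm_num)
        have t := hj.2.2.2 p1
        obtain ⟨k, k1, k2, k3⟩ :=
          ((t.eventually_lt_const (hL.neg2 a1 a2 hG h)).and (p1.and hr)).exists
        exact k3 (Or.inr ⟨k2, k1⟩))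
  filter_upwards [hq, hg] with k h1 h2
  exact ⟨fun x1 x2 p1 p2 p3 p4 p5 p6 => h1 x1 x2 p1 p2 p3 p4 p5 p6,
    fun x1 x2 p1 p2 p3 p4 p5 p6 => h2 x1 x2 p1 p2 p3 p4 p5 p6⟩

end Lq
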