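import Pool.Agent.Lq.StD

/-!
# Elementary facts about `W` (section 4.7 of PAPER.md)
-/

set_option autoImplicit false

open Filter Topology

namespace Lq

namespace WF

theorem F_abs (k i : ℕ) (x : ℝ) : F k i |x| = F k i x := by
  unfold F
  rw [sq_abs]

theorem F_smooth (hS : StmtSmooth) (k i : ℕ) (hk : 1 ≤ k) : ContDiff ℝ (⊤ : ℕ∞) (F k i) := by
  unfold F
  exact (hS k i hk).comp (contDiff_id.pow 2)

theorem F_zero (hO : StmtODE) (k : ℕ) (hk : 1 ≤ k) (i : ℕ) :
    F k i 0 = if i = 0 then 1 else 0 := by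
  cases i with
  | zero => simpa using (hO k hk).1
  | succ i =>
    unfold F
    simp [La]

theorem F_eq (k i : ℕ) (x : ℝ) (h : F k 0 x ≠ 0) : F k i x = F k 0 x * j0 k i x := by
  unfold j0
  field_simp

end WF

open WF in
theorem t_WF (hS : StmtSmooth) (hO : StmtODE) : StmtWF := by
  intro k d c hk
  have hk4 : 1 ≤ 4 * k := by omega
  refine ⟨?_, ?_, ?_, ?_⟩
  · unfold W JJ
    refine ContDiff.sum fun i _ => ContDiff.sum fun j _ => ?_
    exact (contDiff_const.mul ((F_smooth hS k i hk).comp contDiff_fst)).mul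
      ((F_smooth hS (4 * k) j hk4).comp contDiff_snd)
  · intro x
    unfold W JJ
    refine Finset.sum_congr rfl fun i _ => Finset.sum_congr rfl fun j _ => ?_
    show c i j * F k i x.1 * F (4 * k) j x.2 = c i j * F k i |x.1| * F (4 * k) j |x.2|
    rw [F_abs, F_abs]
  · intro x1 x2 h1 h2
    show JJ d c (fun i => F k i x1) (fun j => F (4 * k) j x2) =
      F k 0 x1 * F (4 * k) 0 x2 * JJ d c (fun i => j0 k i x1) (fun j => j0 (4 * k) j x2)
    unfold JJ
    rw [Finset.mul_sum]
    refine Finset.sum_congr rfl fun i _ => ?_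
    rw [Finset.mul_sum]
    refine Finset.sum_congr rfl fun j _ => ?_
    show c i j * F k i x1 * F (4 * k) j x2 =
      F k 0 x1 * F (4 * k) 0 x2 * (c i j * j0 k i x1 * j0 (4 * k) j x2)
    rw [F_eq k i x1 h1, F_eq (4 * k) j x2 h2]
    ring
  · show JJ d c (fun i => F k i 0) (fun j => F (4 * k) j 0) = c 0 0
    unfold JJ
    have h1 : ∀ i, F k i 0 = if i = 0 then 1 else 0 := F_zero hO k hk
    have h2 : ∀ j, F (4 * k) j 0 = if j = 0 then 1 else 0 := F_zero hO (4 * k) hk4
    rw [Finset.sum_eq_single 0]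
    · rw [Finset.sum_eq_single 0]
      · show c 0 0 * F k 0 0 * F (4 * k) 0 0 = c 0 0
        rw [h1, h2]; simp
      · intro j _ hj
        show c 0 j * F k 0 0 * F (4 * k) j 0 = 0
        rw [h2, if_neg hj, mul_zero]
      · intro h
        exact absurd (Finset.mem_range.2 (Nat.succ_pos d)) h
    · intro i _ hi
      refine Finset.sum_eq_zero fun j _ => ?_
      show c i j * F k i 0 * F (4 * k) j 0 = 0
      rw [h1, if_neg hi, mul_zero, zero_mul]
    · intro h
      exact absurd (Finset.mem_range.2 (Nat.succ_pos d)) h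

end Lq
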