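import Pool.Agent.Lq.StD

/-!
# Gradient of `W` at a zero of `W` (module LQD_WG)
-/

set_option autoImplicit false

open Filter Topology

namespace Lq

namespace WG

theorem diffF (hS : StmtSmooth) {k : ℕ} (hk : 1 ≤ k) (i : ℕ) : Differentiable ℝ (F k i) := by
  have h : Differentiable ℝ (La k i) := (hS k i hk).differentiable (by simp)
  intro x
  have h1 : DifferentiableAt ℝ (fun t : ℝ => La k i (t ^ 2)) x :=
    (h (x ^ 2)).comp x (f := fun t : ℝ => t ^ 2) (by fun_prop)
  exact h1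

theorem F_neg (k i : ℕ) (x : ℝ) : F k i (-x) = F k i x := by
  unfold F
  rw [neg_sq]

theorem F_abs (k i : ℕ) (x : ℝ) : F k i |x| = F k i x := by
  unfold F
  rw [sq_abs]

theorem derivF_neg (k i : ℕ) (x : ℝ) : deriv (F k i) (-x) = -deriv (F k i) x := by
  have h : (F k i) = fun t => F k i (-t) := by
    funext t
    exact (F_neg k i t).symm
  have h2 : deriv (fun t => F k i (-t)) x = -deriv (F k i) (-x) := deriv_comp_neg (F k i) x
  rw [← h] at h2
  rw [h2]
  ring

/-- the sign of the derivative -/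
theorem derivF_abs (k i : ℕ) (x : ℝ) :
    deriv (F k i) x = (if 0 ≤ x then 1 else -1) * deriv (F k i) |x| := by
  split_ifs with h
  · rw [abs_of_nonneg h]
    ring
  · have h' : x < 0 := not_le.1 h
    rw [abs_of_neg h']
    have := derivF_neg k i x
    rw [this]
    ring

theorem j1_eq (hS : StmtSmooth) {k : ℕ} (hk : 1 ≤ k) (i : ℕ) {s : ℝ} (hs : 0 < s)
    (hf : F k 0 s ≠ 0) (hD : D1 k s ≠ 0) :
    deriv (F k i) s = j1 k i s * (D1 k s / s) * F k 0 s
      + F k i s * (deriv (F k 0) s / F k 0 s) := by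
  have h1 : HasDerivAt (F k i) (deriv (F k i) s) s := ((diffF hS hk i) s).hasDerivAt
  have h0 : HasDerivAt (F k 0) (deriv (F k 0) s) s := ((diffF hS hk 0) s).hasDerivAt
  have h2 : deriv (fun t => F k i t / F k 0 t) s
      = (deriv (F k i) s * F k 0 s - F k i s * deriv (F k 0) s) / (F k 0 s) ^ 2 :=
    (h1.fun_div h0 hf).deriv
  unfold j1
  rw [h2]
  have hs' : s ≠ 0 := hs.ne'
  field_simp
  ring

theorem W_diff (hS : StmtSmooth) {k : ℕ} (hk : 1 ≤ k) (d : ℕ) (c : ℕ → ℕ → ℝ) :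
    Differentiable ℝ (W k d c) := by
  have hk4 : 1 ≤ 4 * k := by omega
  have h : (W k d c) = fun x : ℝ × ℝ => ∑ i ∈ Finset.range (d + 1),
      ∑ j ∈ Finset.range (d + 1), c i j * F k i x.1 * F (4 * k) j x.2 := by
    funext x
    rfl
  rw [h]
  intro x
  refine DifferentiableAt.fun_sum fun i _ => DifferentiableAt.fun_sum fun j _ => ?_
  have e1 : DifferentiableAt ℝ (fun x : ℝ × ℝ => F k i x.1) x :=
    ((diffF hS hk i) x.1).comp x differentiableAt_fst
  have e2 : DifferentiableAt ℝ (fun x : ℝ × ℝ => F (4 * k) j x.2) x :=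
    ((diffF hS hk4 j) x.2).comp x differentiableAt_snd
  exact ((differentiableAt_const (c i j)).mul e1).mul e2

theorem d1_fst (hS : StmtSmooth) {k : ℕ} (hk : 1 ≤ k) (d : ℕ) (c : ℕ → ℕ → ℝ) (x : ℝ × ℝ) :
    d1 (W k d c) x (1, 0) = ∑ i ∈ Finset.range (d + 1), ∑ j ∈ Finset.range (d + 1),
      c i j * deriv (F k i) x.1 * F (4 * k) j x.2 := by
  have hW := (W_diff hS hk d c x).hasFDerivAt
  have hc : HasDerivAt (fun t : ℝ => ((t, x.2) : ℝ × ℝ)) ((1 : ℝ), (0 : ℝ)) x.1 :=
    (hasDerivAt_id x.1).prodMk (hasDerivAt_const x.1 x.2)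
  have h1 : HasDerivAt (fun t : ℝ => W k d c (t, x.2)) (fderiv ℝ (W k d c) x (1, 0)) x.1 := by
    have := hW.comp_hasDerivAt_of_eq x.1 hc (by simp)
    exact this
  have h2 : HasDerivAt (fun t : ℝ => W k d c (t, x.2))
      (∑ i ∈ Finset.range (d + 1), ∑ j ∈ Finset.range (d + 1),
        c i j * deriv (F k i) x.1 * F (4 * k) j x.2) x.1 := by
    have : (fun t : ℝ => W k d c (t, x.2)) = fun t : ℝ => ∑ i ∈ Finset.range (d + 1),
        ∑ j ∈ Finset.range (d + 1), c i j * F k i t * F (4 * k) j x.2 := by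
      funext t
      rfl
    rw [this]
    refine HasDerivAt.fun_sum fun i _ => HasDerivAt.fun_sum fun j _ => ?_
    exact ((((diffF hS hk i) x.1).hasDerivAt).const_mul (c i j)).mul_const (F (4 * k) j x.2)
  exact h1.unique h2

theorem d1_snd (hS : StmtSmooth) {k : ℕ} (hk : 1 ≤ k) (d : ℕ) (c : ℕ → ℕ → ℝ) (x : ℝ × ℝ) :
    d1 (W k d c) x (0, 1) = ∑ i ∈ Finset.range (d + 1), ∑ j ∈ Finset.range (d + 1),
      c i j * F k i x.1 * deriv (F (4 * k) j) x.2 := by
  have hk4 : 1 ≤ 4 * k := by omega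
  have hW := (W_diff hS hk d c x).hasFDerivAt
  have hc : HasDerivAt (fun t : ℝ => ((x.1, t) : ℝ × ℝ)) ((0 : ℝ), (1 : ℝ)) x.2 :=
    (hasDerivAt_const x.2 x.1).prodMk (hasDerivAt_id x.2)
  have h1 : HasDerivAt (fun t : ℝ => W k d c (x.1, t)) (fderiv ℝ (W k d c) x (0, 1)) x.2 := by
    have := hW.comp_hasDerivAt_of_eq x.2 hc (by simp)
    exact this
  have h2 : HasDerivAt (fun t : ℝ => W k d c (x.1, t))
      (∑ i ∈ Finset.range (d + 1), ∑ j ∈ Finset.range (d + 1),
        c i j * F k i x.1 * deriv (F (4 * k) j) x.2) x.2 := by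
    have : (fun t : ℝ => W k d c (x.1, t)) = fun t : ℝ => ∑ i ∈ Finset.range (d + 1),
        ∑ j ∈ Finset.range (d + 1), c i j * F k i x.1 * F (4 * k) j t := by
      funext t
      rfl
    rw [this]
    refine HasDerivAt.fun_sum fun i _ => HasDerivAt.fun_sum fun j _ => ?_
    exact (((diffF hS hk4 j) x.2).hasDerivAt).const_mul (c i j * F k i x.1)
  exact h1.unique h2

theorem W_abs (k d : ℕ) (c : ℕ → ℕ → ℝ) (x : ℝ × ℝ) :
    W k d c x = ∑ i ∈ Finset.range (d + 1), ∑ j ∈ Finset.range (d + 1),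
      c i j * F k i |x.1| * F (4 * k) j |x.2| := by
  have : W k d c x = ∑ i ∈ Finset.range (d + 1), ∑ j ∈ Finset.range (d + 1),
      c i j * F k i x.1 * F (4 * k) j x.2 := rfl
  rw [this]
  simp only [F_abs]

end WG

theorem t_WG (hS : StmtSmooth) : StmtWG := by
  intro k d c x hk h1 h2 hW
  have hk4 : 1 ≤ 4 * k := by omega
  rw [WG.W_abs] at hW
  constructor
  · intro hs hD hJ
    rw [WG.d1_fst hS hk d c x]
    set s := |x.1| with hsdef
    set y := |x.2| with hydef
    set sg : ℝ := if 0 ≤ x.1 then 1 else -1 with hsg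
    have hsg0 : sg ≠ 0 := by
      rw [hsg]
      split_ifs <;> norm_num
    have hterm : ∀ i j : ℕ, c i j * deriv (F k i) x.1 * F (4 * k) j x.2
        = sg * (F k 0 s * F (4 * k) 0 y * (D1 k s / s)
            * (c i j * j1 k i s * j0 (4 * k) j y))
          + sg * (deriv (F k 0) s / F k 0 s) * (c i j * F k i s * F (4 * k) j y) := by
      intro i j
      rw [WG.derivF_abs k i x.1, ← hsg, ← hsdef, WG.j1_eq hS hk i hs h1 hD,
        ← WG.F_abs (4 * k) j x.2, ← hydef]
      unfold j0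
      field_simp
    have hsum : (∑ i ∈ Finset.range (d + 1), ∑ j ∈ Finset.range (d + 1),
        c i j * deriv (F k i) x.1 * F (4 * k) j x.2)
        = sg * (F k 0 s * F (4 * k) 0 y * (D1 k s / s) * (kJet k d c s y).s1) := by
      have e1 : (∑ i ∈ Finset.range (d + 1), ∑ j ∈ Finset.range (d + 1),
          c i j * deriv (F k i) x.1 * F (4 * k) j x.2)
          = ∑ i ∈ Finset.range (d + 1), ∑ j ∈ Finset.range (d + 1),
            (sg * (F k 0 s * F (4 * k) 0 y * (D1 k s / s)
            * (c i j * j1 k i s * j0 (4 * k) j y))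
          + sg * (deriv (F k 0) s / F k 0 s) * (c i j * F k i s * F (4 * k) j y)) :=
        Finset.sum_congr rfl fun i _ => Finset.sum_congr rfl fun j _ => hterm i j
      rw [e1]
      simp only [Finset.sum_add_distrib, ← Finset.mul_sum]
      rw [hW, mul_zero, add_zero]
      rfl
    rw [hsum]
    have hDs : D1 k s / s ≠ 0 := div_ne_zero hD hs.ne'
    exact mul_ne_zero hsg0 (mul_ne_zero (mul_ne_zero (mul_ne_zero h1 h2) hDs) hJ)
  · intro hs hD hJ
    rw [WG.d1_snd hS hk d c x]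
    set s := |x.1| with hsdef
    set y := |x.2| with hydef
    set sg : ℝ := if 0 ≤ x.2 then 1 else -1 with hsg
    have hsg0 : sg ≠ 0 := by
      rw [hsg]
      split_ifs <;> norm_num
    have hterm : ∀ i j : ℕ, c i j * F k i x.1 * deriv (F (4 * k) j) x.2
        = sg * (F k 0 s * F (4 * k) 0 y * (D1 (4 * k) y / y)
            * (c i j * j0 k i s * j1 (4 * k) j y))
          + sg * (deriv (F (4 * k) 0) y / F (4 * k) 0 y)
            * (c i j * F k i s * F (4 * k) j y) := by
      intro i j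
      rw [WG.derivF_abs (4 * k) j x.2, ← hsg, ← hydef, WG.j1_eq hS hk4 j hs h2 hD,
        ← WG.F_abs k i x.1, ← hsdef]
      unfold j0
      field_simp
    have hsum : (∑ i ∈ Finset.range (d + 1), ∑ j ∈ Finset.range (d + 1),
        c i j * F k i x.1 * deriv (F (4 * k) j) x.2)
        = sg * (F k 0 s * F (4 * k) 0 y * (D1 (4 * k) y / y) * (kJet k d c s y).s2) := by
      have e1 : (∑ i ∈ Finset.range (d + 1), ∑ j ∈ Finset.range (d + 1),
          c i j * F k i x.1 * deriv (F (4 * k) j) x.2)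
          = ∑ i ∈ Finset.range (d + 1), ∑ j ∈ Finset.range (d + 1),
            (sg * (F k 0 s * F (4 * k) 0 y * (D1 (4 * k) y / y)
            * (c i j * j0 k i s * j1 (4 * k) j y))
          + sg * (deriv (F (4 * k) 0) y / F (4 * k) 0 y)
            * (c i j * F k i s * F (4 * k) j y)) :=
        Finset.sum_congr rfl fun i _ => Finset.sum_congr rfl fun j _ => hterm i j
      rw [e1]
      simp only [Finset.sum_add_distrib, ← Finset.mul_sum]
      rw [hW, mul_zero, add_zero]
      rfl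
    rw [hsum]
    have hDs : D1 (4 * k) y / y ≠ 0 := div_ne_zero hD hs.ne'
    exact mul_ne_zero hsg0 (mul_ne_zero (mul_ne_zero (mul_ne_zero h1 h2) hDs) hJ)

end Lq
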