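import Pool.Agent.Lq.DLev
import Pool.Agent.Lq.DWF
import Pool.Agent.Lq.DWG
import Pool.Agent.Lq.DJ0z
import Pool.Agent.Lq.DJL
import Pool.Agent.Lq.DCmp
import Pool.Agent.Lq.DUn1
import Pool.Agent.Lq.DUn2
import Pool.Agent.Lq.DDF46
import Pool.Agent.Lq.DTop

/-!
# MP_61eda3_an, section 4.7: the topological fields of `OutK` from the one block facts
-/

set_option autoImplicit false

open Filter Topology

namespace Lq

/-- the topological half of `StmtOut` from the interface statements of `St1.lean` -/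
theorem t_TopAll (hM : StmtMono) (hO : StmtODE) (hSm : StmtSmooth) (hS : StmtSigns)
    (hJ0 : StmtJ0) (hJ1 : StmtJ1) (hL : StmtLop) : StmtTop := by
  have hLev : StmtLev := t_Lev hM
  have hWF : StmtWF := t_WF hSm hO
  have hWG : StmtWG := t_WG hSm
  have hJZ : StmtJ0z := t_J0z hJ0 hO
  have hJL : StmtJetLim := t_JL hJZ hJ1 hL
  have hC : StmtComp := t_Comp hM
  exact t_Top hM hO hS hLev hWF hWG (t_Unif1 hC hJL) (t_Unif2 hC hJL) (t_DF46 hLev hWF)

end Lq
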