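import Pool.Agent.Lq.JFin
import Pool.Agent.Lq.DAll

/-!
# MP_61eda3_an, section 4.7: the topological half of `StmtOut`, hypothesis-free
-/

set_option autoImplicit false

open Filter Topology

namespace Lq

theorem u_Lev : StmtLev := t_Lev u_Mono

theorem u_WF : StmtWF := t_WF t_Smooth t_ODE

theorem u_WG : StmtWG := t_WG t_Smooth

theorem u_J0z : StmtJ0z := t_J0z u_J0 t_ODE

theorem u_JetLim : StmtJetLim := t_JL u_J0z u_J1 t_Lop

theorem u_Comp : StmtComp := t_Comp u_Mono

theorem u_DF : StmtDF := t_DF46 u_Lev u_WF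

/-- the fields `op, bd, zero, nonneg, front, grad` of `OutK`, and `clos`, `dense` -/
theorem u_Top : StmtTop := t_TopAll u_Mono t_ODE t_Smooth u_Signs u_J0 u_J1 t_Lop

end Lq
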