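import Pool.Agent.Lq.StD

set_option autoImplicit false

open Filter Topology

namespace Lq

namespace LEV

theorem pz_mono {k : ℕ} {s s' : ℝ} (h : Pz k s) (h0 : 0 ≤ s') (h1 : s' ≤ s) : Pz k s' :=
  ⟨h0, fun t ht ht' => h.2 t ht (ht'.trans h1)⟩

theorem pz_of_pos {k : ℕ} {s : ℝ} (h : Pos k s) : Pz k s := ⟨h.1.le, h.2⟩

end LEV

theorem t_Lev (hM : StmtMono) : StmtLev := by
  intro k Y hk hY
  obtain ⟨h0, hmono, hcont, hex⟩ := hM k hk
  obtain ⟨r, hr, hrY⟩ := hex Y hY
  have hrz : Pz k r := LEV.pz_of_pos hr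
  have hz0 : Pz k 0 := LEV.pz_mono hrz le_rfl hr.1.le
  have hpos : ∀ t : ℝ, 0 < |t| → Pz k |t| → 0 < yy k |t| := by
    intro t ht hz
    have := hmono 0 |t| hz0 hz ht
    rwa [h0] at this
  have hzr : ∀ t : ℝ, |t| ≤ r → Pz k |t| := fun t ht => LEV.pz_mono hrz (abs_nonneg t) ht
  refine ⟨r, ⟨hr.1, hrY, ?_, ?_, ?_, ?_, ?_⟩⟩
  · intro t
    constructor
    · rintro ⟨hz, hlt⟩
      by_contra hcon
      have hcon : r ≤ |t| := not_lt.mp hcon
      rcases eq_or_lt_of_le hcon with h | h
      · rw [← h, hrY] at hlt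
        exact lt_irrefl _ hlt
      · have := hmono r |t| hrz hz h
        rw [hrY] at this
        exact lt_asymm this hlt
    · intro h
      have hz : Pz k |t| := hzr t h.le
      refine ⟨hz, ?_⟩
      have := hmono |t| r hz hrz h
      rwa [hrY] at this
  · intro t
    constructor
    · rintro ⟨hz, hle⟩
      by_contra hcon
      have hcon : r < |t| := not_le.mp hcon
      have := hmono r |t| hrz hz hcon
      rw [hrY] at this
      exact absurd hle (not_le.mpr this)
    · intro h
      have hz : Pz k |t| := hzr t h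
      refine ⟨hz, ?_⟩
      rcases eq_or_lt_of_le h with h' | h'
      · rw [h', hrY]
      · have := hmono |t| r hz hrz h'
        rw [hrY] at this
        exact this.le
  · intro t ht
    have hz : Pz k |t| := hzr t ht
    rcases le_total 0 t with h | h
    · rw [abs_of_nonneg h] at hz
      exact hcont t hz
    · rw [abs_of_nonpos h] at hz
      have h1 : ContinuousAt (fun s => yy k |s|) (-t) := hcont (-t) hz
      have h2 : ContinuousAt ((fun s => yy k |s|) ∘ (fun s : ℝ => -s)) t :=
        ContinuousAt.comp (f := fun s : ℝ => -s) h1 continuous_neg.continuousAt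
      have h3 : ((fun s => yy k |s|) ∘ (fun s : ℝ => -s)) = fun s => yy k |s| := by
        funext s
        simp only [Function.comp_apply, abs_neg]
      rwa [h3] at h2
  · intro t ht
    rcases eq_or_lt_of_le (abs_nonneg t) with h | h
    · rw [← h, h0]
    · exact (hpos t h (hzr t ht)).le
  · intro t h ht
    exact hpos t h (hzr t ht)

end Lq
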