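import Pool.Agent.Lq.JAll
import Pool.Agent.Lq.One9
import Pool.Agent.Lq.AZero

/-!
# MP_61eda3_an: all one block facts (`St1.lean`), without hypotheses
-/

set_option autoImplicit false

open Filter Topology

namespace Lq

theorem u_Zero : StmtZero := t_Zero t_Blk

theorem u_Signs : StmtSigns := t_Signs t_Smooth t_ODE

theorem u_Der : StmtDer := t_Der t_Smooth t_ODE

theorem u_Mono : StmtMono := t_Mono t_Smooth t_ODE u_Zero

theorem u_G : StmtG := t_G t_Smooth t_ODE

theorem u_T : StmtT := t_T t_Smooth t_ODE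

theorem u_R : StmtR := t_R t_Smooth t_ODE

theorem u_D12 : StmtD12 := t_D12 t_Smooth t_ODE

theorem u_TD : StmtTD := t_TD t_Smooth t_ODE

theorem u_DE : StmtDE := t_DE t_Smooth t_ODE

theorem u_Delta : StmtDelta := t_Delta t_Smooth t_ODE

theorem u_J0 : StmtJ0 := (t_Jets u_Signs u_T u_R u_D12 u_TD).1

theorem u_J1 : StmtJ1 := (t_Jets u_Signs u_T u_R u_D12 u_TD).2.1

theorem u_J2 : StmtJ2 := (t_Jets u_Signs u_T u_R u_D12 u_TD).2.2

theorem u_KJ : P_KJ := p_KJ u_Signs u_T u_R u_D12 u_TD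

end Lq
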