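import Pool.Agent.Lq.St4

/-!
# LQT_SEL: the selection principle
-/

set_option autoImplicit false

open Filter Topology

namespace Lq

namespace LQT_SEL

theorem pos_of_pz {k : ℕ} {x : ℝ} (h : Pz k |x|) (hx : 0 < x) : Pos k x := by
  rw [abs_of_pos hx] at h
  exact ⟨hx, h.2⟩

theorem yy_pos (hg : StmtSigns) {k : ℕ} {x : ℝ} (hk : 8 ≤ k) (hx : Pos k x) : 0 < yy k x := by
  have h1 := (hg k x hk hx).X0
  have h2 : (0 : ℝ) < k := by
    have : 0 < k := by omega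
    exact_mod_cast this
  unfold yy
  positivity

theorem FF_pos {k : ℕ} {x : ℝ × ℝ} (h1 : Pos k x.1) (h2 : Pos (4 * k) x.2) : 0 < FF k x := by
  unfold FF
  exact mul_pos (h1.2 x.1 h1.1.le le_rfl) (h2.2 x.2 h2.1.le le_rfl)

theorem s_tendsto (hj : StmtJ0) (d : ℕ) (c : ℕ → ℕ → ℝ) {kk : ℕ → ℕ} {x : ℕ → ℝ × ℝ}
    {a1 a2 : ℝ} (l1 : Lim1 (I := ℕ) atTop kk (fun n => (x n).1) a1)
    (l2 : Lim1 (I := ℕ) atTop (fun n => 4 * kk n) (fun n => (x n).2) a2) :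
    Tendsto (fun n => (kJet (kk n) d c (x n).1 (x n).2).s) atTop (𝓝 (limJet d c a1 a2).s) := by
  change Tendsto (fun n => JJ d c (fun i => j0 (kk n) i (x n).1)
    (fun j => j0 (4 * kk n) j (x n).2)) atTop (𝓝 (JJ d c (fun i => t0 i a1) (fun j => t0 j a2)))
  unfold JJ
  refine tendsto_finsetSum _ fun i _ => tendsto_finsetSum _ fun j _ => ?_
  have h1 := hj ℕ atTop kk (fun n => (x n).1) a1 i l1
  have h2 := hj ℕ atTop (fun n => 4 * kk n) (fun n => (x n).2) a2 j l2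
  exact (tendsto_const_nhds.mul h1).mul h2

theorem not_badS {ks th a1 a2 : ℝ} (hks : 0 < ks) {u v : ℕ → ℝ}
    (hu : Tendsto u atTop (𝓝 a1)) (hv : Tendsto v atTop (𝓝 a2))
    (h : ∀ n, ¬ bad ks th (u n) (v n)) : ¬ badS ks th a1 a2 := by
  rintro ⟨h1, h2, h3⟩
  have e1 : ∀ᶠ n in atTop, 1 + ks < u n := hu.eventually (lt_mem_nhds h1)
  have e2 : ∀ᶠ n in atTop, 1 + ks < v n := hv.eventually (lt_mem_nhds h2)
  have e3 : Tendsto (fun n => 1 / (u n - 1) + 1 / (v n - 1)) atTop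
      (𝓝 (1 / (a1 - 1) + 1 / (a2 - 1))) := by
    refine Tendsto.add ?_ ?_
    · exact tendsto_const_nhds.div (hu.sub tendsto_const_nhds) (by linarith)
    · exact tendsto_const_nhds.div (hv.sub tendsto_const_nhds) (by linarith)
  have e4 : ∀ᶠ n in atTop, 1 / (u n - 1) + 1 / (v n - 1) < th := e3.eventually (gt_mem_nhds h3)
  obtain ⟨n, f1, f2, f3⟩ := (e1.and (e2.and e4)).exists
  exact h n ⟨f1.le, f2.le, f3.le⟩

end LQT_SEL

theorem t_SEL (hg : StmtSigns) (h1 : StmtT1) (hj : StmtJ0) : StmtSel := by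
  intro d c b ks th hL P hmono hseq
  by_contra hcon
  push Not at hcon
  have hex : ∀ n : ℕ, ∃ k : ℕ, n + 8 ≤ k ∧ ∃ x ∈ D0 k d c b ks th, 0 < x.1 ∧ 0 < x.2 ∧
      ¬ P (1 / ((n : ℝ) + 1)) k x := by
    intro n
    have h2 := hcon (1 / ((n : ℝ) + 1)) (by positivity)
    have h3 := frequently_atTop.1 h2 (n + 8)
    obtain ⟨k, hk, x, hx, h4, h5, h6⟩ := h3
    exact ⟨k, hk, x, hx, h4, h5, h6⟩
  choose kk hkk x hx hx1 hx2 hP using hex
  have k8 : ∀ n, 8 ≤ kk n := fun n => le_trans (by omega) (hkk n)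
  have p1 : ∀ n, Pos (kk n) (x n).1 := fun n => LQT_SEL.pos_of_pz (hx n).1 (hx1 n)
  have p2 : ∀ n, Pos (4 * kk n) (x n).2 := fun n => LQT_SEL.pos_of_pz (hx n).2.1 (hx2 n)
  have y1 : ∀ n, yy (kk n) (x n).1 < b := fun n => by
    have := (hx n).2.2.1
    rwa [abs_of_pos (hx1 n)] at this
  have y2 : ∀ n, yy (4 * kk n) (x n).2 < b := fun n => by
    have := (hx n).2.2.2.1
    rwa [abs_of_pos (hx2 n)] at this
  have hW : ∀ n, 0 < W (kk n) d c (x n) := fun n => (hx n).2.2.2.2.1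
  have hb : ∀ n, ¬ bad ks th (yy (kk n) (x n).1) (yy (4 * kk n) (x n).2) := fun n => by
    have := (hx n).2.2.2.2.2
    rwa [abs_of_pos (hx1 n), abs_of_pos (hx2 n)] at this
  have q1 : ∀ n, 0 < yy (kk n) (x n).1 := fun n => LQT_SEL.yy_pos hg (k8 n) (p1 n)
  have q2 : ∀ n, 0 < yy (4 * kk n) (x n).2 := fun n =>
    LQT_SEL.yy_pos hg (by have := k8 n; omega) (p2 n)
  have hS : ∀ n, 0 < (kJet (kk n) d c (x n).1 (x n).2).s := by
    intro n
    have h2 := (h1 (kk n) d c (x n) (0, 0) (k8 n) (p1 n) (p2 n)).1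
    have h3 := hW n
    rw [h2] at h3
    exact (mul_pos_iff_of_pos_left (LQT_SEL.FF_pos (p1 n) (p2 n))).1 h3
  have hc : IsCompact (Set.Icc (0 : ℝ) b ×ˢ Set.Icc (0 : ℝ) b) := isCompact_Icc.prod isCompact_Icc
  obtain ⟨⟨a1, a2⟩, ha, φ, hφ, hlim⟩ := hc.tendsto_subseq
    (x := fun n => (yy (kk n) (x n).1, yy (4 * kk n) (x n).2))
    (fun n => ⟨⟨(q1 n).le, (y1 n).le⟩, ⟨(q2 n).le, (y2 n).le⟩⟩)
  have hl1 : Tendsto (fun n => yy (kk (φ n)) (x (φ n)).1) atTop (𝓝 a1) :=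
    (continuous_fst.tendsto _).comp hlim
  have hl2 : Tendsto (fun n => yy (4 * kk (φ n)) (x (φ n)).2) atTop (𝓝 a2) :=
    (continuous_snd.tendsto _).comp hlim
  have hk1 : Tendsto (fun n => kk (φ n)) atTop atTop := by
    refine tendsto_atTop_mono (fun n => ?_) tendsto_id
    have h2 := hkk (φ n)
    have h3 := hφ.id_le n
    simp only [id_eq] at h3 ⊢
    omega
  have hk2 : Tendsto (fun n => 4 * kk (φ n)) atTop atTop :=
    tendsto_atTop_mono (fun n => by omega) hk1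
  have l1 : Lim1 (I := ℕ) atTop (fun n => kk (φ n)) (fun n => (x (φ n)).1) a1 :=
    ⟨hk1, Eventually.of_forall fun n => p1 (φ n), hl1⟩
  have l2 : Lim1 (I := ℕ) atTop (fun n => 4 * kk (φ n)) (fun n => (x (φ n)).2) a2 :=
    ⟨hk2, Eventually.of_forall fun n => p2 (φ n), hl2⟩
  have hs := LQT_SEL.s_tendsto hj d c (kk := fun n => kk (φ n)) (x := fun n => x (φ n)) l1 l2
  have hs0 : 0 ≤ (limJet d c a1 a2).s := ge_of_tendsto' hs fun n => (hS (φ n)).le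
  have hnb : ¬ badS ks th a1 a2 := LQT_SEL.not_badS hL.hks hl1 hl2 fun n => hb (φ n)
  have hLim : LimS d c b ks th (fun n => kk (φ n)) (fun n => x (φ n)) a1 a2 :=
    { l1 := l1
      l2 := l2
      mem := fun n => hx (φ n)
      k8 := fun n => k8 (φ n)
      p1 := fun n => p1 (φ n)
      p2 := fun n => p2 (φ n)
      gd := ⟨ha.1, ha.2, hs0, hnb⟩ }
  obtain ⟨m, hm, hev⟩ := hseq _ _ a1 a2 hLim
  have h0 : Tendsto (fun n : ℕ => 1 / ((φ n : ℝ) + 1)) atTop (𝓝 0) :=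
    tendsto_one_div_add_atTop_nhds_zero_nat.comp hφ.tendsto_atTop
  obtain ⟨n, h2, h3⟩ := (hev.and (h0.eventually (gt_mem_nhds hm))).exists
  exact hP (φ n) (hmono m (1 / ((φ n : ℝ) + 1)) _ _ h3.le h2)

end Lq
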