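import Pool.Agent.Lq.St4

/-!
# T1: formulas (4.1) for the first and second derivatives of `W`
-/

set_option autoImplicit false

open Filter Topology

namespace Lq

namespace LQT_T1

/-! ## bilinearity of `JJ` -/

theorem JJ_lin1 (d : ℕ) (c : ℕ → ℕ → ℝ) (a a1 a2 : ℝ) (A A1 A2 B : ℕ → ℝ) :
    JJ d c (fun i => a * A i + a1 * A1 i + a2 * A2 i) B
      = a * JJ d c A B + a1 * JJ d c A1 B + a2 * JJ d c A2 B := by
  simp only [JJ, Finset.mul_sum]
  rw [← Finset.sum_add_distrib, ← Finset.sum_add_distrib]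
  refine Finset.sum_congr rfl fun i _ => ?_
  rw [← Finset.sum_add_distrib, ← Finset.sum_add_distrib]
  refine Finset.sum_congr rfl fun j _ => ?_
  ring

theorem JJ_lin2 (d : ℕ) (c : ℕ → ℕ → ℝ) (b b1 b2 : ℝ) (A B B1 B2 : ℕ → ℝ) :
    JJ d c A (fun j => b * B j + b1 * B1 j + b2 * B2 j)
      = b * JJ d c A B + b1 * JJ d c A B1 + b2 * JJ d c A B2 := by
  simp only [JJ, Finset.mul_sum]
  rw [← Finset.sum_add_distrib, ← Finset.sum_add_distrib]
  refine Finset.sum_congr rfl fun i _ => ?_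
  rw [← Finset.sum_add_distrib, ← Finset.sum_add_distrib]
  refine Finset.sum_congr rfl fun j _ => ?_
  ring

/-! ## derivative of `JJ` of functions -/

theorem hasFDeriv_JJ (d : ℕ) (c : ℕ → ℕ → ℝ) (A B : ℕ → ℝ → ℝ)
    (hA : ∀ i, Differentiable ℝ (A i)) (hB : ∀ j, Differentiable ℝ (B j)) (z : ℝ × ℝ) :
    HasFDerivAt (fun z : ℝ × ℝ => JJ d c (fun i => A i z.1) (fun j => B j z.2))
      (JJ d c (fun i => deriv (A i) z.1) (fun j => B j z.2) • ContinuousLinearMap.fst ℝ ℝ ℝ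
        + JJ d c (fun i => A i z.1) (fun j => deriv (B j) z.2) •
          ContinuousLinearMap.snd ℝ ℝ ℝ) z := by
  have h1 : ∀ i, HasFDerivAt (fun z : ℝ × ℝ => A i z.1)
      (deriv (A i) z.1 • ContinuousLinearMap.fst ℝ ℝ ℝ) z := by
    intro i
    exact HasDerivAt.comp_hasFDerivAt z (hA i z.1).hasDerivAt hasFDerivAt_fst
  have h2 : ∀ j, HasFDerivAt (fun z : ℝ × ℝ => B j z.2)
      (deriv (B j) z.2 • ContinuousLinearMap.snd ℝ ℝ ℝ) z := by
    intro j
    exact HasDerivAt.comp_hasFDerivAt z (hB j z.2).hasDerivAt hasFDerivAt_snd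
  have h3 : ∀ i j, HasFDerivAt (fun z : ℝ × ℝ => c i j * A i z.1 * B j z.2)
      ((c i j * A i z.1) • (deriv (B j) z.2 • ContinuousLinearMap.snd ℝ ℝ ℝ)
        + B j z.2 • (c i j • (deriv (A i) z.1 • ContinuousLinearMap.fst ℝ ℝ ℝ))) z := by
    intro i j
    exact ((h1 i).const_mul (c i j)).mul (h2 j)
  have h4 : HasFDerivAt (fun z : ℝ × ℝ => JJ d c (fun i => A i z.1) (fun j => B j z.2))
      (∑ i ∈ Finset.range (d + 1), ∑ j ∈ Finset.range (d + 1),
        ((c i j * A i z.1) • (deriv (B j) z.2 • ContinuousLinearMap.snd ℝ ℝ ℝ)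
        + B j z.2 • (c i j • (deriv (A i) z.1 • ContinuousLinearMap.fst ℝ ℝ ℝ)))) z := by
    unfold JJ
    exact HasFDerivAt.fun_sum fun i _ => HasFDerivAt.fun_sum fun j _ => h3 i j
  refine h4.congr_fderiv ?_
  apply ContinuousLinearMap.ext
  intro v
  simp only [ContinuousLinearMap.sum_apply, ContinuousLinearMap.add_apply,
    ContinuousLinearMap.smul_apply, ContinuousLinearMap.coe_fst', ContinuousLinearMap.coe_snd',
    smul_eq_mul, JJ, Finset.sum_mul]
  rw [← Finset.sum_add_distrib]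
  refine Finset.sum_congr rfl fun i _ => ?_
  rw [← Finset.sum_add_distrib]
  refine Finset.sum_congr rfl fun j _ => ?_
  ring

theorem fderiv_JJ (d : ℕ) (c : ℕ → ℕ → ℝ) (A B : ℕ → ℝ → ℝ)
    (hA : ∀ i, Differentiable ℝ (A i)) (hB : ∀ j, Differentiable ℝ (B j)) (z v : ℝ × ℝ) :
    fderiv ℝ (fun z : ℝ × ℝ => JJ d c (fun i => A i z.1) (fun j => B j z.2)) z v
      = JJ d c (fun i => deriv (A i) z.1) (fun j => B j z.2) * v.1
        + JJ d c (fun i => A i z.1) (fun j => deriv (B j) z.2) * v.2 := by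
  rw [(hasFDeriv_JJ d c A B hA hB z).fderiv]
  simp

theorem diff_JJ (d : ℕ) (c : ℕ → ℕ → ℝ) (A B : ℕ → ℝ → ℝ)
    (hA : ∀ i, Differentiable ℝ (A i)) (hB : ∀ j, Differentiable ℝ (B j)) (z : ℝ × ℝ) :
    DifferentiableAt ℝ (fun z : ℝ × ℝ => JJ d c (fun i => A i z.1) (fun j => B j z.2)) z :=
  (hasFDeriv_JJ d c A B hA hB z).differentiableAt

theorem fderiv2_JJ (d : ℕ) (c : ℕ → ℕ → ℝ) (A B : ℕ → ℝ → ℝ)
    (hA : ∀ i, Differentiable ℝ (A i)) (hB : ∀ j, Differentiable ℝ (B j))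
    (hA' : ∀ i, Differentiable ℝ (deriv (A i))) (hB' : ∀ j, Differentiable ℝ (deriv (B j)))
    (x v : ℝ × ℝ) :
    fderiv ℝ (fun z : ℝ × ℝ =>
        fderiv ℝ (fun z : ℝ × ℝ => JJ d c (fun i => A i z.1) (fun j => B j z.2)) z v) x v
      = JJ d c (fun i => deriv (deriv (A i)) x.1) (fun j => B j x.2) * v.1 ^ 2
        + 2 * JJ d c (fun i => deriv (A i) x.1) (fun j => deriv (B j) x.2) * v.1 * v.2
        + JJ d c (fun i => A i x.1) (fun j => deriv (deriv (B j)) x.2) * v.2 ^ 2 := by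
  have h0 : (fun z : ℝ × ℝ =>
        fderiv ℝ (fun z : ℝ × ℝ => JJ d c (fun i => A i z.1) (fun j => B j z.2)) z v)
      = fun z : ℝ × ℝ => (fun z : ℝ × ℝ =>
          JJ d c (fun i => deriv (A i) z.1) (fun j => B j z.2)) z * v.1
        + (fun z : ℝ × ℝ => JJ d c (fun i => A i z.1) (fun j => deriv (B j) z.2)) z * v.2 := by
    funext z
    exact fderiv_JJ d c A B hA hB z v
  rw [h0]
  have e1 := diff_JJ d c (fun i => deriv (A i)) B hA' hB x
  have e2 := diff_JJ d c A (fun j => deriv (B j)) hA hB' x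
  have f1 := fderiv_JJ d c (fun i => deriv (A i)) B hA' hB x v
  have f2 := fderiv_JJ d c A (fun j => deriv (B j)) hA hB' x v
  rw [fderiv_fun_add (e1.mul_const v.1) (e2.mul_const v.2), fderiv_mul_const e1,
    fderiv_mul_const e2]
  simp only [ContinuousLinearMap.add_apply, ContinuousLinearMap.smul_apply, smul_eq_mul]
  rw [f1, f2]
  ring

/-! ## quotients -/

theorem quot_der (g f : ℝ → ℝ) (hg : Differentiable ℝ g) (hg' : Differentiable ℝ (deriv g))
    (hf : Differentiable ℝ f) (hf' : Differentiable ℝ (deriv f)) (x : ℝ) (h0 : f x ≠ 0) :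
    deriv g x = deriv f x * (g x / f x) + f x * deriv (fun t => g t / f t) x ∧
    deriv (deriv g) x = deriv (deriv f) x * (g x / f x)
      + 2 * deriv f x * deriv (fun t => g t / f t) x
      + f x * deriv (deriv (fun t => g t / f t)) x := by
  have hev : ∀ᶠ t in 𝓝 x, f t ≠ 0 := hf.continuous.continuousAt.eventually_ne h0
  have hq : ∀ t, f t ≠ 0 → HasDerivAt (fun t => g t / f t)
      ((deriv g t * f t - g t * deriv f t) / (f t) ^ 2) t :=
    fun t ht => (hg t).hasDerivAt.fun_div (hf t).hasDerivAt ht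
  have hq' : deriv (fun t => g t / f t)
      =ᶠ[𝓝 x] fun t => (deriv g t * f t - g t * deriv f t) / (f t) ^ 2 :=
    hev.mono fun t ht => (hq t ht).deriv
  have hn : HasDerivAt (fun t => deriv g t * f t - g t * deriv f t)
      ((deriv (deriv g) x * f x + deriv g x * deriv f x)
        - (deriv g x * deriv f x + g x * deriv (deriv f) x)) x :=
    ((hg' x).hasDerivAt.fun_mul (hf x).hasDerivAt).fun_sub
      ((hg x).hasDerivAt.fun_mul (hf' x).hasDerivAt)
  have hd : HasDerivAt (fun t => (f t) ^ 2) (2 * f x * deriv f x) x := by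
    have := (hf x).hasDerivAt.fun_pow 2
    simpa using this
  have h2 := hn.fun_div hd (pow_ne_zero 2 h0)
  rw [hq'.deriv_eq, h2.deriv, (hq x h0).deriv]
  constructor
  · field_simp
    ring
  · field_simp
    ring

theorem smooth_F (hs : StmtSmooth) (k i : ℕ) (hk : 1 ≤ k) :
    ContDiff ℝ (⊤ : ℕ∞) (F k i) := by
  unfold F
  exact (hs k i hk).comp (contDiff_id.pow 2)

theorem diff_F (hs : StmtSmooth) (k i : ℕ) (hk : 1 ≤ k) :
    Differentiable ℝ (F k i) ∧ Differentiable ℝ (deriv (F k i)) := by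
  have h := smooth_F hs k i hk
  have h' := contDiff_infty_iff_deriv.1 h
  exact ⟨h'.1, (contDiff_infty_iff_deriv.1 h'.2).1⟩

/-- one block formulas -/
theorem block (hs : StmtSmooth) (ho : StmtODE) (hg : StmtSigns) (k i : ℕ) (x : ℝ) (hk : 8 ≤ k)
    (hx : Pos k x) :
    F k i x = F k 0 x * j0 k i x ∧
    x * deriv (F k i) x = F k 0 x * (-(X k x) * j0 k i x + D1 k x * j1 k i x) ∧
    x ^ 2 * deriv (deriv (F k i)) x = F k 0 x *
      ((X k x ^ 2 - ee k x) * j0 k i x - 2 * X k x * D1 k x * j1 k i x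
        + D2 k x * j2 k i x) := by
  have hk1 : 1 ≤ k := by omega
  have hx0 : 0 < x := hx.1
  have hf0 : 0 < F k 0 x := hx.2 x hx0.le le_rfl
  have hf : F k 0 x ≠ 0 := hf0.ne'
  have S := hg k x hk hx
  have hk0 : (0 : ℝ) < (k : ℝ) := by
    have : 0 < k := by omega
    exact_mod_cast this
  have hD1 : D1 k x ≠ 0 := S.d1.ne'
  have hD2 : D2 k x ≠ 0 := by
    have h1 : 0 < 4 * x ^ 2 / (k : ℝ) ^ 2 := by positivity
    exact (lt_of_lt_of_le h1 S.d2).ne'
  obtain ⟨q1, q2⟩ := quot_der (F k i) (F k 0) (diff_F hs k i hk1).1 (diff_F hs k i hk1).2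
    (diff_F hs k 0 hk1).1 (diff_F hs k 0 hk1).2 x hf
  have hX : x * deriv (F k 0) x = -(X k x) * F k 0 x := by
    unfold X
    field_simp
  have hode := (ho k hk1).2 x
  have hX2 : x ^ 2 * deriv (deriv (F k 0)) x = (X k x ^ 2 - ee k x) * F k 0 x := by
    have h1 : x ^ 2 * deriv (deriv (F k 0)) x
        = -((k : ℝ) - 1) * (x * deriv (F k 0) x) - x ^ 2 * F k 0 x := by
      linear_combination x * hode
    rw [h1, hX]
    unfold ee
    ring
  have e0 : j0 k i x = F k i x / F k 0 x := rfl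
  have e1 : D1 k x * j1 k i x = x * deriv (fun t => F k i t / F k 0 t) x := by
    unfold j1
    field_simp
  have e2 : D2 k x * j2 k i x = x ^ 2 * deriv (deriv (fun t => F k i t / F k 0 t)) x := by
    unfold j2
    field_simp
  refine ⟨?_, ?_, ?_⟩
  · rw [e0]
    field_simp
  · rw [q1, e1, e0]
    linear_combination (F k i x / F k 0 x) * hX
  · rw [q2]
    have e3 : 2 * X k x * D1 k x * j1 k i x
        = 2 * X k x * (x * deriv (fun t => F k i t / F k 0 t) x) := by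
      rw [← e1]
      ring
    rw [e3, e2, e0]
    linear_combination (F k i x / F k 0 x) * hX2
      + 2 * x * deriv (fun t => F k i t / F k 0 t) x * hX

end LQT_T1

open LQT_T1 in
theorem t_T1 (hs : StmtSmooth) (ho : StmtODE) (hg : StmtSigns) : StmtT1 := by
  intro k d c x v hk hx1 hx2
  have hk1 : 1 ≤ k := by omega
  have hk4 : 8 ≤ 4 * k := by omega
  have hk41 : 1 ≤ 4 * k := by omega
  have hxp : 0 < x.1 := hx1.1
  have hyp : 0 < x.2 := hx2.1
  have hx0 : x.1 ≠ 0 := hxp.ne'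
  have hy0 : x.2 ≠ 0 := hyp.ne'
  have hd1 : ∀ i, Differentiable ℝ (F k i) := fun i => (diff_F hs k i hk1).1
  have hd2 : ∀ i, Differentiable ℝ (deriv (F k i)) := fun i => (diff_F hs k i hk1).2
  have hd3 : ∀ i, Differentiable ℝ (F (4 * k) i) := fun i => (diff_F hs (4 * k) i hk41).1
  have hd4 : ∀ i, Differentiable ℝ (deriv (F (4 * k) i)) :=
    fun i => (diff_F hs (4 * k) i hk41).2
  -- vectors in terms of jets
  have a0 : (fun i => F k i x.1) = fun i => F k 0 x.1 * j0 k i x.1 + 0 * j1 k i x.1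
      + 0 * j2 k i x.1 := by
    funext i
    rw [(block hs ho hg k i x.1 hk hx1).1]
    ring
  have a1 : (fun i => deriv (F k i) x.1) = fun i =>
      (F k 0 x.1 * -(X k x.1) / x.1) * j0 k i x.1
      + (F k 0 x.1 * D1 k x.1 / x.1) * j1 k i x.1 + 0 * j2 k i x.1 := by
    funext i
    have h := (block hs ho hg k i x.1 hk hx1).2.1
    have h' : deriv (F k i) x.1 = (x.1 * deriv (F k i) x.1) / x.1 := by
      field_simp
    rw [h', h]
    ring
  have a2 : (fun i => deriv (deriv (F k i)) x.1) = fun i =>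
      (F k 0 x.1 * (X k x.1 ^ 2 - ee k x.1) / x.1 ^ 2) * j0 k i x.1
      + (F k 0 x.1 * -(2 * X k x.1 * D1 k x.1) / x.1 ^ 2) * j1 k i x.1
      + (F k 0 x.1 * D2 k x.1 / x.1 ^ 2) * j2 k i x.1 := by
    funext i
    have h := (block hs ho hg k i x.1 hk hx1).2.2
    have h' : deriv (deriv (F k i)) x.1 = (x.1 ^ 2 * deriv (deriv (F k i)) x.1) / x.1 ^ 2 := by
      field_simp
    rw [h', h]
    ring
  have b0 : (fun i => F (4 * k) i x.2) = fun i => F (4 * k) 0 x.2 * j0 (4 * k) i x.2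
      + 0 * j1 (4 * k) i x.2 + 0 * j2 (4 * k) i x.2 := by
    funext i
    rw [(block hs ho hg (4 * k) i x.2 hk4 hx2).1]
    ring
  have b1 : (fun i => deriv (F (4 * k) i) x.2) = fun i =>
      (F (4 * k) 0 x.2 * -(X (4 * k) x.2) / x.2) * j0 (4 * k) i x.2
      + (F (4 * k) 0 x.2 * D1 (4 * k) x.2 / x.2) * j1 (4 * k) i x.2
      + 0 * j2 (4 * k) i x.2 := by
    funext i
    have h := (block hs ho hg (4 * k) i x.2 hk4 hx2).2.1
    have h' : deriv (F (4 * k) i) x.2 = (x.2 * deriv (F (4 * k) i) x.2) / x.2 := by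
      field_simp
    rw [h', h]
    ring
  have b2 : (fun i => deriv (deriv (F (4 * k) i)) x.2) = fun i =>
      (F (4 * k) 0 x.2 * (X (4 * k) x.2 ^ 2 - ee (4 * k) x.2) / x.2 ^ 2) * j0 (4 * k) i x.2
      + (F (4 * k) 0 x.2 * -(2 * X (4 * k) x.2 * D1 (4 * k) x.2) / x.2 ^ 2) * j1 (4 * k) i x.2
      + (F (4 * k) 0 x.2 * D2 (4 * k) x.2 / x.2 ^ 2) * j2 (4 * k) i x.2 := by
    funext i
    have h := (block hs ho hg (4 * k) i x.2 hk4 hx2).2.2
    have h' : deriv (deriv (F (4 * k) i)) x.2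
        = (x.2 ^ 2 * deriv (deriv (F (4 * k) i)) x.2) / x.2 ^ 2 := by
      field_simp
    rw [h', h]
    ring
  have hW : W k d c = fun z : ℝ × ℝ => JJ d c (fun i => F k i z.1)
      (fun j => F (4 * k) j z.2) := rfl
  refine ⟨?_, ?_, ?_⟩
  · rw [hW]
    simp only []
    rw [a0, b0, JJ_lin1, JJ_lin2]
    simp only [kJet, mkJet, FF]
    ring
  · unfold d1
    rw [hW, fderiv_JJ d c (fun i => F k i) (fun j => F (4 * k) j) hd1 hd3 x v]
    rw [a0, b0, a1, b1]
    simp only [JJ_lin1, JJ_lin2, kJet, mkJet, FF, S1f, Xf]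
    ring
  · unfold d2
    rw [hW, fderiv2_JJ d c (fun i => F k i) (fun j => F (4 * k) j) hd1 hd3 hd2 hd4 x v]
    rw [a0, b0, a1, b1, a2, b2]
    simp only [JJ_lin1, JJ_lin2, kJet, mkJet, FF, S1f, S2f, Xf, Ef]
    ring

end Lq
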