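import Pool.Agent.Lq.St4

/-!
# LQT_T10: a lower bound for the trace and for `Tb` gives the conclusion of (b)
-/

set_option autoImplicit false

open Filter Topology

namespace Lq

namespace LQT_T10

/-- `e / D2 = (k/2) / (3 - g + De)`, hence it lies in `[0, k/4]` -/
theorem ll_bd (hg : StmtSigns) (k : ℕ) (x : ℝ) (hk : 8 ≤ k) (hx : Pos k x) :
    0 ≤ ll k x ∧ ll k x ≤ (k : ℝ) / 4 ∧ 0 < D2 k x := by
  have hS := hg k x hk hx
  have hkr : (0 : ℝ) < (k : ℝ) := by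
    have : (8 : ℝ) ≤ (k : ℝ) := by exact_mod_cast hk
    linarith
  have hx0 : 0 < x := hx.1
  have hD2 : 0 < D2 k x := by
    have h1 : 0 < 4 * x ^ 2 / (k : ℝ) ^ 2 := by positivity
    exact lt_of_lt_of_le h1 hS.d2
  have he : 0 < ee k x := lt_trans hS.X0 hS.eX
  have hg0 := hS.g0
  have hg1 := hS.g1
  have hde := hS.de
  have hd2e := hS.D2e
  -- yy / gg = 2 ee / k
  have hyg : yy k x / gg k x = 2 * ee k x / (k : ℝ) := by
    have hX := hS.X0
    unfold yy gg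
    field_simp
  have hD : D2 k x = 2 * ee k x / (k : ℝ) * (3 - gg k x + De k x) := by
    rw [hd2e, hyg]
  have h3 : 2 ≤ 3 - gg k x + De k x := by linarith
  refine ⟨?_, ?_, hD2⟩
  · unfold ll
    exact div_nonneg he.le hD2.le
  · unfold ll
    rw [div_le_iff₀ hD2, hD]
    have h4 : 0 ≤ ee k x * ((3 - gg k x + De k x) - 2) :=
      mul_nonneg he.le (by linarith)
    have h5 : (k : ℝ) / 4 * (2 * ee k x / (k : ℝ) * (3 - gg k x + De k x))
        = ee k x * (3 - gg k x + De k x) / 2 := by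
      field_simp
      ring
    rw [h5]
    linarith

/-- the upper bound of the trace -/
theorem trace_bd (k L1 L2 ct b r1 r2 s s1 s2 s11 s22 C : ℝ) (hk : 1 ≤ k) (hL1 : 0 ≤ L1)
    (hL2 : 0 ≤ L2) (h1 : L1 ≤ k / 4) (h2 : L2 ≤ k)
    (hC : |ct| * (5 / 4) * s ^ 2 + |b * r1 * s1 ^ 2 + b * r2 * s2 ^ 2 - s * s11 - s * s22| ≤ C) :
    (ct * L1 * s ^ 2 + b * r1 * s1 ^ 2 - s * s11) + (ct * L2 * s ^ 2 + b * r2 * s2 ^ 2 - s * s22)
      ≤ C * k := by
  have hA : ct * (L1 + L2) * s ^ 2 ≤ |ct| * (5 / 4 * k) * s ^ 2 := by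
    have h3 : ct * (L1 + L2) ≤ |ct| * (5 / 4 * k) := by
      have h4 : ct * (L1 + L2) ≤ |ct| * (L1 + L2) :=
        mul_le_mul_of_nonneg_right (le_abs_self _) (by linarith)
      have h5 : |ct| * (L1 + L2) ≤ |ct| * (5 / 4 * k) :=
        mul_le_mul_of_nonneg_left (by linarith) (abs_nonneg _)
      linarith
    exact mul_le_mul_of_nonneg_right h3 (sq_nonneg _)
  have hB : b * r1 * s1 ^ 2 + b * r2 * s2 ^ 2 - s * s11 - s * s22
      ≤ |b * r1 * s1 ^ 2 + b * r2 * s2 ^ 2 - s * s11 - s * s22| * k := by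
    have h6 := le_abs_self (b * r1 * s1 ^ 2 + b * r2 * s2 ^ 2 - s * s11 - s * s22)
    have h7 := abs_nonneg (b * r1 * s1 ^ 2 + b * r2 * s2 ^ 2 - s * s11 - s * s22)
    nlinarith
  have hCk : (|ct| * (5 / 4) * s ^ 2
      + |b * r1 * s1 ^ 2 + b * r2 * s2 ^ 2 - s * s11 - s * s22|) * k ≤ C * k :=
    mul_le_mul_of_nonneg_right hC (by linarith)
  nlinarith [hA, hB, hCk]

/-- `Df ≥ 0` -/
theorem Df_nonneg (k : ℕ) (x v : ℝ × ℝ) (h1 : 0 < D2 k x.1) (h2 : 0 < D2 (4 * k) x.2) :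
    0 ≤ Df k x v := by
  unfold Df
  have := mul_nonneg h1.le (sq_nonneg (v.1 / x.1))
  have := mul_nonneg h2.le (sq_nonneg (v.2 / x.2))
  linarith

end LQT_T10

open LQT_T10 in
theorem t_T10 (h3 : StmtT3) (h5 : StmtT5) (h8 : StmtT8) (h9 : StmtT9) (hg : StmtSigns) :
    StmtT10 := by
  intro d c b ks th hL kk x a1 a2 hS ⟨m, hm, hev⟩
  obtain ⟨hSpos, hJ, -⟩ := h5 d c b ks th hL kk x a1 a2 hS
  obtain ⟨hbb, hct, -, -, -, -, hr1, hr2⟩ := h9 d c b ks th kk x a1 a2 hS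
  obtain ⟨-, h3b, h3c⟩ := h3
  -- the bounding sequence converges
  have hlim := ((hct.abs.mul_const (5 / 4)).mul (hJ.s.pow 2)).add
    (((((hbb.mul hr1).mul (hJ.s1.pow 2)).add ((hbb.mul hr2).mul (hJ.s2.pow 2))).sub
      (hJ.s.mul hJ.s11)).sub (hJ.s.mul hJ.s22)).abs
  obtain ⟨C, hC⟩ : ∃ C : ℝ, ∀ᶠ n in atTop,
      |ct (kk n) (x n)| * (5 / 4) * (kJet (kk n) d c (x n).1 (x n).2).s ^ 2
      + |bb (kk n) * rk (kk n) (x n).1 * (kJet (kk n) d c (x n).1 (x n).2).s1 ^ 2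
        + bb (kk n) * rk (4 * kk n) (x n).2 * (kJet (kk n) d c (x n).1 (x n).2).s2 ^ 2
        - (kJet (kk n) d c (x n).1 (x n).2).s * (kJet (kk n) d c (x n).1 (x n).2).s11
        - (kJet (kk n) d c (x n).1 (x n).2).s * (kJet (kk n) d c (x n).1 (x n).2).s22| ≤ C := by
    refine ⟨_, (hlim.eventually (ge_mem_nhds (lt_add_one _)))⟩
  refine ⟨m / (max C 1), div_pos hm (lt_of_lt_of_le one_pos (le_max_right _ _)), ?_⟩
  filter_upwards [hev, hC] with n hn hCn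
  intro v
  have hk8 : 8 ≤ kk n := hS.k8 n
  have hkr8 : (8 : ℝ) ≤ (kk n : ℝ) := by exact_mod_cast hk8
  have hkr : (0 : ℝ) < (kk n : ℝ) := by linarith
  have hp1 := hS.p1 n
  have hp2 := hS.p2 n
  obtain ⟨hl1, hl1', hD1⟩ := ll_bd hg (kk n) (x n).1 hk8 hp1
  obtain ⟨hl2, hl2', hD2⟩ := ll_bd hg (4 * kk n) (x n).2 (by omega) hp2
  have hl2'' : ll (4 * kk n) (x n).2 ≤ (kk n : ℝ) := by
    have : ((4 * kk n : ℕ) : ℝ) / 4 = (kk n : ℝ) := by push_cast; ring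
    linarith
  have hs := hSpos n
  have h8' := h8 (kk n) (x n) v (kJet (kk n) d c (x n).1 (x n).2) hk8 hp1 hp2
  have hid := h3b (bb (kk n)) (rk (kk n) (x n).1) (rk (4 * kk n) (x n).2)
    (ct (kk n) (x n) * ll (kk n) (x n).1) (ct (kk n) (x n) * ll (4 * kk n) (x n).2)
    (kJet (kk n) d c (x n).1 (x n).2)
  have htr := trace_bd (kk n : ℝ) (ll (kk n) (x n).1) (ll (4 * kk n) (x n).2) (ct (kk n) (x n))
    (bb (kk n)) (rk (kk n) (x n).1) (rk (4 * kk n) (x n).2)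
    (kJet (kk n) d c (x n).1 (x n).2).s (kJet (kk n) d c (x n).1 (x n).2).s1
    (kJet (kk n) d c (x n).1 (x n).2).s2 (kJet (kk n) d c (x n).1 (x n).2).s11
    (kJet (kk n) d c (x n).1 (x n).2).s22 (max C 1) (by linarith) hl1 hl2 hl1' hl2''
    (le_trans hCn (le_max_left _ _))
  obtain ⟨hn1, hn2⟩ := hn
  revert h8' hid htr hn1 hn2 hs
  generalize (kJet (kk n) d c (x n).1 (x n).2) = S
  intro hs h8' hid htr hn1 hn2
  revert h8' hid htr hn1
  generalize hP : ct (kk n) (x n) * ll (kk n) (x n).1 * S.s ^ 2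
    + bb (kk n) * rk (kk n) (x n).1 * S.s1 ^ 2 - S.s * S.s11 = P
  generalize hQ : ct (kk n) (x n) * ll (4 * kk n) (x n).2 * S.s ^ 2
    + bb (kk n) * rk (4 * kk n) (x n).2 * S.s2 ^ 2 - S.s * S.s22 = Q
  generalize hM : bb (kk n) * S.s1 * S.s2 - S.s * S.s12 = M
  revert hn2
  generalize Tb (bb (kk n)) (rk (kk n) (x n).1) (rk (4 * kk n) (x n).2)
    (ct (kk n) (x n) * ll (kk n) (x n).1) (ct (kk n) (x n) * ll (4 * kk n) (x n).2) S = T
  intro hn2 h8' hid htr hn1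
  have hPQ : 0 < P + Q := lt_of_lt_of_le hm hn1
  have hT : 0 < T := lt_of_lt_of_le hm hn2
  have h3' := h3c (kk n) (x n) v P Q M hk8 hD1 hD2 hPQ (by rw [hid]; positivity)
  rw [hid] at h3'
  have hDf := Df_nonneg (kk n) (x n) v hD1 hD2
  have hC1 : 0 < max C 1 := lt_of_lt_of_le one_pos (le_max_right _ _)
  refine le_trans ?_ (le_trans h3' h8')
  refine mul_le_mul_of_nonneg_right ?_ hDf
  rw [le_div_iff₀ hPQ]
  have hkey : m / max C 1 / (kk n : ℝ) * (P + Q) ≤ T := by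
    have h10 : m / max C 1 / (kk n : ℝ) * (P + Q)
        ≤ m / max C 1 / (kk n : ℝ) * (max C 1 * (kk n : ℝ)) :=
      mul_le_mul_of_nonneg_left htr (by positivity)
    have h11 : m / max C 1 / (kk n : ℝ) * (max C 1 * (kk n : ℝ)) = m := by
      field_simp
    linarith
  have h12 := mul_le_mul_of_nonneg_left hkey hs.le
  calc m / max C 1 / (kk n : ℝ) * S.s * (P + Q)
      = S.s * (m / max C 1 / (kk n : ℝ) * (P + Q)) := by ring
    _ ≤ S.s * T := h12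

end Lq
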