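import Pool.Agent.Lq.St4

/-!
# T11: the form of (b) along sequences, case (alpha) `a1, a2 <= 1`, `(a1, a2) <> P`
-/

set_option autoImplicit false

open Filter Topology

namespace Lq

namespace LQT_T11

/-- the limit of `ct` is positive away from `P` -/
lemma c0_pos {a1 a2 : ℝ} (h1 : a1 ≤ 1) (h2 : a2 ≤ 1) (hne : ¬ (a1 = 1 / 2 ∧ a2 = 1 / 2)) :
    0 < 1 - 4 / 5 * a1 * max (1 - a1) 0 - 16 / 5 * a2 * max (1 - a2) 0 := by
  rw [max_eq_left (by linarith), max_eq_left (by linarith)]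
  have e : 1 - 4 / 5 * a1 * (1 - a1) - 16 / 5 * a2 * (1 - a2)
      = 4 / 5 * (a1 - 1 / 2) ^ 2 + 16 / 5 * (a2 - 1 / 2) ^ 2 := by ring
  rw [e]
  by_cases ha : a1 = 1 / 2
  · have hb : a2 - 1 / 2 ≠ 0 := fun h => hne ⟨ha, by linarith⟩
    have := sq_nonneg (a1 - 1 / 2)
    have : 0 < (a2 - 1 / 2) ^ 2 := by positivity
    nlinarith [sq_nonneg (a1 - 1 / 2)]
  · have hb : a1 - 1 / 2 ≠ 0 := fun h => ha (by linarith)
    have : 0 < (a1 - 1 / 2) ^ 2 := by positivity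
    nlinarith [sq_nonneg (a2 - 1 / 2)]

/-- the algebraic split of `Tb` -/
lemma Tb_split (b r1 r2 l1 l2 : ℝ) (S : Jet) :
    Tb b r1 r2 l1 l2 S =
      ((l1 * S.s - S.s11) * (b * r2 * S.s2 ^ 2 + S.s * (l2 * S.s - S.s22) / 2)
        + (l2 * S.s - S.s22) * (b * r1 * S.s1 ^ 2 + S.s * (l1 * S.s - S.s11) / 2))
      + (b * (2 * r1 * r2 * S.s12 * S.s1 * S.s2) - S.s * (r1 * r2 * S.s12 ^ 2)) := by
  unfold Tb; ring

lemma tendsto_affine_atTop {f g h : ℕ → ℝ} {g0 h0 : ℝ} (hf : Tendsto f atTop atTop)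
    (hg : Tendsto g atTop (𝓝 g0)) (hg0 : 0 < g0) (hh : Tendsto h atTop (𝓝 h0)) :
    Tendsto (fun n => f n * g n + h n) atTop atTop :=
  (hf.atTop_mul_pos hg0 hg).atTop_add hh

end LQT_T11

open LQT_T11 in
theorem t_T11 (h5 : StmtT5) (h9 : StmtT9) (h10 : StmtT10) : StmtT11 := by
  intro d c b ks th hL kk x a1 a2 hS h1 h2 hne
  obtain ⟨_, hJ, _⟩ := h5 d c b ks th hL kk x a1 a2 hS
  obtain ⟨hb, hct, hl1, hl2, _, _, hr1, hr2⟩ := h9 d c b ks th kk x a1 a2 hS
  replace hl1 := hl1 h1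
  replace hl2 := hl2 h2
  have hc0 := c0_pos h1 h2 hne
  have hs0 : 0 < (limJet d c a1 a2).s := hL.pos a1 a2 hS.gd.1.1 h1 hS.gd.2.1.1 h2
  set S : ℕ → Jet := fun n => kJet (kk n) d c (x n).1 (x n).2 with hSdef
  -- `l_i = ct ll_i -> infinity`
  have hL1 : Tendsto (fun n => ct (kk n) (x n) * ll (kk n) (x n).1) atTop atTop :=
    hct.pos_mul_atTop hc0 hl1
  have hL2 : Tendsto (fun n => ct (kk n) (x n) * ll (4 * kk n) (x n).2) atTop atTop :=
    hct.pos_mul_atTop hc0 hl2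
  -- `K_ii -> infinity`
  have hK1 : Tendsto (fun n => ct (kk n) (x n) * ll (kk n) (x n).1 * (S n).s - (S n).s11)
      atTop atTop := by
    have := tendsto_affine_atTop hL1 hJ.s hs0 hJ.s11.neg
    simpa [sub_eq_add_neg] using this
  have hK2 : Tendsto (fun n => ct (kk n) (x n) * ll (4 * kk n) (x n).2 * (S n).s - (S n).s22)
      atTop atTop := by
    have := tendsto_affine_atTop hL2 hJ.s hs0 hJ.s22.neg
    simpa [sub_eq_add_neg] using this
  -- `n_ii -> infinity`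
  have hN1 : Tendsto (fun n => ct (kk n) (x n) * ll (kk n) (x n).1 * (S n).s ^ 2
      + bb (kk n) * rk (kk n) (x n).1 * (S n).s1 ^ 2 - (S n).s * (S n).s11) atTop atTop := by
    have := tendsto_affine_atTop hK1 hJ.s hs0 ((hb.mul hr1).mul (hJ.s1.pow 2))
    refine this.congr (fun n => ?_)
    show _ = _
    simp only [hSdef]
    ring
  have hN2 : Tendsto (fun n => ct (kk n) (x n) * ll (4 * kk n) (x n).2 * (S n).s ^ 2
      + bb (kk n) * rk (4 * kk n) (x n).2 * (S n).s2 ^ 2 - (S n).s * (S n).s22) atTop atTop := by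
    have := tendsto_affine_atTop hK2 hJ.s hs0 ((hb.mul hr2).mul (hJ.s2.pow 2))
    refine this.congr (fun n => ?_)
    show _ = _
    simp only [hSdef]
    ring
  -- `Tb -> infinity`
  have hT : Tendsto (fun n => Tb (bb (kk n)) (rk (kk n) (x n).1) (rk (4 * kk n) (x n).2)
      (ct (kk n) (x n) * ll (kk n) (x n).1) (ct (kk n) (x n) * ll (4 * kk n) (x n).2)
      (S n)) atTop atTop := by
    have hs2 : (0 : ℝ) < (limJet d c a1 a2).s / 2 := by positivity
    have A1 := tendsto_affine_atTop hK2 (hJ.s.div_const 2) hs2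
      ((hb.mul hr2).mul (hJ.s2.pow 2))
    have A2 := tendsto_affine_atTop hK1 (hJ.s.div_const 2) hs2
      ((hb.mul hr1).mul (hJ.s1.pow 2))
    have A := (hK1.atTop_mul_atTop₀ A1).atTop_add_atTop (hK2.atTop_mul_atTop₀ A2)
    have B : Tendsto (fun n => bb (kk n) * (2 * rk (kk n) (x n).1 * rk (4 * kk n) (x n).2
        * (S n).s12 * (S n).s1 * (S n).s2)
        - (S n).s * (rk (kk n) (x n).1 * rk (4 * kk n) (x n).2 * (S n).s12 ^ 2)) atTop
        (𝓝 (1 * (2 * rr a1 * rr a2 * (limJet d c a1 a2).s12 * (limJet d c a1 a2).s1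
          * (limJet d c a1 a2).s2)
        - (limJet d c a1 a2).s * (rr a1 * rr a2 * (limJet d c a1 a2).s12 ^ 2))) :=
      (hb.mul (((((hr1.const_mul 2).mul hr2).mul hJ.s12).mul hJ.s1).mul hJ.s2)).sub
        (hJ.s.mul ((hr1.mul hr2).mul (hJ.s12.pow 2)))
    refine (A.atTop_add B).congr (fun n => ?_)
    rw [Tb_split]
    show _ = _
    simp only [hSdef]
    ring
  refine h10 d c b ks th hL kk x a1 a2 hS ⟨1, one_pos, ?_⟩
  filter_upwards [hN1.eventually_ge_atTop 1, hN2.eventually_ge_atTop 0,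
    hT.eventually_ge_atTop 1] with n e1 e2 e3
  refine ⟨?_, e3⟩
  have := add_le_add e1 e2
  simpa [hSdef] using this

end Lq
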