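import Pool.Agent.Lq.St4

/-!
# Module LQT_T12: case beta, `a1 > 1 >= a2`
-/

set_option autoImplicit false

open Filter Topology

namespace Lq

namespace LQT_T12

/-- The abstract form of the case. -/
theorem core (S : ℕ → Jet) (S0 : Jet) (hS : ∀ n, 0 < (S n).s) (hJ : JetTo S S0)
    (bn r1 r2 L1 L2 : ℕ → ℝ) (ρ1 ρ2 lam : ℝ)
    (hb : Tendsto bn atTop (𝓝 1)) (hr1 : Tendsto r1 atTop (𝓝 ρ1))
    (hr2 : Tendsto r2 atTop (𝓝 ρ2)) (hL1 : Tendsto L1 atTop (𝓝 lam))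
    (hL2 : Tendsto L2 atTop atTop) (hρ1 : 0 < ρ1) (hρ2 : 0 ≤ ρ2) (hlam : 0 ≤ lam)
    (h0 : 0 ≤ S0.s) (h11 : S0.s11 = S0.s1) (hneg : S0.s1 < 0)
    (hwall : S0.s = 0 → 0 < Tb 1 ρ1 ρ2 0 0 S0) :
    ∃ m : ℝ, 0 < m ∧ ∀ᶠ n in atTop,
      m ≤ (L1 n * (S n).s ^ 2 + bn n * r1 n * (S n).s1 ^ 2 - (S n).s * (S n).s11)
        + (L2 n * (S n).s ^ 2 + bn n * r2 n * (S n).s2 ^ 2 - (S n).s * (S n).s22) ∧
      m ≤ Tb (bn n) (r1 n) (r2 n) (L1 n) (L2 n) (S n) := by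
  have ts := hJ.s
  have t1 := hJ.s1
  have t2 := hJ.s2
  have t12 := hJ.s12
  have t11 := hJ.s11
  have t22 := hJ.s22
  -- the limit of `K11`, `N11`
  have tK : Tendsto (fun n => L1 n * (S n).s - (S n).s11) atTop (𝓝 (lam * S0.s - S0.s11)) :=
    (hL1.mul ts).sub t11
  have tN : Tendsto (fun n => bn n * r1 n * (S n).s1 ^ 2 +
      (S n).s * (L1 n * (S n).s - (S n).s11)) atTop
      (𝓝 (1 * ρ1 * S0.s1 ^ 2 + S0.s * (lam * S0.s - S0.s11))) :=
    ((hb.mul hr1).mul (t1.pow 2)).add (ts.mul tK)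
  set N : ℝ := 1 * ρ1 * S0.s1 ^ 2 + S0.s * (lam * S0.s - S0.s11) with hN
  have hN0 : 0 < N := by
    have e1 : 0 < ρ1 * S0.s1 ^ 2 := mul_pos hρ1 (by nlinarith)
    have e2 : 0 ≤ S0.s * (lam * S0.s - S0.s11) := by
      apply mul_nonneg h0
      have := mul_nonneg hlam h0
      rw [h11]
      linarith
    rw [hN]
    linarith
  -- the remaining part of the trace
  have tR : Tendsto (fun n => bn n * r2 n * (S n).s2 ^ 2 - (S n).s * (S n).s22) atTop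
      (𝓝 (1 * ρ2 * S0.s2 ^ 2 - S0.s * S0.s22)) :=
    ((hb.mul hr2).mul (t2.pow 2)).sub (ts.mul t22)
  -- the first two parts of the determinant
  have tA : Tendsto (fun n => (bn n * (L1 n * (S n).s - (S n).s11) * r2 n * (S n).s2 ^ 2 +
      2 * bn n * r1 n * r2 n * (S n).s12 * (S n).s1 * (S n).s2 -
      bn n * (S n).s22 * r1 n * (S n).s1 ^ 2) +
      (S n).s * (-((L1 n * (S n).s - (S n).s11) * (S n).s22) - r1 n * r2 n * (S n).s12 ^ 2)) atTop
      (𝓝 ((1 * (lam * S0.s - S0.s11) * ρ2 * S0.s2 ^ 2 +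
      2 * 1 * ρ1 * ρ2 * S0.s12 * S0.s1 * S0.s2 - 1 * S0.s22 * ρ1 * S0.s1 ^ 2) +
      S0.s * (-((lam * S0.s - S0.s11) * S0.s22) - ρ1 * ρ2 * S0.s12 ^ 2))) := by
    refine Tendsto.add (Tendsto.sub (Tendsto.add ?_ ?_) ?_) (ts.mul (Tendsto.sub ?_ ?_))
    · exact ((hb.mul tK).mul hr2).mul (t2.pow 2)
    · exact (((((hb.const_mul 2).mul hr1).mul hr2).mul t12).mul t1).mul t2
    · exact ((hb.mul t22).mul hr1).mul (t1.pow 2)
    · exact (tK.mul t22).neg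
    · exact (hr1.mul hr2).mul (t12.pow 2)
  have hTb : ∀ n, Tb (bn n) (r1 n) (r2 n) (L1 n) (L2 n) (S n) =
      ((bn n * (L1 n * (S n).s - (S n).s11) * r2 n * (S n).s2 ^ 2 +
      2 * bn n * r1 n * r2 n * (S n).s12 * (S n).s1 * (S n).s2 -
      bn n * (S n).s22 * r1 n * (S n).s1 ^ 2) +
      (S n).s * (-((L1 n * (S n).s - (S n).s11) * (S n).s22) - r1 n * r2 n * (S n).s12 ^ 2)) +
      L2 n * ((S n).s * (bn n * r1 n * (S n).s1 ^ 2 +
      (S n).s * (L1 n * (S n).s - (S n).s11))) := by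
    intro n
    unfold Tb
    ring
  rcases h0.eq_or_lt with hz | hp
  · -- the wall
    set A0 : ℝ := (1 * (lam * S0.s - S0.s11) * ρ2 * S0.s2 ^ 2 +
      2 * 1 * ρ1 * ρ2 * S0.s12 * S0.s1 * S0.s2 - 1 * S0.s22 * ρ1 * S0.s1 ^ 2) +
      S0.s * (-((lam * S0.s - S0.s11) * S0.s22) - ρ1 * ρ2 * S0.s12 ^ 2) with hA0
    have hA : 0 < A0 := by
      have := hwall hz.symm
      unfold Tb at this
      rw [hA0]
      rw [← hz] at this ⊢
      linarith
    refine ⟨min (N / 2) (A0 / 2), lt_min (by linarith) (by linarith), ?_⟩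
    have e1 : ∀ᶠ n in atTop, N / 2 < (bn n * r1 n * (S n).s1 ^ 2 +
      (S n).s * (L1 n * (S n).s - (S n).s11)) + (bn n * r2 n * (S n).s2 ^ 2 -
        (S n).s * (S n).s22) := by
      refine (tN.add tR).eventually_const_lt ?_
      have := mul_nonneg hρ2 (sq_nonneg S0.s2)
      rw [← hz, zero_mul, sub_zero, one_mul]
      linarith
    have e2 : ∀ᶠ n in atTop, A0 / 2 < (bn n * (L1 n * (S n).s - (S n).s11) * r2 n * (S n).s2 ^ 2 +
      2 * bn n * r1 n * r2 n * (S n).s12 * (S n).s1 * (S n).s2 -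
      bn n * (S n).s22 * r1 n * (S n).s1 ^ 2) +
      (S n).s * (-((L1 n * (S n).s - (S n).s11) * (S n).s22) - r1 n * r2 n * (S n).s12 ^ 2) :=
      tA.eventually_const_lt (by linarith)
    have e3 : ∀ᶠ n in atTop, 0 < bn n * r1 n * (S n).s1 ^ 2 +
      (S n).s * (L1 n * (S n).s - (S n).s11) := tN.eventually_const_lt hN0
    filter_upwards [e1, e2, e3, hL2.eventually_ge_atTop 0] with n h1 h2 h3 h4
    constructor
    · have h5 := mul_nonneg h4 (sq_nonneg (S n).s)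
      have h6 : min (N / 2) (A0 / 2) ≤ N / 2 := min_le_left _ _
      nlinarith
    · rw [hTb]
      have h5 := mul_nonneg h4 (mul_nonneg (hS n).le h3.le)
      have h6 : min (N / 2) (A0 / 2) ≤ A0 / 2 := min_le_right _ _
      linarith
  · -- the interior
    refine ⟨1, one_pos, ?_⟩
    have e1 : Tendsto (fun n => ((bn n * r1 n * (S n).s1 ^ 2 +
      (S n).s * (L1 n * (S n).s - (S n).s11)) + (bn n * r2 n * (S n).s2 ^ 2 -
        (S n).s * (S n).s22)) + L2 n * (S n).s ^ 2) atTop atTop :=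
      (tN.add tR).add_atTop (hL2.atTop_mul_pos (pow_pos hp 2) (ts.pow 2))
    have e2 : Tendsto (fun n => ((bn n * (L1 n * (S n).s - (S n).s11) * r2 n * (S n).s2 ^ 2 +
      2 * bn n * r1 n * r2 n * (S n).s12 * (S n).s1 * (S n).s2 -
      bn n * (S n).s22 * r1 n * (S n).s1 ^ 2) +
      (S n).s * (-((L1 n * (S n).s - (S n).s11) * (S n).s22) - r1 n * r2 n * (S n).s12 ^ 2)) +
      L2 n * ((S n).s * (bn n * r1 n * (S n).s1 ^ 2 +
      (S n).s * (L1 n * (S n).s - (S n).s11)))) atTop atTop :=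
      tA.add_atTop (hL2.atTop_mul_pos (mul_pos hp hN0) (ts.mul tN))
    filter_upwards [e1.eventually_ge_atTop 1, e2.eventually_ge_atTop 1] with n h1 h2
    constructor
    · nlinarith
    · rw [hTb]
      exact h2

end LQT_T12

open LQT_T12 in
theorem t_T12 (h5 : StmtT5) (h9 : StmtT9) (h10 : StmtT10) : StmtT12 := by
  intro d c b ks th hL kk x a1 a2 h2 ha1 ha2
  obtain ⟨hSp, hJ, -⟩ := h5 d c b ks th hL kk x a1 a2 h2
  obtain ⟨tb, tc, -, tl2, tl1, -, tr1, tr2⟩ := h9 d c b ks th kk x a1 a2 h2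
  have tl1 := tl1 ha1
  have tl2 := tl2 ha2
  have hgd := h2.gd
  obtain ⟨-, ⟨ha20, -⟩, hs0, -⟩ := h2.gd
  refine h10 d c b ks th hL kk x a1 a2 h2 ?_
  have hc0 : 0 < 1 - 4 / 5 * a1 * max (1 - a1) 0 - 16 / 5 * a2 * max (1 - a2) 0 := by
    rw [max_eq_right (by linarith : 1 - a1 ≤ 0), max_eq_left (by linarith : (0 : ℝ) ≤ 1 - a2)]
    nlinarith [sq_nonneg (a2 - 1 / 2)]
  have hρ1 : 0 < rr a1 := by
    unfold rr
    rw [if_neg (not_le.mpr ha1)]
    linarith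
  have hρ2 : 0 ≤ rr a2 := by
    unfold rr
    rw [if_pos ha2]
    exact mul_nonneg (mul_nonneg ha20 (by linarith)) (by linarith)
  have h11 : (limJet d c a1 a2).s11 = (limJet d c a1 a2).s1 := by
    unfold limJet mkJet
    simp only
    unfold t1 t2
    simp only [if_neg (not_le.mpr ha1)]
  exact core (fun n => kJet (kk n) d c (x n).1 (x n).2) (limJet d c a1 a2) hSp hJ
    (fun n => bb (kk n)) (fun n => rk (kk n) (x n).1) (fun n => rk (4 * kk n) (x n).2)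
    (fun n => ct (kk n) (x n) * ll (kk n) (x n).1)
    (fun n => ct (kk n) (x n) * ll (4 * kk n) (x n).2) (rr a1) (rr a2)
    ((1 - 4 / 5 * a1 * max (1 - a1) 0 - 16 / 5 * a2 * max (1 - a2) 0) * (1 / (2 * (a1 - 1))))
    tb tr1 tr2 (tc.mul tl1) (tc.pos_mul_atTop hc0 tl2) hρ1 hρ2
    (mul_nonneg hc0.le (by
      apply div_nonneg zero_le_one
      linarith)) hs0 h11 (hL.neg1 a1 a2 hgd ha1) (hL.wall a1 a2 hgd)

end Lq
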