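import Pool.Agent.Lq.St4

/-!
# T14: case delta
-/

set_option autoImplicit false

open Filter Topology

namespace Lq

namespace LQT_T14

theorem t21 {a : ℝ} (h : 1 < a) : (fun i => t2 i a) = (fun i => t1 i a) := by
  funext i
  simp only [t2, t1, if_neg (not_le.2 h)]

theorem tb_tendsto {b r1 r2 l1 l2 : ℕ → ℝ} {S : ℕ → Jet} {b0 r10 r20 l10 l20 : ℝ} {S0 : Jet}
    (hb : Tendsto b atTop (𝓝 b0)) (hr1 : Tendsto r1 atTop (𝓝 r10))
    (hr2 : Tendsto r2 atTop (𝓝 r20)) (hl1 : Tendsto l1 atTop (𝓝 l10))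
    (hl2 : Tendsto l2 atTop (𝓝 l20)) (hS : JetTo S S0) :
    Tendsto (fun n => Tb (b n) (r1 n) (r2 n) (l1 n) (l2 n) (S n)) atTop
      (𝓝 (Tb b0 r10 r20 l10 l20 S0)) := by
  unfold Tb
  exact ((hb.mul ((((((hl1.mul hS.s).sub hS.s11).mul hr2).mul (hS.s2.pow 2)).add
    ((((((tendsto_const_nhds (x := (2 : ℝ))).mul hr1).mul hr2).mul hS.s12).mul hS.s1).mul
      hS.s2)).add ((((hl2.mul hS.s).sub hS.s22).mul hr1).mul (hS.s1.pow 2)))).add
    (hS.s.mul ((((hl1.mul hS.s).sub hS.s11).mul ((hl2.mul hS.s).sub hS.s22)).sub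
      ((hr1.mul hr2).mul (hS.s12.pow 2)))))

theorem pos_aux {l r s s1 : ℝ} (hl : 0 < l) (hr : 0 < r) (hs : 0 ≤ s) (hs1 : s1 < 0) :
    0 < l * s ^ 2 + r * s1 ^ 2 - s * s1 := by
  have h1 : 0 ≤ l * s ^ 2 := by positivity
  have h2 : 0 < r * s1 ^ 2 := mul_pos hr (by nlinarith)
  have h3 : s * s1 ≤ 0 := mul_nonpos_of_nonneg_of_nonpos hs hs1.le
  linarith

end LQT_T14

open LQT_T14 in
theorem t_T14 (h5 : StmtT5) (h9 : StmtT9) (h10 : StmtT10) : StmtT14 := by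
  intro d c b ks th hL kk x a1 a2 hl ha1 ha2
  obtain ⟨-, hJ, -⟩ := h5 d c b ks th hL kk x a1 a2 hl
  obtain ⟨hb, hc, -, -, hl1, hl2, hr1, hr2⟩ := h9 d c b ks th kk x a1 a2 hl
  have hl1 := hl1 ha1
  have hl2 := hl2 ha2
  have hc1 : Tendsto (fun n => ct (kk n) (x n)) atTop (𝓝 1) := by
    have h : (1 - 4 / 5 * a1 * max (1 - a1) 0 - 16 / 5 * a2 * max (1 - a2) 0) = 1 := by
      rw [max_eq_right (by linarith), max_eq_right (by linarith)]
      ring
    rwa [h] at hc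
  have hg := hl.gd
  have hcl1 : Tendsto (fun n => ct (kk n) (x n) * ll (kk n) (x n).1) atTop
      (𝓝 (1 / (2 * (a1 - 1)))) := by
    have := hc1.mul hl1
    rwa [one_mul] at this
  have hcl2 : Tendsto (fun n => ct (kk n) (x n) * ll (4 * kk n) (x n).2) atTop
      (𝓝 (1 / (2 * (a2 - 1)))) := by
    have := hc1.mul hl2
    rwa [one_mul] at this
  have ht := tb_tendsto hb hr1 hr2 hcl1 hcl2 hJ
  have hT := hL.corner a1 a2 hg ha1 ha2
  have hn := (((hcl1.mul (hJ.s.pow 2)).add ((hb.mul hr1).mul (hJ.s1.pow 2))).sub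
      (hJ.s.mul hJ.s11)).add
    (((hcl2.mul (hJ.s.pow 2)).add ((hb.mul hr2).mul (hJ.s2.pow 2))).sub
      (hJ.s.mul hJ.s22))
  have hs11 : (limJet d c a1 a2).s11 = (limJet d c a1 a2).s1 := by
    simp only [limJet, mkJet, t21 ha1]
  have hs22 : (limJet d c a1 a2).s22 = (limJet d c a1 a2).s2 := by
    simp only [limJet, mkJet, t21 ha2]
  have hrr1 : 0 < rr a1 := by
    simp only [rr, if_neg (not_le.2 ha1)]
    linarith
  have hrr2 : 0 < rr a2 := by
    simp only [rr, if_neg (not_le.2 ha2)]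
    linarith
  have hp1 := pos_aux (l := 1 / (2 * (a1 - 1))) (by
    have : 0 < a1 - 1 := by linarith
    positivity) hrr1 hg.2.2.1 (hL.neg1 a1 a2 hg ha1)
  have hp2 := pos_aux (l := 1 / (2 * (a2 - 1))) (by
    have : 0 < a2 - 1 := by linarith
    positivity) hrr2 hg.2.2.1 (hL.neg2 a1 a2 hg ha2)
  rw [hs11, hs22, one_mul, one_mul] at hn
  have hN := add_pos hp1 hp2
  refine h10 d c b ks th hL kk x a1 a2 hl ⟨_, lt_min (half_pos hN) (half_pos hT), ?_⟩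
  filter_upwards [hn.eventually (lt_mem_nhds (half_lt_self hN)),
    ht.eventually (lt_mem_nhds (half_lt_self hT))] with n h1 h2
  exact ⟨(min_le_left _ _).trans h1.le, (min_le_right _ _).trans h2.le⟩

end Lq
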