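import Pool.Agent.Lq.St4

/-!
# LQT_T15: assembly near the critical point `P = (1/2, 1/2)`
-/

set_option autoImplicit false

open Filter Topology

namespace Lq

namespace LQT_T15

/-- two dimensional Cauchy inequality for a positive definite form -/
theorem cauchy2 (a c d v1 v2 y1 y2 be : ℝ) (ha : 0 < a) (hdet : 0 < a * d - c ^ 2) (hbe : 0 ≤ be)
    (h : be * (d * v1 ^ 2 - 2 * c * v1 * v2 + a * v2 ^ 2) ≤ a * d - c ^ 2) :
    be * (v1 * y1 + v2 * y2) ^ 2 ≤ a * y1 ^ 2 + 2 * c * y1 * y2 + d * y2 ^ 2 := by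
  have hQ : 0 ≤ a * y1 ^ 2 + 2 * c * y1 * y2 + d * y2 ^ 2 := by
    have h1 : 0 ≤ a * (a * y1 ^ 2 + 2 * c * y1 * y2 + d * y2 ^ 2) := by
      have e : a * (a * y1 ^ 2 + 2 * c * y1 * y2 + d * y2 ^ 2)
          = (a * y1 + c * y2) ^ 2 + (a * d - c ^ 2) * y2 ^ 2 := by ring
      rw [e]
      exact add_nonneg (sq_nonneg _) (mul_nonneg hdet.le (sq_nonneg _))
    exact nonneg_of_mul_nonneg_right h1 ha
  have hC : (v1 * y1 + v2 * y2) ^ 2 * (a * d - c ^ 2)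
      ≤ (d * v1 ^ 2 - 2 * c * v1 * v2 + a * v2 ^ 2)
        * (a * y1 ^ 2 + 2 * c * y1 * y2 + d * y2 ^ 2) := by
    have e : (d * v1 ^ 2 - 2 * c * v1 * v2 + a * v2 ^ 2)
        * (a * y1 ^ 2 + 2 * c * y1 * y2 + d * y2 ^ 2)
        - (v1 * y1 + v2 * y2) ^ 2 * (a * d - c ^ 2)
        = ((d * v1 - c * v2) * y2 - (a * v2 - c * v1) * y1) ^ 2 := by ring
    have := sq_nonneg ((d * v1 - c * v2) * y2 - (a * v2 - c * v1) * y1)
    rw [← e] at this
    linarith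
  have h2 : be * (v1 * y1 + v2 * y2) ^ 2 * (a * d - c ^ 2)
      ≤ (a * y1 ^ 2 + 2 * c * y1 * y2 + d * y2 ^ 2) * (a * d - c ^ 2) := by
    calc be * (v1 * y1 + v2 * y2) ^ 2 * (a * d - c ^ 2)
        = be * ((v1 * y1 + v2 * y2) ^ 2 * (a * d - c ^ 2)) := by ring
      _ ≤ be * ((d * v1 ^ 2 - 2 * c * v1 * v2 + a * v2 ^ 2)
        * (a * y1 ^ 2 + 2 * c * y1 * y2 + d * y2 ^ 2)) := mul_le_mul_of_nonneg_left hC hbe
      _ = (be * (d * v1 ^ 2 - 2 * c * v1 * v2 + a * v2 ^ 2))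
        * (a * y1 ^ 2 + 2 * c * y1 * y2 + d * y2 ^ 2) := by ring
      _ ≤ (a * d - c ^ 2) * (a * y1 ^ 2 + 2 * c * y1 * y2 + d * y2 ^ 2) :=
        mul_le_mul_of_nonneg_right h hQ
      _ = _ := by ring
  exact le_of_mul_le_mul_right h2 hdet

/-- the curly bracket in terms of `pA`, `pV` -/
theorem CB_eq (be : ℝ) (k : ℕ) (x v : ℝ × ℝ) (S : Jet) (hS : 0 < S.s)
    (h1 : 0 < D2 k x.1) (h2 : 0 < D2 (4 * k) x.2) (m : ℝ) :
    CB be k x v S = S.s ^ 2 * (m / (k : ℝ) * Ef k x v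
      + ((pa m k x S * (v.1 / x.1) ^ 2 + 2 * pA12 k x S * (v.1 / x.1) * (v.2 / x.2)
          + pd m k x S * (v.2 / x.2) ^ 2)
        - be * (pV1 k x S * (v.1 / x.1) + pV2 k x S * (v.2 / x.2)) ^ 2)) := by
  have hr1 : D2 k x.1 * rk k x.1 = D1 k x.1 ^ 2 := by
    unfold rk; field_simp
  have hr2 : D2 (4 * k) x.2 * rk (4 * k) x.2 = D1 (4 * k) x.2 ^ 2 := by
    unfold rk; field_simp
  have e1 : S.s ^ 2 * pA11 k x S = -(D2 k x.1 * S.s * S.s11) + D1 k x.1 ^ 2 * S.s1 ^ 2 := by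
    unfold pA11
    rw [← hr1]
    field_simp
  have e2 : S.s ^ 2 * pA22 k x S
      = -(D2 (4 * k) x.2 * S.s * S.s22) + D1 (4 * k) x.2 ^ 2 * S.s2 ^ 2 := by
    unfold pA22
    rw [← hr2]
    field_simp
  have e3 : S.s ^ 2 * pA12 k x S
      = D1 k x.1 * D1 (4 * k) x.2 * (-(S.s * S.s12) + S.s1 * S.s2) := by
    unfold pA12
    field_simp
  have e4 : S.s * pV1 k x S = S.s * X k x.1 - D1 k x.1 * S.s1 := by
    unfold pV1; field_simp
  have e5 : S.s * pV2 k x S = S.s * X (4 * k) x.2 - D1 (4 * k) x.2 * S.s2 := by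
    unfold pV2; field_simp
  have key : S.s ^ 2 * (m / (k : ℝ) * Ef k x v
      + ((pa m k x S * (v.1 / x.1) ^ 2 + 2 * pA12 k x S * (v.1 / x.1) * (v.2 / x.2)
          + pd m k x S * (v.2 / x.2) ^ 2)
        - be * (pV1 k x S * (v.1 / x.1) + pV2 k x S * (v.2 / x.2)) ^ 2))
      = S.s ^ 2 * Ef k x v + (S.s ^ 2 * pA11 k x S) * (v.1 / x.1) ^ 2
        + 2 * (S.s ^ 2 * pA12 k x S) * (v.1 / x.1) * (v.2 / x.2)
        + (S.s ^ 2 * pA22 k x S) * (v.2 / x.2) ^ 2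
        - be * ((S.s * pV1 k x S) * (v.1 / x.1) + (S.s * pV2 k x S) * (v.2 / x.2)) ^ 2 := by
    unfold pa pd Ef
    ring
  rw [key, e1, e2, e3, e4, e5]
  unfold CB S1f S2f Xf
  ring

end LQT_T15

open LQT_T15 in
theorem t_T15 (ha : StmtT15a) (hq : StmtT15q) (h5 : StmtT5) (hg : StmtSigns) : StmtT15 := by
  intro d c b ks th hL kk x hS
  have hP : PLim kk x := ha d c b ks th kk x hS
  obtain ⟨m, hm, hev⟩ := hq d c b ks th hL kk x hS hP
  obtain ⟨hpos, hJ, -⟩ := h5 d c b ks th hL kk x (1 / 2) (1 / 2) hS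
  have hs0 : 0 < (limJet d c (1 / 2) (1 / 2)).s :=
    hL.pos (1 / 2) (1 / 2) (by norm_num) (by norm_num) (by norm_num) (by norm_num)
  set s0 : ℝ := (limJet d c (1 / 2) (1 / 2)).s with hs0def
  refine ⟨m * (s0 / 2), by positivity, ?_⟩
  have hs : ∀ᶠ n in atTop, s0 / 2 < (kJet (kk n) d c (x n).1 (x n).2).s :=
    hJ.s.eventually_const_lt (by linarith)
  have hd1 : ∀ᶠ n in atTop, D2 (kk n) (x n).1 < 7 := hP.dd1.eventually_lt_const (by norm_num)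
  have hd2 : ∀ᶠ n in atTop, D2 (4 * kk n) (x n).2 < 7 := hP.dd2.eventually_lt_const (by norm_num)
  have he1 : ∀ᶠ n in atTop, (1 / 4 : ℝ) < ee (kk n) (x n).1 / (kk n : ℝ) :=
    hP.e1.eventually_const_lt (by norm_num)
  have he2 : ∀ᶠ n in atTop, (1 / 4 : ℝ) < ee (4 * kk n) (x n).2 / (kk n : ℝ) :=
    hP.e2.eventually_const_lt (by norm_num)
  have hk : ∀ᶠ n in atTop, 28 ≤ kk n := hP.hk.eventually_ge_atTop 28
  filter_upwards [hev, hs, hd1, hd2, he1, he2, hk] with n hn hs hd1 hd2 he1 he2 hk v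
  obtain ⟨hpa, hdet, hbe⟩ := hn
  have hS1 := hg (kk n) (x n).1 (hS.k8 n) (hS.p1 n)
  have hS2 := hg (4 * kk n) (x n).2 (by have := hS.k8 n; omega) (hS.p2 n)
  have hkR : (28 : ℝ) ≤ (kk n : ℝ) := by exact_mod_cast hk
  have hk0 : (0 : ℝ) < (kk n : ℝ) := by linarith
  have hx1 : 0 < (x n).1 := (hS.p1 n).1
  have hx2 : 0 < (x n).2 := (hS.p2 n).1
  have hD1 : 0 < D2 (kk n) (x n).1 := lt_of_lt_of_le (by positivity) hS1.d2
  have hD2 : 0 < D2 (4 * kk n) (x n).2 := by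
    refine lt_of_lt_of_le ?_ hS2.d2
    have : (0 : ℝ) < ((4 * kk n : ℕ) : ℝ) := by
      push_cast; linarith
    positivity
  have hSs := hpos n
  rw [CB_eq (beta (kk n)) (kk n) (x n) v (kJet (kk n) d c (x n).1 (x n).2) hSs hD1 hD2 m]
  have hbeta : 0 ≤ beta (kk n) := by
    unfold beta
    apply div_nonneg (by norm_num)
    linarith
  have hC := cauchy2 _ _ _ _ _ ((v.1 / (x n).1)) ((v.2 / (x n).2)) _ hpa hdet hbeta hbe
  -- `Ef ≥ Df`
  rw [lt_div_iff₀ hk0] at he1 he2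
  have hE : Df (kk n) (x n) v ≤ Ef (kk n) (x n) v := by
    unfold Df Ef
    have i1 : D2 (kk n) (x n).1 ≤ ee (kk n) (x n).1 := by linarith
    have i2 : D2 (4 * kk n) (x n).2 ≤ ee (4 * kk n) (x n).2 := by linarith
    exact add_le_add (mul_le_mul_of_nonneg_right i1 (sq_nonneg _))
      (mul_le_mul_of_nonneg_right i2 (sq_nonneg _))
  have hD : 0 ≤ Df (kk n) (x n) v := by
    unfold Df
    exact add_nonneg (mul_nonneg hD1.le (sq_nonneg _)) (mul_nonneg hD2.le (sq_nonneg _))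
  have hmk : 0 ≤ m / (kk n : ℝ) := by positivity
  calc m * (s0 / 2) / (kk n : ℝ) * (kJet (kk n) d c (x n).1 (x n).2).s * Df (kk n) (x n) v
      = (kJet (kk n) d c (x n).1 (x n).2).s * ((s0 / 2) * (m / (kk n : ℝ) * Df (kk n) (x n) v)) := by
        ring
    _ ≤ (kJet (kk n) d c (x n).1 (x n).2).s * ((kJet (kk n) d c (x n).1 (x n).2).s
          * (m / (kk n : ℝ) * Df (kk n) (x n) v)) :=
        mul_le_mul_of_nonneg_left
          (mul_le_mul_of_nonneg_right hs.le (mul_nonneg hmk hD)) hSs.le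
    _ = (kJet (kk n) d c (x n).1 (x n).2).s ^ 2 * (m / (kk n : ℝ) * Df (kk n) (x n) v) := by ring
    _ ≤ (kJet (kk n) d c (x n).1 (x n).2).s ^ 2 * _ := by
        apply mul_le_mul_of_nonneg_left _ (sq_nonneg _)
        have h1 : m / (kk n : ℝ) * Df (kk n) (x n) v ≤ m / (kk n : ℝ) * Ef (kk n) (x n) v :=
          mul_le_mul_of_nonneg_left hE hmk
        linarith

end Lq
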