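import Pool.Agent.Lq.St4

/-!
# T15a: limits of the one block quantities at P
-/

set_option autoImplicit false

open Filter Topology

namespace Lq

namespace LQT_T15a

theorem X_eq (k : ℕ) (x : ℝ) (hk : 8 ≤ k) : X k x = (k : ℝ) * yy k x / 2 := by
  have h : (k : ℝ) ≠ 0 := by
    have : (0 : ℝ) < k := by exact_mod_cast (by omega : 0 < k)
    exact this.ne'
  unfold yy
  field_simp

theorem ee_eq (k : ℕ) (x : ℝ) (s : Signs k x) : ee k x = X k x / gg k x := by
  have h1 : 0 < ee k x := s.X0.trans s.eX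
  have h2 := s.X0
  unfold gg
  field_simp

theorem g_eq (k : ℕ) (x : ℝ) (hk : 8 ≤ k) : gg k x = (1 - yy k x) + De k x / (k : ℝ) := by
  have h : (k : ℝ) ≠ 0 := by
    have : (0 : ℝ) < k := by exact_mod_cast (by omega : 0 < k)
    exact this.ne'
  unfold De
  field_simp
  ring

theorem Xg_le (k : ℕ) (x : ℝ) (hk : 8 ≤ k) :
    X k x * gg k x ≤ (k : ℝ) / 8 + yy k x * De k x / 2 := by
  have h : (0 : ℝ) < k := by exact_mod_cast (by omega : 0 < k)
  have e : X k x * gg k x = (k : ℝ) / 2 * (yy k x * (1 - yy k x)) + yy k x * De k x / 2 := by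
    rw [X_eq k x hk, g_eq k x hk]
    field_simp
  rw [e]
  have h1 : yy k x * (1 - yy k x) ≤ 1 / 4 := by nlinarith [sq_nonneg (yy k x - 1 / 2)]
  nlinarith [mul_le_mul_of_nonneg_left h1 (by positivity : (0 : ℝ) ≤ (k : ℝ) / 2)]

end LQT_T15a

open LQT_T15a in
/-- T15a -/
theorem t_T15a (hG : StmtG) (hR : StmtR) (hD : StmtDelta) (hg : StmtSigns) : StmtT15a := by
  intro d c b ks th kk x h
  have s1 : ∀ n, Signs (kk n) (x n).1 := fun n => hg _ _ (h.k8 n) (h.p1 n)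
  have s2 : ∀ n, Signs (4 * kk n) (x n).2 := fun n => hg _ _ (by have := h.k8 n; omega) (h.p2 n)
  have k4 : ∀ n, 8 ≤ 4 * kk n := fun n => by have := h.k8 n; omega
  have kp : ∀ n, (0 : ℝ) < kk n := fun n => by
    have := h.k8 n
    exact_mod_cast (by omega : 0 < kk n)
  have y1 := h.l1.hy
  have y2 := h.l2.hy
  have e12 : max (1 - (1 / 2 : ℝ)) 0 = 1 / 2 := by norm_num
  have g1 : Tendsto (fun n => gg (kk n) (x n).1) atTop (𝓝 (1 / 2)) := by
    have := hG ℕ atTop kk (fun n => (x n).1) (1 / 2) h.l1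
    rwa [e12] at this
  have g2 : Tendsto (fun n => gg (4 * kk n) (x n).2) atTop (𝓝 (1 / 2)) := by
    have := hG ℕ atTop (fun n => 4 * kk n) (fun n => (x n).2) (1 / 2) h.l2
    rwa [e12] at this
  have eD : (1 / 2 : ℝ) * (1 + 2 * (1 - 1 / 2) - (1 - 1 / 2) ^ 2) / (1 - 1 / 2) ^ 2 = 7 / 2 := by
    norm_num
  have De1 : Tendsto (fun n => De (kk n) (x n).1) atTop (𝓝 (7 / 2)) := by
    have := hD ℕ atTop kk (fun n => (x n).1) (1 / 2) h.l1 (by norm_num)
    rwa [eD] at this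
  have De2 : Tendsto (fun n => De (4 * kk n) (x n).2) atTop (𝓝 (7 / 2)) := by
    have := hD ℕ atTop (fun n => 4 * kk n) (fun n => (x n).2) (1 / 2) h.l2 (by norm_num)
    rwa [eD] at this
  have hn : (1 / 2 : ℝ) ≠ 0 := by norm_num
  have d1 : Tendsto (fun n => D1 (kk n) (x n).1) atTop (𝓝 (3 / 2)) := by
    have h1 := (y1.mul (g1.const_add 1)).div g1 hn
    have h2 : (1 / 2 : ℝ) * (1 + 1 / 2) / (1 / 2) = 3 / 2 := by norm_num
    rw [h2] at h1
    exact h1.congr fun n => (s1 n).D1e.symm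
  have d2 : Tendsto (fun n => D1 (4 * kk n) (x n).2) atTop (𝓝 (3 / 2)) := by
    have h1 := (y2.mul (g2.const_add 1)).div g2 hn
    have h2 : (1 / 2 : ℝ) * (1 + 1 / 2) / (1 / 2) = 3 / 2 := by norm_num
    rw [h2] at h1
    exact h1.congr fun n => (s2 n).D1e.symm
  have dd1 : Tendsto (fun n => D2 (kk n) (x n).1) atTop (𝓝 6) := by
    have h1 := (y1.div g1 hn).mul ((g1.const_sub 3).add De1)
    have h2 : (1 / 2 : ℝ) / (1 / 2) * (3 - 1 / 2 + 7 / 2) = 6 := by norm_num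
    rw [h2] at h1
    exact h1.congr fun n => (s1 n).D2e.symm
  have dd2 : Tendsto (fun n => D2 (4 * kk n) (x n).2) atTop (𝓝 6) := by
    have h1 := (y2.div g2 hn).mul ((g2.const_sub 3).add De2)
    have h2 : (1 / 2 : ℝ) / (1 / 2) * (3 - 1 / 2 + 7 / 2) = 6 := by norm_num
    rw [h2] at h1
    exact h1.congr fun n => (s2 n).D2e.symm
  have x1 : Tendsto (fun n => X (kk n) (x n).1 / (kk n : ℝ)) atTop (𝓝 (1 / 4)) := by
    have h1 := y1.div_const 2
    have h2 : (1 / 2 : ℝ) / 2 = 1 / 4 := by norm_num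
    rw [h2] at h1
    refine h1.congr fun n => ?_
    rw [X_eq _ _ (h.k8 n)]
    have := (kp n).ne'
    field_simp
  have x2 : Tendsto (fun n => X (4 * kk n) (x n).2 / (kk n : ℝ)) atTop (𝓝 1) := by
    have h1 := y2.const_mul 2
    have h2 : (2 : ℝ) * (1 / 2) = 1 := by norm_num
    rw [h2] at h1
    refine h1.congr fun n => ?_
    rw [X_eq _ _ (k4 n)]
    have := (kp n).ne'
    push_cast
    field_simp
    ring
  have r1 : Tendsto (fun n => rk (kk n) (x n).1) atTop (𝓝 (3 / 8)) := by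
    have h1 := (d1.pow 2).div dd1 (by norm_num)
    have h2 : ((3 : ℝ) / 2) ^ 2 / 6 = 3 / 8 := by norm_num
    rw [h2] at h1
    exact h1
  have r2 : Tendsto (fun n => rk (4 * kk n) (x n).2) atTop (𝓝 (3 / 8)) := by
    have h1 := (d2.pow 2).div dd2 (by norm_num)
    have h2 : ((3 : ℝ) / 2) ^ 2 / 6 = 3 / 8 := by norm_num
    rw [h2] at h1
    exact h1
  have e1 : Tendsto (fun n => ee (kk n) (x n).1 / (kk n : ℝ)) atTop (𝓝 (1 / 2)) := by
    have h1 := x1.div g1 hn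
    have h2 : (1 / 4 : ℝ) / (1 / 2) = 1 / 2 := by norm_num
    rw [h2] at h1
    refine h1.congr fun n => ?_
    rw [ee_eq _ _ (s1 n), Pi.div_apply]
    have := (kp n).ne'
    have := (s1 n).g0.ne'
    field_simp
  have e2 : Tendsto (fun n => ee (4 * kk n) (x n).2 / (kk n : ℝ)) atTop (𝓝 2) := by
    have h1 := x2.div g2 hn
    have h2 : (1 : ℝ) / (1 / 2) = 2 := by norm_num
    rw [h2] at h1
    refine h1.congr fun n => ?_
    rw [ee_eq _ _ (s2 n), Pi.div_apply]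
    have := (kp n).ne'
    have := (s2 n).g0.ne'
    field_simp
  refine ⟨h.l1.hk, g1, g2, d1, d2, dd1, dd2, r1, r2, e1, e2, x1, x2, ?_⟩
  intro δ hδ
  have h1 := ((y1.mul De1).div_const 2).add ((y2.mul De2).div_const 2)
  have h2 : (1 / 2 : ℝ) * (7 / 2) / 2 + 1 / 2 * (7 / 2) / 2 = 7 / 4 := by norm_num
  rw [h2] at h1
  have h3 : ∀ᶠ n in atTop, yy (kk n) (x n).1 * De (kk n) (x n).1 / 2 +
      yy (4 * kk n) (x n).2 * De (4 * kk n) (x n).2 / 2 < 7 / 4 + δ :=
    h1.eventually (gt_mem_nhds (by linarith))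
  filter_upwards [h3] with n hn
  have a1 := Xg_le (kk n) (x n).1 (h.k8 n)
  have a2 := Xg_le (4 * kk n) (x n).2 (k4 n)
  push_cast at a2
  linarith

end Lq
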