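import Pool.Agent.Lq.St4

set_option autoImplicit false

open Filter Topology

namespace Lq

namespace LQT_T15q

theorem blk (K w X C E : ℝ) (hK : K ≠ 0) (hw : w ≠ 0) (hE : E ≠ 0) :
    (X - C) ^ 2 = K * w * (X * (X / E) + ((X / K) / w * (-2 * C - (K * w - E) * (X / E))
      + C * C * K⁻¹ / w)) := by
  field_simp
  ring

theorem cross (K w1 w2 A X1 C1 X2 C2 : ℝ) (hK : K ≠ 0) (hw1 : w1 ≠ 0) (hw2 : w2 ≠ 0) :
    2 * A * (X1 - C1) * (X2 - C2) = (K * w1) * (K * w2) *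
      (2 * A * (X1 / K - C1 * K⁻¹) * (X2 / K - C2 * K⁻¹) / (w1 * w2)) := by
  field_simp

theorem fin (ad A2 K γ M : ℝ) (had : 0 < ad) (hM : M ≤ 5 * K / 8 - 7 / 8 - γ / 4)
    (hA : 5 * K * A2 ≤ 2 * γ * ad) (hA2 : 0 ≤ A2) :
    8 * (ad * M) ≤ (ad - A2) * (5 * K - 7) := by
  have hm := mul_le_mul_of_nonneg_left hM had.le
  linarith

/-- abstract form of the asymptotics near P -/
theorem core (K X1 X2 E1 E2 A11 A22 A12 C1 C2 : ℕ → ℝ) (a11 a22 a12 c1 c2 G : ℝ)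
    (hK : Tendsto K atTop atTop)
    (hg1 : Tendsto (fun n => X1 n / E1 n) atTop (𝓝 (1 / 2)))
    (hg2 : Tendsto (fun n => X2 n / E2 n) atTop (𝓝 (1 / 2)))
    (he1 : Tendsto (fun n => E1 n / K n) atTop (𝓝 (1 / 2)))
    (he2 : Tendsto (fun n => E2 n / K n) atTop (𝓝 2))
    (hx1 : Tendsto (fun n => X1 n / K n) atTop (𝓝 (1 / 4)))
    (hx2 : Tendsto (fun n => X2 n / K n) atTop (𝓝 1))
    (hA11 : Tendsto A11 atTop (𝓝 a11)) (hA22 : Tendsto A22 atTop (𝓝 a22))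
    (hA12 : Tendsto A12 atTop (𝓝 a12))
    (hC1 : Tendsto C1 atTop (𝓝 c1)) (hC2 : Tendsto C2 atTop (𝓝 c2))
    (hxg : ∀ δ : ℝ, 0 < δ → ∀ᶠ n in atTop,
      X1 n * (X1 n / E1 n) + X2 n * (X2 n / E2 n) ≤ 5 * K n / 8 + 7 / 4 + δ)
    (hG : 14 / 3 < G)
    (hid : -(c1 + c2) - (1 / 4) * (a11 + a22) - (1 / 2) * a12 = -(9 / 16) * G) :
    ∃ m : ℝ, 0 < m ∧ ∀ᶠ n in atTop,
      0 < (1 - m / K n) * E1 n + A11 n ∧
      0 < ((1 - m / K n) * E1 n + A11 n) * ((1 - m / K n) * E2 n + A22 n) - A12 n ^ 2 ∧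
      8 / (5 * K n - 7) * (((1 - m / K n) * E2 n + A22 n) * (X1 n - C1 n) ^ 2
          - 2 * A12 n * (X1 n - C1 n) * (X2 n - C2 n)
          + ((1 - m / K n) * E1 n + A11 n) * (X2 n - C2 n) ^ 2)
        ≤ ((1 - m / K n) * E1 n + A11 n) * ((1 - m / K n) * E2 n + A22 n) - A12 n ^ 2 := by
  set γ : ℝ := 9 / 16 * G - 21 / 8 with hγ
  have hγ0 : 0 < γ := by rw [hγ]; linarith
  refine ⟨γ, hγ0, ?_⟩
  -- the inverse of K
  have hiK : Tendsto (fun n => (K n)⁻¹) atTop (𝓝 0) := tendsto_inv_atTop_zero.comp hK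
  have hmK : Tendsto (fun n => γ / K n) atTop (𝓝 0) := by
    have h := hiK.const_mul γ
    simpa [div_eq_mul_inv] using h
  have h1mK : Tendsto (fun n => 1 - γ / K n) atTop (𝓝 1) := by
    simpa using (tendsto_const_nhds (x := (1 : ℝ))).sub hmK
  -- pa / K and pd / K
  have hw1 : Tendsto (fun n => (1 - γ / K n) * (E1 n / K n) + A11 n * (K n)⁻¹) atTop
      (𝓝 (1 / 2)) := by
    have h := (h1mK.mul he1).add (hA11.mul hiK)
    simpa using h
  have hw2 : Tendsto (fun n => (1 - γ / K n) * (E2 n / K n) + A22 n * (K n)⁻¹) atTop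
      (𝓝 2) := by
    have h := (h1mK.mul he2).add (hA22.mul hiK)
    simpa using h
  have hh1 : Tendsto (fun n => A11 n - γ * (E1 n / K n)) atTop (𝓝 (a11 - γ * (1 / 2))) :=
    hA11.sub (he1.const_mul γ)
  have hh2 : Tendsto (fun n => A22 n - γ * (E2 n / K n)) atTop (𝓝 (a22 - γ * 2)) :=
    hA22.sub (he2.const_mul γ)
  have hv1 : Tendsto (fun n => X1 n / K n - C1 n * (K n)⁻¹) atTop (𝓝 (1 / 4)) := by
    have h := hx1.sub (hC1.mul hiK)
    simpa using h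
  have hv2 : Tendsto (fun n => X2 n / K n - C2 n * (K n)⁻¹) atTop (𝓝 1) := by
    have h := hx2.sub (hC2.mul hiK)
    simpa using h
  -- the remainder R
  have hR1 := ((hx1.div hw1 (by norm_num)).mul
    ((hC1.const_mul (-2)).sub (hh1.mul hg1))).add (((hC1.mul hC1).mul hiK).div hw1 (by norm_num))
  have hR2 := ((hx2.div hw2 (by norm_num)).mul
    ((hC2.const_mul (-2)).sub (hh2.mul hg2))).add (((hC2.mul hC2).mul hiK).div hw2 (by norm_num))
  have hR3 := (((hA12.const_mul 2).mul hv1).mul hv2).div (hw1.mul hw2) (by norm_num)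
  have hR := (hR1.add hR2).sub hR3
  have hRl : (1 : ℝ) / 4 / (1 / 2) * (-2 * c1 - (a11 - γ * (1 / 2)) * (1 / 2))
        + c1 * c1 * 0 / (1 / 2)
      + (1 / 2 * (-2 * c2 - (a22 - γ * 2) * (1 / 2)) + c2 * c2 * 0 / 2)
      - 2 * a12 * (1 / 4) * 1 / (1 / 2 * 2) < -(9 / 16) * G + 5 * γ / 8 + γ / 16 := by
    linarith
  have hlt := hR.eventually (gt_mem_nhds hRl)
  -- error of A12
  have hE := ((hA12.mul hA12).const_mul 5).mul hiK
  have hlt2 : ∀ᶠ n in atTop, 5 * (A12 n * A12 n) * (K n)⁻¹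
      < 2 * γ * (((1 - γ / K n) * (E1 n / K n) + A11 n * (K n)⁻¹)
        * ((1 - γ / K n) * (E2 n / K n) + A22 n * (K n)⁻¹)) := by
    refine hE.eventually_lt ((hw1.mul hw2).const_mul (2 * γ)) ?_
    simp only [mul_zero]
    linarith
  have hE3 := ((hA12.mul hA12).mul hiK).mul hiK
  have hlt3 : ∀ᶠ n in atTop, A12 n * A12 n * (K n)⁻¹ * (K n)⁻¹
      < (((1 - γ / K n) * (E1 n / K n) + A11 n * (K n)⁻¹)
        * ((1 - γ / K n) * (E2 n / K n) + A22 n * (K n)⁻¹)) := by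
    refine hE3.eventually_lt (hw1.mul hw2) ?_
    simp only [mul_zero]
    norm_num
  filter_upwards [hxg (γ / 16) (by linarith), hlt, hlt2, hlt3,
    hK.eventually_ge_atTop 8,
    hw1.eventually (lt_mem_nhds (a := 0) (by norm_num)),
    hw2.eventually (lt_mem_nhds (a := 0) (by norm_num)),
    he1.eventually (lt_mem_nhds (a := 0) (by norm_num)),
    he2.eventually (lt_mem_nhds (a := 0) (by norm_num))] with n h1 h2 h3 h4 hK8 hp1 hp2 hE1 hE2
  have hK0 : 0 < K n := by linarith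
  have hKne : K n ≠ 0 := hK0.ne'
  have hE10 : E1 n ≠ 0 := by
    intro h
    rw [h] at hE1
    simp at hE1
  have hE20 : E2 n ≠ 0 := by
    intro h
    rw [h] at hE2
    simp at hE2
  have ea : (1 - γ / K n) * E1 n + A11 n
      = K n * ((1 - γ / K n) * (E1 n / K n) + A11 n * (K n)⁻¹) := by
    field_simp
  have ed : (1 - γ / K n) * E2 n + A22 n
      = K n * ((1 - γ / K n) * (E2 n / K n) + A22 n * (K n)⁻¹) := by
    field_simp
  -- names
  set a : ℝ := (1 - γ / K n) * E1 n + A11 n with ha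
  set dd : ℝ := (1 - γ / K n) * E2 n + A22 n with hdd
  set w1 : ℝ := (1 - γ / K n) * (E1 n / K n) + A11 n * (K n)⁻¹ with hw1d
  set w2 : ℝ := (1 - γ / K n) * (E2 n / K n) + A22 n * (K n)⁻¹ with hw2d
  have ha0 : 0 < a := by rw [ea]; exact mul_pos hK0 hp1
  have hd0 : 0 < dd := by rw [ed]; exact mul_pos hK0 hp2
  have had : a * dd = K n ^ 2 * (w1 * w2) := by rw [ea, ed]; ring
  have hpos : 0 < a * dd - A12 n ^ 2 := by
    rw [had]
    have h5 : K n ^ 2 * (A12 n * A12 n * (K n)⁻¹ * (K n)⁻¹) = A12 n ^ 2 := by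
      field_simp
    have h6 := mul_lt_mul_of_pos_left h4 (pow_pos hK0 2)
    rw [h5] at h6
    linarith
  refine ⟨ha0, hpos, ?_⟩
  have hA : 5 * K n * A12 n ^ 2 ≤ 2 * γ * (a * dd) := by
    rw [had]
    have h5 : K n ^ 2 * (5 * (A12 n * A12 n) * (K n)⁻¹) = 5 * K n * A12 n ^ 2 := by
      field_simp
    have h6 := mul_lt_mul_of_pos_left h3 (pow_pos hK0 2)
    rw [h5] at h6
    refine h6.le.trans (le_of_eq ?_)
    ring
  -- the exact identity
  have key : dd * (X1 n - C1 n) ^ 2 - 2 * A12 n * (X1 n - C1 n) * (X2 n - C2 n)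
      + a * (X2 n - C2 n) ^ 2
      = a * dd * ((X1 n * (X1 n / E1 n) + X2 n * (X2 n / E2 n))
        + (((X1 n / K n) / w1 * (-2 * C1 n - (A11 n - γ * (E1 n / K n)) * (X1 n / E1 n))
              + C1 n * C1 n * (K n)⁻¹ / w1)
            + ((X2 n / K n) / w2 * (-2 * C2 n - (A22 n - γ * (E2 n / K n)) * (X2 n / E2 n))
              + C2 n * C2 n * (K n)⁻¹ / w2)
            - 2 * A12 n * (X1 n / K n - C1 n * (K n)⁻¹) * (X2 n / K n - C2 n * (K n)⁻¹)
              / (w1 * w2))) := by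
    have e1' : A11 n - γ * (E1 n / K n) = a - E1 n := by rw [ha]; ring
    have e2' : A22 n - γ * (E2 n / K n) = dd - E2 n := by rw [hdd]; ring
    rw [e1', e2', ea, ed]
    have b1 := blk (K n) w1 (X1 n) (C1 n) (E1 n) hKne hp1.ne' hE10
    have b2 := blk (K n) w2 (X2 n) (C2 n) (E2 n) hKne hp2.ne' hE20
    have b3 := cross (K n) w1 w2 (A12 n) (X1 n) (C1 n) (X2 n) (C2 n) hKne hp1.ne' hp2.ne'
    linear_combination (K n * w2) * b1 + (K n * w1) * b2 - b3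
  have hR' := h2
  simp only [Pi.div_apply] at hR'
  have hsum : (X1 n * (X1 n / E1 n) + X2 n * (X2 n / E2 n))
        + (((X1 n / K n) / w1 * (-2 * C1 n - (A11 n - γ * (E1 n / K n)) * (X1 n / E1 n))
              + C1 n * C1 n * (K n)⁻¹ / w1)
            + ((X2 n / K n) / w2 * (-2 * C2 n - (A22 n - γ * (E2 n / K n)) * (X2 n / E2 n))
              + C2 n * C2 n * (K n)⁻¹ / w2)
            - 2 * A12 n * (X1 n / K n - C1 n * (K n)⁻¹) * (X2 n / K n - C2 n * (K n)⁻¹)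
              / (w1 * w2)) ≤ 5 * K n / 8 - 7 / 8 - γ / 4 := by
    linarith
  have h57 : 0 < 5 * K n - 7 := by linarith
  rw [key, div_mul_eq_mul_div, div_le_iff₀ h57]
  exact fin (a * dd) (A12 n ^ 2) (K n) γ _ (mul_pos ha0 hd0) hsum hA (sq_nonneg _)

theorem t0_half : (fun i => t0 i (1 / 2)) = e0 := by
  funext i
  unfold t0 e0
  rw [if_pos (by norm_num)]

theorem t1_half : (fun i => t1 i (1 / 2)) = e1 := by
  funext i
  unfold t1 e1
  rw [if_pos (by norm_num)]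

theorem rr_half : rr (1 / 2) = 3 / 8 := by
  unfold rr
  rw [if_pos (by norm_num)]
  norm_num

theorem t2_half : (fun i => t2 i (1 / 2)) = fun i => e1 i + 3 / 8 * e2 i := by
  funext i
  unfold t2 e1 e2
  rw [if_pos (by norm_num), rr_half]

theorem JJ_addl (d : ℕ) (c : ℕ → ℕ → ℝ) (A A' B : ℕ → ℝ) (t : ℝ) :
    JJ d c (fun i => A i + t * A' i) B = JJ d c A B + t * JJ d c A' B := by
  unfold JJ
  rw [Finset.mul_sum, ← Finset.sum_add_distrib]
  refine Finset.sum_congr rfl fun i _ => ?_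
  rw [Finset.mul_sum, ← Finset.sum_add_distrib]
  refine Finset.sum_congr rfl fun j _ => ?_
  ring

theorem JJ_addr (d : ℕ) (c : ℕ → ℕ → ℝ) (A B B' : ℕ → ℝ) (t : ℝ) :
    JJ d c A (fun i => B i + t * B' i) = JJ d c A B + t * JJ d c A B' := by
  unfold JJ
  rw [Finset.mul_sum, ← Finset.sum_add_distrib]
  refine Finset.sum_congr rfl fun i _ => ?_
  rw [Finset.mul_sum, ← Finset.sum_add_distrib]
  refine Finset.sum_congr rfl fun j _ => ?_
  ring

end LQT_T15q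

open LQT_T15q in
theorem t_T15q (h5 : StmtT5) : StmtT15q := by
  intro d c b ks th hL kk x hl hP
  obtain ⟨hSpos, hS, -⟩ := h5 d c b ks th hL kk x _ _ hl
  have hs0 : 0 < JJ d c e0 e0 := by
    have h := hL.pos (1 / 2) (1 / 2) (by norm_num) (by norm_num) (by norm_num) (by norm_num)
    unfold limJet mkJet at h
    simp only [t0_half] at h
    exact h
  have hgain := hL.gain
  have ls := hS.s
  have ls1 := hS.s1
  have ls2 := hS.s2
  have ls12 := hS.s12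
  have ls11 := hS.s11
  have ls22 := hS.s22
  unfold limJet mkJet at ls ls1 ls2 ls12 ls11 ls22
  simp only [t0_half, t1_half, t2_half, JJ_addl, JJ_addr] at ls ls1 ls2 ls12 ls11 ls22
  generalize JJ d c e0 e0 = s0 at *
  generalize JJ d c e1 e0 = s1 at *
  generalize JJ d c e0 e1 = s2 at *
  generalize JJ d c e1 e1 = s12 at *
  generalize JJ d c e2 e0 = p11 at *
  generalize JJ d c e0 e2 = p22 at *
  have hs0n : s0 ≠ 0 := hs0.ne'
  set S : ℕ → Jet := fun n => kJet (kk n) d c (x n).1 (x n).2 with hSd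
  have q1 : Tendsto (fun n => (S n).s1 ^ 2 / (S n).s ^ 2) atTop (𝓝 (s1 ^ 2 / s0 ^ 2)) :=
    (ls1.pow 2).div (ls.pow 2) (pow_ne_zero 2 hs0n)
  have q2 : Tendsto (fun n => (S n).s2 ^ 2 / (S n).s ^ 2) atTop (𝓝 (s2 ^ 2 / s0 ^ 2)) :=
    (ls2.pow 2).div (ls.pow 2) (pow_ne_zero 2 hs0n)
  have hA11 : Tendsto (fun n => pA11 (kk n) (x n) (S n)) atTop
      (𝓝 (6 * (-((s1 + 3 / 8 * p11) / s0) + 3 / 8 * s1 ^ 2 / s0 ^ 2))) := by
    unfold pA11
    exact hP.dd1.mul (((ls11.div ls hs0n).neg).add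
      ((hP.r1.mul (ls1.pow 2)).div (ls.pow 2) (pow_ne_zero 2 hs0n)))
  have hA22 : Tendsto (fun n => pA22 (kk n) (x n) (S n)) atTop
      (𝓝 (6 * (-((s2 + 3 / 8 * p22) / s0) + 3 / 8 * s2 ^ 2 / s0 ^ 2))) := by
    unfold pA22
    exact hP.dd2.mul (((ls22.div ls hs0n).neg).add
      ((hP.r2.mul (ls2.pow 2)).div (ls.pow 2) (pow_ne_zero 2 hs0n)))
  have hA12 : Tendsto (fun n => pA12 (kk n) (x n) (S n)) atTop
      (𝓝 (3 / 2 * (3 / 2) * (-(s12 / s0) + s1 * s2 / s0 ^ 2))) := by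
    unfold pA12
    exact (hP.d1.mul hP.d2).mul (((ls12.div ls hs0n).neg).add
      ((ls1.mul ls2).div (ls.pow 2) (pow_ne_zero 2 hs0n)))
  have hC1 : Tendsto (fun n => D1 (kk n) (x n).1 * (S n).s1 / (S n).s) atTop
      (𝓝 (3 / 2 * s1 / s0)) := (hP.d1.mul ls1).div ls hs0n
  have hC2 : Tendsto (fun n => D1 (4 * kk n) (x n).2 * (S n).s2 / (S n).s) atTop
      (𝓝 (3 / 2 * s2 / s0)) := (hP.d2.mul ls2).div ls hs0n
  have hK : Tendsto (fun n => ((kk n : ℕ) : ℝ)) atTop atTop :=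
    tendsto_natCast_atTop_atTop.comp hP.hk
  have hG : (14 : ℝ) / 3 < ((s1 ^ 2 - s0 * p11) + 2 * (s1 * s2 - s0 * s12)
      + (s2 ^ 2 - s0 * p22)) / s0 ^ 2 := by
    rw [lt_div_iff₀ (pow_pos hs0 2)]
    exact hgain
  obtain ⟨m, hm, hev⟩ := core (fun n => ((kk n : ℕ) : ℝ)) (fun n => X (kk n) (x n).1)
    (fun n => X (4 * kk n) (x n).2) (fun n => ee (kk n) (x n).1) (fun n => ee (4 * kk n) (x n).2)
    (fun n => pA11 (kk n) (x n) (S n)) (fun n => pA22 (kk n) (x n) (S n))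
    (fun n => pA12 (kk n) (x n) (S n))
    (fun n => D1 (kk n) (x n).1 * (S n).s1 / (S n).s)
    (fun n => D1 (4 * kk n) (x n).2 * (S n).s2 / (S n).s) _ _ _ _ _ _ hK hP.g1 hP.g2 hP.e1 hP.e2
    hP.x1 hP.x2 hA11 hA22 hA12 hC1 hC2 hP.xg hG (by
      field_simp
      ring)
  exact ⟨m, hm, hev⟩

end Lq
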