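import Pool.Agent.Lq.St4

/-!
# LQT_T16: both inequalities at the points of the domain with positive coordinates
-/

set_option autoImplicit false

open Filter Topology

namespace Lq

namespace LQT_T16

theorem pos_of_pz {k : ℕ} {x : ℝ} (hx : 0 < x) (h : Pz k |x|) : Pos k x := by
  rw [abs_of_pos hx] at h
  exact ⟨hx, h.2⟩

theorem FF_pos {k : ℕ} {x : ℝ × ℝ} (h1 : Pos k x.1) (h2 : Pos (4 * k) x.2) : 0 < FF k x :=
  mul_pos (h1.2 _ h1.1.le le_rfl) (h2.2 _ h2.1.le le_rfl)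

theorem Df_nonneg (hg : StmtSigns) {k : ℕ} (hk : 8 ≤ k) {x : ℝ × ℝ} (h1 : Pos k x.1)
    (h2 : Pos (4 * k) x.2) (v : ℝ × ℝ) :
    (v.1 ^ 2 + v.2 ^ 2) / (4 * (k : ℝ) ^ 2) ≤ Df k x v := by
  have hk0 : (0 : ℝ) < (k : ℝ) := by
    have : 0 < k := by omega
    exact_mod_cast this
  have d1 := (hg k x.1 hk h1).d2
  have d2 := (hg (4 * k) x.2 (by omega) h2).d2
  have hx1 : x.1 ≠ 0 := h1.1.ne'
  have hx2 : x.2 ≠ 0 := h2.1.ne'
  have e1 : 4 * x.1 ^ 2 / (k : ℝ) ^ 2 * (v.1 / x.1) ^ 2 = 4 * v.1 ^ 2 / (k : ℝ) ^ 2 := by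
    field_simp
  have e2 : 4 * x.2 ^ 2 / ((4 * k : ℕ) : ℝ) ^ 2 * (v.2 / x.2) ^ 2
      = v.2 ^ 2 / (4 * (k : ℝ) ^ 2) := by
    push_cast
    field_simp
  have i1 : 4 * x.1 ^ 2 / (k : ℝ) ^ 2 * (v.1 / x.1) ^ 2 ≤ D2 k x.1 * (v.1 / x.1) ^ 2 :=
    mul_le_mul_of_nonneg_right d1 (sq_nonneg _)
  have i2 : 4 * x.2 ^ 2 / ((4 * k : ℕ) : ℝ) ^ 2 * (v.2 / x.2) ^ 2
      ≤ D2 (4 * k) x.2 * (v.2 / x.2) ^ 2 :=
    mul_le_mul_of_nonneg_right d2 (sq_nonneg _)
  rw [e1] at i1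
  rw [e2] at i2
  have i3 : v.1 ^ 2 / (4 * (k : ℝ) ^ 2) ≤ 4 * v.1 ^ 2 / (k : ℝ) ^ 2 := by
    rw [div_le_div_iff₀ (by positivity) (by positivity)]
    nlinarith [mul_nonneg (sq_nonneg v.1) (sq_nonneg (k : ℝ))]
  unfold Df
  have e3 : (v.1 ^ 2 + v.2 ^ 2) / (4 * (k : ℝ) ^ 2)
      = v.1 ^ 2 / (4 * (k : ℝ) ^ 2) + v.2 ^ 2 / (4 * (k : ℝ) ^ 2) := by ring
  rw [e3]
  linarith

/-- one block lower bound -/
theorem F_lower (hm : StmtMono) (hs : StmtSmooth) {k : ℕ} (hk : 8 ≤ k) {b : ℝ} (hb : 0 < b) :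
    ∃ m : ℝ, 0 < m ∧ ∀ x : ℝ, Pos k x → yy k x < b → m ≤ F k 0 x := by
  obtain ⟨_, hmono, _, hY⟩ := hm k hk
  obtain ⟨xb, hxb, hyb⟩ := hY b hb
  have hcont : Continuous (F k 0) := by
    have h := (hs k 0 (by omega)).continuous
    unfold F
    exact h.comp (continuous_pow 2)
  obtain ⟨y, hy, hmin⟩ := (isCompact_Icc (a := (0 : ℝ)) (b := xb)).exists_isMinOn
    ⟨0, le_rfl, hxb.1.le⟩ hcont.continuousOn
  refine ⟨F k 0 y, hxb.2 y hy.1 hy.2, ?_⟩
  intro x hx hyx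
  have hle : x ≤ xb := by
    by_contra hcon
    push Not at hcon
    have := hmono xb x ⟨hxb.1.le, hxb.2⟩ ⟨hx.1.le, hx.2⟩ hcon
    rw [hyb] at this
    linarith
  exact hmin ⟨hx.1.le, hle⟩

theorem FF_lower (hm : StmtMono) (hs : StmtSmooth) {k : ℕ} (hk : 8 ≤ k) (d : ℕ)
    (c : ℕ → ℕ → ℝ) {b ks th : ℝ} (hb : 0 < b) :
    ∃ m : ℝ, 0 < m ∧ ∀ x ∈ D0 k d c b ks th, 0 < x.1 → 0 < x.2 → m ≤ FF k x := by
  obtain ⟨m1, hm1, h1⟩ := F_lower hm hs hk hb
  obtain ⟨m2, hm2, h2⟩ := F_lower hm hs (k := 4 * k) (by omega) hb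
  refine ⟨m1 * m2, mul_pos hm1 hm2, ?_⟩
  intro x hx hx1 hx2
  obtain ⟨hz1, hz2, hy1, hy2, _, _⟩ := hx
  have p1 := pos_of_pz hx1 hz1
  have p2 := pos_of_pz hx2 hz2
  rw [abs_of_pos hx1] at hy1
  rw [abs_of_pos hx2] at hy2
  exact mul_le_mul (h1 _ p1 hy1) (h2 _ p2 hy2) hm2.le (le_trans hm1.le (h1 _ p1 hy1))

end LQT_T16

open LQT_T16

theorem t_T16 (hsel : StmtSel) (h1 : StmtT1) (h2 : StmtT2) (h6 : StmtT6) (h11 : StmtT11)
    (h12 : StmtT12) (h13 : StmtT13) (h14 : StmtT14) (h15 : StmtT15) (hg : StmtSigns)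
    (hm : StmtMono) (hs : StmtSmooth) (ho : StmtODE) : StmtT16 := by
  intro d c b ks th hL
  have hb : 0 < b := by
    have := hL.hb
    have := hL.hks
    linarith
  -- positivity of `S`
  have hSpos : ∀ (k : ℕ) (x : ℝ × ℝ), 8 ≤ k → Pos k x.1 → Pos (4 * k) x.2 →
      0 < W k d c x → 0 < (kJet k d c x.1 x.2).s := by
    intro k x hk p1 p2 hW
    have e := (h1 k d c x 0 hk p1 p2).1
    rw [e] at hW
    exact (pos_iff_pos_of_mul_pos hW).mp (FF_pos p1 p2)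
  have hDf : ∀ (k : ℕ) (x v : ℝ × ℝ), 8 ≤ k → Pos k x.1 → Pos (4 * k) x.2 →
      0 ≤ Df k x v := by
    intro k x v hk p1 p2
    refine le_trans ?_ (Df_nonneg hg hk p1 p2 v)
    positivity
  have hmaxe : ∀ (k : ℕ) (x v : ℝ × ℝ), 8 ≤ k → Pos k x.1 → Pos (4 * k) x.2 →
      0 < W k d c x →
      max ((kJet k d c x.1 x.2).s * Df k x v) 0 = (kJet k d c x.1 x.2).s * Df k x v := by
    intro k x v hk p1 p2 hW
    exact max_eq_left (mul_nonneg (hSpos k x hk p1 p2 hW).le (hDf k x v hk p1 p2))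
  -- (b)
  have selB := hsel d c b ks th hL
    (fun m k x => ∀ v : ℝ × ℝ, m / (k : ℝ) * max ((kJet k d c x.1 x.2).s * Df k x v) 0 ≤
      CB (beta k) k x v (kJet k d c x.1 x.2))
    (by
      intro m m' k x hmm h v
      refine le_trans (mul_le_mul_of_nonneg_right ?_ (le_max_right _ _)) (h v)
      exact div_le_div_of_nonneg_right hmm (Nat.cast_nonneg k))
    (by
      intro kk x a1 a2 hl
      have key : ConclB d c kk x := by
        by_cases c1 : a1 ≤ 1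
        · by_cases c2 : a2 ≤ 1
          · by_cases c3 : a1 = 1 / 2 ∧ a2 = 1 / 2
            · obtain ⟨r1, r2⟩ := c3
              subst r1
              subst r2
              exact h15 d c b ks th hL kk x hl
            · exact h11 d c b ks th hL kk x a1 a2 hl c1 c2 c3
          · exact h13 d c b ks th hL kk x a1 a2 hl c1 (not_le.mp c2)
        · by_cases c2 : a2 ≤ 1
          · exact h12 d c b ks th hL kk x a1 a2 hl (not_le.mp c1) c2
          · exact h14 d c b ks th hL kk x a1 a2 hl (not_le.mp c1) (not_le.mp c2)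
      obtain ⟨m, hm0, hev⟩ := key
      refine ⟨m, hm0, hev.mono ?_⟩
      intro n hn v
      have hW : 0 < W (kk n) d c (x n) := (hl.mem n).2.2.2.2.1
      rw [hmaxe (kk n) (x n) v (hl.k8 n) (hl.p1 n) (hl.p2 n) hW, ← mul_assoc]
      exact hn v)
  -- (c)
  have selC := hsel d c b ks th hL
    (fun m k x => ∀ v : ℝ × ℝ, m * max ((kJet k d c x.1 x.2).s * Df k x v) 0 ≤
      Nf k x v
        (q11 (rk k x.1) (kJet k d c x.1 x.2) (kJetQ k d c x.1 x.2))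
        (q22 (rk (4 * k) x.2) (kJet k d c x.1 x.2) (kJetQ k d c x.1 x.2))
        (q12 (kJet k d c x.1 x.2) (kJetQ k d c x.1 x.2)))
    (by
      intro m m' k x hmm h v
      exact le_trans (mul_le_mul_of_nonneg_right hmm (le_max_right _ _)) (h v))
    (by
      intro kk x a1 a2 hl
      obtain ⟨m, hm0, hev⟩ := h6 d c b ks th hL kk x a1 a2 hl
      refine ⟨m, hm0, hev.mono ?_⟩
      intro n hn v
      have hW : 0 < W (kk n) d c (x n) := (hl.mem n).2.2.2.2.1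
      rw [hmaxe (kk n) (x n) v (hl.k8 n) (hl.p1 n) (hl.p2 n) hW, ← mul_assoc]
      exact hn v)
  obtain ⟨mB, hmB, evB⟩ := selB
  obtain ⟨mC, hmC, evC⟩ := selC
  filter_upwards [evB, evC, eventually_ge_atTop 8] with k hB hC hk
  have hk0 : (0 : ℝ) < (k : ℝ) := by
    have : 0 < k := by omega
    exact_mod_cast this
  obtain ⟨cF, hcF, hFF⟩ := FF_lower hm hs hk d c (b := b) (ks := ks) (th := th) hb
  constructor
  · refine ⟨cF * (mB / k) * (1 / (4 * (k : ℝ) ^ 2)), by positivity, ?_⟩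
    intro x hx hx1 hx2 v
    have p1 : Pos k x.1 := pos_of_pz hx1 hx.1
    have p2 : Pos (4 * k) x.2 := pos_of_pz hx2 hx.2.1
    have hW : 0 < W k d c x := hx.2.2.2.2.1
    have hF := hFF x hx hx1 hx2
    have hFp : 0 < FF k x := FF_pos p1 p2
    have hBv := hB x hx hx1 hx2 v
    rw [hmaxe k x v hk p1 p2 hW] at hBv
    have e2 := (h2 k d c x v (8 / (5 * (k : ℝ) - 7)) hk p1 p2).1
    have e1 := (h1 k d c x v hk p1 p2).1
    rw [e2]
    have hD := Df_nonneg hg hk p1 p2 v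
    have hD0 : 0 ≤ Df k x v := hDf k x v hk p1 p2
    have hbe : beta k = 8 / (5 * (k : ℝ) - 7) := rfl
    rw [hbe] at hBv
    calc cF * (mB / k) * (1 / (4 * (k : ℝ) ^ 2)) * W k d c x * (v.1 ^ 2 + v.2 ^ 2)
        = (cF * (mB / k) * W k d c x) * ((v.1 ^ 2 + v.2 ^ 2) / (4 * (k : ℝ) ^ 2)) := by ring
      _ ≤ (cF * (mB / k) * W k d c x) * Df k x v :=
          mul_le_mul_of_nonneg_left hD (by positivity)
      _ ≤ (FF k x * (mB / k) * W k d c x) * Df k x v := by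
          refine mul_le_mul_of_nonneg_right ?_ hD0
          refine mul_le_mul_of_nonneg_right ?_ hW.le
          exact mul_le_mul_of_nonneg_right hF (by positivity)
      _ = FF k x ^ 2 * (mB / k * ((kJet k d c x.1 x.2).s * Df k x v)) := by
          rw [e1]
          ring
      _ ≤ FF k x ^ 2 * CB (8 / (5 * (k : ℝ) - 7)) k x v (kJet k d c x.1 x.2) :=
          mul_le_mul_of_nonneg_left hBv (by positivity)
  · refine ⟨4 / k * cF ^ 2 * mC * (1 / (4 * (k : ℝ) ^ 2)), by positivity, ?_⟩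
    intro x hx hx1 hx2 v
    have p1 : Pos k x.1 := pos_of_pz hx1 hx.1
    have p2 : Pos (4 * k) x.2 := pos_of_pz hx2 hx.2.1
    have hW : 0 < W k d c x := hx.2.2.2.2.1
    have hF := hFF x hx hx1 hx2
    have hFp : 0 < FF k x := FF_pos p1 p2
    have hCv := hC x hx hx1 hx2 v
    rw [hmaxe k x v hk p1 p2 hW] at hCv
    have e2 := (h2 k d c x v 0 hk p1 p2).2
    have e1 := (h1 k d c x v hk p1 p2).1
    rw [e2]
    have hD := Df_nonneg hg hk p1 p2 v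
    have hD0 : 0 ≤ Df k x v := hDf k x v hk p1 p2
    calc 4 / k * cF ^ 2 * mC * (1 / (4 * (k : ℝ) ^ 2)) * W k d c x * (v.1 ^ 2 + v.2 ^ 2)
        = (4 / k * cF ^ 2 * mC * W k d c x) * ((v.1 ^ 2 + v.2 ^ 2) / (4 * (k : ℝ) ^ 2)) := by
          ring
      _ ≤ (4 / k * cF ^ 2 * mC * W k d c x) * Df k x v :=
          mul_le_mul_of_nonneg_left hD (by positivity)
      _ ≤ (4 / k * FF k x ^ 2 * mC * W k d c x) * Df k x v := by
          refine mul_le_mul_of_nonneg_right ?_ hD0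
          refine mul_le_mul_of_nonneg_right ?_ hW.le
          refine mul_le_mul_of_nonneg_right ?_ hmC.le
          refine mul_le_mul_of_nonneg_left ?_ (by positivity)
          exact pow_le_pow_left₀ hcF.le hF 2
      _ = 4 / (k : ℝ) * FF k x ^ 3 * (mC * ((kJet k d c x.1 x.2).s * Df k x v)) := by
          rw [e1]
          ring
      _ ≤ 4 / (k : ℝ) * FF k x ^ 3 * Nf k x v
            (q11 (rk k x.1) (kJet k d c x.1 x.2) (kJetQ k d c x.1 x.2))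
            (q22 (rk (4 * k) x.2) (kJet k d c x.1 x.2) (kJetQ k d c x.1 x.2))
            (q12 (kJet k d c x.1 x.2) (kJetQ k d c x.1 x.2)) :=
          mul_le_mul_of_nonneg_left hCv (by positivity)

end Lq
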