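import Pool.Agent.Lq.St4

/-!
# T17: symmetry and closure
-/

set_option autoImplicit false

open Filter Topology

namespace Lq

namespace LQT_T17

/-- the map `(x1, x2) ↦ (s x1, t x2)` -/
noncomputable def sg (s t : ℝ) : (ℝ × ℝ) →L[ℝ] (ℝ × ℝ) :=
  (s • ContinuousLinearMap.fst ℝ ℝ ℝ).prod (t • ContinuousLinearMap.snd ℝ ℝ ℝ)

theorem sg_apply (s t : ℝ) (x : ℝ × ℝ) : sg s t x = (s * x.1, t * x.2) := rfl

theorem W_sg (k d : ℕ) (c : ℕ → ℕ → ℝ) (s t : ℝ) (hs : s ^ 2 = 1) (ht : t ^ 2 = 1)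
    (x : ℝ × ℝ) : W k d c (sg s t x) = W k d c x := by
  unfold W JJ F
  simp only [sg_apply, mul_pow, hs, ht, one_mul]

theorem W_smooth (hs : StmtSmooth) (k d : ℕ) (c : ℕ → ℕ → ℝ) (hk : 1 ≤ k) :
    ContDiff ℝ (⊤ : ℕ∞) (W k d c) := by
  unfold W JJ F
  refine ContDiff.sum fun i _ => ContDiff.sum fun j _ => ?_
  refine (contDiff_const.mul ?_).mul ?_
  · exact (hs k i hk).comp (contDiff_fst.pow 2)
  · exact (hs (4 * k) j (by omega)).comp (contDiff_snd.pow 2)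

theorem d1_smooth {w : ℝ × ℝ → ℝ} (hw : ContDiff ℝ (⊤ : ℕ∞) w) (v : ℝ × ℝ) :
    ContDiff ℝ (⊤ : ℕ∞) (fun z => fderiv ℝ w z v) :=
  (hw.fderiv_right (m := (⊤ : ℕ∞)) (by simp)).clm_apply contDiff_const

theorem d1_cont {w : ℝ × ℝ → ℝ} (hw : ContDiff ℝ (⊤ : ℕ∞) w) (v : ℝ × ℝ) :
    Continuous (fun z => d1 w z v) := (d1_smooth hw v).continuous

theorem d2_cont {w : ℝ × ℝ → ℝ} (hw : ContDiff ℝ (⊤ : ℕ∞) w) (v : ℝ × ℝ) :
    Continuous (fun z => d2 w z v) := d1_cont (d1_smooth hw v) v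

theorem closedB {w : ℝ × ℝ → ℝ} (hw : ContDiff ℝ (⊤ : ℕ∞) w) (be c0 : ℝ) :
    IsClosed {x | IneqB w be c0 x} := by
  unfold IneqB
  rw [Set.setOf_forall]
  refine isClosed_iInter fun v => isClosed_le ?_ ?_
  · exact (continuous_const.mul hw.continuous).mul continuous_const
  · exact ((hw.continuous.mul (d2_cont hw v)).neg).add
      (continuous_const.mul ((d1_cont hw v).pow 2))

theorem closedC {w w1 : ℝ × ℝ → ℝ} (hw : ContDiff ℝ (⊤ : ℕ∞) w) (hw1 : ContDiff ℝ (⊤ : ℕ∞) w1)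
    (c0 : ℝ) : IsClosed {x | IneqC w w1 c0 x} := by
  unfold IneqC
  rw [Set.setOf_forall]
  refine isClosed_iInter fun v => isClosed_le ?_ ?_
  · exact (continuous_const.mul hw.continuous).mul continuous_const
  · refine Continuous.add (Continuous.sub (Continuous.sub ?_ ?_) ?_) ?_
    · exact (continuous_const.mul hw1.continuous).mul ((d1_cont hw v).pow 2)
    · exact ((continuous_const.mul hw.continuous).mul (d1_cont hw v)).mul (d1_cont hw1 v)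
    · exact (hw.continuous.mul hw1.continuous).mul (d2_cont hw v)
    · exact (hw.continuous.pow 2).mul (d2_cont hw1 v)

theorem d1_sg {f g : ℝ × ℝ → ℝ} (hf : Differentiable ℝ f) (s t : ℝ)
    (h : ∀ x, f (sg s t x) = g x) (x v : ℝ × ℝ) :
    fderiv ℝ f (sg s t x) (sg s t v) = fderiv ℝ g x v := by
  have h1 : g = f ∘ (sg s t) := funext fun x => (h x).symm
  rw [h1, fderiv_comp x (hf _) (sg s t).differentiableAt, (sg s t).fderiv]
  rfl

theorem d2_sg {f : ℝ × ℝ → ℝ} (hf : ContDiff ℝ (⊤ : ℕ∞) f) (s t : ℝ)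
    (h : ∀ x, f (sg s t x) = f x) (x v : ℝ × ℝ) :
    d2 f (sg s t x) (sg s t v) = d2 f x v := by
  unfold d2
  refine d1_sg ((d1_smooth hf _).differentiable (by simp)) s t (fun z => ?_) x v
  exact d1_sg (hf.differentiable (by simp)) s t h z v

theorem ineqB_sg {w : ℝ × ℝ → ℝ} (hw : ContDiff ℝ (⊤ : ℕ∞) w) (be c0 s t : ℝ)
    (hs : s ^ 2 = 1) (ht : t ^ 2 = 1) (h : ∀ x, w (sg s t x) = w x) (x : ℝ × ℝ)
    (hB : IneqB w be c0 (sg s t x)) : IneqB w be c0 x := by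
  intro v
  have h1 := hB (sg s t v)
  have e1 : d1 w (sg s t x) (sg s t v) = d1 w x v :=
    d1_sg (hw.differentiable (by simp)) s t h x v
  rw [d2_sg hw s t h, e1, h, sg_apply] at h1
  simp only [mul_pow, hs, ht, one_mul] at h1
  exact h1

theorem ineqC_sg {w w1 : ℝ × ℝ → ℝ} (hw : ContDiff ℝ (⊤ : ℕ∞) w)
    (hw1 : ContDiff ℝ (⊤ : ℕ∞) w1) (c0 s t : ℝ)
    (hs : s ^ 2 = 1) (ht : t ^ 2 = 1) (h : ∀ x, w (sg s t x) = w x)
    (h' : ∀ x, w1 (sg s t x) = w1 x) (x : ℝ × ℝ)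
    (hC : IneqC w w1 c0 (sg s t x)) : IneqC w w1 c0 x := by
  intro v
  have h1 := hC (sg s t v)
  have e1 : d1 w (sg s t x) (sg s t v) = d1 w x v :=
    d1_sg (hw.differentiable (by simp)) s t h x v
  have e2 : d1 w1 (sg s t x) (sg s t v) = d1 w1 x v :=
    d1_sg (hw1.differentiable (by simp)) s t h' x v
  rw [d2_sg hw s t h, d2_sg hw1 s t h', e1, e2, h, h', sg_apply] at h1
  simp only [mul_pow, hs, ht, one_mul] at h1
  exact h1

theorem sign_exists (a : ℝ) : ∃ s : ℝ, s ^ 2 = 1 ∧ s * a = |a| := by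
  rcases le_total 0 a with h | h
  · exact ⟨1, by norm_num, by rw [one_mul, abs_of_nonneg h]⟩
  · exact ⟨-1, by norm_num, by rw [abs_of_nonpos h]; ring⟩

theorem D0_sg (k d : ℕ) (c : ℕ → ℕ → ℝ) (b ks th s t : ℝ) (hs : s ^ 2 = 1) (ht : t ^ 2 = 1)
    (x : ℝ × ℝ) (hx : x ∈ D0 k d c b ks th) : sg s t x ∈ D0 k d c b ks th := by
  have h1 : |s| = 1 := by
    have : |s| ^ 2 = 1 := by rw [sq_abs, hs]
    nlinarith [abs_nonneg s]
  have h2 : |t| = 1 := by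
    have : |t| ^ 2 = 1 := by rw [sq_abs, ht]
    nlinarith [abs_nonneg t]
  have e1 : |(sg s t x).1| = |x.1| := by rw [sg_apply]; simp only [abs_mul, h1, one_mul]
  have e2 : |(sg s t x).2| = |x.2| := by rw [sg_apply]; simp only [abs_mul, h2, one_mul]
  unfold D0 at hx ⊢
  simp only [Set.mem_setOf_eq] at hx ⊢
  rw [e1, e2, W_sg k d c s t hs ht]
  exact hx

theorem dense_off : Dense {x : ℝ × ℝ | x.1 ≠ 0 ∧ x.2 ≠ 0} := by
  have h : {x : ℝ × ℝ | x.1 ≠ 0 ∧ x.2 ≠ 0} = ({0}ᶜ : Set ℝ) ×ˢ ({0}ᶜ : Set ℝ) := by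
    ext x
    simp
  rw [h]
  exact (dense_compl_singleton (0 : ℝ)).prod (dense_compl_singleton (0 : ℝ))

/-- The general closure argument. -/
theorem gen (D : Set (ℝ × ℝ)) (P : ℝ × ℝ → Prop) (hD : IsOpen D) (hP : IsClosed {x | P x})
    (hs : ∀ s t : ℝ, s ^ 2 = 1 → t ^ 2 = 1 → ∀ x ∈ D, sg s t x ∈ D)
    (hPs : ∀ s t : ℝ, s ^ 2 = 1 → t ^ 2 = 1 → ∀ x, P (sg s t x) → P x)
    (h : ∀ x ∈ D, 0 < x.1 → 0 < x.2 → P x) : ∀ x ∈ closure D, P x := by
  have h1 : D ∩ {x : ℝ × ℝ | x.1 ≠ 0 ∧ x.2 ≠ 0} ⊆ {x | P x} := by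
    rintro x ⟨hx, hx1, hx2⟩
    obtain ⟨s, hs1, hs2⟩ := sign_exists x.1
    obtain ⟨t, ht1, ht2⟩ := sign_exists x.2
    refine hPs s t hs1 ht1 x (h _ (hs s t hs1 ht1 x hx) ?_ ?_)
    · rw [sg_apply]
      simp only [hs2]
      exact abs_pos.2 hx1
    · rw [sg_apply]
      simp only [ht2]
      exact abs_pos.2 hx2
  have h2 : closure D ⊆ {x | P x} := by
    refine (closure_minimal (dense_off.open_subset_closure_inter hD) isClosed_closure).trans ?_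
    exact closure_minimal h1 hP
  exact fun x hx => h2 hx

end LQT_T17

open LQT_T17 in
/-- T17 -/
theorem t_T17 (hs : StmtSmooth) : StmtT17 := by
  intro k d c b ks th be c0 hk hop
  have hk1 : 1 ≤ k := by omega
  have hw := W_smooth hs k d c hk1
  have hw1 := W_smooth hs k d (Dop k d c) hk1
  refine ⟨fun h => ?_, fun h => ?_⟩
  · exact gen (D0 k d c b ks th) (fun x => IneqB (W k d c) be c0 x) hop (closedB hw be c0)
      (fun s t hs1 ht1 x hx => D0_sg k d c b ks th s t hs1 ht1 x hx)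
      (fun s t hs1 ht1 x hx => ineqB_sg hw be c0 s t hs1 ht1 (W_sg k d c s t hs1 ht1) x hx) h
  · exact gen (D0 k d c b ks th) (fun x => IneqC (W k d c) (W k d (Dop k d c)) c0 x) hop
      (closedC hw hw1 c0)
      (fun s t hs1 ht1 x hx => D0_sg k d c b ks th s t hs1 ht1 x hx)
      (fun s t hs1 ht1 x hx => ineqC_sg hw hw1 c0 s t hs1 ht1 (W_sg k d c s t hs1 ht1)
        (W_sg k d (Dop k d c) s t hs1 ht1) x hx) h

end Lq
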