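import Pool.Agent.Lq.St4

set_option autoImplicit false

open Filter Topology

namespace Lq

/-- T18: the fields `ineqB`, `ineqC` of `OutK` -/
theorem t_T18 (h16 : StmtT16) (h17 : StmtT17) : StmtOutBC := by
  intro d c b ks th hL
  filter_upwards [h16 d c b ks th hL, eventually_ge_atTop 8] with k hk h8 hop
  obtain ⟨⟨c0, hc0, hb⟩, ⟨c1, hc1, hc⟩⟩ := hk
  exact ⟨⟨c0, hc0, (h17 k d c b ks th (8 / (5 * (k : ℝ) - 7)) c0 h8 hop).1 hb⟩,
    ⟨c1, hc1, (h17 k d c b ks th 0 c1 h8 hop).2 hc⟩⟩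

end Lq
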