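import Pool.Agent.Lq.St4

/-!
# LQT_T2: (4.2), (4.3)
-/

set_option autoImplicit false

open Filter Topology

namespace Lq

namespace LQT_T2

theorem JJ_const (d : ℕ) (c : ℕ → ℕ → ℝ) (s : ℝ) (A B : ℕ → ℝ) :
    JJ d (fun a b => s * c a b) A B = s * JJ d c A B := by
  unfold JJ
  rw [Finset.mul_sum]
  refine Finset.sum_congr rfl fun i _ => ?_
  rw [Finset.mul_sum]
  refine Finset.sum_congr rfl fun j _ => ?_
  ring

end LQT_T2

theorem t_T2 (h1 : StmtT1) (hg : StmtSigns) : StmtT2 := by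
  intro k d c x v be hk p1 p2
  obtain ⟨x1, x2⟩ := x
  obtain ⟨w0, w1, w2⟩ := h1 k d c (x1, x2) v hk p1 p2
  obtain ⟨u0, u1, u2⟩ := h1 k d (Dop k d c) (x1, x2) v hk p1 p2
  have hk0 : (0 : ℝ) < k := by exact_mod_cast (by omega : 0 < k)
  have hk' : (k : ℝ) ≠ 0 := hk0.ne'
  simp only at p1 p2 w0 w1 w2 u0 u1 u2 ⊢
  have hD2 : D2 k x1 ≠ 0 := by
    have : 0 < 4 * x1 ^ 2 / (k : ℝ) ^ 2 := by
      have := p1.1
      positivity
    exact (lt_of_lt_of_le this (hg k x1 hk p1).d2).ne'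
  have hD2' : D2 (4 * k) x2 ≠ 0 := by
    have : 0 < 4 * x2 ^ 2 / ((4 * k : ℕ) : ℝ) ^ 2 := by
      have := p2.1
      push_cast
      positivity
    exact (lt_of_lt_of_le this (hg (4 * k) x2 (by omega) p2).d2).ne'
  refine ⟨?_, ?_⟩
  · rw [w0, w1, w2]
    simp only [CB]
    ring
  · -- the jet of `Dop` is `4/k` times the jet `kJetQ`
    have hc : Dop k d c = fun a b => 4 / (k : ℝ) * ((k : ℝ) / 4 * Dop k d c a b) := by
      funext a b
      field_simp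
    have hJ : kJet k d (Dop k d c) x1 x2 = ⟨4 / (k : ℝ) * (kJetQ k d c x1 x2).s,
        4 / (k : ℝ) * (kJetQ k d c x1 x2).s1, 4 / (k : ℝ) * (kJetQ k d c x1 x2).s2,
        4 / (k : ℝ) * (kJetQ k d c x1 x2).s12, 4 / (k : ℝ) * (kJetQ k d c x1 x2).s11,
        4 / (k : ℝ) * (kJetQ k d c x1 x2).s22⟩ := by
      conv_lhs => rw [hc]
      unfold kJetQ kJet mkJet
      simp only [LQT_T2.JJ_const]
    rw [w0, w1, w2, u0, u1, u2, hJ]
    generalize kJetQ k d c x1 x2 = Q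
    generalize kJet k d c x1 x2 = S
    generalize FF k (x1, x2) = G
    simp only [Nf, q11, q22, q12, rk, Xf, Ef, S1f, S2f]
    field_simp
    ring

end Lq
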