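import Pool.Agent.Lq.St4

/-!
# T3: linear algebra
-/

set_option autoImplicit false

open Filter Topology

namespace Lq

namespace LQT_T3

theorem two_z {u w z : ℝ} (hu : 0 ≤ u) (hw : 0 ≤ w) (hz : z ^ 2 ≤ u * w) :
    0 ≤ u + w + 2 * z := by
  have h1 : |2 * z| ≤ u + w := by
    apply abs_le_of_sq_le_sq _ (by linarith)
    nlinarith [sq_nonneg (u - w)]
  have h2 := (abs_le.1 h1).1
  linarith

theorem third (A B z p q m R : ℝ) (hA : 0 ≤ A) (hB : 0 ≤ B) (hR : 0 ≤ R)
    (hz : z ^ 2 = R * (A * B)) (ht : 0 < p + q) :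
    (p * q - R * m ^ 2) / (p + q) * (A + B) ≤ p * A + q * B + 2 * m * z := by
  obtain ⟨D, hDdef⟩ : ∃ D, D = (p * q - R * m ^ 2) / (p + q) := ⟨_, rfl⟩
  rw [← hDdef]
  have hDt : D * (p + q) = p * q - R * m ^ 2 := by
    rw [hDdef]
    field_simp
  have hRm : 0 ≤ R * m ^ 2 := by positivity
  have h1 : (p - D) * (p + q) = p ^ 2 + R * m ^ 2 := by
    linear_combination -hDt
  have h2 : (q - D) * (p + q) = q ^ 2 + R * m ^ 2 := by
    linear_combination -hDt
  have hp : 0 ≤ p - D := by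
    have : 0 ≤ (p - D) * (p + q) := by rw [h1]; positivity
    exact nonneg_of_mul_nonneg_left this ht
  have hq : 0 ≤ q - D := by
    have : 0 ≤ (q - D) * (p + q) := by rw [h2]; positivity
    exact nonneg_of_mul_nonneg_left this ht
  have h3 : (p - D) * (q - D) = R * m ^ 2 + D ^ 2 := by
    linear_combination -hDt
  have hAB : 0 ≤ A * B := mul_nonneg hA hB
  have h4 : (m * z) ^ 2 ≤ ((p - D) * A) * ((q - D) * B) := by
    have e1 : (m * z) ^ 2 = R * m ^ 2 * (A * B) := by
      rw [mul_pow, hz]; ring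
    have e2 : ((p - D) * A) * ((q - D) * B) = (R * m ^ 2 + D ^ 2) * (A * B) := by
      rw [← h3]; ring
    rw [e1, e2]
    apply mul_le_mul_of_nonneg_right _ hAB
    nlinarith [sq_nonneg D]
  have h5 := two_z (mul_nonneg hp hA) (mul_nonneg hq hB) h4
  linarith [h5]

end LQT_T3

theorem t_T3 : StmtT3 := by
  refine ⟨?_, ?_, ?_⟩
  · intro r1 r2 S Q
    unfold q11 q22 q12 Tc
    ring
  · intro b r1 r2 l1 l2 S
    unfold Tb
    ring
  · intro k x v p q m _ h1 h2 ht _
    have key := LQT_T3.third (D2 k x.1 * (v.1 / x.1) ^ 2) (D2 (4 * k) x.2 * (v.2 / x.2) ^ 2)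
      (D1 k x.1 * D1 (4 * k) x.2 * (v.1 / x.1) * (v.2 / x.2)) p q m
      (rk k x.1 * rk (4 * k) x.2) (by positivity) (by positivity)
      (by unfold rk; positivity)
      (by
        unfold rk
        field_simp)
      ht
    unfold Df Nf
    exact key

end Lq
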