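import Pool.Agent.Lq.St4

/-!
# T5: limits of the jets along a sequence
-/

set_option autoImplicit false

open Filter Topology

namespace Lq

namespace LQT_T5

theorem JJ_tendsto (d : ℕ) (cn : ℕ → ℕ → ℕ → ℝ) (c : ℕ → ℕ → ℝ) (An Bn : ℕ → ℕ → ℝ)
    (A B : ℕ → ℝ) (hc : ∀ a b, Tendsto (fun n => cn n a b) atTop (𝓝 (c a b)))
    (hA : ∀ i, Tendsto (fun n => An n i) atTop (𝓝 (A i)))
    (hB : ∀ i, Tendsto (fun n => Bn n i) atTop (𝓝 (B i))) :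
    Tendsto (fun n => JJ d (cn n) (An n) (Bn n)) atTop (𝓝 (JJ d c A B)) := by
  unfold JJ
  apply tendsto_finsetSum
  intro i _
  apply tendsto_finsetSum
  intro j _
  exact ((hc i j).mul (hA i)).mul (hB j)

theorem jet (hj0 : StmtJ0) (hj1 : StmtJ1) (hj2 : StmtJ2) (d : ℕ) (cn : ℕ → ℕ → ℕ → ℝ)
    (c : ℕ → ℕ → ℝ) (hc : ∀ a b, Tendsto (fun n => cn n a b) atTop (𝓝 (c a b)))
    (kk : ℕ → ℕ) (x : ℕ → ℝ × ℝ) (a1 a2 : ℝ)
    (l1 : Lim1 (I := ℕ) atTop kk (fun n => (x n).1) a1)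
    (l2 : Lim1 (I := ℕ) atTop (fun n => 4 * kk n) (fun n => (x n).2) a2) :
    JetTo (fun n => kJet (kk n) d (cn n) (x n).1 (x n).2) (limJet d c a1 a2) := by
  have A0 := fun i => hj0 ℕ atTop kk (fun n => (x n).1) a1 i l1
  have A1 := fun i => hj1 ℕ atTop kk (fun n => (x n).1) a1 i l1
  have A2 := fun i => hj2 ℕ atTop kk (fun n => (x n).1) a1 i l1
  have B0 := fun i => hj0 ℕ atTop (fun n => 4 * kk n) (fun n => (x n).2) a2 i l2
  have B1 := fun i => hj1 ℕ atTop (fun n => 4 * kk n) (fun n => (x n).2) a2 i l2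
  have B2 := fun i => hj2 ℕ atTop (fun n => 4 * kk n) (fun n => (x n).2) a2 i l2
  exact ⟨JJ_tendsto d cn c _ _ _ _ hc A0 B0, JJ_tendsto d cn c _ _ _ _ hc A1 B0,
    JJ_tendsto d cn c _ _ _ _ hc A0 B1, JJ_tendsto d cn c _ _ _ _ hc A1 B1,
    JJ_tendsto d cn c _ _ _ _ hc A2 B0, JJ_tendsto d cn c _ _ _ _ hc A0 B2⟩

end LQT_T5

/-- T5: limits of the jets of `w` and `w1`, and `S > 0` on `D0`. -/
theorem t_T5 (hg : StmtSigns) (h1 : StmtT1) (hj0 : StmtJ0) (hj1 : StmtJ1) (hj2 : StmtJ2)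
    (hL : StmtLop) : StmtT5 := by
  intro d c b ks th hok kk x a1 a2 hl
  refine ⟨fun n => ?_, ?_, ?_⟩
  · have hW := (h1 (kk n) d c (x n) 0 (hl.k8 n) (hl.p1 n) (hl.p2 n)).1
    have hpos : 0 < W (kk n) d c (x n) := (hl.mem n).2.2.2.2.1
    have hF : 0 < FF (kk n) (x n) := by
      unfold FF
      exact mul_pos ((hl.p1 n).2 _ (hl.p1 n).1.le le_rfl) ((hl.p2 n).2 _ (hl.p2 n).1.le le_rfl)
    rw [hW] at hpos
    exact (mul_pos_iff_of_pos_left hF).mp hpos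
  · exact LQT_T5.jet hj0 hj1 hj2 d (fun _ => c) c (fun a b => tendsto_const_nhds) kk x a1 a2
      hl.l1 hl.l2
  · exact LQT_T5.jet hj0 hj1 hj2 d (fun n a b => (kk n : ℝ) / 4 * Dop (kk n) d c a b) (Lop c)
      (fun a b => (hL d c a b hok.hdeg).comp hl.l1.hk) kk x a1 a2 hl.l1 hl.l2

end Lq
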