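import Pool.Agent.Lq.St4

/-!
# LQT_T6: (c) along sequences
-/

set_option autoImplicit false

open Filter Topology

namespace Lq

namespace LQT_T6

theorem lim_A {S Q : ℕ → Jet} {S0 Q0 : Jet} {r : ℕ → ℝ} {r0 : ℝ}
    (hS : JetTo S S0) (hQ : JetTo Q Q0) (hr : Tendsto r atTop (𝓝 r0)) :
    Tendsto (fun n => -(2 * r n * (Q n).s1 * (S n).s1) - (Q n).s * (S n).s11
        + (S n).s * (Q n).s11) atTop
      (𝓝 (-(2 * r0 * Q0.s1 * S0.s1) - Q0.s * S0.s11 + S0.s * Q0.s11)) :=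
  (((((hr.const_mul 2).mul hQ.s1).mul hS.s1).neg).sub (hQ.s.mul hS.s11)).add (hS.s.mul hQ.s11)

theorem lim_B {S Q : ℕ → Jet} {S0 Q0 : Jet} {r : ℕ → ℝ} {r0 : ℝ}
    (hS : JetTo S S0) (hQ : JetTo Q Q0) (hr : Tendsto r atTop (𝓝 r0)) :
    Tendsto (fun n => -(2 * r n * (Q n).s2 * (S n).s2) - (Q n).s * (S n).s22
        + (S n).s * (Q n).s22) atTop
      (𝓝 (-(2 * r0 * Q0.s2 * S0.s2) - Q0.s * S0.s22 + S0.s * Q0.s22)) :=
  (((((hr.const_mul 2).mul hQ.s2).mul hS.s2).neg).sub (hQ.s.mul hS.s22)).add (hS.s.mul hQ.s22)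

theorem lim_C {S Q : ℕ → Jet} {S0 Q0 : Jet}
    (hS : JetTo S S0) (hQ : JetTo Q Q0) :
    Tendsto (fun n => -((Q n).s1 * (S n).s2 + (Q n).s2 * (S n).s1) - (Q n).s * (S n).s12
        + (S n).s * (Q n).s12) atTop
      (𝓝 (-(Q0.s1 * S0.s2 + Q0.s2 * S0.s1) - Q0.s * S0.s12 + S0.s * Q0.s12)) :=
  ((((hQ.s1.mul hS.s2).add (hQ.s2.mul hS.s1)).neg).sub (hQ.s.mul hS.s12)).add (hS.s.mul hQ.s12)

theorem lim_q11 {S Q : ℕ → Jet} {S0 Q0 : Jet} {r : ℕ → ℝ} {r0 : ℝ}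
    (hS : JetTo S S0) (hQ : JetTo Q Q0) (hr : Tendsto r atTop (𝓝 r0)) :
    Tendsto (fun n => q11 (r n) (S n) (Q n)) atTop (𝓝 (q11 r0 S0 Q0)) :=
  ((((((hQ.s.const_mul 2).mul hr).mul (hS.s1.pow 2)).sub
    ((((hS.s.const_mul 2).mul hr).mul hQ.s1).mul hS.s1)).sub
      ((hS.s.mul hQ.s).mul hS.s11)).add ((hS.s.pow 2).mul hQ.s11))

theorem lim_q22 {S Q : ℕ → Jet} {S0 Q0 : Jet} {r : ℕ → ℝ} {r0 : ℝ}
    (hS : JetTo S S0) (hQ : JetTo Q Q0) (hr : Tendsto r atTop (𝓝 r0)) :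
    Tendsto (fun n => q22 (r n) (S n) (Q n)) atTop (𝓝 (q22 r0 S0 Q0)) :=
  ((((((hQ.s.const_mul 2).mul hr).mul (hS.s2.pow 2)).sub
    ((((hS.s.const_mul 2).mul hr).mul hQ.s2).mul hS.s2)).sub
      ((hS.s.mul hQ.s).mul hS.s22)).add ((hS.s.pow 2).mul hQ.s22))

theorem lim_Tc {S Q : ℕ → Jet} {S0 Q0 : Jet} {r r' : ℕ → ℝ} {r0 r0' : ℝ}
    (hS : JetTo S S0) (hQ : JetTo Q Q0) (hr : Tendsto r atTop (𝓝 r0))
    (hr' : Tendsto r' atTop (𝓝 r0')) :
    Tendsto (fun n => Tc (r n) (r' n) (S n) (Q n)) atTop (𝓝 (Tc r0 r0' S0 Q0)) := by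
  have hA := lim_A hS hQ hr
  have hB := lim_B hS hQ hr'
  have hC := lim_C hS hQ
  have h1 := (hr.mul (hS.s1.pow 2)).mul hB
  have h2 := (hr'.mul (hS.s2.pow 2)).mul hA
  have h3 := (((((hr.const_mul 2).mul hr').mul hS.s1).mul hS.s2).mul hC)
  have h4 := (hQ.s.const_mul 2).mul ((h1.add h2).sub h3)
  have h5 := hS.s.mul ((hA.mul hB).sub ((hr.mul hr').mul (hC.pow 2)))
  exact h4.add h5

theorem D2pos (hg : StmtSigns) {k : ℕ} {x : ℝ} (hk : 8 ≤ k) (hx : Pos k x) : 0 < D2 k x := by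
  have h := (hg k x hk hx).d2
  have hx0 : 0 < x := hx.1
  have hk0 : (0 : ℝ) < (k : ℝ) := by
    have : 0 < k := by omega
    exact_mod_cast this
  have : 0 < 4 * x ^ 2 / (k : ℝ) ^ 2 := by positivity
  linarith

end LQT_T6

open LQT_T6 in
theorem t_T6 (h3 : StmtT3) (h5 : StmtT5) (hr : StmtR) (hg : StmtSigns) : StmtT6 := by
  intro d c b ks th hL kk x a1 a2 hS
  obtain ⟨hSpos, hJ, hQ⟩ := h5 d c b ks th hL kk x a1 a2 hS
  have hr1 : Tendsto (fun n => rk (kk n) (x n).1) atTop (𝓝 (rr a1)) :=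
    hr ℕ atTop kk (fun n => (x n).1) a1 hS.l1
  have hr2 : Tendsto (fun n => rk (4 * kk n) (x n).2) atTop (𝓝 (rr a2)) :=
    hr ℕ atTop (fun n => 4 * kk n) (fun n => (x n).2) a2 hS.l2
  obtain ⟨ht0, hT0⟩ := hL.conv a1 a2 hS.gd
  have hq := (lim_q11 hJ hQ hr1).add (lim_q22 hJ hQ hr2)
  have hT := lim_Tc hJ hQ hr1 hr2
  set t := q11 (rr a1) (limJet d c a1 a2) (limJet d (Lop c) a1 a2)
        + q22 (rr a2) (limJet d c a1 a2) (limJet d (Lop c) a1 a2) with ht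
  set T := Tc (rr a1) (rr a2) (limJet d c a1 a2) (limJet d (Lop c) a1 a2) with hTdef
  refine ⟨T / (4 * t), by positivity, ?_⟩
  have e1 := hq.eventually (eventually_gt_nhds (show t / 2 < t by linarith))
  have e2 := hq.eventually (eventually_lt_nhds (show t < 2 * t by linarith))
  have e3 := hT.eventually (eventually_gt_nhds (show T / 2 < T by linarith))
  filter_upwards [e1, e2, e3] with n h1 h2 h3' v
  have hk8 := hS.k8 n
  have hk8' : 8 ≤ 4 * kk n := by omega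
  have hD1 : 0 < D2 (kk n) (x n).1 := D2pos hg hk8 (hS.p1 n)
  have hD2 : 0 < D2 (4 * kk n) (x n).2 := D2pos hg hk8' (hS.p2 n)
  have hs := hSpos n
  have hid := h3.1 (rk (kk n) (x n).1) (rk (4 * kk n) (x n).2)
    (kJet (kk n) d c (x n).1 (x n).2) (kJetQ (kk n) d c (x n).1 (x n).2)
  have hDf : 0 ≤ Df (kk n) (x n) v := by
    unfold Df
    positivity
  generalize q11 (rk (kk n) (x n).1) (kJet (kk n) d c (x n).1 (x n).2)
    (kJetQ (kk n) d c (x n).1 (x n).2) = p at h1 h2 hid ⊢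
  generalize q22 (rk (4 * kk n) (x n).2) (kJet (kk n) d c (x n).1 (x n).2)
    (kJetQ (kk n) d c (x n).1 (x n).2) = q at h1 h2 hid ⊢
  generalize q12 (kJet (kk n) d c (x n).1 (x n).2)
    (kJetQ (kk n) d c (x n).1 (x n).2) = m at hid ⊢
  generalize Tc (rk (kk n) (x n).1) (rk (4 * kk n) (x n).2)
    (kJet (kk n) d c (x n).1 (x n).2) (kJetQ (kk n) d c (x n).1 (x n).2) = τ at h3' hid
  generalize (kJet (kk n) d c (x n).1 (x n).2).s = s at hs hid ⊢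
  have hpq : 0 < p + q := by linarith
  have hτ : 0 < τ := by linarith
  have hdet : 0 ≤ p * q - rk (kk n) (x n).1 * rk (4 * kk n) (x n).2 * m ^ 2 := by
    rw [hid]; positivity
  have hmain := h3.2.2 (kk n) (x n) v p q m hk8 hD1 hD2 hpq hdet
  rw [hid] at hmain
  refine le_trans (mul_le_mul_of_nonneg_right ?_ hDf) hmain
  rw [le_div_iff₀ hpq]
  have h6 : T / (4 * t) * (p + q) ≤ T / 2 := by
    have h7 : T / (4 * t) * (p + q) ≤ T / (4 * t) * (2 * t) :=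
      mul_le_mul_of_nonneg_left h2.le (by positivity)
    have h8 : T / (4 * t) * (2 * t) = T / 2 := by
      field_simp
      ring
    linarith
  calc T / (4 * t) * s * (p + q) = s * (T / (4 * t) * (p + q)) := by ring
    _ ≤ s * τ := mul_le_mul_of_nonneg_left (by linarith) hs.le

end Lq
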