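import Pool.Agent.Lq.St4

set_option autoImplicit false

open Filter Topology

namespace Lq

namespace LQT_T8

/-- the two variable inequality -/
theorem cs {X1 X2 e1 e2 a b : ℝ} (h1 : 0 < e1) (h2 : 0 < e2) :
    (X1 * a + X2 * b) ^ 2 ≤ (X1 ^ 2 / e1 + X2 ^ 2 / e2) * (e1 * a ^ 2 + e2 * b ^ 2) := by
  have e : (X1 ^ 2 / e1 + X2 ^ 2 / e2) * (e1 * a ^ 2 + e2 * b ^ 2) - (X1 * a + X2 * b) ^ 2
      = (X1 * e2 * b - X2 * e1 * a) ^ 2 / (e1 * e2) := by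
    field_simp
    ring
  have h : 0 ≤ (X1 * e2 * b - X2 * e1 * a) ^ 2 / (e1 * e2) := by positivity
  linarith

theorem amgm {a b w : ℝ} (hw : 0 < w) :
    (a - b) ^ 2 ≤ (1 + 1 / w) * a ^ 2 + (1 + w) * b ^ 2 := by
  have e : (1 + 1 / w) * a ^ 2 + (1 + w) * b ^ 2 - (a - b) ^ 2 = (a + w * b) ^ 2 / w := by
    field_simp
    ring
  have h : 0 ≤ (a + w * b) ^ 2 / w := by positivity
  linarith

theorem nf_eq {k : ℕ} {x v : ℝ × ℝ} {S : Jet} {c b : ℝ} (h1 : 0 < D2 k x.1)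
    (h2 : 0 < D2 (4 * k) x.2) :
    Nf k x v (c * ll k x.1 * S.s ^ 2 + b * rk k x.1 * S.s1 ^ 2 - S.s * S.s11)
      (c * ll (4 * k) x.2 * S.s ^ 2 + b * rk (4 * k) x.2 * S.s2 ^ 2 - S.s * S.s22)
      (b * S.s1 * S.s2 - S.s * S.s12)
      = c * S.s ^ 2 * Ef k x v + b * (S1f k x v S) ^ 2 - S.s * S2f k x v S := by
  unfold Nf Ef S1f S2f ll rk
  field_simp
  ring

theorem af_eq {k : ℕ} {x : ℝ × ℝ} (hk : 8 ≤ k) :
    AF k x = X k x.1 ^ 2 / ee k x.1 + X (4 * k) x.2 ^ 2 / ee (4 * k) x.2 := by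
  have hk0 : (k : ℝ) ≠ 0 := by
    have : (0 : ℝ) < k := by exact_mod_cast (by omega : 0 < k)
    exact this.ne'
  unfold AF yy gg
  push_cast
  have e1 : (k : ℝ) / 2 * (2 * X k x.1 / (k : ℝ)) = X k x.1 := by
    field_simp
  have e2 : 4 * (k : ℝ) / 2 * (2 * X (4 * k) x.2 / (4 * (k : ℝ))) = X (4 * k) x.2 := by
    field_simp
  rw [e1, e2]
  ring

theorem main (hg : StmtSigns) (k : ℕ) (x v : ℝ × ℝ) (S : Jet) (hk : 8 ≤ k) (p1 : Pos k x.1)
    (p2 : Pos (4 * k) x.2) :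
    ct k x * S.s ^ 2 * Ef k x v + bb k * (S1f k x v S) ^ 2 - S.s * S2f k x v S
      ≤ CB (beta k) k x v S := by
  have s1 := hg k x.1 hk p1
  have s2 := hg (4 * k) x.2 (by omega) p2
  have hk8 : (8 : ℝ) ≤ k := by exact_mod_cast hk
  have hbe : 0 < beta k := by
    unfold beta
    apply div_pos (by norm_num)
    linarith
  have he1 : 0 < ee k x.1 := s1.X0.trans s1.eX
  have he2 : 0 < ee (4 * k) x.2 := s2.X0.trans s2.eX
  have hw : 0 < Real.sqrt k := Real.sqrt_pos.2 (by linarith)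
  have hX : (Xf k x v) ^ 2 ≤ AF k x * Ef k x v := by
    rw [af_eq hk]
    exact cs he1 he2
  have hA := amgm (a := S.s * Xf k x v) (b := S1f k x v S) hw
  have hB : (1 + 1 / Real.sqrt k) * (S.s * Xf k x v) ^ 2
      ≤ (1 + 1 / Real.sqrt k) * (S.s ^ 2 * (AF k x * Ef k x v)) := by
    apply mul_le_mul_of_nonneg_left _ (by positivity)
    rw [mul_pow]
    exact mul_le_mul_of_nonneg_left hX (sq_nonneg _)
  have hC : beta k * (S.s * Xf k x v - S1f k x v S) ^ 2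
      ≤ beta k * ((1 + 1 / Real.sqrt k) * (S.s ^ 2 * (AF k x * Ef k x v))
        + (1 + Real.sqrt k) * S1f k x v S ^ 2) := by
    apply mul_le_mul_of_nonneg_left _ hbe.le
    linarith
  unfold CB ct bb
  nlinarith [hC]

end LQT_T8

theorem t_T8 (hg : StmtSigns) : StmtT8 := by
  intro k x v S hk p1 p2
  have s1 := hg k x.1 hk p1
  have s2 := hg (4 * k) x.2 (by omega) p2
  have h1 : 0 < D2 k x.1 := by
    have h := s1.d2
    have hx := p1.1
    have hk0 : (0 : ℝ) < k := by exact_mod_cast (by omega : 0 < k)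
    have : 0 < 4 * x.1 ^ 2 / (k : ℝ) ^ 2 := by positivity
    linarith
  have h2 : 0 < D2 (4 * k) x.2 := by
    have h := s2.d2
    have hx := p2.1
    have hk0 : (0 : ℝ) < ((4 * k : ℕ) : ℝ) := by exact_mod_cast (by omega : 0 < 4 * k)
    have : 0 < 4 * x.2 ^ 2 / ((4 * k : ℕ) : ℝ) ^ 2 := by positivity
    linarith
  rw [LQT_T8.nf_eq h1 h2]
  exact LQT_T8.main hg k x v S hk p1 p2

end Lq
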