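import Pool.Agent.Lq.St4

/-!
# T9: limits of the coefficients
-/

set_option autoImplicit false

open Filter Topology

namespace Lq

namespace LQT_T9

theorem D2pos (hg : StmtSigns) {k : ℕ} {x : ℝ} (hk : 8 ≤ k) (hx : Pos k x) : 0 < D2 k x := by
  have h := (hg k x hk hx).d2
  have h1 : 0 < x := hx.1
  have h2 : (0 : ℝ) < k := by
    have : 0 < k := by omega
    exact_mod_cast this
  have h3 : 0 < 4 * x ^ 2 / (k : ℝ) ^ 2 := by positivity
  linarith

theorem eepos (hg : StmtSigns) {k : ℕ} {x : ℝ} (hk : 8 ≤ k) (hx : Pos k x) : 0 < ee k x := by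
  have h := hg k x hk hx
  exact h.X0.trans h.eX

theorem llLim (hE : StmtDE) (hg : StmtSigns) {kk : ℕ → ℕ} {x : ℕ → ℝ} {a : ℝ}
    (h : Lim1 (I := ℕ) atTop kk x a) (h8 : ∀ n, 8 ≤ kk n) (hp : ∀ n, Pos (kk n) (x n)) :
    (a ≤ 1 → Tendsto (fun n => ll (kk n) (x n)) atTop atTop) ∧
    (1 < a → Tendsto (fun n => ll (kk n) (x n)) atTop (𝓝 (1 / (2 * (a - 1))))) := by
  have hlim := hE ℕ atTop kk x a h
  have heq : (fun n => ll (kk n) (x n)) = fun n => (D2 (kk n) (x n) / ee (kk n) (x n))⁻¹ := by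
    funext n
    unfold ll
    rw [inv_div]
  constructor
  · intro ha
    have h0 : (2 : ℝ) * max (a - 1) 0 = 0 := by
      rw [max_eq_right (by linarith), mul_zero]
    rw [h0] at hlim
    rw [heq]
    have hw : Tendsto (fun n => D2 (kk n) (x n) / ee (kk n) (x n)) atTop (𝓝[>] 0) := by
      refine tendsto_nhdsWithin_iff.mpr ⟨hlim, Eventually.of_forall fun n => ?_⟩
      exact div_pos (D2pos hg (h8 n) (hp n)) (eepos hg (h8 n) (hp n))
    exact tendsto_inv_nhdsGT_zero.comp hw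
  · intro ha
    have h0 : (2 : ℝ) * max (a - 1) 0 = 2 * (a - 1) := by
      rw [max_eq_left (by linarith)]
    rw [h0] at hlim
    rw [heq, one_div]
    exact hlim.inv₀ (by
      have : 0 < 2 * (a - 1) := by linarith
      exact ne_of_gt this)

section scalar

variable {kk : ℕ → ℕ} (hk : Tendsto kk atTop atTop)

include hk

theorem castTop : Tendsto (fun n => (kk n : ℝ)) atTop atTop :=
  tendsto_natCast_atTop_atTop.comp hk

theorem sqrtInv : Tendsto (fun n => 1 / Real.sqrt (kk n)) atTop (𝓝 0) := by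
  have h1 : Tendsto (fun n => Real.sqrt (kk n)) atTop atTop :=
    Real.tendsto_sqrt_atTop.comp (castTop hk)
  have h2 := h1.inv_tendsto_atTop
  refine h2.congr fun n => ?_
  simp [one_div]

theorem betaK : Tendsto (fun n => beta (kk n) * (kk n : ℝ)) atTop (𝓝 (8 / 5)) := by
  have h1 : Tendsto (fun n => ((kk n : ℝ))⁻¹) atTop (𝓝 0) := (castTop hk).inv_tendsto_atTop
  have h2 : Tendsto (fun n => 8 / (5 - 7 * ((kk n : ℝ))⁻¹)) atTop (𝓝 (8 / (5 - 7 * 0))) :=
    tendsto_const_nhds.div (tendsto_const_nhds.sub (tendsto_const_nhds.mul h1)) (by norm_num)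
  have h3 : (8 : ℝ) / (5 - 7 * 0) = 8 / 5 := by norm_num
  rw [h3] at h2
  refine h2.congr' ?_
  filter_upwards [(castTop hk).eventually_gt_atTop 2] with n hn
  unfold beta
  have hk0 : (kk n : ℝ) ≠ 0 := by
    have : (0 : ℝ) < kk n := by linarith
    exact ne_of_gt this
  have hd : 5 * (kk n : ℝ) - 7 ≠ 0 := by
    have : 0 < 5 * (kk n : ℝ) - 7 := by linarith
    exact ne_of_gt this
  have hd' : 5 - 7 * ((kk n : ℝ))⁻¹ ≠ 0 := by
    intro h
    apply hd
    have h4 : (5 - 7 * ((kk n : ℝ))⁻¹) * (kk n : ℝ) = 0 := by rw [h, zero_mul]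
    have h5 : (5 - 7 * ((kk n : ℝ))⁻¹) * (kk n : ℝ) = 5 * (kk n : ℝ) - 7 := by
      field_simp
    rw [h5] at h4
    exact h4
  rw [div_mul_eq_mul_div, div_eq_div_iff hd' hd]
  field_simp

theorem betaB : Tendsto (fun n => beta (kk n) * (1 + Real.sqrt (kk n))) atTop (𝓝 0) := by
  have h1 : Tendsto (fun n => ((kk n : ℝ))⁻¹) atTop (𝓝 0) := (castTop hk).inv_tendsto_atTop
  have h2 := (betaK hk).mul (h1.add (sqrtInv hk))
  have h3 : (8 / 5 : ℝ) * (0 + 0) = 0 := by norm_num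
  rw [h3] at h2
  refine h2.congr' ?_
  filter_upwards [(castTop hk).eventually_gt_atTop 2] with n hn
  have hk0 : (0 : ℝ) < kk n := by linarith
  have hs : 0 < Real.sqrt (kk n) := Real.sqrt_pos.mpr hk0
  have h4 : Real.sqrt (kk n) * Real.sqrt (kk n) = (kk n : ℝ) := Real.mul_self_sqrt hk0.le
  have h5 : (kk n : ℝ) * (((kk n : ℝ))⁻¹ + 1 / Real.sqrt (kk n)) = 1 + Real.sqrt (kk n) := by
    have h6 : (kk n : ℝ) * (1 / Real.sqrt (kk n)) = Real.sqrt (kk n) := by
      rw [mul_one_div, div_eq_iff (ne_of_gt hs)]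
      exact h4.symm
    rw [mul_add, h6, mul_inv_cancel₀ (ne_of_gt hk0)]
  rw [mul_assoc, h5]

end scalar

end LQT_T9

open LQT_T9 in
/-- T9: limits of the coefficients -/
theorem t_T9 (hG : StmtG) (hE : StmtDE) (hR : StmtR) (hg : StmtSigns) : StmtT9 := by
  intro d c b ks th kk x a1 a2 h
  have hk : Tendsto kk atTop atTop := h.l1.hk
  have h8' : ∀ n, 8 ≤ 4 * kk n := fun n => by
    have := h.k8 n
    omega
  have hl1 := llLim hE hg h.l1 h.k8 h.p1
  have hl2 := llLim hE hg h.l2 h8' h.p2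
  refine ⟨?_, ?_, hl1.1, hl2.1, hl1.2, hl2.2, ?_, ?_⟩
  · have h1 := (tendsto_const_nhds (x := (1 : ℝ))).sub (betaB hk)
    rw [sub_zero] at h1
    exact h1
  · have g1 := hG ℕ atTop kk (fun n => (x n).1) a1 h.l1
    have g2 := hG ℕ atTop (fun n => 4 * kk n) (fun n => (x n).2) a2 h.l2
    have y1 := h.l1.hy
    have y2 := h.l2.hy
    have hb := betaK hk
    have hs := (tendsto_const_nhds (x := (1 : ℝ))).add (sqrtInv hk)
    rw [add_zero] at hs
    have hm := (tendsto_const_nhds (x := (1 : ℝ))).sub ((hb.mul hs).mul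
      ((((y1.mul g1).const_mul (1 / 2 : ℝ))).add ((y2.mul g2).const_mul (2 : ℝ))))
    have he : (1 : ℝ) - 8 / 5 * 1 * (1 / 2 * (a1 * max (1 - a1) 0) + 2 * (a2 * max (1 - a2) 0))
        = 1 - 4 / 5 * a1 * max (1 - a1) 0 - 16 / 5 * a2 * max (1 - a2) 0 := by ring
    rw [he] at hm
    refine hm.congr fun n => ?_
    unfold ct AF
    ring
  · exact hR ℕ atTop kk (fun n => (x n).1) a1 h.l1
  · exact hR ℕ atTop (fun n => 4 * kk n) (fun n => (x n).2) a2 h.l2

end Lq
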