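import Mathlib

set_option autoImplicit false

open Filter Topology Set

namespace Lq.OneB

/-- A function which vanishes only with negative derivative stays negative. -/
theorem barrier' {a b : ℝ} (hab : a ≤ b) {Z Z' : ℝ → ℝ}
    (hd : ∀ s ∈ Icc a b, HasDerivAt Z (Z' s) s) (ha : Z a < 0)
    (hz : ∀ s ∈ Icc a b, Z s = 0 → Z' s < 0) : Z b < 0 := by
  by_contra hb
  push Not at hb
  have hcont : ContinuousOn Z (Icc a b) := fun s hs => (hd s hs).continuousAt.continuousWithinAt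
  set A : Set ℝ := {t ∈ Icc a b | 0 ≤ Z t} with hA
  have hAne : A.Nonempty := ⟨b, ⟨hab, le_rfl⟩, hb⟩
  have hAbdd : BddBelow A := ⟨a, fun t ht => ht.1.1⟩
  have hAclosed : IsClosed A := by
    have := hcont.preimage_isClosed_of_isClosed isClosed_Icc (isClosed_Ici (a := (0 : ℝ)))
    have e : A = Icc a b ∩ Z ⁻¹' Ici 0 := by
      ext t; simp [hA]
    rw [e]; exact this
  have hc : sInf A ∈ A := hAclosed.csInf_mem hAne hAbdd
  set c := sInf A with hcdef
  have hca : a < c := by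
    rcases eq_or_lt_of_le hc.1.1 with h | h
    · exfalso
      have := hc.2
      rw [← h] at this
      linarith
    · exact h
  have hlt : ∀ t, a ≤ t → t < c → Z t < 0 := by
    intro t hat htc
    by_contra h
    push Not at h
    have : t ∈ A := ⟨⟨hat, htc.le.trans hc.1.2⟩, h⟩
    exact absurd (csInf_le hAbdd this) (not_le.mpr htc)
  have hcz : Z c = 0 := by
    apply le_antisymm _ hc.2
    have h1 : Tendsto Z (𝓝[<] c) (𝓝 (Z c)) :=
      ((hd c hc.1).continuousAt.tendsto).mono_left nhdsWithin_le_nhds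
    have : (𝓝[<] c).NeBot := inferInstance
    refine le_of_tendsto h1 ?_
    have h2 : ∀ᶠ t in 𝓝[<] c, a ≤ t :=
      (eventually_ge_nhds hca).filter_mono nhdsWithin_le_nhds
    filter_upwards [h2, self_mem_nhdsWithin] with t ht1 ht2
    exact (hlt t ht1 ht2).le
  have hneg := hz c hc.1 hcz
  have hs : Tendsto (slope Z c) (𝓝[<] c) (𝓝 (Z' c)) := by
    have := (hd c hc.1).hasDerivWithinAt (s := Iio c)
    rwa [hasDerivWithinAt_iff_tendsto_slope' (by simp)] at this
  have h3 : ∀ᶠ t in 𝓝[<] c, slope Z c t < 0 := (tendsto_order.1 hs).2 0 hneg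
  have h2 : ∀ᶠ t in 𝓝[<] c, a ≤ t :=
    (eventually_ge_nhds hca).filter_mono nhdsWithin_le_nhds
  obtain ⟨t, ht1, ht2, ht3⟩ := (h3.and (h2.and self_mem_nhdsWithin)).exists
  have h4 := hlt t ht2 ht3
  rw [slope_def_field, hcz, sub_zero] at ht1
  have h5 : t - c < 0 := sub_neg.mpr ht3
  exact absurd ht1 (not_lt.mpr (div_nonneg_of_nonpos h4.le h5.le))

/-- The scale derivative `s d/ds`. -/
def HasD (Z : ℝ → ℝ) (w s : ℝ) : Prop := HasDerivAt Z (w / s) s

theorem barrierD' {a b : ℝ} (h0 : 0 < a) (hab : a ≤ b) {Z W : ℝ → ℝ}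
    (hd : ∀ s ∈ Icc a b, HasD Z (W s) s) (ha : Z a < 0)
    (hz : ∀ s ∈ Icc a b, Z s = 0 → W s < 0) : Z b < 0 := by
  refine barrier' hab (Z' := fun s => W s / s) hd ha ?_
  intro s hs hs0
  have : 0 < s := by linarith [hs.1]
  exact div_neg_of_neg_of_pos (hz s hs hs0) this

theorem barrierD {b : ℝ} (hb : 0 < b) {Z W : ℝ → ℝ}
    (hd : ∀ s ∈ Ioc 0 b, HasD Z (W s) s) (h0 : ∀ᶠ s in 𝓝[>] (0 : ℝ), Z s < 0)
    (hz : ∀ s ∈ Ioc 0 b, Z s = 0 → W s < 0) : Z b < 0 := by
  have h1 : ∀ᶠ s in 𝓝[>] (0 : ℝ), s < b :=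
    (eventually_lt_nhds hb).filter_mono nhdsWithin_le_nhds
  obtain ⟨a, ha1, ha2, ha3⟩ := (h0.and (h1.and self_mem_nhdsWithin)).exists
  have ha0 : 0 < a := ha3
  exact barrierD' ha0 ha2.le (fun s hs => hd s ⟨ha0.trans_le hs.1, hs.2⟩) ha1
    (fun s hs => hz s ⟨ha0.trans_le hs.1, hs.2⟩)

theorem HasD.congr {Z : ℝ → ℝ} {w w' s : ℝ} (h : HasD Z w s) (e : w = w') : HasD Z w' s := e ▸ h

theorem HasD.add {Z V : ℝ → ℝ} {w v s : ℝ} (h : HasD Z w s) (h' : HasD V v s) :
    HasD (fun t => Z t + V t) (w + v) s := by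
  unfold HasD at *
  have := h.add h'
  rw [← add_div] at this
  exact this

theorem HasD.sub {Z V : ℝ → ℝ} {w v s : ℝ} (h : HasD Z w s) (h' : HasD V v s) :
    HasD (fun t => Z t - V t) (w - v) s := by
  unfold HasD at *
  have := h.sub h'
  rw [← sub_div] at this
  exact this

theorem HasD.neg {Z : ℝ → ℝ} {w s : ℝ} (h : HasD Z w s) : HasD (fun t => - Z t) (-w) s := by
  unfold HasD at *
  have := h.neg
  rw [← neg_div] at this
  exact this

theorem HasD.const (c s : ℝ) : HasD (fun _ => c) 0 s := by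
  unfold HasD
  simpa using hasDerivAt_const s c

theorem HasD.id {s : ℝ} (hs : s ≠ 0) : HasD (fun t => t) s s := by
  unfold HasD
  rw [div_self hs]
  exact hasDerivAt_id s

theorem HasD.mul {Z V : ℝ → ℝ} {w v s : ℝ} (h : HasD Z w s) (h' : HasD V v s) :
    HasD (fun t => Z t * V t) (w * V s + Z s * v) s := by
  unfold HasD at *
  have := HasDerivAt.mul h h'
  refine this.congr_deriv ?_
  ring

theorem HasD.cmul {Z : ℝ → ℝ} {w s : ℝ} (c : ℝ) (h : HasD Z w s) :
    HasD (fun t => c * Z t) (c * w) s := by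
  have := (HasD.const c s).mul h
  exact this.congr (by ring)

theorem HasD.comp {Z : ℝ → ℝ} {w s : ℝ} (h : HasD Z w s) {F : ℝ → ℝ} {F' : ℝ}
    (hF : HasDerivAt F F' (Z s)) : HasD (fun t => F (Z t)) (F' * w) s := by
  unfold HasD at *
  have := hF.comp s h
  refine this.congr_deriv ?_
  ring

theorem HasD.div {Z V : ℝ → ℝ} {w v s : ℝ} (h : HasD Z w s) (h' : HasD V v s) (hV : V s ≠ 0) :
    HasD (fun t => Z t / V t) ((w * V s - Z s * v) / V s ^ 2) s := by
  unfold HasD at *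
  have := HasDerivAt.div h h' hV
  refine this.congr_deriv ?_
  ring

end Lq.OneB
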