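import Pool.Agent.Lq.One1

set_option autoImplicit false

open Filter Topology Set

namespace Lq.OneB

/-- One radial block of dimension `m`: `y = (2/m) rho phi'`, `E = (2/m) rho^2 phi''` as functions of
`s = rho` on `(0, S]`. -/
structure Blk (m S : ℝ) (y E : ℝ → ℝ) : Prop where
  hm : 8 ≤ m
  hS : 0 < S
  dy : ∀ s ∈ Ioc 0 S, HasD y (y s + E s) s
  dE : ∀ s ∈ Ioc 0 S, HasD E (m * ((y s - 1) * E s + y s) + 3 * E s - y s) s
  hT : ∀ s ∈ Ioc 0 S, 4 * s ^ 2 / m ^ 2 = 1 - (1 - y s) ^ 2 + 2 / m * (E s - y s)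
  hy0 : Tendsto (fun s => y s / s ^ 2) (𝓝[>] 0) (𝓝 (2 / m ^ 2))

/-- `J = D E`. -/
noncomputable def Jf (m : ℝ) (y E : ℝ → ℝ) (s : ℝ) : ℝ :=
  m * ((y s - 1) * E s + y s) + 3 * E s - y s

/-- `T = 4 s^2 / m^2`. -/
noncomputable def Tf (m s : ℝ) : ℝ := 4 * s ^ 2 / m ^ 2

namespace Blk

variable {m S : ℝ} {y E : ℝ → ℝ}

theorem m0 (B : Blk m S y E) : 0 < m := by linarith [B.hm]

theorem T_pos (B : Blk m S y E) {s : ℝ} (hs : s ∈ Ioc 0 S) : 0 < Tf m s := by
  have := B.m0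
  unfold Tf
  have h := hs.1
  positivity

theorem T_eq (B : Blk m S y E) {s : ℝ} (hs : s ∈ Ioc 0 S) :
    Tf m s = 1 - (1 - y s) ^ 2 + 2 / m * (E s - y s) := B.hT s hs

theorem sq_hasD {s : ℝ} (hs : s ≠ 0) : HasD (fun t => t ^ 2) (2 * s ^ 2) s := by
  have h := (HasD.id hs).mul (HasD.id hs)
  have e : (fun t : ℝ => t * t) = fun t => t ^ 2 := by funext t; ring
  rw [e] at h
  exact h.congr (by ring)

theorem dT (_B : Blk m S y E) {s : ℝ} (hs : s ∈ Ioc 0 S) : HasD (Tf m) (2 * Tf m s) s := by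
  have h := HasD.cmul (4 / m ^ 2) (sq_hasD (s := s) hs.1.ne')
  have e : (fun t => 4 / m ^ 2 * t ^ 2) = Tf m := by
    funext t; unfold Tf; ring
  rw [e] at h
  exact h.congr (by unfold Tf; ring)

theorem ev (B : Blk m S y E) : ∀ᶠ s in 𝓝[>] (0 : ℝ), s ∈ Ioc 0 S := by
  have h1 : ∀ᶠ s in 𝓝[>] (0 : ℝ), s < S :=
    (eventually_lt_nhds B.hS).filter_mono nhdsWithin_le_nhds
  filter_upwards [h1, self_mem_nhdsWithin] with s h1 h2
  exact ⟨h2, h1.le⟩

theorem tends_id : Tendsto (fun s : ℝ => s) (𝓝[>] 0) (𝓝 0) :=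
  tendsto_id.mono_left nhdsWithin_le_nhds

theorem tends_sq : Tendsto (fun s : ℝ => s ^ 2) (𝓝[>] 0) (𝓝 0) := by
  have h := tends_id.mul tends_id
  rw [mul_zero] at h
  refine h.congr ?_
  intro s; ring

theorem tends_y (B : Blk m S y E) : Tendsto y (𝓝[>] 0) (𝓝 0) := by
  have h := B.hy0.mul tends_sq
  rw [mul_zero] at h
  refine h.congr' ?_
  filter_upwards [self_mem_nhdsWithin] with s hs
  have : s ≠ 0 := ne_of_gt hs
  field_simp

theorem E_eq (B : Blk m S y E) {s : ℝ} (hs : s ∈ Ioc 0 S) :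
    E s = y s + m / 2 * (4 * s ^ 2 / m ^ 2 - 2 * y s + y s ^ 2) := by
  have h := B.hT s hs
  have hm := B.m0
  have h2 : 2 / m * (E s - y s) = 4 * s ^ 2 / m ^ 2 - 2 * y s + y s ^ 2 := by linarith
  have h3 : E s - y s = m / 2 * (4 * s ^ 2 / m ^ 2 - 2 * y s + y s ^ 2) := by
    rw [← h2]; field_simp
  linarith

theorem tends_Es (B : Blk m S y E) : Tendsto (fun s => E s / s ^ 2) (𝓝[>] 0) (𝓝 (2 / m ^ 2)) := by
  have hm := B.m0
  have h1 : Tendsto (fun s => y s / s ^ 2 + m / 2 * (4 / m ^ 2 - 2 * (y s / s ^ 2) +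
      y s * (y s / s ^ 2)))
      (𝓝[>] 0) (𝓝 (2 / m ^ 2 + m / 2 * (4 / m ^ 2 - 2 * (2 / m ^ 2) + 0 * (2 / m ^ 2)))) := by
    refine B.hy0.add (Tendsto.const_mul _ ?_)
    exact ((tendsto_const_nhds.sub (B.hy0.const_mul 2)).add (B.tends_y.mul B.hy0))
  have e : (2 / m ^ 2 + m / 2 * (4 / m ^ 2 - 2 * (2 / m ^ 2) + 0 * (2 / m ^ 2))) = 2 / m ^ 2 := by
    ring
  rw [e] at h1
  refine h1.congr' ?_
  filter_upwards [B.ev] with s hs
  rw [B.E_eq hs]
  have : s ≠ 0 := hs.1.ne'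
  field_simp

theorem tends_E (B : Blk m S y E) : Tendsto E (𝓝[>] 0) (𝓝 0) := by
  have h := B.tends_Es.mul tends_sq
  rw [mul_zero] at h
  refine h.congr' ?_
  filter_upwards [self_mem_nhdsWithin] with s hs
  have : s ≠ 0 := ne_of_gt hs
  field_simp

theorem c_pos (B : Blk m S y E) : 0 < 2 / m ^ 2 := by
  have := B.m0
  positivity

theorem ev_y (B : Blk m S y E) : ∀ᶠ s in 𝓝[>] (0 : ℝ), 0 < y s := by
  have h := (tendsto_order.1 B.hy0).1 0 B.c_pos
  filter_upwards [h, self_mem_nhdsWithin] with s h1 h2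
  have h2'' : (0 : ℝ) < s := h2
  have h2' : (0 : ℝ) < s ^ 2 := by positivity
  have := mul_pos h1 h2'
  rwa [div_mul_cancel₀ _ h2'.ne'] at this

theorem ev_E (B : Blk m S y E) : ∀ᶠ s in 𝓝[>] (0 : ℝ), 0 < E s := by
  have h := (tendsto_order.1 B.tends_Es).1 0 B.c_pos
  filter_upwards [h, self_mem_nhdsWithin] with s h1 h2
  have h2'' : (0 : ℝ) < s := h2
  have h2' : (0 : ℝ) < s ^ 2 := by positivity
  have := mul_pos h1 h2'
  rwa [div_mul_cancel₀ _ h2'.ne'] at this

theorem tends_g (B : Blk m S y E) : Tendsto (fun s => y s / E s) (𝓝[>] 0) (𝓝 1) := by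
  have h := B.hy0.div B.tends_Es B.c_pos.ne'
  rw [div_self B.c_pos.ne'] at h
  refine h.congr' ?_
  filter_upwards [self_mem_nhdsWithin] with s hs
  have hs' : s ^ 2 ≠ 0 := pow_ne_zero 2 (ne_of_gt hs)
  simp only [Pi.div_apply]
  rw [div_div_div_cancel_right₀ hs']

theorem tends_Js (B : Blk m S y E) :
    Tendsto (fun s => Jf m y E s / s ^ 2) (𝓝[>] 0) (𝓝 (2 * (2 / m ^ 2))) := by
  have h1 : Tendsto (fun s => m * (y s / s ^ 2 - E s / s ^ 2 + y s * (E s / s ^ 2)) +
      3 * (E s / s ^ 2) - y s / s ^ 2)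
      (𝓝[>] 0) (𝓝 (m * (2 / m ^ 2 - 2 / m ^ 2 + 0 * (2 / m ^ 2)) + 3 * (2 / m ^ 2) - 2 / m ^ 2)) := by
    refine ((Tendsto.const_mul _ ?_).add (B.tends_Es.const_mul 3)).sub B.hy0
    exact (B.hy0.sub B.tends_Es).add (B.tends_y.mul B.tends_Es)
  have e : (m * (2 / m ^ 2 - 2 / m ^ 2 + 0 * (2 / m ^ 2)) + 3 * (2 / m ^ 2) - 2 / m ^ 2) =
      2 * (2 / m ^ 2) := by ring
  rw [e] at h1
  refine h1.congr' ?_
  filter_upwards [self_mem_nhdsWithin] with s hs
  have : s ≠ 0 := ne_of_gt hs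
  unfold Jf
  field_simp
  ring

theorem ev_J (B : Blk m S y E) : ∀ᶠ s in 𝓝[>] (0 : ℝ), 0 < Jf m y E s := by
  have h := (tendsto_order.1 B.tends_Js).1 0 (by have := B.c_pos; linarith)
  filter_upwards [h, self_mem_nhdsWithin] with s h1 h2
  have h2'' : (0 : ℝ) < s := h2
  have h2' : (0 : ℝ) < s ^ 2 := by positivity
  have := mul_pos h1 h2'
  rwa [div_mul_cancel₀ _ h2'.ne'] at this

theorem sub {s t : ℝ} (hs : s ∈ Ioc 0 S) (ht : t ∈ Ioc 0 s) : t ∈ Ioc 0 S :=
  ⟨ht.1, ht.2.trans hs.2⟩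

theorem y_pos (B : Blk m S y E) {s : ℝ} (hs : s ∈ Ioc 0 S) : 0 < y s := by
  have key : -y s < 0 := by
    refine barrierD (Z := fun t => - y t) (W := fun t => -(y t + E t)) hs.1 ?_ ?_ ?_
    · intro t ht
      exact (B.dy t (sub hs ht)).neg
    · filter_upwards [B.ev_y] with t ht
      linarith
    · intro t ht h0
      have h0' : y t = 0 := by linarith
      have hE := B.E_eq (sub hs ht)
      have hm := B.m0
      have ht0 := ht.1
      have : 0 < E t := by
        rw [hE, h0']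
        have : 0 < m / 2 * (4 * t ^ 2 / m ^ 2) := by positivity
        simpa using this
      show -(y t + E t) < 0
      rw [h0']; linarith
  linarith

theorem E_pos (B : Blk m S y E) {s : ℝ} (hs : s ∈ Ioc 0 S) : 0 < E s := by
  have key : -E s < 0 := by
    refine barrierD (Z := fun t => - E t)
      (W := fun t => -(m * ((y t - 1) * E t + y t) + 3 * E t - y t)) hs.1 ?_ ?_ ?_
    · intro t ht
      exact (B.dE t (sub hs ht)).neg
    · filter_upwards [B.ev_E] with t ht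
      linarith
    · intro t ht h0
      have h0' : E t = 0 := by linarith
      have hy := B.y_pos (sub hs ht)
      have hm := B.hm
      show -(m * ((y t - 1) * E t + y t) + 3 * E t - y t) < 0
      rw [h0']
      nlinarith
  linarith

theorem dJ (B : Blk m S y E) {s : ℝ} (hs : s ∈ Ioc 0 S) :
    HasD (Jf m y E) (m * ((y s + E s) * E s + (y s - 1) * Jf m y E s + (y s + E s)) +
      3 * Jf m y E s - (y s + E s)) s := by
  have h1 := B.dy s hs
  have h2 := B.dE s hs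
  have h := (((((h1.sub (HasD.const 1 s)).mul h2).add h1).cmul m).add (h2.cmul 3)).sub h1
  refine (h.congr ?_)
  unfold Jf
  ring

theorem J_pos (B : Blk m S y E) {s : ℝ} (hs : s ∈ Ioc 0 S) : 0 < Jf m y E s := by
  have key : -Jf m y E s < 0 := by
    refine barrierD (Z := fun t => - Jf m y E t)
      (W := fun t => -(m * ((y t + E t) * E t + (y t - 1) * Jf m y E t + (y t + E t)) +
      3 * Jf m y E t - (y t + E t))) hs.1 ?_ ?_ ?_
    · intro t ht
      exact (B.dJ (sub hs ht)).neg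
    · filter_upwards [B.ev_J] with t ht
      linarith
    · intro t ht h0
      have h0' : Jf m y E t = 0 := by linarith
      have hy := B.y_pos (sub hs ht)
      have hE := B.E_pos (sub hs ht)
      have hm := B.hm
      simp only [h0']
      have : 0 < (y t + E t) * E t := by positivity
      nlinarith
  linarith

/-- `y ≤ E`. -/
theorem y_le_E (B : Blk m S y E) {s : ℝ} (hs : s ∈ Ioc 0 S) : y s ≤ E s := by
  by_contra hcon
  push Not at hcon
  set η : ℝ := (y s - E s) / s ^ 2 with hη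
  have hs0 := hs.1
  have hηpos : 0 < η := div_pos (by linarith) (by positivity)
  have key : (y s - E s) - η * s ^ 2 < 0 := by
    refine barrierD (Z := fun t => (y t - E t) - η * t ^ 2)
      (W := fun t => ((y t + E t) - (m * ((y t - 1) * E t + y t) + 3 * E t - y t)) - η * (2 * t ^ 2))
      hs.1 ?_ ?_ ?_
    · intro t ht
      have ht' := sub hs ht
      exact ((B.dy t ht').sub (B.dE t ht')).sub ((sq_hasD ht.1.ne').cmul η)
    · have h1 : Tendsto (fun t => y t / t ^ 2 - E t / t ^ 2) (𝓝[>] 0) (𝓝 (2 / m ^ 2 - 2 / m ^ 2)) :=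
        B.hy0.sub B.tends_Es
      rw [sub_self] at h1
      have h2 := (tendsto_order.1 h1).2 η hηpos
      filter_upwards [h2, self_mem_nhdsWithin] with t h3 h4
      have h4'' : (0 : ℝ) < t := h4
      have h4' : (0 : ℝ) < t ^ 2 := by positivity
      rw [← sub_div, div_lt_iff₀ h4'] at h3
      linarith
    · intro t ht h0
      have hy := B.y_pos (sub hs ht)
      have hE := B.E_pos (sub hs ht)
      have hm := B.hm
      have ht0 := ht.1
      have h0' : y t - E t = η * t ^ 2 := by linarith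
      have h1 : 0 < η * t ^ 2 := by positivity
      have h2 : 0 < y t * E t := by positivity
      have e : ((y t + E t) - (m * ((y t - 1) * E t + y t) + 3 * E t - y t)) - η * (2 * t ^ 2) =
        -(m * (y t * E t)) - (m - 2) * (y t - E t) - 2 * (η * t ^ 2) := by ring
      show ((y t + E t) - (m * ((y t - 1) * E t + y t) + 3 * E t - y t)) - η * (2 * t ^ 2) < 0
      rw [e, h0']
      nlinarith
  have : η * s ^ 2 = y s - E s := by rw [hη]; field_simp
  linarith

end Blk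

end Lq.OneB
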