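import Pool.Agent.Lq.One2

set_option autoImplicit false

open Filter Topology Set

namespace Lq.OneB

/-- `g = y / E`. -/
noncomputable def gf (y E : ℝ → ℝ) (s : ℝ) : ℝ := y s / E s

/-- `h = g - (1 - y)`. -/
noncomputable def hf (y E : ℝ → ℝ) (s : ℝ) : ℝ := gf y E s - (1 - y s)

namespace Blk

variable {m S : ℝ} {y E : ℝ → ℝ}

theorem y_eq (B : Blk m S y E) {s : ℝ} (hs : s ∈ Ioc 0 S) : y s = gf y E s * E s := by
  unfold gf
  rw [div_mul_cancel₀ _ (B.E_pos hs).ne']

theorem g_pos (B : Blk m S y E) {s : ℝ} (hs : s ∈ Ioc 0 S) : 0 < gf y E s :=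
  div_pos (B.y_pos hs) (B.E_pos hs)

theorem g_le (B : Blk m S y E) {s : ℝ} (hs : s ∈ Ioc 0 S) : gf y E s ≤ 1 := by
  unfold gf
  rw [div_le_one (B.E_pos hs)]
  exact B.y_le_E hs

theorem dg (B : Blk m S y E) {s : ℝ} (hs : s ∈ Ioc 0 S) :
    HasD (gf y E) ((1 - gf y E s) ^ 2 - m * gf y E s * hf y E s) s := by
  have hE := B.E_pos hs
  have h := (B.dy s hs).div (B.dE s hs) hE.ne'
  refine HasD.congr h ?_
  unfold hf
  have e := B.y_eq hs
  set g := gf y E s
  rw [div_eq_iff (by positivity)]
  have hy : y s = g * E s := e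
  generalize y s = Y at *
  subst hy
  ring

theorem dh (B : Blk m S y E) {s : ℝ} (hs : s ∈ Ioc 0 S) :
    HasD (hf y E) ((1 - gf y E s) ^ 2 - m * gf y E s * hf y E s + (y s + E s)) s := by
  have h := (B.dg hs).sub ((HasD.const 1 s).sub (B.dy s hs))
  exact h.congr (by ring)

theorem tends_h (B : Blk m S y E) : Tendsto (hf y E) (𝓝[>] 0) (𝓝 0) := by
  have h := B.tends_g.sub ((tendsto_const_nhds (x := (1 : ℝ))).sub B.tends_y)
  have e : (1 : ℝ) - (1 - 0) = 0 := by ring
  rw [e] at h
  exact h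

theorem h_nonneg (B : Blk m S y E) {s : ℝ} (hs : s ∈ Ioc 0 S) : 0 ≤ hf y E s := by
  by_contra hcon
  push Not at hcon
  set η : ℝ := -hf y E s with hη
  have hηpos : 0 < η := by linarith
  have key : -hf y E s - η < 0 := by
    refine barrierD (Z := fun t => - hf y E t - η)
      (W := fun t => -((1 - gf y E t) ^ 2 - m * gf y E t * hf y E t + (y t + E t)) - 0)
      hs.1 ?_ ?_ ?_
    · intro t ht
      exact (B.dh (sub hs ht)).neg.sub (HasD.const η t)
    · have h1 := (tendsto_order.1 B.tends_h).1 (-η) (by linarith)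
      filter_upwards [h1] with t ht
      linarith
    · intro t ht h0
      have ht' := sub hs ht
      have hy := B.y_pos ht'
      have hE := B.E_pos ht'
      have hg := B.g_pos ht'
      have hm := B.m0
      have h1 : hf y E t = -η := by linarith
      show -((1 - gf y E t) ^ 2 - m * gf y E t * hf y E t + (y t + E t)) - 0 < 0
      rw [h1]
      have : 0 < m * gf y E t * η := by positivity
      nlinarith [sq_nonneg (1 - gf y E t)]
  linarith

theorem h_pos (B : Blk m S y E) {s : ℝ} (hs : s ∈ Ioc 0 S) : 0 < hf y E s := by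
  rcases (B.h_nonneg hs).lt_or_eq with h | h
  · exact h
  · exfalso
    have hd := B.dh hs
    rw [← h] at hd
    have hy := B.y_pos hs
    have hE := B.E_pos hs
    have hs0 := hs.1
    have hpos : 0 < ((1 - gf y E s) ^ 2 - m * gf y E s * 0 + (y s + E s)) / s := by
      have : 0 < (1 - gf y E s) ^ 2 - m * gf y E s * 0 + (y s + E s) := by
        nlinarith [sq_nonneg (1 - gf y E s)]
      positivity
    unfold HasD at hd
    have hsl : Tendsto (slope (hf y E) s) (𝓝[<] s)
        (𝓝 (((1 - gf y E s) ^ 2 - m * gf y E s * 0 + (y s + E s)) / s)) := by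
      have := hd.hasDerivWithinAt (s := Iio s)
      rwa [hasDerivWithinAt_iff_tendsto_slope' (by simp)] at this
    have h3 := (tendsto_order.1 hsl).1 0 hpos
    have h2 : ∀ᶠ t in 𝓝[<] s, 0 < t :=
      (eventually_gt_nhds hs0).filter_mono nhdsWithin_le_nhds
    obtain ⟨t, ht1, ht2, ht3⟩ := (h3.and (h2.and self_mem_nhdsWithin)).exists
    have ht3' : t < s := ht3
    have h4 := B.h_nonneg (s := t) ⟨ht2, ht3'.le.trans hs.2⟩
    rw [slope_def_field, ← h, sub_zero] at ht1
    have h5 : t - s < 0 := sub_neg.mpr ht3'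
    exact absurd ht1 (not_lt.mpr (div_nonpos_of_nonneg_of_nonpos h4 h5.le))

theorem h_le (B : Blk m S y E) {s : ℝ} (hs : s ∈ Ioc 0 S) : hf y E s ≤ y s := by
  unfold hf
  linarith [B.g_le hs]

theorem one_sub_lt_g (B : Blk m S y E) {s : ℝ} (hs : s ∈ Ioc 0 S) : 1 - y s < gf y E s := by
  have := B.h_pos hs
  unfold hf at this
  linarith

theorem y_mono (B : Blk m S y E) : StrictMonoOn y (Ioc 0 S) := by
  apply strictMonoOn_of_deriv_pos (convex_Ioc 0 S)
  · intro s hs
    exact (B.dy s hs).continuousAt.continuousWithinAt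
  · intro s hs
    rw [interior_Ioc] at hs
    have hs : s ∈ Ioc 0 S := ⟨hs.1, hs.2.le⟩
    have h := B.dy s hs
    unfold HasD at h
    rw [h.deriv]
    have h1 := B.y_pos hs
    have h2 := B.E_pos hs
    have h3 := hs.1
    positivity

theorem y_le_of (B : Blk m S y E) {s t : ℝ} (hs : s ∈ Ioc 0 S) (ht : t ∈ Ioc 0 s) :
    y t ≤ y s := by
  rcases ht.2.lt_or_eq with h | h
  · exact (B.y_mono (sub hs ht) hs h).le
  · rw [h]

theorem T_mono (B : Blk m S y E) {s t : ℝ} (_hs : s ∈ Ioc 0 S) (ht : t ∈ Ioc 0 s) :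
    Tf m t ≤ Tf m s := by
  unfold Tf
  have := B.m0
  have h := ht.2
  have h' := ht.1
  gcongr

theorem du (B : Blk m S y E) {s : ℝ} (hs : s ∈ Ioc 0 S) :
    HasD (fun t => gf y E t * hf y E t)
      ((hf y E s + gf y E s) * ((1 - gf y E s) ^ 2 - m * (gf y E s * hf y E s)) +
        y s * (1 + gf y E s)) s := by
  have h := (B.dg hs).mul (B.dh hs)
  refine h.congr ?_
  have e := B.y_eq hs
  have e2 : gf y E s * (y s + E s) = y s * (1 + gf y E s) := by
    have : gf y E s * E s = y s := e.symm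
    linear_combination this
  linear_combination e2

theorem tends_u (B : Blk m S y E) :
    Tendsto (fun t => gf y E t * hf y E t) (𝓝[>] 0) (𝓝 0) := by
  have h := Tendsto.mul B.tends_g B.tends_h
  rw [mul_zero] at h
  exact h

/-- (U1) `g h` is small on `y ≤ M`. -/
theorem u_lt (B : Blk m S y E) {s : ℝ} (hs : s ∈ Ioc 0 S) {M η : ℝ} (hM : 0 < M) (hη : 0 < η)
    (hyM : y s ≤ M) (hm : 1 / η + 2 * M ^ 2 / η ^ 2 < m) : gf y E s * hf y E s < η := by
  have key : gf y E s * hf y E s - η < 0 := by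
    refine barrierD (Z := fun t => gf y E t * hf y E t - η)
      (W := fun t => ((hf y E t + gf y E t) *
        ((1 - gf y E t) ^ 2 - m * (gf y E t * hf y E t)) + y t * (1 + gf y E t)) - 0)
      hs.1 ?_ ?_ ?_
    · intro t ht
      exact (B.du (sub hs ht)).sub (HasD.const η t)
    · have h1 := (tendsto_order.1 B.tends_u).2 η hη
      filter_upwards [h1] with t ht
      linarith
    · intro t ht h0
      have ht' := sub hs ht
      have hy := B.y_pos ht'
      have hg := B.g_pos ht'
      have hg1 := B.g_le ht'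
      have hh := B.h_pos ht'
      have hhy := B.h_le ht'
      have hyt : y t ≤ M := (B.y_le_of hs ht).trans hyM
      have h1 : gf y E t * hf y E t = η := by linarith
      have hgM : η / M ≤ gf y E t := by
        rw [div_le_iff₀ hM, ← h1]
        exact mul_le_mul_of_nonneg_left (hhy.trans hyt) hg.le
      have hmη : 1 + 2 * M ^ 2 / η < m * η := by
        have := mul_lt_mul_of_pos_right hm hη
        have e : (1 / η + 2 * M ^ 2 / η ^ 2) * η = 1 + 2 * M ^ 2 / η := by
          field_simp
        linarith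
      have hsq : (1 - gf y E t) ^ 2 ≤ 1 := by nlinarith
      show ((hf y E t + gf y E t) *
        ((1 - gf y E t) ^ 2 - m * (gf y E t * hf y E t)) + y t * (1 + gf y E t)) - 0 < 0
      rw [h1]
      have h2 : (1 - gf y E t) ^ 2 - m * η < -(2 * M ^ 2 / η) := by linarith
      have h3 : 0 < 2 * M ^ 2 / η := by positivity
      have h4 : (hf y E t + gf y E t) * ((1 - gf y E t) ^ 2 - m * η) <
          (hf y E t + gf y E t) * (-(2 * M ^ 2 / η)) :=
        mul_lt_mul_of_pos_left h2 (by linarith)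
      have h5 : η / M * (2 * M ^ 2 / η) ≤ (hf y E t + gf y E t) * (2 * M ^ 2 / η) :=
        mul_le_mul_of_nonneg_right (by linarith) h3.le
      have e5 : η / M * (2 * M ^ 2 / η) = 2 * M := by field_simp
      have h6 : y t * (1 + gf y E t) ≤ M * 2 := by
        apply mul_le_mul hyt (by linarith) (by linarith) hM.le
      nlinarith
  linarith

end Blk

end Lq.OneB
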