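import Pool.Agent.Lq.One3

set_option autoImplicit false

open Filter Topology Set

namespace Lq.OneB

/-- limit of `m (g - (1 - y))` for `y < 1`. -/
noncomputable def Psi (y : ℝ) : ℝ := (y ^ 2 + y) / (1 - y) + y / (1 - y) ^ 2

noncomputable def dPsi (y : ℝ) : ℝ := (1 + 2 * y - y ^ 2) / (1 - y) ^ 2 + (1 + y) / (1 - y) ^ 3

theorem hasDerivAt_Psi {y : ℝ} (hy : y < 1) : HasDerivAt Psi (dPsi y) y := by
  have h1 : (1 - y) ≠ 0 := by linarith
  have a := hasDerivAt_id y
  have b := ((hasDerivAt_const y (1 : ℝ)).sub a)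
  have c := ((a.pow 2).add a).div b h1
  have d := a.div (b.pow 2) (pow_ne_zero 2 h1)
  have e := c.add d
  refine HasDerivAt.congr_deriv (f := Psi) e ?_
  simp only [id, Pi.sub_apply, Pi.pow_apply, Pi.add_apply, dPsi]
  field_simp
  ring

theorem Psi_nonneg {y : ℝ} (h0 : 0 ≤ y) (hy : y < 1) : 0 ≤ Psi y := by
  unfold Psi
  have : 0 < 1 - y := by linarith
  positivity

theorem dPsi_nonneg {y : ℝ} (h0 : 0 ≤ y) (hy : y < 1) : 0 ≤ dPsi y := by
  unfold dPsi
  have : 0 < 1 - y := by linarith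
  have h1 : 0 ≤ 1 + 2 * y - y ^ 2 := by nlinarith
  positivity

theorem Psi_le {y δ : ℝ} (h0 : 0 ≤ y) (hδ : 0 < δ) (hδ1 : δ ≤ 1) (hy : y ≤ 1 - δ) :
    Psi y ≤ 3 / δ ^ 2 := by
  unfold Psi
  have h1 : δ ≤ 1 - y := by linarith
  have h1p : 0 < 1 - y := by linarith
  have hy1 : y ≤ 1 := by linarith
  have a : (y ^ 2 + y) / (1 - y) ≤ 2 / δ := by
    apply div_le_div₀ (by norm_num) (by nlinarith) hδ h1
  have b : y / (1 - y) ^ 2 ≤ 1 / δ ^ 2 := by
    apply div_le_div₀ (by norm_num) hy1 (by positivity)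
    gcongr
  have c : 2 / δ ≤ 2 / δ ^ 2 := by
    apply div_le_div_of_nonneg_left (by norm_num) (by positivity)
    nlinarith
  have e : (3 : ℝ) / δ ^ 2 = 2 / δ ^ 2 + 1 / δ ^ 2 := by ring
  linarith

theorem dPsi_le {y δ : ℝ} (_h0 : 0 ≤ y) (hδ : 0 < δ) (hδ1 : δ ≤ 1) (hy : y ≤ 1 - δ) :
    dPsi y ≤ 4 / δ ^ 3 := by
  unfold dPsi
  have h1 : δ ≤ 1 - y := by linarith
  have h1p : 0 < 1 - y := by linarith
  have hy1 : y ≤ 1 := by linarith
  have a : (1 + 2 * y - y ^ 2) / (1 - y) ^ 2 ≤ 2 / δ ^ 2 := by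
    apply div_le_div₀ (by norm_num) (by nlinarith) (by positivity)
    gcongr
  have b : (1 + y) / (1 - y) ^ 3 ≤ 2 / δ ^ 3 := by
    apply div_le_div₀ (by norm_num) (by linarith) (by positivity)
    gcongr
  have c : 2 / δ ^ 2 ≤ 2 / δ ^ 3 := by
    apply div_le_div_of_nonneg_left (by norm_num) (by positivity)
    have : δ ^ 3 = δ ^ 2 * δ := by ring
    nlinarith [sq_nonneg δ]
  have e : (4 : ℝ) / δ ^ 3 = 2 / δ ^ 3 + 2 / δ ^ 3 := by ring
  linarith

theorem bracket_low {Y H g E η m : ℝ} (hσ0 : 0 < 1 - Y) (hy : 0 < Y)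
    (hh : 0 < H) (hg : 0 < g) (hg_eq : g = (1 - Y) + H) (hEg : E * g = Y)
    (h1 : m * H = Psi Y - η) :
    g * η - H * (2 * Y + Y / (1 - Y) ^ 2 + Psi Y) ≤
          (1 - g) ^ 2 - m * g * H + (Y + E) := by
  have hEeq : E = Y / g := by
    rw [eq_div_iff hg.ne']; exact hEg
  have hElow : Y / (1 - Y) - Y * H / (1 - Y) ^ 2 ≤ E := by
    rw [hEeq, hg_eq, div_sub_div _ _ hσ0.ne' (by positivity),
      div_le_div_iff₀ (by positivity) (by positivity)]
    have h2 : 0 ≤ Y * H ^ 2 * (1 - Y) := by positivity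
    nlinarith
  have e1 : (1 - Y) * Psi Y = (Y ^ 2 + Y) + Y / (1 - Y) := by
    unfold Psi
    field_simp
  have e3 : (1 - g) ^ 2 = Y ^ 2 - 2 * Y * H + H ^ 2 := by rw [hg_eq]; ring
  have e4 : m * g * H = g * (m * H) := by ring
  rw [e4, h1, e3]
  have e5 : g * (Psi Y - η) = (Y ^ 2 + Y) + Y / (1 - Y) + H * Psi Y - g * η := by
    rw [hg_eq]
    linear_combination e1
  rw [e5]
  have e6 : Y * H / (1 - Y) ^ 2 = H * (Y / (1 - Y) ^ 2) := by ring
  rw [e6] at hElow
  nlinarith [sq_nonneg H]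

theorem cross_neg {Y H g E δ η m : ℝ} (hδ : 0 < δ) (hδ1 : δ ≤ 1) (hη : 0 < η) (hm0 : 0 < m)
    (hyt : Y ≤ 1 - δ) (hy : 0 < Y) (hE : 0 < E)
    (hh : 0 < H) (hg : 0 < g) (hg_eq : g = (1 - Y) + H) (hEg : E * g = Y)
    (h1 : m * H = Psi Y - η) (hm : 26 / (δ ^ 5 * η) < m) :
    dPsi Y * (Y + E) - m * ((1 - g) ^ 2 - m * g * H + (Y + E)) < 0 := by
  have hyt1 : Y < 1 := by linarith
  have hσ : δ ≤ 1 - Y := by linarith
  have hσ0 : 0 < 1 - Y := by linarith
  have hPs := Psi_nonneg hy.le hyt1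
  have hPs2 := Psi_le hy.le hδ hδ1 hyt
  have hdP := dPsi_nonneg hy.le hyt1
  have hdP2 := dPsi_le hy.le hδ hδ1 hyt
  have hEeq : E = Y / g := by
    rw [eq_div_iff hg.ne']; exact hEg
  have hEup : E ≤ Y / (1 - Y) := by
    rw [hEeq]
    apply div_le_div_of_nonneg_left hy.le hσ0 (by linarith)
  have hEup2 : Y + E ≤ 2 / δ := by
    have h2 : Y / (1 - Y) ≤ Y / δ := div_le_div_of_nonneg_left hy.le hδ hσ
    have h3 : Y / δ ≤ (1 - δ) / δ := by gcongr
    have e : (1 - δ) / δ = 1 / δ - 1 := by field_simp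
    have e2 : (2 : ℝ) / δ = 1 / δ + 1 / δ := by ring
    have h4 : 1 ≤ 1 / δ := by rw [le_div_iff₀ hδ]; linarith
    linarith
  have hbr := bracket_low hσ0 hy hh hg hg_eq hEg h1
  have hb1 : 2 * Y + Y / (1 - Y) ^ 2 + Psi Y ≤ 6 / δ ^ 2 := by
    have a : Y / (1 - Y) ^ 2 ≤ 1 / δ ^ 2 := by
      apply div_le_div₀ (by norm_num) hyt1.le (by positivity)
      gcongr
    have b : 2 * Y ≤ 2 / δ ^ 2 := by
      have : (1 : ℝ) ≤ 1 / δ ^ 2 := by
        rw [le_div_iff₀ (by positivity)]; nlinarith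
      have e : (2 : ℝ) / δ ^ 2 = 2 * (1 / δ ^ 2) := by ring
      nlinarith
    have e : (6 : ℝ) / δ ^ 2 = 2 / δ ^ 2 + 1 / δ ^ 2 + 3 / δ ^ 2 := by ring
    linarith
  have hb2 : m * (H * (2 * Y + Y / (1 - Y) ^ 2 + Psi Y)) ≤ 18 / δ ^ 4 := by
    have a : m * H ≤ 3 / δ ^ 2 := by linarith
    have b : m * (H * (2 * Y + Y / (1 - Y) ^ 2 + Psi Y)) =
      (m * H) * (2 * Y + Y / (1 - Y) ^ 2 + Psi Y) := by ring
    rw [b]
    have c : (3 : ℝ) / δ ^ 2 * (6 / δ ^ 2) = 18 / δ ^ 4 := by field_simp; norm_num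
    rw [← c]
    apply mul_le_mul a hb1 _ (by positivity)
    positivity
  have hb3 : dPsi Y * (Y + E) ≤ 8 / δ ^ 4 := by
    have c : (4 : ℝ) / δ ^ 3 * (2 / δ) = 8 / δ ^ 4 := by field_simp; norm_num
    rw [← c]
    apply mul_le_mul hdP2 hEup2 (by positivity) (by positivity)
  have hmδ : 26 / δ ^ 4 < m * (g * η) := by
    have a : 26 / δ ^ 4 < m * (δ * η) := by
      have := mul_lt_mul_of_pos_right hm (show 0 < δ * η by positivity)
      have e : 26 / (δ ^ 5 * η) * (δ * η) = 26 / δ ^ 4 := by field_simp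
      linarith
    have b : m * (δ * η) ≤ m * (g * η) := by
      have : δ ≤ g := by linarith
      gcongr
    linarith
  have e7 : (26 : ℝ) / δ ^ 4 = 18 / δ ^ 4 + 8 / δ ^ 4 := by ring
  have hfin := mul_le_mul_of_nonneg_left hbr hm0.le
  rw [mul_sub] at hfin
  linarith

namespace Blk

variable {m S : ℝ} {y E : ℝ → ℝ}

theorem tends_T (_B : Blk m S y E) : Tendsto (Tf m) (𝓝[>] 0) (𝓝 0) := by
  have h := tends_sq.const_mul (4 / m ^ 2)
  rw [mul_zero] at h
  refine h.congr ?_
  intro s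
  unfold Tf
  ring

/-- (U2) `T < 1 + 2 eta`. -/
theorem T_lt (B : Blk m S y E) {s : ℝ} (hs : s ∈ Ioc 0 S) {M η : ℝ} (hM : 0 < M) (hη : 0 < η)
    (hyM : y s ≤ M) (hm : 4 * M * (1 + 2 * η) / η ^ 2 < m) : Tf m s < 1 + 2 * η := by
  have key : (Tf m s - (1 + η)) - η / M * y s < 0 := by
    refine barrierD (Z := fun t => (Tf m t - (1 + η)) - η / M * y t)
      (W := fun t => (2 * Tf m t - 0) - η / M * (y t + E t)) hs.1 ?_ ?_ ?_
    · intro t ht
      exact ((B.dT (sub hs ht)).sub (HasD.const (1 + η) t)).sub ((B.dy t (sub hs ht)).cmul _)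
    · have h1 := (tendsto_order.1 B.tends_T).2 1 (by norm_num)
      filter_upwards [h1, B.ev_y] with t ht ht2
      have : 0 < η / M * y t := by positivity
      linarith
    · intro t ht h0
      have ht' := sub hs ht
      have hy := B.y_pos ht'
      have hE := B.E_pos ht'
      have hyt : y t ≤ M := (B.y_le_of hs ht).trans hyM
      have hm0 := B.m0
      have h1 : Tf m t = 1 + η + η / M * y t := by
        have : (Tf m t - (1 + η)) - η / M * y t = 0 := h0
        linarith
      have h2 : η / M * y t ≤ η := by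
        have : η / M * y t ≤ η / M * M := by gcongr
        rwa [div_mul_cancel₀ _ hM.ne'] at this
      have h3 : 0 ≤ η / M * y t := by positivity
      have h4 := B.T_eq ht'
      have h5 : η ≤ 2 / m * (E t - y t) := by nlinarith [sq_nonneg (1 - y t)]
      have h6 : m * η / 2 ≤ E t - y t := by
        have := mul_le_mul_of_nonneg_left h5 (show (0 : ℝ) ≤ m / 2 by positivity)
        have e : m / 2 * (2 / m * (E t - y t)) = E t - y t := by field_simp
        rw [e] at this
        linarith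
      have h7 : η / M * (m * η / 2) ≤ η / M * (y t + E t) := by
        apply mul_le_mul_of_nonneg_left _ (by positivity)
        linarith
      have h8 : 4 * M * (1 + 2 * η) < m * η ^ 2 := by
        rwa [div_lt_iff₀ (by positivity)] at hm
      have h9 : 2 * (1 + 2 * η) < η / M * (m * η / 2) := by
        have e : η / M * (m * η / 2) = (m * η ^ 2) / (2 * M) := by field_simp
        rw [e, lt_div_iff₀ (by positivity)]
        linarith
      show (2 * Tf m t - 0) - η / M * (y t + E t) < 0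
      linarith
  have h2 : η / M * y s ≤ η := by
    have : η / M * y s ≤ η / M * M := by gcongr
    rwa [div_mul_cancel₀ _ hM.ne'] at this
  linarith

/-- (U3) upper bound `m h ≤ Psi y`. -/
theorem mh_le (B : Blk m S y E) {s : ℝ} (hs : s ∈ Ioc 0 S) (hy1 : y s < 1) :
    m * hf y E s ≤ Psi (y s) := by
  by_contra hcon
  push Not at hcon
  set η : ℝ := m * hf y E s - Psi (y s) with hη
  have hηpos : 0 < η := by linarith
  have key : (m * hf y E s - Psi (y s)) - η < 0 := by
    refine barrierD (Z := fun t => (m * hf y E t - Psi (y t)) - η)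
      (W := fun t => (m * ((1 - gf y E t) ^ 2 - m * gf y E t * hf y E t + (y t + E t)) -
        dPsi (y t) * (y t + E t)) - 0) hs.1 ?_ ?_ ?_
    · intro t ht
      have ht' := sub hs ht
      have hyt : y t < 1 := (B.y_le_of hs ht).trans_lt hy1
      exact (((B.dh ht').cmul m).sub ((B.dy t ht').comp (hasDerivAt_Psi hyt))).sub
        (HasD.const η t)
    · have h1 : Tendsto (fun t => m * hf y E t) (𝓝[>] 0) (𝓝 0) := by
        have := B.tends_h.const_mul m
        rwa [mul_zero] at this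
      have h2 := (tendsto_order.1 h1).2 η hηpos
      have h3 : ∀ᶠ t in 𝓝[>] (0 : ℝ), y t < 1 := (tendsto_order.1 B.tends_y).2 1 (by norm_num)
      filter_upwards [h2, h3, B.ev_y] with t h4 h5 h6
      have := Psi_nonneg h6.le h5
      linarith
    · intro t ht h0
      have ht' := sub hs ht
      have hyt : y t < 1 := (B.y_le_of hs ht).trans_lt hy1
      have hy := B.y_pos ht'
      have hE := B.E_pos ht'
      have hg := B.g_pos ht'
      have hg1 := B.g_le ht'
      have hm0 := B.m0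
      have hgs := B.one_sub_lt_g ht'
      have h1 : m * hf y E t = Psi (y t) + η := by
        have : (m * hf y E t - Psi (y t)) - η = 0 := h0
        linarith
      have hdP := dPsi_nonneg hy.le hyt
      have hσ : 0 < 1 - y t := by linarith
      have e1 : (1 - y t) * Psi (y t) = (y t ^ 2 + y t) + y t / (1 - y t) := by
        unfold Psi
        field_simp
      have hEle : E t ≤ y t / (1 - y t) := by
        rw [le_div_iff₀ hσ]
        have := B.y_eq ht'
        nlinarith
      have hPs := Psi_nonneg hy.le hyt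
      have h2 : (1 - gf y E t) ^ 2 ≤ y t ^ 2 := by
        apply sq_le_sq'
        · linarith
        · linarith
      have h3 : (1 - y t) * Psi (y t) ≤ gf y E t * Psi (y t) :=
        mul_le_mul_of_nonneg_right hgs.le hPs
      have h4 : 0 < gf y E t * η := by positivity
      have h5 : (1 - gf y E t) ^ 2 - m * gf y E t * hf y E t + (y t + E t) < 0 := by
        have e : m * gf y E t * hf y E t = gf y E t * (m * hf y E t) := by ring
        rw [e, h1, mul_add]
        linarith
      have h6 : 0 ≤ dPsi (y t) * (y t + E t) := by positivity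
      have h7 : m * ((1 - gf y E t) ^ 2 - m * gf y E t * hf y E t + (y t + E t)) < 0 :=
        mul_neg_of_pos_of_neg hm0 h5
      show (m * ((1 - gf y E t) ^ 2 - m * gf y E t * hf y E t + (y t + E t)) -
        dPsi (y t) * (y t + E t)) - 0 < 0
      linarith
  linarith

/-- (U3) lower bound. -/
theorem lt_mh (B : Blk m S y E) {s : ℝ} (hs : s ∈ Ioc 0 S) {δ η : ℝ} (hδ : 0 < δ) (hδ1 : δ ≤ 1)
    (hη : 0 < η) (hy1 : y s ≤ 1 - δ) (hm : 26 / (δ ^ 5 * η) < m) :
    Psi (y s) - η < m * hf y E s := by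
  have key : (Psi (y s) - m * hf y E s) - η < 0 := by
    refine barrierD (Z := fun t => (Psi (y t) - m * hf y E t) - η)
      (W := fun t => (dPsi (y t) * (y t + E t) -
        m * ((1 - gf y E t) ^ 2 - m * gf y E t * hf y E t + (y t + E t))) - 0) hs.1 ?_ ?_ ?_
    · intro t ht
      have ht' := sub hs ht
      have hyt : y t < 1 := by linarith [B.y_le_of hs ht]
      exact (((B.dy t ht').comp (hasDerivAt_Psi hyt)).sub ((B.dh ht').cmul m)).sub
        (HasD.const η t)
    · have h1 : Tendsto (fun t => Psi (y t) - m * hf y E t) (𝓝[>] 0) (𝓝 (Psi 0 - m * 0)) := by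
        refine Tendsto.sub ?_ (B.tends_h.const_mul m)
        exact (hasDerivAt_Psi (by norm_num : (0 : ℝ) < 1)).continuousAt.tendsto.comp B.tends_y
      have e : Psi 0 - m * 0 = 0 := by unfold Psi; norm_num
      rw [e] at h1
      have h2 := (tendsto_order.1 h1).2 η hη
      filter_upwards [h2] with t h4
      linarith
    · intro t ht h0
      have ht' := sub hs ht
      have hyt : y t ≤ 1 - δ := (B.y_le_of hs ht).trans hy1
      have hyt1 : y t < 1 := by linarith
      have hy := B.y_pos ht'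
      have hE := B.E_pos ht'
      have hg := B.g_pos ht'
      have hg1 := B.g_le ht'
      have hm0 := B.m0
      have hgs := B.one_sub_lt_g ht'
      have hh := B.h_pos ht'
      have h1 : m * hf y E t = Psi (y t) - η := by
        have : (Psi (y t) - m * hf y E t) - η = 0 := h0
        linarith
      have hg_eq : gf y E t = (1 - y t) + hf y E t := by unfold hf; ring
      have hEg : E t * gf y E t = y t := by rw [B.y_eq ht']; unfold gf; ring_nf
      have := cross_neg hδ hδ1 hη hm0 hyt hy hE hh hg hg_eq hEg h1 hm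
      show (dPsi (y t) * (y t + E t) -
        m * ((1 - gf y E t) ^ 2 - m * gf y E t * hf y E t + (y t + E t))) - 0 < 0
      linarith
  linarith

end Blk

end Lq.OneB
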