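import Pool.Agent.Lq.One4

set_option autoImplicit false

open Filter Topology Set

namespace Lq.OneB

namespace Blk

variable {m S : ℝ} {y E : ℝ → ℝ}

theorem hSS (B : Blk m S y E) : S ∈ Ioc 0 S := ⟨B.hS, le_rfl⟩

theorem exists_y_eq (B : Blk m S y E) {s c : ℝ} (hs : s ∈ Ioc 0 S) (hc : 0 < c) (hcs : c ≤ y s) :
    ∃ t ∈ Ioc 0 s, y t = c := by
  have h1 : ∀ᶠ t in 𝓝[>] (0 : ℝ), y t < c := (tendsto_order.1 B.tends_y).2 c hc
  have h2 : ∀ᶠ t in 𝓝[>] (0 : ℝ), t < s :=
    (eventually_lt_nhds hs.1).filter_mono nhdsWithin_le_nhds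
  obtain ⟨a, ha1, ha2, ha3⟩ := (h1.and (h2.and self_mem_nhdsWithin)).exists
  have ha3' : 0 < a := ha3
  have hcont : ContinuousOn y (Icc a s) := by
    intro t ht
    exact (B.dy t ⟨ha3'.trans_le ht.1, ht.2.trans hs.2⟩).continuousAt.continuousWithinAt
  obtain ⟨t, ht, hte⟩ := intermediate_value_Icc ha2.le hcont ⟨ha1.le, hcs⟩
  exact ⟨t, ⟨ha3'.trans_le ht.1, ht.2⟩, hte⟩

/-- lower bound for `T`. -/
theorem T_ge (B : Blk m S y E) {s : ℝ} (hs : s ∈ Ioc 0 S) :
    1 - (max (1 - y s) 0) ^ 2 ≤ Tf m s := by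
  have hm := B.m0
  rcases le_total (y s) 1 with h | h
  · rw [max_eq_left (by linarith), B.T_eq hs]
    have h1 : 0 ≤ 2 / m * (E s - y s) := by
      have := B.y_le_E hs
      have : 0 ≤ E s - y s := by linarith
      positivity
    linarith
  · rw [max_eq_right (by linarith)]
    obtain ⟨t, ht, hte⟩ := B.exists_y_eq hs one_pos h
    have ht' := sub hs ht
    have h2 := B.T_mono hs ht
    rw [B.T_eq ht', hte] at h2
    have h1 : 0 ≤ 2 / m * (E t - 1) := by
      have := B.y_le_E ht'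
      rw [hte] at this
      have : 0 ≤ E t - 1 := by linarith
      positivity
    linarith

/-- (U4) `m g h` is large near `y = 1`. -/
theorem mu_ge (B : Blk m S y E) {s : ℝ} (hs : s ∈ Ioc 0 S) {δ : ℝ} (hδ : 0 < δ) (hδ8 : δ ≤ 1 / 8)
    (hm1 : 1 / (2 * δ ^ 2) + 2 * 2 ^ 2 / (2 * δ ^ 2) ^ 2 < m) (hm2 : 26 / (δ ^ 5 * 1) < m)
    (hy1 : 1 - δ ≤ y s) (hy2 : y s ≤ 1 + δ) :
    1 / (8 * δ) ≤ m * (gf y E s * hf y E s) := by
  obtain ⟨t, ht, hte⟩ := B.exists_y_eq hs (show 0 < 1 - δ by linarith) hy1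
  have hm0 := B.m0
  have ht' := sub hs ht
  -- at t
  have h1 := B.lt_mh ht' hδ (by linarith) one_pos (le_of_eq hte) hm2
  have hgt := B.one_sub_lt_g ht'
  have hΨ : δ * Psi (1 - δ) = (1 - δ) ^ 2 + (1 - δ) + (1 - δ) / δ := by
    unfold Psi
    have e : 1 - (1 - δ) = δ := by ring
    rw [e]
    field_simp
  rw [hte] at h1 hgt
  have hgt' : δ < gf y E t := by linarith
  have hstart : 1 / (8 * δ) - m * (gf y E t * hf y E t) < 0 := by
    have e : m * (gf y E t * hf y E t) = gf y E t * (m * hf y E t) := by ring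
    have hΨ1 : 0 < Psi (1 - δ) - 1 := by
      have a : 1 / δ ≥ 8 := by
        rw [ge_iff_le, le_div_iff₀ hδ]; linarith
      have b : (1 - δ) / δ = 1 / δ - 1 := by field_simp
      have c : 1 < Psi (1 - δ) := by
        by_contra hc
        push Not at hc
        have : δ * Psi (1 - δ) ≤ δ * 1 := by gcongr
        rw [hΨ, b] at this
        nlinarith
      linarith
    have h2 : δ * (Psi (1 - δ) - 1) < gf y E t * (m * hf y E t) := by
      apply mul_lt_mul'' hgt' (by linarith) hδ.le hΨ1.le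
    have h3 : 1 / (8 * δ) ≤ δ * (Psi (1 - δ) - 1) := by
      rw [mul_sub, hΨ]
      have b : (1 - δ) / δ = 1 / δ - 1 := by field_simp
      have c : 1 / (8 * δ) = (1 / 8) * (1 / δ) := by field_simp
      have a : 1 / δ ≥ 8 := by
        rw [ge_iff_le, le_div_iff₀ hδ]; linarith
      rw [b, c]
      nlinarith
    rw [e]
    linarith
  have key : 1 / (8 * δ) - m * (gf y E s * hf y E s) < 0 := by
    refine barrierD' (Z := fun r => 1 / (8 * δ) - m * (gf y E r * hf y E r))
      (W := fun r => 0 - m * ((hf y E r + gf y E r) *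
        ((1 - gf y E r) ^ 2 - m * (gf y E r * hf y E r)) + y r * (1 + gf y E r)))
      ht.1 ht.2 ?_ hstart ?_
    · intro r hr
      have hr' : r ∈ Ioc 0 S := ⟨ht.1.trans_le hr.1, hr.2.trans hs.2⟩
      exact (HasD.const _ r).sub ((B.du hr').cmul m)
    · intro r hr h0
      have hr' : r ∈ Ioc 0 S := ⟨ht.1.trans_le hr.1, hr.2.trans hs.2⟩
      have hyr1 : 1 - δ ≤ y r := by
        rw [← hte]; exact B.y_le_of hr' ⟨ht.1, hr.1⟩
      have hyr2 : y r ≤ 1 + δ := (B.y_le_of hs ⟨hr'.1, hr.2⟩).trans hy2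
      have hg := B.g_pos hr'
      have hh := B.h_pos hr'
      have hu := B.u_lt hr' (M := 2) (η := 2 * δ ^ 2) (by norm_num) (by positivity)
        (by linarith) hm1
      have hg2 : gf y E r < 2 * δ := by
        by_contra hc
        push Not at hc
        have hh2 : δ ≤ hf y E r := by unfold hf; linarith
        have : 2 * δ * δ ≤ gf y E r * hf y E r := by
          apply mul_le_mul hc hh2 hδ.le hg.le
        nlinarith
      have hgh : hf y E r + gf y E r ≤ 5 * δ := by
        have : hf y E r = gf y E r - (1 - y r) := rfl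
        linarith
      have h4 : m * (gf y E r * hf y E r) = 1 / (8 * δ) := by linarith
      have h5 : (hf y E r + gf y E r) * (1 / (8 * δ)) ≤ 5 / 8 := by
        have : (hf y E r + gf y E r) * (1 / (8 * δ)) ≤ 5 * δ * (1 / (8 * δ)) := by gcongr
        have e : 5 * δ * (1 / (8 * δ)) = 5 / 8 := by field_simp
        linarith
      have h6 : 0 ≤ (hf y E r + gf y E r) * (1 - gf y E r) ^ 2 := by positivity
      have h7 : 1 - δ ≤ y r * (1 + gf y E r) := by nlinarith
      have h8 : 0 < (hf y E r + gf y E r) *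
          ((1 - gf y E r) ^ 2 - m * (gf y E r * hf y E r)) + y r * (1 + gf y E r) := by
        rw [h4, mul_sub]
        linarith
      show 0 - m * ((hf y E r + gf y E r) *
        ((1 - gf y E r) ^ 2 - m * (gf y E r * hf y E r)) + y r * (1 + gf y E r)) < 0
      have := mul_pos hm0 h8
      linarith
  linarith

/-- `J = E (m h + 3 - g)`. -/
theorem J_eq (B : Blk m S y E) {s : ℝ} (hs : s ∈ Ioc 0 S) :
    Jf m y E s = E s * (m * hf y E s + 3 - gf y E s) := by
  have e := B.y_eq hs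
  have e2 : gf y E s * E s = y s := e.symm
  unfold Jf hf
  linear_combination (-m + 1) * e2

end Blk

end Lq.OneB
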