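import Pool.Agent.Lq.One5

set_option autoImplicit false

open Filter Topology Set

namespace Lq.OneB

/-- a family of blocks evaluated at the right end points, with `y -> a`, `m -> infinity` -/
structure Fam {ι : Type*} (l : Filter ι) (m b : ι → ℝ) (y E : ι → ℝ → ℝ) (a : ℝ) : Prop where
  B : ∀ᶠ i in l, Blk (m i) (b i) (y i) (E i)
  hm : Tendsto m l atTop
  hy : Tendsto (fun i => y i (b i)) l (𝓝 a)

/-- `u = (1 - a)^+` -/
noncomputable def up (a : ℝ) : ℝ := max (1 - a) 0

theorem up_nonneg (a : ℝ) : 0 ≤ up a := le_max_right _ _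

theorem up_of_le {a : ℝ} (h : a ≤ 1) : up a = 1 - a := max_eq_left (by linarith)

theorem up_of_ge {a : ℝ} (h : 1 ≤ a) : up a = 0 := max_eq_right (by linarith)

namespace Fam

variable {ι : Type*} {l : Filter ι} {m b : ι → ℝ} {y E : ι → ℝ → ℝ} {a : ℝ}

theorem a_nonneg [l.NeBot] (f : Fam l m b y E a) : 0 ≤ a := by
  refine ge_of_tendsto f.hy ?_
  filter_upwards [f.B] with i B
  exact (B.y_pos B.hSS).le

theorem ev_big (f : Fam l m b y E a) (C : ℝ) : ∀ᶠ i in l, C < m i :=
  f.hm.eventually_gt_atTop C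

theorem ev_M (f : Fam l m b y E a) {c : ℝ} (hc : a < c) : ∀ᶠ i in l, y i (b i) < c :=
  (tendsto_order.1 f.hy).2 c hc

theorem u_tendsto (f : Fam l m b y E a) :
    Tendsto (fun i => gf (y i) (E i) (b i) * hf (y i) (E i) (b i)) l (𝓝 0) := by
  rcases l.eq_or_neBot with h | h
  · rw [h]; exact tendsto_bot
  rw [tendsto_order]
  constructor
  · intro c hc
    filter_upwards [f.B] with i B
    have := mul_pos (B.g_pos B.hSS) (B.h_pos B.hSS)
    linarith
  · intro c hc
    have ha := f.a_nonneg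
    filter_upwards [f.B, f.ev_M (c := a + 1) (by linarith),
      f.ev_big (1 / c + 2 * (a + 1) ^ 2 / c ^ 2)] with i B h1 h2
    exact B.u_lt B.hSS (by linarith) hc h1.le h2

/-- (F1) -/
theorem g_tendsto (f : Fam l m b y E a) :
    Tendsto (fun i => gf (y i) (E i) (b i)) l (𝓝 (up a)) := by
  have h1 : Tendsto (fun i => ((1 - y i (b i)) +
      Real.sqrt ((1 - y i (b i)) ^ 2 + 4 * (gf (y i) (E i) (b i) * hf (y i) (E i) (b i)))) / 2) l
      (𝓝 (((1 - a) + Real.sqrt ((1 - a) ^ 2 + 4 * 0)) / 2)) := by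
    have h0 : Tendsto (fun i => 1 - y i (b i)) l (𝓝 (1 - a)) := tendsto_const_nhds.sub f.hy
    exact (h0.add ((Real.continuous_sqrt.tendsto _).comp
      ((h0.pow 2).add (f.u_tendsto.const_mul 4)))).div_const 2
  have e : ((1 - a) + Real.sqrt ((1 - a) ^ 2 + 4 * 0)) / 2 = up a := by
    rw [mul_zero, add_zero, Real.sqrt_sq_eq_abs]
    unfold up
    rcases le_total (1 - a) 0 with h | h
    · rw [abs_of_nonpos h, max_eq_right h]; ring
    · rw [abs_of_nonneg h, max_eq_left h]; ring
  rw [e] at h1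
  refine h1.congr' ?_
  filter_upwards [f.B] with i B
  have hg := B.g_pos B.hSS
  have hh := B.h_pos B.hSS
  have e1 : (1 - y i (b i)) ^ 2 + 4 * (gf (y i) (E i) (b i) * hf (y i) (E i) (b i)) =
      (2 * gf (y i) (E i) (b i) - (1 - y i (b i))) ^ 2 := by
    unfold hf; ring
  rw [e1, Real.sqrt_sq]
  · ring
  · have : hf (y i) (E i) (b i) = gf (y i) (E i) (b i) - (1 - y i (b i)) := rfl
    linarith

theorem h_tendsto (f : Fam l m b y E a) :
    Tendsto (fun i => hf (y i) (E i) (b i)) l (𝓝 (up a - (1 - a))) :=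
  f.g_tendsto.sub (tendsto_const_nhds.sub f.hy)

theorem inv_m (f : Fam l m b y E a) (c : ℝ) : Tendsto (fun i => c / m i) l (𝓝 0) :=
  f.hm.const_div_atTop c

/-- (F2) -/
theorem T_tendsto (f : Fam l m b y E a) :
    Tendsto (fun i => Tf (m i) (b i)) l (𝓝 (1 - up a ^ 2)) := by
  rcases l.eq_or_neBot with h | h
  · rw [h]; exact tendsto_bot
  have ha := f.a_nonneg
  rcases lt_or_ge a 1 with h1 | h1
  · have hu : up a = 1 - a := up_of_le h1.le
    have hupos : up a ≠ 0 := by rw [hu]; linarith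
    have h2 : Tendsto (fun i => 1 - (1 - y i (b i)) ^ 2 +
        2 / m i * (y i (b i) / gf (y i) (E i) (b i) - y i (b i))) l
        (𝓝 (1 - (1 - a) ^ 2 + 0 * (a / up a - a))) := by
      refine ((tendsto_const_nhds (x := (1 : ℝ))).sub
        (((tendsto_const_nhds (x := (1 : ℝ))).sub f.hy).pow 2)).add ?_
      exact (f.inv_m 2).mul ((f.hy.div f.g_tendsto hupos).sub f.hy)
    rw [zero_mul, add_zero, ← hu] at h2
    refine h2.congr' ?_
    filter_upwards [f.B] with i B
    rw [B.T_eq B.hSS]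
    have hE : y i (b i) / gf (y i) (E i) (b i) = E i (b i) := by
      have := B.y_eq B.hSS
      have hg := B.g_pos B.hSS
      rw [div_eq_iff hg.ne']
      linarith
    rw [hE]
  · rw [up_of_ge h1]
    have hlow : Tendsto (fun i => 1 - (max (1 - y i (b i)) 0) ^ 2) l (𝓝 (1 - 0 ^ 2)) := by
      have h2 : Tendsto (fun i => max (1 - y i (b i)) 0) l (𝓝 (max (1 - a) 0)) :=
        (tendsto_const_nhds.sub f.hy).max tendsto_const_nhds
      rw [max_eq_right (by linarith : 1 - a ≤ 0)] at h2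
      exact tendsto_const_nhds.sub (h2.pow 2)
    rw [tendsto_order]
    constructor
    · intro c hc
      have := (tendsto_order.1 hlow).1 c hc
      filter_upwards [this, f.B] with i h2 B
      exact h2.trans_le (B.T_ge B.hSS)
    · intro c hc
      set η : ℝ := (c - 1) / 2 with hη
      have hηpos : 0 < η := by
        have : (1 : ℝ) - 0 ^ 2 = 1 := by norm_num
        rw [this] at hc
        rw [hη]; linarith
      filter_upwards [f.B, f.ev_M (c := a + 1) (by linarith),
        f.ev_big (4 * (a + 1) * (1 + 2 * η) / η ^ 2)] with i B h2 h3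
      have := B.T_lt B.hSS (M := a + 1) (η := η) (by linarith) hηpos h2.le h3
      rw [hη] at this
      linarith

/-- (F7) -/
theorem mh_tendsto (f : Fam l m b y E a) (h1 : a < 1) :
    Tendsto (fun i => m i * hf (y i) (E i) (b i)) l (𝓝 (Psi a)) := by
  rcases l.eq_or_neBot with h | h
  · rw [h]; exact tendsto_bot
  have hΨ : Tendsto (fun i => Psi (y i (b i))) l (𝓝 (Psi a)) :=
    (hasDerivAt_Psi h1).continuousAt.tendsto.comp f.hy
  rw [tendsto_order]
  constructor
  · intro c hc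
    set η : ℝ := (Psi a - c) / 2 with hη
    have hηpos : 0 < η := by rw [hη]; linarith
    set δ : ℝ := (1 - a) / 2 with hδ
    have ha := f.a_nonneg
    have h2 := (tendsto_order.1 hΨ).1 (c + η) (by rw [hη]; linarith)
    filter_upwards [f.B, f.ev_M (c := 1 - δ) (by rw [hδ]; linarith),
      f.ev_big (26 / (δ ^ 5 * η)), h2] with i B h3 h4 h5
    have := B.lt_mh B.hSS (δ := δ) (η := η) (by rw [hδ]; linarith) (by rw [hδ]; linarith)
      hηpos h3.le h4
    linarith
  · intro c hc
    have h2 := (tendsto_order.1 hΨ).2 c hc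
    filter_upwards [f.B, f.ev_M h1, h2] with i B h3 h4
    exact (B.mh_le B.hSS h3).trans_lt h4

theorem mu_atTop (f : Fam l m b y E 1) :
    Tendsto (fun i => m i * (gf (y i) (E i) (b i) * hf (y i) (E i) (b i))) l atTop := by
  rw [tendsto_atTop]
  intro C
  set δ : ℝ := 1 / (8 * (|C| + 1)) with hδ
  have hC : 0 < |C| + 1 := by positivity
  have hδpos : 0 < δ := by rw [hδ]; positivity
  have hδ8 : δ ≤ 1 / 8 := by
    rw [hδ]
    apply div_le_div_of_nonneg_left (by norm_num) (by norm_num)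
    linarith [abs_nonneg C]
  have hCδ : C ≤ 1 / (8 * δ) := by
    have : 1 / (8 * δ) = |C| + 1 := by rw [hδ]; field_simp
    rw [this]
    linarith [le_abs_self C]
  filter_upwards [f.B, f.ev_M (c := 1 + δ) (by linarith),
    (tendsto_order.1 f.hy).1 (1 - δ) (by linarith),
    f.ev_big (1 / (2 * δ ^ 2) + 2 * 2 ^ 2 / (2 * δ ^ 2) ^ 2),
    f.ev_big (26 / (δ ^ 5 * 1))] with i B h1 h2 h3 h4
  exact hCδ.trans (B.mu_ge B.hSS hδpos hδ8 h3 h4 h2.le h1.le)

/-- `(2/m) E -> (up a - (1 - a))^2`. -/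
theorem E_tendsto (f : Fam l m b y E a) :
    Tendsto (fun i => 2 / m i * E i (b i)) l (𝓝 ((up a - (1 - a)) ^ 2)) := by
  have h1 : Tendsto (fun i => Tf (m i) (b i) - 1 + (1 - y i (b i)) ^ 2 + 2 / m i * y i (b i)) l
      (𝓝 ((1 - up a ^ 2) - 1 + (1 - a) ^ 2 + 0 * a)) := by
    refine ((f.T_tendsto.sub tendsto_const_nhds).add
      (((tendsto_const_nhds (x := (1 : ℝ))).sub f.hy).pow 2)).add ?_
    exact (f.inv_m 2).mul f.hy
  have e : (1 - up a ^ 2) - 1 + (1 - a) ^ 2 + 0 * a = (up a - (1 - a)) ^ 2 := by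
    unfold up
    rcases le_total (1 - a) 0 with h | h
    · rw [max_eq_right h]; ring
    · rw [max_eq_left h]; ring
  rw [e] at h1
  refine h1.congr' ?_
  filter_upwards [f.B] with i B
  rw [B.T_eq B.hSS]
  ring

theorem mh_atTop (f : Fam l m b y E a) (h1 : 1 ≤ a) :
    Tendsto (fun i => m i * hf (y i) (E i) (b i)) l atTop := by
  rcases h1.eq_or_lt with h | h
  · subst h
    refine tendsto_atTop_mono' l ?_ f.mu_atTop
    filter_upwards [f.B] with i B
    have hm := B.m0
    have hh := B.h_pos B.hSS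
    have hg := B.g_le B.hSS
    have : gf (y i) (E i) (b i) * hf (y i) (E i) (b i) ≤ hf (y i) (E i) (b i) := by nlinarith
    exact mul_le_mul_of_nonneg_left this hm.le
  · have h2 := f.h_tendsto
    refine Tendsto.atTop_mul_pos ?_ f.hm h2
    rw [up_of_ge h.le]; linarith

/-- `m g h -> 2a/(a-1)` for `a > 1` -/
theorem mu_tendsto (f : Fam l m b y E a) (h1 : 1 < a) :
    Tendsto (fun i => m i * (gf (y i) (E i) (b i) * hf (y i) (E i) (b i))) l
      (𝓝 (2 * a / (a - 1))) := by
  have hu := up_of_ge h1.le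
  have hE := f.E_tendsto
  rw [hu] at hE
  have hne : (0 - (1 - a)) ^ 2 ≠ 0 := by
    apply pow_ne_zero; intro h; linarith
  have h2 : Tendsto (fun i => 2 * y i (b i) / (2 / m i * E i (b i)) *
      hf (y i) (E i) (b i)) l (𝓝 (2 * a / (0 - (1 - a)) ^ 2 * (up a - (1 - a)))) :=
    ((f.hy.const_mul 2).div hE hne).mul f.h_tendsto
  have e : 2 * a / (0 - (1 - a)) ^ 2 * (up a - (1 - a)) = 2 * a / (a - 1) := by
    rw [hu]
    have : a - 1 ≠ 0 := by intro h; linarith
    have e2 : (0 - (1 - a)) = a - 1 := by ring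
    rw [e2]
    field_simp
  rw [e] at h2
  refine h2.congr' ?_
  filter_upwards [f.B] with i B
  have hm := B.m0
  have hE := B.E_pos B.hSS
  unfold gf
  field_simp

end Fam

end Lq.OneB
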