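import Pool.Agent.Lq.One6
import Pool.Agent.Lq.Base

set_option autoImplicit false

open Filter Topology Set

namespace Lq.OneB

theorem pos_of_slope {Z : ℝ → ℝ} {w s : ℝ} (hs : 0 < s) (hd : HasD Z w s)
    (hn : ∀ t ∈ Ioc 0 s, 0 ≤ Z t) (hw : Z s = 0 → 0 < w) : 0 < Z s := by
  rcases (hn s ⟨hs, le_rfl⟩).lt_or_eq with h | h
  · exact h
  · exfalso
    have hpos : 0 < w / s := div_pos (hw h.symm) hs
    unfold HasD at hd
    have hsl : Tendsto (slope Z s) (𝓝[<] s) (𝓝 (w / s)) := by
      have := hd.hasDerivWithinAt (s := Iio s)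
      rwa [hasDerivWithinAt_iff_tendsto_slope' (by simp)] at this
    have h3 := (tendsto_order.1 hsl).1 0 hpos
    have h2 : ∀ᶠ t in 𝓝[<] s, 0 < t :=
      (eventually_gt_nhds hs).filter_mono nhdsWithin_le_nhds
    obtain ⟨t, ht1, ht2, ht3⟩ := (h3.and (h2.and self_mem_nhdsWithin)).exists
    have ht3' : t < s := ht3
    have h4 := hn t ⟨ht2, ht3'.le⟩
    rw [slope_def_field, ← h, sub_zero] at ht1
    have h5 : t - s < 0 := sub_neg.mpr ht3'
    exact absurd ht1 (not_lt.mpr (div_nonpos_of_nonneg_of_nonpos h4 h5.le))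

namespace Blk

variable {m S : ℝ} {y E : ℝ → ℝ}

theorem y_lt_E (B : Blk m S y E) {s : ℝ} (hs : s ∈ Ioc 0 S) : y s < E s := by
  have h := pos_of_slope (Z := fun t => E t - y t)
    (w := (m * ((y s - 1) * E s + y s) + 3 * E s - y s) - (y s + E s)) hs.1
    ((B.dE s hs).sub (B.dy s hs)) (fun t ht => by
      have := B.y_le_E (sub hs ht)
      linarith) (fun h0 => by
      have h0' : E s = y s := by linarith
      have hy := B.y_pos hs
      have hm := B.m0
      have e : (m * ((y s - 1) * E s + y s) + 3 * E s - y s) - (y s + E s) = m * y s * y s := by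
        rw [h0']; ring
      rw [e]
      positivity)
  linarith

theorem g_lt_one (B : Blk m S y E) {s : ℝ} (hs : s ∈ Ioc 0 S) : gf y E s < 1 := by
  unfold gf
  rw [div_lt_one (B.E_pos hs)]
  exact B.y_lt_E hs

/-- `y ≥ 2 s^2 / m^2`. -/
theorem y_ge (B : Blk m S y E) {s : ℝ} (hs : s ∈ Ioc 0 S) : 2 * s ^ 2 / m ^ 2 ≤ y s := by
  by_contra hcon
  push Not at hcon
  have hs0 := hs.1
  have hm := B.m0
  set η : ℝ := (2 * s ^ 2 / m ^ 2 - y s) / s ^ 2 with hη
  have hηpos : 0 < η := div_pos (by linarith) (by positivity)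
  have key : (2 / m ^ 2 - η) * s ^ 2 - y s < 0 := by
    refine barrierD (Z := fun t => (2 / m ^ 2 - η) * t ^ 2 - y t)
      (W := fun t => (2 / m ^ 2 - η) * (2 * t ^ 2) - (y t + E t)) hs.1 ?_ ?_ ?_
    · intro t ht
      exact ((sq_hasD ht.1.ne').cmul _).sub (B.dy t (sub hs ht))
    · have h1 := (tendsto_order.1 B.hy0).1 (2 / m ^ 2 - η) (by linarith)
      filter_upwards [h1, self_mem_nhdsWithin] with t h2 h3
      have h3' : (0 : ℝ) < t := h3
      rw [lt_div_iff₀ (by positivity)] at h2
      linarith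
    · intro t ht h0
      have h1 := B.y_lt_E (sub hs ht)
      have h2 : (2 / m ^ 2 - η) * t ^ 2 = y t := by linarith
      show (2 / m ^ 2 - η) * (2 * t ^ 2) - (y t + E t) < 0
      linarith
  have e : (2 / m ^ 2 - η) * s ^ 2 = y s := by
    rw [hη]; field_simp; ring
  linarith

theorem J_ge (B : Blk m S y E) {s : ℝ} (hs : s ∈ Ioc 0 S) : 2 * E s ≤ Jf m y E s := by
  rw [B.J_eq hs]
  have hE := B.E_pos hs
  have hm := B.m0
  have hh := B.h_pos hs
  have hg := B.g_le hs
  have : 0 < m * hf y E s := by positivity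
  nlinarith

end Blk

namespace Fam

variable {ι : Type*} {l : Filter ι} {m b : ι → ℝ} {y E : ι → ℝ → ℝ} {a : ℝ}

/-- (F4) -/
theorem q_tendsto (f : Fam l m b y E a) :
    Tendsto (fun i => (y i (b i) + E i (b i)) / Jf (m i) (y i) (E i) (b i)) l (𝓝 (up a ^ 2)) := by
  have hcongr : ∀ᶠ i in l, (1 + gf (y i) (E i) (b i)) /
      (m i * hf (y i) (E i) (b i) + 3 - gf (y i) (E i) (b i)) =
      (y i (b i) + E i (b i)) / Jf (m i) (y i) (E i) (b i) := by
    filter_upwards [f.B] with i B
    have hE := B.E_pos B.hSS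
    rw [B.J_eq B.hSS]
    have e : y i (b i) + E i (b i) = E i (b i) * (1 + gf (y i) (E i) (b i)) := by
      have := B.y_eq B.hSS
      linear_combination this
    rw [e, mul_div_mul_left _ _ hE.ne']
  rcases lt_or_ge a 1 with h1 | h1
  · have hne : Psi a + 3 - up a ≠ 0 := by
      rcases l.eq_or_neBot with h | h
      · rw [up_of_le h1.le]
        have h0 : 0 < 1 - a := by linarith
        have e : (Psi a + 3 - (1 - a)) * (1 - a) ^ 2 = 2 - a := by
          unfold Psi; field_simp; ring
        intro h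
        rw [h] at e
        linarith
      · have := Psi_nonneg f.a_nonneg h1
        have h2 : up a ≤ 1 := by rw [up_of_le h1.le]; linarith [f.a_nonneg]
        intro h
        linarith
    have h2 := (f.g_tendsto.const_add 1).div
      (((f.mh_tendsto h1).add_const 3).sub f.g_tendsto) hne
    have e : (1 + up a) / (Psi a + 3 - up a) = up a ^ 2 := by
      rw [div_eq_iff hne, up_of_le h1.le]
      have h0 : (1 - a) ≠ 0 := by intro h; linarith
      unfold Psi
      field_simp
      ring
    rw [e] at h2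
    exact h2.congr' hcongr
  · rw [up_of_ge h1]
    have h2 : Tendsto (fun i => m i * hf (y i) (E i) (b i) + 3 - gf (y i) (E i) (b i)) l atTop := by
      have h3 : Tendsto (fun i => m i * hf (y i) (E i) (b i) + (3 - gf (y i) (E i) (b i))) l
          atTop := (f.mh_atTop h1).atTop_add (tendsto_const_nhds.sub f.g_tendsto)
      refine h3.congr ?_
      intro i; ring
    have h3 := (f.g_tendsto.const_add 1).div_atTop h2
    have e : (0 : ℝ) ^ 2 = 0 := by norm_num
    rw [e]
    exact h3.congr' hcongr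

/-- (F3) -/
theorem r_tendsto (f : Fam l m b y E a) :
    Tendsto (fun i => (y i (b i) + E i (b i)) ^ 2 / Jf (m i) (y i) (E i) (b i)) l
      (𝓝 (rr a)) := by
  have hcongr : ∀ᶠ i in l, y i (b i) * (1 + gf (y i) (E i) (b i)) ^ 2 /
      (m i * (gf (y i) (E i) (b i) * hf (y i) (E i) (b i)) +
        gf (y i) (E i) (b i) * (3 - gf (y i) (E i) (b i))) =
      (y i (b i) + E i (b i)) ^ 2 / Jf (m i) (y i) (E i) (b i) := by
    filter_upwards [f.B] with i B
    have hE := B.E_pos B.hSS
    have hg := B.g_pos B.hSS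
    have hh := B.h_pos B.hSS
    have hg1 := B.g_le B.hSS
    have hm := B.m0
    rw [B.J_eq B.hSS]
    have e : y i (b i) + E i (b i) = E i (b i) * (1 + gf (y i) (E i) (b i)) := by
      have := B.y_eq B.hSS
      linear_combination this
    have e2 := B.y_eq B.hSS
    rw [e]
    have h1 : 0 < m i * (gf (y i) (E i) (b i) * hf (y i) (E i) (b i)) +
        gf (y i) (E i) (b i) * (3 - gf (y i) (E i) (b i)) := by
      have : 0 < 3 - gf (y i) (E i) (b i) := by linarith
      positivity
    have h2 : 0 < E i (b i) * (m i * hf (y i) (E i) (b i) + 3 - gf (y i) (E i) (b i)) := by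
      have : 0 < m i * hf (y i) (E i) (b i) := by positivity
      have : 0 < m i * hf (y i) (E i) (b i) + 3 - gf (y i) (E i) (b i) := by linarith
      positivity
    rw [div_eq_div_iff h1.ne' h2.ne', e2]
    ring
  rcases lt_trichotomy a 1 with h1 | h1 | h1
  · have hu : up a ≠ 0 := by rw [up_of_le h1.le]; linarith
    have h2 := (f.hy.add (f.hy.div f.g_tendsto hu)).mul f.q_tendsto
    have e : (a + a / up a) * up a ^ 2 = rr a := by
      unfold rr
      rw [if_pos h1.le, up_of_le h1.le]
      have : 1 - a ≠ 0 := by intro h; linarith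
      field_simp
      ring
    rw [e] at h2
    refine h2.congr' ?_
    filter_upwards [f.B] with i B
    have hE : y i (b i) / gf (y i) (E i) (b i) = E i (b i) := by
      have := B.y_eq B.hSS
      have hg := B.g_pos B.hSS
      rw [div_eq_iff hg.ne']
      linarith
    show (y i (b i) + y i (b i) / gf (y i) (E i) (b i)) *
      ((y i (b i) + E i (b i)) / Jf (m i) (y i) (E i) (b i)) = _
    rw [hE]
    ring
  · subst h1
    have e : rr 1 = 0 := by unfold rr; norm_num
    rw [e]
    have h2 : Tendsto (fun i => m i * (gf (y i) (E i) (b i) * hf (y i) (E i) (b i)) +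
        gf (y i) (E i) (b i) * (3 - gf (y i) (E i) (b i))) l atTop :=
      f.mu_atTop.atTop_add (f.g_tendsto.mul (tendsto_const_nhds.sub f.g_tendsto))
    have h3 := (f.hy.mul ((f.g_tendsto.const_add 1).pow 2)).div_atTop h2
    exact h3.congr' hcongr
  · have e : rr a = (a - 1) / 2 := by unfold rr; rw [if_neg (not_le.mpr h1)]
    rw [e]
    have h0 := up_of_ge h1.le
    have hg := f.g_tendsto
    rw [h0] at hg
    have hne : 2 * a / (a - 1) + 0 * (3 - 0) ≠ 0 := by
      have : 0 < 2 * a / (a - 1) := by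
        apply div_pos <;> linarith
      intro h
      linarith
    have h2 := (f.hy.mul ((hg.const_add 1).pow 2)).div
      ((f.mu_tendsto h1).add (hg.mul ((tendsto_const_nhds (x := (3 : ℝ))).sub hg))) hne
    have e2 : a * (1 + 0) ^ 2 / (2 * a / (a - 1) + 0 * (3 - 0)) = (a - 1) / 2 := by
      have : a - 1 ≠ 0 := by intro h; linarith
      have : a ≠ 0 := by intro h; linarith
      field_simp
      ring
    rw [e2] at h2
    exact h2.congr' hcongr

/-- (F5) -/
theorem TD_tendsto (f : Fam l m b y E a) :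
    Tendsto (fun i => Tf (m i) (b i) / (y i (b i) + E i (b i))) l (𝓝 (up a)) := by
  rcases l.eq_or_neBot with h | h
  · rw [h]; exact tendsto_bot
  have ha := f.a_nonneg
  have hne : 1 + up a ≠ 0 := by have := up_nonneg a; intro h; linarith
  have h2 : Tendsto (fun i => ((2 - y i (b i)) * gf (y i) (E i) (b i) +
      2 / m i * (1 - gf (y i) (E i) (b i))) / (1 + gf (y i) (E i) (b i))) l
      (𝓝 (((2 - a) * up a + 0 * (1 - up a)) / (1 + up a))) := by
    refine Tendsto.div ?_ (f.g_tendsto.const_add 1) hne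
    exact ((tendsto_const_nhds.sub f.hy).mul f.g_tendsto).add
      ((f.inv_m 2).mul (tendsto_const_nhds.sub f.g_tendsto))
  have e : ((2 - a) * up a + 0 * (1 - up a)) / (1 + up a) = up a := by
    rw [div_eq_iff hne]
    rcases le_total a 1 with h1 | h1
    · rw [up_of_le h1]; ring
    · rw [up_of_ge h1]; ring
  rw [e] at h2
  refine h2.congr' ?_
  filter_upwards [f.B] with i B
  have hE := B.E_pos B.hSS
  have hg := B.g_pos B.hSS
  have hm := B.m0
  have hy := B.y_pos B.hSS
  rw [B.T_eq B.hSS]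
  have e1 : y i (b i) + E i (b i) = E i (b i) * (1 + gf (y i) (E i) (b i)) := by
    have := B.y_eq B.hSS
    linear_combination this
  have e2 := B.y_eq B.hSS
  rw [e1, div_eq_div_iff (by positivity) (by positivity)]
  have e3 : (1 - (1 - y i (b i)) ^ 2 + 2 / m i * (E i (b i) - y i (b i))) =
    E i (b i) * ((2 - y i (b i)) * gf (y i) (E i) (b i) +
      2 / m i * (1 - gf (y i) (E i) (b i))) := by
    linear_combination (2 - y i (b i) - 2 / m i) * e2
  rw [e3]
  ring

/-- (F6) -/
theorem De_tendsto (f : Fam l m b y E a) :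
    Tendsto (fun i => Jf (m i) (y i) (E i) (b i) / (m i / 2 * E i (b i))) l
      (𝓝 (2 * (up a - (1 - a)))) := by
  have h2 : Tendsto (fun i => 2 * hf (y i) (E i) (b i) +
      2 / m i * (3 - gf (y i) (E i) (b i))) l
      (𝓝 (2 * (up a - (1 - a)) + 0 * (3 - up a))) :=
    (f.h_tendsto.const_mul 2).add ((f.inv_m 2).mul (tendsto_const_nhds.sub f.g_tendsto))
  rw [zero_mul, add_zero] at h2
  refine h2.congr' ?_
  filter_upwards [f.B] with i B
  have hE := B.E_pos B.hSS
  have hm := B.m0
  rw [B.J_eq B.hSS]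
  field_simp
  ring

/-- (F8) -/
theorem yg_tendsto (f : Fam l m b y E a) :
    Tendsto (fun i => y i (b i) * gf (y i) (E i) (b i)) l (𝓝 (a * up a)) :=
  f.hy.mul f.g_tendsto

end Fam

end Lq.OneB
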