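import Pool.Agent.Lq.One7

set_option autoImplicit false

open Filter Topology Set

namespace Lq

/-- what the one block theory needs about `f = F k 0` -/
structure OdeF (k : ℕ) : Prop where
  smooth : ContDiff ℝ 2 (F k 0)
  zero : F k 0 0 = 1
  ode : ∀ x : ℝ, x * deriv (deriv (F k 0)) x + ((k : ℝ) - 1) * deriv (F k 0) x + x * F k 0 x = 0

namespace OdeF

variable {k : ℕ}

theorem hd0 (h : OdeF k) (x : ℝ) : HasDerivAt (F k 0) (deriv (F k 0) x) x :=
  ((h.smooth.differentiable (by norm_num)) x).hasDerivAt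

theorem cd1 (h : OdeF k) : ContDiff ℝ 1 (deriv (F k 0)) := by
  have := h.smooth
  have h2 : ContDiff ℝ (1 + 1) (F k 0) := by
    have e : ((1 : WithTop ℕ∞) + 1) = 2 := by norm_num
    rw [e]; exact this
  exact (contDiff_succ_iff_deriv.1 h2).2.2

theorem hd1 (h : OdeF k) (x : ℝ) :
    HasDerivAt (deriv (F k 0)) (deriv (deriv (F k 0)) x) x :=
  ((h.cd1.differentiable (by norm_num)) x).hasDerivAt

theorem cont2 (h : OdeF k) : Continuous (deriv (deriv (F k 0))) := by
  have h2 : ContDiff ℝ (0 + 1) (deriv (F k 0)) := by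
    simpa using h.cd1
  exact (contDiff_succ_iff_deriv.1 h2).2.2.continuous

theorem d1_zero (h : OdeF k) (hk : 1 < k) : deriv (F k 0) 0 = 0 := by
  have := h.ode 0
  have hk' : ((k : ℝ) - 1) ≠ 0 := by
    have : (1 : ℝ) < k := by exact_mod_cast hk
    intro h; linarith
  simpa [hk'] using this

/-- `f'(x)/x -> f''(0)` -/
theorem tends (h : OdeF k) (hk : 1 < k) :
    Tendsto (fun x => deriv (F k 0) x / x) (𝓝[>] 0) (𝓝 (deriv (deriv (F k 0)) 0)) := by
  have h1 := (h.hd1 0).hasDerivWithinAt (s := Ioi 0)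
  rw [hasDerivWithinAt_iff_tendsto_slope' (by simp)] at h1
  refine h1.congr ?_
  intro x
  rw [slope_def_field, h.d1_zero hk, sub_zero, sub_zero]

theorem d2_zero (h : OdeF k) (hk : 1 < k) : deriv (deriv (F k 0)) 0 = -(1 / (k : ℝ)) := by
  have h1 : Tendsto (fun x => deriv (deriv (F k 0)) x + ((k : ℝ) - 1) * (deriv (F k 0) x / x) +
      F k 0 x) (𝓝[>] 0)
      (𝓝 (deriv (deriv (F k 0)) 0 + ((k : ℝ) - 1) * deriv (deriv (F k 0)) 0 + F k 0 0)) := by
    refine ((h.cont2.tendsto 0).mono_left nhdsWithin_le_nhds).add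
      ((h.tends hk).const_mul _) |>.add ?_
    exact (h.smooth.continuous.tendsto 0).mono_left nhdsWithin_le_nhds
  have h2 : Tendsto (fun x => deriv (deriv (F k 0)) x + ((k : ℝ) - 1) * (deriv (F k 0) x / x) +
      F k 0 x) (𝓝[>] 0) (𝓝 0) := by
    refine (tendsto_const_nhds (x := (0 : ℝ))).congr' ?_
    filter_upwards [self_mem_nhdsWithin] with x hx
    have hx' : x ≠ 0 := ne_of_gt hx
    have := h.ode x
    field_simp
    linarith
  have h3 := tendsto_nhds_unique h1 h2
  rw [h.zero] at h3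
  have hk' : (k : ℝ) ≠ 0 := by
    have : (1 : ℝ) < k := by exact_mod_cast hk
    intro h; linarith
  have h4 : (k : ℝ) * deriv (deriv (F k 0)) 0 = -1 := by linarith
  field_simp
  linarith

/-- (2.1) -/
theorem dX (h : OdeF k) {x : ℝ} (hx : x ≠ 0) (hf : F k 0 x ≠ 0) :
    OneB.HasD (X k) (X k x + ee k x) x := by
  have h0 := h.hd0 x
  have h1 := h.hd1 x
  have hid := hasDerivAt_id x
  have hq := ((hid.mul h1).div h0 hf).neg
  unfold OneB.HasD
  have e : (fun t => -(t * deriv (F k 0) t / F k 0 t)) = X k := by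
    funext t; rfl
  refine HasDerivAt.congr_deriv (f := X k) hq ?_
  simp only [id, Pi.mul_apply]
  have hode := h.ode x
  unfold ee X
  rw [eq_div_iff hx]
  field_simp
  have e2 : deriv (deriv (F k 0)) x * x = -((k : ℝ) - 1) * deriv (F k 0) x - x * F k 0 x := by
    linarith
  linear_combination (-(F k 0 x)) * e2

/-- (2.2) -/
theorem dee (h : OdeF k) {x : ℝ} (hx : x ≠ 0) (hf : F k 0 x ≠ 0) :
    OneB.HasD (ee k) ((2 * X k x - (k : ℝ) + 3) * ee k x + ((k : ℝ) - 1) * X k x) x := by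
  have h1 := h.dX hx hf
  have h2 := ((h1.mul h1).sub (h1.cmul ((k : ℝ) - 1))).add (OneB.Blk.sq_hasD hx)
  have e : (fun t => X k t * X k t - ((k : ℝ) - 1) * X k t + t ^ 2) = ee k := by
    funext t; unfold ee; ring
  rw [e] at h2
  refine h2.congr ?_
  unfold ee
  ring

/-- a positive point gives a block -/
theorem blk (h : OdeF k) (hk : 8 ≤ k) {x : ℝ} (hx : Pos k x) :
    OneB.Blk (k : ℝ) x (yy k) (fun t => 2 / (k : ℝ) * ee k t) := by
  have hk' : (8 : ℝ) ≤ k := by exact_mod_cast hk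
  have hk0 : (k : ℝ) ≠ 0 := by intro h; linarith
  refine ⟨hk', hx.1, ?_, ?_, ?_, ?_⟩
  · intro t ht
    have hf : F k 0 t ≠ 0 := (hx.2 t ht.1.le ht.2).ne'
    have h1 := (h.dX ht.1.ne' hf).cmul (2 / (k : ℝ))
    have e : (fun t => 2 / (k : ℝ) * X k t) = yy k := by
      funext t; unfold yy; ring
    rw [e] at h1
    refine h1.congr ?_
    unfold yy; ring
  · intro t ht
    have hf : F k 0 t ≠ 0 := (hx.2 t ht.1.le ht.2).ne'
    have h1 := (h.dee ht.1.ne' hf).cmul (2 / (k : ℝ))
    refine h1.congr ?_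
    unfold yy
    field_simp
    ring
  · intro t ht
    unfold yy ee
    field_simp
    ring
  · have h1 := (h.tends (by omega : 1 < k)).div
      ((h.smooth.continuous.tendsto 0).mono_left nhdsWithin_le_nhds)
      (by rw [h.zero]; norm_num)
    have h2 := h1.const_mul (-(2 / (k : ℝ)))
    rw [h.zero, h.d2_zero (by omega : 1 < k)] at h2
    have e : -(2 / (k : ℝ)) * (-(1 / (k : ℝ)) / 1) = 2 / (k : ℝ) ^ 2 := by
      field_simp
    rw [e] at h2
    refine h2.congr' ?_
    filter_upwards [self_mem_nhdsWithin, OneB.Blk.tends_id.eventually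
      (show ∀ᶠ t : ℝ in 𝓝 0, F k 0 t ≠ 0 from
        h.smooth.continuous.continuousAt.eventually_ne (by rw [h.zero]; norm_num))] with t ht hft
    have ht' : t ≠ 0 := ne_of_gt ht
    unfold yy X
    simp only [Pi.div_apply]
    field_simp

end OdeF

end Lq
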