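import Pool.Agent.Lq.St1

/-!
# Topological half of `StmtOut` (section 4.7 of PAPER.md): statements (architect helper46)

`OutTop` contains the fields `op, bd, zero, nonneg, front, grad` of `OutK` and two facts
(`clos`, `dense`) for the inequalities.
-/

set_option autoImplicit false

open Filter Topology

namespace Lq

/-! ## one block -/

/-- level sets of `y` in one block: `{y < Y} = (-r, r)`, `{y <= Y} = [-r, r]` -/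
structure Lev (k : ℕ) (Y r : ℝ) : Prop where
  pos : 0 < r
  val : yy k r = Y
  lt_iff : ∀ t : ℝ, (Pz k |t| ∧ yy k |t| < Y) ↔ |t| < r
  le_iff : ∀ t : ℝ, (Pz k |t| ∧ yy k |t| ≤ Y) ↔ |t| ≤ r
  cont : ∀ t : ℝ, |t| ≤ r → ContinuousAt (fun s => yy k |s|) t
  nonneg : ∀ t : ℝ, |t| ≤ r → 0 ≤ yy k |t|
  ypos : ∀ t : ℝ, 0 < |t| → |t| ≤ r → 0 < yy k |t|

def StmtLev : Prop := ∀ (k : ℕ) (Y : ℝ), 8 ≤ k → 0 < Y → ∃ r : ℝ, Lev k Y r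

/-- `k → ∞`, `x` in `[0, R_k)`, `y → a` -/
structure Lim0 {I : Type} (l : Filter I) (kk : I → ℕ) (x : I → ℝ) (a : ℝ) : Prop where
  hk : Tendsto kk l atTop
  hx : ∀ᶠ i in l, Pz (kk i) (x i)
  hy : Tendsto (fun i => yy (kk i) (x i)) l (𝓝 a)

/-- `StmtJ0` with `x = 0` allowed -/
def StmtJ0z : Prop := ∀ (I : Type) (l : Filter I) (kk : I → ℕ) (x : I → ℝ) (a : ℝ) (i : ℕ),
  Lim0 l kk x a → Tendsto (fun n => j0 (kk n) i (x n)) l (𝓝 (t0 i a))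

/-! ## two blocks -/

structure WFacts (k d : ℕ) (c : ℕ → ℕ → ℝ) : Prop where
  smooth : ContDiff ℝ (⊤ : ℕ∞) (W k d c)
  even : ∀ x : ℝ × ℝ, W k d c x = W k d c (|x.1|, |x.2|)
  fac : ∀ x1 x2 : ℝ, F k 0 x1 ≠ 0 → F (4 * k) 0 x2 ≠ 0 →
    W k d c (x1, x2) = F k 0 x1 * F (4 * k) 0 x2 * (kJet k d c x1 x2).s
  zero : W k d c (0 : ℝ × ℝ) = c 0 0

def StmtWF : Prop := ∀ (k d : ℕ) (c : ℕ → ℕ → ℝ), 1 ≤ k → WFacts k d c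

/-- gradient of `W` at a zero of `W` -/
def StmtWG : Prop := ∀ (k d : ℕ) (c : ℕ → ℕ → ℝ) (x : ℝ × ℝ), 1 ≤ k →
  F k 0 |x.1| ≠ 0 → F (4 * k) 0 |x.2| ≠ 0 → W k d c x = 0 →
  (0 < |x.1| → D1 k |x.1| ≠ 0 → (kJet k d c |x.1| |x.2|).s1 ≠ 0 → d1 (W k d c) x (1, 0) ≠ 0) ∧
  (0 < |x.2| → D1 (4 * k) |x.2| ≠ 0 → (kJet k d c |x.1| |x.2|).s2 ≠ 0 →
    d1 (W k d c) x (0, 1) ≠ 0)

/-- the two block limit setting (both `x_i = 0` allowed) -/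
structure Lim2 {I : Type} (l : Filter I) (kk : I → ℕ) (x1 x2 : I → ℝ) (a1 a2 : ℝ) : Prop where
  h1 : Lim0 l kk x1 a1
  h2 : Lim0 l (fun i => 4 * kk i) x2 a2

def StmtJetLim : Prop := ∀ (I : Type) (l : Filter I) (kk : I → ℕ) (x1 x2 : I → ℝ) (a1 a2 : ℝ)
    (d : ℕ) (c : ℕ → ℕ → ℝ), Lim2 l kk x1 x2 a1 a2 → Deg d c →
  Tendsto (fun n => (kJet (kk n) d c (x1 n) (x2 n)).s) l (𝓝 (limJet d c a1 a2).s) ∧
  Tendsto (fun n => (kk n : ℝ) / 4 * (kJet (kk n) d (Dop (kk n) d c) (x1 n) (x2 n)).s) l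
    (𝓝 (limJet d (Lop c) a1 a2).s) ∧
  ((∀ᶠ n in l, 0 < x1 n) →
    Tendsto (fun n => (kJet (kk n) d c (x1 n) (x2 n)).s1) l (𝓝 (limJet d c a1 a2).s1)) ∧
  ((∀ᶠ n in l, 0 < x2 n) →
    Tendsto (fun n => (kJet (kk n) d c (x1 n) (x2 n)).s2) l (𝓝 (limJet d c a1 a2).s2))

/-- contradiction principle: a statement `P k x1 x2` holds for all large `k` and all `x1, x2` in the
box if no limit configuration of counterexamples exists -/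
def StmtComp : Prop := ∀ (b : ℝ) (P : ℕ → ℝ → ℝ → Prop), 0 < b →
  (∀ (l : Ultrafilter ℕ) (x1 x2 : ℕ → ℝ) (a1 a2 : ℝ),
    Lim2 (l : Filter ℕ) (fun k => k) x1 x2 a1 a2 →
    (∀ᶠ k in (l : Filter ℕ), yy k (x1 k) ≤ b ∧ yy (4 * k) (x2 k) ≤ b ∧
      ¬ P k (x1 k) (x2 k)) →
    0 ≤ a1 → a1 ≤ b → 0 ≤ a2 → a2 ≤ b → False) →
  ∀ᶠ k : ℕ in atTop, ∀ x1 x2 : ℝ, Pz k x1 → Pz (4 * k) x2 → yy k x1 ≤ b → yy (4 * k) x2 ≤ b →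
    P k x1 x2

/-- for large `k`, on the box -/
structure Unif1 (k d : ℕ) (c : ℕ → ℕ → ℝ) (b ks th : ℝ) : Prop where
  box : ∀ x1 x2 : ℝ, Pz k x1 → Pz (4 * k) x2 → yy k x1 ≤ b → yy (4 * k) x2 ≤ b →
    (yy k x1 = b ∨ yy (4 * k) x2 = b) → 0 ≤ (kJet k d c x1 x2).s →
    badS ks th (yy k x1) (yy (4 * k) x2)
  line : ∀ x1 x2 : ℝ, Pz k x1 → Pz (4 * k) x2 → yy k x1 ≤ b → yy (4 * k) x2 ≤ b →
    1 + ks ≤ yy k x1 → 1 + ks ≤ yy (4 * k) x2 →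
    1 / (yy k x1 - 1) + 1 / (yy (4 * k) x2 - 1) = th → (kJet k d c x1 x2).s < 0

structure Unif2 (k d : ℕ) (c : ℕ → ℕ → ℝ) (b ks th : ℝ) : Prop where
  qpos : ∀ x1 x2 : ℝ, Pz k x1 → Pz (4 * k) x2 → yy k x1 ≤ b → yy (4 * k) x2 ≤ b →
    (kJet k d c x1 x2).s = 0 → ¬ badS ks th (yy k x1) (yy (4 * k) x2) →
    0 < (kJet k d (Dop k d c) x1 x2).s
  grad : ∀ x1 x2 : ℝ, Pz k x1 → Pz (4 * k) x2 → yy k x1 ≤ b → yy (4 * k) x2 ≤ b →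
    (kJet k d c x1 x2).s = 0 → ¬ badS ks th (yy k x1) (yy (4 * k) x2) →
    (0 < x1 ∧ (kJet k d c x1 x2).s1 < 0) ∨ (0 < x2 ∧ (kJet k d c x1 x2).s2 < 0)

def StmtUnif1 : Prop := ∀ (d : ℕ) (c : ℕ → ℕ → ℝ) (b ks th : ℝ), LimOK d c b ks th →
  ∀ᶠ k : ℕ in atTop, Unif1 k d c b ks th

def StmtUnif2 : Prop := ∀ (d : ℕ) (c : ℕ → ℕ → ℝ) (b ks th : ℝ), LimOK d c b ks th →
  ∀ᶠ k : ℕ in atTop, Unif2 k d c b ks th

/-! ## the domain, fixed `k` -/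

/-- facts about the domain which need no largeness of `k` -/
structure DFacts (k d : ℕ) (c : ℕ → ℕ → ℝ) (b ks th : ℝ) : Prop where
  op : IsOpen (D0 k d c b ks th)
  bd : Bornology.IsBounded (D0 k d c b ks th)
  clos : ∀ x ∈ closure (D0 k d c b ks th), Pz k |x.1| ∧ Pz (4 * k) |x.2| ∧
    yy k |x.1| ≤ b ∧ yy (4 * k) |x.2| ≤ b ∧ 0 ≤ W k d c x ∧
    ¬ badS ks th (yy k |x.1|) (yy (4 * k) |x.2|)
  dense : closure (D0 k d c b ks th) ⊆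
    closure {x | x ∈ D0 k d c b ks th ∧ 0 < |x.1| ∧ 0 < |x.2|}

def StmtDF : Prop := ∀ (k d : ℕ) (c : ℕ → ℕ → ℝ) (b ks th : ℝ), 8 ≤ k → 0 < b → 0 < ks →
  DFacts k d c b ks th

/-- the topological fields of `OutK` -/
structure OutTop (k d : ℕ) (c : ℕ → ℕ → ℝ) (b ks th : ℝ) : Prop where
  op : IsOpen (D0 k d c b ks th)
  bd : Bornology.IsBounded (D0 k d c b ks th)
  zero : (0 : ℝ × ℝ) ∈ D0 k d c b ks th
  nonneg : ∀ x ∈ closure (D0 k d c b ks th), 0 ≤ W k d c x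
  front : ∀ x ∈ closure (D0 k d c b ks th), x ∉ D0 k d c b ks th → W k d c x = 0
  grad : ∀ x ∈ closure (D0 k d c b ks th), W k d c x = 0 →
    (∃ v, d1 (W k d c) x v ≠ 0) ∧ 0 < W k d (Dop k d c) x

def StmtTop : Prop := ∀ (d : ℕ) (c : ℕ → ℕ → ℝ) (b ks th : ℝ), LimOK d c b ks th →
  ∀ᶠ k : ℕ in atTop, OutTop k d c b ks th ∧ DFacts k d c b ks th

end Lq
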