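import Pool.Agent.Lq.St4
import Pool.Agent.Lq.StD

/-!
# `StmtOut` from the topological half and the two inequalities
-/

set_option autoImplicit false

open Filter Topology

namespace Lq

theorem t_Out (h1 : StmtTop) (h2 : StmtOutBC) : StmtOut := by
  intro d c b ks th hL
  filter_upwards [h1 d c b ks th hL, h2 d c b ks th hL] with k hk hbc
  obtain ⟨ht, -⟩ := hk
  obtain ⟨hB, hC⟩ := hbc ht.op
  exact ⟨ht.op, ht.bd, ht.zero, ht.nonneg, ht.front, hB, hC, ht.grad⟩

end Lq
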