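import Pool.Agent.Lq.StP

/-!
# Section 6 of PAPER.md: the explicit function eta satisfies the homogeneous conditions
-/

set_option autoImplicit false

open Filter Topology

namespace Lq

namespace PEta

theorem hx (q : Polynomial ℝ) (x y : ℝ) :
    HasDerivAt (fun s => q.eval (s - 4 * y)) (q.derivative.eval (x - 4 * y)) x := by
  have h := (q.hasDerivAt (x - 4 * y)).comp x ((hasDerivAt_id x).sub_const (4 * y))
  rw [mul_one] at h
  exact h

theorem hy (q : Polynomial ℝ) (x y : ℝ) :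
    HasDerivAt (fun s => q.eval (x - 4 * s)) (-4 * q.derivative.eval (x - 4 * y)) y := by
  have h := (q.hasDerivAt (x - 4 * y)).comp y (((hasDerivAt_id y).const_mul 4).const_sub x)
  have h2 : q.derivative.eval (x - 4 * y) * -(4 * 1) = -4 * q.derivative.eval (x - 4 * y) := by ring
  rw [h2] at h
  exact h

/-- the class of functions -/
def Fm (A B : Polynomial ℝ) (α β γ : ℝ) (x y : ℝ) : ℝ :=
  (1 - x) * A.eval (x - 4 * y) + B.eval (x - 4 * y) + α * (1 - x) ^ 2 + β * (1 - x) + γ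

theorem stepx {w : ℕ → ℕ → ℝ → ℝ → ℝ} (hw : Fam w) {a b : ℕ} {A B : Polynomial ℝ} {α β γ : ℝ}
    (h : ∀ x y, w a b x y = Fm A B α β γ x y) :
    ∀ x y, w (a + 1) b x y
      = Fm A.derivative (B.derivative - A) 0 (-2 * α) (-β) x y := by
  intro x y
  have h1 := hw.d1 a b x y
  have h2 : (fun s => w a b s y) = fun s => Fm A B α β γ s y := by
    funext s
    exact h s y
  rw [h2] at h1
  have h3 : HasDerivAt (fun s => Fm A B α β γ s y)
      ((-1) * A.eval (x - 4 * y) + (1 - x) * A.derivative.eval (x - 4 * y)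
        + B.derivative.eval (x - 4 * y) + α * (2 * (1 - x) * (-1)) + β * (-1) + 0) x := by
    unfold Fm
    have hT : HasDerivAt (fun s : ℝ => 1 - s) (-1) x := by
      simpa using (hasDerivAt_id x).const_sub 1
    have hT2 : HasDerivAt (fun s : ℝ => (1 - s) ^ 2) (2 * (1 - x) * (-1)) x := by
      have h5 := hT.fun_pow 2
      have e : ((2 : ℕ) : ℝ) * (1 - x) ^ (2 - 1) * (-1) = 2 * (1 - x) * (-1) := by norm_num
      rw [e] at h5
      exact h5
    exact ((((hT.mul (hx A x y)).add (hx B x y)).add (hT2.const_mul α)).add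
      (hT.const_mul β)).add (hasDerivAt_const x γ)
  rw [h1.unique h3]
  unfold Fm
  simp only [Polynomial.eval_sub]
  ring

theorem stepy {w : ℕ → ℕ → ℝ → ℝ → ℝ} (hw : Fam w) {a b : ℕ} {A B : Polynomial ℝ} {α β γ : ℝ}
    (h : ∀ x y, w a b x y = Fm A B α β γ x y) :
    ∀ x y, w a (b + 1) x y
      = Fm (Polynomial.C (-4) * A.derivative) (Polynomial.C (-4) * B.derivative) 0 0 0 x y := by
  intro x y
  have h1 := hw.d2 a b x y
  have h2 : (fun s => w a b x s) = fun s => Fm A B α β γ x s := by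
    funext s
    exact h x s
  rw [h2] at h1
  have h3 : HasDerivAt (fun s => Fm A B α β γ x s)
      ((1 - x) * (-4 * A.derivative.eval (x - 4 * y)) + -4 * B.derivative.eval (x - 4 * y)
        + 0 + 0 + 0) y := by
    unfold Fm
    exact (((((hy A x y).const_mul (1 - x)).add (hy B x y)).add
      (hasDerivAt_const y (α * (1 - x) ^ 2))).add
      (hasDerivAt_const y (β * (1 - x)))).add (hasDerivAt_const y γ)
  rw [h1.unique h3]
  unfold Fm
  simp only [Polynomial.eval_mul, Polynomial.eval_C]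
  ring

/-- explicit derivatives -/
structure Ex (Ph G : Polynomial ℝ) (c : ℝ) (w : ℕ → ℕ → ℝ → ℝ → ℝ) (x y F F1 F2 F3 G1 : ℝ) :
    Prop where
  w10 : w 1 0 x y = (1 - x) * F1 + c * (1 - x) + G1
  w01 : w 0 1 x y = -4 * ((1 - x) * F1 + F + G1)
  w20 : w 2 0 x y = -F1 + (1 - x) * F2 - c - 1 / 100
  w11 : w 1 1 x y = -4 * ((1 - x) * F2 - 1 / 100)
  w02 : w 0 2 x y = 16 * ((1 - x) * F2 + F1 - 1 / 100)
  w30 : w 3 0 x y = -2 * F2 + (1 - x) * F3
  w21 : w 2 1 x y = -4 * (-F2 + (1 - x) * F3)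
  w12 : w 1 2 x y = 16 * ((1 - x) * F3)
  w03 : w 0 3 x y = -64 * ((1 - x) * F3 + F2)

theorem explicit {Ph Ps G : Polynomial ℝ} {c : ℝ} (h1 : One Ph Ps G c)
    {w : ℕ → ℕ → ℝ → ℝ → ℝ} (hw : Fam w)
    (h : ∀ x y : ℝ, w 0 0 x y = (1 - x) * Ph.eval (x - 4 * y) + Ps.eval (x - 4 * y)
      - c / 2 * (1 - x) ^ 2 + G.eval (x - 4 * y)) (x y : ℝ) :
    Ex Ph G c w x y (Ph.eval (x - 4 * y)) (Ph.derivative.eval (x - 4 * y))
      (Ph.derivative.derivative.eval (x - 4 * y))
      (Ph.derivative.derivative.derivative.eval (x - 4 * y))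
      (1 / 100 * (2 - (x - 4 * y))) := by
  have e00 : ∀ x y, w 0 0 x y = Fm Ph (Ps + G) (-(c / 2)) 0 0 x y := by
    intro x y
    rw [h x y]
    unfold Fm
    simp only [Polynomial.eval_add]
    ring
  have e10 := stepx hw e00
  have e01 := stepy hw e00
  have e20 := stepx hw e10
  have e11 := stepy hw e10
  have e02 := stepy hw e01
  have e30 := stepx hw e20
  have e21 := stepy hw e20
  have e12 := stepy hw e11
  have e03 := stepy hw e02
  have g1 := h1.gg1 (x - 4 * y)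
  have g2 : G.derivative.derivative = Polynomial.C (-(1 / 100 : ℝ)) := h1.gg2
  refine ⟨(e10 x y).trans ?_, (e01 x y).trans ?_, (e20 x y).trans ?_, (e11 x y).trans ?_,
    (e02 x y).trans ?_, (e30 x y).trans ?_, (e21 x y).trans ?_, (e12 x y).trans ?_,
    (e03 x y).trans ?_⟩ <;>
  · simp only [Fm, Polynomial.derivative_add, Polynomial.derivative_sub, Polynomial.derivative_mul,
      Polynomial.derivative_C, Polynomial.eval_add, Polynomial.eval_sub, Polynomial.eval_mul,
      Polynomial.eval_C, h1.psi, g2, g1, Polynomial.eval_zero, Polynomial.derivative_zero]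
    ring

/-- the values of `Hf` -/
structure HEx (w : ℕ → ℕ → ℝ → ℝ → ℝ) (c x y F1 F2 : ℝ) : Prop where
  h10 : Hf w 1 0 x y = F1 + c
  h01 : Hf w 0 1 x y = -4 * F1
  h20 : Hf w 2 0 x y = F2
  h11 : Hf w 1 1 x y = -4 * F2
  h02 : Hf w 0 2 x y = 16 * F2

theorem hex {Ph G : Polynomial ℝ} {c : ℝ} {w : ℕ → ℕ → ℝ → ℝ → ℝ} {x y F F1 F2 F3 G1 : ℝ}
    (h : Ex Ph G c w x y F F1 F2 F3 G1) : HEx w c x y F1 F2 := by
  refine ⟨?_, ?_, ?_, ?_, ?_⟩
  · show -(w (1 + 1) 0 x y + w 1 (0 + 1) x y / 4) = _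
    norm_num
    rw [h.w20, h.w11]; ring
  · show -(w (0 + 1) 1 x y + w 0 (1 + 1) x y / 4) = _
    norm_num
    rw [h.w11, h.w02]; ring
  · show -(w (2 + 1) 0 x y + w 2 (0 + 1) x y / 4) = _
    norm_num
    rw [h.w30, h.w21]; ring
  · show -(w (1 + 1) 1 x y + w 1 (1 + 1) x y / 4) = _
    norm_num
    rw [h.w21, h.w12]; ring
  · show -(w (0 + 1) 2 x y + w 0 (2 + 1) x y / 4) = _
    norm_num
    rw [h.w12, h.w03]; ring

theorem rr_nonneg {a : ℝ} (h0 : 0 ≤ a) (h1 : a ≤ 1) : 0 ≤ rr a := by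
  unfold rr
  rw [if_pos h1]
  have h2 : 0 ≤ 2 - a := by linarith
  have h3 : 0 ≤ 1 - a := by linarith
  positivity

theorem rr_le_one {a : ℝ} (h0 : 0 ≤ a) (h1 : a ≤ 1) : rr a ≤ 1 := by
  unfold rr
  rw [if_pos h1]
  have h2 : a * (2 - a) ≤ 1 := by nlinarith [sq_nonneg (a - 1)]
  have h3 : 0 ≤ a * (2 - a) := mul_nonneg h0 (by linarith)
  calc a * (2 - a) * (1 - a) ≤ 1 * 1 :=
        mul_le_mul h2 (by linarith) (by linarith) (by norm_num)
    _ = 1 := by norm_num

end PEta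

open PEta in
theorem eta_thm : StmtEta := by
  intro Ph Ps G c h1 w hw h
  have E := fun x y => explicit h1 hw h x y
  have H := fun x y => hex (E x y)
  have hz : ∀ x y : ℝ, 0 ≤ x → x ≤ 1 → 0 ≤ y → y ≤ 1 → -4 ≤ x - 4 * y ∧ x - 4 * y ≤ 1 :=
    fun x y a b c d => ⟨by linarith, by linarith⟩
  have hA : ∀ x y : ℝ, 0 ≤ x → x ≤ 1 → 0 ≤ y → y ≤ 1 →
      1 / 100 ≤ Ph.derivative.eval (x - 4 * y) + c := fun x y a b c' d =>
    h1.lo _ (hz x y a b c' d).1 (hz x y a b c' d).2
  have hD : ∀ x y : ℝ, 0 ≤ x → x ≤ 1 → 0 ≤ y → y ≤ 1 →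
      Ph.derivative.eval (x - 4 * y) ≤ -(1 / 100) := fun x y a b c' d =>
    h1.up _ (hz x y a b c' d).1 (hz x y a b c' d).2
  have hB : ∀ x y : ℝ, 0 ≤ x → x ≤ 1 → 0 ≤ y → y ≤ 1 →
      0 ≤ Ph.derivative.derivative.eval (x - 4 * y) := fun x y a b c' d =>
    h1.b0 _ (hz x y a b c' d).1 (hz x y a b c' d).2
  refine ⟨?_, ?_, ?_, ?_, ?_, ?_, ?_, ?_, ?_, ?_⟩
  · intro x y a b c' d
    rw [(H x y).h10, (H x y).h20]
    have h2 := hA x y a b c' d
    have h3 := hB x y a b c' d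
    have h4 := mul_nonneg (rr_nonneg a b) h3
    linarith
  · intro x y a b c' d
    rw [(H x y).h01, (H x y).h02]
    have h2 := hD x y a b c' d
    have h3 := hB x y a b c' d
    have h4 := mul_nonneg (rr_nonneg c' d) h3
    linarith
  · intro x y a b c' d
    rw [(H x y).h10, (H x y).h20, (H x y).h11, (H x y).h01, (H x y).h02]
    have h2 := hA x y a b c' d
    have h2' := hD x y a b c' d
    have h3 := hB x y a b c' d
    have hr1 := rr_nonneg a b
    have hr2 := rr_nonneg c' d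
    set A := Ph.derivative.eval (x - 4 * y) + c with hAdef
    set F1 := Ph.derivative.eval (x - 4 * y) with hF1
    set B := Ph.derivative.derivative.eval (x - 4 * y) with hBdef
    have p1 : 0 < A * (-F1) := mul_pos (by linarith) (by linarith)
    have p2 : 0 ≤ A * (rr y * B) := mul_nonneg (by linarith) (mul_nonneg hr2 h3)
    have p3 : 0 ≤ (-F1) * (rr x * B) := mul_nonneg (by linarith) (mul_nonneg hr1 h3)
    nlinarith [p1, p2, p3]
  · intro y c' d
    rw [(E 1 y).w10]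
    have : (1 : ℝ) - 4 * y ≤ 1 := by linarith
    nlinarith
  · intro x a b
    rw [(E x 1).w01]
    have h2 := hD x 1 a b (by norm_num) (by norm_num)
    have h3 := h1.le (x - 4 * 1) (by linarith) (by linarith)
    have hxx : x - 4 * 1 = x - 4 := by ring
    rw [hxx] at h2 h3 ⊢
    set F1 := Ph.derivative.eval (x - 4)
    set F := Ph.eval (x - 4)
    have h4 : 0 ≤ (1 - x) * (-F1) := mul_nonneg (by linarith) (by linarith)
    linarith
  · intro y c' d
    rw [(E 1 y).w11, (E 1 y).w12]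
    norm_num
  · intro x a b
    rw [(E x 1).w11, (E x 1).w21]
    have hb1 := h1.b1 (x - 4 * 1) (by linarith) (by linarith)
    have hb2 := h1.b2 (x - 4 * 1) (by linarith) (by linarith)
    have hb0 := h1.b0 (x - 4 * 1) (by linarith) (by linarith)
    have hr1 := rr_nonneg a b
    have hr2 := rr_le_one a b
    set B := Ph.derivative.derivative.eval (x - 4 * 1) with hBdef
    set B' := Ph.derivative.derivative.derivative.eval (x - 4 * 1) with hB'def
    have q1 : (1 - x) * B ≤ 1 * B := mul_le_mul_of_nonneg_right (by linarith) hb0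
    have q2 : rr x * ((1 - x) * B') ≤ 1 * (1 * B') :=
      mul_le_mul hr2 (mul_le_mul_of_nonneg_right (by linarith) hb2)
        (mul_nonneg (by linarith) hb2) (by norm_num)
    have q3 : 0 ≤ rr x * B := mul_nonneg hr1 hb0
    have e : -4 * ((1 - x) * B - 1 / 100) + rr x * (-4 * (-B + (1 - x) * B'))
        = 4 * (1 / 100 - (1 - x) * B + rr x * B - rr x * ((1 - x) * B')) := by ring
    rw [e]
    linarith
  · intro y c' d
    rw [(H 1 y).h10]
    have h2 := hA 1 y (by norm_num) (by norm_num) c' d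
    linarith
  · intro x a b
    rw [(H x 1).h01]
    have h2 := hD x 1 a b (by norm_num) (by norm_num)
    set F1 := Ph.derivative.eval (x - 4 * 1)
    linarith
  · rw [(E (1 / 2) (1 / 2)).w20, (E (1 / 2) (1 / 2)).w11, (E (1 / 2) (1 / 2)).w02]
    have e : (1 / 2 : ℝ) - 4 * (1 / 2) = -(3 / 2) := by norm_num
    rw [e, h1.bP]
    have := h1.gain
    linarith

end Lq
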