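import Pool.Agent.Lq.StP

set_option autoImplicit false

open Filter Topology

namespace Lq

namespace PFam

theorem hasDeriv_A (i a : ℕ) (x : ℝ) :
    HasDerivAt (fun s : ℝ => (i.descFactorial a : ℝ) * s ^ (i - a))
      ((i.descFactorial (a + 1) : ℝ) * x ^ (i - (a + 1))) x := by
  have h := (hasDerivAt_pow (i - a) x).const_mul (i.descFactorial a : ℝ)
  have e : (i.descFactorial (a + 1) : ℝ) * x ^ (i - (a + 1)) =
      (i.descFactorial a : ℝ) * (((i - a : ℕ) : ℝ) * x ^ (i - a - 1)) := by
    rw [Nat.descFactorial_succ, Nat.sub_sub]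
    push_cast
    ring
  rw [e]
  exact h

end PFam

theorem fam_thm : StmtFam where
  zero := by
    intro d c y1 y2
    unfold PP pol
    congr 1 <;> (funext i; simp)
  fam := by
    intro d c
    refine ⟨?_, ?_, ?_⟩
    · intro a b x y
      unfold PP JJ
      exact HasDerivAt.fun_sum fun i _ => HasDerivAt.fun_sum fun j _ =>
        ((PFam.hasDeriv_A i a x).const_mul (c i j)).mul_const _
    · intro a b x y
      unfold PP JJ
      exact HasDerivAt.fun_sum fun i _ => HasDerivAt.fun_sum fun j _ =>
        (PFam.hasDeriv_A j b y).const_mul _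
    · intro a b
      unfold PP JJ
      fun_prop

end Lq
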