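import Pool.Agent.Lq.StP

/-!
# Section 6 of PAPER.md: assembly
-/

set_option autoImplicit false

open Filter Topology

namespace Lq

theorem goodEx_of (hIsP : StmtIsP) (hFam : StmtFam) (hLeib : StmtLeib) (hOpen : StmtOpen)
    (hScale : StmtScale) (hOne : StmtOne) (hEta : StmtEta) : StmtGoodEx := by
  obtain ⟨Ph, Ps, G, c0, h1⟩ := hOne
  -- eta is a polynomial
  have hT : IsP (fun y1 _ => 1 - y1) := by
    have h := hIsP.add _ _ (hIsP.const 1) (hIsP.mul _ _ (hIsP.const (-1)) hIsP.fst)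
    refine (by simpa [sub_eq_add_neg] using h)
  have hη : IsP (fun x y => (1 - x) * Ph.eval (x - 4 * y) + Ps.eval (x - 4 * y)
      + (-(c0 / 2)) * (1 - x) ^ 2 + G.eval (x - 4 * y)) :=
    hIsP.add _ _ (hIsP.add _ _ (hIsP.add _ _ (hIsP.mul _ _ hT (hIsP.comp Ph)) (hIsP.comp Ps))
      (hIsP.mul _ _ (hIsP.const _) (hIsP.pow _ 2 hT))) (hIsP.comp G)
  obtain ⟨d1, c1, hdeg1, hc1⟩ := hη
  have hGE : GE (PP d1 c1) := by
    refine hEta Ph Ps G c0 h1 _ (hFam.fam d1 c1) ?_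
    intro x y
    rw [hFam.zero, ← hc1]
    ring
  obtain ⟨K, hK, hGG⟩ := hScale _ (hFam.fam d1 c1) hGE
  -- the scaled family
  have hW : Fam (fun a b x y => K * PP d1 c1 a b x y) := by
    refine ⟨fun a b x y => ((hFam.fam d1 c1).d1 a b x y).const_mul K,
      fun a b x y => ((hFam.fam d1 c1).d2 a b x y).const_mul K,
      fun a b => continuous_const.mul ((hFam.fam d1 c1).ct a b)⟩
  have hev := hOpen _ hW hGG
  have hlim : Tendsto (fun n : ℕ => 1 / ((n : ℝ) + 1)) atTop (𝓝 0) :=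
    tendsto_one_div_add_atTop_nhds_zero_nat
  obtain ⟨n, hn⟩ := (hlim.eventually hev).exists
  set M : ℕ := n + 1 with hM
  have hMr : 1 / ((n : ℝ) + 1) = 1 / (M : ℝ) := by rw [hM]; push_cast; ring
  rw [hMr] at hn
  obtain ⟨hGGM, hpos⟩ := hn
  -- the polynomial
  have hη1 : IsP (fun x y => PP d1 c1 0 0 x y) := ⟨d1, c1, hdeg1, fun y1 y2 => hFam.zero _ _ _ _⟩
  have hp : IsP (fun x y => (1 + (-(1 / (M : ℝ) * K)) * PP d1 c1 0 0 x y) ^ M) :=
    hIsP.pow _ M (hIsP.add _ _ (hIsP.const 1) (hIsP.mul _ _ (hIsP.const _) hη1))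
  obtain ⟨d, c, hdeg, hc⟩ := hp
  have hPP : ∀ x y : ℝ, PP d c 0 0 x y = (1 - 1 / (M : ℝ) * (K * PP d1 c1 0 0 x y)) ^ M := by
    intro x y
    rw [hFam.zero, ← hc]

    ring
  refine ⟨d, c, Th (fun a b x y => K * PP d1 c1 a b x y) (1 / (M : ℝ)), hdeg, ?_, hGGM⟩
  intro y1 y2 h1 h2 h3 h4
  have hu := hpos y1 y2 h1 h2 h3 h4
  refine ⟨?_, ?_⟩
  · rw [hPP]
    exact pow_pos hu M
  · exact hLeib (fun a b x y => K * PP d1 c1 a b x y) (PP d c) M (by omega) hW (hFam.fam d c)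
      hPP y1 y2 hu

end Lq
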