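import Pool.Agent.Lq.StP

set_option autoImplicit false

open Filter Topology

namespace Lq.PLeib

theorem uniq0 {f : ℝ → ℝ} {a x : ℝ} (hf : HasDerivAt f a x) (h : ∀ s, f s = 0) : a = 0 := by
  have h1 : f = fun _ => 0 := funext h
  rw [h1] at hf
  exact hf.unique (hasDerivAt_const x 0)

theorem A20 {w P : ℕ → ℕ → ℝ → ℝ → ℝ} {e : ℝ} (hw : Fam w) (hP : Fam P)
    (h : ∀ x y : ℝ, (1 - e * w 0 0 x y) * P 1 0 x y + (1) * (w 1 0 x y * P 0 0 x y) = 0) (x y : ℝ) :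
    (1 - e * w 0 0 x y) * P 2 0 x y + ((-1) * e) * (w 1 0 x y * P 1 0 x y) + (1) * (w 1 0 x y * P 1 0 x y) + (1) * (w 2 0 x y * P 0 0 x y) = 0 := by
  have k := uniq0 (((((hw.d1 0 0 x y).const_mul e).const_sub 1).mul (hP.d1 1 0 x y)).add (((hw.d1 1 0 x y).mul (hP.d1 0 0 x y)).const_mul (1))) (fun s => h s y)
  linear_combination k

theorem A11 {w P : ℕ → ℕ → ℝ → ℝ → ℝ} {e : ℝ} (hw : Fam w) (hP : Fam P)
    (h : ∀ x y : ℝ, (1 - e * w 0 0 x y) * P 1 0 x y + (1) * (w 1 0 x y * P 0 0 x y) = 0) (x y : ℝ) :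
    (1 - e * w 0 0 x y) * P 1 1 x y + ((-1) * e) * (w 0 1 x y * P 1 0 x y) + (1) * (w 1 0 x y * P 0 1 x y) + (1) * (w 1 1 x y * P 0 0 x y) = 0 := by
  have k := uniq0 (((((hw.d2 0 0 x y).const_mul e).const_sub 1).mul (hP.d2 1 0 x y)).add (((hw.d2 1 0 x y).mul (hP.d2 0 0 x y)).const_mul (1))) (fun s => h x s)
  linear_combination k

theorem A02 {w P : ℕ → ℕ → ℝ → ℝ → ℝ} {e : ℝ} (hw : Fam w) (hP : Fam P)
    (h : ∀ x y : ℝ, (1 - e * w 0 0 x y) * P 0 1 x y + (1) * (w 0 1 x y * P 0 0 x y) = 0) (x y : ℝ) :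
    (1 - e * w 0 0 x y) * P 0 2 x y + ((-1) * e) * (w 0 1 x y * P 0 1 x y) + (1) * (w 0 1 x y * P 0 1 x y) + (1) * (w 0 2 x y * P 0 0 x y) = 0 := by
  have k := uniq0 (((((hw.d2 0 0 x y).const_mul e).const_sub 1).mul (hP.d2 0 1 x y)).add (((hw.d2 0 1 x y).mul (hP.d2 0 0 x y)).const_mul (1))) (fun s => h x s)
  linear_combination k

theorem A30 {w P : ℕ → ℕ → ℝ → ℝ → ℝ} {e : ℝ} (hw : Fam w) (hP : Fam P)
    (h : ∀ x y : ℝ, (1 - e * w 0 0 x y) * P 2 0 x y + ((-1) * e) * (w 1 0 x y * P 1 0 x y) + (1) * (w 1 0 x y * P 1 0 x y) + (1) * (w 2 0 x y * P 0 0 x y) = 0) (x y : ℝ) :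
    (1 - e * w 0 0 x y) * P 3 0 x y + ((-2) * e) * (w 1 0 x y * P 2 0 x y) + ((-1) * e) * (w 2 0 x y * P 1 0 x y) + (1) * (w 1 0 x y * P 2 0 x y) + (2) * (w 2 0 x y * P 1 0 x y) + (1) * (w 3 0 x y * P 0 0 x y) = 0 := by
  have k := uniq0 (((((((hw.d1 0 0 x y).const_mul e).const_sub 1).mul (hP.d1 2 0 x y)).add (((hw.d1 1 0 x y).mul (hP.d1 1 0 x y)).const_mul ((-1) * e))).add (((hw.d1 1 0 x y).mul (hP.d1 1 0 x y)).const_mul (1))).add (((hw.d1 2 0 x y).mul (hP.d1 0 0 x y)).const_mul (1))) (fun s => h s y)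
  linear_combination k

theorem A21 {w P : ℕ → ℕ → ℝ → ℝ → ℝ} {e : ℝ} (hw : Fam w) (hP : Fam P)
    (h : ∀ x y : ℝ, (1 - e * w 0 0 x y) * P 2 0 x y + ((-1) * e) * (w 1 0 x y * P 1 0 x y) + (1) * (w 1 0 x y * P 1 0 x y) + (1) * (w 2 0 x y * P 0 0 x y) = 0) (x y : ℝ) :
    (1 - e * w 0 0 x y) * P 2 1 x y + ((-1) * e) * (w 0 1 x y * P 2 0 x y) + ((-1) * e) * (w 1 0 x y * P 1 1 x y) + ((-1) * e) * (w 1 1 x y * P 1 0 x y) + (1) * (w 1 0 x y * P 1 1 x y) + (1) * (w 1 1 x y * P 1 0 x y) + (1) * (w 2 0 x y * P 0 1 x y) + (1) * (w 2 1 x y * P 0 0 x y) = 0 := by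
  have k := uniq0 (((((((hw.d2 0 0 x y).const_mul e).const_sub 1).mul (hP.d2 2 0 x y)).add (((hw.d2 1 0 x y).mul (hP.d2 1 0 x y)).const_mul ((-1) * e))).add (((hw.d2 1 0 x y).mul (hP.d2 1 0 x y)).const_mul (1))).add (((hw.d2 2 0 x y).mul (hP.d2 0 0 x y)).const_mul (1))) (fun s => h x s)
  linear_combination k

theorem A12 {w P : ℕ → ℕ → ℝ → ℝ → ℝ} {e : ℝ} (hw : Fam w) (hP : Fam P)
    (h : ∀ x y : ℝ, (1 - e * w 0 0 x y) * P 1 1 x y + ((-1) * e) * (w 0 1 x y * P 1 0 x y) + (1) * (w 1 0 x y * P 0 1 x y) + (1) * (w 1 1 x y * P 0 0 x y) = 0) (x y : ℝ) :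
    (1 - e * w 0 0 x y) * P 1 2 x y + ((-2) * e) * (w 0 1 x y * P 1 1 x y) + ((-1) * e) * (w 0 2 x y * P 1 0 x y) + (1) * (w 1 0 x y * P 0 2 x y) + (2) * (w 1 1 x y * P 0 1 x y) + (1) * (w 1 2 x y * P 0 0 x y) = 0 := by
  have k := uniq0 (((((((hw.d2 0 0 x y).const_mul e).const_sub 1).mul (hP.d2 1 1 x y)).add (((hw.d2 0 1 x y).mul (hP.d2 1 0 x y)).const_mul ((-1) * e))).add (((hw.d2 1 0 x y).mul (hP.d2 0 1 x y)).const_mul (1))).add (((hw.d2 1 1 x y).mul (hP.d2 0 0 x y)).const_mul (1))) (fun s => h x s)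
  linear_combination k

theorem A03 {w P : ℕ → ℕ → ℝ → ℝ → ℝ} {e : ℝ} (hw : Fam w) (hP : Fam P)
    (h : ∀ x y : ℝ, (1 - e * w 0 0 x y) * P 0 2 x y + ((-1) * e) * (w 0 1 x y * P 0 1 x y) + (1) * (w 0 1 x y * P 0 1 x y) + (1) * (w 0 2 x y * P 0 0 x y) = 0) (x y : ℝ) :
    (1 - e * w 0 0 x y) * P 0 3 x y + ((-2) * e) * (w 0 1 x y * P 0 2 x y) + ((-1) * e) * (w 0 2 x y * P 0 1 x y) + (1) * (w 0 1 x y * P 0 2 x y) + (2) * (w 0 2 x y * P 0 1 x y) + (1) * (w 0 3 x y * P 0 0 x y) = 0 := by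
  have k := uniq0 (((((((hw.d2 0 0 x y).const_mul e).const_sub 1).mul (hP.d2 0 2 x y)).add (((hw.d2 0 1 x y).mul (hP.d2 0 1 x y)).const_mul ((-1) * e))).add (((hw.d2 0 1 x y).mul (hP.d2 0 1 x y)).const_mul (1))).add (((hw.d2 0 2 x y).mul (hP.d2 0 0 x y)).const_mul (1))) (fun s => h x s)
  linear_combination k

theorem A31 {w P : ℕ → ℕ → ℝ → ℝ → ℝ} {e : ℝ} (hw : Fam w) (hP : Fam P)
    (h : ∀ x y : ℝ, (1 - e * w 0 0 x y) * P 3 0 x y + ((-2) * e) * (w 1 0 x y * P 2 0 x y) + ((-1) * e) * (w 2 0 x y * P 1 0 x y) + (1) * (w 1 0 x y * P 2 0 x y) + (2) * (w 2 0 x y * P 1 0 x y) + (1) * (w 3 0 x y * P 0 0 x y) = 0) (x y : ℝ) :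
    (1 - e * w 0 0 x y) * P 3 1 x y + ((-1) * e) * (w 0 1 x y * P 3 0 x y) + ((-2) * e) * (w 1 0 x y * P 2 1 x y) + ((-2) * e) * (w 1 1 x y * P 2 0 x y) + ((-1) * e) * (w 2 0 x y * P 1 1 x y) + ((-1) * e) * (w 2 1 x y * P 1 0 x y) + (1) * (w 1 0 x y * P 2 1 x y) + (1) * (w 1 1 x y * P 2 0 x y) + (2) * (w 2 0 x y * P 1 1 x y) + (2) * (w 2 1 x y * P 1 0 x y) + (1) * (w 3 0 x y * P 0 1 x y) + (1) * (w 3 1 x y * P 0 0 x y) = 0 := by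
  have k := uniq0 (((((((((hw.d2 0 0 x y).const_mul e).const_sub 1).mul (hP.d2 3 0 x y)).add (((hw.d2 1 0 x y).mul (hP.d2 2 0 x y)).const_mul ((-2) * e))).add (((hw.d2 2 0 x y).mul (hP.d2 1 0 x y)).const_mul ((-1) * e))).add (((hw.d2 1 0 x y).mul (hP.d2 2 0 x y)).const_mul (1))).add (((hw.d2 2 0 x y).mul (hP.d2 1 0 x y)).const_mul (2))).add (((hw.d2 3 0 x y).mul (hP.d2 0 0 x y)).const_mul (1))) (fun s => h x s)
  linear_combination k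

theorem A22 {w P : ℕ → ℕ → ℝ → ℝ → ℝ} {e : ℝ} (hw : Fam w) (hP : Fam P)
    (h : ∀ x y : ℝ, (1 - e * w 0 0 x y) * P 2 1 x y + ((-1) * e) * (w 0 1 x y * P 2 0 x y) + ((-1) * e) * (w 1 0 x y * P 1 1 x y) + ((-1) * e) * (w 1 1 x y * P 1 0 x y) + (1) * (w 1 0 x y * P 1 1 x y) + (1) * (w 1 1 x y * P 1 0 x y) + (1) * (w 2 0 x y * P 0 1 x y) + (1) * (w 2 1 x y * P 0 0 x y) = 0) (x y : ℝ) :
    (1 - e * w 0 0 x y) * P 2 2 x y + ((-2) * e) * (w 0 1 x y * P 2 1 x y) + ((-1) * e) * (w 0 2 x y * P 2 0 x y) + ((-1) * e) * (w 1 0 x y * P 1 2 x y) + ((-2) * e) * (w 1 1 x y * P 1 1 x y) + ((-1) * e) * (w 1 2 x y * P 1 0 x y) + (1) * (w 1 0 x y * P 1 2 x y) + (2) * (w 1 1 x y * P 1 1 x y) + (1) * (w 1 2 x y * P 1 0 x y) + (1) * (w 2 0 x y * P 0 2 x y) + (2) * (w 2 1 x y * P 0 1 x y) + (1) * (w 2 2 x y * P 0 0 x y) = 0 := by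
  have k := uniq0 (((((((((((hw.d2 0 0 x y).const_mul e).const_sub 1).mul (hP.d2 2 1 x y)).add (((hw.d2 0 1 x y).mul (hP.d2 2 0 x y)).const_mul ((-1) * e))).add (((hw.d2 1 0 x y).mul (hP.d2 1 1 x y)).const_mul ((-1) * e))).add (((hw.d2 1 1 x y).mul (hP.d2 1 0 x y)).const_mul ((-1) * e))).add (((hw.d2 1 0 x y).mul (hP.d2 1 1 x y)).const_mul (1))).add (((hw.d2 1 1 x y).mul (hP.d2 1 0 x y)).const_mul (1))).add (((hw.d2 2 0 x y).mul (hP.d2 0 1 x y)).const_mul (1))).add (((hw.d2 2 1 x y).mul (hP.d2 0 0 x y)).const_mul (1))) (fun s => h x s)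
  linear_combination k

theorem A13 {w P : ℕ → ℕ → ℝ → ℝ → ℝ} {e : ℝ} (hw : Fam w) (hP : Fam P)
    (h : ∀ x y : ℝ, (1 - e * w 0 0 x y) * P 1 2 x y + ((-2) * e) * (w 0 1 x y * P 1 1 x y) + ((-1) * e) * (w 0 2 x y * P 1 0 x y) + (1) * (w 1 0 x y * P 0 2 x y) + (2) * (w 1 1 x y * P 0 1 x y) + (1) * (w 1 2 x y * P 0 0 x y) = 0) (x y : ℝ) :
    (1 - e * w 0 0 x y) * P 1 3 x y + ((-3) * e) * (w 0 1 x y * P 1 2 x y) + ((-3) * e) * (w 0 2 x y * P 1 1 x y) + ((-1) * e) * (w 0 3 x y * P 1 0 x y) + (1) * (w 1 0 x y * P 0 3 x y) + (3) * (w 1 1 x y * P 0 2 x y) + (3) * (w 1 2 x y * P 0 1 x y) + (1) * (w 1 3 x y * P 0 0 x y) = 0 := by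
  have k := uniq0 (((((((((hw.d2 0 0 x y).const_mul e).const_sub 1).mul (hP.d2 1 2 x y)).add (((hw.d2 0 1 x y).mul (hP.d2 1 1 x y)).const_mul ((-2) * e))).add (((hw.d2 0 2 x y).mul (hP.d2 1 0 x y)).const_mul ((-1) * e))).add (((hw.d2 1 0 x y).mul (hP.d2 0 2 x y)).const_mul (1))).add (((hw.d2 1 1 x y).mul (hP.d2 0 1 x y)).const_mul (2))).add (((hw.d2 1 2 x y).mul (hP.d2 0 0 x y)).const_mul (1))) (fun s => h x s)
  linear_combination k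

theorem T10 {w : ℕ → ℕ → ℝ → ℝ → ℝ} {e x y : ℝ} (hu : (1 - e * w 0 0 x y) * vv w e x y = 1) :
    (1 - e * w 0 0 x y) * Th w e 1 0 x y = w 1 0 x y := by
  have h : Th w e 1 0 x y = th10 w e x y := rfl
  simp only [Th]
  unfold th10
  linear_combination (w 1 0 x y) * hu

theorem T01 {w : ℕ → ℕ → ℝ → ℝ → ℝ} {e x y : ℝ} (hu : (1 - e * w 0 0 x y) * vv w e x y = 1) :
    (1 - e * w 0 0 x y) * Th w e 0 1 x y = w 0 1 x y := by
  have h : Th w e 0 1 x y = th01 w e x y := rfl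
  simp only [Th]
  unfold th01
  linear_combination (w 0 1 x y) * hu

theorem T20 {w : ℕ → ℕ → ℝ → ℝ → ℝ} {e x y : ℝ} (hu : (1 - e * w 0 0 x y) * vv w e x y = 1) :
    (1 - e * w 0 0 x y) * Th w e 2 0 x y = w 2 0 x y + (1 : ℝ) * e * (w 1 0 x y * Th w e 1 0 x y) := by
  have h : Th w e 2 0 x y = th20 w e x y := rfl
  simp only [Th]
  unfold th20
  linear_combination (w 2 0 x y+(1:ℝ) * e * (w 1 0 x y * th10 w e x y)) * hu

theorem T11 {w : ℕ → ℕ → ℝ → ℝ → ℝ} {e x y : ℝ} (hu : (1 - e * w 0 0 x y) * vv w e x y = 1) :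
    (1 - e * w 0 0 x y) * Th w e 1 1 x y = w 1 1 x y + (1 : ℝ) * e * (w 0 1 x y * Th w e 1 0 x y) := by
  have h : Th w e 1 1 x y = th11 w e x y := rfl
  simp only [Th]
  unfold th11
  linear_combination (w 1 1 x y+(1:ℝ) * e * (w 0 1 x y * th10 w e x y)) * hu

theorem T02 {w : ℕ → ℕ → ℝ → ℝ → ℝ} {e x y : ℝ} (hu : (1 - e * w 0 0 x y) * vv w e x y = 1) :
    (1 - e * w 0 0 x y) * Th w e 0 2 x y = w 0 2 x y + (1 : ℝ) * e * (w 0 1 x y * Th w e 0 1 x y) := by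
  have h : Th w e 0 2 x y = th02 w e x y := rfl
  simp only [Th]
  unfold th02
  linear_combination (w 0 2 x y+(1:ℝ) * e * (w 0 1 x y * th01 w e x y)) * hu

theorem T30 {w : ℕ → ℕ → ℝ → ℝ → ℝ} {e x y : ℝ} (hu : (1 - e * w 0 0 x y) * vv w e x y = 1) :
    (1 - e * w 0 0 x y) * Th w e 3 0 x y = w 3 0 x y + (2 : ℝ) * e * (w 1 0 x y * Th w e 2 0 x y) + (1 : ℝ) * e * (w 2 0 x y * Th w e 1 0 x y) := by
  have h : Th w e 3 0 x y = th30 w e x y := rfl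
  simp only [Th]
  unfold th30
  linear_combination (w 3 0 x y+(2:ℝ) * e * (w 1 0 x y * th20 w e x y)+(1:ℝ) * e * (w 2 0 x y * th10 w e x y)) * hu

theorem T21 {w : ℕ → ℕ → ℝ → ℝ → ℝ} {e x y : ℝ} (hu : (1 - e * w 0 0 x y) * vv w e x y = 1) :
    (1 - e * w 0 0 x y) * Th w e 2 1 x y = w 2 1 x y + (1 : ℝ) * e * (w 0 1 x y * Th w e 2 0 x y) + (1 : ℝ) * e * (w 1 0 x y * Th w e 1 1 x y) + (1 : ℝ) * e * (w 1 1 x y * Th w e 1 0 x y) := by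
  have h : Th w e 2 1 x y = th21 w e x y := rfl
  simp only [Th]
  unfold th21
  linear_combination (w 2 1 x y+(1:ℝ) * e * (w 0 1 x y * th20 w e x y)+(1:ℝ) * e * (w 1 0 x y * th11 w e x y)+(1:ℝ) * e * (w 1 1 x y * th10 w e x y)) * hu

theorem T12 {w : ℕ → ℕ → ℝ → ℝ → ℝ} {e x y : ℝ} (hu : (1 - e * w 0 0 x y) * vv w e x y = 1) :
    (1 - e * w 0 0 x y) * Th w e 1 2 x y = w 1 2 x y + (2 : ℝ) * e * (w 0 1 x y * Th w e 1 1 x y) + (1 : ℝ) * e * (w 0 2 x y * Th w e 1 0 x y) := by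
  have h : Th w e 1 2 x y = th12 w e x y := rfl
  simp only [Th]
  unfold th12
  linear_combination (w 1 2 x y+(2:ℝ) * e * (w 0 1 x y * th11 w e x y)+(1:ℝ) * e * (w 0 2 x y * th10 w e x y)) * hu

theorem T03 {w : ℕ → ℕ → ℝ → ℝ → ℝ} {e x y : ℝ} (hu : (1 - e * w 0 0 x y) * vv w e x y = 1) :
    (1 - e * w 0 0 x y) * Th w e 0 3 x y = w 0 3 x y + (2 : ℝ) * e * (w 0 1 x y * Th w e 0 2 x y) + (1 : ℝ) * e * (w 0 2 x y * Th w e 0 1 x y) := by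
  have h : Th w e 0 3 x y = th03 w e x y := rfl
  simp only [Th]
  unfold th03
  linear_combination (w 0 3 x y+(2:ℝ) * e * (w 0 1 x y * th02 w e x y)+(1:ℝ) * e * (w 0 2 x y * th01 w e x y)) * hu

theorem T31 {w : ℕ → ℕ → ℝ → ℝ → ℝ} {e x y : ℝ} (hu : (1 - e * w 0 0 x y) * vv w e x y = 1) :
    (1 - e * w 0 0 x y) * Th w e 3 1 x y = w 3 1 x y + (1 : ℝ) * e * (w 0 1 x y * Th w e 3 0 x y) + (2 : ℝ) * e * (w 1 0 x y * Th w e 2 1 x y) + (2 : ℝ) * e * (w 1 1 x y * Th w e 2 0 x y) + (1 : ℝ) * e * (w 2 0 x y * Th w e 1 1 x y) + (1 : ℝ) * e * (w 2 1 x y * Th w e 1 0 x y) := by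
  have h : Th w e 3 1 x y = th31 w e x y := rfl
  simp only [Th]
  unfold th31
  linear_combination (w 3 1 x y+(1:ℝ) * e * (w 0 1 x y * th30 w e x y)+(2:ℝ) * e * (w 1 0 x y * th21 w e x y)+(2:ℝ) * e * (w 1 1 x y * th20 w e x y)+(1:ℝ) * e * (w 2 0 x y * th11 w e x y)+(1:ℝ) * e * (w 2 1 x y * th10 w e x y)) * hu

theorem T22 {w : ℕ → ℕ → ℝ → ℝ → ℝ} {e x y : ℝ} (hu : (1 - e * w 0 0 x y) * vv w e x y = 1) :
    (1 - e * w 0 0 x y) * Th w e 2 2 x y = w 2 2 x y + (2 : ℝ) * e * (w 0 1 x y * Th w e 2 1 x y) + (1 : ℝ) * e * (w 0 2 x y * Th w e 2 0 x y) + (1 : ℝ) * e * (w 1 0 x y * Th w e 1 2 x y) + (2 : ℝ) * e * (w 1 1 x y * Th w e 1 1 x y) + (1 : ℝ) * e * (w 1 2 x y * Th w e 1 0 x y) := by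
  have h : Th w e 2 2 x y = th22 w e x y := rfl
  simp only [Th]
  unfold th22
  linear_combination (w 2 2 x y+(2:ℝ) * e * (w 0 1 x y * th21 w e x y)+(1:ℝ) * e * (w 0 2 x y * th20 w e x y)+(1:ℝ) * e * (w 1 0 x y * th12 w e x y)+(2:ℝ) * e * (w 1 1 x y * th11 w e x y)+(1:ℝ) * e * (w 1 2 x y * th10 w e x y)) * hu

theorem T13 {w : ℕ → ℕ → ℝ → ℝ → ℝ} {e x y : ℝ} (hu : (1 - e * w 0 0 x y) * vv w e x y = 1) :
    (1 - e * w 0 0 x y) * Th w e 1 3 x y = w 1 3 x y + (3 : ℝ) * e * (w 0 1 x y * Th w e 1 2 x y) + (3 : ℝ) * e * (w 0 2 x y * Th w e 1 1 x y) + (1 : ℝ) * e * (w 0 3 x y * Th w e 1 0 x y) := by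
  have h : Th w e 1 3 x y = th13 w e x y := rfl
  simp only [Th]
  unfold th13
  linear_combination (w 1 3 x y+(3:ℝ) * e * (w 0 1 x y * th12 w e x y)+(3:ℝ) * e * (w 0 2 x y * th11 w e x y)+(1:ℝ) * e * (w 0 3 x y * th10 w e x y)) * hu

theorem base {w P : ℕ → ℕ → ℝ → ℝ → ℝ} {M : ℕ} (hM : 1 ≤ M) {u f p g : ℝ → ℝ} {x a b : ℝ}
    (hu : ∀ s, u s = 1 - 1 / (M : ℝ) * f s) (hp : ∀ s, p s = u s ^ M)
    (hf : HasDerivAt f a x) (hpd : HasDerivAt p b x) : u x * b = -(a * p x) := by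
  have hM0 : (M : ℝ) ≠ 0 := by positivity
  have h1 : HasDerivAt u (-(1 / (M : ℝ) * a)) x := by
    have h2 : u = fun s => 1 - 1 / (M : ℝ) * f s := funext hu
    rw [h2]
    exact (hf.const_mul (1 / (M : ℝ))).const_sub 1
  have h3 : HasDerivAt p ((M : ℝ) * u x ^ (M - 1) * (-(1 / (M : ℝ) * a))) x := by
    have h2 : p = fun s => u s ^ M := funext hp
    rw [h2]
    exact h1.pow M
  have h4 := hpd.unique h3
  rw [h4, hp x]
  obtain ⟨m, rfl⟩ : ∃ m, M = m + 1 := ⟨M - 1, by omega⟩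
  rw [Nat.add_sub_cancel, pow_succ]
  field_simp

end Lq.PLeib

namespace Lq

open PLeib in
theorem leib_thm : StmtLeib := by
  intro w P M hM hw hP hpow x y hu
  set e : ℝ := 1 / (M : ℝ) with he
  have a10 : ∀ x y : ℝ, (1 - e * w 0 0 x y) * P 1 0 x y + (1) * (w 1 0 x y * P 0 0 x y) = 0 := by
    intro x y
    have h := base (w := w) (P := P) hM (u := fun s => 1 - 1 / (M : ℝ) * w 0 0 s y) (f := fun s => w 0 0 s y)
      (p := fun s => P 0 0 s y) (g := fun s => s) (x := x) (fun s => rfl) (fun s => hpow s y)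
      (hw.d1 0 0 x y) (hP.d1 0 0 x y)
    rw [← he] at h
    linear_combination h
  have a01 : ∀ x y : ℝ, (1 - e * w 0 0 x y) * P 0 1 x y + (1) * (w 0 1 x y * P 0 0 x y) = 0 := by
    intro x y
    have h := base (w := w) (P := P) hM (u := fun s => 1 - 1 / (M : ℝ) * w 0 0 x s) (f := fun s => w 0 0 x s)
      (p := fun s => P 0 0 x s) (g := fun s => s) (x := y) (fun s => rfl) (fun s => hpow x s)
      (hw.d2 0 0 x y) (hP.d2 0 0 x y)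
    rw [← he] at h
    linear_combination h
  have a20 := A20 (e := e) hw hP a10
  have a11 := A11 (e := e) hw hP a10
  have a02 := A02 (e := e) hw hP a01
  have a30 := A30 (e := e) hw hP a20
  have a21 := A21 (e := e) hw hP a20
  have a12 := A12 (e := e) hw hP a11
  have a03 := A03 (e := e) hw hP a02
  have a31 := A31 (e := e) hw hP a30
  have a22 := A22 (e := e) hw hP a21
  have a13 := A13 (e := e) hw hP a12
  have hv : (1 - e * w 0 0 x y) * vv w e x y = 1 := by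
    unfold vv
    exact mul_inv_cancel₀ hu.ne'
  have t10 := T10 (w := w) (e := e) (x := x) (y := y) hv
  have t01 := T01 (w := w) (e := e) (x := x) (y := y) hv
  have t20 := T20 (w := w) (e := e) (x := x) (y := y) hv
  have t11 := T11 (w := w) (e := e) (x := x) (y := y) hv
  have t02 := T02 (w := w) (e := e) (x := x) (y := y) hv
  have t30 := T30 (w := w) (e := e) (x := x) (y := y) hv
  have t21 := T21 (w := w) (e := e) (x := x) (y := y) hv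
  have t12 := T12 (w := w) (e := e) (x := x) (y := y) hv
  have t03 := T03 (w := w) (e := e) (x := x) (y := y) hv
  have t31 := T31 (w := w) (e := e) (x := x) (y := y) hv
  have t22 := T22 (w := w) (e := e) (x := x) (y := y) hv
  have t13 := T13 (w := w) (e := e) (x := x) (y := y) hv
  have r10 : P 1 0 x y = -(Th w e 1 0 x y * P 0 0 x y) := by
    apply mul_left_cancel₀ hu.ne'
    linear_combination a10 x y + (1 : ℝ) * P 0 0 x y * t10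
  have r01 : P 0 1 x y = -(Th w e 0 1 x y * P 0 0 x y) := by
    apply mul_left_cancel₀ hu.ne'
    linear_combination a01 x y + (1 : ℝ) * P 0 0 x y * t01
  have r20 : P 2 0 x y = -(Th w e 1 0 x y * P 1 0 x y + Th w e 2 0 x y * P 0 0 x y) := by
    apply mul_left_cancel₀ hu.ne'
    linear_combination a20 x y + (1 : ℝ) * P 1 0 x y * t10 + (1 : ℝ) * P 0 0 x y * t20 + (1 : ℝ) * e * w 1 0 x y * r10
  have r11 : P 1 1 x y = -(Th w e 1 0 x y * P 0 1 x y + Th w e 1 1 x y * P 0 0 x y) := by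
    apply mul_left_cancel₀ hu.ne'
    linear_combination a11 x y + (1 : ℝ) * P 0 1 x y * t10 + (1 : ℝ) * P 0 0 x y * t11 + (1 : ℝ) * e * w 0 1 x y * r10
  have r02 : P 0 2 x y = -(Th w e 0 1 x y * P 0 1 x y + Th w e 0 2 x y * P 0 0 x y) := by
    apply mul_left_cancel₀ hu.ne'
    linear_combination a02 x y + (1 : ℝ) * P 0 1 x y * t01 + (1 : ℝ) * P 0 0 x y * t02 + (1 : ℝ) * e * w 0 1 x y * r01
  have r30 : P 3 0 x y = -(Th w e 1 0 x y * P 2 0 x y + 2 * (Th w e 2 0 x y * P 1 0 x y) + Th w e 3 0 x y * P 0 0 x y) := by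
    apply mul_left_cancel₀ hu.ne'
    linear_combination a30 x y + (1 : ℝ) * P 2 0 x y * t10 + (2 : ℝ) * P 1 0 x y * t20 + (1 : ℝ) * P 0 0 x y * t30 + (2 : ℝ) * e * w 1 0 x y * r20 + (1 : ℝ) * e * w 2 0 x y * r10
  have r21 : P 2 1 x y = -(Th w e 1 0 x y * P 1 1 x y + Th w e 1 1 x y * P 1 0 x y + Th w e 2 0 x y * P 0 1 x y + Th w e 2 1 x y * P 0 0 x y) := by
    apply mul_left_cancel₀ hu.ne'
    linear_combination a21 x y + (1 : ℝ) * P 1 1 x y * t10 + (1 : ℝ) * P 1 0 x y * t11 + (1 : ℝ) * P 0 1 x y * t20 + (1 : ℝ) * P 0 0 x y * t21 + (1 : ℝ) * e * w 0 1 x y * r20 + (1 : ℝ) * e * w 1 0 x y * r11 + (1 : ℝ) * e * w 1 1 x y * r10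
  have r12 : P 1 2 x y = -(Th w e 1 0 x y * P 0 2 x y + 2 * (Th w e 1 1 x y * P 0 1 x y) + Th w e 1 2 x y * P 0 0 x y) := by
    apply mul_left_cancel₀ hu.ne'
    linear_combination a12 x y + (1 : ℝ) * P 0 2 x y * t10 + (2 : ℝ) * P 0 1 x y * t11 + (1 : ℝ) * P 0 0 x y * t12 + (2 : ℝ) * e * w 0 1 x y * r11 + (1 : ℝ) * e * w 0 2 x y * r10
  have r03 : P 0 3 x y = -(Th w e 0 1 x y * P 0 2 x y + 2 * (Th w e 0 2 x y * P 0 1 x y) + Th w e 0 3 x y * P 0 0 x y) := by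
    apply mul_left_cancel₀ hu.ne'
    linear_combination a03 x y + (1 : ℝ) * P 0 2 x y * t01 + (2 : ℝ) * P 0 1 x y * t02 + (1 : ℝ) * P 0 0 x y * t03 + (2 : ℝ) * e * w 0 1 x y * r02 + (1 : ℝ) * e * w 0 2 x y * r01
  have r31 : P 3 1 x y = -(Th w e 1 0 x y * P 2 1 x y + Th w e 1 1 x y * P 2 0 x y + 2 * (Th w e 2 0 x y * P 1 1 x y) + 2 * (Th w e 2 1 x y * P 1 0 x y) + Th w e 3 0 x y * P 0 1 x y + Th w e 3 1 x y * P 0 0 x y) := by
    apply mul_left_cancel₀ hu.ne'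
    linear_combination a31 x y + (1 : ℝ) * P 2 1 x y * t10 + (1 : ℝ) * P 2 0 x y * t11 + (2 : ℝ) * P 1 1 x y * t20 + (2 : ℝ) * P 1 0 x y * t21 + (1 : ℝ) * P 0 1 x y * t30 + (1 : ℝ) * P 0 0 x y * t31 + (1 : ℝ) * e * w 0 1 x y * r30 + (2 : ℝ) * e * w 1 0 x y * r21 + (2 : ℝ) * e * w 1 1 x y * r20 + (1 : ℝ) * e * w 2 0 x y * r11 + (1 : ℝ) * e * w 2 1 x y * r10
  have r22 : P 2 2 x y = -(Th w e 1 0 x y * P 1 2 x y + 2 * (Th w e 1 1 x y * P 1 1 x y) + Th w e 1 2 x y * P 1 0 x y + Th w e 2 0 x y * P 0 2 x y + 2 * (Th w e 2 1 x y * P 0 1 x y) + Th w e 2 2 x y * P 0 0 x y) := by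
    apply mul_left_cancel₀ hu.ne'
    linear_combination a22 x y + (1 : ℝ) * P 1 2 x y * t10 + (2 : ℝ) * P 1 1 x y * t11 + (1 : ℝ) * P 1 0 x y * t12 + (1 : ℝ) * P 0 2 x y * t20 + (2 : ℝ) * P 0 1 x y * t21 + (1 : ℝ) * P 0 0 x y * t22 + (2 : ℝ) * e * w 0 1 x y * r21 + (1 : ℝ) * e * w 0 2 x y * r20 + (1 : ℝ) * e * w 1 0 x y * r12 + (2 : ℝ) * e * w 1 1 x y * r11 + (1 : ℝ) * e * w 1 2 x y * r10
  have r13 : P 1 3 x y = -(Th w e 1 0 x y * P 0 3 x y + 3 * (Th w e 1 1 x y * P 0 2 x y) + 3 * (Th w e 1 2 x y * P 0 1 x y) + Th w e 1 3 x y * P 0 0 x y) := by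
    apply mul_left_cancel₀ hu.ne'
    linear_combination a13 x y + (1 : ℝ) * P 0 3 x y * t10 + (3 : ℝ) * P 0 2 x y * t11 + (3 : ℝ) * P 0 1 x y * t12 + (1 : ℝ) * P 0 0 x y * t13 + (3 : ℝ) * e * w 0 1 x y * r12 + (3 : ℝ) * e * w 0 2 x y * r11 + (1 : ℝ) * e * w 0 3 x y * r10
  constructor
  · linear_combination r10
  · linear_combination r01
  · linear_combination r20
  · linear_combination r11
  · linear_combination r02
  · linear_combination r30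
  · linear_combination r21
  · linear_combination r12
  · linear_combination r03
  · linear_combination r31
  · linear_combination r22
  · linear_combination r13

end Lq
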