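import Pool.Agent.Lq.StP

/-!
# Module LQP_LIM: openness of the conditions
-/

set_option autoImplicit false

open Filter Topology

namespace Lq

namespace PLim

/-- continuity at `δ = 0` -/
def Cc (f : ℝ → ℝ → ℝ → ℝ) : Prop :=
  ∀ p : ℝ × ℝ, ContinuousAt (fun q : ℝ × (ℝ × ℝ) => f q.1 q.2.1 q.2.2) ((0 : ℝ), p)

theorem Cc.add {f g : ℝ → ℝ → ℝ → ℝ} (hf : Cc f) (hg : Cc g) :
    Cc (fun δ x y => f δ x y + g δ x y) := fun p => (hf p).add (hg p)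

theorem Cc.sub {f g : ℝ → ℝ → ℝ → ℝ} (hf : Cc f) (hg : Cc g) :
    Cc (fun δ x y => f δ x y - g δ x y) := fun p => (hf p).sub (hg p)

theorem Cc.mul {f g : ℝ → ℝ → ℝ → ℝ} (hf : Cc f) (hg : Cc g) :
    Cc (fun δ x y => f δ x y * g δ x y) := fun p => (hf p).mul (hg p)

theorem Cc.neg {f : ℝ → ℝ → ℝ → ℝ} (hf : Cc f) : Cc (fun δ x y => -f δ x y) := fun p => (hf p).neg

theorem Cc.pow {f : ℝ → ℝ → ℝ → ℝ} (hf : Cc f) (n : ℕ) : Cc (fun δ x y => f δ x y ^ n) :=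
  fun p => (hf p).pow n

theorem Cc.const (r : ℝ) : Cc (fun _ _ _ => r) := fun _ => continuousAt_const

theorem Cc.del : Cc (fun δ _ _ => δ) := fun _ => continuous_fst.continuousAt

theorem continuous_rr : Continuous rr := by
  unfold rr
  apply Continuous.if_le
  · fun_prop
  · fun_prop
  · fun_prop
  · fun_prop
  · intro a ha
    rw [ha]; norm_num

theorem Cc.rr1 : Cc (fun _ x _ => rr x) := fun _ =>
  (continuous_rr.comp (continuous_fst.comp continuous_snd)).continuousAt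

theorem Cc.rr2 : Cc (fun _ _ y => rr y) := fun _ =>
  (continuous_rr.comp (continuous_snd.comp continuous_snd)).continuousAt

section

variable {w : ℕ → ℕ → ℝ → ℝ → ℝ} (hw : Fam w)

include hw

theorem cw (a b : ℕ) : Cc (fun _ x y => w a b x y) := fun _ =>
  ((hw.ct a b).comp continuous_snd).continuousAt

theorem cvv : Cc (fun δ x y => vv w δ x y) := by
  intro p
  unfold vv
  apply ContinuousAt.inv₀
  · exact ((Cc.const 1).sub (Cc.del.mul (cw hw 0 0))) p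
  · simp

theorem c10 : Cc (fun δ x y => th10 w δ x y) := (cvv hw).mul (cw hw 1 0)
theorem c01 : Cc (fun δ x y => th01 w δ x y) := (cvv hw).mul (cw hw 0 1)
theorem c20 : Cc (fun δ x y => th20 w δ x y) :=
  (cvv hw).mul ((cw hw 2 0).add (Cc.del.mul ((cw hw 1 0).mul (c10 hw))))
theorem c11 : Cc (fun δ x y => th11 w δ x y) :=
  (cvv hw).mul ((cw hw 1 1).add (Cc.del.mul ((cw hw 0 1).mul (c10 hw))))
theorem c02 : Cc (fun δ x y => th02 w δ x y) :=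
  (cvv hw).mul ((cw hw 0 2).add (Cc.del.mul ((cw hw 0 1).mul (c01 hw))))
theorem c30 : Cc (fun δ x y => th30 w δ x y) :=
  (cvv hw).mul ((cw hw 3 0).add (Cc.del.mul (((cw hw 2 0).mul (c10 hw)).add
    ((Cc.const 2).mul ((cw hw 1 0).mul (c20 hw))))))
theorem c21 : Cc (fun δ x y => th21 w δ x y) :=
  (cvv hw).mul ((cw hw 2 1).add (Cc.del.mul ((((cw hw 1 1).mul (c10 hw)).add
    ((cw hw 1 0).mul (c11 hw))).add ((cw hw 0 1).mul (c20 hw)))))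
theorem c12 : Cc (fun δ x y => th12 w δ x y) :=
  (cvv hw).mul ((cw hw 1 2).add (Cc.del.mul (((cw hw 0 2).mul (c10 hw)).add
    ((Cc.const 2).mul ((cw hw 0 1).mul (c11 hw))))))
theorem c03 : Cc (fun δ x y => th03 w δ x y) :=
  (cvv hw).mul ((cw hw 0 3).add (Cc.del.mul (((cw hw 0 2).mul (c01 hw)).add
    ((Cc.const 2).mul ((cw hw 0 1).mul (c02 hw))))))
theorem c31 : Cc (fun δ x y => th31 w δ x y) :=
  (cvv hw).mul ((cw hw 3 1).add (Cc.del.mul ((((((cw hw 2 1).mul (c10 hw)).add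
    ((cw hw 2 0).mul (c11 hw))).add ((Cc.const 2).mul ((cw hw 1 1).mul (c20 hw)))).add
    ((Cc.const 2).mul ((cw hw 1 0).mul (c21 hw)))).add ((cw hw 0 1).mul (c30 hw)))))
theorem c22 : Cc (fun δ x y => th22 w δ x y) :=
  (cvv hw).mul ((cw hw 2 2).add (Cc.del.mul ((((((cw hw 1 2).mul (c10 hw)).add
    ((Cc.const 2).mul ((cw hw 1 1).mul (c11 hw)))).add ((cw hw 1 0).mul (c12 hw))).add
    ((cw hw 0 2).mul (c20 hw))).add ((Cc.const 2).mul ((cw hw 0 1).mul (c21 hw))))))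
theorem c13 : Cc (fun δ x y => th13 w δ x y) :=
  (cvv hw).mul ((cw hw 1 3).add (Cc.del.mul ((((cw hw 0 3).mul (c10 hw)).add
    ((Cc.const 3).mul ((cw hw 0 2).mul (c11 hw)))).add
    ((Cc.const 3).mul ((cw hw 0 1).mul (c12 hw))))))

theorem cTh (a b : ℕ) : Cc (fun δ x y => Th w δ a b x y) := by
  rcases a with _ | _ | _ | _ | a <;> rcases b with _ | _ | _ | _ | b
  · exact Cc.const 0
  · exact c01 hw
  · exact c02 hw
  · exact c03 hw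
  · exact Cc.const 0
  · exact c10 hw
  · exact c11 hw
  · exact c12 hw
  · exact c13 hw
  · exact Cc.const 0
  · exact c20 hw
  · exact c21 hw
  · exact c22 hw
  · exact Cc.const 0
  · exact Cc.const 0
  · exact c30 hw
  · exact c31 hw
  · exact Cc.const 0
  · exact Cc.const 0
  · exact Cc.const 0
  · exact Cc.const 0
  · exact Cc.const 0
  · exact Cc.const 0
  · exact Cc.const 0
  · exact Cc.const 0

theorem cH (a b : ℕ) : Cc (fun δ x y => Hf (Th w δ) a b x y) := by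
  have h : Cc (fun δ x y => -(Th w δ (a + 1) b x y + Th w δ a (b + 1) x y * (1 / 4))) :=
    ((cTh hw (a + 1) b).add ((cTh hw a (b + 1)).mul (Cc.const (1 / 4)))).neg
  intro p
  have h2 := h p
  simp only [mul_one_div] at h2
  exact h2

end

theorem z10 (w : ℕ → ℕ → ℝ → ℝ → ℝ) (x y : ℝ) : Th w 0 1 0 x y = w 1 0 x y := by
  simp [Th, th10, vv]
theorem z01 (w : ℕ → ℕ → ℝ → ℝ → ℝ) (x y : ℝ) : Th w 0 0 1 x y = w 0 1 x y := by
  simp [Th, th01, vv]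
theorem z20 (w : ℕ → ℕ → ℝ → ℝ → ℝ) (x y : ℝ) : Th w 0 2 0 x y = w 2 0 x y := by
  simp [Th, th20, vv]
theorem z11 (w : ℕ → ℕ → ℝ → ℝ → ℝ) (x y : ℝ) : Th w 0 1 1 x y = w 1 1 x y := by
  simp [Th, th11, vv]
theorem z02 (w : ℕ → ℕ → ℝ → ℝ → ℝ) (x y : ℝ) : Th w 0 0 2 x y = w 0 2 x y := by
  simp [Th, th02, vv]
theorem z30 (w : ℕ → ℕ → ℝ → ℝ → ℝ) (x y : ℝ) : Th w 0 3 0 x y = w 3 0 x y := by
  simp [Th, th30, vv]
theorem z21 (w : ℕ → ℕ → ℝ → ℝ → ℝ) (x y : ℝ) : Th w 0 2 1 x y = w 2 1 x y := by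
  simp [Th, th21, vv]
theorem z12 (w : ℕ → ℕ → ℝ → ℝ → ℝ) (x y : ℝ) : Th w 0 1 2 x y = w 1 2 x y := by
  simp [Th, th12, vv]
theorem z03 (w : ℕ → ℕ → ℝ → ℝ → ℝ) (x y : ℝ) : Th w 0 0 3 x y = w 0 3 x y := by
  simp [Th, th03, vv]
theorem z31 (w : ℕ → ℕ → ℝ → ℝ → ℝ) (x y : ℝ) : Th w 0 3 1 x y = w 3 1 x y := by
  simp [Th, th31, vv]
theorem z22 (w : ℕ → ℕ → ℝ → ℝ → ℝ) (x y : ℝ) : Th w 0 2 2 x y = w 2 2 x y := by
  simp [Th, th22, vv]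
theorem z13 (w : ℕ → ℕ → ℝ → ℝ → ℝ) (x y : ℝ) : Th w 0 1 3 x y = w 1 3 x y := by
  simp [Th, th13, vv]

theorem h10 (w : ℕ → ℕ → ℝ → ℝ → ℝ) (x y : ℝ) : Hf (Th w 0) 1 0 x y = Hf w 1 0 x y := by
  show -(Th w 0 2 0 x y + Th w 0 1 1 x y / 4) = -(w 2 0 x y + w 1 1 x y / 4)
  rw [z20, z11]
theorem h01 (w : ℕ → ℕ → ℝ → ℝ → ℝ) (x y : ℝ) : Hf (Th w 0) 0 1 x y = Hf w 0 1 x y := by
  show -(Th w 0 1 1 x y + Th w 0 0 2 x y / 4) = -(w 1 1 x y + w 0 2 x y / 4)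
  rw [z11, z02]
theorem h20 (w : ℕ → ℕ → ℝ → ℝ → ℝ) (x y : ℝ) : Hf (Th w 0) 2 0 x y = Hf w 2 0 x y := by
  show -(Th w 0 3 0 x y + Th w 0 2 1 x y / 4) = -(w 3 0 x y + w 2 1 x y / 4)
  rw [z30, z21]
theorem h02 (w : ℕ → ℕ → ℝ → ℝ → ℝ) (x y : ℝ) : Hf (Th w 0) 0 2 x y = Hf w 0 2 x y := by
  show -(Th w 0 1 2 x y + Th w 0 0 3 x y / 4) = -(w 1 2 x y + w 0 3 x y / 4)
  rw [z12, z03]
theorem h11 (w : ℕ → ℕ → ℝ → ℝ → ℝ) (x y : ℝ) : Hf (Th w 0) 1 1 x y = Hf w 1 1 x y := by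
  show -(Th w 0 2 1 x y + Th w 0 1 2 x y / 4) = -(w 2 1 x y + w 1 2 x y / 4)
  rw [z21, z12]
theorem h21 (w : ℕ → ℕ → ℝ → ℝ → ℝ) (x y : ℝ) : Hf (Th w 0) 2 1 x y = Hf w 2 1 x y := by
  show -(Th w 0 3 1 x y + Th w 0 2 2 x y / 4) = -(w 3 1 x y + w 2 2 x y / 4)
  rw [z31, z22]
theorem h12 (w : ℕ → ℕ → ℝ → ℝ → ℝ) (x y : ℝ) : Hf (Th w 0) 1 2 x y = Hf w 1 2 x y := by
  show -(Th w 0 2 2 x y + Th w 0 1 3 x y / 4) = -(w 2 2 x y + w 1 3 x y / 4)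
  rw [z22, z13]

/-- the tube lemma -/
theorem tube {K : Set (ℝ × ℝ)} (hK : IsCompact K) {f : ℝ → ℝ → ℝ → ℝ} (hf : Cc f)
    (hp : ∀ p ∈ K, 0 < f 0 p.1 p.2) : ∀ᶠ δ in 𝓝 (0 : ℝ), ∀ p ∈ K, 0 < f δ p.1 p.2 := by
  apply hK.eventually_forall_of_forall_eventually
  intro p hpK
  exact (hf p).eventually_const_lt (hp p hpK)

theorem isC : IsCompact (Set.Icc (0 : ℝ) 1 ×ˢ Set.Icc (0 : ℝ) 1) := isCompact_Icc.prod isCompact_Icc

theorem isL : IsCompact (({1} : Set ℝ) ×ˢ Set.Icc (0 : ℝ) 1) := isCompact_singleton.prod isCompact_Icc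

theorem isR : IsCompact (Set.Icc (0 : ℝ) 1 ×ˢ ({1} : Set ℝ)) := isCompact_Icc.prod isCompact_singleton

end PLim

open PLim in
theorem open_thm : StmtOpen := by
  intro w hw hG
  have e1 := tube isC (f := fun δ x y => Hf (Th w δ) 1 0 x y + rr x * Hf (Th w δ) 2 0 x y)
    ((cH hw 1 0).add (Cc.rr1.mul (cH hw 2 0))) (by
      rintro ⟨x, y⟩ ⟨⟨hx0, hx1⟩, ⟨hy0, hy1⟩⟩
      simp only [h10, h20]
      exact hG.g1a x y hx0 hx1 hy0 hy1)
  have e2 := tube isC (f := fun δ x y => Hf (Th w δ) 0 1 x y + rr y * Hf (Th w δ) 0 2 x y)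
    ((cH hw 0 1).add (Cc.rr2.mul (cH hw 0 2))) (by
      rintro ⟨x, y⟩ ⟨⟨hx0, hx1⟩, ⟨hy0, hy1⟩⟩
      simp only [h01, h02]
      exact hG.g1b x y hx0 hx1 hy0 hy1)
  have e3 := tube isC (f := fun δ x y =>
      (Hf (Th w δ) 1 0 x y + rr x * Hf (Th w δ) 2 0 x y) *
        (Hf (Th w δ) 0 1 x y + rr y * Hf (Th w δ) 0 2 x y) -
      rr x * rr y * (Hf (Th w δ) 1 1 x y) ^ 2)
    ((((cH hw 1 0).add (Cc.rr1.mul (cH hw 2 0))).mul
      ((cH hw 0 1).add (Cc.rr2.mul (cH hw 0 2)))).sub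
      ((Cc.rr1.mul Cc.rr2).mul ((cH hw 1 1).pow 2))) (by
      rintro ⟨x, y⟩ ⟨⟨hx0, hx1⟩, ⟨hy0, hy1⟩⟩
      simp only [h01, h02, h10, h20, h11]
      have := hG.g1c x y hx0 hx1 hy0 hy1
      linarith)
  have e4 := tube isL (f := fun δ x y => Th w δ 1 0 x y) (cTh hw 1 0) (by
      rintro ⟨x, y⟩ ⟨hx, ⟨hy0, hy1⟩⟩
      simp only [Set.mem_singleton_iff] at hx
      subst hx
      simp only [z10]
      exact hG.g2a y hy0 hy1)
  have e5 := tube isR (f := fun δ x y => Th w δ 0 1 x y) (cTh hw 0 1) (by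
      rintro ⟨x, y⟩ ⟨⟨hx0, hx1⟩, hy⟩
      simp only [Set.mem_singleton_iff] at hy
      subst hy
      simp only [z01]
      exact hG.g2b x hx0 hx1)
  have e6 := tube isL (f := fun δ x y => Th w δ 1 1 x y + rr y * Th w δ 1 2 x y)
    ((cTh hw 1 1).add (Cc.rr2.mul (cTh hw 1 2))) (by
      rintro ⟨x, y⟩ ⟨hx, ⟨hy0, hy1⟩⟩
      simp only [Set.mem_singleton_iff] at hx
      subst hx
      simp only [z11, z12]
      exact hG.g2c y hy0 hy1)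
  have e7 := tube isR (f := fun δ x y => Th w δ 1 1 x y + rr x * Th w δ 2 1 x y)
    ((cTh hw 1 1).add (Cc.rr1.mul (cTh hw 2 1))) (by
      rintro ⟨x, y⟩ ⟨⟨hx0, hx1⟩, hy⟩
      simp only [Set.mem_singleton_iff] at hy
      subst hy
      simp only [z11, z21]
      exact hG.g2d x hx0 hx1)
  have e8 := tube isL (f := fun δ x y =>
      16 * (Hf (Th w δ) 1 0 x y) ^ 3 * (Hf (Th w δ) 0 1 x y + rr y * Hf (Th w δ) 0 2 x y)
        * (Th w δ 1 1 x y + rr y * Th w δ 1 2 x y) -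
      (2 * Hf (Th w δ) 1 0 x y * (Hf (Th w δ) 1 1 x y + rr y * Hf (Th w δ) 1 2 x y)
        - rr y * (Hf (Th w δ) 1 1 x y) ^ 2) ^ 2)
    (((((Cc.const 16).mul ((cH hw 1 0).pow 3)).mul
        ((cH hw 0 1).add (Cc.rr2.mul (cH hw 0 2)))).mul
        ((cTh hw 1 1).add (Cc.rr2.mul (cTh hw 1 2)))).sub
      (((((Cc.const 2).mul (cH hw 1 0)).mul ((cH hw 1 1).add (Cc.rr2.mul (cH hw 1 2)))).sub
        (Cc.rr2.mul ((cH hw 1 1).pow 2))).pow 2)) (by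
      rintro ⟨x, y⟩ ⟨hx, ⟨hy0, hy1⟩⟩
      simp only [Set.mem_singleton_iff] at hx
      subst hx
      simp only [z11, z12, h10, h01, h02, h11, h12]
      have := hG.g3a y hy0 hy1
      linarith)
  have e9 := tube isR (f := fun δ x y =>
      16 * (Hf (Th w δ) 0 1 x y) ^ 3 * (Hf (Th w δ) 1 0 x y + rr x * Hf (Th w δ) 2 0 x y)
        * (Th w δ 1 1 x y + rr x * Th w δ 2 1 x y) -
      (2 * Hf (Th w δ) 0 1 x y * (Hf (Th w δ) 1 1 x y + rr x * Hf (Th w δ) 2 1 x y)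
        - rr x * (Hf (Th w δ) 1 1 x y) ^ 2) ^ 2)
    (((((Cc.const 16).mul ((cH hw 0 1).pow 3)).mul
        ((cH hw 1 0).add (Cc.rr1.mul (cH hw 2 0)))).mul
        ((cTh hw 1 1).add (Cc.rr1.mul (cTh hw 2 1)))).sub
      (((((Cc.const 2).mul (cH hw 0 1)).mul ((cH hw 1 1).add (Cc.rr1.mul (cH hw 2 1)))).sub
        (Cc.rr1.mul ((cH hw 1 1).pow 2))).pow 2)) (by
      rintro ⟨x, y⟩ ⟨⟨hx0, hx1⟩, hy⟩
      simp only [Set.mem_singleton_iff] at hy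
      subst hy
      simp only [z11, z21, h10, h01, h20, h11, h21]
      have := hG.g3b x hx0 hx1
      linarith)
  have e10 := tube (isCompact_singleton (x := ((1 : ℝ), (1 : ℝ)))) (f := fun δ x y =>
      Hf (Th w δ) 1 0 x y * Hf (Th w δ) 0 1 x y * Th w δ 1 1 x y -
        4 * (Hf (Th w δ) 1 1 x y) ^ 2)
    ((((cH hw 1 0).mul (cH hw 0 1)).mul (cTh hw 1 1)).sub
      ((Cc.const 4).mul ((cH hw 1 1).pow 2))) (by
      rintro ⟨x, y⟩ hxy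
      simp only [Set.mem_singleton_iff, Prod.mk.injEq] at hxy
      obtain ⟨rfl, rfl⟩ := hxy
      simp only [h10, h01, z11, h11]
      have := hG.g4
      linarith)
  have e11 := tube (isCompact_singleton (x := ((1 / 2 : ℝ), (1 / 2 : ℝ)))) (f := fun δ x y =>
      Th w δ 2 0 x y + 2 * Th w δ 1 1 x y + Th w δ 0 2 x y - 14 / 3)
    ((((cTh hw 2 0).add ((Cc.const 2).mul (cTh hw 1 1))).add (cTh hw 0 2)).sub
      (Cc.const (14 / 3))) (by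
      rintro ⟨x, y⟩ hxy
      simp only [Set.mem_singleton_iff, Prod.mk.injEq] at hxy
      obtain ⟨rfl, rfl⟩ := hxy
      simp only [z20, z11, z02]
      have := hG.g5
      linarith)
  have e12 := tube isC (f := fun δ x y => 1 - δ * w 0 0 x y)
    ((Cc.const 1).sub (Cc.del.mul (cw hw 0 0))) (by
      rintro ⟨x, y⟩ -
      simp)
  filter_upwards [e1, e2, e3, e4, e5, e6, e7, e8, e9, e10, e11, e12] with δ f1 f2 f3 f4 f5 f6 f7
    f8 f9 f10 f11 f12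
  refine ⟨?_, ?_⟩
  · refine ⟨?_, ?_, ?_, ?_, ?_, ?_, ?_, ?_, ?_, ?_, ?_⟩
    · intro x y hx0 hx1 hy0 hy1
      exact f1 (x, y) ⟨⟨hx0, hx1⟩, ⟨hy0, hy1⟩⟩
    · intro x y hx0 hx1 hy0 hy1
      exact f2 (x, y) ⟨⟨hx0, hx1⟩, ⟨hy0, hy1⟩⟩
    · intro x y hx0 hx1 hy0 hy1
      have := f3 (x, y) ⟨⟨hx0, hx1⟩, ⟨hy0, hy1⟩⟩
      simp only at this
      linarith
    · intro y hy0 hy1
      exact f4 (1, y) ⟨rfl, ⟨hy0, hy1⟩⟩
    · intro y hy0 hy1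
      exact f5 (y, 1) ⟨⟨hy0, hy1⟩, rfl⟩
    · intro y hy0 hy1
      exact f6 (1, y) ⟨rfl, ⟨hy0, hy1⟩⟩
    · intro y hy0 hy1
      exact f7 (y, 1) ⟨⟨hy0, hy1⟩, rfl⟩
    · intro y hy0 hy1
      have := f8 (1, y) ⟨rfl, ⟨hy0, hy1⟩⟩
      simp only at this
      linarith
    · intro y hy0 hy1
      have := f9 (y, 1) ⟨⟨hy0, hy1⟩, rfl⟩
      simp only at this
      linarith
    · have := f10 (1, 1) rfl
      simp only at this
      linarith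
    · have := f11 (1 / 2, 1 / 2) rfl
      simp only at this
      linarith
  · intro x y hx0 hx1 hy0 hy1
    exact f12 (x, y) ⟨⟨hx0, hx1⟩, ⟨hy0, hy1⟩⟩

end Lq
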