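import Pool.Agent.Lq.StP

/-!
# LQP_ONE: the one variable polynomials
-/

set_option autoImplicit false

open Filter Topology

namespace Lq

namespace POne

/-- every polynomial has an antiderivative -/
theorem anti (p : Polynomial ℝ) : ∃ q : Polynomial ℝ, q.derivative = p := by
  induction p using Polynomial.induction_on' with
  | add p q hp hq =>
    obtain ⟨a, ha⟩ := hp
    obtain ⟨b, hb⟩ := hq
    exact ⟨a + b, by rw [Polynomial.derivative_add, ha, hb]⟩
  | monomial n a =>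
    refine ⟨Polynomial.monomial (n + 1) (a / ((n : ℝ) + 1)), ?_⟩
    rw [Polynomial.derivative_monomial, Nat.add_sub_cancel]
    have h : (n : ℝ) + 1 ≠ 0 := by positivity
    have e : a / ((n : ℝ) + 1) * ((n + 1 : ℕ) : ℝ) = a := by
      push_cast
      exact div_mul_cancel₀ a h
    rw [e]

/-- the second derivative of `Ph` -/
noncomputable def B : Polynomial ℝ :=
  (1 - Polynomial.C (4 / 25) * (Polynomial.X + Polynomial.C (3 / 2)) ^ 2) ^ 400

theorem B_eval (z : ℝ) : B.eval z = (1 - 4 / 25 * (z + 3 / 2) ^ 2) ^ 400 := by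
  simp [B]

theorem B'_eval (z : ℝ) : B.derivative.eval z =
    400 * (1 - 4 / 25 * (z + 3 / 2) ^ 2) ^ 399 * (-(8 / 25) * (z + 3 / 2)) := by
  unfold B
  rw [Polynomial.derivative_pow, Polynomial.eval_mul, Polynomial.eval_mul, Polynomial.eval_pow]
  have h1 : (Polynomial.C (((400 : ℕ) : ℝ))).eval z = 400 := by simp
  have h2 : (1 - Polynomial.C (4 / 25 : ℝ) * (Polynomial.X + Polynomial.C (3 / 2)) ^ 2).eval z =
      1 - 4 / 25 * (z + 3 / 2) ^ 2 := by simp
  have h3 : (Polynomial.derivative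
      (1 - Polynomial.C (4 / 25 : ℝ) * (Polynomial.X + Polynomial.C (3 / 2)) ^ 2)).eval z =
      -(8 / 25) * (z + 3 / 2) := by
    simp [Polynomial.derivative_pow]
    ring
  rw [h1, h2, h3]

theorem B_nonneg (z : ℝ) : 0 ≤ B.eval z := by
  rw [B_eval]
  exact Even.pow_nonneg (by decide) _

/-- the elementary inequality -/
theorem pow_aux (q : ℝ) (h0 : 0 ≤ q) (h1 : q ≤ 1) (n : ℕ) :
    (1 - q) ^ n * (1 + (n : ℝ) * q) ≤ 1 := by
  have h3 : 1 + (n : ℝ) * q ≤ (1 + q) ^ n := one_add_mul_le_pow (by linarith) n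
  have h4 : 0 ≤ (1 - q) ^ n := pow_nonneg (by linarith) n
  calc (1 - q) ^ n * (1 + (n : ℝ) * q) ≤ (1 - q) ^ n * (1 + q) ^ n :=
        mul_le_mul_of_nonneg_left h3 h4
    _ = ((1 - q) * (1 + q)) ^ n := (mul_pow _ _ _).symm
    _ ≤ 1 := by
        refine pow_le_one₀ (mul_nonneg (by linarith) (by linarith)) ?_
        have e : (1 - q) * (1 + q) = 1 - q ^ 2 := by ring
        rw [e]
        have := sq_nonneg q
        linarith

theorem B_le {z : ℝ} (h1 : -4 ≤ z) (h2 : z ≤ 1) :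
    B.eval z ≤ 1 / (1 + (8 * (z + 3 / 2)) ^ 2) := by
  have hs : 4 / 25 * (z + 3 / 2) ^ 2 ≤ 1 := by nlinarith
  have hs0 : 0 ≤ 4 / 25 * (z + 3 / 2) ^ 2 := by positivity
  have e : (1 : ℝ) + (8 * (z + 3 / 2)) ^ 2 =
      1 + ((400 : ℕ) : ℝ) * (4 / 25 * (z + 3 / 2) ^ 2) := by
    push_cast
    ring
  have h3 : (0 : ℝ) < 1 + (8 * (z + 3 / 2)) ^ 2 := by positivity
  rw [B_eval, le_div_iff₀ h3, e]
  exact pow_aux _ hs0 hs 400

/-- a polynomial is monotone where its derivative is nonnegative -/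
theorem mono {p : Polynomial ℝ} {a b : ℝ} (h : ∀ z, a ≤ z → z ≤ b → 0 ≤ p.derivative.eval z)
    {x y : ℝ} (h1 : a ≤ x) (h2 : x ≤ y) (h3 : y ≤ b) : p.eval x ≤ p.eval y := by
  have hm : MonotoneOn (fun z => p.eval z) (Set.Icc a b) := by
    refine monotoneOn_of_deriv_nonneg (convex_Icc a b) p.continuous.continuousOn
      p.differentiable.differentiableOn ?_
    intro z hz
    rw [interior_Icc] at hz
    rw [Polynomial.deriv]
    exact h z hz.1.le hz.2.le
  exact hm ⟨h1, h2.trans h3⟩ ⟨h1.trans h2, h3⟩ h2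

/-- comparison with the arc tangent -/
theorem cmp {p : Polynomial ℝ} (hp : p.derivative = B) {x y : ℝ} (h1 : -4 ≤ x) (h2 : x ≤ y)
    (h3 : y ≤ 1) : p.eval y - p.eval x ≤
      Real.arctan (8 * (y + 3 / 2)) / 8 - Real.arctan (8 * (x + 3 / 2)) / 8 := by
  have hd : ∀ z : ℝ, HasDerivAt (fun z => Real.arctan (8 * (z + 3 / 2)) / 8 - p.eval z)
      (1 / (1 + (8 * (z + 3 / 2)) ^ 2) - B.eval z) z := by
    intro z
    have e1 : HasDerivAt (fun z : ℝ => 8 * (z + 3 / 2)) 8 z := by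
      have := ((hasDerivAt_id z).add_const (3 / 2 : ℝ)).const_mul (8 : ℝ)
      simpa using this
    have e2 := (e1.arctan).div_const 8
    have e3 := p.hasDerivAt z
    rw [hp] at e3
    have e4 := e2.sub e3
    refine e4.congr_deriv ?_
    ring
  have hm : MonotoneOn (fun z => Real.arctan (8 * (z + 3 / 2)) / 8 - p.eval z)
      (Set.Icc (-4) 1) := by
    refine monotoneOn_of_deriv_nonneg (convex_Icc _ _)
      (fun z _ => (hd z).continuousAt.continuousWithinAt)
      (fun z _ => (hd z).differentiableAt.differentiableWithinAt) ?_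
    intro z hz
    rw [interior_Icc] at hz
    rw [(hd z).deriv]
    have := B_le hz.1.le hz.2.le
    linarith
  have := hm ⟨h1, h2.trans h3⟩ ⟨h1.trans h2, h3⟩ h2
  simp only at this
  linarith

theorem pw : (16 / 25 : ℝ) ^ 399 ≤ 1 / 100000 := by
  calc (16 / 25 : ℝ) ^ 399 ≤ (16 / 25 : ℝ) ^ 30 :=
        pow_le_pow_of_le_one (by norm_num) (by norm_num) (by norm_num)
    _ ≤ 1 / 100000 := by norm_num

theorem b1_aux {z : ℝ} (h1 : -4 ≤ z) (h2 : z ≤ -3) :
    (1 - 4 / 25 * (z + 3 / 2) ^ 2) ^ 400 +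
      400 * (1 - 4 / 25 * (z + 3 / 2) ^ 2) ^ 399 * (-(8 / 25) * (z + 3 / 2)) < 1 / 100 := by
  have a1 : 0 ≤ 1 - 4 / 25 * (z + 3 / 2) ^ 2 := by nlinarith
  have a2 : 1 - 4 / 25 * (z + 3 / 2) ^ 2 ≤ 16 / 25 := by nlinarith
  generalize 1 - 4 / 25 * (z + 3 / 2) ^ 2 = w at a1 a2
  have t1 : -(8 / 25) * (z + 3 / 2) ≤ 4 / 5 := by linarith
  have t0 : 0 ≤ -(8 / 25) * (z + 3 / 2) := by linarith
  generalize -(8 / 25) * (z + 3 / 2) = t at t0 t1
  have b1 : w ^ 399 ≤ 1 / 100000 := (pow_le_pow_left₀ a1 a2 399).trans pw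
  have b0 : 0 ≤ w ^ 399 := pow_nonneg a1 399
  rw [pow_succ w 399]
  generalize w ^ 399 = P at b0 b1
  have c1 : P * w ≤ 1 / 100000 * (16 / 25) := mul_le_mul b1 a2 a1 (by norm_num)
  have c2 : P * t ≤ 1 / 100000 * (4 / 5) := mul_le_mul b1 t1 t0 (by norm_num)
  rw [mul_assoc]
  linarith

theorem b2_aux {z : ℝ} (h1 : -4 ≤ z) (h2 : z ≤ -3) :
    0 ≤ 400 * (1 - 4 / 25 * (z + 3 / 2) ^ 2) ^ 399 * (-(8 / 25) * (z + 3 / 2)) := by
  have a1 : 0 ≤ 1 - 4 / 25 * (z + 3 / 2) ^ 2 := by nlinarith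
  have t0 : 0 ≤ -(8 / 25) * (z + 3 / 2) := by linarith
  exact mul_nonneg (mul_nonneg (by norm_num) (pow_nonneg a1 399)) t0

end POne

open POne in
theorem one_thm : StmtOne := by
  obtain ⟨Q1, hQ1⟩ := anti B
  obtain ⟨Q2, hQ2⟩ := anti (Q1 - Polynomial.C (Q1.eval 1) - Polynomial.C (1 / 100))
  set Ph : Polynomial ℝ := Q2 - Polynomial.C (Q2.eval (-4)) - Polynomial.C 1 with hPh
  obtain ⟨Ps, hPs⟩ := anti Ph
  have d1 : Ph.derivative = Q1 - Polynomial.C (Q1.eval 1) - Polynomial.C (1 / 100) := by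
    rw [hPh, Polynomial.derivative_sub, Polynomial.derivative_sub, Polynomial.derivative_C,
      Polynomial.derivative_C, sub_zero, sub_zero, hQ2]
  have d2 : Ph.derivative.derivative = B := by
    rw [d1, Polynomial.derivative_sub, Polynomial.derivative_sub, Polynomial.derivative_C,
      Polynomial.derivative_C, sub_zero, sub_zero, hQ1]
  have v1 : Ph.derivative.eval 1 = -(1 / 100) := by
    rw [d1]
    simp
  have v4 : Ph.eval (-4) = -1 := by
    rw [hPh]
    simp
  have m1 : ∀ x y : ℝ, -4 ≤ x → x ≤ y → y ≤ 1 → Ph.derivative.eval x ≤ Ph.derivative.eval y := by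
    intro x y h1 h2 h3
    refine mono (a := -4) (b := 1) ?_ h1 h2 h3
    intro z _ _
    rw [d2]
    exact B_nonneg z
  refine ⟨Ph, Ps, Polynomial.C (1 / 100) * (Polynomial.C 2 * Polynomial.X
    - Polynomial.C (1 / 2) * Polynomial.X ^ 2), 1 / 100 - Ph.derivative.eval (-4),
    hPs, ?_, ?_, ?_, ?_, ?_, ?_, ?_, ?_, ?_, ?_⟩
  · have e : Polynomial.derivative (Polynomial.C (1 / 100 : ℝ) * (Polynomial.C 2 * Polynomial.X
        - Polynomial.C (1 / 2) * Polynomial.X ^ 2)) =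
        Polynomial.C (1 / 100) * (Polynomial.C 2 - Polynomial.X) := by
      rw [Polynomial.derivative_C_mul, Polynomial.derivative_sub, Polynomial.derivative_C_mul,
        Polynomial.derivative_C_mul, Polynomial.derivative_X, Polynomial.derivative_X_pow]
      rw [mul_one, ← mul_assoc, ← Polynomial.C_mul]
      norm_num
    rw [e, Polynomial.derivative_C_mul, Polynomial.derivative_sub, Polynomial.derivative_C,
      Polynomial.derivative_X, zero_sub, mul_neg, mul_one, Polynomial.C_neg]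
  · intro z
    simp
    ring
  · intro z _ _
    rw [d2]
    exact B_nonneg z
  · rw [d2, B_eval]
    norm_num
  · intro z h1 h2
    rw [d2, B_eval, B'_eval]
    exact b1_aux h1 h2
  · intro z h1 h2
    rw [d2, B'_eval]
    exact b2_aux h1 h2
  · intro z h1 h2
    rw [← v1]
    exact m1 z 1 h1 h2 le_rfl
  · intro z h1 h2
    have := m1 (-4) z le_rfl h1 h2
    linarith
  · intro z h1 h2
    rw [← v4]
    have : (-Ph).eval (-4) ≤ (-Ph).eval z := by
      refine mono (a := -4) (b := 1) ?_ le_rfl h1 (by linarith)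
      intro y h3 h4
      rw [Polynomial.derivative_neg, Polynomial.eval_neg]
      have := m1 y 1 h3 h4 le_rfl
      rw [v1] at this
      linarith
    rw [Polynomial.eval_neg, Polynomial.eval_neg] at this
    linarith
  · have j1 := cmp d2 (x := -4) (y := -(3 / 2)) le_rfl (by norm_num) (by norm_num)
    have j2 := cmp d2 (x := -(3 / 2)) (y := 1) (by norm_num) (by norm_num) le_rfl
    have e0 : (8 : ℝ) * (-(3 / 2) + 3 / 2) = 0 := by norm_num
    rw [e0, Real.arctan_zero] at j1 j2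
    have t1 := Real.neg_pi_div_two_lt_arctan (8 * ((-4 : ℝ) + 3 / 2))
    have t2 := Real.arctan_lt_pi_div_two (8 * ((1 : ℝ) + 3 / 2))
    have hpi := Real.pi_lt_d2
    rw [v1] at j2
    linarith

end Lq
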