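import Pool.Agent.Lq.StP

/-!
# Closure of the class of two variable polynomial functions
-/

set_option autoImplicit false

open Filter Topology

namespace Lq

namespace PPol

open Polynomial

/-- polynomial functions through the ring of polynomials in two variables -/
def IsQ (f : ℝ → ℝ → ℝ) : Prop :=
  ∃ P : Polynomial (Polynomial ℝ), ∀ y1 y2 : ℝ, f y1 y2 = (P.eval (C y2)).eval y1

theorem q_const (r : ℝ) : IsQ (fun _ _ => r) := ⟨C (C r), fun y1 y2 => by simp⟩

theorem q_fst : IsQ (fun y1 _ => y1) := ⟨C Polynomial.X, fun y1 y2 => by simp⟩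

theorem q_snd : IsQ (fun _ y2 => y2) := ⟨Polynomial.X, fun y1 y2 => by simp⟩

theorem q_add {f g : ℝ → ℝ → ℝ} (hf : IsQ f) (hg : IsQ g) :
    IsQ (fun y1 y2 => f y1 y2 + g y1 y2) := by
  obtain ⟨P, hP⟩ := hf
  obtain ⟨R, hR⟩ := hg
  exact ⟨P + R, fun y1 y2 => by rw [eval_add, eval_add, ← hP, ← hR]⟩

theorem q_mul {f g : ℝ → ℝ → ℝ} (hf : IsQ f) (hg : IsQ g) :
    IsQ (fun y1 y2 => f y1 y2 * g y1 y2) := by
  obtain ⟨P, hP⟩ := hf
  obtain ⟨R, hR⟩ := hg
  exact ⟨P * R, fun y1 y2 => by rw [eval_mul, eval_mul, ← hP, ← hR]⟩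

theorem q_pow {f : ℝ → ℝ → ℝ} (n : ℕ) (hf : IsQ f) : IsQ (fun y1 y2 => f y1 y2 ^ n) := by
  obtain ⟨P, hP⟩ := hf
  exact ⟨P ^ n, fun y1 y2 => by rw [eval_pow, eval_pow, ← hP]⟩

theorem q_congr {f g : ℝ → ℝ → ℝ} (h : ∀ y1 y2, f y1 y2 = g y1 y2) (hg : IsQ g) : IsQ f := by
  obtain ⟨P, hP⟩ := hg
  exact ⟨P, fun y1 y2 => by rw [h, hP]⟩

theorem q_sum (s : Finset ℕ) (f : ℕ → ℝ → ℝ → ℝ) (hf : ∀ i, IsQ (f i)) :
    IsQ (fun y1 y2 => ∑ i ∈ s, f i y1 y2) := by
  classical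
  induction s using Finset.induction_on with
  | empty => simpa using q_const 0
  | insert a s ha ih =>
    exact q_congr (fun y1 y2 => Finset.sum_insert ha) (q_add (hf a) ih)

theorem q_comp (q : Polynomial ℝ) : IsQ (fun y1 y2 => q.eval (y1 - 4 * y2)) := by
  have hs : IsQ (fun y1 y2 => y1 - 4 * y2) := by
    exact q_congr (fun y1 y2 => by ring) (q_add q_fst (q_mul (q_const (-4)) q_snd))
  induction q using Polynomial.induction_on' with
  | add p r hp hr =>
    exact q_congr (fun y1 y2 => eval_add) (q_add hp hr)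
  | monomial n a =>
    exact q_congr (fun y1 y2 => eval_monomial) (q_mul (q_const a) (q_pow n hs))

theorem toQ {f : ℝ → ℝ → ℝ} (h : IsP f) : IsQ f := by
  obtain ⟨d, c, -, hf⟩ := h
  obtain ⟨P, hP⟩ := q_sum (Finset.range (d + 1))
    (fun i y1 y2 => ∑ j ∈ Finset.range (d + 1), c i j * y1 ^ i * y2 ^ j) (fun i =>
      q_sum (Finset.range (d + 1)) (fun j y1 y2 => c i j * y1 ^ i * y2 ^ j) (fun j =>
        q_mul (q_mul (q_const (c i j)) (q_pow i q_fst)) (q_pow j q_snd)))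
  exact ⟨P, fun y1 y2 => by rw [hf, ← hP]; rfl⟩

theorem ofQ {f : ℝ → ℝ → ℝ} (h : IsQ f) : IsP f := by
  obtain ⟨P, hP⟩ := h
  obtain ⟨D1, hD1⟩ : ∃ D1, D1 =
    (Finset.range (P.natDegree + 1)).sup fun j => (P.coeff j).natDegree := ⟨_, rfl⟩
  have hle : ∀ j, (P.coeff j).natDegree ≤ D1 := by
    intro j
    by_cases hj : j ≤ P.natDegree
    · rw [hD1]
      exact Finset.le_sup (f := fun j => (P.coeff j).natDegree)
        (Finset.mem_range.2 (Nat.lt_succ_of_le hj))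
    · rw [coeff_eq_zero_of_natDegree_lt (not_le.1 hj), natDegree_zero]
      exact Nat.zero_le _
  refine ⟨D1 + P.natDegree, fun i j => (P.coeff j).coeff i, ?_, ?_⟩
  · intro i j hij
    show (P.coeff j).coeff i = 0
    by_cases hj : j ≤ P.natDegree
    · have := hle j
      exact coeff_eq_zero_of_natDegree_lt (by omega)
    · rw [coeff_eq_zero_of_natDegree_lt (not_le.1 hj), coeff_zero]
  · intro y1 y2
    rw [hP]
    have h1 : P.natDegree < D1 + P.natDegree + 1 := by omega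
    rw [eval_eq_sum_range' h1 (C y2), eval_finsetSum]
    unfold pol JJ
    rw [Finset.sum_comm]
    refine Finset.sum_congr rfl fun j _ => ?_
    have h2 : (P.coeff j).natDegree < D1 + P.natDegree + 1 := by
      have := hle j
      omega
    rw [eval_mul, eval_eq_sum_range' h2 y1, eval_pow, eval_C, Finset.sum_mul]

end PPol

open PPol in
theorem isP_thm : StmtIsP where
  fst := ofQ q_fst
  const r := ofQ (q_const r)
  add _ _ hf hg := ofQ (q_add (toQ hf) (toQ hg))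
  mul _ _ hf hg := ofQ (q_mul (toQ hf) (toQ hg))
  pow _ n hf := ofQ (q_pow n (toQ hf))
  comp q := ofQ (q_comp q)

end Lq
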