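import Pool.Agent.Lq.StP

set_option autoImplicit false

open Filter Topology

namespace Lq

namespace PScale

theorem rr_cont : Continuous rr := by
  unfold rr
  refine Continuous.if_le (by fun_prop) (by fun_prop) continuous_id continuous_const ?_
  intro x hx
  have hx' : x = 1 := hx
  subst hx'
  norm_num

theorem rr_one : rr 1 = 0 := by
  unfold rr
  norm_num

theorem bnd (X Y : ℝ → ℝ) (hX : Continuous X) (hY : Continuous Y)
    (hpos : ∀ y : ℝ, 0 ≤ y → y ≤ 1 → 0 < Y y) :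
    ∃ K1 : ℝ, 0 < K1 ∧ ∀ K : ℝ, K1 ≤ K → ∀ y : ℝ, 0 ≤ y → y ≤ 1 → X y < K * Y y := by
  have hc : ContinuousOn (fun y => X y / Y y) (Set.Icc 0 1) :=
    ContinuousOn.div hX.continuousOn hY.continuousOn fun y hy => (hpos y hy.1 hy.2).ne'
  obtain ⟨C, hC⟩ := isCompact_Icc.exists_bound_of_continuousOn hc
  refine ⟨max C 0 + 1, by positivity, ?_⟩
  intro K hK y h0 h1
  have h2 := hC y ⟨h0, h1⟩
  rw [Real.norm_eq_abs] at h2
  have h3 : X y / Y y ≤ C := (le_abs_self _).trans h2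
  have h4 : X y / Y y < K := by
    have : C ≤ max C 0 := le_max_left _ _
    linarith
  exact (div_lt_iff₀ (hpos y h0 h1)).mp h4

theorem ctl {w : ℕ → ℕ → ℝ → ℝ → ℝ} (hw : Fam w) (a b : ℕ) :
    Continuous (fun y : ℝ => w a b 1 y) :=
  (hw.ct a b).comp (continuous_const.prodMk continuous_id)

theorem ctr {w : ℕ → ℕ → ℝ → ℝ → ℝ} (hw : Fam w) (a b : ℕ) :
    Continuous (fun y : ℝ => w a b y 1) :=
  (hw.ct a b).comp (continuous_id.prodMk continuous_const)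

theorem hfl {w : ℕ → ℕ → ℝ → ℝ → ℝ} (hw : Fam w) (a b : ℕ) :
    Continuous (fun y : ℝ => Hf w a b 1 y) :=
  ((ctl hw (a + 1) b).add ((ctl hw a (b + 1)).div_const 4)).neg

theorem hfr {w : ℕ → ℕ → ℝ → ℝ → ℝ} (hw : Fam w) (a b : ℕ) :
    Continuous (fun y : ℝ => Hf w a b y 1) :=
  ((ctr hw (a + 1) b).add ((ctr hw a (b + 1)).div_const 4)).neg

theorem hf_smul (w : ℕ → ℕ → ℝ → ℝ → ℝ) (K : ℝ) (a b : ℕ) (x y : ℝ) :
    Hf (fun a b x y => K * w a b x y) a b x y = K * Hf w a b x y := by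
  unfold Hf
  ring

end PScale

open PScale in
theorem scale_thm : StmtScale := by
  intro w hw h
  have hr := rr_cont
  obtain ⟨K1, hK1, h1⟩ := bnd
    (fun y => (2 * Hf w 1 0 1 y * (Hf w 1 1 1 y + rr y * Hf w 1 2 1 y)
      - rr y * (Hf w 1 1 1 y) ^ 2) ^ 2)
    (fun y => 16 * (Hf w 1 0 1 y) ^ 3 * (Hf w 0 1 1 y + rr y * Hf w 0 2 1 y)
        * (w 1 1 1 y + rr y * w 1 2 1 y))
    ((((continuous_const.mul (hfl hw 1 0)).mul ((hfl hw 1 1).add (hr.mul (hfl hw 1 2)))).sub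
      (hr.mul ((hfl hw 1 1).pow 2))).pow 2)
    (((continuous_const.mul ((hfl hw 1 0).pow 3)).mul ((hfl hw 0 1).add (hr.mul (hfl hw 0 2)))).mul
      ((ctl hw 1 1).add (hr.mul (ctl hw 1 2))))
    (fun y h0 h1 => by
      have a1 := h.h1 y h0 h1
      have a2 := h.g1b 1 y zero_le_one le_rfl h0 h1
      have a3 := h.g2c y h0 h1
      positivity)
  obtain ⟨K2, hK2, h2⟩ := bnd
    (fun y => (2 * Hf w 0 1 y 1 * (Hf w 1 1 y 1 + rr y * Hf w 2 1 y 1)
      - rr y * (Hf w 1 1 y 1) ^ 2) ^ 2)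
    (fun y => 16 * (Hf w 0 1 y 1) ^ 3 * (Hf w 1 0 y 1 + rr y * Hf w 2 0 y 1)
        * (w 1 1 y 1 + rr y * w 2 1 y 1))
    ((((continuous_const.mul (hfr hw 0 1)).mul ((hfr hw 1 1).add (hr.mul (hfr hw 2 1)))).sub
      (hr.mul ((hfr hw 1 1).pow 2))).pow 2)
    (((continuous_const.mul ((hfr hw 0 1).pow 3)).mul ((hfr hw 1 0).add (hr.mul (hfr hw 2 0)))).mul
      ((ctr hw 1 1).add (hr.mul (ctr hw 2 1))))
    (fun y h0 h1 => by
      have a1 := h.h2 y h0 h1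
      have a2 := h.g1a y 1 h0 h1 zero_le_one le_rfl
      have a3 := h.g2d y h0 h1
      positivity)
  obtain ⟨K3, hK3, h3⟩ := bnd (fun _ => 4 * (Hf w 1 1 1 1) ^ 2)
    (fun _ => Hf w 1 0 1 1 * Hf w 0 1 1 1 * w 1 1 1 1) continuous_const continuous_const
    (fun y _ _ => by
      have a1 := h.h1 1 zero_le_one le_rfl
      have a2 := h.h2 1 zero_le_one le_rfl
      have a3 := h.g2c 1 zero_le_one le_rfl
      rw [rr_one, zero_mul, add_zero] at a3
      positivity)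
  obtain ⟨K4, hK4, h4⟩ := bnd (fun _ => 14 / 3)
    (fun _ => w 2 0 (1 / 2) (1 / 2) + 2 * w 1 1 (1 / 2) (1 / 2) + w 0 2 (1 / 2) (1 / 2))
    continuous_const continuous_const (fun y _ _ => h.g5)
  have h1' := h1 (K1 + K2 + K3 + K4) (by linarith)
  have h2' := h2 (K1 + K2 + K3 + K4) (by linarith)
  have h3' := h3 (K1 + K2 + K3 + K4) (by linarith) 0 le_rfl zero_le_one
  have h4' := h4 (K1 + K2 + K3 + K4) (by linarith) 0 le_rfl zero_le_one
  have hK : 0 < K1 + K2 + K3 + K4 := by linarith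
  clear h1 h2 h3 h4
  generalize K1 + K2 + K3 + K4 = K at h1' h2' h3' h4' hK
  refine ⟨K, hK, ?_⟩
  constructor
  · intro y1 y2 a0 a1 b0 b1
    rw [hf_smul, hf_smul]
    have := mul_pos hK (h.g1a y1 y2 a0 a1 b0 b1)
    linarith
  · intro y1 y2 a0 a1 b0 b1
    rw [hf_smul, hf_smul]
    have := mul_pos hK (h.g1b y1 y2 a0 a1 b0 b1)
    linarith
  · intro y1 y2 a0 a1 b0 b1
    rw [hf_smul, hf_smul, hf_smul, hf_smul, hf_smul]
    have := mul_lt_mul_of_pos_left (h.g1c y1 y2 a0 a1 b0 b1) (pow_pos hK 2)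
    linarith
  · intro y a0 a1
    exact mul_pos hK (h.g2a y a0 a1)
  · intro y a0 a1
    exact mul_pos hK (h.g2b y a0 a1)
  · intro y a0 a1
    have := mul_pos hK (h.g2c y a0 a1)
    linarith
  · intro y a0 a1
    have := mul_pos hK (h.g2d y a0 a1)
    linarith
  · intro y a0 a1
    rw [hf_smul, hf_smul, hf_smul, hf_smul, hf_smul]
    have := mul_lt_mul_of_pos_left (h1' y a0 a1) (pow_pos hK 4)
    linarith
  · intro y a0 a1
    rw [hf_smul, hf_smul, hf_smul, hf_smul, hf_smul]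
    have := mul_lt_mul_of_pos_left (h2' y a0 a1) (pow_pos hK 4)
    linarith
  · rw [hf_smul, hf_smul, hf_smul]
    have := mul_lt_mul_of_pos_left h3' (pow_pos hK 2)
    linarith
  · linarith

end Lq
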