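import Pool.Agent.Lq.StP

/-!
# Section 5, part A: the derivatives of the polynomial in terms of those of `θ` and `h`
-/

set_option autoImplicit false

open Filter Topology

namespace Lq

namespace S5

/-- derivatives of monomials -/
noncomputable def mm (a i : ℕ) (x : ℝ) : ℝ := (i.descFactorial a : ℝ) * x ^ (i - a)

theorem mm0 (i : ℕ) (x : ℝ) : mm 0 i x = x ^ i := by
  simp [mm]

theorem mm1 (i : ℕ) (x : ℝ) : mm 1 i x = (i : ℝ) * x ^ (i - 1) := by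
  simp [mm]

theorem mm2 (i : ℕ) (x : ℝ) : mm 2 i x = (i : ℝ) * ((i : ℝ) - 1) * x ^ (i - 2) := by
  rw [mm, Nat.cast_descFactorial_two]

theorem mm_succ (a i : ℕ) (x : ℝ) : mm (a + 1) (i + 1) x = ((i : ℝ) + 1) * mm a i x := by
  rw [mm, mm, Nat.succ_descFactorial_succ, Nat.add_sub_add_right]
  push_cast
  ring

theorem mm_zero (a : ℕ) (x : ℝ) : mm (a + 1) 0 x = 0 := by
  simp [mm]

theorem PP_eq (d : ℕ) (c : ℕ → ℕ → ℝ) (a b : ℕ) (x y : ℝ) :
    PP d c a b x y = JJ d c (fun i => mm a i x) (fun j => mm b j y) := rfl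

theorem pol_eq (d : ℕ) (c : ℕ → ℕ → ℝ) (x y : ℝ) : pol d c x y = PP d c 0 0 x y := by
  rw [PP_eq, pol]
  simp only [mm0]

/-- shift of the summation index -/
theorem shift (d : ℕ) (u : ℕ → ℝ) (a : ℕ) (x : ℝ) (h : u (d + 1) = 0) :
    ∑ i ∈ Finset.range (d + 1), ((i : ℝ) + 1) * u (i + 1) * mm a i x =
      ∑ i ∈ Finset.range (d + 1), u i * mm (a + 1) i x := by
  have h1 : ∑ i ∈ Finset.range (d + 1), u i * mm (a + 1) i x =
      ∑ i ∈ Finset.range (d + 2), u i * mm (a + 1) i x := by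
    rw [Finset.sum_range_succ _ (d + 1), h, zero_mul, add_zero]
  rw [h1, Finset.sum_range_succ' (fun i => u i * mm (a + 1) i x) (d + 1), mm_zero, mul_zero,
    add_zero]
  refine Finset.sum_congr rfl fun i _ => ?_
  rw [mm_succ]
  ring

theorem PP_Lop {d : ℕ} {c : ℕ → ℕ → ℝ} (hd : Deg d c) (a b : ℕ) (x y : ℝ) :
    PP d (Lop c) a b x y = PP d c (a + 1) b x y + PP d c a (b + 1) x y / 4 := by
  have e1 : PP d (Lop c) a b x y =
      (∑ i ∈ Finset.range (d + 1), ∑ j ∈ Finset.range (d + 1),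
        ((i : ℝ) + 1) * c (i + 1) j * mm a i x * mm b j y) +
      1 / 4 * ∑ i ∈ Finset.range (d + 1), ∑ j ∈ Finset.range (d + 1),
        (((j : ℝ) + 1) * c i (j + 1) * mm b j y) * mm a i x := by
    rw [PP_eq, JJ, Finset.mul_sum, ← Finset.sum_add_distrib]
    refine Finset.sum_congr rfl fun i _ => ?_
    rw [Finset.mul_sum, ← Finset.sum_add_distrib]
    refine Finset.sum_congr rfl fun j _ => ?_
    rw [Lop]
    ring
  have e2 : (∑ i ∈ Finset.range (d + 1), ∑ j ∈ Finset.range (d + 1),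
        ((i : ℝ) + 1) * c (i + 1) j * mm a i x * mm b j y) = PP d c (a + 1) b x y := by
    rw [PP_eq, JJ, Finset.sum_comm, Finset.sum_comm (s := Finset.range (d + 1))
      (f := fun i j => c i j * mm (a + 1) i x * mm b j y)]
    refine Finset.sum_congr rfl fun j _ => ?_
    rw [← Finset.sum_mul, ← Finset.sum_mul, shift d (fun i => c i j) a x (hd _ _ (by omega))]
  have e3 : (∑ i ∈ Finset.range (d + 1), ∑ j ∈ Finset.range (d + 1),
        (((j : ℝ) + 1) * c i (j + 1) * mm b j y) * mm a i x) = PP d c a (b + 1) x y := by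
    rw [PP_eq, JJ]
    refine Finset.sum_congr rfl fun i _ => ?_
    rw [← Finset.sum_mul, shift d (fun j => c i j) b y (hd _ _ (by omega)), Finset.sum_mul]
    refine Finset.sum_congr rfl fun j _ => ?_
    ring
  rw [e1, e2, e3]
  ring

theorem PP_cont1 (d : ℕ) (c : ℕ → ℕ → ℝ) (a b : ℕ) (y : ℝ) :
    Continuous (fun x => PP d c a b x y) := by
  unfold PP JJ
  refine continuous_finsetSum _ fun i _ => continuous_finsetSum _ fun j _ => ?_
  exact (continuous_const.mul (continuous_const.mul (continuous_id.pow _))).mul continuous_const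

theorem PP_cont2 (d : ℕ) (c : ℕ → ℕ → ℝ) (a b : ℕ) (x : ℝ) :
    Continuous (fun y => PP d c a b x y) := by
  unfold PP JJ
  refine continuous_finsetSum _ fun i _ => continuous_finsetSum _ fun j _ => ?_
  exact continuous_const.mul (continuous_const.mul (continuous_id.pow _))

/-- all the derivatives at a point -/
structure RelT (P Q : ℕ → ℕ → ℝ) (p t1 t2 t11 t12 t22 t112 t122 h h1 h2 h11 h12 h22 h112 h122 : ℝ) :
    Prop where
  p00 : P 0 0 = p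
  p10 : P 1 0 = -p * t1
  p01 : P 0 1 = -p * t2
  p11 : P 1 1 = p * (t1 * t2 - t12)
  p20 : P 2 0 = p * (t1 ^ 2 - t11)
  p02 : P 0 2 = p * (t2 ^ 2 - t22)
  p12 : P 1 2 = p * (2 * t2 * t12 - t122 - t1 * (t2 ^ 2 - t22))
  p21 : P 2 1 = p * (2 * t1 * t12 - t112 - t2 * (t1 ^ 2 - t11))
  q00 : Q 0 0 = p * h
  q10 : Q 1 0 = p * (h1 - h * t1)
  q01 : Q 0 1 = p * (h2 - h * t2)
  q11 : Q 1 1 = p * (h12 - h1 * t2 - h2 * t1 + h * (t1 * t2 - t12))
  q20 : Q 2 0 = p * (h11 - 2 * h1 * t1 + h * (t1 ^ 2 - t11))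
  q02 : Q 0 2 = p * (h22 - 2 * h2 * t2 + h * (t2 ^ 2 - t22))
  q12 : Q 1 2 = p * (h122 - 2 * h12 * t2 - 2 * h2 * t12 + h1 * (t2 ^ 2 - t22)
    + h * (2 * t2 * t12 - t122) - t1 * (h22 - 2 * h2 * t2 + h * (t2 ^ 2 - t22)))
  q21 : Q 2 1 = p * (h112 - 2 * h12 * t1 - 2 * h1 * t12 + h2 * (t1 ^ 2 - t11)
    + h * (2 * t1 * t12 - t112) - t2 * (h11 - 2 * h1 * t1 + h * (t1 ^ 2 - t11)))

theorem relT_at {d : ℕ} {c : ℕ → ℕ → ℝ} {t : ℕ → ℕ → ℝ → ℝ → ℝ} (hd : Deg d c) {x y : ℝ}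
    (R : Rel (PP d c) t x y) :
    RelT (fun a b => PP d c a b x y) (fun a b => PP d (Lop c) a b x y) (PP d c 0 0 x y)
      (t 1 0 x y) (t 0 1 x y) (t 2 0 x y) (t 1 1 x y) (t 0 2 x y) (t 2 1 x y) (t 1 2 x y)
      (Hf t 0 0 x y) (Hf t 1 0 x y) (Hf t 0 1 x y) (Hf t 2 0 x y)
      (Hf t 1 1 x y) (Hf t 0 2 x y) (Hf t 2 1 x y) (Hf t 1 2 x y) := by
  refine ⟨rfl, ?_, ?_, ?_, ?_, ?_, ?_, ?_, ?_, ?_, ?_, ?_, ?_, ?_, ?_, ?_⟩
  · rw [R.r10]
    ring
  · rw [R.r01]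
    ring
  · rw [R.r11, R.r01]
    ring
  · rw [R.r20, R.r10]
    ring
  · rw [R.r02, R.r01]
    ring
  · rw [R.r12, R.r02, R.r01]
    ring
  · rw [R.r21, R.r11, R.r10, R.r01]
    ring
  · rw [PP_Lop hd, R.r10, R.r01]
    simp only [Hf]
    ring
  · rw [PP_Lop hd, R.r20, R.r11, R.r10, R.r01]
    simp only [Hf]
    ring
  · rw [PP_Lop hd, R.r11, R.r02, R.r01]
    simp only [Hf]
    ring
  · rw [PP_Lop hd, R.r21, R.r12, R.r11, R.r02, R.r10, R.r01]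
    simp only [Hf]
    ring
  · rw [PP_Lop hd, R.r30, R.r21, R.r20, R.r11, R.r10, R.r01]
    simp only [Hf]
    ring
  · rw [PP_Lop hd, R.r12, R.r03, R.r02, R.r01]
    simp only [Hf]
    ring
  · rw [PP_Lop hd, R.r22, R.r13, R.r12, R.r03, R.r02, R.r11, R.r10, R.r01]
    simp only [Hf]
    ring
  · rw [PP_Lop hd, R.r31, R.r22, R.r21, R.r12, R.r20, R.r11, R.r02, R.r10, R.r01]
    simp only [Hf]
    ring

/-- the delivery of section 6 for a fixed polynomial -/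
structure GR (d : ℕ) (c : ℕ → ℕ → ℝ) (t : ℕ → ℕ → ℝ → ℝ → ℝ) : Prop where
  deg : Deg d c
  pos : ∀ y1 y2 : ℝ, 0 ≤ y1 → y1 ≤ 1 → 0 ≤ y2 → y2 ≤ 1 → 0 < PP d c 0 0 y1 y2
  rel : ∀ y1 y2 : ℝ, 0 ≤ y1 → y1 ≤ 1 → 0 ≤ y2 → y2 ≤ 1 → Rel (PP d c) t y1 y2
  gg : GG t

end S5

end Lq
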