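import Pool.Agent.Lq.S5A

/-!
# Section 5, part B: the limit jets, and the region `a1, a2 <= 1`
-/

set_option autoImplicit false
set_option linter.unusedSimpArgs false

namespace Lq

namespace S5

theorem JJ_add1 (d : ℕ) (c : ℕ → ℕ → ℝ) (r : ℝ) (A A' B : ℕ → ℝ) :
    JJ d c (fun i => A i + r * A' i) B = JJ d c A B + r * JJ d c A' B := by
  unfold JJ
  rw [Finset.mul_sum, ← Finset.sum_add_distrib]
  refine Finset.sum_congr rfl fun i _ => ?_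
  rw [Finset.mul_sum, ← Finset.sum_add_distrib]
  refine Finset.sum_congr rfl fun j _ => ?_
  ring

theorem JJ_add2 (d : ℕ) (c : ℕ → ℕ → ℝ) (r : ℝ) (A B B' : ℕ → ℝ) :
    JJ d c A (fun i => B i + r * B' i) = JJ d c A B + r * JJ d c A B' := by
  unfold JJ
  rw [Finset.mul_sum, ← Finset.sum_add_distrib]
  refine Finset.sum_congr rfl fun i _ => ?_
  rw [Finset.mul_sum, ← Finset.sum_add_distrib]
  refine Finset.sum_congr rfl fun j _ => ?_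
  ring

theorem t0_le {a : ℝ} (h : a ≤ 1) : (fun i => t0 i a) = fun i => mm 0 i a := by
  funext i
  rw [t0, if_pos h, mm0]

theorem t1_le {a : ℝ} (h : a ≤ 1) : (fun i => t1 i a) = fun i => mm 1 i a := by
  funext i
  rw [t1, if_pos h, mm1]

theorem t2_le {a : ℝ} (h : a ≤ 1) : (fun i => t2 i a) = fun i => mm 1 i a + rr a * mm 2 i a := by
  funext i
  rw [t2, if_pos h, mm1, mm2]

theorem t0_gt {a : ℝ} (h : 1 < a) : (fun i => t0 i a) = fun i => mm 0 i 1 + (a - 1) * mm 1 i 1 := by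
  funext i
  rw [t0, if_neg (not_le.2 h), mm0, mm1, one_pow, one_pow]
  ring

theorem t1_gt {a : ℝ} (h : 1 < a) : (fun i => t1 i a) = fun i => mm 1 i 1 := by
  funext i
  rw [t1, if_neg (not_le.2 h), mm1, one_pow, mul_one]

theorem t2_gt {a : ℝ} (h : 1 < a) : (fun i => t2 i a) = fun i => mm 1 i 1 := by
  funext i
  rw [t2, if_neg (not_le.2 h), mm1, one_pow, mul_one]

theorem lim_ll (d : ℕ) (c : ℕ → ℕ → ℝ) {a1 a2 : ℝ} (h1 : a1 ≤ 1) (h2 : a2 ≤ 1) :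
    limJet d c a1 a2 = ⟨PP d c 0 0 a1 a2, PP d c 1 0 a1 a2, PP d c 0 1 a1 a2, PP d c 1 1 a1 a2,
      PP d c 1 0 a1 a2 + rr a1 * PP d c 2 0 a1 a2,
      PP d c 0 1 a1 a2 + rr a2 * PP d c 0 2 a1 a2⟩ := by
  unfold limJet mkJet
  rw [t0_le h1, t1_le h1, t2_le h1, t0_le h2, t1_le h2, t2_le h2, JJ_add1, JJ_add2]
  rfl

theorem lim_gl (d : ℕ) (c : ℕ → ℕ → ℝ) {a1 a2 : ℝ} (h1 : 1 < a1) (h2 : a2 ≤ 1) :
    limJet d c a1 a2 = ⟨PP d c 0 0 1 a2 + (a1 - 1) * PP d c 1 0 1 a2, PP d c 1 0 1 a2,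
      PP d c 0 1 1 a2 + (a1 - 1) * PP d c 1 1 1 a2, PP d c 1 1 1 a2, PP d c 1 0 1 a2,
      (PP d c 0 1 1 a2 + rr a2 * PP d c 0 2 1 a2) +
        (a1 - 1) * (PP d c 1 1 1 a2 + rr a2 * PP d c 1 2 1 a2)⟩ := by
  unfold limJet mkJet
  rw [t0_gt h1, t1_gt h1, t2_gt h1, t0_le h2, t1_le h2, t2_le h2, JJ_add1, JJ_add1, JJ_add1,
    JJ_add2, JJ_add2]
  rfl

theorem lim_lg (d : ℕ) (c : ℕ → ℕ → ℝ) {a1 a2 : ℝ} (h1 : a1 ≤ 1) (h2 : 1 < a2) :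
    limJet d c a1 a2 = ⟨PP d c 0 0 a1 1 + (a2 - 1) * PP d c 0 1 a1 1,
      PP d c 1 0 a1 1 + (a2 - 1) * PP d c 1 1 a1 1, PP d c 0 1 a1 1, PP d c 1 1 a1 1,
      (PP d c 1 0 a1 1 + rr a1 * PP d c 2 0 a1 1) +
        (a2 - 1) * (PP d c 1 1 a1 1 + rr a1 * PP d c 2 1 a1 1), PP d c 0 1 a1 1⟩ := by
  unfold limJet mkJet
  rw [t0_le h1, t1_le h1, t2_le h1, t0_gt h2, t1_gt h2, t2_gt h2, JJ_add2, JJ_add2, JJ_add2,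
    JJ_add1, JJ_add1]
  rfl

theorem lim_gg (d : ℕ) (c : ℕ → ℕ → ℝ) {a1 a2 : ℝ} (h1 : 1 < a1) (h2 : 1 < a2) :
    limJet d c a1 a2 = ⟨(PP d c 0 0 1 1 + (a2 - 1) * PP d c 0 1 1 1) +
        (a1 - 1) * (PP d c 1 0 1 1 + (a2 - 1) * PP d c 1 1 1 1),
      PP d c 1 0 1 1 + (a2 - 1) * PP d c 1 1 1 1,
      PP d c 0 1 1 1 + (a1 - 1) * PP d c 1 1 1 1, PP d c 1 1 1 1,
      PP d c 1 0 1 1 + (a2 - 1) * PP d c 1 1 1 1,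
      PP d c 0 1 1 1 + (a1 - 1) * PP d c 1 1 1 1⟩ := by
  unfold limJet mkJet
  rw [t0_gt h1, t1_gt h1, t2_gt h1, t0_gt h2, t1_gt h2, t2_gt h2, JJ_add1, JJ_add1,
    JJ_add2, JJ_add2]
  rfl

theorem rr_nonneg {a : ℝ} (h0 : 0 ≤ a) (h1 : a ≤ 1) : 0 ≤ rr a := by
  rw [rr, if_pos h1]
  exact mul_nonneg (mul_nonneg h0 (by linarith)) (by linarith)

theorem rr_one : rr 1 = 0 := by
  rw [rr, if_pos le_rfl]
  ring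

theorem rr_gt {a : ℝ} (h : 1 < a) : rr a = (a - 1) / 2 := by
  rw [rr, if_neg (not_le.2 h)]

/-- the determinant identity -/
theorem det_id (r1 r2 : ℝ) (S Q : Jet) :
    q11 r1 S Q * q22 r2 S Q - r1 * r2 * q12 S Q ^ 2 = S.s * Tc r1 r2 S Q := by
  unfold q11 q22 q12 Tc
  ring

/-! ### the region `a1, a2 <= 1` -/

theorem alg_ll {P Q : ℕ → ℕ → ℝ} {p t1 t2 t11 t12 t22 t112 t122 h h1 h2 h11 h12 h22 h112 h122 : ℝ}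
    (R : RelT P Q p t1 t2 t11 t12 t22 t112 t122 h h1 h2 h11 h12 h22 h112 h122) (r1 r2 : ℝ) :
    q11 r1 ⟨P 0 0, P 1 0, P 0 1, P 1 1, P 1 0 + r1 * P 2 0, P 0 1 + r2 * P 0 2⟩
        ⟨Q 0 0, Q 1 0, Q 0 1, Q 1 1, Q 1 0 + r1 * Q 2 0, Q 0 1 + r2 * Q 0 2⟩ =
      p ^ 3 * (h1 + r1 * h11) ∧
    q22 r2 ⟨P 0 0, P 1 0, P 0 1, P 1 1, P 1 0 + r1 * P 2 0, P 0 1 + r2 * P 0 2⟩
        ⟨Q 0 0, Q 1 0, Q 0 1, Q 1 1, Q 1 0 + r1 * Q 2 0, Q 0 1 + r2 * Q 0 2⟩ =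
      p ^ 3 * (h2 + r2 * h22) ∧
    Tc r1 r2 ⟨P 0 0, P 1 0, P 0 1, P 1 1, P 1 0 + r1 * P 2 0, P 0 1 + r2 * P 0 2⟩
        ⟨Q 0 0, Q 1 0, Q 0 1, Q 1 1, Q 1 0 + r1 * Q 2 0, Q 0 1 + r2 * Q 0 2⟩ =
      p ^ 5 * ((h1 + r1 * h11) * (h2 + r2 * h22) - r1 * r2 * h12 ^ 2) := by
  refine ⟨?_, ?_, ?_⟩
  · unfold q11
    simp only [R.p00, R.p10, R.p01, R.p11, R.p20, R.p02, R.q00, R.q10, R.q01, R.q11, R.q20, R.q02]
    ring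
  · unfold q22
    simp only [R.p00, R.p10, R.p01, R.p11, R.p20, R.p02, R.q00, R.q10, R.q01, R.q11, R.q20, R.q02]
    ring
  · unfold Tc
    simp only [R.p00, R.p10, R.p01, R.p11, R.p20, R.p02, R.q00, R.q10, R.q01, R.q11, R.q20, R.q02]
    ring

theorem conv_ll {d : ℕ} {c : ℕ → ℕ → ℝ} {t : ℕ → ℕ → ℝ → ℝ → ℝ} (G : GR d c t) {a1 a2 : ℝ}
    (h1 : 0 ≤ a1) (h1' : a1 ≤ 1) (h2 : 0 ≤ a2) (h2' : a2 ≤ 1) :
    0 < q11 (rr a1) (limJet d c a1 a2) (limJet d (Lop c) a1 a2)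
        + q22 (rr a2) (limJet d c a1 a2) (limJet d (Lop c) a1 a2) ∧
    0 < Tc (rr a1) (rr a2) (limJet d c a1 a2) (limJet d (Lop c) a1 a2) := by
  have hp : 0 < PP d c 0 0 a1 a2 := G.pos a1 a2 h1 h1' h2 h2'
  have R := relT_at G.deg (G.rel a1 a2 h1 h1' h2 h2')
  obtain ⟨e1, e2, e3⟩ := alg_ll R (rr a1) (rr a2)
  have ga := G.gg.g1a a1 a2 h1 h1' h2 h2'
  have gb := G.gg.g1b a1 a2 h1 h1' h2 h2'
  have gc := G.gg.g1c a1 a2 h1 h1' h2 h2'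
  rw [lim_ll d c h1' h2', lim_ll d (Lop c) h1' h2', e1, e2, e3]
  have p3 : 0 < PP d c 0 0 a1 a2 ^ 3 := pow_pos hp 3
  have p5 : 0 < PP d c 0 0 a1 a2 ^ 5 := pow_pos hp 5
  refine ⟨add_pos (mul_pos p3 ga) (mul_pos p3 gb), mul_pos p5 ?_⟩
  linarith

end S5

end Lq
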