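import Pool.Agent.Lq.S5B

/-!
# Section 5, part C: the regions `a1 > 1 >= a2` and `a2 > 1 >= a1`
-/

set_option autoImplicit false
set_option linter.unusedSimpArgs false

namespace Lq

namespace S5

/-- positivity of a quadratic form -/
theorem quad_pos {A B C x y : ℝ} (hA : 0 < A) (hC : 0 < C) (hB : B ^ 2 < 4 * A * C) (hy : 0 < y) :
    0 < A * x ^ 2 + B * (y * x) + C * y ^ 2 := by
  have h1 : 0 < 4 * A * (A * x ^ 2 + B * (y * x) + C * y ^ 2) := by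
    have : 4 * A * (A * x ^ 2 + B * (y * x) + C * y ^ 2) =
        (2 * A * x + B * y) ^ 2 + (4 * A * C - B ^ 2) * y ^ 2 := by ring
    rw [this]
    have h2 : 0 < (4 * A * C - B ^ 2) * y ^ 2 := mul_pos (by linarith) (pow_pos hy 2)
    nlinarith [sq_nonneg (2 * A * x + B * y)]
  exact pos_of_mul_pos_right h1 (by positivity)

section RegA

variable {P Q : ℕ → ℕ → ℝ} {p t1 t2 t11 t12 t22 t112 t122 h h1 h2 h11 h12 h22 h112 h122 : ℝ}

/-- the jet in the region `a1 > 1 >= a2` -/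
def jgl (P : ℕ → ℕ → ℝ) (k r2 : ℝ) : Jet :=
  ⟨P 0 0 + k * P 1 0, P 1 0, P 0 1 + k * P 1 1, P 1 1, P 1 0,
    (P 0 1 + r2 * P 0 2) + k * (P 1 1 + r2 * P 1 2)⟩

/-- the jet in the region `a2 > 1 >= a1` -/
def jlg (P : ℕ → ℕ → ℝ) (k r1 : ℝ) : Jet :=
  ⟨P 0 0 + k * P 0 1, P 1 0 + k * P 1 1, P 0 1, P 1 1,
    (P 1 0 + r1 * P 2 0) + k * (P 1 1 + r1 * P 2 1), P 0 1⟩

theorem alg_gl (R : RelT P Q p t1 t2 t11 t12 t22 t112 t122 h h1 h2 h11 h12 h22 h112 h122)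
    (k r2 : ℝ) :
    (jgl P k r2).s = p * (1 - k * t1) ∧ (jgl P k r2).s1 = -(p * t1) ∧
    (jgl Q k r2).s = p * (h * (1 - k * t1) + k * h1) ∧
    q11 (k / 2) (jgl P k r2) (jgl Q k r2) = p ^ 3 * h1 ∧
    Tc (k / 2) r2 (jgl P k r2) (jgl Q k r2) =
      p ^ 5 * (h1 * (h2 + r2 * h22) * (1 - k * t1) ^ 2 +
        (h1 * (h12 + r2 * h122) - r2 * h12 ^ 2 / 2) * (k * (1 - k * t1)) +
        h1 ^ 2 * (t12 + r2 * t122) * k ^ 2) := by
  refine ⟨?_, ?_, ?_, ?_, ?_⟩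
  · simp only [jgl, R.p00, R.p10]
    ring
  · simp only [jgl, R.p10]
    ring
  · simp only [jgl, R.q00, R.q10]
    ring
  · unfold q11
    simp only [jgl, R.p00, R.p10, R.p01, R.p11, R.p02, R.p12, R.q00, R.q10, R.q01, R.q11, R.q02,
      R.q12]
    ring
  · unfold Tc
    simp only [jgl, R.p00, R.p10, R.p01, R.p11, R.p02, R.p12, R.q00, R.q10, R.q01, R.q11, R.q02,
      R.q12]
    ring

theorem wall_gl (R : RelT P Q p t1 t2 t11 t12 t22 t112 t122 h h1 h2 h11 h12 h22 h112 h122)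
    {k : ℝ} (r2 : ℝ) (hk : k ≠ 0) (hE : 1 - k * t1 = 0) :
    Tb 1 (k / 2) r2 0 0 (jgl P k r2) = p ^ 3 * (t12 + r2 * t122) / 2 := by
  have ht : t1 = 1 / k := by
    field_simp
    linarith
  unfold Tb
  simp only [jgl, R.p00, R.p10, R.p01, R.p11, R.p02, R.p12, ht]
  field_simp
  ring

theorem alg_lg (R : RelT P Q p t1 t2 t11 t12 t22 t112 t122 h h1 h2 h11 h12 h22 h112 h122)
    (k r1 : ℝ) :
    (jlg P k r1).s = p * (1 - k * t2) ∧ (jlg P k r1).s2 = -(p * t2) ∧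
    (jlg Q k r1).s = p * (h * (1 - k * t2) + k * h2) ∧
    q22 (k / 2) (jlg P k r1) (jlg Q k r1) = p ^ 3 * h2 ∧
    Tc r1 (k / 2) (jlg P k r1) (jlg Q k r1) =
      p ^ 5 * (h2 * (h1 + r1 * h11) * (1 - k * t2) ^ 2 +
        (h2 * (h12 + r1 * h112) - r1 * h12 ^ 2 / 2) * (k * (1 - k * t2)) +
        h2 ^ 2 * (t12 + r1 * t112) * k ^ 2) := by
  refine ⟨?_, ?_, ?_, ?_, ?_⟩
  · simp only [jlg, R.p00, R.p01]
    ring
  · simp only [jlg, R.p01]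
    ring
  · simp only [jlg, R.q00, R.q01]
    ring
  · unfold q22
    simp only [jlg, R.p00, R.p10, R.p01, R.p11, R.p20, R.p21, R.q00, R.q10, R.q01, R.q11, R.q20,
      R.q21]
    ring
  · unfold Tc
    simp only [jlg, R.p00, R.p10, R.p01, R.p11, R.p20, R.p21, R.q00, R.q10, R.q01, R.q11, R.q20,
      R.q21]
    ring

theorem wall_lg (R : RelT P Q p t1 t2 t11 t12 t22 t112 t122 h h1 h2 h11 h12 h22 h112 h122)
    {k : ℝ} (r1 : ℝ) (hk : k ≠ 0) (hE : 1 - k * t2 = 0) :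
    Tb 1 r1 (k / 2) 0 0 (jlg P k r1) = p ^ 3 * (t12 + r1 * t112) / 2 := by
  have ht : t2 = 1 / k := by
    field_simp
    linarith
  unfold Tb
  simp only [jlg, R.p00, R.p10, R.p01, R.p11, R.p20, R.p21, ht]
  field_simp
  ring

end RegA

/-- the sum is positive -/
theorem sum_pos1 {r1 r2 : ℝ} {S Q : Jet} (hr2 : 0 ≤ r2) (hr1 : 0 ≤ r1) (hS : 0 ≤ S.s)
    (h11 : 0 < q11 r1 S Q) (hT : 0 < Tc r1 r2 S Q) (hQ : S.s = 0 → 0 < Q.s) :
    0 < q11 r1 S Q + q22 r2 S Q := by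
  rcases eq_or_lt_of_le hS with h0 | h0
  · have hq := hQ h0.symm
    have : q22 r2 S Q = 2 * Q.s * r2 * S.s2 ^ 2 := by
      unfold q22
      rw [← h0]
      ring
    rw [this]
    have : 0 ≤ 2 * Q.s * r2 * S.s2 ^ 2 := by positivity
    linarith
  · have h1 := det_id r1 r2 S Q
    have h2 : 0 < S.s * Tc r1 r2 S Q := mul_pos h0 hT
    have h3 : 0 ≤ r1 * r2 * q12 S Q ^ 2 := by positivity
    have h4 : 0 < q11 r1 S Q * q22 r2 S Q := by linarith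
    have h5 : 0 < q22 r2 S Q := pos_of_mul_pos_right h4 h11.le
    linarith

theorem sum_pos2 {r1 r2 : ℝ} {S Q : Jet} (hr2 : 0 ≤ r2) (hr1 : 0 ≤ r1) (hS : 0 ≤ S.s)
    (h22 : 0 < q22 r2 S Q) (hT : 0 < Tc r1 r2 S Q) (hQ : S.s = 0 → 0 < Q.s) :
    0 < q11 r1 S Q + q22 r2 S Q := by
  rcases eq_or_lt_of_le hS with h0 | h0
  · have hq := hQ h0.symm
    have : q11 r1 S Q = 2 * Q.s * r1 * S.s1 ^ 2 := by
      unfold q11
      rw [← h0]
      ring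
    rw [this]
    have : 0 ≤ 2 * Q.s * r1 * S.s1 ^ 2 := by positivity
    linarith
  · have h1 := det_id r1 r2 S Q
    have h2 : 0 < S.s * Tc r1 r2 S Q := mul_pos h0 hT
    have h3 : 0 ≤ r1 * r2 * q12 S Q ^ 2 := by positivity
    have h4 : 0 < q11 r1 S Q * q22 r2 S Q := by linarith
    have h5 : 0 < q11 r1 S Q := pos_of_mul_pos_left h4 h22.le
    linarith

theorem lim_gl' (d : ℕ) (c : ℕ → ℕ → ℝ) {a1 a2 : ℝ} (h1 : 1 < a1) (h2 : a2 ≤ 1) :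
    limJet d c a1 a2 = jgl (fun a b => PP d c a b 1 a2) (a1 - 1) (rr a2) := lim_gl d c h1 h2

theorem lim_lg' (d : ℕ) (c : ℕ → ℕ → ℝ) {a1 a2 : ℝ} (h1 : a1 ≤ 1) (h2 : 1 < a2) :
    limJet d c a1 a2 = jlg (fun a b => PP d c a b a1 1) (a2 - 1) (rr a1) := lim_lg d c h1 h2

/-- everything in the region `a1 > 1 >= a2` -/
theorem all_gl {d : ℕ} {c : ℕ → ℕ → ℝ} {t : ℕ → ℕ → ℝ → ℝ → ℝ} (G : GR d c t) {a1 a2 : ℝ}
    (h1 : 1 < a1) (h2 : 0 ≤ a2) (h2' : a2 ≤ 1) (hS : 0 ≤ (limJet d c a1 a2).s) :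
    (0 < q11 (rr a1) (limJet d c a1 a2) (limJet d (Lop c) a1 a2)
        + q22 (rr a2) (limJet d c a1 a2) (limJet d (Lop c) a1 a2) ∧
      0 < Tc (rr a1) (rr a2) (limJet d c a1 a2) (limJet d (Lop c) a1 a2)) ∧
    ((limJet d c a1 a2).s = 0 → 0 < (limJet d (Lop c) a1 a2).s) ∧
    (limJet d c a1 a2).s1 < 0 ∧
    ((limJet d c a1 a2).s = 0 → 0 < Tb 1 (rr a1) (rr a2) 0 0 (limJet d c a1 a2)) := by
  have hp : 0 < PP d c 0 0 1 a2 := G.pos 1 a2 zero_le_one le_rfl h2 h2'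
  have R := relT_at G.deg (G.rel 1 a2 zero_le_one le_rfl h2 h2')
  have hk : 0 < a1 - 1 := by linarith
  have hr2 := rr_nonneg h2 h2'
  obtain ⟨e1, e2, e3, e4, e5⟩ := alg_gl R (a1 - 1) (rr a2)
  have w := wall_gl R (rr a2) hk.ne'
  have ga := G.gg.g1a 1 a2 zero_le_one le_rfl h2 h2'
  rw [rr_one, zero_mul, add_zero] at ga
  have gb := G.gg.g1b 1 a2 zero_le_one le_rfl h2 h2'
  have gt := G.gg.g2a a2 h2 h2'
  have gw := G.gg.g2c a2 h2 h2'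
  have g3 := G.gg.g3a a2 h2 h2'
  rw [lim_gl' d c h1 h2'] at hS ⊢
  rw [lim_gl' d (Lop c) h1 h2', rr_gt h1]
  rw [e1] at hS
  have hE0 : (jgl (fun a b => PP d c a b 1 a2) (a1 - 1) (rr a2)).s = 0 →
      1 - (a1 - 1) * t 1 0 1 a2 = 0 := by
    intro h0
    rw [e1] at h0
    rcases mul_eq_zero.1 h0 with h | h
    · exact absurd h hp.ne'
    · exact h
  have hq : (jgl (fun a b => PP d c a b 1 a2) (a1 - 1) (rr a2)).s = 0 →
      0 < (jgl (fun a b => PP d (Lop c) a b 1 a2) (a1 - 1) (rr a2)).s := by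
    intro h0
    rw [e3, hE0 h0, mul_zero, zero_add]
    exact mul_pos hp (mul_pos hk ga)
  have hT : 0 < Tc ((a1 - 1) / 2) (rr a2) (jgl (fun a b => PP d c a b 1 a2) (a1 - 1) (rr a2))
      (jgl (fun a b => PP d (Lop c) a b 1 a2) (a1 - 1) (rr a2)) := by
    rw [e5]
    refine mul_pos (pow_pos hp 5) ?_
    refine quad_pos (mul_pos ga gb) (mul_pos (pow_pos ga 2) gw) ?_ hk
    nlinarith [g3]
  refine ⟨⟨?_, hT⟩, hq, ?_, ?_⟩
  · refine sum_pos1 hr2 (by positivity) ?_ ?_ hT hq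
    · rw [e1]
      exact hS
    · rw [e4]
      exact mul_pos (pow_pos hp 3) ga
  · rw [e2]
    exact neg_lt_zero.2 (mul_pos hp gt)
  · intro h0
    rw [w (hE0 h0)]
    exact div_pos (mul_pos (pow_pos hp 3) gw) two_pos

/-- everything in the region `a2 > 1 >= a1` -/
theorem all_lg {d : ℕ} {c : ℕ → ℕ → ℝ} {t : ℕ → ℕ → ℝ → ℝ → ℝ} (G : GR d c t) {a1 a2 : ℝ}
    (h1 : 0 ≤ a1) (h1' : a1 ≤ 1) (h2 : 1 < a2) (hS : 0 ≤ (limJet d c a1 a2).s) :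
    (0 < q11 (rr a1) (limJet d c a1 a2) (limJet d (Lop c) a1 a2)
        + q22 (rr a2) (limJet d c a1 a2) (limJet d (Lop c) a1 a2) ∧
      0 < Tc (rr a1) (rr a2) (limJet d c a1 a2) (limJet d (Lop c) a1 a2)) ∧
    ((limJet d c a1 a2).s = 0 → 0 < (limJet d (Lop c) a1 a2).s) ∧
    (limJet d c a1 a2).s2 < 0 ∧
    ((limJet d c a1 a2).s = 0 → 0 < Tb 1 (rr a1) (rr a2) 0 0 (limJet d c a1 a2)) := by
  have hp : 0 < PP d c 0 0 a1 1 := G.pos a1 1 h1 h1' zero_le_one le_rfl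
  have R := relT_at G.deg (G.rel a1 1 h1 h1' zero_le_one le_rfl)
  have hk : 0 < a2 - 1 := by linarith
  have hr1 := rr_nonneg h1 h1'
  obtain ⟨e1, e2, e3, e4, e5⟩ := alg_lg R (a2 - 1) (rr a1)
  have w := wall_lg R (rr a1) hk.ne'
  have ga := G.gg.g1b a1 1 h1 h1' zero_le_one le_rfl
  rw [rr_one, zero_mul, add_zero] at ga
  have gb := G.gg.g1a a1 1 h1 h1' zero_le_one le_rfl
  have gt := G.gg.g2b a1 h1 h1'
  have gw := G.gg.g2d a1 h1 h1'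
  have g3 := G.gg.g3b a1 h1 h1'
  rw [lim_lg' d c h1' h2] at hS ⊢
  rw [lim_lg' d (Lop c) h1' h2, rr_gt h2]
  rw [e1] at hS
  have hE0 : (jlg (fun a b => PP d c a b a1 1) (a2 - 1) (rr a1)).s = 0 →
      1 - (a2 - 1) * t 0 1 a1 1 = 0 := by
    intro h0
    rw [e1] at h0
    rcases mul_eq_zero.1 h0 with h | h
    · exact absurd h hp.ne'
    · exact h
  have hq : (jlg (fun a b => PP d c a b a1 1) (a2 - 1) (rr a1)).s = 0 →
      0 < (jlg (fun a b => PP d (Lop c) a b a1 1) (a2 - 1) (rr a1)).s := by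
    intro h0
    rw [e3, hE0 h0, mul_zero, zero_add]
    exact mul_pos hp (mul_pos hk ga)
  have hT : 0 < Tc (rr a1) ((a2 - 1) / 2) (jlg (fun a b => PP d c a b a1 1) (a2 - 1) (rr a1))
      (jlg (fun a b => PP d (Lop c) a b a1 1) (a2 - 1) (rr a1)) := by
    rw [e5]
    refine mul_pos (pow_pos hp 5) ?_
    refine quad_pos (mul_pos ga gb) (mul_pos (pow_pos ga 2) gw) ?_ hk
    nlinarith [g3]
  refine ⟨⟨?_, hT⟩, hq, ?_, ?_⟩
  · refine sum_pos2 (by positivity) hr1 ?_ ?_ hT hq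
    · rw [e1]
      exact hS
    · rw [e4]
      exact mul_pos (pow_pos hp 3) ga
  · rw [e2]
    exact neg_lt_zero.2 (mul_pos hp gt)
  · intro h0
    rw [w (hE0 h0)]
    exact div_pos (mul_pos (pow_pos hp 3) gw) two_pos

end S5

end Lq
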