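import Pool.Agent.Lq.S5C

/-!
# Section 5, part D: the region `a1, a2 > 1`
-/

set_option autoImplicit false
set_option linter.unusedSimpArgs false
set_option linter.unusedVariables false

namespace Lq

namespace S5

/-- the jet in the region `a1, a2 > 1` -/
def jgg (P : ℕ → ℕ → ℝ) (k1 k2 : ℝ) : Jet :=
  ⟨(P 0 0 + k2 * P 0 1) + k1 * (P 1 0 + k2 * P 1 1), P 1 0 + k2 * P 1 1, P 0 1 + k1 * P 1 1,
    P 1 1, P 1 0 + k2 * P 1 1, P 0 1 + k1 * P 1 1⟩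

theorem lim_gg' (d : ℕ) (c : ℕ → ℕ → ℝ) {a1 a2 : ℝ} (h1 : 1 < a1) (h2 : 1 < a2) :
    limJet d c a1 a2 = jgg (fun a b => PP d c a b 1 1) (a1 - 1) (a2 - 1) := lim_gg d c h1 h2

/-- the quantity `4 T / p^5` -/
noncomputable def tt (a b c e k1 k2 E1 E2 : ℝ) : ℝ :=
  4 * a * b * (E1 * E2) * (E1 * E2 + k1 * k2 * e) +
    4 * e * (a ^ 2 * k1 ^ 2 * E2 ^ 2 + b ^ 2 * k2 ^ 2 * E1 ^ 2) +
    4 * c * (a * k1 * E2 + b * k2 * E1) * (E1 * E2 + k1 * k2 * e) +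
    c ^ 2 * k1 * k2 * (3 * (E1 * E2) + k1 * k2 * e)

theorem tt_id (a b c e k1 k2 E1 E2 : ℝ) :
    e * tt a b c e k1 k2 E1 E2 =
      4 * (a * b * e - 4 * c ^ 2) * ((E1 * E2) ^ 2 + 2 * (k1 * k2 * e) * (E1 * E2)) +
      c ^ 2 * (12 * (E1 * E2) ^ 2 + 27 * (k1 * k2 * e) * (E1 * E2) - 3 * (k1 * k2 * e) ^ 2) +
      3 * e ^ 2 * (a * k1 * E2 - b * k2 * E1) ^ 2 +
      (e * (a * k1 * E2 + b * k2 * E1) + 2 * c * (E1 * E2 + k1 * k2 * e)) ^ 2 := by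
  unfold tt
  ring

theorem tt_pos {a b c e k1 k2 E1 E2 : ℝ} (he : 0 < e) (hk1 : 0 < k1) (hk2 : 0 < k2)
    (hE1 : 0 < E1) (hE2 : 0 < E2) (h4 : 4 * c ^ 2 < a * b * e)
    (hS : k1 * k2 * e ≤ E1 * E2) : 0 < tt a b c e k1 k2 E1 E2 := by
  have hP : 0 < E1 * E2 := mul_pos hE1 hE2
  have hep : 0 < k1 * k2 * e := by positivity
  have h : 0 < e * tt a b c e k1 k2 E1 E2 := by
    rw [tt_id]
    have u1 : 0 < 4 * (a * b * e - 4 * c ^ 2) *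
        ((E1 * E2) ^ 2 + 2 * (k1 * k2 * e) * (E1 * E2)) := by
      refine mul_pos (by linarith) (by positivity)
    have u2 : 0 ≤ c ^ 2 * (12 * (E1 * E2) ^ 2 + 27 * (k1 * k2 * e) * (E1 * E2)
        - 3 * (k1 * k2 * e) ^ 2) := by
      refine mul_nonneg (sq_nonneg c) ?_
      nlinarith [mul_le_mul_of_nonneg_left hS hep.le, mul_pos hep hP, sq_nonneg (E1 * E2)]
    have u3 : 0 ≤ 3 * e ^ 2 * (a * k1 * E2 - b * k2 * E1) ^ 2 := by positivity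
    have u4 : 0 ≤ (e * (a * k1 * E2 + b * k2 * E1) + 2 * c * (E1 * E2 + k1 * k2 * e)) ^ 2 :=
      sq_nonneg _
    linarith
  exact pos_of_mul_pos_right h he.le

section RegB

variable {P Q : ℕ → ℕ → ℝ} {p t1 t2 t11 t12 t22 t112 t122 h h1 h2 h11 h12 h22 h112 h122 : ℝ}

theorem alg_gg (R : RelT P Q p t1 t2 t11 t12 t22 t112 t122 h h1 h2 h11 h12 h22 h112 h122)
    (k1 k2 : ℝ) :
    (jgg P k1 k2).s = p * ((1 - k1 * t1) * (1 - k2 * t2) - k1 * k2 * t12) ∧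
    (jgg P k1 k2).s1 = -(p * (t1 * (1 - k2 * t2) + k2 * t12)) ∧
    (jgg P k1 k2).s2 = -(p * (t2 * (1 - k1 * t1) + k1 * t12)) ∧
    (jgg Q k1 k2).s = p * (h * ((1 - k1 * t1) * (1 - k2 * t2) - k1 * k2 * t12) +
      (h1 * k1 * (1 - k2 * t2) + h2 * k2 * (1 - k1 * t1) + h12 * (k1 * k2))) ∧
    q11 (k1 / 2) (jgg P k1 k2) (jgg Q k1 k2) = p ^ 3 * ((1 - k2 * t2) *
      (h1 * (1 - k2 * t2) ^ 2 + h12 * (k2 * (1 - k2 * t2)) + h2 * t12 * k2 ^ 2)) ∧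
    q22 (k2 / 2) (jgg P k1 k2) (jgg Q k1 k2) = p ^ 3 * ((1 - k1 * t1) *
      (h2 * (1 - k1 * t1) ^ 2 + h12 * (k1 * (1 - k1 * t1)) + h1 * t12 * k1 ^ 2)) ∧
    Tc (k1 / 2) (k2 / 2) (jgg P k1 k2) (jgg Q k1 k2) =
      p ^ 5 / 4 * tt h1 h2 h12 t12 k1 k2 (1 - k1 * t1) (1 - k2 * t2) := by
  refine ⟨?_, ?_, ?_, ?_, ?_, ?_, ?_⟩
  · simp only [jgg, R.p00, R.p10, R.p01, R.p11]
    ring
  · simp only [jgg, R.p00, R.p10, R.p01, R.p11]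
    ring
  · simp only [jgg, R.p00, R.p10, R.p01, R.p11]
    ring
  · simp only [jgg, R.q00, R.q10, R.q01, R.q11]
    ring
  · unfold q11
    simp only [jgg, R.p00, R.p10, R.p01, R.p11, R.q00, R.q10, R.q01, R.q11]
    ring
  · unfold q22
    simp only [jgg, R.p00, R.p10, R.p01, R.p11, R.q00, R.q10, R.q01, R.q11]
    ring
  · unfold Tc tt
    simp only [jgg, R.p00, R.p10, R.p01, R.p11, R.q00, R.q10, R.q01, R.q11]
    ring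

end RegB

theorem wall_gg (P : ℕ → ℕ → ℝ) (k1 k2 : ℝ) (h0 : (jgg P k1 k2).s = 0) :
    Tb 1 (k1 / 2) (k2 / 2) 0 0 (jgg P k1 k2) =
      P 0 0 * ((jgg P k1 k2).s1 * (jgg P k1 k2).s2) / 2 := by
  have h1 : P 0 0 = -(k2 * P 0 1 + k1 * (P 1 0 + k2 * P 1 1)) := by
    have : (P 0 0 + k2 * P 0 1) + k1 * (P 1 0 + k2 * P 1 1) = 0 := h0
    linarith
  unfold Tb
  rw [h0]
  simp only [jgg, h1]
  ring

theorem corner_gg (P : ℕ → ℕ → ℝ) {k1 k2 : ℝ} (hk1 : k1 ≠ 0) (hk2 : k2 ≠ 0) :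
    Tb 1 (k1 / 2) (k2 / 2) (1 / (2 * k1)) (1 / (2 * k2)) (jgg P k1 k2) =
      (P 0 0 * (((jgg P k1 k2).s - k1 * (jgg P k1 k2).s1) *
        ((jgg P k1 k2).s - k2 * (jgg P k1 k2).s2)) +
        k1 * k2 * P 0 0 * (P 1 0 * P 0 1 - P 0 0 * P 1 1)) / (4 * (k1 * k2)) := by
  unfold Tb
  simp only [jgg]
  field_simp
  ring

end S5

end Lq
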