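import Pool.Agent.Lq.S5D

/-!
# Section 5, part E: the region `a1, a2 > 1` and assembly
-/

set_option autoImplicit false
set_option linter.unusedSimpArgs false
set_option linter.unusedVariables false

namespace Lq

namespace S5

/-- everything in the region `a1, a2 > 1` -/
theorem all_gg {d : ℕ} {c : ℕ → ℕ → ℝ} {t : ℕ → ℕ → ℝ → ℝ → ℝ} (G : GR d c t) {a1 a2 : ℝ}
    (h1 : 1 < a1) (h2 : 1 < a2) (hS : 0 ≤ (limJet d c a1 a2).s)
    (hE1 : 0 < 1 - (a1 - 1) * t 1 0 1 1) (hE2 : 0 < 1 - (a2 - 1) * t 0 1 1 1) :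
    (0 < q11 (rr a1) (limJet d c a1 a2) (limJet d (Lop c) a1 a2)
        + q22 (rr a2) (limJet d c a1 a2) (limJet d (Lop c) a1 a2) ∧
      0 < Tc (rr a1) (rr a2) (limJet d c a1 a2) (limJet d (Lop c) a1 a2)) ∧
    ((limJet d c a1 a2).s = 0 → 0 < (limJet d (Lop c) a1 a2).s) ∧
    (limJet d c a1 a2).s1 < 0 ∧ (limJet d c a1 a2).s2 < 0 ∧
    ((limJet d c a1 a2).s = 0 → 0 < Tb 1 (rr a1) (rr a2) 0 0 (limJet d c a1 a2)) ∧
    0 < Tb 1 (rr a1) (rr a2) (1 / (2 * (a1 - 1))) (1 / (2 * (a2 - 1))) (limJet d c a1 a2) := by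
  have hp : 0 < PP d c 0 0 1 1 := G.pos 1 1 zero_le_one le_rfl zero_le_one le_rfl
  have R := relT_at G.deg (G.rel 1 1 zero_le_one le_rfl zero_le_one le_rfl)
  have hk1 : 0 < a1 - 1 := by linarith
  have hk2 : 0 < a2 - 1 := by linarith
  obtain ⟨e1, e2, e3, e4, e5, e6, e7⟩ := alg_gg R (a1 - 1) (a2 - 1)
  have ga := G.gg.g1a 1 1 zero_le_one le_rfl zero_le_one le_rfl
  rw [rr_one, zero_mul, add_zero] at ga
  have gb := G.gg.g1b 1 1 zero_le_one le_rfl zero_le_one le_rfl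
  rw [rr_one, zero_mul, add_zero] at gb
  have gt1 := G.gg.g2a 1 zero_le_one le_rfl
  have gt2 := G.gg.g2b 1 zero_le_one le_rfl
  have ge := G.gg.g2c 1 zero_le_one le_rfl
  rw [rr_one, zero_mul, add_zero] at ge
  have g4 := G.gg.g4
  have hw := wall_gg (fun a b => PP d c a b 1 1) (a1 - 1) (a2 - 1)
  have hc := corner_gg (fun a b => PP d c a b 1 1) hk1.ne' hk2.ne'
  rw [lim_gg' d c h1 h2] at hS ⊢
  rw [lim_gg' d (Lop c) h1 h2, rr_gt h1, rr_gt h2]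
  have hs1 : (jgg (fun a b => PP d c a b 1 1) (a1 - 1) (a2 - 1)).s1 < 0 := by
    rw [e2]
    exact neg_lt_zero.2 (mul_pos hp (add_pos (mul_pos gt1 hE2) (mul_pos hk2 ge)))
  have hs2 : (jgg (fun a b => PP d c a b 1 1) (a1 - 1) (a2 - 1)).s2 < 0 := by
    rw [e3]
    exact neg_lt_zero.2 (mul_pos hp (add_pos (mul_pos gt2 hE1) (mul_pos hk1 ge)))
  have hS' : (a1 - 1) * (a2 - 1) * t 1 1 1 1 ≤
      (1 - (a1 - 1) * t 1 0 1 1) * (1 - (a2 - 1) * t 0 1 1 1) := by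
    rw [e1] at hS
    have := nonneg_of_mul_nonneg_right hS hp
    linarith
  have hform : ∀ k E : ℝ, 0 < k → 0 < E → 0 < Hf t 1 0 1 1 * E ^ 2 +
      Hf t 1 1 1 1 * (k * E) + Hf t 0 1 1 1 * t 1 1 1 1 * k ^ 2 := by
    intro k E hk hE
    refine quad_pos ga (mul_pos gb ge) ?_ hk
    linarith [g4, sq_nonneg (Hf t 1 1 1 1), mul_pos (mul_pos ga gb) ge]
  have hform2 : ∀ k E : ℝ, 0 < k → 0 < E → 0 < Hf t 0 1 1 1 * E ^ 2 +
      Hf t 1 1 1 1 * (k * E) + Hf t 1 0 1 1 * t 1 1 1 1 * k ^ 2 := by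
    intro k E hk hE
    refine quad_pos gb (mul_pos ga ge) ?_ hk
    linarith [g4, sq_nonneg (Hf t 1 1 1 1), mul_pos (mul_pos ga gb) ge]
  refine ⟨⟨?_, ?_⟩, ?_, hs1, hs2, ?_, ?_⟩
  · rw [e5, e6]
    exact add_pos (mul_pos (pow_pos hp 3) (mul_pos hE2 (hform _ _ hk2 hE2)))
      (mul_pos (pow_pos hp 3) (mul_pos hE1 (hform2 _ _ hk1 hE1)))
  · rw [e7]
    exact mul_pos (div_pos (pow_pos hp 5) (by norm_num)) (tt_pos ge hk1 hk2 hE1 hE2 g4 hS')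
  · intro h0
    rw [e1] at h0
    have h3 : (1 - (a1 - 1) * t 1 0 1 1) * (1 - (a2 - 1) * t 0 1 1 1)
        - (a1 - 1) * (a2 - 1) * t 1 1 1 1 = 0 := by
      rcases mul_eq_zero.1 h0 with h | h
      · exact absurd h hp.ne'
      · exact h
    rw [e4, h3, mul_zero, zero_add]
    refine mul_pos hp ?_
    -- `X + Y + c k1 k2 > 0`
    set X := Hf t 1 0 1 1 * (a1 - 1) * (1 - (a2 - 1) * t 0 1 1 1) with hX
    set Y := Hf t 0 1 1 1 * (a2 - 1) * (1 - (a1 - 1) * t 1 0 1 1) with hY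
    have hXp : 0 < X := mul_pos (mul_pos ga hk1) hE2
    have hYp : 0 < Y := mul_pos (mul_pos gb hk2) hE1
    have hXY : X * Y = Hf t 1 0 1 1 * Hf t 0 1 1 1 * t 1 1 1 1 * ((a1 - 1) * (a2 - 1)) ^ 2 := by
      have : (1 - (a1 - 1) * t 1 0 1 1) * (1 - (a2 - 1) * t 0 1 1 1) =
        (a1 - 1) * (a2 - 1) * t 1 1 1 1 := by linarith
      calc X * Y = Hf t 1 0 1 1 * Hf t 0 1 1 1 * ((a1 - 1) * (a2 - 1)) *
          ((1 - (a1 - 1) * t 1 0 1 1) * (1 - (a2 - 1) * t 0 1 1 1)) := by rw [hX, hY]; ring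
        _ = _ := by rw [this]; ring
    have hkk : 0 < (a1 - 1) * (a2 - 1) := mul_pos hk1 hk2
    have h5 : (Hf t 1 1 1 1 * ((a1 - 1) * (a2 - 1))) ^ 2 < (X + Y) ^ 2 := by
      have h6 : 4 * (Hf t 1 1 1 1 * ((a1 - 1) * (a2 - 1))) ^ 2 < X * Y := by
        rw [hXY]
        have := mul_lt_mul_of_pos_right g4 (pow_pos hkk 2)
        linarith [this]
      linarith [sq_nonneg (X - Y), sq_nonneg (Hf t 1 1 1 1 * ((a1 - 1) * (a2 - 1)))]
    have h7 := abs_lt_of_sq_lt_sq h5 (by linarith)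
    have h8 := (abs_lt.1 h7).1
    linarith
  · intro h0
    rw [hw h0]
    exact div_pos (mul_pos hp (mul_pos_of_neg_of_neg hs1 hs2)) two_pos
  · rw [hc]
    refine div_pos ?_ (by positivity)
    refine add_pos ?_ ?_
    · refine mul_pos hp (mul_pos ?_ ?_)
      · have := mul_neg_of_pos_of_neg hk1 hs1
        linarith
      · have := mul_neg_of_pos_of_neg hk2 hs2
        linarith
    · have h9 : PP d c 1 0 1 1 * PP d c 0 1 1 1 - PP d c 0 0 1 1 * PP d c 1 1 1 1 =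
          PP d c 0 0 1 1 ^ 2 * t 1 1 1 1 := by
        have r10 : PP d c 1 0 1 1 = _ := R.p10
        have r01 : PP d c 0 1 1 1 = _ := R.p01
        have r11 : PP d c 1 1 1 1 = _ := R.p11
        rw [r10, r01, r11]
        ring
      refine mul_pos (mul_pos (mul_pos hk1 hk2) hp) ?_
      change 0 < PP d c 1 0 1 1 * PP d c 0 1 1 1 - PP d c 0 0 1 1 * PP d c 1 1 1 1
      rw [h9]
      exact mul_pos (pow_pos hp 2) ge

/-- lower bound for `θ_1(1, y)` -/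
theorem low1 {d : ℕ} {c : ℕ → ℕ → ℝ} {t : ℕ → ℕ → ℝ → ℝ → ℝ} (G : GR d c t) :
    ∃ m : ℝ, 0 < m ∧ ∀ y : ℝ, 0 ≤ y → y ≤ 1 → m ≤ t 1 0 1 y := by
  have he : ∀ y ∈ Set.Icc (0 : ℝ) 1, t 1 0 1 y = -PP d c 1 0 1 y / PP d c 0 0 1 y := by
    intro y hy
    have hp := G.pos 1 y zero_le_one le_rfl hy.1 hy.2
    have r := (G.rel 1 y zero_le_one le_rfl hy.1 hy.2).r10
    rw [r, neg_neg, mul_div_assoc, div_self hp.ne', mul_one]
  have hc : ContinuousOn (fun y => t 1 0 1 y) (Set.Icc (0 : ℝ) 1) := by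
    refine ContinuousOn.congr (f := fun y => -PP d c 1 0 1 y / PP d c 0 0 1 y) ?_ he
    refine ContinuousOn.div (PP_cont2 d c 1 0 1).neg.continuousOn
      (PP_cont2 d c 0 0 1).continuousOn ?_
    intro y hy
    exact (G.pos 1 y zero_le_one le_rfl hy.1 hy.2).ne'
  obtain ⟨y0, hy0, hm⟩ := isCompact_Icc.exists_isMinOn (Set.nonempty_Icc.2 zero_le_one) hc
  refine ⟨t 1 0 1 y0, G.gg.g2a y0 hy0.1 hy0.2, fun y h0 h1 => ?_⟩
  exact hm ⟨h0, h1⟩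

/-- lower bound for `θ_2(x, 1)` -/
theorem low2 {d : ℕ} {c : ℕ → ℕ → ℝ} {t : ℕ → ℕ → ℝ → ℝ → ℝ} (G : GR d c t) :
    ∃ m : ℝ, 0 < m ∧ ∀ x : ℝ, 0 ≤ x → x ≤ 1 → m ≤ t 0 1 x 1 := by
  have he : ∀ x ∈ Set.Icc (0 : ℝ) 1, t 0 1 x 1 = -PP d c 0 1 x 1 / PP d c 0 0 x 1 := by
    intro x hx
    have hp := G.pos x 1 hx.1 hx.2 zero_le_one le_rfl
    have r := (G.rel x 1 hx.1 hx.2 zero_le_one le_rfl).r01
    rw [r, neg_neg, mul_div_assoc, div_self hp.ne', mul_one]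
  have hc : ContinuousOn (fun x => t 0 1 x 1) (Set.Icc (0 : ℝ) 1) := by
    refine ContinuousOn.congr (f := fun x => -PP d c 0 1 x 1 / PP d c 0 0 x 1) ?_ he
    refine ContinuousOn.div (PP_cont1 d c 0 1 1).neg.continuousOn
      (PP_cont1 d c 0 0 1).continuousOn ?_
    intro x hx
    exact (G.pos x 1 hx.1 hx.2 zero_le_one le_rfl).ne'
  obtain ⟨x0, hx0, hm⟩ := isCompact_Icc.exists_isMinOn (Set.nonempty_Icc.2 zero_le_one) hc
  refine ⟨t 0 1 x0 1, G.gg.g2b x0 hx0.1 hx0.2, fun x h0 h1 => ?_⟩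
  exact hm ⟨h0, h1⟩

theorem s_gg {d : ℕ} {c : ℕ → ℕ → ℝ} {t : ℕ → ℕ → ℝ → ℝ → ℝ} (G : GR d c t) {a1 a2 : ℝ}
    (h1 : 1 < a1) (h2 : 1 < a2) : (limJet d c a1 a2).s = PP d c 0 0 1 1 *
      ((1 - (a1 - 1) * t 1 0 1 1) * (1 - (a2 - 1) * t 0 1 1 1)
        - (a1 - 1) * (a2 - 1) * t 1 1 1 1) := by
  have R := relT_at G.deg (G.rel 1 1 zero_le_one le_rfl zero_le_one le_rfl)
  rw [lim_gg' d c h1 h2]
  exact (alg_gg R (a1 - 1) (a2 - 1)).1

theorem s_gl {d : ℕ} {c : ℕ → ℕ → ℝ} {t : ℕ → ℕ → ℝ → ℝ → ℝ} (G : GR d c t) {a1 a2 : ℝ}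
    (h1 : 1 < a1) (h2 : 0 ≤ a2) (h2' : a2 ≤ 1) : (limJet d c a1 a2).s = PP d c 0 0 1 a2 *
      (1 - (a1 - 1) * t 1 0 1 a2) := by
  have R := relT_at G.deg (G.rel 1 a2 zero_le_one le_rfl h2 h2')
  rw [lim_gl' d c h1 h2']
  exact (alg_gl R (a1 - 1) (rr a2)).1

theorem s_lg {d : ℕ} {c : ℕ → ℕ → ℝ} {t : ℕ → ℕ → ℝ → ℝ → ℝ} (G : GR d c t) {a1 a2 : ℝ}
    (h1 : 0 ≤ a1) (h1' : a1 ≤ 1) (h2 : 1 < a2) : (limJet d c a1 a2).s = PP d c 0 0 a1 1 *
      (1 - (a2 - 1) * t 0 1 a1 1) := by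
  have R := relT_at G.deg (G.rel a1 1 h1 h1' zero_le_one le_rfl)
  rw [lim_lg' d c h1' h2]
  exact (alg_lg R (a2 - 1) (rr a1)).1

/-- two numbers with positive product -/
theorem both {u v : ℝ} (h : 0 < u * v) : (0 < u ∧ 0 < v) ∨ (u < 0 ∧ v < 0) := by
  rcases lt_trichotomy u 0 with hu | hu | hu
  · right
    refine ⟨hu, ?_⟩
    by_contra hv
    have := mul_nonpos_of_nonpos_of_nonneg hu.le (not_lt.1 hv)
    linarith
  · rw [hu, zero_mul] at h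
    exact absurd h (lt_irrefl _)
  · left
    exact ⟨hu, pos_of_mul_pos_right h hu.le⟩

/-- both factors negative: the forbidden corner -/
theorem bad_of_neg {a1 a2 T1 T2 : ℝ} (hT1 : 0 < T1) (hT2 : 0 < T2) (h1 : 1 < a1) (h2 : 1 < a2)
    (hE1 : 1 - (a1 - 1) * T1 < 0) (hE2 : 1 - (a2 - 1) * T2 < 0) :
    badS (1 / (2 * (T1 + T2))) (T1 + T2) a1 a2 := by
  have hk1 : 0 < a1 - 1 := by linarith
  have hk2 : 0 < a2 - 1 := by linarith
  have u1 : 1 / T1 < a1 - 1 := by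
    rw [div_lt_iff₀ hT1]
    linarith
  have u2 : 1 / T2 < a2 - 1 := by
    rw [div_lt_iff₀ hT2]
    linarith
  have v1 : 1 / (2 * (T1 + T2)) < 1 / T1 :=
    one_div_lt_one_div_of_lt hT1 (by linarith)
  have v2 : 1 / (2 * (T1 + T2)) < 1 / T2 :=
    one_div_lt_one_div_of_lt hT2 (by linarith)
  refine ⟨by linarith, by linarith, ?_⟩
  have w1 : 1 / (a1 - 1) < T1 := by
    rw [div_lt_iff₀ hk1]
    linarith
  have w2 : 1 / (a2 - 1) < T2 := by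
    rw [div_lt_iff₀ hk2]
    linarith
  linarith

theorem limOK {d : ℕ} {c : ℕ → ℕ → ℝ} {t : ℕ → ℕ → ℝ → ℝ → ℝ} (G : GR d c t) :
    ∃ b ks th : ℝ, LimOK d c b ks th := by
  obtain ⟨m1, hm1, hl1⟩ := low1 G
  obtain ⟨m2, hm2, hl2⟩ := low2 G
  have hp : 0 < PP d c 0 0 1 1 := G.pos 1 1 zero_le_one le_rfl zero_le_one le_rfl
  have hT1 : 0 < t 1 0 1 1 := G.gg.g2a 1 zero_le_one le_rfl
  have hT2 : 0 < t 0 1 1 1 := G.gg.g2b 1 zero_le_one le_rfl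
  have ge := G.gg.g2c 1 zero_le_one le_rfl
  rw [rr_one, zero_mul, add_zero] at ge
  set T1 := t 1 0 1 1 with hT1d
  set T2 := t 0 1 1 1 with hT2d
  have hth : 0 < T1 + T2 := by linarith
  have hks : 0 < 1 / (2 * (T1 + T2)) := by positivity
  have hm1' : 0 < 1 / m1 := by positivity
  have hm2' : 0 < 1 / m2 := by positivity
  set b := 2 + 1 / (2 * (T1 + T2)) + 1 / m1 + 1 / m2 with hb
  have hpos : ∀ a1 a2 : ℝ, 0 ≤ a1 → a1 ≤ 1 → 0 ≤ a2 → a2 ≤ 1 → 0 < (limJet d c a1 a2).s := by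
    intro a1 a2 h1 h1' h2 h2'
    rw [lim_ll d c h1' h2']
    exact G.pos a1 a2 h1 h1' h2 h2'
  -- the signs of the two factors
  have hE : ∀ a1 a2 : ℝ, 1 < a1 → 1 < a2 → 0 ≤ (limJet d c a1 a2).s →
      (0 < 1 - (a1 - 1) * T1 ∧ 0 < 1 - (a2 - 1) * T2) ∨
      (1 - (a1 - 1) * T1 < 0 ∧ 1 - (a2 - 1) * T2 < 0) := by
    intro a1 a2 h1 h2 hS
    refine both ?_
    rw [s_gg G h1 h2] at hS
    have h3 := nonneg_of_mul_nonneg_right hS hp
    have h4 : 0 < (a1 - 1) * (a2 - 1) * t 1 1 1 1 :=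
      mul_pos (mul_pos (by linarith) (by linarith)) ge
    linarith
  have hgood : ∀ a1 a2 : ℝ, 1 < a1 → 1 < a2 → 0 ≤ (limJet d c a1 a2).s →
      ¬ badS (1 / (2 * (T1 + T2))) (T1 + T2) a1 a2 →
      (0 < 1 - (a1 - 1) * T1 ∧ 0 < 1 - (a2 - 1) * T2) := by
    intro a1 a2 h1 h2 hS hbad
    rcases hE a1 a2 h1 h2 hS with h | h
    · exact h
    · exact absurd (bad_of_neg hT1 hT2 h1 h2 h.1 h.2) hbad
  -- large coordinates
  have hbig1 : ∀ y : ℝ, 0 ≤ y → y ≤ 1 → 1 - (b - 1) * t 1 0 1 y < 0 := by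
    intro y h0 h1
    have h2 := hl1 y h0 h1
    have h3 : 1 / m1 < b - 1 := by linarith
    have h4 : 1 < (b - 1) * m1 := by
      rw [div_lt_iff₀ hm1] at h3
      exact h3
    have h5 : (b - 1) * m1 ≤ (b - 1) * t 1 0 1 y :=
      mul_le_mul_of_nonneg_left h2 (by linarith)
    linarith
  have hbig2 : ∀ x : ℝ, 0 ≤ x → x ≤ 1 → 1 - (b - 1) * t 0 1 x 1 < 0 := by
    intro x h0 h1
    have h2 := hl2 x h0 h1
    have h3 : 1 / m2 < b - 1 := by linarith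
    have h4 : 1 < (b - 1) * m2 := by
      rw [div_lt_iff₀ hm2] at h3
      exact h3
    have h5 : (b - 1) * m2 ≤ (b - 1) * t 0 1 x 1 :=
      mul_le_mul_of_nonneg_left h2 (by linarith)
    linarith
  have hb1 : 1 < b := by linarith
  refine ⟨b, 1 / (2 * (T1 + T2)), T1 + T2, ?_⟩
  refine ⟨G.deg, by linarith, hks, hth, ?_, hpos, ?_, ?_, ?_, ?_, ?_, ?_, ?_, ?_, ?_⟩
  · -- hthks
    rw [one_div_one_div]
    linarith
  · -- line
    intro a1 a2 h1 _ h2 _ hl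
    have g1 : 1 < a1 := by linarith
    have g2 : 1 < a2 := by linarith
    have hk1 : 0 < a1 - 1 := by linarith
    have hk2 : 0 < a2 - 1 := by linarith
    rw [s_gg G g1 g2]
    refine mul_neg_of_pos_of_neg hp ?_
    have h3 : (1 - (a1 - 1) * T1) * (1 - (a2 - 1) * T2) =
        -((a1 - 1) * (a2 - 1) * (1 / (a1 - 1) - T1) ^ 2) := by
      have h4 : T2 = 1 / (a1 - 1) + 1 / (a2 - 1) - T1 := by linarith
      rw [h4]
      field_simp
      ring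
    have h5 : 0 ≤ (a1 - 1) * (a2 - 1) * (1 / (a1 - 1) - T1) ^ 2 := by positivity
    have h6 : 0 < (a1 - 1) * (a2 - 1) * t 1 1 1 1 := mul_pos (mul_pos hk1 hk2) ge
    rw [h3]
    linarith
  · -- box
    intro a1 a2 h1 h1' h2 h2' hor hS
    rcases hor with hb' | hb'
    · -- a1 = b
      have g1 : 1 < a1 := by linarith
      rcases le_or_gt a2 1 with h3 | h3
      · exfalso
        rw [s_gl G g1 h2 h3] at hS
        have h4 := nonneg_of_mul_nonneg_right hS (G.pos 1 a2 zero_le_one le_rfl h2 h3)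
        have h5 := hbig1 a2 h2 h3
        rw [hb'] at h4
        linarith
      · rcases hE a1 a2 g1 h3 hS with h | h
        · exfalso
          have h5 := hbig1 1 zero_le_one le_rfl
          have h6 := h.1
          rw [hb'] at h6
          linarith
        · exact bad_of_neg hT1 hT2 g1 h3 h.1 h.2
    · -- a2 = b
      have g2 : 1 < a2 := by linarith
      rcases le_or_gt a1 1 with h3 | h3
      · exfalso
        rw [s_lg G h1 h3 g2] at hS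
        have h4 := nonneg_of_mul_nonneg_right hS (G.pos a1 1 h1 h3 zero_le_one le_rfl)
        have h5 := hbig2 a1 h1 h3
        rw [hb'] at h4
        linarith
      · rcases hE a1 a2 h3 g2 hS with h | h
        · exfalso
          have h5 := hbig2 1 zero_le_one le_rfl
          have h6 := h.2
          rw [hb'] at h6
          linarith
        · exact bad_of_neg hT1 hT2 h3 g2 h.1 h.2
  · -- conv
    rintro a1 a2 ⟨⟨h1, _⟩, ⟨h2, _⟩, hS, hbad⟩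
    rcases le_or_gt a1 1 with h1' | h1'
    · rcases le_or_gt a2 1 with h2' | h2'
      · exact conv_ll G h1 h1' h2 h2'
      · exact (all_lg G h1 h1' h2' hS).1
    · rcases le_or_gt a2 1 with h2' | h2'
      · exact (all_gl G h1' h2 h2' hS).1
      · obtain ⟨e1, e2⟩ := hgood a1 a2 h1' h2' hS hbad
        exact (all_gg G h1' h2' hS e1 e2).1
  · -- qpos
    rintro a1 a2 ⟨⟨h1, _⟩, ⟨h2, _⟩, hS, hbad⟩ h0
    rcases le_or_gt a1 1 with h1' | h1'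
    · rcases le_or_gt a2 1 with h2' | h2'
      · exact absurd h0 (hpos a1 a2 h1 h1' h2 h2').ne'
      · exact (all_lg G h1 h1' h2' hS).2.1 h0
    · rcases le_or_gt a2 1 with h2' | h2'
      · exact (all_gl G h1' h2 h2' hS).2.1 h0
      · obtain ⟨e1, e2⟩ := hgood a1 a2 h1' h2' hS hbad
        exact (all_gg G h1' h2' hS e1 e2).2.1 h0
  · -- neg1
    rintro a1 a2 ⟨⟨h1, _⟩, ⟨h2, _⟩, hS, hbad⟩ h1'
    rcases le_or_gt a2 1 with h2' | h2'
    · exact (all_gl G h1' h2 h2' hS).2.2.1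
    · obtain ⟨e1, e2⟩ := hgood a1 a2 h1' h2' hS hbad
      exact (all_gg G h1' h2' hS e1 e2).2.2.1
  · -- neg2
    rintro a1 a2 ⟨⟨h1, _⟩, ⟨h2, _⟩, hS, hbad⟩ h2'
    rcases le_or_gt a1 1 with h1' | h1'
    · exact (all_lg G h1 h1' h2' hS).2.2.1
    · obtain ⟨e1, e2⟩ := hgood a1 a2 h1' h2' hS hbad
      exact (all_gg G h1' h2' hS e1 e2).2.2.2.1
  · -- wall
    rintro a1 a2 ⟨⟨h1, _⟩, ⟨h2, _⟩, hS, hbad⟩ h0
    rcases le_or_gt a1 1 with h1' | h1'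
    · rcases le_or_gt a2 1 with h2' | h2'
      · exact absurd h0 (hpos a1 a2 h1 h1' h2 h2').ne'
      · exact (all_lg G h1 h1' h2' hS).2.2.2 h0
    · rcases le_or_gt a2 1 with h2' | h2'
      · exact (all_gl G h1' h2 h2' hS).2.2.2 h0
      · obtain ⟨e1, e2⟩ := hgood a1 a2 h1' h2' hS hbad
        exact (all_gg G h1' h2' hS e1 e2).2.2.2.2.1 h0
  · -- corner
    rintro a1 a2 ⟨⟨h1, _⟩, ⟨h2, _⟩, hS, hbad⟩ h1' h2'
    obtain ⟨e1, e2⟩ := hgood a1 a2 h1' h2' hS hbad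
    exact (all_gg G h1' h2' hS e1 e2).2.2.2.2.2
  · -- gain
    have hh0 : (0 : ℝ) ≤ 1 / 2 := by norm_num
    have hh1 : (1 / 2 : ℝ) ≤ 1 := by norm_num
    have hq := G.pos (1 / 2) (1 / 2) hh0 hh1 hh0 hh1
    have R := relT_at G.deg (G.rel (1 / 2) (1 / 2) hh0 hh1 hh0 hh1)
    have g5 := G.gg.g5
    have f0 : e0 = fun i => mm 0 i (1 / 2) := by
      funext i
      rw [mm0]
      rfl
    have f1 : e1 = fun i => mm 1 i (1 / 2) := by
      funext i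
      rw [mm1]
      rfl
    have f2 : e2 = fun i => mm 2 i (1 / 2) := by
      funext i
      rw [mm2]
      rfl
    rw [f0, f1, f2]
    simp only [← PP_eq]
    have r10 : PP d c 1 0 (1 / 2) (1 / 2) = _ := R.p10
    have r01 : PP d c 0 1 (1 / 2) (1 / 2) = _ := R.p01
    have r11 : PP d c 1 1 (1 / 2) (1 / 2) = _ := R.p11
    have r20 : PP d c 2 0 (1 / 2) (1 / 2) = _ := R.p20
    have r02 : PP d c 0 2 (1 / 2) (1 / 2) = _ := R.p02
    rw [r10, r01, r11, r20, r02]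
    have h6 := mul_lt_mul_of_pos_left g5 (pow_pos hq 2)
    linarith [h6]

end S5

/-- section 5: from the delivery of section 6 to `StmtLim` -/
theorem lim_of_goodEx (h : StmtGoodEx) : StmtLim := by
  obtain ⟨d, c, t, hd, hr, hg⟩ := h
  obtain ⟨b, ks, th, hL⟩ := S5.limOK (t := t) (d := d) (c := c)
    ⟨hd, fun y1 y2 h1 h2 h3 h4 => (hr y1 y2 h1 h2 h3 h4).1,
      fun y1 y2 h1 h2 h3 h4 => (hr y1 y2 h1 h2 h3 h4).2, hg⟩
  exact ⟨d, c, b, ks, th, hL⟩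

end Lq
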