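import Pool.Agent.Lq.St1

/-!
# Section 4 of PAPER.md (LQT part): statements of the modules
-/

set_option autoImplicit false

open Filter Topology

namespace Lq

/-! ## forms -/

noncomputable def FF (k : ℕ) (x : ℝ × ℝ) : ℝ := F k 0 x.1 * F (4 * k) 0 x.2

/-- `X . xi`, `xi_i = v_i / x_i` -/
noncomputable def Xf (k : ℕ) (x v : ℝ × ℝ) : ℝ :=
  X k x.1 * (v.1 / x.1) + X (4 * k) x.2 * (v.2 / x.2)

/-- `sum e_i xi_i^2` -/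
noncomputable def Ef (k : ℕ) (x v : ℝ × ℝ) : ℝ :=
  ee k x.1 * (v.1 / x.1) ^ 2 + ee (4 * k) x.2 * (v.2 / x.2) ^ 2

/-- `S' . xi` -/
noncomputable def S1f (k : ℕ) (x v : ℝ × ℝ) (S : Jet) : ℝ :=
  D1 k x.1 * S.s1 * (v.1 / x.1) + D1 (4 * k) x.2 * S.s2 * (v.2 / x.2)

/-- `S''(xi,xi)` -/
noncomputable def S2f (k : ℕ) (x v : ℝ × ℝ) (S : Jet) : ℝ :=
  D2 k x.1 * S.s11 * (v.1 / x.1) ^ 2 + D2 (4 * k) x.2 * S.s22 * (v.2 / x.2) ^ 2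
    + 2 * (D1 k x.1 * D1 (4 * k) x.2 * S.s12 * (v.1 / x.1) * (v.2 / x.2))

/-- `D2_1 xi_1^2 + D2_2 xi_2^2` -/
noncomputable def Df (k : ℕ) (x v : ℝ × ℝ) : ℝ :=
  D2 k x.1 * (v.1 / x.1) ^ 2 + D2 (4 * k) x.2 * (v.2 / x.2) ^ 2

/-- the form `p D2_1 xi_1^2 + q D2_2 xi_2^2 + 2 m D1_1 D1_2 xi_1 xi_2` -/
noncomputable def Nf (k : ℕ) (x v : ℝ × ℝ) (p q m : ℝ) : ℝ :=
  p * (D2 k x.1 * (v.1 / x.1) ^ 2) + q * (D2 (4 * k) x.2 * (v.2 / x.2) ^ 2)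
    + 2 * m * (D1 k x.1 * D1 (4 * k) x.2 * (v.1 / x.1) * (v.2 / x.2))

/-- `r_i = D1_i^2 / D2_i` -/
noncomputable def rk (k : ℕ) (x : ℝ) : ℝ := D1 k x ^ 2 / D2 k x

/-- the curly bracket of (4.2) -/
noncomputable def CB (be : ℝ) (k : ℕ) (x v : ℝ × ℝ) (S : Jet) : ℝ :=
  S.s ^ 2 * Ef k x v + (S1f k x v S) ^ 2 - S.s * S2f k x v S
    - be * (S.s * Xf k x v - S1f k x v S) ^ 2

/-- the jets of `w1 = W (Dop c)`, i.e. `w1 = (4/k) F Q` -/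
noncomputable def kJetQ (k d : ℕ) (c : ℕ → ℕ → ℝ) (x1 x2 : ℝ) : Jet :=
  kJet k d (fun a b => (k : ℝ) / 4 * Dop k d c a b) x1 x2

noncomputable def beta (k : ℕ) : ℝ := 8 / (5 * (k : ℝ) - 7)

/-! ## T1, T2: formulas -/

/-- (4.1) -/
def StmtT1 : Prop := ∀ (k d : ℕ) (c : ℕ → ℕ → ℝ) (x v : ℝ × ℝ), 8 ≤ k → Pos k x.1 →
  Pos (4 * k) x.2 →
  W k d c x = FF k x * (kJet k d c x.1 x.2).s ∧
  d1 (W k d c) x v = FF k x *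
    (S1f k x v (kJet k d c x.1 x.2) - (kJet k d c x.1 x.2).s * Xf k x v) ∧
  d2 (W k d c) x v = FF k x *
    ((kJet k d c x.1 x.2).s * (Xf k x v) ^ 2 - (kJet k d c x.1 x.2).s * Ef k x v
      - 2 * Xf k x v * S1f k x v (kJet k d c x.1 x.2) + S2f k x v (kJet k d c x.1 x.2))

/-- (4.2) and (4.3) -/
def StmtT2 : Prop := ∀ (k d : ℕ) (c : ℕ → ℕ → ℝ) (x v : ℝ × ℝ) (be : ℝ), 8 ≤ k → Pos k x.1 →
  Pos (4 * k) x.2 →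
  (-(W k d c x * d2 (W k d c) x v) + (1 - be) * (d1 (W k d c) x v) ^ 2
    = (FF k x) ^ 2 * CB be k x v (kJet k d c x.1 x.2)) ∧
  (2 * W k d (Dop k d c) x * (d1 (W k d c) x v) ^ 2
      - 2 * W k d c x * d1 (W k d c) x v * d1 (W k d (Dop k d c)) x v
      - W k d c x * W k d (Dop k d c) x * d2 (W k d c) x v
      + (W k d c x) ^ 2 * d2 (W k d (Dop k d c)) x v
    = 4 / (k : ℝ) * (FF k x) ^ 3 * Nf k x v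
        (q11 (rk k x.1) (kJet k d c x.1 x.2) (kJetQ k d c x.1 x.2))
        (q22 (rk (4 * k) x.2) (kJet k d c x.1 x.2) (kJetQ k d c x.1 x.2))
        (q12 (kJet k d c x.1 x.2) (kJetQ k d c x.1 x.2)))

/-! ## T3: linear algebra -/

def StmtT3 : Prop :=
  (∀ (r1 r2 : ℝ) (S Q : Jet),
    q11 r1 S Q * q22 r2 S Q - r1 * r2 * (q12 S Q) ^ 2 = S.s * Tc r1 r2 S Q) ∧
  (∀ (b r1 r2 l1 l2 : ℝ) (S : Jet),
    (l1 * S.s ^ 2 + b * r1 * S.s1 ^ 2 - S.s * S.s11) *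
      (l2 * S.s ^ 2 + b * r2 * S.s2 ^ 2 - S.s * S.s22)
      - r1 * r2 * (b * S.s1 * S.s2 - S.s * S.s12) ^ 2 = S.s * Tb b r1 r2 l1 l2 S) ∧
  (∀ (k : ℕ) (x v : ℝ × ℝ) (p q m : ℝ), 8 ≤ k → 0 < D2 k x.1 → 0 < D2 (4 * k) x.2 →
    0 < p + q → 0 ≤ p * q - rk k x.1 * rk (4 * k) x.2 * m ^ 2 →
    (p * q - rk k x.1 * rk (4 * k) x.2 * m ^ 2) / (p + q) * Df k x v ≤ Nf k x v p q m)

/-! ## two block limits -/

/-- the two block limit setting along a sequence in `D0` -/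
structure LimS (d : ℕ) (c : ℕ → ℕ → ℝ) (b ks th : ℝ) (kk : ℕ → ℕ) (x : ℕ → ℝ × ℝ)
    (a1 a2 : ℝ) : Prop where
  l1 : Lim1 (I := ℕ) atTop kk (fun n => (x n).1) a1
  l2 : Lim1 (I := ℕ) atTop (fun n => 4 * kk n) (fun n => (x n).2) a2
  mem : ∀ n, x n ∈ D0 (kk n) d c b ks th
  k8 : ∀ n, 8 ≤ kk n
  p1 : ∀ n, Pos (kk n) (x n).1
  p2 : ∀ n, Pos (4 * kk n) (x n).2
  gd : Gd d c b ks th a1 a2

/-- T4: selection principle -/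
def StmtSel : Prop := ∀ (d : ℕ) (c : ℕ → ℕ → ℝ) (b ks th : ℝ), LimOK d c b ks th →
  ∀ P : ℝ → ℕ → ℝ × ℝ → Prop, (∀ m m' k x, m' ≤ m → P m k x → P m' k x) →
  (∀ (kk : ℕ → ℕ) (x : ℕ → ℝ × ℝ) (a1 a2 : ℝ), LimS d c b ks th kk x a1 a2 →
    ∃ m : ℝ, 0 < m ∧ ∀ᶠ n in atTop, P m (kk n) (x n)) →
  ∃ m : ℝ, 0 < m ∧ ∀ᶠ k : ℕ in atTop, ∀ x ∈ D0 k d c b ks th, 0 < x.1 → 0 < x.2 → P m k x

/-- convergence of jets, componentwise -/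
structure JetTo (S : ℕ → Jet) (S0 : Jet) : Prop where
  s : Tendsto (fun n => (S n).s) atTop (𝓝 S0.s)
  s1 : Tendsto (fun n => (S n).s1) atTop (𝓝 S0.s1)
  s2 : Tendsto (fun n => (S n).s2) atTop (𝓝 S0.s2)
  s12 : Tendsto (fun n => (S n).s12) atTop (𝓝 S0.s12)
  s11 : Tendsto (fun n => (S n).s11) atTop (𝓝 S0.s11)
  s22 : Tendsto (fun n => (S n).s22) atTop (𝓝 S0.s22)

/-- T5: limits of the jets of `w` and `w1`; and `S > 0` on `D0` -/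
def StmtT5 : Prop := ∀ (d : ℕ) (c : ℕ → ℕ → ℝ) (b ks th : ℝ), LimOK d c b ks th →
  ∀ (kk : ℕ → ℕ) (x : ℕ → ℝ × ℝ) (a1 a2 : ℝ), LimS d c b ks th kk x a1 a2 →
    (∀ n, 0 < (kJet (kk n) d c (x n).1 (x n).2).s) ∧
    JetTo (fun n => kJet (kk n) d c (x n).1 (x n).2) (limJet d c a1 a2) ∧
    JetTo (fun n => kJetQ (kk n) d c (x n).1 (x n).2) (limJet d (Lop c) a1 a2)

/-! ## (c) -/

/-- T6: (c) along sequences -/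
def StmtT6 : Prop := ∀ (d : ℕ) (c : ℕ → ℕ → ℝ) (b ks th : ℝ), LimOK d c b ks th →
  ∀ (kk : ℕ → ℕ) (x : ℕ → ℝ × ℝ) (a1 a2 : ℝ), LimS d c b ks th kk x a1 a2 →
  ∃ m : ℝ, 0 < m ∧ ∀ᶠ n in atTop, ∀ v : ℝ × ℝ,
    m * (kJet (kk n) d c (x n).1 (x n).2).s * Df (kk n) (x n) v ≤
      Nf (kk n) (x n) v
        (q11 (rk (kk n) (x n).1) (kJet (kk n) d c (x n).1 (x n).2)
          (kJetQ (kk n) d c (x n).1 (x n).2))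
        (q22 (rk (4 * kk n) (x n).2) (kJet (kk n) d c (x n).1 (x n).2)
          (kJetQ (kk n) d c (x n).1 (x n).2))
        (q12 (kJet (kk n) d c (x n).1 (x n).2) (kJetQ (kk n) d c (x n).1 (x n).2))

/-! ## (b) -/

/-- `A_F = sum X_i^2/e_i = sum (k_i/2) y_i g_i` -/
noncomputable def AF (k : ℕ) (x : ℝ × ℝ) : ℝ :=
  (k : ℝ) / 2 * yy k x.1 * gg k x.1 + (4 * (k : ℝ)) / 2 * yy (4 * k) x.2 * gg (4 * k) x.2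

noncomputable def ct (k : ℕ) (x : ℝ × ℝ) : ℝ :=
  1 - beta k * (1 + 1 / Real.sqrt k) * AF k x

noncomputable def bb (k : ℕ) : ℝ := 1 - beta k * (1 + Real.sqrt k)

/-- `e/D2` -/
noncomputable def ll (k : ℕ) (x : ℝ) : ℝ := ee k x / D2 k x

/-- T8: the lower bound (4.5) -/
def StmtT8 : Prop := ∀ (k : ℕ) (x v : ℝ × ℝ) (S : Jet), 8 ≤ k → Pos k x.1 → Pos (4 * k) x.2 →
  Nf k x v (ct k x * ll k x.1 * S.s ^ 2 + bb k * rk k x.1 * S.s1 ^ 2 - S.s * S.s11)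
    (ct k x * ll (4 * k) x.2 * S.s ^ 2 + bb k * rk (4 * k) x.2 * S.s2 ^ 2 - S.s * S.s22)
    (bb k * S.s1 * S.s2 - S.s * S.s12) ≤ CB (beta k) k x v S

/-- T9: limits of the coefficients -/
def StmtT9 : Prop := ∀ (d : ℕ) (c : ℕ → ℕ → ℝ) (b ks th : ℝ),
  ∀ (kk : ℕ → ℕ) (x : ℕ → ℝ × ℝ) (a1 a2 : ℝ), LimS d c b ks th kk x a1 a2 →
    Tendsto (fun n => bb (kk n)) atTop (𝓝 1) ∧
    Tendsto (fun n => ct (kk n) (x n)) atTop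
      (𝓝 (1 - 4 / 5 * a1 * max (1 - a1) 0 - 16 / 5 * a2 * max (1 - a2) 0)) ∧
    (a1 ≤ 1 → Tendsto (fun n => ll (kk n) (x n).1) atTop atTop) ∧
    (a2 ≤ 1 → Tendsto (fun n => ll (4 * kk n) (x n).2) atTop atTop) ∧
    (1 < a1 → Tendsto (fun n => ll (kk n) (x n).1) atTop (𝓝 (1 / (2 * (a1 - 1))))) ∧
    (1 < a2 → Tendsto (fun n => ll (4 * kk n) (x n).2) atTop (𝓝 (1 / (2 * (a2 - 1))))) ∧
    Tendsto (fun n => rk (kk n) (x n).1) atTop (𝓝 (rr a1)) ∧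
    Tendsto (fun n => rk (4 * kk n) (x n).2) atTop (𝓝 (rr a2))

/-- the conclusion of (b) along a sequence -/
def ConclB (d : ℕ) (c : ℕ → ℕ → ℝ) (kk : ℕ → ℕ) (x : ℕ → ℝ × ℝ) : Prop :=
  ∃ m : ℝ, 0 < m ∧ ∀ᶠ n in atTop, ∀ v : ℝ × ℝ,
    m / (kk n : ℝ) * (kJet (kk n) d c (x n).1 (x n).2).s * Df (kk n) (x n) v ≤
      CB (beta (kk n)) (kk n) (x n) v (kJet (kk n) d c (x n).1 (x n).2)

/-- T10: it suffices to bound `n11 + n22` and `Tb` from below -/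
def StmtT10 : Prop := ∀ (d : ℕ) (c : ℕ → ℕ → ℝ) (b ks th : ℝ), LimOK d c b ks th →
  ∀ (kk : ℕ → ℕ) (x : ℕ → ℝ × ℝ) (a1 a2 : ℝ), LimS d c b ks th kk x a1 a2 →
  (∃ m : ℝ, 0 < m ∧ ∀ᶠ n in atTop,
    m ≤ (ct (kk n) (x n) * ll (kk n) (x n).1 * (kJet (kk n) d c (x n).1 (x n).2).s ^ 2
          + bb (kk n) * rk (kk n) (x n).1 * (kJet (kk n) d c (x n).1 (x n).2).s1 ^ 2
          - (kJet (kk n) d c (x n).1 (x n).2).s * (kJet (kk n) d c (x n).1 (x n).2).s11)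
        + (ct (kk n) (x n) * ll (4 * kk n) (x n).2 * (kJet (kk n) d c (x n).1 (x n).2).s ^ 2
          + bb (kk n) * rk (4 * kk n) (x n).2 * (kJet (kk n) d c (x n).1 (x n).2).s2 ^ 2
          - (kJet (kk n) d c (x n).1 (x n).2).s * (kJet (kk n) d c (x n).1 (x n).2).s22) ∧
    m ≤ Tb (bb (kk n)) (rk (kk n) (x n).1) (rk (4 * kk n) (x n).2)
      (ct (kk n) (x n) * ll (kk n) (x n).1) (ct (kk n) (x n) * ll (4 * kk n) (x n).2)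
      (kJet (kk n) d c (x n).1 (x n).2)) →
  ConclB d c kk x

/-- T11 (alpha), T12 (beta), T13 (gamma), T14 (delta), T15 (near P) -/
def StmtT11 : Prop := ∀ (d : ℕ) (c : ℕ → ℕ → ℝ) (b ks th : ℝ), LimOK d c b ks th →
  ∀ (kk : ℕ → ℕ) (x : ℕ → ℝ × ℝ) (a1 a2 : ℝ), LimS d c b ks th kk x a1 a2 →
  a1 ≤ 1 → a2 ≤ 1 → ¬ (a1 = 1 / 2 ∧ a2 = 1 / 2) → ConclB d c kk x

def StmtT12 : Prop := ∀ (d : ℕ) (c : ℕ → ℕ → ℝ) (b ks th : ℝ), LimOK d c b ks th →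
  ∀ (kk : ℕ → ℕ) (x : ℕ → ℝ × ℝ) (a1 a2 : ℝ), LimS d c b ks th kk x a1 a2 →
  1 < a1 → a2 ≤ 1 → ConclB d c kk x

def StmtT13 : Prop := ∀ (d : ℕ) (c : ℕ → ℕ → ℝ) (b ks th : ℝ), LimOK d c b ks th →
  ∀ (kk : ℕ → ℕ) (x : ℕ → ℝ × ℝ) (a1 a2 : ℝ), LimS d c b ks th kk x a1 a2 →
  a1 ≤ 1 → 1 < a2 → ConclB d c kk x

def StmtT14 : Prop := ∀ (d : ℕ) (c : ℕ → ℕ → ℝ) (b ks th : ℝ), LimOK d c b ks th →
  ∀ (kk : ℕ → ℕ) (x : ℕ → ℝ × ℝ) (a1 a2 : ℝ), LimS d c b ks th kk x a1 a2 →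
  1 < a1 → 1 < a2 → ConclB d c kk x

def StmtT15 : Prop := ∀ (d : ℕ) (c : ℕ → ℕ → ℝ) (b ks th : ℝ), LimOK d c b ks th →
  ∀ (kk : ℕ → ℕ) (x : ℕ → ℝ × ℝ), LimS d c b ks th kk x (1 / 2) (1 / 2) → ConclB d c kk x

/-! ### near P -/

noncomputable def pA11 (k : ℕ) (x : ℝ × ℝ) (S : Jet) : ℝ :=
  D2 k x.1 * (-(S.s11 / S.s) + rk k x.1 * S.s1 ^ 2 / S.s ^ 2)
noncomputable def pA22 (k : ℕ) (x : ℝ × ℝ) (S : Jet) : ℝ :=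
  D2 (4 * k) x.2 * (-(S.s22 / S.s) + rk (4 * k) x.2 * S.s2 ^ 2 / S.s ^ 2)
noncomputable def pA12 (k : ℕ) (x : ℝ × ℝ) (S : Jet) : ℝ :=
  D1 k x.1 * D1 (4 * k) x.2 * (-(S.s12 / S.s) + S.s1 * S.s2 / S.s ^ 2)
noncomputable def pV1 (k : ℕ) (x : ℝ × ℝ) (S : Jet) : ℝ := X k x.1 - D1 k x.1 * S.s1 / S.s
noncomputable def pV2 (k : ℕ) (x : ℝ × ℝ) (S : Jet) : ℝ :=
  X (4 * k) x.2 - D1 (4 * k) x.2 * S.s2 / S.s
noncomputable def pa (m : ℝ) (k : ℕ) (x : ℝ × ℝ) (S : Jet) : ℝ :=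
  (1 - m / (k : ℝ)) * ee k x.1 + pA11 k x S
noncomputable def pd (m : ℝ) (k : ℕ) (x : ℝ × ℝ) (S : Jet) : ℝ :=
  (1 - m / (k : ℝ)) * ee (4 * k) x.2 + pA22 k x S

/-- limits of all the one block quantities at P -/
structure PLim (kk : ℕ → ℕ) (x : ℕ → ℝ × ℝ) : Prop where
  hk : Tendsto kk atTop atTop
  g1 : Tendsto (fun n => gg (kk n) (x n).1) atTop (𝓝 (1 / 2))
  g2 : Tendsto (fun n => gg (4 * kk n) (x n).2) atTop (𝓝 (1 / 2))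
  d1 : Tendsto (fun n => D1 (kk n) (x n).1) atTop (𝓝 (3 / 2))
  d2 : Tendsto (fun n => D1 (4 * kk n) (x n).2) atTop (𝓝 (3 / 2))
  dd1 : Tendsto (fun n => D2 (kk n) (x n).1) atTop (𝓝 6)
  dd2 : Tendsto (fun n => D2 (4 * kk n) (x n).2) atTop (𝓝 6)
  r1 : Tendsto (fun n => rk (kk n) (x n).1) atTop (𝓝 (3 / 8))
  r2 : Tendsto (fun n => rk (4 * kk n) (x n).2) atTop (𝓝 (3 / 8))
  e1 : Tendsto (fun n => ee (kk n) (x n).1 / (kk n : ℝ)) atTop (𝓝 (1 / 2))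
  e2 : Tendsto (fun n => ee (4 * kk n) (x n).2 / (kk n : ℝ)) atTop (𝓝 2)
  x1 : Tendsto (fun n => X (kk n) (x n).1 / (kk n : ℝ)) atTop (𝓝 (1 / 4))
  x2 : Tendsto (fun n => X (4 * kk n) (x n).2 / (kk n : ℝ)) atTop (𝓝 1)
  /-- `sum X_i g_i <= 5k/8 + (1/2) sum y_i Delta_i`, and the last sum tends to `7/4` -/
  xg : ∀ δ : ℝ, 0 < δ → ∀ᶠ n in atTop,
    X (kk n) (x n).1 * gg (kk n) (x n).1 + X (4 * kk n) (x n).2 * gg (4 * kk n) (x n).2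
      ≤ 5 * (kk n : ℝ) / 8 + 7 / 4 + δ

/-- T15a -/
def StmtT15a : Prop := ∀ (d : ℕ) (c : ℕ → ℕ → ℝ) (b ks th : ℝ),
  ∀ (kk : ℕ → ℕ) (x : ℕ → ℝ × ℝ), LimS d c b ks th kk x (1 / 2) (1 / 2) → PLim kk x

/-- T15q -/
def StmtT15q : Prop := ∀ (d : ℕ) (c : ℕ → ℕ → ℝ) (b ks th : ℝ), LimOK d c b ks th →
  ∀ (kk : ℕ → ℕ) (x : ℕ → ℝ × ℝ), LimS d c b ks th kk x (1 / 2) (1 / 2) → PLim kk x →
  ∃ m : ℝ, 0 < m ∧ ∀ᶠ n in atTop,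
    0 < pa m (kk n) (x n) (kJet (kk n) d c (x n).1 (x n).2) ∧
    0 < pa m (kk n) (x n) (kJet (kk n) d c (x n).1 (x n).2)
        * pd m (kk n) (x n) (kJet (kk n) d c (x n).1 (x n).2)
      - pA12 (kk n) (x n) (kJet (kk n) d c (x n).1 (x n).2) ^ 2 ∧
    beta (kk n) * (pd m (kk n) (x n) (kJet (kk n) d c (x n).1 (x n).2)
          * pV1 (kk n) (x n) (kJet (kk n) d c (x n).1 (x n).2) ^ 2
        - 2 * pA12 (kk n) (x n) (kJet (kk n) d c (x n).1 (x n).2)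
          * pV1 (kk n) (x n) (kJet (kk n) d c (x n).1 (x n).2)
          * pV2 (kk n) (x n) (kJet (kk n) d c (x n).1 (x n).2)
        + pa m (kk n) (x n) (kJet (kk n) d c (x n).1 (x n).2)
          * pV2 (kk n) (x n) (kJet (kk n) d c (x n).1 (x n).2) ^ 2)
      ≤ pa m (kk n) (x n) (kJet (kk n) d c (x n).1 (x n).2)
          * pd m (kk n) (x n) (kJet (kk n) d c (x n).1 (x n).2)
        - pA12 (kk n) (x n) (kJet (kk n) d c (x n).1 (x n).2) ^ 2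

/-! ## T16 - T18: end -/

/-- T16: both inequalities at the points with positive coordinates -/
def StmtT16 : Prop := ∀ (d : ℕ) (c : ℕ → ℕ → ℝ) (b ks th : ℝ), LimOK d c b ks th →
  ∀ᶠ k : ℕ in atTop,
    (∃ c0 : ℝ, 0 < c0 ∧ ∀ x ∈ D0 k d c b ks th, 0 < x.1 → 0 < x.2 →
      IneqB (W k d c) (8 / (5 * (k : ℝ) - 7)) c0 x) ∧
    (∃ c0 : ℝ, 0 < c0 ∧ ∀ x ∈ D0 k d c b ks th, 0 < x.1 → 0 < x.2 →
      IneqC (W k d c) (W k d (Dop k d c)) c0 x)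

/-- T17: symmetry and closure (needs `IsOpen (D0 ..)`) -/
def StmtT17 : Prop := ∀ (k d : ℕ) (c : ℕ → ℕ → ℝ) (b ks th be c0 : ℝ), 8 ≤ k →
  IsOpen (D0 k d c b ks th) →
  ((∀ x ∈ D0 k d c b ks th, 0 < x.1 → 0 < x.2 → IneqB (W k d c) be c0 x) →
    ∀ x ∈ closure (D0 k d c b ks th), IneqB (W k d c) be c0 x) ∧
  ((∀ x ∈ D0 k d c b ks th, 0 < x.1 → 0 < x.2 →
      IneqC (W k d c) (W k d (Dop k d c)) c0 x) →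
    ∀ x ∈ closure (D0 k d c b ks th), IneqC (W k d c) (W k d (Dop k d c)) c0 x)

/-- the fields `ineqB`, `ineqC` of `OutK` -/
def StmtOutBC : Prop := ∀ (d : ℕ) (c : ℕ → ℕ → ℝ) (b ks th : ℝ), LimOK d c b ks th →
  ∀ᶠ k : ℕ in atTop, IsOpen (D0 k d c b ks th) →
    (∃ c0 : ℝ, 0 < c0 ∧ ∀ x ∈ closure (D0 k d c b ks th),
      IneqB (W k d c) (8 / (5 * (k : ℝ) - 7)) c0 x) ∧
    (∃ c0 : ℝ, 0 < c0 ∧ ∀ x ∈ closure (D0 k d c b ks th),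
      IneqC (W k d c) (W k d (Dop k d c)) c0 x)

end Lq
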