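import Pool.Agent.Lq.St1

/-!
# MP_61eda3_an: statements of the part (assembly, ball, final theorem) (section 8 of PAPER.md)
-/

set_option autoImplicit false

open Filter Topology Set

namespace Lq

/-- the Laplacian of the frozen statement -/
noncomputable def lap {n : ℕ} (u : EuclideanSpace ℝ (Fin n) → ℝ) (x : EuclideanSpace ℝ (Fin n)) : ℝ :=
  ∑ i : Fin n, fderiv ℝ (fun y => fderiv ℝ u y (EuclideanSpace.single i (1 : ℝ))) x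
    (EuclideanSpace.single i (1 : ℝ))

/-- squared norm of the first block (coordinates `0..k-1`) -/
noncomputable def S1 (k : ℕ) (x : EuclideanSpace ℝ (Fin (5 * k + 1))) : ℝ :=
  ∑ i : Fin (5 * k + 1), if (i : ℕ) < k then x i ^ 2 else 0

/-- squared norm of the second block (coordinates `k..5k-1`) -/
noncomputable def S2 (k : ℕ) (x : EuclideanSpace ℝ (Fin (5 * k + 1))) : ℝ :=
  ∑ i : Fin (5 * k + 1), if k ≤ (i : ℕ) ∧ (i : ℕ) < 5 * k then x i ^ 2 else 0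

/-- last coordinate -/
noncomputable def Zc (k : ℕ) (x : EuclideanSpace ℝ (Fin (5 * k + 1))) : ℝ := x (Fin.last (5 * k))

/-- `x ↦ ((|x1|, |x2|), ξ z)` -/
noncomputable def pull (k : ℕ) (xi : ℝ) (x : EuclideanSpace ℝ (Fin (5 * k + 1))) : (ℝ × ℝ) × ℝ :=
  ((Real.sqrt (S1 k x), Real.sqrt (S2 k x)), xi * Zc k x)

/-- `w_j = (Delta + 2)^j w` -/
noncomputable def wj (k d : ℕ) (c : ℕ → ℕ → ℝ) (j : ℕ) : ℝ × ℝ → ℝ := W k d ((Dop k d)^[j] c)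

/-- the star shaped component -/
def starO (G : Set ((ℝ × ℝ) × ℝ)) (U : (ℝ × ℝ) × ℝ → ℝ) : Set ((ℝ × ℝ) × ℝ) :=
  {Y | ∀ t : ℝ, 0 ≤ t → t ≤ 1 → t • Y ∈ G ∧ 0 < U (t • Y)}

/-! ## Facts used from other parts (section 1 and section 2) -/

/-- section 1 (helper42) -/
def StmtBlk : Prop := ∀ k : ℕ, 1 ≤ k →
  (∀ i, ContDiff ℝ (⊤ : ℕ∞) (La k i)) ∧ Lk k 0 = 1 ∧
  (∀ (i : ℕ) (s : ℝ), 4 * s * deriv (deriv (La k i)) s + 2 * (k : ℝ) * deriv (La k i) s =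
    -∑ a ∈ Finset.range (i + 1), ((i.choose a : ℕ) : ℝ) * (-(4 / (k : ℝ))) ^ (i - a) * La k a s)

/-- section 1 (helper42): `Dop` is nilpotent -/
def StmtDegA : Prop := ∀ (k d : ℕ) (c : ℕ → ℕ → ℝ), Deg d c → ∀ j : ℕ, d < j →
  (Dop k d)^[j] c = fun _ _ => 0

/-- section 2 (helper19) -/
def StmtSig : Prop := ∀ k : ℕ, 8 ≤ k →
  (∀ x : ℝ, Pos k x → 0 < ee k x ∧ 1 - yy k x < gg k x) ∧ ∃ x : ℝ, Pos k x ∧ yy k x = 1 / 2

/-! ## The modules of this part -/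

/-- LQA_CZ -/
def StmtCZ : Prop :=
  (∀ j, ContDiff ℝ (⊤ : ℕ∞) (cz j)) ∧ (∀ j, cz (j + 1) 0 = 0) ∧
  (∀ z, deriv (deriv (cz 0)) z = -cz 0 z) ∧
  (∀ j z, deriv (deriv (cz (j + 1))) z = -cz (j + 1) z - cz j z)

/- LQA_ZERO: the first zero exists: `StmtZero` in `St1.lean` -/

/-- LQA_BEIG: the radial eigenfunction of the ball -/
def StmtBEig : Prop := ∀ (N : ℕ) (R : ℝ), 1 ≤ N →
  ContDiff ℝ 2 (fun x : EuclideanSpace ℝ (Fin N) => F N 0 (R * ‖x‖)) ∧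
  ∀ x : EuclideanSpace ℝ (Fin N),
    lap (fun x : EuclideanSpace ℝ (Fin N) => F N 0 (R * ‖x‖)) x + R ^ 2 * F N 0 (R * ‖x‖) = 0

/-- LQA_NONC: failure of power concavity on the ball from the failure of the radial inequality -/
def StmtNonc : Prop := ∀ (N : ℕ) (R r al : ℝ), 1 ≤ N → 0 < R →
  (∀ t : ℝ, 0 ≤ t → t < R → 0 < F N 0 t) → 0 < r → r < R → 0 < al →
  (1 - al) * (deriv (F N 0) r) ^ 2 < F N 0 r * deriv (deriv (F N 0)) r →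
  ¬ ConcaveOn ℝ (Metric.ball (0 : EuclideanSpace ℝ (Fin N)) 1) (fun x => F N 0 (R * ‖x‖) ^ al)

/-- LQA_STAR -/
def StmtStar : Prop := ∀ (G : Set ((ℝ × ℝ) × ℝ)) (U : (ℝ × ℝ) × ℝ → ℝ) (al : ℝ), 0 < al →
  IsOpen G → (0 : (ℝ × ℝ) × ℝ) ∈ G → ContDiff ℝ 2 U → 0 < U 0 →
  (∀ x ∈ closure G, x ∉ G → U x ≤ 0) →
  (∀ x ∈ G, 0 < U x → ∀ V : (ℝ × ℝ) × ℝ, U x * d2 U x V ≤ (1 - al) * (d1 U x V) ^ 2) →
  IsOpen (starO G U) ∧ (0 : (ℝ × ℝ) × ℝ) ∈ starO G U ∧ (∀ x ∈ frontier (starO G U), U x = 0) ∧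
    Convex ℝ (starO G U) ∧ ConcaveOn ℝ (starO G U) (fun x => U x ^ al)

/-- LQA_LAP: the Laplacian of a product in block variables -/
def StmtLap : Prop := ∀ (k : ℕ) (A B C : ℝ → ℝ),
  ContDiff ℝ 2 A → ContDiff ℝ 2 B → ContDiff ℝ 2 C →
  ContDiff ℝ 2 (fun p : EuclideanSpace ℝ (Fin (5 * k + 1)) => A (S1 k p) * B (S2 k p) * C (Zc k p)) ∧
  ∀ x : EuclideanSpace ℝ (Fin (5 * k + 1)),
    lap (fun p : EuclideanSpace ℝ (Fin (5 * k + 1)) => A (S1 k p) * B (S2 k p) * C (Zc k p)) x =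
      (4 * S1 k x * deriv (deriv A) (S1 k x) + 2 * (k : ℝ) * deriv A (S1 k x))
        * B (S2 k x) * C (Zc k x)
      + A (S1 k x) * (4 * S2 k x * deriv (deriv B) (S2 k x)
        + 2 * (4 * (k : ℝ)) * deriv B (S2 k x)) * C (Zc k x)
      + A (S1 k x) * B (S2 k x) * deriv (deriv C) (Zc k x)

/-- LQA_EIG: the eigenvalue equation upstairs -/
def StmtEig : Prop := ∀ (k d : ℕ) (c : ℕ → ℕ → ℝ) (xi : ℝ), 1 ≤ k → Deg d c → 0 < xi →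
  ContDiff ℝ 2 (fun x : EuclideanSpace ℝ (Fin (5 * k + 1)) =>
    uu (d + 1) (wj k d c) (xi ^ 2)⁻¹ (pull k xi x)) ∧
  ∀ x : EuclideanSpace ℝ (Fin (5 * k + 1)),
    lap (fun x : EuclideanSpace ℝ (Fin (5 * k + 1)) =>
      uu (d + 1) (wj k d c) (xi ^ 2)⁻¹ (pull k xi x)) x
      + (xi ^ 2 + 2) * uu (d + 1) (wj k d c) (xi ^ 2)⁻¹ (pull k xi x) = 0

/-- LQA_PULL: pull back of a convex set and a power concave function by `(|x1|, |x2|, ξ z)` -/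
def StmtPull : Prop := ∀ (k : ℕ) (xi al : ℝ) (O : Set ((ℝ × ℝ) × ℝ)) (U : (ℝ × ℝ) × ℝ → ℝ),
  0 < xi → 0 < al → IsOpen O → Bornology.IsBounded O → Convex ℝ O →
  (0 : (ℝ × ℝ) × ℝ) ∈ O → Continuous U → (∀ Y ∈ O, 0 < U Y) → (∀ Y ∈ frontier O, U Y = 0) →
  ConcaveOn ℝ O (fun Y => U Y ^ al) →
  (∀ a b z : ℝ, ((a, b), z) ∈ O → ((-a, b), z) ∈ O ∧ ((a, -b), z) ∈ O) →
  (∀ a b z : ℝ, U ((-a, b), z) = U ((a, b), z) ∧ U ((a, -b), z) = U ((a, b), z)) →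
  IsOpen (pull k xi ⁻¹' O) ∧ Convex ℝ (pull k xi ⁻¹' O) ∧
    Bornology.IsBounded (pull k xi ⁻¹' O) ∧ (pull k xi ⁻¹' O).Nonempty ∧
    Continuous (fun x => U (pull k xi x)) ∧
    (∀ x ∈ frontier (pull k xi ⁻¹' O), U (pull k xi x) = 0) ∧
    ConcaveOn ℝ (pull k xi ⁻¹' O) (fun x => U (pull k xi x) ^ al)

end Lq
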