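import Pool.Agent.Lq.St1

/-!
# MP_61eda3_an: statements of sections 1 and 3 of PAPER.md (block functions, jets)

Modules `LQJ_*`. The names of the main theorems are `t_LK`, `t_BLK`, ...
-/

set_option autoImplicit false

open Filter Topology

namespace Lq

/-! ## section 1 -/

/-- LK: the profile. -/
def P_LK : Prop := ∀ k : ℕ, 1 ≤ k →
  Lk k 0 = 1 ∧ (∀ s : ℝ, HasDerivAt (Lk k) (-(Lk (k + 2) s / (2 * (k : ℝ)))) s) ∧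
  ∀ s : ℝ, s * Lk (k + 4) s = (k : ℝ) * ((k : ℝ) + 2) * (Lk (k + 2) s - Lk k s)

/-- LK -/
def Stmt_LK : Prop := P_LK

/-- BLK: the block functions (this is `StmtBlk` of `StA.lean`). -/
def P_BLK : Prop := ∀ k : ℕ, 1 ≤ k →
  (∀ i, ContDiff ℝ (⊤ : ℕ∞) (La k i)) ∧ Lk k 0 = 1 ∧
  (∀ (i : ℕ) (s : ℝ), 4 * s * deriv (deriv (La k i)) s + 2 * (k : ℝ) * deriv (La k i) s =
    -∑ a ∈ Finset.range (i + 1), ((i.choose a : ℕ) : ℝ) * (-(4 / (k : ℝ))) ^ (i - a) * La k a s)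

/-- BLK -/
def Stmt_BLK : Prop := P_LK → P_BLK

/-- FS: the block functions as functions of `x`; the second part is `StmtODE`, the third one is
`StmtSmooth`. -/
def P_FS : Prop :=
  (∀ k i : ℕ, 1 ≤ k → ContDiff ℝ (⊤ : ℕ∞) (F k i) ∧
    ∀ x : ℝ, F k (i + 1) x = -(2 / (k : ℝ)) * x * deriv (F k i) x) ∧
  (∀ k : ℕ, 1 ≤ k → F k 0 0 = 1 ∧
    ∀ x : ℝ, x * deriv (deriv (F k 0)) x + ((k : ℝ) - 1) * deriv (F k 0) x + x * F k 0 x = 0) ∧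
  ∀ k i : ℕ, 1 ≤ k → ContDiff ℝ (⊤ : ℕ∞) (La k i)

/-- FS -/
def Stmt_FS : Prop := P_BLK → P_FS

/-- DER: the derivatives of `y` and `e` at the points where `f` does not vanish. -/
def P_DER : Prop := ∀ (k : ℕ) (x : ℝ), 1 ≤ k → x ≠ 0 → F k 0 x ≠ 0 →
  HasDerivAt (X k) ((X k x + ee k x) / x) x ∧ HasDerivAt (yy k) (D1 k x / x) x ∧
  HasDerivAt (ee k) ((k : ℝ) / 2 * D2 k x / x) x ∧
  HasDerivAt (D1 k) ((D1 k x + D2 k x) / x) x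

/-- DER -/
def Stmt_DER : Prop := P_FS → P_DER

/-- LOP: this is `StmtLop` of `St1.lean`. -/
def P_LOP : Prop := ∀ (d : ℕ) (c : ℕ → ℕ → ℝ) (a b : ℕ), Deg d c →
  Tendsto (fun k : ℕ => (k : ℝ) / 4 * Dop k d c a b) atTop (𝓝 (Lop c a b))

/-- LOP -/
def Stmt_LOP : Prop := P_LOP

/-- DEG: the first part is `StmtDeg` of `St1.lean`, the second one is `StmtDeg` of `StA.lean`. -/
def P_DEG : Prop :=
  (∀ (k d m : ℕ) (c : ℕ → ℕ → ℝ),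
    (m + 1 ≤ d → Deg (m + 1) c → Deg m (Dop k d c)) ∧ (Deg 0 c → ∀ a b, Dop k d c a b = 0)) ∧
  ∀ (k d : ℕ) (c : ℕ → ℕ → ℝ), Deg d c → ∀ j : ℕ, d < j → (Dop k d)^[j] c = fun _ _ => 0

/-- DEG -/
def Stmt_DEG : Prop := P_DEG

/-! ## section 3: the polynomials `A_i`, `B_i` as functions of `p = (1/k, T)` -/

/-- the partial derivative with respect to `T` -/
noncomputable def dT (g : ℝ × ℝ → ℝ) (p : ℝ × ℝ) : ℝ := fderiv ℝ g p (0, 1)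

/-- the pairs `(A_i, B_i)` -/
noncomputable def AB : ℕ → (ℝ × ℝ → ℝ) × (ℝ × ℝ → ℝ)
  | 0 => (fun _ => 1, fun _ => 0)
  | i + 1 =>
    (fun p => -(p.2 * (AB i).2 p) - 4 * p.1 * p.2 * dT (AB i).1 p,
      fun p => (AB i).1 p + 2 * (1 - 2 * p.1) * (AB i).2 p - 4 * p.1 * p.2 * dT (AB i).2 p)

noncomputable def cA (i : ℕ) : ℝ × ℝ → ℝ := (AB i).1

noncomputable def cB (i : ℕ) : ℝ × ℝ → ℝ := (AB i).2

/-- CS: smoothness, and the derivatives along a curve `t ↦ (e, T t)`. -/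
def P_CS : Prop :=
  (∀ g : ℝ × ℝ → ℝ, ContDiff ℝ (⊤ : ℕ∞) g → ContDiff ℝ (⊤ : ℕ∞) (dT g) ∧
    ∀ (e : ℝ) (T : ℝ → ℝ) (T' t : ℝ), HasDerivAt T T' t →
      HasDerivAt (fun s => g (e, T s)) (dT g (e, T t) * T') t) ∧
  ∀ i : ℕ, ContDiff ℝ (⊤ : ℕ∞) (cA i) ∧ ContDiff ℝ (⊤ : ℕ∞) (cB i)

/-- CS -/
def Stmt_CS : Prop := P_CS

/-- CI: the identities at `1/k = 0`, `T = 2a - a^2`. -/
def P_CI : Prop :=
  (∀ (i : ℕ) (a : ℝ),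
    cA i (0, 2 * a - a ^ 2) + cB i (0, 2 * a - a ^ 2) * a = a ^ i ∧
    cB i (0, 2 * a - a ^ 2) + 2 * (1 - a) *
      (dT (cA i) (0, 2 * a - a ^ 2) + dT (cB i) (0, 2 * a - a ^ 2) * a) = (i : ℝ) * a ^ (i - 1) ∧
    4 * (1 - a) ^ 2 *
      (dT (dT (cA i)) (0, 2 * a - a ^ 2) + dT (dT (cB i)) (0, 2 * a - a ^ 2) * a) +
      4 * (1 - a) * dT (cB i) (0, 2 * a - a ^ 2) =
      (i : ℝ) * ((i : ℝ) - 1) * a ^ (i - 2) +
        2 * (dT (cA i) (0, 2 * a - a ^ 2) + dT (cB i) (0, 2 * a - a ^ 2) * a)) ∧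
  ∀ i : ℕ, cA i (0, 1) = 1 - (i : ℝ) ∧ cB i (0, 1) = (i : ℝ)

/-- CI -/
def Stmt_CI : Prop := P_CS → P_CI

/-- AB: formula (3.1). -/
def P_AB : Prop := ∀ (k i : ℕ) (x : ℝ), 1 ≤ k → x ≠ 0 → F k 0 x ≠ 0 →
  F k i x = (cA i (1 / (k : ℝ), TT k x) + cB i (1 / (k : ℝ), TT k x) * yy k x) * F k 0 x

/-- AB -/
def Stmt_AB : Prop := P_FS → P_DER → P_CS → P_AB

/-- JF: formulas (3.2). -/
def P_JF : Prop := ∀ (k i : ℕ) (x : ℝ), 1 ≤ k → x ≠ 0 → F k 0 x ≠ 0 → D1 k x ≠ 0 → D2 k x ≠ 0 →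
  j0 k i x = cA i (1 / (k : ℝ), TT k x) + cB i (1 / (k : ℝ), TT k x) * yy k x ∧
  j1 k i x = cB i (1 / (k : ℝ), TT k x) + 2 * (TT k x / D1 k x) *
    (dT (cA i) (1 / (k : ℝ), TT k x) + dT (cB i) (1 / (k : ℝ), TT k x) * yy k x) ∧
  j2 k i x = cB i (1 / (k : ℝ), TT k x)
    + 4 * (TT k x / D1 k x) ^ 2 * (D1 k x ^ 2 / D2 k x) *
      (dT (dT (cA i)) (1 / (k : ℝ), TT k x) + dT (dT (cB i)) (1 / (k : ℝ), TT k x) * yy k x)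
    + 2 * (TT k x / D1 k x) * (D1 k x / D2 k x) *
      (dT (cA i) (1 / (k : ℝ), TT k x) + dT (cB i) (1 / (k : ℝ), TT k x) * yy k x)
    + 4 * (TT k x / D1 k x) * (D1 k x ^ 2 / D2 k x) * dT (cB i) (1 / (k : ℝ), TT k x)

/-- JF -/
def Stmt_JF : Prop := P_FS → P_DER → P_CS → P_AB → P_JF

/-- LIM: the limits of the jets. -/
def Stmt_LIM : Prop := StmtSigns → StmtT → StmtR → StmtD12 → StmtTD → P_CS → P_CI → P_JF →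
  StmtJ0 ∧ StmtJ1 ∧ StmtJ2

/-- all components converge -/
def JTend {I : Type} (l : Filter I) (S : I → Jet) (S0 : Jet) : Prop :=
  Tendsto (fun n => (S n).s) l (𝓝 S0.s) ∧ Tendsto (fun n => (S n).s1) l (𝓝 S0.s1) ∧
  Tendsto (fun n => (S n).s2) l (𝓝 S0.s2) ∧ Tendsto (fun n => (S n).s12) l (𝓝 S0.s12) ∧
  Tendsto (fun n => (S n).s11) l (𝓝 S0.s11) ∧ Tendsto (fun n => (S n).s22) l (𝓝 S0.s22)

/-- KJ: the limits of the two block jets, for a fixed array and for `(k/4) Dop k d c`. -/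
def P_KJ : Prop := ∀ (I : Type) (l : Filter I) (kk : I → ℕ) (x1 x2 : I → ℝ) (a1 a2 : ℝ) (d : ℕ),
  Lim1 l kk x1 a1 → Lim1 l (fun n => 4 * kk n) x2 a2 →
  (∀ (c : I → ℕ → ℕ → ℝ) (c0 : ℕ → ℕ → ℝ),
    (∀ i j, Tendsto (fun n => c n i j) l (𝓝 (c0 i j))) →
    JTend l (fun n => kJet (kk n) d (c n) (x1 n) (x2 n)) (limJet d c0 a1 a2)) ∧
  (∀ c : ℕ → ℕ → ℝ, JTend l (fun n => kJet (kk n) d c (x1 n) (x2 n)) (limJet d c a1 a2)) ∧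
  (∀ c : ℕ → ℕ → ℝ, Deg d c →
    JTend l (fun n => kJet (kk n) d (fun a b => (kk n : ℝ) / 4 * Dop (kk n) d c a b) (x1 n) (x2 n))
      (limJet d (Lop c) a1 a2))

/-- KJ -/
def Stmt_KJ : Prop := StmtJ0 → StmtJ1 → StmtJ2 → P_LOP → P_KJ

end Lq
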