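import Pool.Agent.Lq.Base

/-!
# Interface of section 6 of PAPER.md (existence of the polynomial), architect helper7

The family `w a b y1 y2` stands for `∂_1^a ∂_2^b w (y1, y2)`.
-/

set_option autoImplicit false

open Filter Topology

namespace Lq

/-- `∂_1^a ∂_2^b` of `pol d c` -/
noncomputable def PP (d : ℕ) (c : ℕ → ℕ → ℝ) (a b : ℕ) (y1 y2 : ℝ) : ℝ :=
  JJ d c (fun i => (i.descFactorial a : ℝ) * y1 ^ (i - a))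
    (fun j => (j.descFactorial b : ℝ) * y2 ^ (j - b))

/-- `h_ab = -(w_(a+1)b + w_a(b+1)/4)` -/
noncomputable def Hf (w : ℕ → ℕ → ℝ → ℝ → ℝ) (a b : ℕ) (y1 y2 : ℝ) : ℝ :=
  -(w (a + 1) b y1 y2 + w a (b + 1) y1 y2 / 4)

/-- the conditions (G1) ... (G5) for `theta = w` -/
structure GG (w : ℕ → ℕ → ℝ → ℝ → ℝ) : Prop where
  g1a : ∀ y1 y2 : ℝ, 0 ≤ y1 → y1 ≤ 1 → 0 ≤ y2 → y2 ≤ 1 →
    0 < Hf w 1 0 y1 y2 + rr y1 * Hf w 2 0 y1 y2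
  g1b : ∀ y1 y2 : ℝ, 0 ≤ y1 → y1 ≤ 1 → 0 ≤ y2 → y2 ≤ 1 →
    0 < Hf w 0 1 y1 y2 + rr y2 * Hf w 0 2 y1 y2
  g1c : ∀ y1 y2 : ℝ, 0 ≤ y1 → y1 ≤ 1 → 0 ≤ y2 → y2 ≤ 1 →
    rr y1 * rr y2 * (Hf w 1 1 y1 y2) ^ 2 <
      (Hf w 1 0 y1 y2 + rr y1 * Hf w 2 0 y1 y2) * (Hf w 0 1 y1 y2 + rr y2 * Hf w 0 2 y1 y2)
  g2a : ∀ y : ℝ, 0 ≤ y → y ≤ 1 → 0 < w 1 0 1 y
  g2b : ∀ y : ℝ, 0 ≤ y → y ≤ 1 → 0 < w 0 1 y 1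
  g2c : ∀ y : ℝ, 0 ≤ y → y ≤ 1 → 0 < w 1 1 1 y + rr y * w 1 2 1 y
  g2d : ∀ y : ℝ, 0 ≤ y → y ≤ 1 → 0 < w 1 1 y 1 + rr y * w 2 1 y 1
  g3a : ∀ y : ℝ, 0 ≤ y → y ≤ 1 →
    (2 * Hf w 1 0 1 y * (Hf w 1 1 1 y + rr y * Hf w 1 2 1 y) - rr y * (Hf w 1 1 1 y) ^ 2) ^ 2 <
      16 * (Hf w 1 0 1 y) ^ 3 * (Hf w 0 1 1 y + rr y * Hf w 0 2 1 y)
        * (w 1 1 1 y + rr y * w 1 2 1 y)
  g3b : ∀ y : ℝ, 0 ≤ y → y ≤ 1 →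
    (2 * Hf w 0 1 y 1 * (Hf w 1 1 y 1 + rr y * Hf w 2 1 y 1) - rr y * (Hf w 1 1 y 1) ^ 2) ^ 2 <
      16 * (Hf w 0 1 y 1) ^ 3 * (Hf w 1 0 y 1 + rr y * Hf w 2 0 y 1)
        * (w 1 1 y 1 + rr y * w 2 1 y 1)
  g4 : 4 * (Hf w 1 1 1 1) ^ 2 < Hf w 1 0 1 1 * Hf w 0 1 1 1 * w 1 1 1 1
  g5 : 14 / 3 < w 2 0 (1 / 2) (1 / 2) + 2 * w 1 1 (1 / 2) (1 / 2) + w 0 2 (1 / 2) (1 / 2)

/-- Leibniz relations saying that `t` is the family of derivatives of `-log P` -/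
structure Rel (P t : ℕ → ℕ → ℝ → ℝ → ℝ) (x y : ℝ) : Prop where
  r10 : P 1 0 x y = -(t 1 0 x y * P 0 0 x y)
  r01 : P 0 1 x y = -(t 0 1 x y * P 0 0 x y)
  r20 : P 2 0 x y = -(t 2 0 x y * P 0 0 x y + t 1 0 x y * P 1 0 x y)
  r11 : P 1 1 x y = -(t 1 1 x y * P 0 0 x y + t 1 0 x y * P 0 1 x y)
  r02 : P 0 2 x y = -(t 0 2 x y * P 0 0 x y + t 0 1 x y * P 0 1 x y)
  r30 : P 3 0 x y = -(t 3 0 x y * P 0 0 x y + 2 * (t 2 0 x y * P 1 0 x y) + t 1 0 x y * P 2 0 x y)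
  r21 : P 2 1 x y = -(t 2 1 x y * P 0 0 x y + t 2 0 x y * P 0 1 x y + t 1 1 x y * P 1 0 x y
    + t 1 0 x y * P 1 1 x y)
  r12 : P 1 2 x y = -(t 1 2 x y * P 0 0 x y + 2 * (t 1 1 x y * P 0 1 x y) + t 1 0 x y * P 0 2 x y)
  r03 : P 0 3 x y = -(t 0 3 x y * P 0 0 x y + 2 * (t 0 2 x y * P 0 1 x y) + t 0 1 x y * P 0 2 x y)
  r31 : P 3 1 x y = -(t 3 1 x y * P 0 0 x y + t 3 0 x y * P 0 1 x y + 2 * (t 2 1 x y * P 1 0 x y)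
    + 2 * (t 2 0 x y * P 1 1 x y) + t 1 1 x y * P 2 0 x y + t 1 0 x y * P 2 1 x y)
  r22 : P 2 2 x y = -(t 2 2 x y * P 0 0 x y + 2 * (t 2 1 x y * P 0 1 x y) + t 2 0 x y * P 0 2 x y
    + t 1 2 x y * P 1 0 x y + 2 * (t 1 1 x y * P 1 1 x y) + t 1 0 x y * P 1 2 x y)
  r13 : P 1 3 x y = -(t 1 3 x y * P 0 0 x y + 3 * (t 1 2 x y * P 0 1 x y)
    + 3 * (t 1 1 x y * P 0 2 x y) + t 1 0 x y * P 0 3 x y)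

/-- delivery of section 6 -/
def StmtGoodEx : Prop := ∃ (d : ℕ) (c : ℕ → ℕ → ℝ) (t : ℕ → ℕ → ℝ → ℝ → ℝ),
  Deg d c ∧
  (∀ y1 y2 : ℝ, 0 ≤ y1 → y1 ≤ 1 → 0 ≤ y2 → y2 ≤ 1 →
    0 < PP d c 0 0 y1 y2 ∧ Rel (PP d c) t y1 y2) ∧
  GG t

/-! ## internal statements of section 6 -/

/-- `w a b` is the family of partial derivatives of `w 0 0` -/
structure Fam (w : ℕ → ℕ → ℝ → ℝ → ℝ) : Prop where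
  d1 : ∀ (a b : ℕ) (x y : ℝ), HasDerivAt (fun s => w a b s y) (w (a + 1) b x y) x
  d2 : ∀ (a b : ℕ) (x y : ℝ), HasDerivAt (fun s => w a b x s) (w a (b + 1) x y) y
  ct : ∀ a b : ℕ, Continuous (fun p : ℝ × ℝ => w a b p.1 p.2)

/-- `f` is a polynomial function of two variables -/
def IsP (f : ℝ → ℝ → ℝ) : Prop :=
  ∃ (d : ℕ) (c : ℕ → ℕ → ℝ), Deg d c ∧ ∀ y1 y2 : ℝ, f y1 y2 = pol d c y1 y2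

/-- LQP_POL -/
structure StmtIsP : Prop where
  fst : IsP (fun y1 _ => y1)
  const : ∀ r : ℝ, IsP (fun _ _ => r)
  add : ∀ f g : ℝ → ℝ → ℝ, IsP f → IsP g → IsP (fun y1 y2 => f y1 y2 + g y1 y2)
  mul : ∀ f g : ℝ → ℝ → ℝ, IsP f → IsP g → IsP (fun y1 y2 => f y1 y2 * g y1 y2)
  pow : ∀ (f : ℝ → ℝ → ℝ) (n : ℕ), IsP f → IsP (fun y1 y2 => f y1 y2 ^ n)
  comp : ∀ q : Polynomial ℝ, IsP (fun y1 y2 => q.eval (y1 - 4 * y2))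

/-- LQP_FAM -/
structure StmtFam : Prop where
  zero : ∀ (d : ℕ) (c : ℕ → ℕ → ℝ) (y1 y2 : ℝ), PP d c 0 0 y1 y2 = pol d c y1 y2
  fam : ∀ (d : ℕ) (c : ℕ → ℕ → ℝ), Fam (PP d c)

/-- the family of derivatives of `-(1/δ) log (1 - δ w)` (the ones we need) -/
noncomputable def vv (w : ℕ → ℕ → ℝ → ℝ → ℝ) (δ x y : ℝ) : ℝ := (1 - δ * w 0 0 x y)⁻¹
noncomputable def th10 (w : ℕ → ℕ → ℝ → ℝ → ℝ) (δ x y : ℝ) : ℝ := vv w δ x y * w 1 0 x y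
noncomputable def th01 (w : ℕ → ℕ → ℝ → ℝ → ℝ) (δ x y : ℝ) : ℝ := vv w δ x y * w 0 1 x y
noncomputable def th20 (w : ℕ → ℕ → ℝ → ℝ → ℝ) (δ x y : ℝ) : ℝ :=
  vv w δ x y * (w 2 0 x y + δ * (w 1 0 x y * th10 w δ x y))
noncomputable def th11 (w : ℕ → ℕ → ℝ → ℝ → ℝ) (δ x y : ℝ) : ℝ :=
  vv w δ x y * (w 1 1 x y + δ * (w 0 1 x y * th10 w δ x y))
noncomputable def th02 (w : ℕ → ℕ → ℝ → ℝ → ℝ) (δ x y : ℝ) : ℝ :=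
  vv w δ x y * (w 0 2 x y + δ * (w 0 1 x y * th01 w δ x y))
noncomputable def th30 (w : ℕ → ℕ → ℝ → ℝ → ℝ) (δ x y : ℝ) : ℝ :=
  vv w δ x y * (w 3 0 x y + δ * (w 2 0 x y * th10 w δ x y + 2 * (w 1 0 x y * th20 w δ x y)))
noncomputable def th21 (w : ℕ → ℕ → ℝ → ℝ → ℝ) (δ x y : ℝ) : ℝ :=
  vv w δ x y * (w 2 1 x y + δ * (w 1 1 x y * th10 w δ x y + w 1 0 x y * th11 w δ x y
    + w 0 1 x y * th20 w δ x y))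
noncomputable def th12 (w : ℕ → ℕ → ℝ → ℝ → ℝ) (δ x y : ℝ) : ℝ :=
  vv w δ x y * (w 1 2 x y + δ * (w 0 2 x y * th10 w δ x y + 2 * (w 0 1 x y * th11 w δ x y)))
noncomputable def th03 (w : ℕ → ℕ → ℝ → ℝ → ℝ) (δ x y : ℝ) : ℝ :=
  vv w δ x y * (w 0 3 x y + δ * (w 0 2 x y * th01 w δ x y + 2 * (w 0 1 x y * th02 w δ x y)))
noncomputable def th31 (w : ℕ → ℕ → ℝ → ℝ → ℝ) (δ x y : ℝ) : ℝ :=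
  vv w δ x y * (w 3 1 x y + δ * (w 2 1 x y * th10 w δ x y + w 2 0 x y * th11 w δ x y
    + 2 * (w 1 1 x y * th20 w δ x y) + 2 * (w 1 0 x y * th21 w δ x y) + w 0 1 x y * th30 w δ x y))
noncomputable def th22 (w : ℕ → ℕ → ℝ → ℝ → ℝ) (δ x y : ℝ) : ℝ :=
  vv w δ x y * (w 2 2 x y + δ * (w 1 2 x y * th10 w δ x y + 2 * (w 1 1 x y * th11 w δ x y)
    + w 1 0 x y * th12 w δ x y + w 0 2 x y * th20 w δ x y + 2 * (w 0 1 x y * th21 w δ x y)))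
noncomputable def th13 (w : ℕ → ℕ → ℝ → ℝ → ℝ) (δ x y : ℝ) : ℝ :=
  vv w δ x y * (w 1 3 x y + δ * (w 0 3 x y * th10 w δ x y + 3 * (w 0 2 x y * th11 w δ x y)
    + 3 * (w 0 1 x y * th12 w δ x y)))

/-- the family -/
noncomputable def Th (w : ℕ → ℕ → ℝ → ℝ → ℝ) (δ : ℝ) (a b : ℕ) (x y : ℝ) : ℝ :=
  match a, b with
  | 1, 0 => th10 w δ x y
  | 0, 1 => th01 w δ x y
  | 2, 0 => th20 w δ x y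
  | 1, 1 => th11 w δ x y
  | 0, 2 => th02 w δ x y
  | 3, 0 => th30 w δ x y
  | 2, 1 => th21 w δ x y
  | 1, 2 => th12 w δ x y
  | 0, 3 => th03 w δ x y
  | 3, 1 => th31 w δ x y
  | 2, 2 => th22 w δ x y
  | 1, 3 => th13 w δ x y
  | _, _ => 0

/-- LQP_LEIB: if `P 0 0 = (1 - w/M)^M`, then `Th w (1/M)` is the family of `-log P` -/
def StmtLeib : Prop := ∀ (w P : ℕ → ℕ → ℝ → ℝ → ℝ) (M : ℕ), 1 ≤ M → Fam w → Fam P →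
  (∀ x y : ℝ, P 0 0 x y = (1 - 1 / (M : ℝ) * w 0 0 x y) ^ M) →
  ∀ x y : ℝ, 0 < 1 - 1 / (M : ℝ) * w 0 0 x y → Rel P (Th w (1 / (M : ℝ))) x y

/-- LQP_LIM: openness of the conditions -/
def StmtOpen : Prop := ∀ w : ℕ → ℕ → ℝ → ℝ → ℝ, Fam w → GG w →
  ∀ᶠ δ in 𝓝 (0 : ℝ), GG (Th w δ) ∧
    ∀ y1 y2 : ℝ, 0 ≤ y1 → y1 ≤ 1 → 0 ≤ y2 → y2 ≤ 1 → 0 < 1 - δ * w 0 0 y1 y2

/-- the homogeneous conditions -/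
structure GE (w : ℕ → ℕ → ℝ → ℝ → ℝ) : Prop where
  g1a : ∀ y1 y2 : ℝ, 0 ≤ y1 → y1 ≤ 1 → 0 ≤ y2 → y2 ≤ 1 →
    0 < Hf w 1 0 y1 y2 + rr y1 * Hf w 2 0 y1 y2
  g1b : ∀ y1 y2 : ℝ, 0 ≤ y1 → y1 ≤ 1 → 0 ≤ y2 → y2 ≤ 1 →
    0 < Hf w 0 1 y1 y2 + rr y2 * Hf w 0 2 y1 y2
  g1c : ∀ y1 y2 : ℝ, 0 ≤ y1 → y1 ≤ 1 → 0 ≤ y2 → y2 ≤ 1 →
    rr y1 * rr y2 * (Hf w 1 1 y1 y2) ^ 2 <
      (Hf w 1 0 y1 y2 + rr y1 * Hf w 2 0 y1 y2) * (Hf w 0 1 y1 y2 + rr y2 * Hf w 0 2 y1 y2)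
  g2a : ∀ y : ℝ, 0 ≤ y → y ≤ 1 → 0 < w 1 0 1 y
  g2b : ∀ y : ℝ, 0 ≤ y → y ≤ 1 → 0 < w 0 1 y 1
  g2c : ∀ y : ℝ, 0 ≤ y → y ≤ 1 → 0 < w 1 1 1 y + rr y * w 1 2 1 y
  g2d : ∀ y : ℝ, 0 ≤ y → y ≤ 1 → 0 < w 1 1 y 1 + rr y * w 2 1 y 1
  h1 : ∀ y : ℝ, 0 ≤ y → y ≤ 1 → 0 < Hf w 1 0 1 y
  h2 : ∀ y : ℝ, 0 ≤ y → y ≤ 1 → 0 < Hf w 0 1 y 1
  g5 : 0 < w 2 0 (1 / 2) (1 / 2) + 2 * w 1 1 (1 / 2) (1 / 2) + w 0 2 (1 / 2) (1 / 2)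

/-- LQP_SCALE: scaling by a large constant -/
def StmtScale : Prop := ∀ w : ℕ → ℕ → ℝ → ℝ → ℝ, Fam w → GE w →
  ∃ K : ℝ, 0 < K ∧ GG (fun a b x y => K * w a b x y)

/-- LQP_ONE: the one variable polynomials -/
structure One (Ph Ps G : Polynomial ℝ) (c : ℝ) : Prop where
  psi : Ps.derivative = Ph
  gg2 : G.derivative.derivative = Polynomial.C (-(1 / 100 : ℝ))
  gg1 : ∀ z : ℝ, G.derivative.eval z = 1 / 100 * (2 - z)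
  b0 : ∀ z : ℝ, -4 ≤ z → z ≤ 1 → 0 ≤ Ph.derivative.derivative.eval z
  bP : Ph.derivative.derivative.eval (-(3 / 2)) = 1
  b1 : ∀ z : ℝ, -4 ≤ z → z ≤ -3 → Ph.derivative.derivative.eval z
    + Ph.derivative.derivative.derivative.eval z < 1 / 100
  b2 : ∀ z : ℝ, -4 ≤ z → z ≤ -3 → 0 ≤ Ph.derivative.derivative.derivative.eval z
  up : ∀ z : ℝ, -4 ≤ z → z ≤ 1 → Ph.derivative.eval z ≤ -(1 / 100)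
  lo : ∀ z : ℝ, -4 ≤ z → z ≤ 1 → 1 / 100 ≤ Ph.derivative.eval z + c
  le : ∀ z : ℝ, -4 ≤ z → z ≤ -3 → Ph.eval z ≤ -1
  gain : 0 < 9 / 2 - 9 / 100 - c + 15 * Ph.derivative.eval (-(3 / 2))

def StmtOne : Prop := ∃ (Ph Ps G : Polynomial ℝ) (c : ℝ), One Ph Ps G c

/-- LQP_ETA: `eta = (1 - y1) Ph + Ps - (c/2)(1 - y1)^2 + G` satisfies `GE` -/
def StmtEta : Prop := ∀ (Ph Ps G : Polynomial ℝ) (c : ℝ), One Ph Ps G c →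
  ∀ w : ℕ → ℕ → ℝ → ℝ → ℝ, Fam w →
  (∀ x y : ℝ, w 0 0 x y = (1 - x) * Ph.eval (x - 4 * y) + Ps.eval (x - 4 * y)
    - c / 2 * (1 - x) ^ 2 + G.eval (x - 4 * y)) → GE w

end Lq
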