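import Pool.Agent.Lq.St1

/-!
# MP_61eda3_an: derivatives of `W` in terms of the normalised jets ((4.1), (4.2), (4.3) of PAPER.md)
-/

set_option autoImplicit false

open Filter Topology

namespace Lq

namespace TDer

/-! ## One variable -/

theorem F_smooth (hs : StmtSmooth) {k : ℕ} (hk : 1 ≤ k) (i : ℕ) : ContDiff ℝ (⊤ : ℕ∞) (F k i) := by
  unfold F
  exact (hs k i hk).comp (contDiff_id.pow 2)

theorem two {f : ℝ → ℝ} (h : ContDiff ℝ (⊤ : ℕ∞) f) : ContDiff ℝ 2 f := by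
  have := contDiff_infty.1 h 2
  exact_mod_cast this

/-- `g = f * (g / f)`, twice differentiated. -/
theorem quot {f g : ℝ → ℝ} (hf : ContDiff ℝ 2 f) (hg : ContDiff ℝ 2 g) {x : ℝ} (hx : f x ≠ 0) :
    g x = f x * (g x / f x) ∧
    deriv g x = deriv f x * (g x / f x) + f x * deriv (fun t => g t / f t) x ∧
    deriv (deriv g) x = deriv (deriv f) x * (g x / f x)
      + 2 * deriv f x * deriv (fun t => g t / f t) x
      + f x * deriv (deriv (fun t => g t / f t)) x := by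
  set G : ℝ → ℝ := fun t => g t / f t with hG
  have hfc : Continuous f := hf.continuous
  have hne : ∀ᶠ t in 𝓝 x, f t ≠ 0 := hfc.continuousAt.eventually_ne hx
  have hfd : ∀ t, DifferentiableAt ℝ f t := fun t => (hf.differentiable (by norm_num)) t
  have hf1 : ContDiff ℝ 1 (deriv f) := by
    have h2 : ContDiff ℝ ((1 : WithTop ℕ∞) + 1) f := by rw [one_add_one_eq_two]; exact hf
    exact (contDiff_succ_iff_deriv.1 h2).2.2
  have hfd' : ∀ t, DifferentiableAt ℝ (deriv f) t := fun t => (hf1.differentiable (by norm_num)) t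
  have hGc : ∀ t, f t ≠ 0 → ContDiffAt ℝ 2 G t := fun t ht =>
    (hg.contDiffAt).div (hf.contDiffAt) ht
  have hGd : ∀ t, f t ≠ 0 → DifferentiableAt ℝ G t := fun t ht =>
    (hGc t ht).differentiableAt (by norm_num)
  have hGd' : DifferentiableAt ℝ (deriv G) x := by
    have h1 : ContDiffAt ℝ 1 (deriv G) x := by
      have h2 := (hGc x hx)
      have h3 : ContDiffAt ℝ 1 (fderiv ℝ G) x := h2.fderiv_right (by norm_num)
      have h4 : deriv G = fun t => fderiv ℝ G t 1 := by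
        funext t
        exact (fderiv_apply_one_eq_deriv (f := G) (x := t)).symm
      rw [h4]
      exact h3.clm_apply contDiffAt_const
    exact h1.differentiableAt (by norm_num)
  have hev : g =ᶠ[𝓝 x] fun t => f t * G t := by
    filter_upwards [hne] with t ht
    rw [hG]
    field_simp
  have hd : deriv g =ᶠ[𝓝 x] fun t => deriv f t * G t + f t * deriv G t := by
    have h1 := hev.deriv
    refine h1.trans ?_
    filter_upwards [hne] with t ht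
    exact deriv_fun_mul (hfd t) (hGd t ht)
  refine ⟨by field_simp, hd.eq_of_nhds, ?_⟩
  rw [hd.deriv_eq]
  have h1 : HasDerivAt (fun t => deriv f t * G t + f t * deriv G t)
      (deriv (deriv f) x * G x + deriv f x * deriv G x
        + (deriv f x * deriv G x + f x * deriv (deriv G) x)) x :=
    ((hfd' x).hasDerivAt.mul (hGd x hx).hasDerivAt).add
      ((hfd x).hasDerivAt.mul hGd'.hasDerivAt)
  rw [h1.deriv]
  ring

theorem Pos.ne {k : ℕ} {x : ℝ} (h : Pos k x) : F k 0 x ≠ 0 := (h.2 x h.1.le le_rfl).ne'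

/-- The jets of one block. -/
theorem block (hs : StmtSmooth) (ho : StmtODE) (hsg : StmtSigns) {k : ℕ} (hk : 8 ≤ k) {x : ℝ}
    (hx : Pos k x) (i : ℕ) :
    F k i x = F k 0 x * j0 k i x ∧
    deriv (F k i) x = F k 0 x / x * (-(X k x) * j0 k i x + D1 k x * j1 k i x) ∧
    deriv (deriv (F k i)) x = F k 0 x / x ^ 2 *
      ((X k x ^ 2 - ee k x) * j0 k i x - 2 * X k x * D1 k x * j1 k i x + D2 k x * j2 k i x) := by
  have hk1 : 1 ≤ k := by omega
  have hx0 : x ≠ 0 := hx.1.ne'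
  have hF : F k 0 x ≠ 0 := Pos.ne hx
  have hS := hsg k x hk hx
  have hD1 : D1 k x ≠ 0 := hS.d1.ne'
  have hD2 : D2 k x ≠ 0 := by
    have : 0 < 4 * x ^ 2 / (k : ℝ) ^ 2 := by
      have : (0 : ℝ) < k := by exact_mod_cast (by omega : 0 < k)
      have := hx.1
      positivity
    exact (lt_of_lt_of_le this hS.d2).ne'
  have h2 : ∀ i, ContDiff ℝ 2 (F k i) := fun i => two (F_smooth hs hk1 i)
  obtain ⟨q0, q1, q2⟩ := quot (h2 0) (h2 i) hF
  have hf1 : deriv (F k 0) x = -(X k x) * F k 0 x / x := by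
    unfold X
    field_simp
  have hf2 : deriv (deriv (F k 0)) x = F k 0 x * (X k x ^ 2 - ee k x) / x ^ 2 := by
    have h := (ho k hk1).2 x
    rw [hf1] at h
    have h3 : x * deriv (deriv (F k 0)) x =
        ((k : ℝ) - 1) * (X k x * F k 0 x / x) - x * F k 0 x := by linear_combination h
    have h4 : deriv (deriv (F k 0)) x =
        (((k : ℝ) - 1) * (X k x * F k 0 x / x) - x * F k 0 x) / x := by
      rw [← h3]
      field_simp
    rw [h4]
    unfold ee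
    field_simp
    ring
  have hj1 : deriv (fun t => F k i t / F k 0 t) x = D1 k x * j1 k i x / x := by
    unfold j1
    field_simp
  have hj2 : deriv (deriv (fun t => F k i t / F k 0 t)) x = D2 k x * j2 k i x / x ^ 2 := by
    unfold j2
    field_simp
  refine ⟨q0, ?_, ?_⟩
  · rw [q1, hf1, hj1]
    unfold j0
    field_simp
  · rw [q2, hf1, hf2, hj1, hj2]
    unfold j0
    field_simp
    ring

/-! ## Two variables -/

theorem JJ_left (d : ℕ) (c : ℕ → ℕ → ℝ) (p q r : ℝ) (A A' A'' B : ℕ → ℝ) :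
    JJ d c (fun i => p * A i + q * A' i + r * A'' i) B =
      p * JJ d c A B + q * JJ d c A' B + r * JJ d c A'' B := by
  unfold JJ
  rw [Finset.mul_sum, Finset.mul_sum, Finset.mul_sum, ← Finset.sum_add_distrib,
    ← Finset.sum_add_distrib]
  refine Finset.sum_congr rfl fun i _ => ?_
  rw [Finset.mul_sum, Finset.mul_sum, Finset.mul_sum, ← Finset.sum_add_distrib,
    ← Finset.sum_add_distrib]
  refine Finset.sum_congr rfl fun j _ => ?_
  ring

theorem JJ_right (d : ℕ) (c : ℕ → ℕ → ℝ) (p q r : ℝ) (A B B' B'' : ℕ → ℝ) :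
    JJ d c A (fun i => p * B i + q * B' i + r * B'' i) =
      p * JJ d c A B + q * JJ d c A B' + r * JJ d c A B'' := by
  unfold JJ
  rw [Finset.mul_sum, Finset.mul_sum, Finset.mul_sum, ← Finset.sum_add_distrib,
    ← Finset.sum_add_distrib]
  refine Finset.sum_congr rfl fun i _ => ?_
  rw [Finset.mul_sum, Finset.mul_sum, Finset.mul_sum, ← Finset.sum_add_distrib,
    ← Finset.sum_add_distrib]
  refine Finset.sum_congr rfl fun j _ => ?_
  ring

theorem JJ_const (d : ℕ) (c : ℕ → ℕ → ℝ) (s : ℝ) (A B : ℕ → ℝ) :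
    JJ d (fun a b => s * c a b) A B = s * JJ d c A B := by
  unfold JJ
  rw [Finset.mul_sum]
  refine Finset.sum_congr rfl fun i _ => ?_
  rw [Finset.mul_sum]
  refine Finset.sum_congr rfl fun j _ => ?_
  ring

/-- derivative of a sum of products -/
theorem hasFDeriv_JJ (d : ℕ) (c : ℕ → ℕ → ℝ) {a b : ℕ → ℝ → ℝ}
    (ha : ∀ i t, DifferentiableAt ℝ (a i) t) (hb : ∀ i t, DifferentiableAt ℝ (b i) t)
    (x : ℝ × ℝ) :
    ∃ L : ℝ × ℝ →L[ℝ] ℝ,
      HasFDerivAt (fun z : ℝ × ℝ => JJ d c (fun i => a i z.1) (fun j => b j z.2)) L x ∧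
      ∀ v : ℝ × ℝ, L v = v.1 * JJ d c (fun i => deriv (a i) x.1) (fun j => b j x.2)
        + v.2 * JJ d c (fun i => a i x.1) (fun j => deriv (b j) x.2) := by
  have h1 : ∀ i j : ℕ, HasFDerivAt (fun z : ℝ × ℝ => c i j * a i z.1 * b j z.2)
      ((c i j * a i x.1) • (deriv (b j) x.2 • ContinuousLinearMap.snd ℝ ℝ ℝ) +
        b j x.2 • (c i j • (deriv (a i) x.1 • ContinuousLinearMap.fst ℝ ℝ ℝ))) x := by
    intro i j
    have e1 : HasFDerivAt (fun z : ℝ × ℝ => a i z.1)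
        (deriv (a i) x.1 • ContinuousLinearMap.fst ℝ ℝ ℝ) x :=
      (ha i x.1).hasDerivAt.comp_hasFDerivAt x hasFDerivAt_fst
    have e2 : HasFDerivAt (fun z : ℝ × ℝ => b j z.2)
        (deriv (b j) x.2 • ContinuousLinearMap.snd ℝ ℝ ℝ) x :=
      (hb j x.2).hasDerivAt.comp_hasFDerivAt x hasFDerivAt_snd
    exact (e1.const_mul (c i j)).mul e2
  refine ⟨∑ i ∈ Finset.range (d + 1), ∑ j ∈ Finset.range (d + 1),
    ((c i j * a i x.1) • (deriv (b j) x.2 • ContinuousLinearMap.snd ℝ ℝ ℝ) +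
        b j x.2 • (c i j • (deriv (a i) x.1 • ContinuousLinearMap.fst ℝ ℝ ℝ))), ?_, ?_⟩
  · unfold JJ
    exact HasFDerivAt.fun_sum fun i _ => HasFDerivAt.fun_sum fun j _ => h1 i j
  · intro v
    unfold JJ
    simp only [sum_apply, add_apply, smul_apply, ContinuousLinearMap.coe_fst', ContinuousLinearMap.coe_snd',
      smul_eq_mul]
    rw [Finset.mul_sum, Finset.mul_sum, ← Finset.sum_add_distrib]
    refine Finset.sum_congr rfl fun i _ => ?_
    rw [Finset.mul_sum, Finset.mul_sum, ← Finset.sum_add_distrib]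
    refine Finset.sum_congr rfl fun j _ => ?_
    ring

theorem d1_JJ (d : ℕ) (c : ℕ → ℕ → ℝ) {a b : ℕ → ℝ → ℝ}
    (ha : ∀ i t, DifferentiableAt ℝ (a i) t) (hb : ∀ i t, DifferentiableAt ℝ (b i) t)
    (x v : ℝ × ℝ) :
    d1 (fun z : ℝ × ℝ => JJ d c (fun i => a i z.1) (fun j => b j z.2)) x v =
      v.1 * JJ d c (fun i => deriv (a i) x.1) (fun j => b j x.2)
        + v.2 * JJ d c (fun i => a i x.1) (fun j => deriv (b j) x.2) := by
  obtain ⟨L, h1, h2⟩ := hasFDeriv_JJ d c ha hb x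
  unfold d1
  rw [h1.fderiv, h2]

theorem d2_JJ (d : ℕ) (c : ℕ → ℕ → ℝ) {a b : ℕ → ℝ → ℝ}
    (ha : ∀ i t, DifferentiableAt ℝ (a i) t) (hb : ∀ i t, DifferentiableAt ℝ (b i) t)
    (ha' : ∀ i t, DifferentiableAt ℝ (deriv (a i)) t)
    (hb' : ∀ i t, DifferentiableAt ℝ (deriv (b i)) t) (x v : ℝ × ℝ) :
    d2 (fun z : ℝ × ℝ => JJ d c (fun i => a i z.1) (fun j => b j z.2)) x v =
      v.1 ^ 2 * JJ d c (fun i => deriv (deriv (a i)) x.1) (fun j => b j x.2)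
        + 2 * v.1 * v.2 * JJ d c (fun i => deriv (a i) x.1) (fun j => deriv (b j) x.2)
        + v.2 ^ 2 * JJ d c (fun i => a i x.1) (fun j => deriv (deriv (b j)) x.2) := by
  unfold d2
  have h1 : (fun z : ℝ × ℝ =>
      fderiv ℝ (fun z : ℝ × ℝ => JJ d c (fun i => a i z.1) (fun j => b j z.2)) z v) =
      fun z : ℝ × ℝ => v.1 * JJ d c (fun i => deriv (a i) z.1) (fun j => b j z.2)
        + v.2 * JJ d c (fun i => a i z.1) (fun j => deriv (b j) z.2) := by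
    funext z
    exact d1_JJ d c ha hb z v
  rw [h1]
  obtain ⟨L, hL, hL'⟩ := hasFDeriv_JJ d c ha' hb x
  obtain ⟨M, hM, hM'⟩ := hasFDeriv_JJ d c ha hb' x
  have h2 := (hL.const_mul v.1).fun_add (hM.const_mul v.2)
  rw [h2.fderiv]
  simp only [add_apply, smul_apply, smul_eq_mul]
  rw [hL', hM']
  ring

end TDer

open TDer

/-- `X xi` -/
noncomputable def Xx (k : ℕ) (x1 x2 : ℝ) (v : ℝ × ℝ) : ℝ :=
  X k x1 * (v.1 / x1) + X (4 * k) x2 * (v.2 / x2)

/-- `sum e_i xi_i^2` -/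
noncomputable def Ex (k : ℕ) (x1 x2 : ℝ) (v : ℝ × ℝ) : ℝ :=
  ee k x1 * (v.1 / x1) ^ 2 + ee (4 * k) x2 * (v.2 / x2) ^ 2

/-- `S' xi` -/
noncomputable def Jx (k : ℕ) (x1 x2 : ℝ) (S : Jet) (v : ℝ × ℝ) : ℝ :=
  S.s1 * (D1 k x1 * (v.1 / x1)) + S.s2 * (D1 (4 * k) x2 * (v.2 / x2))

/-- `S''(xi, xi)` -/
noncomputable def Jxx (k : ℕ) (x1 x2 : ℝ) (S : Jet) (v : ℝ × ℝ) : ℝ :=
  S.s11 * (D2 k x1 * (v.1 / x1) ^ 2) + S.s22 * (D2 (4 * k) x2 * (v.2 / x2) ^ 2)
    + 2 * S.s12 * ((D1 k x1 * (v.1 / x1)) * (D1 (4 * k) x2 * (v.2 / x2)))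

/-- the coefficient array `(k/4) Dop` -/
noncomputable def Qc (k d : ℕ) (c : ℕ → ℕ → ℝ) : ℕ → ℕ → ℝ := fun a b =>
  (k : ℝ) / 4 * Dop k d c a b

/-- (4.1) -/
theorem W_jets (hs : StmtSmooth) (ho : StmtODE) (hsg : StmtSigns) (k d : ℕ) (c : ℕ → ℕ → ℝ)
    (hk : 8 ≤ k) {x1 x2 : ℝ} (h1 : Pos k x1) (h2 : Pos (4 * k) x2) (v : ℝ × ℝ) :
    W k d c (x1, x2) = F k 0 x1 * F (4 * k) 0 x2 * (kJet k d c x1 x2).s ∧
    d1 (W k d c) (x1, x2) v = F k 0 x1 * F (4 * k) 0 x2 *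
      (Jx k x1 x2 (kJet k d c x1 x2) v - (kJet k d c x1 x2).s * Xx k x1 x2 v) ∧
    d2 (W k d c) (x1, x2) v = F k 0 x1 * F (4 * k) 0 x2 *
      ((kJet k d c x1 x2).s * Xx k x1 x2 v ^ 2 - (kJet k d c x1 x2).s * Ex k x1 x2 v
        - 2 * Xx k x1 x2 v * Jx k x1 x2 (kJet k d c x1 x2) v
        + Jxx k x1 x2 (kJet k d c x1 x2) v) := by
  have hk1 : 1 ≤ k := by omega
  have hk4 : 1 ≤ 4 * k := by omega
  have s1 : ∀ i, ContDiff ℝ 2 (F k i) := fun i => two (F_smooth hs hk1 i)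
  have s2 : ∀ i, ContDiff ℝ 2 (F (4 * k) i) := fun i => two (F_smooth hs hk4 i)
  have dd : ∀ f : ℝ → ℝ, ContDiff ℝ 2 f → (∀ t, DifferentiableAt ℝ f t) ∧
      ∀ t, DifferentiableAt ℝ (deriv f) t := by
    intro f hf
    have hf1 : ContDiff ℝ 1 (deriv f) := by
      have h2 : ContDiff ℝ ((1 : WithTop ℕ∞) + 1) f := by rw [one_add_one_eq_two]; exact hf
      exact (contDiff_succ_iff_deriv.1 h2).2.2
    exact ⟨fun t => (hf.differentiable (by norm_num)) t,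
      fun t => (hf1.differentiable (by norm_num)) t⟩
  have b1 := fun i => block hs ho hsg hk h1 i
  have b2 := fun i => block hs ho hsg (by omega : 8 ≤ 4 * k) h2 i
  have e1 : (fun i => F k i x1) = fun i =>
      F k 0 x1 * j0 k i x1 + 0 * j1 k i x1 + 0 * j2 k i x1 := by
    funext i; rw [(b1 i).1]; ring
  have e1' : (fun i => deriv (F k i) x1) = fun i =>
      (-(F k 0 x1 / x1 * X k x1)) * j0 k i x1 + (F k 0 x1 / x1 * D1 k x1) * j1 k i x1
        + 0 * j2 k i x1 := by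
    funext i; rw [(b1 i).2.1]; ring
  have e1'' : (fun i => deriv (deriv (F k i)) x1) = fun i =>
      (F k 0 x1 / x1 ^ 2 * (X k x1 ^ 2 - ee k x1)) * j0 k i x1
        + (-(F k 0 x1 / x1 ^ 2 * (2 * X k x1 * D1 k x1))) * j1 k i x1
        + (F k 0 x1 / x1 ^ 2 * D2 k x1) * j2 k i x1 := by
    funext i; rw [(b1 i).2.2]; ring
  have e2 : (fun i => F (4 * k) i x2) = fun i =>
      F (4 * k) 0 x2 * j0 (4 * k) i x2 + 0 * j1 (4 * k) i x2 + 0 * j2 (4 * k) i x2 := by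
    funext i; rw [(b2 i).1]; ring
  have e2' : (fun i => deriv (F (4 * k) i) x2) = fun i =>
      (-(F (4 * k) 0 x2 / x2 * X (4 * k) x2)) * j0 (4 * k) i x2
        + (F (4 * k) 0 x2 / x2 * D1 (4 * k) x2) * j1 (4 * k) i x2
        + 0 * j2 (4 * k) i x2 := by
    funext i; rw [(b2 i).2.1]; ring
  have e2'' : (fun i => deriv (deriv (F (4 * k) i)) x2) = fun i =>
      (F (4 * k) 0 x2 / x2 ^ 2 * (X (4 * k) x2 ^ 2 - ee (4 * k) x2)) * j0 (4 * k) i x2
        + (-(F (4 * k) 0 x2 / x2 ^ 2 * (2 * X (4 * k) x2 * D1 (4 * k) x2))) * j1 (4 * k) i x2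
        + (F (4 * k) 0 x2 / x2 ^ 2 * D2 (4 * k) x2) * j2 (4 * k) i x2 := by
    funext i; rw [(b2 i).2.2]; ring
  refine ⟨?_, ?_, ?_⟩
  · show JJ d c (fun i => F k i x1) (fun j => F (4 * k) j x2) = _
    rw [e1, e2]
    simp only [JJ_left, JJ_right]
    unfold kJet mkJet
    simp only
    ring
  · have := d1_JJ d c (fun i => (dd _ (s1 i)).1) (fun i => (dd _ (s2 i)).1) (x1, x2) v
    rw [show W k d c = fun z : ℝ × ℝ => JJ d c (fun i => F k i z.1) (fun j => F (4 * k) j z.2)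
      from rfl, this]
    simp only
    rw [e1, e1', e2, e2']
    simp only [JJ_left, JJ_right]
    unfold Jx Xx kJet mkJet
    simp only
    ring
  · have := d2_JJ d c (fun i => (dd _ (s1 i)).1) (fun i => (dd _ (s2 i)).1)
      (fun i => (dd _ (s1 i)).2) (fun i => (dd _ (s2 i)).2) (x1, x2) v
    rw [show W k d c = fun z : ℝ × ℝ => JJ d c (fun i => F k i z.1) (fun j => F (4 * k) j z.2)
      from rfl, this]
    simp only
    rw [e1, e1', e1'', e2, e2', e2'']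
    simp only [JJ_left, JJ_right]
    unfold Jx Xx Ex Jxx kJet mkJet
    simp only
    ring

/-- (4.2) -/
theorem formB (hs : StmtSmooth) (ho : StmtODE) (hsg : StmtSigns) (k d : ℕ) (c : ℕ → ℕ → ℝ)
    (hk : 8 ≤ k) {x1 x2 : ℝ} (h1 : Pos k x1) (h2 : Pos (4 * k) x2) (v : ℝ × ℝ) (be : ℝ) :
    -(W k d c (x1, x2) * d2 (W k d c) (x1, x2) v) + (1 - be) * (d1 (W k d c) (x1, x2) v) ^ 2 =
      (F k 0 x1 * F (4 * k) 0 x2) ^ 2 *
        ((kJet k d c x1 x2).s ^ 2 * Ex k x1 x2 v + Jx k x1 x2 (kJet k d c x1 x2) v ^ 2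
          - (kJet k d c x1 x2).s * Jxx k x1 x2 (kJet k d c x1 x2) v
          - be * ((kJet k d c x1 x2).s * Xx k x1 x2 v
              - Jx k x1 x2 (kJet k d c x1 x2) v) ^ 2) := by
  obtain ⟨w0, w1, w2⟩ := W_jets hs ho hsg k d c hk h1 h2 v
  rw [w0, w1, w2]
  ring

theorem W_Dop (k d : ℕ) (hk : 1 ≤ k) (c : ℕ → ℕ → ℝ) :
    W k d (Dop k d c) = fun z => 4 / (k : ℝ) * W k d (Qc k d c) z := by
  funext z
  have hk' : (k : ℝ) ≠ 0 := by
    have : (0 : ℝ) < k := by exact_mod_cast hk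
    exact this.ne'
  unfold W Qc
  rw [JJ_const]
  field_simp

theorem d1_const_mul {w : ℝ × ℝ → ℝ} (s : ℝ) (hw : Differentiable ℝ w) (x v : ℝ × ℝ) :
    d1 (fun z => s * w z) x v = s * d1 w x v := by
  unfold d1
  rw [fderiv_const_mul (hw x)]
  simp

/-- (4.3) -/
theorem formC (hs : StmtSmooth) (ho : StmtODE) (hsg : StmtSigns) (k d : ℕ) (c : ℕ → ℕ → ℝ)
    (hk : 8 ≤ k) {x1 x2 : ℝ} (h1 : Pos k x1) (h2 : Pos (4 * k) x2) (v : ℝ × ℝ) :
    2 * W k d (Dop k d c) (x1, x2) * (d1 (W k d c) (x1, x2) v) ^ 2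
      - 2 * W k d c (x1, x2) * d1 (W k d c) (x1, x2) v * d1 (W k d (Dop k d c)) (x1, x2) v
      - W k d c (x1, x2) * W k d (Dop k d c) (x1, x2) * d2 (W k d c) (x1, x2) v
      + (W k d c (x1, x2)) ^ 2 * d2 (W k d (Dop k d c)) (x1, x2) v =
    4 / (k : ℝ) * (F k 0 x1 * F (4 * k) 0 x2) ^ 3 *
      (q11 (D1 k x1 ^ 2 / D2 k x1) (kJet k d c x1 x2) (kJet k d (Qc k d c) x1 x2)
          * (D2 k x1 * (v.1 / x1) ^ 2)
        + q22 (D1 (4 * k) x2 ^ 2 / D2 (4 * k) x2) (kJet k d c x1 x2) (kJet k d (Qc k d c) x1 x2)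
          * (D2 (4 * k) x2 * (v.2 / x2) ^ 2)
        + 2 * q12 (kJet k d c x1 x2) (kJet k d (Qc k d c) x1 x2)
          * ((D1 k x1 * (v.1 / x1)) * (D1 (4 * k) x2 * (v.2 / x2)))) := by
  obtain ⟨w0, w1, w2⟩ := W_jets hs ho hsg k d c hk h1 h2 v
  obtain ⟨u0, u1, u2⟩ := W_jets hs ho hsg k d (Dop k d c) hk h1 h2 v
  have hk0 : (0 : ℝ) < k := by exact_mod_cast (by omega : 0 < k)
  have hk' : (k : ℝ) ≠ 0 := hk0.ne'
  have hD2 : D2 k x1 ≠ 0 := by
    have : 0 < 4 * x1 ^ 2 / (k : ℝ) ^ 2 := by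
      have := h1.1
      positivity
    exact (lt_of_lt_of_le this (hsg k x1 hk h1).d2).ne'
  have hD2' : D2 (4 * k) x2 ≠ 0 := by
    have : 0 < 4 * x2 ^ 2 / ((4 * k : ℕ) : ℝ) ^ 2 := by
      have := h2.1
      push_cast
      positivity
    exact (lt_of_lt_of_le this (hsg (4 * k) x2 (by omega) h2).d2).ne'
  -- the jet of `Dop` is `4/k` times the jet of `Qc`
  have hc : Dop k d c = fun a b => 4 / (k : ℝ) * Qc k d c a b := by
    funext a b
    unfold Qc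
    field_simp
  have hJ : kJet k d (Dop k d c) x1 x2 = ⟨4 / (k : ℝ) * (kJet k d (Qc k d c) x1 x2).s,
      4 / (k : ℝ) * (kJet k d (Qc k d c) x1 x2).s1, 4 / (k : ℝ) * (kJet k d (Qc k d c) x1 x2).s2,
      4 / (k : ℝ) * (kJet k d (Qc k d c) x1 x2).s12, 4 / (k : ℝ) * (kJet k d (Qc k d c) x1 x2).s11,
      4 / (k : ℝ) * (kJet k d (Qc k d c) x1 x2).s22⟩ := by
    conv_lhs => rw [hc]
    unfold kJet mkJet
    simp only [JJ_const]
  rw [w0, w1, w2, u0, u1, u2, hJ]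
  generalize kJet k d c x1 x2 = S
  generalize kJet k d (Qc k d c) x1 x2 = Q
  have e1 : D1 k x1 ^ 2 / D2 k x1 * (D2 k x1 * (v.1 / x1) ^ 2) = (D1 k x1 * (v.1 / x1)) ^ 2 := by
    field_simp
  have e2 : D1 (4 * k) x2 ^ 2 / D2 (4 * k) x2 * (D2 (4 * k) x2 * (v.2 / x2) ^ 2) =
      (D1 (4 * k) x2 * (v.2 / x2)) ^ 2 := by
    field_simp
  generalize D1 k x1 ^ 2 / D2 k x1 = r1 at e1 ⊢
  generalize D1 (4 * k) x2 ^ 2 / D2 (4 * k) x2 = r2 at e2 ⊢
  unfold q11 q22 q12 Jx Jxx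
  simp only
  generalize D1 k x1 * (v.1 / x1) = A at e1 ⊢
  generalize D1 (4 * k) x2 * (v.2 / x2) = B at e2 ⊢
  generalize D2 k x1 * (v.1 / x1) ^ 2 = A2 at e1 ⊢
  generalize D2 (4 * k) x2 * (v.2 / x2) ^ 2 = B2 at e2 ⊢
  generalize Xx k x1 x2 v = Xv
  generalize Ex k x1 x2 v = Ev
  generalize F k 0 x1 * F (4 * k) 0 x2 = FF
  linear_combination (-(4 / (k : ℝ) * FF ^ 3 * (2 * Q.s * S.s1 ^ 2 - 2 * S.s * Q.s1 * S.s1))) * e1
    + (-(4 / (k : ℝ) * FF ^ 3 * (2 * Q.s * S.s2 ^ 2 - 2 * S.s * Q.s2 * S.s2))) * e2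

end Lq
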