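import Pool.Agent.Lq.DFin
import Pool.Agent.Lq.JFin
import Pool.Agent.Lq.LQT_SEL
import Pool.Agent.Lq.LQT_T1
import Pool.Agent.Lq.LQT_T2
import Pool.Agent.Lq.LQT_T3
import Pool.Agent.Lq.LQT_T5
import Pool.Agent.Lq.LQT_T6
import Pool.Agent.Lq.LQT_T8
import Pool.Agent.Lq.LQT_T9
import Pool.Agent.Lq.LQT_T10
import Pool.Agent.Lq.LQT_T11
import Pool.Agent.Lq.LQT_T12
import Pool.Agent.Lq.LQT_T13
import Pool.Agent.Lq.LQT_T14
import Pool.Agent.Lq.LQT_T15a
import Pool.Agent.Lq.LQT_T15q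
import Pool.Agent.Lq.LQT_T15
import Pool.Agent.Lq.LQT_T16
import Pool.Agent.Lq.LQT_T17
import Pool.Agent.Lq.LQT_T18

/-!
# MP_61eda3_an: `StmtOut` (section 4), all hypotheses discharged
-/

set_option autoImplicit false

open Filter Topology

namespace Lq

namespace ZOut

theorem z1 : StmtT1 := t_T1 t_Smooth t_ODE u_Signs
theorem z2 : StmtT2 := t_T2 z1 u_Signs
theorem z5 : StmtT5 := t_T5 u_Signs z1 u_J0 u_J1 u_J2 t_Lop
theorem z6 : StmtT6 := t_T6 t_T3 z5 u_R u_Signs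
theorem z8 : StmtT8 := t_T8 u_Signs
theorem z9 : StmtT9 := t_T9 u_G u_DE u_R u_Signs
theorem z10 : StmtT10 := t_T10 t_T3 z5 z8 z9 u_Signs
theorem z11 : StmtT11 := t_T11 z5 z9 z10
theorem z12 : StmtT12 := t_T12 z5 z9 z10
theorem z13 : StmtT13 := t_T13 z5 z9 z10
theorem z14 : StmtT14 := t_T14 z5 z9 z10
theorem z15 : StmtT15 := t_T15 (t_T15a u_G u_R u_Delta u_Signs) (t_T15q z5) z5 u_Signs
theorem zSel : StmtSel := t_SEL u_Signs z1 u_J0
theorem z16 : StmtT16 :=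
  t_T16 zSel z1 z2 z6 z11 z12 z13 z14 z15 u_Signs u_Mono t_Smooth t_ODE
theorem z17 : StmtT17 := t_T17 t_Smooth
theorem zBC : StmtOutBC := t_T18 z16 z17

end ZOut

/-- Step 1 of the construction: for large `k` all the conditions on the two block domain hold. -/
theorem t_Out : StmtOut := by
  intro d c b ks th hL
  filter_upwards [u_Top d c b ks th hL, ZOut.zBC d c b ks th hL] with k h1 h2
  obtain ⟨hB, hC⟩ := h2 h1.1.op
  exact ⟨h1.1.op, h1.1.bd, h1.1.zero, h1.1.nonneg, h1.1.front, hB, hC, h1.1.grad⟩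

end Lq
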