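import Pool.Agent.Lq.AMain
import Pool.Agent.Lq.ZOut
import Pool.Agent.Lq.PFin
import Pool.Agent.Lq.PFam
import Pool.Agent.Lq.PLeib
import Pool.Agent.Lq.PLim
import Pool.Agent.Lq.PPol
import Pool.Agent.Lq.PScale
import Pool.Agent.Lq.PEta
import Pool.Agent.Lq.S5E
import Pool.Agent.LQL.All

/-!
# MP_61eda3_an: the final theorem, from the one variable polynomials (`StmtOne`)
-/

set_option autoImplicit false

namespace Lq

theorem lim_of_one (hOne : StmtOne) : StmtLim :=
  lim_of_goodEx (goodEx_of isP_thm fam_thm leib_thm open_thm scale_thm hOne eta_thm)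

theorem final_of_one (hOne : StmtOne) : StmtFinal :=
  final_of3 (lim_of_one hOne) t_Out LQL.thin2

end Lq
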